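import Pool.Agent.Lib.SFA.MeetS

/-!
# SFA.AboveS: the test `above`

By `ht_order` one of the two orders holds on the whole interval `(X z, a')`; show that the test gives the right answer.
Write `g c = ht s c - ht t c`, affine with slope of the sign of `- cross (s.2 - s.1) (t.2 - t.1) = cross (t.2 - t.1) (s.2 - s.1)`: indeed with
`k_s = (s.2.im - s.1.im) / (X s.2 - X s.1)` the slope is `k_s - k_t` and `cross_eq` gives
`cross (t.2 - t.1) (s.2 - s.1) = (X t.2 - X t.1) (X s.2 - X s.1) (k_s - k_t)`.
* `meet s t = some u` (`meet_iff_S`): `g (X u) = 0` (`mem_carrier_iff'`), the slope is not 0 (otherwise `g = 0` everywhere and there is a common point with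
  abscissa in the interval; or: two common points).  If `X z < X u` (`lexB_X`, `u` critical by `IsCrit.inter`) then by `hno` `a' ≤ X u`, the interval is to
  the left of the zero, so `g > 0` there iff the slope is negative.  Otherwise it is to the right of the zero and `g > 0` iff the slope is positive.
* `meet s t = none`: no common point at all.  Let `A = max (X s.1) (X t.1) ≤ X z`; then `ht_order`-like: `g` has no zero on
  `[A, min (X s.2) (X t.2)]` (a zero gives a common point), so the sign of `g` on the interval is its sign at `A`.  If `X t.1 < X s.1` (`lexB_X`)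
  then `A = X s.1` and `g A > 0 ↔ 0 < ori t s.1` (`ori_pos_iff`, `ht s (X s.1) = s.1.im`: `ori_zero_iff` and `ori_left`).  Otherwise `A = X t.1` (or the two are
  equal, then `s.1 = t.1` by `hG.inj`, a common point, impossible) and `g A > 0 ↔ ori s t.1 < 0`.
-/

namespace SFA

namespace AboveSAux

theorem pos_of {f : ℝ → ℝ} (hf : Continuous f) {A c : ℝ} (hAc : A ≤ c) (h0 : 0 < f A)
    (hz : ∀ y, A ≤ y → y ≤ c → f y ≠ 0) : 0 < f c := by
  by_contra h
  push Not at h
  have h1 : (0 : ℝ) ∈ f '' Set.Icc A c := intermediate_value_Icc' hAc hf.continuousOn ⟨h, h0.le⟩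
  obtain ⟨y, hy, hy'⟩ := h1
  exact hz y hy.1 hy.2 hy'

/-- The difference of the heights is affine. -/
theorem affine {eps : ℝ} {s t : Seg} (hs : X eps s.1 < X eps s.2) (ht' : X eps t.1 < X eps t.2)
    (c c0 : ℝ) :
    (X eps s.2 - X eps s.1) * (X eps t.2 - X eps t.1) *
      ((ht eps s c - ht eps t c) - (ht eps s c0 - ht eps t c0)) =
      cross (t.2 - t.1) (s.2 - s.1) * (c - c0) := by
  have h1 : X eps s.2 - X eps s.1 ≠ 0 := by linarith
  have h2 : X eps t.2 - X eps t.1 ≠ 0 := by linarith
  rw [cross_eq eps, X_sub, X_sub, Complex.sub_im, Complex.sub_im]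
  unfold ht
  field_simp
  ring

end AboveSAux

open AboveSAux

theorem above_spec {eps : ℝ} {S : Finset Seg} {x : ℂ} (hG : Gen eps S x) (hL : LexOK eps S x)
    {s t : Seg} (hs : s ∈ S) (ht' : t ∈ S) (hst : s ≠ t) {z : ℂ} (hz : IsCrit S z ∨ z = x)
    {a' : ℝ} (h : X eps z < a') (hs1 : X eps s.1 ≤ X eps z) (hs2 : a' ≤ X eps s.2)
    (ht1 : X eps t.1 ≤ X eps z) (ht2 : a' ≤ X eps t.2)
    (hno : ∀ w, w ∈ carrier s → w ∈ carrier t → ¬ (X eps z < X eps w ∧ X eps w < a')) :
    (above s t z = true ∧ ∀ c, X eps z < c → c < a' → ht eps t c < ht eps s c) ∨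
      (above s t z = false ∧ ∀ c, X eps z < c → c < a' → ht eps s c < ht eps t c) := by
  have is := hG.inc s hs
  have it := hG.inc t ht'
  have hw : 0 < (X eps s.2 - X eps s.1) * (X eps t.2 - X eps t.1) :=
    mul_pos (by linarith) (by linarith)
  -- a common zero of the height difference is a common point
  have hcom : ∀ c, X eps s.1 ≤ c → c ≤ X eps s.2 → X eps t.1 ≤ c → c ≤ X eps t.2 →
      ht eps s c - ht eps t c = 0 → pt eps c (ht eps s c) ∈ carrier s ∧
        pt eps c (ht eps s c) ∈ carrier t := by
    intro c c1 c2 c3 c4 c5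
    refine ⟨pt_mem_carrier is c1 c2, ?_⟩
    have : ht eps s c = ht eps t c := by linarith
    rw [this]
    exact pt_mem_carrier it c3 c4
  cases hm : meet s t with
  | some u =>
    have hu := (meet_iff_S hG hs ht' hst u).1 (by rw [hm]; rfl)
    have hu1 := (mem_carrier_iff' is u).1 hu.1
    have hu2 := (mem_carrier_iff' it u).1 hu.2
    have hg0 : ht eps s (X eps u) - ht eps t (X eps u) = 0 := by
      rw [← hu1.2.2, ← hu2.2.2]
      ring
    have hcu : IsCrit S u := IsCrit.inter hs ht' hst hu.1 hu.2
    have haff : ∀ c, (X eps s.2 - X eps s.1) * (X eps t.2 - X eps t.1) *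
        (ht eps s c - ht eps t c) = cross (t.2 - t.1) (s.2 - s.1) * (c - X eps u) := by
      intro c
      have := affine is it c (X eps u)
      rw [hg0, sub_zero] at this
      exact this
    have hD : cross (t.2 - t.1) (s.2 - s.1) ≠ 0 := by
      intro hD
      have h1 := haff ((X eps z + a') / 2)
      rw [hD, zero_mul] at h1
      have h2 := (mul_eq_zero.1 h1).resolve_left hw.ne'
      have h3 := hcom ((X eps z + a') / 2) (by linarith) (by linarith) (by linarith)
        (by linarith) h2
      exact hno _ h3.1 h3.2 ⟨by rw [X_pt]; linarith, by rw [X_pt]; linarith⟩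
    have hpos : ∀ c, 0 < cross (t.2 - t.1) (s.2 - s.1) * (c - X eps u) →
        ht eps t c < ht eps s c := by
      intro c hc
      rw [← haff c] at hc
      have := (mul_pos_iff_of_pos_left hw).1 hc
      linarith
    have hneg : ∀ c, cross (t.2 - t.1) (s.2 - s.1) * (c - X eps u) < 0 →
        ht eps s c < ht eps t c := by
      intro c hc
      rw [← haff c] at hc
      by_contra h3
      push Not at h3
      have := mul_nonneg hw.le (sub_nonneg.2 h3)
      linarith
    have hlex := lexB_X hL hz (Or.inl hcu)
    by_cases hzu : X eps z < X eps u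
    · have hau : a' ≤ X eps u := by
        by_contra h3
        push Not at h3
        exact hno u hu.1 hu.2 ⟨hzu, h3⟩
      have hab : above s t z = decide (cross (t.2 - t.1) (s.2 - s.1) < 0) := by
        unfold above
        rw [hm, Option.elim_some, if_pos (hlex.2 hzu)]
      rcases lt_or_gt_of_ne hD with hD' | hD'
      · left
        refine ⟨by rw [hab]; simpa using hD', fun c _ c2 => hpos c ?_⟩
        exact mul_pos_of_neg_of_neg hD' (by linarith)
      · right
        refine ⟨by rw [hab]; simpa using hD'.le, fun c _ c2 => hneg c ?_⟩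
        exact mul_neg_of_pos_of_neg hD' (by linarith)
    · have hab : above s t z = decide (0 < cross (t.2 - t.1) (s.2 - s.1)) := by
        unfold above
        rw [hm, Option.elim_some, if_neg (fun h3 => hzu (hlex.1 h3))]
      push Not at hzu
      rcases lt_or_gt_of_ne hD with hD' | hD'
      · right
        refine ⟨by rw [hab]; simpa using hD'.le, fun c c1 _ => hneg c ?_⟩
        exact mul_neg_of_neg_of_pos hD' (by linarith)
      · left
        refine ⟨by rw [hab]; simpa using hD', fun c c1 _ => hpos c ?_⟩
        exact mul_pos hD' (by linarith)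
  | none =>
    have hnc := meet_none_S hG hs ht' hst hm
    have hlex := lexB_X hL (u := t.1) (v := s.1) (Or.inl (IsCrit.left ht'))
      (Or.inl (IsCrit.left hs))
    have hcont : Continuous (fun c => ht eps s c - ht eps t c) :=
      (continuous_ht eps s).sub (continuous_ht eps t)
    have hcont' : Continuous (fun c => ht eps t c - ht eps s c) :=
      (continuous_ht eps t).sub (continuous_ht eps s)
    -- constant sign from `A` on
    have main : ∀ A, X eps s.1 ≤ A → X eps t.1 ≤ A → A ≤ X eps z →
        (0 < ht eps s A - ht eps t A ∧ ∀ c, X eps z < c → c < a' → ht eps t c < ht eps s c) ∨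
        (¬ 0 < ht eps s A - ht eps t A ∧ ∀ c, X eps z < c → c < a' →
          ht eps s c < ht eps t c) := by
      intro A a1 a2 a3
      have hz0 : ∀ y, A ≤ y → y < a' → ht eps s y - ht eps t y ≠ 0 := by
        intro y y1 y2 y3
        have h3 := hcom y (a1.trans y1) (by linarith) (a2.trans y1) (by linarith) y3
        exact hnc _ h3.1 h3.2
      by_cases hA : 0 < ht eps s A - ht eps t A
      · left
        refine ⟨hA, fun c c1 c2 => ?_⟩
        have := pos_of hcont (by linarith : A ≤ c) hA (fun y y1 y2 => hz0 y y1 (by linarith))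
        linarith
      · right
        refine ⟨hA, fun c c1 c2 => ?_⟩
        have hA' : 0 < ht eps t A - ht eps s A := by
          have h3 := hz0 A le_rfl (by linarith)
          push Not at hA
          have h4 := lt_of_le_of_ne hA h3
          linarith
        have := pos_of hcont' (by linarith : A ≤ c) hA' (fun y y1 y2 h5 =>
          hz0 y y1 (by linarith) (by linarith))
        linarith
    by_cases hts : X eps t.1 < X eps s.1
    · have hab : above s t z = decide (0 < ori t s.1) := by
        unfold above
        rw [hm, Option.elim_none, if_pos (hlex.2 hts)]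
      have h5 := (ori_zero_iff is s.1).1 (ori_left s)
      have h6 : 0 < ori t s.1 ↔ 0 < ht eps s (X eps s.1) - ht eps t (X eps s.1) := by
        rw [ori_pos_iff it, ← h5, sub_pos]
      rcases main (X eps s.1) le_rfl hts.le hs1 with ⟨h7, h8⟩ | ⟨h7, h8⟩
      · left
        refine ⟨by rw [hab]; simpa using h6.2 h7, h8⟩
      · right
        refine ⟨by rw [hab]; simpa using fun h9 => h7 (h6.1 h9), h8⟩
    · have hab : above s t z = decide (ori s t.1 < 0) := by
        unfold above
        rw [hm, Option.elim_none, if_neg (fun h3 => hts (hlex.1 h3))]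
      push Not at hts
      have h5 := (ori_zero_iff it t.1).1 (ori_left t)
      have h6 : ori s t.1 < 0 ↔ 0 < ht eps s (X eps t.1) - ht eps t (X eps t.1) := by
        rw [ori_neg_iff is, ← h5, sub_pos]
      rcases main (X eps t.1) hts le_rfl ht1 with ⟨h7, h8⟩ | ⟨h7, h8⟩
      · left
        refine ⟨by rw [hab]; simpa using h6.2 h7, h8⟩
      · right
        refine ⟨by rw [hab]; simpa using fun h9 => h7 (h6.1 h9), h8⟩

end SFA
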