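import Pool.Agent.Lib.SFA.NoCrit

/-!
# SFA.AdjFace: adjacent cells lie in the same face

`adj c c'`: `v in c.q`, `v in c'.p`; case top (`c.t = c'.t`, `ori t v < 0`).  Choose `z` with
`X z = X v`: if `c.t = some t`, `z.im` strictly between `v.im` and `ht t (X v)`, else
`z.im = v.im + 1`.  Then for both cells: `z` is strictly below the top, strictly above the bottom
(`v` is in the band of both: `ht b (X v) <= v.im < z.im`).
`door`: `z notin U R`: suppose `z in carrier s`, `s in R`.  `s` is not `c.b`, not `c.t` (`ori <> 0`).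
`z` is not critical: `Gen.inj` with the critical point `v` would give `z = v`.  So `z` is not an
endpoint, and `X s.1 < X z` (if `X s.1 = X z` then `s.1 = z`, both on the line of `s`).  The points
of `s` slightly to the left of `z` are in the open slab of `c` and in its band (strict inequalities
at `z`, continuity): `s` conflicts with `c`, contradiction.
`InCl eps c z` and `InCl eps c' z` hold.  Take `y in reg c`, `y' in reg c'` (`reg_nonempty`).  The
segment from `y` to `z` without `z` is in `reg c` (`comb_mem_reg`), same for `c'`; so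
`reg c`, `{z}`, `reg c'` together form a preconnected set (`reg c cup {z}` is preconnected: `reg c`
is convex and `z` is in its closure, `IsPreconnected.subset_closure`; union through `z`) disjoint
from `U R` (`reg_disj_U`).  Hence if `reg c` meets `face R x` (a connected component of the
complement) then `reg c'` is contained in it (`IsPreconnected.subset_connectedComponentIn` and
`connectedComponentIn_eq`), and conversely.
Case bottom: `z` strictly between `ht b (X v)` and `v.im` (or `v.im - 1`).
-/

namespace SFA

open Set Filter Topology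

private theorem not_mem_U_of_wall {eps : ℝ} {R : Finset Seg} {x : ℂ} (hG : Gen eps R x)
    {c : Cell} (hc : Valid eps R c) {v : ℂ} (hv : v ∈ c.q) {z : ℂ} (hX : X eps z = X eps v)
    (hzv : z ≠ v) (hb : ∀ b ∈ c.b, 0 < ori b z) (ht' : ∀ t ∈ c.t, ori t z < 0) :
    z ∉ U R := by
  intro hz
  obtain ⟨s, hs, hzs⟩ := mem_U.1 hz
  have hinc := hG.inc s hs
  have hsb : s ∉ c.b := fun h => by
    have h1 := hb s h
    have h2 := ((mem_carrier_iff hinc z).1 hzs).2.2
    linarith
  have hst : s ∉ c.t := fun h => by
    have h1 := ht' s h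
    have h2 := ((mem_carrier_iff hinc z).1 hzs).2.2
    linarith
  have hcv : IsCrit R v := hc.defd.qC v hv
  have hnc : ¬ IsCrit R z := fun h => hzv (hG.inj z v h hcv hX)
  obtain ⟨h1, h2, h3⟩ := (mem_carrier_iff' hinc z).1 hzs
  have hlt : X eps s.1 < X eps z := by
    rcases lt_or_eq_of_le h1 with h | h
    · exact h
    · exfalso
      apply hnc
      have : z = s.1 := by
        apply ext_X (eps := eps) h.symm
        rw [h3, ← h, ht]; simp
      rw [this]; exact IsCrit.left hs
  -- the point of `s` at abscissa `a`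
  have hcont : Continuous (fun a : ℝ => pt eps a (ht eps s a)) := by
    have h := (continuous_pt eps).comp (continuous_id.prodMk (continuous_ht eps s))
    simpa [Function.comp_def] using h
  have hval : pt eps (X eps z) (ht eps s (X eps z)) = z := by
    rw [← h3]; exact pt_eta eps z
  have e1 : ∀ᶠ a in 𝓝[<] (X eps z), X eps s.1 < a :=
    (eventually_gt_nhds hlt).filter_mono nhdsWithin_le_nhds
  have e2 : ∀ᶠ a in 𝓝[<] (X eps z), a < X eps z := self_mem_nhdsWithin
  have e3 : ∀ᶠ a in 𝓝[<] (X eps z), ∀ p ∈ c.p, X eps p < a := by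
    rcases hp : c.p with _ | p
    · simp
    · have : X eps p < X eps z := by
        rw [hX]; exact hc.shape.lt p (by simp [hp]) v hv
      filter_upwards [(eventually_gt_nhds this).filter_mono nhdsWithin_le_nhds] with a ha
      intro p' hp'
      simp at hp'
      subst hp'
      exact ha
  have e4 : ∀ᶠ a in 𝓝[<] (X eps z), ∀ b ∈ c.b, 0 < ori b (pt eps a (ht eps s a)) := by
    rcases hb0 : c.b with _ | b
    · simp
    · have h0 : 0 < ori b z := hb b (by simp [hb0])
      have hc1 : ContinuousAt (fun a : ℝ => ori b (pt eps a (ht eps s a))) (X eps z) :=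
        ((continuous_ori b).comp hcont).continuousAt
      have h0' : 0 < (fun a : ℝ => ori b (pt eps a (ht eps s a))) (X eps z) := by
        simpa [hval] using h0
      filter_upwards [(hc1.eventually_const_lt h0').filter_mono nhdsWithin_le_nhds] with a ha
      intro b' hb'
      simp at hb'
      subst hb'
      exact ha
  have e5 : ∀ᶠ a in 𝓝[<] (X eps z), ∀ t ∈ c.t, ori t (pt eps a (ht eps s a)) < 0 := by
    rcases ht0 : c.t with _ | t
    · simp
    · have h0 : ori t z < 0 := ht' t (by simp [ht0])
      have hc1 : ContinuousAt (fun a : ℝ => ori t (pt eps a (ht eps s a))) (X eps z) :=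
        ((continuous_ori t).comp hcont).continuousAt
      have h0' : (fun a : ℝ => ori t (pt eps a (ht eps s a))) (X eps z) < 0 := by
        simpa [hval] using h0
      filter_upwards [(hc1.eventually_lt_const h0').filter_mono nhdsWithin_le_nhds] with a ha
      intro t' ht'
      simp at ht'
      subst ht'
      exact ha
  have hne : (𝓝[<] (X eps z)).NeBot := inferInstance
  obtain ⟨a, ha1, ha2, ha3, ha4, ha5⟩ := (e1.and (e2.and (e3.and (e4.and e5)))).exists
  refine hc.emp s hs ⟨hsb, hst, pt eps a (ht eps s a), ?_, ?_, ?_, ?_⟩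
  · exact pt_mem_carrier hinc ha1.le (by linarith)
  · refine ⟨fun p hp => ?_, fun q hq => ?_⟩
    · rw [X_pt]; exact ha3 p hp
    · have : q = v := by
        have h1 : c.q = some q := hq
        have h2 : c.q = some v := hv
        rw [h1] at h2; exact Option.some.inj h2
      rw [X_pt, this, ← hX]; exact ha2
  · exact fun b hb' => (ha4 b hb').le
  · exact fun t ht1 => (ha5 t ht1).le

private theorem door_aux {eps : ℝ} {R : Finset Seg} {x : ℂ} (hG : Gen eps R x) {c c' : Cell}
    (hc : Valid eps R c) (hc' : Valid eps R c') {v : ℂ} (hv : v ∈ c.q) (hv' : v ∈ c'.p)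
    {z : ℂ} (hX : X eps z = X eps v) (hzv : z ≠ v)
    (hb : ∀ b ∈ c.b, 0 < ori b z) (ht' : ∀ t ∈ c.t, ori t z < 0)
    (hb' : ∀ b ∈ c'.b, 0 < ori b z) (ht'' : ∀ t ∈ c'.t, ori t z < 0) :
    ∃ z : ℂ, z ∉ U R ∧ InCl eps c z ∧ InCl eps c' z := by
  refine ⟨z, not_mem_U_of_wall hG hc hv hX hzv hb ht', ⟨?_, ?_, ?_, ?_⟩, ⟨?_, ?_, ?_, ?_⟩⟩
  · intro p hp; rw [hX]; exact (hc.shape.lt p hp v hv).le
  · intro q hq
    have : q = v := by
      have h1 : c.q = some q := hq
      have h2 : c.q = some v := hv
      rw [h1] at h2; exact Option.some.inj h2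
    rw [this, hX]
  · exact fun b h => (hb b h).le
  · exact fun t h => (ht' t h).le
  · intro p hp
    have : p = v := by
      have h1 : c'.p = some p := hp
      have h2 : c'.p = some v := hv'
      rw [h1] at h2; exact Option.some.inj h2
    rw [this, hX]
  · intro q hq; rw [hX]; exact (hc'.shape.lt v hv' q hq).le
  · exact fun b h => (hb' b h).le
  · exact fun t h => (ht'' t h).le

/-- A point of the common wall of two adjacent cells. -/
theorem door {eps : ℝ} {R : Finset Seg} {x : ℂ} (hG : Gen eps R x) {c c' : Cell}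
    (hc : Valid eps R c) (hc' : Valid eps R c') (h : adj c c') :
    ∃ z : ℂ, z ∉ U R ∧ InCl eps c z ∧ InCl eps c' z := by
  obtain ⟨v, hv, hv', h | h⟩ := h
  · obtain ⟨htt, htv⟩ := h
    obtain ⟨y, hy1, hy2⟩ : ∃ y : ℝ, v.im < y ∧ ∀ t ∈ c.t, y < ht eps t (X eps v) := by
      rcases ht0 : c.t with _ | t
      · exact ⟨v.im + 1, by linarith, by simp⟩
      · have h1 : v.im < ht eps t (X eps v) :=
          (ori_neg_iff (hG.inc t (hc.defd.tR t (by simp [ht0]))) v).1 (htv t (by simp [ht0]))
        obtain ⟨y, h2, h3⟩ := exists_between h1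
        refine ⟨y, h2, ?_⟩
        intro t' ht'
        simp at ht'
        subst ht'
        exact h3
    have ht1 : ∀ t ∈ c.t, ori t (pt eps (X eps v) y) < 0 := by
      intro t ht'
      rw [ori_neg_iff (hG.inc t (hc.defd.tR t ht'))]
      simpa using hy2 t ht'
    refine door_aux hG hc hc' hv hv' (z := pt eps (X eps v) y) (by simp) ?_ ?_ ht1 ?_ ?_
    · intro h
      have := congrArg Complex.im h
      simp at this
      linarith
    · intro b hb
      have h1 := (hc.shape.qb v hv).1 b hb
      rw [ori_nonneg_iff (hG.inc b (hc.defd.bR b hb))] at h1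
      rw [ori_pos_iff (hG.inc b (hc.defd.bR b hb))]
      simp only [X_pt, pt_im]
      linarith
    · intro b hb
      have h1 := (hc'.shape.pb v hv').1 b hb
      rw [ori_nonneg_iff (hG.inc b (hc'.defd.bR b hb))] at h1
      rw [ori_pos_iff (hG.inc b (hc'.defd.bR b hb))]
      simp only [X_pt, pt_im]
      linarith
    · intro t ht'
      rw [← htt] at ht'
      exact ht1 t ht'
  · obtain ⟨hbb, hbv⟩ := h
    obtain ⟨y, hy1, hy2⟩ : ∃ y : ℝ, y < v.im ∧ ∀ b ∈ c.b, ht eps b (X eps v) < y := by
      rcases hb0 : c.b with _ | b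
      · exact ⟨v.im - 1, by linarith, by simp⟩
      · have h1 : ht eps b (X eps v) < v.im :=
          (ori_pos_iff (hG.inc b (hc.defd.bR b (by simp [hb0]))) v).1 (hbv b (by simp [hb0]))
        obtain ⟨y, h2, h3⟩ := exists_between h1
        refine ⟨y, h3, ?_⟩
        intro t' ht'
        simp at ht'
        subst ht'
        exact h2
    have hb1 : ∀ b ∈ c.b, 0 < ori b (pt eps (X eps v) y) := by
      intro t ht'
      rw [ori_pos_iff (hG.inc t (hc.defd.bR t ht'))]
      simpa using hy2 t ht'
    refine door_aux hG hc hc' hv hv' (z := pt eps (X eps v) y) (by simp) ?_ hb1 ?_ ?_ ?_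
    · intro h
      have := congrArg Complex.im h
      simp at this
      linarith
    · intro t ht'
      have h1 := (hc.shape.qb v hv).2 t ht'
      rw [ori_nonpos_iff (hG.inc t (hc.defd.tR t ht'))] at h1
      rw [ori_neg_iff (hG.inc t (hc.defd.tR t ht'))]
      simp only [X_pt, pt_im]
      linarith
    · intro b hb
      rw [← hbb] at hb
      exact hb1 b hb
    · intro t ht'
      have h1 := (hc'.shape.pb v hv').2 t ht'
      rw [ori_nonpos_iff (hG.inc t (hc'.defd.tR t ht'))] at h1
      rw [ori_neg_iff (hG.inc t (hc'.defd.tR t ht'))]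
      simp only [X_pt, pt_im]
      linarith

private theorem convex_insert {eps : ℝ} {c : Cell} {z : ℂ} (hz : InCl eps c z) :
    Convex ℝ (insert z (reg eps c)) := by
  rw [convex_iff_forall_pos]
  rintro u hu w hw a b ha hb hab
  rcases hu with rfl | hu
  · rcases hw with rfl | hw
    · left
      rw [← add_smul, hab, one_smul]
    · right
      have h := comb_mem_reg (l := a) hw hz ha.le (by linarith)
      have hb' : 1 - a = b := by linarith
      rw [hb'] at h
      rw [add_comm]; exact h
  · rcases hw with rfl | hw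
    · right
      have h := comb_mem_reg (l := b) hu hz hb.le (by linarith)
      have hb' : 1 - b = a := by linarith
      rw [hb'] at h
      exact h
    · right
      exact convex_reg eps c hu hw ha.le hb.le hab

/-- The region of a valid cell is contained in the face as soon as it meets it. -/
theorem reg_subset_face {eps : ℝ} {R : Finset Seg} {x : ℂ} (hG : Gen eps R x) {c : Cell}
    (hc : Valid eps R c) {z : ℂ} (hz : z ∈ reg eps c) (hzf : z ∈ face R x) :
    reg eps c ⊆ face R x := by
  unfold face at hzf ⊢
  rw [connectedComponentIn_eq hzf]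
  exact (convex_reg eps c).isPreconnected.subset_connectedComponentIn hz
    (fun w hw => reg_disj_U hG hc hw)

private theorem same_face_aux {eps : ℝ} {R : Finset Seg} {x : ℂ} (hG : Gen eps R x)
    {c c' : Cell} (hc : Valid eps R c) (hc' : Valid eps R c') {z : ℂ} (hz : z ∉ U R)
    (h1 : InCl eps c z) (h2 : InCl eps c' z)
    (hf : reg eps c ⊆ face R x) : reg eps c' ⊆ face R x := by
  obtain ⟨y, hy⟩ := reg_nonempty hG hc
  have hyf := hf hy
  unfold face at hyf ⊢
  rw [connectedComponentIn_eq hyf]
  have hpre : IsPreconnected (insert z (reg eps c) ∪ insert z (reg eps c')) :=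
    IsPreconnected.union z (mem_insert _ _) (mem_insert _ _)
      (convex_insert h1).isPreconnected (convex_insert h2).isPreconnected
  have hsub : insert z (reg eps c) ∪ insert z (reg eps c') ⊆ (U R)ᶜ := by
    rintro w ((rfl | hw) | (rfl | hw))
    · exact hz
    · exact reg_disj_U hG hc hw
    · exact hz
    · exact reg_disj_U hG hc' hw
  have h := hpre.subset_connectedComponentIn (Or.inl (Or.inr hy)) hsub
  exact fun w hw => h (Or.inr (Or.inr hw))

theorem adj_same_face {eps : ℝ} {R : Finset Seg} {x : ℂ} (hG : Gen eps R x) {c c' : Cell}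
    (hc : Valid eps R c) (hc' : Valid eps R c') (h : nbr c c')
    (hf : reg eps c ⊆ face R x) : reg eps c' ⊆ face R x := by
  rcases h with h | h
  · obtain ⟨z, hz, h1, h2⟩ := door hG hc hc' h
    exact same_face_aux hG hc hc' hz h1 h2 hf
  · obtain ⟨z, hz, h1, h2⟩ := door hG hc' hc h
    exact same_face_aux hG hc hc' hz h2 h1 hf

end SFA
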