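import Pool.Agent.Lib.SFA.Defs

/-!
# SFA: the algorithm as pure functions on lists (package G2, owner helper1)

Every test only uses lexicographic comparisons, signs of `ori`, `cross` and intersection points in
the original coordinates.  One round inserts the segments of level `i`.  The generic functions
(`numberL`, `bucketL`, `gather`, `gather2`, `scatter`, `reach`, `pathsM`, `cyclesM`) are the
interface with the machine package.
-/

namespace SFA

open Classical

noncomputable section

/-! ### primitive tests -/

/-- lexicographic comparison -/
def lexB (u v : ℂ) : Bool :=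
  decide (u.re < v.re) || (decide (u.re = v.re) && decide (u.im < v.im))

/-- equality of points -/
def ptEq (u v : ℂ) : Bool := decide (u.re = v.re) && decide (u.im = v.im)

/-- equality of segments -/
def sgEq (s t : Seg) : Bool := ptEq s.1 t.1 && ptEq s.2 t.2

/-- equality of optional points -/
def opEq (u v : Option ℂ) : Bool :=
  u.elim (v.elim true (fun _ => false)) (fun a => v.elim false (fun b => ptEq a b))

/-- equality of optional segments -/
def osEq (s t : Option Seg) : Bool :=
  s.elim (t.elim true (fun _ => false)) (fun a => t.elim false (fun b => sgEq a b))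

/-- the point of the line of `s` with parameter `u` -/
def mv (s : Seg) (u : ℝ) : ℂ :=
  ⟨s.1.re + u * (s.2.re - s.1.re), s.1.im + u * (s.2.im - s.1.im)⟩

/-- the common point of two different segments -/
def meet (s t : Seg) : Option ℂ :=
  if cross (s.2 - s.1) (t.2 - t.1) = 0 then
    if ptEq s.2 t.1 then some s.2 else if ptEq t.2 s.1 then some s.1 else none
  else
    if 0 ≤ cross (t.1 - s.1) (t.2 - t.1) / cross (s.2 - s.1) (t.2 - t.1) ∧
        cross (t.1 - s.1) (t.2 - t.1) / cross (s.2 - s.1) (t.2 - t.1) ≤ 1 ∧
        0 ≤ cross (t.1 - s.1) (s.2 - s.1) / cross (s.2 - s.1) (t.2 - t.1) ∧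
        cross (t.1 - s.1) (s.2 - s.1) / cross (s.2 - s.1) (t.2 - t.1) ≤ 1 then
      some (mv s (cross (t.1 - s.1) (t.2 - t.1) / cross (s.2 - s.1) (t.2 - t.1)))
    else none

/-- `s` is above `t` just to the right of the abscissa of `z` (both extend to the right of it) -/
def above (s t : Seg) (z : ℂ) : Bool :=
  (meet s t).elim
    (if lexB t.1 s.1 then decide (0 < ori t s.1) else decide (ori s t.1 < 0))
    (fun u => if lexB z u then decide (cross (t.2 - t.1) (s.2 - s.1) < 0)
      else decide (0 < cross (t.2 - t.1) (s.2 - s.1)))

/-! ### tests for cells -/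

/-- `z` is to the right of the left wall -/
def afterP (p : Option ℂ) (z : ℂ) : Bool := p.elim true (fun a => lexB a z)

/-- `z` is to the left of the right wall -/
def beforeQ (q : Option ℂ) (z : ℂ) : Bool := q.elim true (fun a => lexB z a)

def slabB (c : Cell) (z : ℂ) : Bool := afterP c.p z && beforeQ c.q z

def bandB (c : Cell) (z : ℂ) : Bool :=
  c.b.elim true (fun b => decide (0 ≤ ori b z)) && c.t.elim true (fun t => decide (ori t z ≤ 0))

def openB (c : Cell) (z : ℂ) : Bool :=
  c.b.elim true (fun b => decide (0 < ori b z)) && c.t.elim true (fun t => decide (ori t z < 0))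

def regB (c : Cell) (z : ℂ) : Bool := slabB c z && openB c z

def hregB (c : Cell) (z : ℂ) : Bool := slabB c z && bandB c z

/-- `s` meets `e` in the open slab of `c` -/
def hitB (c : Cell) (s : Seg) (e : Option Seg) : Bool :=
  e.elim false (fun e => (meet s e).elim false (fun u => slabB c u))

/-- the left end of the part of `s` in the slab of `c` -/
def loPt (c : Cell) (s : Seg) : ℂ := c.p.elim s.1 (fun p => if lexB s.1 p then p else s.1)

/-- `s` conflicts with `c` -/
def conflB (c : Cell) (s : Seg) : Bool :=
  !(osEq c.b (some s)) && !(osEq c.t (some s)) && beforeQ c.q s.1 && afterP c.p s.2 &&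
    (hitB c s c.b || hitB c s c.t ||
      (c.b.elim true (fun b => above s b (loPt c s)) && c.t.elim true (fun t => above t s (loPt c s))))

/-- `s` spans the slab of `d` -/
def spanB (d : Cell) (s : Seg) : Bool :=
  d.p.elim false (fun p => !(lexB p s.1)) && d.q.elim false (fun q => !(lexB s.2 q))

/-! ### pieces -/

/-- remove repetitions -/
def dedupB {α : Type} (e : α → α → Bool) (l : List α) : List α :=
  l.foldr (fun a acc => if acc.any (fun b => e a b) then acc else a :: acc) []

/-- the critical points of `N`, bottom and top in `hreg c` -/
def critL (c : Cell) (N : List Seg) : List ℂ :=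
  (N.flatMap (fun s => [s.1, s.2]) ++
    N.flatMap (fun s => (c.b.toList ++ c.t.toList ++ N).flatMap
      (fun t => if sgEq s t then [] else (meet s t).toList))).filter (hregB c)

/-- the test for pieces of `c` -/
def isPc (c : Cell) (N : List Seg) (d : Cell) : Bool :=
  (d.p.elim true (fun p => d.q.elim true (fun q => lexB p q))) &&
  (d.b.elim true (fun b => spanB d b)) && (d.t.elim true (fun t => spanB d t)) &&
  (d.b.elim true (fun b => d.t.elim true (fun t =>
    !(sgEq b t) && above t b (loPt d b) && !(hitB d b (some t))))) &&
  (osEq d.b c.b || d.b.elim false (fun b => conflB ⟨c.b, c.t, d.p, d.q⟩ b)) &&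
  (osEq d.t c.t || d.t.elim false (fun t => conflB ⟨c.b, c.t, d.p, d.q⟩ t)) &&
  N.all (fun s => !(conflB d s)) &&
  (c.b.elim true (fun b => !(conflB d b))) && (c.t.elim true (fun t => !(conflB d t))) &&
  (opEq d.p c.p || d.p.elim false (fun p => bandB d p)) &&
  (opEq d.q c.q || d.q.elim false (fun q => bandB d q))

/-- candidates for the pieces of `c` -/
def candL (c : Cell) (N : List Seg) (C : List ℂ) : List Cell :=
  (c.b :: N.map some).flatMap fun b => (c.t :: N.map some).flatMap fun t =>
    (c.p :: C.map some).flatMap fun p => (c.q :: C.map some).map fun q => Cell.mk b t p q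

/-- the pieces of `c` with respect to the new segments `N` -/
def pieces (c : Cell) (N : List Seg) : List Cell :=
  (candL c N (dedupB ptEq (critL c N))).filter (isPc c N)

/-! ### adjacency of cells and pieces -/

/-- `s` does not pass through `v` -/
def offB (o : Option Seg) (v : ℂ) : Bool := o.elim true (fun s => decide (ori s v ≠ 0))

/-- `d` is a right neighbour of `c` -/
def adjB (c d : Cell) : Bool :=
  c.q.elim false (fun v => d.p.elim false (fun w => ptEq v w &&
    ((osEq c.t d.t && offB c.t v) || (osEq c.b d.b && offB c.b v))))

/-- the left wall of the piece is a wall of the new decomposition -/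
def trueL (d : Cell) : Bool := d.p.elim true (fun v => bandB d v)

/-- the right wall of the piece is a wall of the new decomposition -/
def trueR (d : Cell) : Bool := d.q.elim true (fun v => bandB d v)

/-! ### generic list functions (interface with the machine package) -/

/-- number the elements of a list of lists consecutively, starting with `g` -/
def numberL {α : Type} : ℕ → List (List α) → List (List (ℕ × α))
  | _, [] => []
  | g, l :: ls => (l.zipIdx g).map (fun p => (p.2, p.1)) :: numberL (g + l.length) ls

/-- `[l[i] : i ∈ is]` -/
def gather {α : Type} (d : α) (l : List α) (is : List ℕ) : List α :=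
  is.map (fun i => l.getD i d)

/-- `[[l[i] : i ∈ is] : is ∈ iss]` -/
def gather2 {α : Type} (d : α) (l : List α) (iss : List (List ℕ)) : List (List α) :=
  iss.map (fun is => is.map (fun i => l.getD i d))

/-- the list of length `n` whose `i`-th entry is the list of all `b` with `(i, b)` in `l` -/
def bucketL {α : Type} (n : ℕ) (l : List (ℕ × α)) : List (List α) :=
  (List.range n).map (fun i => (l.filter (fun p => p.1 = i)).map Prod.snd)

/-- the list of length `n` whose `i`-th entry is the last `b` with `(i, b)` in `l`, or `d` -/
def scatter {α : Type} (d : α) (n : ℕ) (l : List (ℕ × α)) : List α :=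
  (List.range n).map (fun i => (((l.filter (fun p => p.1 = i)).map Prod.snd).getLast?).getD d)

/-- the indices reachable from `r` -/
def reachB (und : List (List ℕ)) (r : ℕ) : List Bool :=
  (List.range und.length).map (fun j => decide
    (Relation.ReflTransGen (fun a b => b ∈ und.getD a []) r j))

/-- follow `nxt` from `a`, at most `k` steps -/
def walkN (nxt : List (Option ℕ)) : ℕ → ℕ → List ℕ
  | 0, a => [a]
  | k + 1, a => a :: (nxt.getD a none).elim [] (fun b => walkN nxt k b)

/-- the paths starting at `starts` -/
def paths (nxt : List (Option ℕ)) (starts : List ℕ) : List (List ℕ) :=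
  starts.map (walkN nxt nxt.length)

/-- one step of the linear time computation of `paths`; state: starting points still to be treated,
the current path (reversed), the finished paths (reversed, in reversed order) -/
def pathStep (nxt : List (Option ℕ)) (s : List ℕ × List ℕ × List (List ℕ)) :
    List ℕ × List ℕ × List (List ℕ) :=
  match s.2.1 with
  | [] =>
    match s.1 with
    | [] => s
    | a :: rest => (rest, [a], s.2.2)
  | a :: cur =>
    match nxt.getD a none with
    | none => (s.1, [], (a :: cur) :: s.2.2)
    | some b => (s.1, b :: a :: cur, s.2.2)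

/-- the linear time version of `paths`: equal to it if the total length of the paths is at most
`nxt.length` -/
def pathsM (nxt : List (Option ℕ)) (starts : List ℕ) : List (List ℕ) :=
  (((pathStep nxt)^[nxt.length + starts.length] (starts, [], [])).2.2.map List.reverse).reverse

/-- one step of the computation of the cycles; state: indices still to be scanned, current path
(reversed), finished cycles, visited indices -/
def cycStep (nxt : List (Option ℕ)) (s : List ℕ × List ℕ × List (List ℕ) × (ℕ → Bool)) :
    List ℕ × List ℕ × List (List ℕ) × (ℕ → Bool) :=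
  match s.2.1 with
  | [] =>
    match s.1 with
    | [] => s
    | a :: rest =>
      if s.2.2.2 a || (nxt.getD a none).isNone then (rest, [], s.2.2)
      else (rest, [a], s.2.2.1, Function.update s.2.2.2 a true)
  | a :: cur =>
    match nxt.getD a none with
    | none => (s.1, [], (a :: cur) :: s.2.2.1, s.2.2.2)
    | some b =>
      if s.2.2.2 b then (s.1, [], (a :: cur) :: s.2.2.1, s.2.2.2)
      else (s.1, b :: a :: cur, s.2.2.1, Function.update s.2.2.2 b true)

/-- the cycles of the partial permutation `i ↦ nxt[i]` -/
def cyclesM (nxt : List (Option ℕ)) : List (List ℕ) :=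
  (((cycStep nxt)^[3 * nxt.length] (List.range nxt.length, [], [], fun _ => false)).2.2.1.map
    List.reverse).reverse

/-! ### one round -/

/-- a cell with its conflict list (segments with levels) and the indices of its right
neighbours -/
structure Rec where
  c : Cell
  K : List (Seg × ℕ)
  nb : List ℕ

/-- a piece with its conflict list -/
abbrev Pc := Cell × List (Seg × ℕ)

/-- the pieces of a cell -/
def splitR (i : ℕ) (r : Rec) : List Pc :=
  (pieces r.c ((r.K.filter (fun k => decide (k.2 = i))).map Prod.fst)).map
    (fun d => (d, (r.K.filter (fun k => !decide (k.2 = i))).filter (fun k => conflB d k.1)))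

/-- the right neighbours (indices) of the pieces `ps` of one cell, `ns` = the lists of pieces of the
right neighbours of the cell -/
def raR (ps : List (ℕ × Pc)) (ns : List (List (ℕ × Pc))) : List (List ℕ) :=
  ps.map (fun p => ((ps ++ ns.flatten).filter (fun q => adjB p.2.1 q.2.1)).map Prod.fst)

/-- undirected adjacency lists -/
def undL (ra : List (List ℕ)) : List (List ℕ) :=
  bucketL ra.length (ra.zipIdx.flatMap (fun p => p.1.flatMap (fun b => [(p.2, b), (b, p.2)])))

/-- the default piece -/
def pc0 : Pc := (⟨none, none, none, none⟩, [])

/-- conflict list of the merged cell: `l` = the pieces of the chain; a segment is new in a piece iff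
it does not conflict with the piece before -/
def mergeK (l : List Pc) : List (Seg × ℕ) :=
  (l.headD pc0).2 ++
    (l.zip l.tail).flatMap (fun a => a.2.2.filter (fun k => !(conflB a.1.1 k.1)))

/-- the merged cell of a chain -/
def mergeC (l : List Pc) : Cell :=
  ⟨(l.headD pc0).1.b, (l.headD pc0).1.t, (l.headD pc0).1.p, (l.getLastD pc0).1.q⟩

/-- one round: insert the segments of level `i` -/
def round (i : ℕ) (x : ℂ) (recs : List Rec) : List Rec :=
  let PL := numberL 0 (recs.map (splitR i))
  let P := PL.flatten.map Prod.snd
  let ra := ((PL.zip (gather2 [] PL (recs.map Rec.nb))).map (fun a => raR a.1 a.2)).flatten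
  let root := P.findIdx (fun d => regB d.1 x)
  let vis := reachB (undL ra) root
  let starts := ((P.zip vis).zipIdx.filter (fun a => a.1.2 && trueL a.1.1.1)).map Prod.snd
  let nxt := (P.zip ra).map (fun a => if trueR a.1.1 then none else a.2.head?)
  let ch := pathsM nxt starts
  let idx := scatter 0 P.length (starts.zipIdx)
  let nbs := gather2 0 idx (gather [] ra (ch.map (fun l => l.getLastD 0)))
  ((gather2 pc0 P ch).zip nbs).map (fun a => ⟨mergeC a.1, mergeK a.1, a.2⟩)

/-- the initial list: one cell -/
def initR (inp : List (Seg × ℕ)) : List Rec := [⟨⟨none, none, none, none⟩, inp, []⟩]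

/-- all rounds `0, ..., L` -/
def rounds (L : ℕ) (x : ℂ) (inp : List (Seg × ℕ)) : List Rec :=
  (List.range (L + 1)).foldl (fun recs i => round i x recs) (initR inp)

/-! ### output: boundary walks

Side `2 i` = top of cell `i` (walked to the left), side `2 i + 1` = bottom of cell `i` (walked to
the right). -/

/-- a cell with its index and its left and right neighbours with their indices -/
structure Loc where
  i : ℕ
  c : Cell
  L : List (ℕ × Cell)
  R : List (ℕ × Cell)

/-- `v` on the optional segment -/
def onB (o : Option Seg) (v : ℂ) : Bool := o.elim false (fun s => decide (ori s v = 0))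

/-- the side after the top side of `a`; `Ls` = the left neighbours -/
def topNext (a : Loc) (Ls : List Loc) : Option ℕ :=
  a.c.t.elim none fun t => a.c.p.elim none fun v =>
    if offB (some t) v then (Ls.find? (fun l => osEq l.c.t a.c.t)).map (fun l => 2 * l.i)
    else if onB a.c.b v then some (2 * a.i + 1)
    else (Ls.find? (fun l => osEq l.c.b a.c.b)).elim none fun l =>
      if onB l.c.t v then some (2 * l.i)
      else (l.R.find? (fun r => osEq r.2.t l.c.t)).map (fun r => 2 * r.1 + 1)

/-- the side after the bottom side of `a`; `Rs` = the right neighbours -/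
def botNext (a : Loc) (Rs : List Loc) : Option ℕ :=
  a.c.b.elim none fun b => a.c.q.elim none fun v =>
    if offB (some b) v then (Rs.find? (fun r => osEq r.c.b a.c.b)).map (fun r => 2 * r.i + 1)
    else if onB a.c.t v then some (2 * a.i)
    else (Rs.find? (fun r => osEq r.c.t a.c.t)).elim none fun r =>
      if onB r.c.b v then some (2 * r.i + 1)
      else (r.L.find? (fun l => osEq l.2.b r.c.b)).map (fun l => 2 * l.1)

/-- the left neighbours -/
def leftNb (recs : List Rec) : List (List ℕ) :=
  bucketL recs.length (recs.zipIdx.flatMap (fun r => r.1.nb.map (fun j => (j, r.2))))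

def loc0 : Loc := ⟨0, ⟨none, none, none, none⟩, [], []⟩

/-- the list of all cells with their neighbours -/
def locs (recs : List Rec) : List Loc :=
  let C := recs.zipIdx.map (fun r => (r.2, r.1.c))
  ((C.zip ((gather2 (0, ⟨none, none, none, none⟩) C (leftNb recs)).zip
    (gather2 (0, ⟨none, none, none, none⟩) C (recs.map Rec.nb)))).map
      (fun a => ⟨a.1.1, a.1.2, a.2.1, a.2.2⟩))

/-- the successor of every side -/
def sideNext (recs : List Rec) : List (Option ℕ) :=
  let A := locs recs
  (A.zip ((gather2 loc0 A (leftNb recs)).zip (gather2 loc0 A (recs.map Rec.nb)))).flatMap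
    (fun a => [topNext a.1 a.2.1, botNext a.1 a.2.2])

/-- the starting vertex of every side, if the side starts at a vertex of its segment -/
def sideStart (recs : List Rec) : List (Option ℂ) :=
  recs.flatMap (fun r =>
    [r.c.t.elim none (fun t => r.c.q.elim none (fun v => if ori t v = 0 then some v else none)),
      r.c.b.elim none (fun b => r.c.p.elim none (fun v => if ori b v = 0 then some v else none))])

/-- the boundary walks: one cyclic list of vertices for every boundary component -/
def walks (recs : List Rec) : List (List ℂ) :=
  (gather2 none (sideStart recs) (cyclesM (sideNext recs))).map (fun l => l.filterMap id)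

end

end SFA
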