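import Pool.Agent.Lib.SFA.Alg

/-!
# SFA.RoundDefs: the intermediate lists of one round, and the complete algorithm

`round i x recs` computes: the numbered pieces `rdPL`, all pieces `rdP`, the right neighbours of the
pieces `rdRa`, the piece of `x` `rdRoot`, the reachable pieces `rdVis`, the first pieces of the
chains `rdStarts`, the next piece of the chain `rdNxt`, the chains `rdCh`, the index of the chain of
a first piece `rdIdx`, the new neighbours `rdNbs`.
-/

namespace SFA

open Classical

noncomputable section

def rdPL (i : ℕ) (recs : List Rec) : List (List (ℕ × Pc)) := numberL 0 (recs.map (splitR i))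

def rdP (i : ℕ) (recs : List Rec) : List Pc := (rdPL i recs).flatten.map Prod.snd

/-- the lists of pieces of the right neighbours of every cell -/
def rdNs (i : ℕ) (recs : List Rec) : List (List (List (ℕ × Pc))) :=
  gather2 [] (rdPL i recs) (recs.map Rec.nb)

def rdRa (i : ℕ) (recs : List Rec) : List (List ℕ) :=
  (((rdPL i recs).zip (rdNs i recs)).map (fun a => raR a.1 a.2)).flatten

def rdRoot (i : ℕ) (x : ℂ) (recs : List Rec) : ℕ := (rdP i recs).findIdx (fun d => regB d.1 x)

def rdVis (i : ℕ) (x : ℂ) (recs : List Rec) : List Bool :=
  reachB (undL (rdRa i recs)) (rdRoot i x recs)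

def rdStarts (i : ℕ) (x : ℂ) (recs : List Rec) : List ℕ :=
  (((rdP i recs).zip (rdVis i x recs)).zipIdx.filter (fun a => a.1.2 && trueL a.1.1.1)).map
    Prod.snd

def rdNxt (i : ℕ) (recs : List Rec) : List (Option ℕ) :=
  ((rdP i recs).zip (rdRa i recs)).map (fun a => if trueR a.1.1 then none else a.2.head?)

def rdCh (i : ℕ) (x : ℂ) (recs : List Rec) : List (List ℕ) :=
  pathsM (rdNxt i recs) (rdStarts i x recs)

def rdIdx (i : ℕ) (x : ℂ) (recs : List Rec) : List ℕ :=
  scatter 0 (rdP i recs).length ((rdStarts i x recs).zipIdx)

def rdNbs (i : ℕ) (x : ℂ) (recs : List Rec) : List (List ℕ) :=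
  gather2 0 (rdIdx i x recs)
    (gather [] (rdRa i recs) ((rdCh i x recs).map (fun l => l.getLastD 0)))

theorem round_eq_rd (i : ℕ) (x : ℂ) (recs : List Rec) :
    round i x recs = ((gather2 pc0 (rdP i recs) (rdCh i x recs)).zip (rdNbs i x recs)).map
      (fun a => ⟨mergeC a.1, mergeK a.1, a.2⟩) := rfl

/-- number of segments of level `i` in the conflict list -/
def newN (i : ℕ) (r : Rec) : ℕ := (r.K.filter (fun k => decide (k.2 = i))).length

/-- explicit cost of one round -/
def roundCost (i : ℕ) (x : ℂ) (recs : List Rec) : ℕ :=
  (recs.map (fun r => (newN i r + 1) ^ 7 * (r.K.length + 1) + r.nb.length)).sum +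
  (((rdPL i recs).zip (rdNs i recs)).map (fun a =>
    (a.1.length + 1) * (a.1.length + (a.2.map (fun l => l.length + 1)).sum + 1))).sum +
  ((rdCh i x recs).map (fun l => l.length + 1)).sum +
  ((rdCh i x recs).map (fun l => ((rdRa i recs).getD (l.getLastD 0) []).length)).sum +
  ((gather2 pc0 (rdP i recs) (rdCh i x recs)).map
    (fun l => (l.map (fun p => p.2.length + 1)).sum)).sum

/-! ### the complete algorithm after the preprocessing -/

/-- the levels: every segment reads `L` bits; its level is `L` minus the number of leading ones -/
def assign (L : ℕ) : List Seg → List Bool → List (Seg × ℕ)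
  | [], _ => []
  | s :: t, w => (s, L - ((w.take L).takeWhile (fun b => b)).length) :: assign L t (w.drop L)

/-- words of the output tape describing a list of lists of points -/
def encOut (W : List (List ℂ)) : List (ℕ ⊕ ℝ) :=
  Sum.inl W.length :: W.flatMap (fun l =>
    Sum.inl l.length :: l.flatMap (fun z => [Sum.inr z.re, Sum.inr z.im]))

/-- the number of rounds minus one for `N` segments -/
def lvl (N : ℕ) : ℕ := Nat.clog 2 N

/-- the randomised algorithm: segments (pairwise at most one common point, directed to the
right), marked point, random bits -/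
def alg (S : List Seg) (x : ℂ) (w : List Bool) : List (List ℂ) :=
  walks (rounds (lvl S.length) x (assign (lvl S.length) S w))

end

end SFA
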