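import Pool.Agent.Lib.P7m.Mem
import Pool.Agent.Lib.SFA.RoundDefs

/-!
# SFA.RGenA: RC versions of numberL, gather, gather2, bucketL, scatter, findIdx

* `rc_numberL`: fold over the list of lists with state (next number, reversed output); for one list
  `l.zipIdx g` (`RC.zipIdx`), `RC.map` (swap), cost `l.length + 1`; state number `g + l.length`
  (`RC.length`).  Show by induction that the fold gives `numberL g ls`.
* `rc_gather`: `RC.gather` gives `is.map (fun i => l[i]?)`; then map `Option.getD _ d`
  (`List.getD l i d = l[i]?.getD d`).
* `rc_gather2`: gather over `iss.flatten`, then cut the result into blocks again: fold over `iss`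
  with state (remaining results, reversed output), moving `is.length` elements.  (Or work with
  `RC.runWith` and a stateful nested fold.)
* `rc_bucketL`: `RC.groups` with `q = List.range n`
  (`filterMap` of the test = `(filter ..).map Prod.snd`).
* `rc_scatter`: `RC.groups` gives the lists, then the last element: but the cost of `getLast` is the
  length: total `n + l.length`.  Or `RC.lookups` on the reversed list.
* `rc_findIdx` (context style): fold over `l` with state (found?, index); `List.findIdx` is the first
  index with `p`, or the length.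
-/

namespace SFA

open P7m Classical

namespace RGenAAux

theorem sum_map_const_one {X : Type} (l : List X) (c : ℕ) :
    (l.map (fun _ => c)).sum = c * l.length := by
  induction l with
  | nil => simp
  | cons x t ih => rw [List.map_cons, List.sum_cons, ih, List.length_cons]; ring

theorem length_le_sum {X : Type} (l : List X) (c : X → ℕ) :
    l.length ≤ (l.map (fun x => c x + 1)).sum := by
  induction l with
  | nil => simp
  | cons x t ih => simp only [List.length_cons, List.map_cons, List.sum_cons]; omega

theorem sum_map_mul_le {X : Type} (l : List X) (c : X → ℕ) (K : ℕ) :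
    (l.map (fun x => K * c x + 1)).sum ≤ (K + 1) * (l.map (fun x => c x + 1)).sum := by
  induction l with
  | nil => simp
  | cons x t ih =>
    simp only [List.map_cons, List.sum_cons]
    nlinarith

theorem flatten_length_le {X : Type} (l : List (List X)) :
    l.flatten.length ≤ (l.map (fun x => x.length + 1)).sum := by
  induction l with
  | nil => simp
  | cons x t ih => simp only [List.flatten_cons, List.length_append, List.map_cons,
      List.sum_cons]; omega

/-! ### numberL -/

def nStep {B : Type} (s : ℕ × List (List (ℕ × B))) (l : List B) : ℕ × List (List (ℕ × B)) :=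
  (s.1 + l.length, ((l.zipIdx s.1).map (fun p => (p.2, p.1))) :: s.2)

theorem nStep_fold {B : Type} (ls : List (List B)) (g : ℕ) (out : List (List (ℕ × B))) :
    (ls.foldl nStep (g, out)).2 = (numberL g ls).reverse ++ out := by
  induction ls generalizing g out with
  | nil => simp [numberL]
  | cons l t ih =>
    simp only [List.foldl_cons, nStep, numberL]
    have := ih (g + l.length) (((l.zipIdx g).map (fun p => (p.2, p.1))) :: out)
    rw [this]
    simp

theorem numberL_length {B : Type} (ls : List (List B)) (g : ℕ) :
    (numberL g ls).length = ls.length := by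
  induction ls generalizing g with
  | nil => simp [numberL]
  | cons l t ih => simp [numberL, ih]

theorem rc_nStep {A B : Type} [Enc A] [Enc B] :
    RC (fun p : A × (ℕ × List (List (ℕ × B))) × List B => nStep p.2.1 p.2.2)
      (fun p => p.2.2.length) := by
  have hl : RC (fun p : A × (ℕ × List (List (ℕ × B))) × List B => p.2.2) (fun _ => 0) :=
    RC.snd (RC.snd RC.id)
  have hg : RC (fun p : A × (ℕ × List (List (ℕ × B))) × List B => p.2.1.1) (fun _ => 0) :=
    RC.fst (RC.fst (RC.snd RC.id))
  have ho : RC (fun p : A × (ℕ × List (List (ℕ × B))) × List B => p.2.1.2) (fun _ => 0) :=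
    RC.snd (RC.fst (RC.snd RC.id))
  have hz := RC.zipIdx hl hg
  have hm := RC.map (f := fun (_ : A × (ℕ × List (List (ℕ × B))) × List B) (q : B × ℕ) =>
    (q.2, q.1)) hz (RC.pair (RC.snd (RC.snd RC.id)) (RC.fst (RC.snd RC.id)))
  refine (RC.pair (RC.nadd hg (RC.length hl)) (RC.cons hm ho)).mono 4 (fun p => ?_)
  simp only [zero_add, add_zero]
  rw [sum_map_const_one, List.length_zipIdx]
  omega

/-! ### gather2 -/

def cIn {B : Type} (d : B) (s : List B × List B) (_ : ℕ) : List B × List B :=
  (s.1.tail, s.1.headD d :: s.2)

theorem cIn_fold {B : Type} (d : B) (F : ℕ → B) (is t : List ℕ) (blk : List B) :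
    is.foldl (cIn d) ((is ++ t).map F, blk) = (t.map F, (is.map F).reverse ++ blk) := by
  induction is generalizing blk with
  | nil => simp
  | cons i is ih =>
    simp only [List.foldl_cons, cIn, List.cons_append, List.map_cons, List.tail_cons,
      List.headD_cons]
    rw [ih]
    simp

theorem cIn_fold_length {B : Type} (d : B) (is : List ℕ) (s : List B × List B) :
    (is.foldl (cIn d) s).2.length = s.2.length + is.length := by
  induction is generalizing s with
  | nil => simp
  | cons i is ih =>
    simp only [List.foldl_cons]
    rw [ih]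
    simp [cIn]
    omega

def cOut {B : Type} (d : B) (s : List B × List (List B)) (is : List ℕ) :
    List B × List (List B) :=
  ((is.foldl (cIn d) (s.1, [])).1, (is.foldl (cIn d) (s.1, [])).2.reverse :: s.2)

theorem cOut_fold {B : Type} (d : B) (F : ℕ → B) (iss : List (List ℕ)) (t : List ℕ)
    (out : List (List B)) :
    iss.foldl (cOut d) ((iss.flatten ++ t).map F, out) =
      (t.map F, (iss.map (fun is => is.map F)).reverse ++ out) := by
  induction iss generalizing out with
  | nil => simp
  | cons is iss ih =>
    simp only [List.foldl_cons, cOut, List.flatten_cons, List.append_assoc]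
    rw [cIn_fold]
    simp only [List.append_nil, List.reverse_reverse]
    rw [ih]
    simp

theorem cOut_fold_length {B : Type} (d : B) (iss : List (List ℕ)) (s : List B × List (List B)) :
    (iss.foldl (cOut d) s).2.length = s.2.length + iss.length := by
  induction iss generalizing s with
  | nil => simp
  | cons i is ih =>
    simp only [List.foldl_cons]
    rw [ih]
    simp [cOut]
    omega

theorem rc_cIn {A B : Type} [Enc A] [Enc B] {d : A → B} (hd : RC d (fun _ => 0)) :
    RC (fun p : A × (List B × List B) × ℕ => cIn (d p.1) p.2.1 p.2.2) (fun _ => 0) := by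
  have h1 : RC (fun p : A × (List B × List B) × ℕ => p.2.1.1) (fun _ => 0) :=
    RC.fst (RC.fst (RC.snd RC.id))
  have h2 : RC (fun p : A × (List B × List B) × ℕ => p.2.1.2) (fun _ => 0) :=
    RC.snd (RC.fst (RC.snd RC.id))
  exact (RC.pair (RC.tail h1) (RC.cons (RC.headD h1 (RC.comp0 hd (RC.fst RC.id))) h2)).of_le
    (fun _ => le_refl _)

theorem rc_cOut {A B : Type} [Enc A] [Enc B] {d : A → B} (hd : RC d (fun _ => 0)) :
    RC (fun p : A × (List B × List (List B)) × List ℕ => cOut (d p.1) p.2.1 p.2.2)
      (fun p => p.2.2.length) := by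
  have h1 : RC (fun p : A × (List B × List (List B)) × List ℕ => p.2.1.1) (fun _ => 0) :=
    RC.fst (RC.fst (RC.snd RC.id))
  have h2 : RC (fun p : A × (List B × List (List B)) × List ℕ => p.2.1.2) (fun _ => 0) :=
    RC.snd (RC.fst (RC.snd RC.id))
  have h3 : RC (fun p : A × (List B × List (List B)) × List ℕ => p.2.2) (fun _ => 0) :=
    RC.snd (RC.snd RC.id)
  have hf := RC.foldl (f := fun (p : A × (List B × List (List B)) × List ℕ)
    (s : List B × List B) (i : ℕ) => cIn (d p.1) s i) h3 (RC.pair h1 (RC.nil (B := B)))
    (rc_cIn (A := A × (List B × List (List B)) × List ℕ) (d := fun p => d p.1)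
      (RC.comp0 hd (RC.fst RC.id)))
  have hf' : RC (fun p : A × (List B × List (List B)) × List ℕ =>
      p.2.2.foldl (cIn (d p.1)) (p.2.1.1, [])) (fun p => p.2.2.length) := by
    refine hf.of_le (fun p => ?_)
    have := foldCost_le_const (cIn (d p.1)) (fun _ _ => 0) 0 p.2.2 (p.2.1.1, [])
      (fun _ _ _ => le_refl _)
    simp only [zero_add, one_mul, add_zero] at this ⊢
    exact this
  refine (RC.pair (RC.fst hf') (RC.cons (RC.reverse (RC.snd hf')) h2)).mono 3 (fun p => ?_)
  rw [cIn_fold_length]
  simp only [List.length_nil]
  omega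

/-! ### findIdx -/

def fStep {B : Type} (p : B → Bool) (s : Bool × ℕ) (x : B) : Bool × ℕ :=
  if s.1 then s else if p x then (true, s.2) else (false, s.2 + 1)

theorem fStep_true {B : Type} (p : B → Bool) (l : List B) (n : ℕ) :
    l.foldl (fStep p) (true, n) = (true, n) := by
  induction l with
  | nil => rfl
  | cons x t ih => simpa [fStep] using ih

theorem fStep_fold {B : Type} (p : B → Bool) (l : List B) (n : ℕ) :
    (l.foldl (fStep p) (false, n)).2 = n + l.findIdx p := by
  induction l generalizing n with
  | nil => rfl
  | cons x t ih =>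
    rw [List.foldl_cons, List.findIdx_cons]
    cases hx : p x
    · have : fStep p (false, n) x = (false, n + 1) := by simp [fStep, hx]
      rw [this, ih]
      simp
      omega
    · have : fStep p (false, n) x = (true, n) := by simp [fStep, hx]
      rw [this, fStep_true]
      simp

theorem filterMap_eq {B : Type} (l : List (ℕ × B)) (i : ℕ) :
    l.filterMap (fun p => if p.1 = i then Option.some p.2 else Option.none) =
      (l.filter (fun p => p.1 = i)).map Prod.snd := by
  induction l with
  | nil => rfl
  | cons x t ih =>
    by_cases hx : x.1 = i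
    · simp [hx, ih]
    · simp [hx, ih]

theorem lookup_reverse {B : Type} (l : List (ℕ × B)) (i : ℕ) :
    l.reverse.lookup i = ((l.filter (fun p => p.1 = i)).map Prod.snd).getLast? := by
  induction l with
  | nil => rfl
  | cons x t ih =>
    rw [List.reverse_cons, List.lookup_append, ih]
    by_cases hx : x.1 = i
    · subst hx
      rcases h : (t.filter (fun p => p.1 = x.1)) with _ | ⟨y, u⟩
      · simp [h, List.lookup]
      · simp [h, List.lookup, List.getLast?_cons]
    · have h1 : (i == x.1) = false := by simpa using fun h : i = x.1 => hx h.symm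
      have h2 : decide (x.1 = i) = false := by simpa using hx
      rw [List.filter_cons, h2]
      simp only [List.lookup, h1, Option.or_none, Bool.false_eq_true, if_false]

end RGenAAux

open RGenAAux

theorem rc_numberL {B : Type} [Enc B] :
    RC (fun a : ℕ × List (List B) => numberL a.1 a.2)
      (fun a => (a.2.map (fun l => l.length + 1)).sum) := by
  have h := RC.reverse (RC.snd (RC.foldl (A := ℕ × List (List B))
    (f := fun _ (s : ℕ × List (List (ℕ × B))) (l : List B) => nStep s l) (RC.snd RC.id)
    (RC.pair (RC.fst RC.id) (RC.nil (B := List (ℕ × B)))) rc_nStep))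
  refine (h.mono 2 (fun a => ?_)).congr (fun a => ?_)
  · have h1 := foldCost_le_sum (nStep (B := B)) (fun _ l => l.length) (fun l => l.length) a.2
      (a.1, []) (fun _ _ _ => le_refl _)
    have h2 := length_le_sum a.2 (fun l => l.length)
    have e : (fun (s : ℕ × List (List (ℕ × B))) (l : List B) => nStep s l) = nStep := rfl
    simp only [e] at h1 h2 ⊢
    rw [nStep_fold]
    simp only [List.append_nil, List.length_reverse, numberL_length] at h1 h2 ⊢
    omega
  · have e : (fun (s : ℕ × List (List (ℕ × B))) (l : List B) => nStep s l) = nStep := rfl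
    simp only [e]
    rw [nStep_fold]
    simp

theorem rc_gather {B : Type} [Enc B] :
    RC (fun a : B × List B × List ℕ => gather a.1 a.2.1 a.2.2)
      (fun a => a.2.1.length + a.2.2.length) := by
  have h := RC.gather (A := B × List B × List ℕ) (l := fun a => a.2.1) (q := fun a => a.2.2)
    (RC.fst (RC.snd RC.id)) (RC.snd (RC.snd RC.id))
  have h2 := RC.map (f := fun (a : B × List B × List ℕ) (o : Option B) => o.getD a.1) h
    (RC.getD (RC.snd RC.id) (RC.fst (RC.fst RC.id)))
  refine (h2.mono 2 (fun a => ?_)).congr (fun a => ?_)
  · simp only [zero_add, add_zero]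
    rw [sum_map_const_one, List.length_map]
    omega
  · simp only [gather, List.map_map]
    refine List.map_congr_left (fun i _ => ?_)
    simp

theorem rc_gather2 {B : Type} [Enc B] :
    RC (fun a : B × List B × List (List ℕ) => gather2 a.1 a.2.1 a.2.2)
      (fun a => a.2.1.length + (a.2.2.map (fun l => l.length + 1)).sum) := by
  have hd : RC (fun a : B × List B × List (List ℕ) => a.1) (fun _ => 0) := RC.fst RC.id
  have hl : RC (fun a : B × List B × List (List ℕ) => a.2.1) (fun _ => 0) :=
    RC.fst (RC.snd RC.id)
  have hi : RC (fun a : B × List B × List (List ℕ) => a.2.2) (fun _ => 0) :=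
    RC.snd (RC.snd RC.id)
  have hG := RC.comp (rc_gather (B := B)) (RC.pair hd (RC.pair hl (RC.flatten hi)))
  have hG' : RC (fun a : B × List B × List (List ℕ) => gather a.1 a.2.1 a.2.2.flatten)
      (fun a => a.2.1.length + (a.2.2.map (fun l => l.length + 1)).sum) := by
    refine hG.mono 2 (fun a => ?_)
    have := flatten_length_le a.2.2
    simp only [zero_add] at this ⊢
    omega
  have hF := RC.reverse (RC.snd (RC.foldl (A := B × List B × List (List ℕ))
    (f := fun a (s : List B × List (List B)) (is : List ℕ) => cOut a.1 s is) hi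
    (RC.pair hG' (RC.nil (B := List B))) (rc_cOut hd)))
  refine (hF.mono 3 (fun a => ?_)).congr (fun a => ?_)
  · have h1 := foldCost_le_sum (cOut a.1) (fun _ l => l.length) (fun l => l.length) a.2.2
      (gather a.1 a.2.1 a.2.2.flatten, []) (fun _ _ _ => le_refl _)
    have h2 := length_le_sum a.2.2 (fun l => l.length)
    have h3 := cOut_fold_length a.1 a.2.2 (gather a.1 a.2.1 a.2.2.flatten, [])
    have e : (fun (s : List B × List (List B)) (is : List ℕ) => cOut a.1 s is) = cOut a.1 := rfl
    simp only [e] at h1 h2 h3 ⊢
    rw [h3]
    simp only [List.length_nil] at h1 h2 h3 ⊢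
    omega
  · have h3 := cOut_fold a.1 (fun i => a.2.1.getD i a.1) a.2.2 [] []
    have e : (fun (s : List B × List (List B)) (is : List ℕ) => cOut a.1 s is) = cOut a.1 := rfl
    simp only [List.append_nil] at h3
    simp only [e, gather, h3, gather2]
    simp

theorem rc_bucketL {B : Type} [Enc B] :
    RC (fun a : ℕ × List (ℕ × B) => bucketL a.1 a.2) (fun a => a.1 + a.2.length) := by
  have h := RC.groups (A := ℕ × List (ℕ × B)) (l := fun a => a.2)
    (q := fun a => List.range a.1) (RC.snd RC.id) (RC.range (RC.fst RC.id))
  refine (h.mono 2 (fun a => ?_)).congr (fun a => ?_)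
  · simp only [zero_add, List.length_range]
    omega
  · simp only [bucketL]
    refine List.map_congr_left (fun i _ => ?_)
    rw [filterMap_eq]

theorem rc_scatter {B : Type} [Enc B] :
    RC (fun a : B × ℕ × List (ℕ × B) => scatter a.1 a.2.1 a.2.2)
      (fun a => a.2.1 + a.2.2.length) := by
  have h := RC.lookups (A := B × ℕ × List (ℕ × B)) (l := fun a => a.2.2.reverse)
    (q := fun a => List.range a.2.1) (RC.reverse (RC.snd (RC.snd RC.id)))
    (RC.range (RC.fst (RC.snd RC.id)))
  have h2 := RC.map (f := fun (a : B × ℕ × List (ℕ × B)) (o : Option B) => o.getD a.1) h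
    (RC.getD (RC.snd RC.id) (RC.fst (RC.fst RC.id)))
  refine (h2.mono 3 (fun a => ?_)).congr (fun a => ?_)
  · simp only [zero_add, add_zero]
    rw [sum_map_const_one]
    simp only [List.length_map, List.length_range, List.length_reverse]
    omega
  · simp only [scatter, List.map_map]
    refine List.map_congr_left (fun i _ => ?_)
    simp only [Function.comp]
    rw [lookup_reverse]

theorem rc_findIdx {A B : Type} [Enc A] [Enc B] {l : A → List B} {p : A → B → Bool}
    {cl : A → ℕ} {cp : A × B → ℕ} (hl : RC l cl) (hp : RC (fun q : A × B => p q.1 q.2) cp) :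
    RC (fun a => (l a).findIdx (p a))
      (fun a => cl a + ((l a).map (fun x => cp (a, x) + 1)).sum) := by
  have hs : RC (fun q : A × (Bool × ℕ) × B => fStep (p q.1) q.2.1 q.2.2)
      (fun q => cp (q.1, q.2.2)) := by
    have h1 : RC (fun q : A × (Bool × ℕ) × B => q.2.1) (fun _ => 0) := RC.fst (RC.snd RC.id)
    have h2 : RC (fun q : A × (Bool × ℕ) × B => p q.1 q.2.2)
        (fun q => 0 + 0 + cp (q.1, q.2.2)) :=
      RC.comp (g := fun q : A × B => p q.1 q.2) hp (RC.pair (RC.fst RC.id) (RC.snd (RC.snd RC.id)))
    refine (RC.cond (RC.fst h1) h1 (RC.cond h2 (RC.pair RC.const_true (RC.snd h1))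
      (RC.pair RC.const_false (RC.succ (RC.snd h1))))).of_le (fun q => ?_)
    split <;> simp
  have h := RC.snd (RC.foldl (f := fun a (s : Bool × ℕ) (x : B) => fStep (p a) s x) hl
    (RC.pair RC.const_false (RC.const_nat 0)) hs)
  refine (h.of_le (fun a => ?_)).congr (fun a => ?_)
  · have h1 := foldCost_le_sum (fStep (p a)) (fun _ x => cp (a, x)) (fun x => cp (a, x)) (l a)
      (false, 0) (fun _ _ _ => le_refl _)
    have e : (fun (s : Bool × ℕ) (x : B) => fStep (p a) s x) = fStep (p a) := rfl
    simp only [e] at h1 ⊢
    omega
  · have e : (fun (s : Bool × ℕ) (x : B) => fStep (p a) s x) = fStep (p a) := rfl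
    simp only [e]
    rw [fStep_fold]
    simp

end SFA
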