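import Pool.Agent.Lib.SFA.RTest
import Pool.Agent.Lib.SFA.RoundDefs

/-!
# SFA.RRaR: adjacency of pieces, merged cells and conflict lists

* `rc_raR`: `RC.map` over `ps`; for every `p` the list `ps ++ ns.flatten` costs
  `ps.length + sum (length + 1)` and is filtered with the constant time test `CT.adjB`.
* `rc_mergeC`: `List.headD`, `List.getLastD` (a fold: `l.getLastD d = l.foldl (fun _ a => a) d`), cost
  `l.length`.
* `rc_mergeK`: `RC.append`, `RC.zip`, `RC.flatMap` with `RC.filter` and the constant time test
  `CT.conflB`; total cost at most `C (1 + sum over l of (p.2.length + 1))`.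
* `mergeK_length_le`, `raR_length_le`: sizes.
-/

namespace SFA

open P7m Classical

namespace RRaRAux

theorem map_const_sum {A : Type*} (l : List A) (f : A → ℕ) (K : ℕ) (h : ∀ x ∈ l, f x ≤ K) :
    (l.map f).sum ≤ l.length * K := by
  induction l with
  | nil => simp
  | cons x t ih =>
    simp only [List.map_cons, List.sum_cons, List.length_cons]
    have h1 := h x (by simp)
    have h2 := ih (fun y hy => h y (by simp [hy]))
    nlinarith

theorem map_one_sum {A : Type*} (l : List A) : (l.map (fun _ => 0 + 1)).sum = l.length := by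
  simp

theorem rc_pc0 {A : Type} [Enc A] : RC (fun _ : A => pc0) (fun _ => 0) :=
  (RC.pair (RC.cellmk RC.none RC.none RC.none RC.none) RC.nil).of_le (fun _ => le_refl _)

theorem zip_sum_le {A : Type*} (g : A → ℕ) (l' l : List A) :
    ((l'.zip l).map (fun x => g x.2)).sum ≤ (l.map g).sum := by
  induction l generalizing l' with
  | nil => simp
  | cons x t ih =>
    cases l' with
    | nil => simp
    | cons y s =>
      simp only [List.zip_cons_cons, List.map_cons, List.sum_cons]
      have := ih s
      omega

theorem tail_sum_le {A : Type*} (g : A → ℕ) (l : List A) :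
    (l.tail.map g).sum ≤ (l.map g).sum := by
  cases l <;> simp

theorem len_le_sum {A : Type*} (g : A → ℕ) (l : List A) :
    l.length ≤ (l.map (fun x => g x + 1)).sum := by
  induction l with
  | nil => simp
  | cons x t ih => simp only [List.map_cons, List.sum_cons, List.length_cons]; omega

end RRaRAux

open RRaRAux

theorem rc_raR : RC (fun a : List (ℕ × Pc) × List (List (ℕ × Pc)) => raR a.1 a.2)
    (fun a => (a.1.length + 1) * (a.1.length + (a.2.map (fun l => l.length + 1)).sum + 1)) := by
  have hps : RC (fun q : (List (ℕ × Pc) × List (List (ℕ × Pc))) × (ℕ × Pc) => q.1.1)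
      (fun _ => 0) := RC.fst (RC.fst RC.id)
  have hns : RC (fun q : (List (ℕ × Pc) × List (List (ℕ × Pc))) × (ℕ × Pc) => q.1.2.flatten)
      _ := RC.flatten (RC.snd (RC.fst RC.id))
  have happ := RC.append hps hns
  have hadj : RC (fun r : ((List (ℕ × Pc) × List (List (ℕ × Pc))) × (ℕ × Pc)) × (ℕ × Pc) =>
      adjB r.1.2.2.1 r.2.2.1) (fun _ => 0) :=
    CT.adjB (CT.fst (CT.snd (CT.snd (CT.fst CT.id)))) (CT.fst (CT.snd (CT.snd CT.id)))
  have hfil := RC.filter (p := fun (q : (List (ℕ × Pc) × List (List (ℕ × Pc))) × (ℕ × Pc))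
    (x : ℕ × Pc) => adjB q.2.2.1 x.2.1) happ hadj
  have hmap := RC.map (f := fun (_ : (List (ℕ × Pc) × List (List (ℕ × Pc))) × (ℕ × Pc))
    (x : ℕ × Pc) => x.1) hfil (RC.fst (RC.snd RC.id))
  have hall := RC.map (f := fun (a : List (ℕ × Pc) × List (List (ℕ × Pc))) (p : ℕ × Pc) =>
    ((a.1 ++ a.2.flatten).filter (fun q => adjB p.2.1 q.2.1)).map (fun x => x.1))
    (RC.fst (RC.id)) hmap
  refine (hall.mono 4 (fun a => ?_)).congr (fun a => rfl)
  obtain ⟨ps, ns⟩ := a
  have hfl : ns.flatten.length ≤ (ns.map (fun l => l.length + 1)).sum := by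
    rw [List.length_flatten]
    apply List.sum_le_sum
    intro l _
    omega
  have key := map_const_sum ps (fun x : ℕ × Pc =>
    (0 + (0 + (ns.map (fun l => l.length + 1)).sum) + ps.length +
      ((ps ++ ns.flatten).map (fun _ => 0 + 1)).sum +
      (((ps ++ ns.flatten).filter (fun q => adjB x.2.1 q.2.1)).map (fun _ => 0 + 1)).sum) + 1)
    (3 * (ps.length + (ns.map (fun l => l.length + 1)).sum) + 1) (fun x _ => by
      rw [map_one_sum, map_one_sum]
      have h1 := List.length_filter_le (fun q : ℕ × Pc => adjB x.2.1 q.2.1) (ps ++ ns.flatten)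
      rw [List.length_append] at h1 ⊢
      omega)
  simp only at key ⊢
  refine le_trans (Nat.add_le_add_left key 0) ?_
  nlinarith [Nat.zero_le (ps.length * (ps.length + (ns.map (fun l => l.length + 1)).sum)),
    Nat.zero_le (ps.length), Nat.zero_le ((ns.map (fun l => l.length + 1)).sum)]

theorem raR_length (ps : List (ℕ × Pc)) (ns : List (List (ℕ × Pc))) :
    (raR ps ns).length = ps.length := by
  simp [raR]

theorem raR_sum_le (ps : List (ℕ × Pc)) (ns : List (List (ℕ × Pc))) :
    ((raR ps ns).map List.length).sum ≤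
      ps.length * (ps.length + (ns.map (fun l => l.length)).sum) := by
  unfold raR
  rw [List.map_map]
  apply map_const_sum
  intro x _
  simp only [Function.comp, List.length_map]
  refine (List.length_filter_le _ _).trans ?_
  rw [List.length_append, List.length_flatten]

theorem rc_getLastD {A B : Type} [Enc A] [Enc B] {l : A → List B} {d : A → B} {cl cd : A → ℕ}
    (hl : RC l cl) (hd : RC d cd) :
    RC (fun a => (l a).getLastD (d a)) (fun a => cl a + cd a + (l a).length) := by
  have h := RC.foldl (f := fun _ (_ : B) (x : B) => x) hl hd (RC.snd (RC.snd RC.id))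
  have e : ∀ (l : List B) (d : B), l.foldl (fun _ x => x) d = l.getLastD d := by
    intro l
    induction l with
    | nil => intro d; rfl
    | cons x t ih => intro d; rw [List.foldl_cons, ih, List.getLastD_cons]
  refine (h.of_le (fun a => ?_)).congr (fun a => ?_)
  · have := foldCost_le_const (fun (_ : B) (x : B) => x) (fun _ _ => 0) 0 (l a) (d a)
      (fun _ _ _ => le_refl _)
    try simp only at this ⊢
    omega
  · rw [e]

theorem rc_mergeC : RC (fun l : List Pc => mergeC l) (fun l => l.length) := by
  have hh : RC (fun l : List Pc => l.headD pc0) (fun _ => 0) :=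
    (RC.headD RC.id rc_pc0).of_le (fun _ => le_refl _)
  have hl : RC (fun l : List Pc => l.getLastD pc0) (fun l => l.length) :=
    (rc_getLastD RC.id rc_pc0).of_le (fun _ => by simp)
  have h := RC.cellmk (RC.cellb (RC.fst hh)) (RC.cellt (RC.fst hh)) (RC.cellp (RC.fst hh))
    (RC.cellq (RC.fst hl))
  exact (h.of_le (fun a => by simp)).congr (fun a => rfl)

namespace RRaRAux

/-- the new segments of a piece -/
noncomputable def fK (x : Pc × Pc) : List (Seg × ℕ) :=
  x.2.2.filter (fun k => !(conflB x.1.1 k.1))

theorem fK_length_le (x : Pc × Pc) : (fK x).length ≤ x.2.2.length :=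
  List.length_filter_le _ _

theorem rc_new : RC (fun q : List Pc × (Pc × Pc) => fK q.2) (fun q => q.2.2.2.length) := by
  have hc : RC (fun r : (List Pc × (Pc × Pc)) × (Seg × ℕ) => !(conflB r.1.2.1.1 r.2.1))
      (fun _ => 0) :=
    CT.not (CT.conflB (CT.fst (CT.fst (CT.snd (CT.fst CT.id)))) (CT.fst (CT.snd CT.id)))
  have hl : RC (fun q : List Pc × (Pc × Pc) => q.2.2.2) (fun _ => 0) :=
    RC.snd (RC.snd (RC.snd RC.id))
  have hf := RC.filter (p := fun (q : List Pc × (Pc × Pc)) (k : Seg × ℕ) =>
    !(conflB q.2.1.1 k.1)) hl hc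
  refine hf.of_le (fun q => ?_)
  rw [map_one_sum]
  omega

theorem flat_cost (l : List Pc) : ((l.zip l.tail).map (fun x : Pc × Pc =>
      x.2.2.length + (fK x).length + 1)).sum ≤
      2 * (l.map (fun p => p.2.length + 1)).sum := by
  have h3 : ((l.zip l.tail).map (fun x : Pc × Pc =>
      x.2.2.length + (fK x).length + 1)).sum ≤
      ((l.zip l.tail).map (fun x : Pc × Pc => 2 * (x.2.2.length + 1))).sum := by
    apply List.sum_le_sum
    intro x _
    have := fK_length_le x
    omega
  refine h3.trans ?_
  have h4 := zip_sum_le (fun p : Pc => 2 * (p.2.length + 1)) l l.tail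
  have h5 := tail_sum_le (fun p : Pc => 2 * (p.2.length + 1)) l
  have h6 : (l.map (fun p : Pc => 2 * (p.2.length + 1))).sum =
      2 * (l.map (fun p => p.2.length + 1)).sum := by
    rw [← List.sum_map_mul_left]
  exact (h4.trans h5).trans h6.le

theorem arith1 (a b c : ℕ) (h1 : b ≤ 2 * c) (h2 : a ≤ c) : 0 + 0 + a + b ≤ 3 * (c + 1) := by
  omega

theorem rc_flat : RC (fun l : List Pc => (l.zip l.tail).flatMap (fun a => fK a))
    (fun l => (l.map (fun p => p.2.length + 1)).sum) := by
  have ht : RC (fun l : List Pc => l.tail) (fun _ => 0) := RC.tail RC.id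
  have hz : RC (fun l : List Pc => l.zip l.tail) (fun l => 0 + 0 + l.length) :=
    RC.zip RC.id ht
  have h := RC.flatMap (f := fun (_ : List Pc) (x : Pc × Pc) => fK x) hz rc_new
  exact RC.mono h 3 (fun l => arith1 _ _ _ (flat_cost l)
    (len_le_sum (fun p : Pc => p.2.length) l))

end RRaRAux

theorem rc_mergeK : RC (fun l : List Pc => mergeK l)
    (fun l => (l.map (fun p => p.2.length + 1)).sum) := by
  have hh : RC (fun l : List Pc => (l.headD pc0).2) (fun _ => 0) :=
    RC.snd ((RC.headD RC.id rc_pc0).of_le (fun _ => le_refl _))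
  have h := RC.append hh rc_flat
  refine RC.congr (RC.mono h 2 (fun l => ?_)) (fun l => ?_)
  · have h1 : (l.headD pc0).2.length ≤ (l.map (fun p => p.2.length + 1)).sum := by
      cases l with
      | nil => simp [pc0]
      | cons p t => simp only [List.headD_cons, List.map_cons, List.sum_cons]; omega
    omega
  · rfl

theorem mergeK_length_le (l : List Pc) :
    (mergeK l).length ≤ (l.map (fun p => p.2.length)).sum := by
  cases l with
  | nil => simp [mergeK, pc0]
  | cons p t =>
    simp only [mergeK, List.headD_cons, List.tail_cons, List.length_append, List.map_cons,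
      List.sum_cons]
    have h1 : (((p :: t).zip t).flatMap
        (fun a => a.2.2.filter (fun k => !(conflB a.1.1 k.1)))).length ≤
        (((p :: t).zip t).map (fun x : Pc × Pc => x.2.2.length)).sum := by
      rw [List.length_flatMap]
      apply List.sum_le_sum
      intro x _
      exact List.length_filter_le _ _
    have h2 := zip_sum_le (fun q : Pc => q.2.length) (p :: t) t
    omega

end SFA
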