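import Pool.Agent.Lib.SFA.RSplit
import Pool.Agent.Lib.SFA.RRaR
import Pool.Agent.Lib.SFA.RGenA

/-!
# SFA.RRoundA: cost of a round, first part (pieces and their adjacency)

`cA` is the sum of the first two terms of `roundCost`.  Every record contributes at least 1 to the
first sum.
* `rc_rdPL`: `RC.map` with `rc_splitR` (the context carries `i`), then `rc_numberL`; the lengths are
  bounded by `splitR_length_le`: `|P_r| <= 25 (newN+1)^6`.
* `rc_rdP`: `RC.flatten`, `RC.map`.
* `rc_rdNs`: `rc_gather2` (cost `PL.length + sum (nb.length + 1)`).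
* `rc_rdRa`: `RC.zip`, `RC.map` with `rc_raR`, `RC.flatten` (the lists `raR a.1 a.2` have length
  `a.1.length`, `raR_length`).
* lengths: `numberL` keeps the lengths of the lists (induction), `(numberL g ls).length = ls.length`;
  `gather2` has as many lists as `recs`; so the two lists zipped in `rdRa` have the same length and
  `rdRa.length = sum of |P_r| = rdP.length`.
* `rdRa_sum_le`: `raR_sum_le` and the second sum of `roundCost`.
-/

namespace SFA

open P7m Classical

/-- the first two terms of `roundCost` -/
noncomputable def cA (i : ℕ) (recs : List Rec) : ℕ :=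
  (recs.map (fun r => (newN i r + 1) ^ 7 * (r.K.length + 1) + r.nb.length)).sum +
  (((rdPL i recs).zip (rdNs i recs)).map (fun a =>
    (a.1.length + 1) * (a.1.length + (a.2.map (fun l => l.length + 1)).sum + 1))).sum

theorem numberL_lengths {α : Type} (g : ℕ) (ls : List (List α)) :
    (numberL g ls).map List.length = ls.map List.length := by
  induction ls generalizing g with
  | nil => rfl
  | cons l t ih =>
    simp only [numberL, List.map_cons, List.length_map, List.length_zipIdx]
    rw [ih]

theorem rdPL_length (i : ℕ) (recs : List Rec) : (rdPL i recs).length = recs.length := by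
  unfold rdPL
  rw [RGenAAux.numberL_length, List.length_map]

theorem rdP_length (i : ℕ) (recs : List Rec) :
    (rdP i recs).length = (recs.map (fun r => (splitR i r).length)).sum := by
  unfold rdP
  rw [List.length_map, List.length_flatten]
  unfold rdPL
  rw [numberL_lengths, List.map_map]
  rfl

namespace RRoundAAux

theorem sum_map_le {A : Type*} (l : List A) (f g : A → ℕ) (h : ∀ x ∈ l, f x ≤ g x) :
    (l.map f).sum ≤ (l.map g).sum := by
  induction l with
  | nil => simp
  | cons x t ih =>
    simp only [List.map_cons, List.sum_cons]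
    have h1 := h x (by simp)
    have h2 := ih (fun y hy => h y (by simp [hy]))
    omega

theorem sum_map_mul {A : Type*} (l : List A) (f : A → ℕ) (K : ℕ) :
    (l.map (fun x => K * f x)).sum = K * (l.map f).sum := by
  induction l with
  | nil => simp
  | cons x t ih =>
    simp only [List.map_cons, List.sum_cons, ih]
    ring

theorem sum_map_le_mul {A : Type*} (l : List A) (f g : A → ℕ) (K : ℕ)
    (h : ∀ x ∈ l, f x ≤ K * g x) : (l.map f).sum ≤ K * (l.map g).sum := by
  rw [← sum_map_mul]
  exact sum_map_le l f _ h

theorem one_le_pow7 (n : ℕ) : 1 ≤ (n + 1) ^ 7 := Nat.one_le_pow _ _ (by omega)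

theorem term_ge (i : ℕ) (r : Rec) :
    (newN i r + 1) ^ 7 ≤ (newN i r + 1) ^ 7 * (r.K.length + 1) + r.nb.length := by
  have := Nat.le_mul_of_pos_right ((newN i r + 1) ^ 7) (show 0 < r.K.length + 1 by omega)
  omega

theorem split_le (i : ℕ) (r : Rec) :
    (splitR i r).length ≤ 25 * ((newN i r + 1) ^ 7 * (r.K.length + 1) + r.nb.length) := by
  have h1 := splitR_length_le i r
  have h2 : (newN i r + 1) ^ 6 ≤ (newN i r + 1) ^ 7 := Nat.pow_le_pow_right (by omega) (by omega)
  have h3 := term_ge i r
  omega

/-- the first sum -/
theorem first_le (i : ℕ) (recs : List Rec) :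
    (recs.map (fun r => (newN i r + 1) ^ 7 * (r.K.length + 1) + r.nb.length)).sum ≤
      cA i recs := by
  unfold cA
  omega

theorem length_le_sum_map {A : Type*} (l : List A) (f : A → ℕ) (h : ∀ x ∈ l, 1 ≤ f x) :
    l.length ≤ (l.map f).sum := by
  induction l with
  | nil => simp
  | cons x t ih =>
    simp only [List.length_cons, List.map_cons, List.sum_cons]
    have h1 := h x (by simp)
    have h2 := ih (fun y hy => h y (by simp [hy]))
    omega

theorem rdNs_length (i : ℕ) (recs : List Rec) : (rdNs i recs).length = recs.length := by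
  simp [rdNs, gather2]

end RRoundAAux

open RRoundAAux

theorem rdP_length_le (i : ℕ) (recs : List Rec) : (rdP i recs).length ≤ 25 * cA i recs := by
  rw [rdP_length]
  exact (sum_map_le_mul recs _ _ 25 (fun r _ => split_le i r)).trans
    (Nat.mul_le_mul_left 25 (first_le i recs))

theorem recs_length_le (i : ℕ) (recs : List Rec) : recs.length ≤ cA i recs :=
  (length_le_sum_map recs _ (fun r _ => (one_le_pow7 _).trans (term_ge i r))).trans
    (first_le i recs)

theorem rdRa_length (i : ℕ) (recs : List Rec) :
    (rdRa i recs).length = (rdP i recs).length := by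
  unfold rdRa rdP
  rw [List.length_flatten, List.map_map, List.length_map, List.length_flatten]
  have h : (rdPL i recs).length ≤ (rdNs i recs).length := by
    rw [rdPL_length, rdNs_length]
  have e : List.map (List.length ∘ fun a => raR a.1 a.2) ((rdPL i recs).zip (rdNs i recs)) =
      ((rdPL i recs).zip (rdNs i recs)).map (List.length ∘ Prod.fst) := by
    apply List.map_congr_left
    intro a _
    simp only [Function.comp, raR_length]
  rw [e, ← List.map_map, List.map_fst_zip h]

theorem rdRa_sum_le (i : ℕ) (recs : List Rec) :
    ((rdRa i recs).map List.length).sum ≤ cA i recs := by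
  have h1 : ((rdRa i recs).map List.length).sum =
      (((rdPL i recs).zip (rdNs i recs)).map
        (fun a => ((raR a.1 a.2).map List.length).sum)).sum := by
    unfold rdRa
    generalize (rdPL i recs).zip (rdNs i recs) = t
    induction t with
    | nil => rfl
    | cons x t ih =>
      simp only [List.map_cons, List.flatten_cons, List.map_append, List.sum_append,
        List.sum_cons, ih]
  rw [h1]
  refine le_trans (sum_map_le _ _ (fun a => (a.1.length + 1) * (a.1.length +
    (a.2.map (fun l => l.length + 1)).sum + 1)) (fun a _ => ?_)) (by unfold cA; omega)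
  refine (raR_sum_le a.1 a.2).trans ?_
  apply Nat.mul_le_mul (by omega)
  have := sum_map_le a.2 (fun l => l.length) (fun l => l.length + 1) (fun _ _ => by omega)
  omega

theorem rc_rdPL : RC (fun a : ℕ × List Rec => rdPL a.1 a.2) (fun a => cA a.1 a.2) := by
  have hm := RC.map (A := ℕ × List Rec) (l := fun a => a.2)
    (f := fun (a : ℕ × List Rec) (r : Rec) => splitR a.1 r) (RC.snd RC.id)
    (RC.comp (g := fun q : ℕ × Rec => splitR q.1 q.2) rc_splitR
      (RC.pair (RC.fst (RC.fst RC.id)) (RC.snd RC.id)))
  have h := RC.comp (g := fun q : ℕ × List (List Pc) => numberL q.1 q.2) rc_numberL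
    (RC.pair (RC.const_nat (A := ℕ × List Rec) 0) hm)
  refine (h.mono 60 (fun a => ?_)).congr (fun a => rfl)
  obtain ⟨i, recs⟩ := a
  simp only [zero_add, List.map_map]
  have h1 := sum_map_le_mul recs
    (fun r => (newN i r + 1) ^ 7 * (r.K.length + 1) + 1)
    (fun r => (newN i r + 1) ^ 7 * (r.K.length + 1) + r.nb.length) 2 (fun r _ => by
      have := one_le_pow7 (newN i r)
      have := term_ge i r
      omega)
  have h2 := sum_map_le_mul recs
    ((fun l : List Pc => l.length + 1) ∘ fun r => splitR i r)
    (fun r => (newN i r + 1) ^ 7 * (r.K.length + 1) + r.nb.length) 26 (fun r _ => by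
      have := one_le_pow7 (newN i r)
      have := term_ge i r
      have := split_le i r
      simp only [Function.comp]
      omega)
  have h3 := first_le i recs
  omega

theorem rc_rdP : RC (fun a : ℕ × List Rec => rdP a.1 a.2) (fun a => cA a.1 a.2) := by
  have h := RC.map (f := fun (_ : ℕ × List Rec) (x : ℕ × Pc) => x.2)
    (RC.flatten rc_rdPL) (RC.snd (RC.snd RC.id))
  refine (h.mono 60 (fun a => ?_)).congr (fun a => rfl)
  obtain ⟨i, recs⟩ := a
  have h1 := rdP_length_le i recs
  have h2 : ((rdPL i recs).map (fun x => x.length + 1)).sum =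
      (rdP i recs).length + recs.length := by
    unfold rdP
    rw [List.length_map, List.length_flatten, ← rdPL_length i recs]
    generalize rdPL i recs = t
    induction t with
    | nil => rfl
    | cons x t ih =>
      simp only [List.map_cons, List.sum_cons, List.length_cons, ih]
      omega
  have h3 := recs_length_le i recs
  have h4 : ((rdPL i recs).flatten.map (fun _ => 0 + 1)).sum = (rdP i recs).length := by
    unfold rdP
    rw [List.length_map]
    generalize (rdPL i recs).flatten = t
    simp
  simp only at h4 ⊢
  rw [h2, h4]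
  omega

theorem rc_rdNs : RC (fun a : ℕ × List Rec => rdNs a.1 a.2) (fun a => cA a.1 a.2) := by
  have hnb := RC.map (A := ℕ × List Rec) (l := fun a => a.2)
    (f := fun (_ : ℕ × List Rec) (r : Rec) => r.nb) (RC.snd RC.id) (RC.recnb (RC.snd RC.id))
  have h := RC.comp (g := fun q : List (ℕ × Pc) × List (List (ℕ × Pc)) × List (List ℕ) =>
    gather2 q.1 q.2.1 q.2.2) rc_gather2
    (RC.pair (RC.nil (A := ℕ × List Rec) (B := ℕ × Pc)) (RC.pair rc_rdPL hnb))
  refine (h.mono 10 (fun a => ?_)).congr (fun a => rfl)
  obtain ⟨i, recs⟩ := a
  simp only [zero_add, List.map_map, rdPL_length]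
  have h1 := sum_map_le_mul recs (fun _ => 1)
    (fun r => (newN i r + 1) ^ 7 * (r.K.length + 1) + r.nb.length) 1 (fun r _ => by
      have := one_le_pow7 (newN i r)
      have := term_ge i r
      omega)
  have h2 := sum_map_le_mul recs ((fun l : List ℕ => l.length + 1) ∘ fun r => r.nb)
    (fun r => (newN i r + 1) ^ 7 * (r.K.length + 1) + r.nb.length) 2 (fun r _ => by
      have := one_le_pow7 (newN i r)
      have := term_ge i r
      simp only [Function.comp]
      omega)
  have h3 := first_le i recs
  have h4 := recs_length_le i recs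
  omega

theorem rc_rdRa : RC (fun a : ℕ × List Rec => rdRa a.1 a.2) (fun a => cA a.1 a.2) := by
  have hz := RC.zip rc_rdPL rc_rdNs
  have hm := RC.map (f := fun (_ : ℕ × List Rec) (x : List (ℕ × Pc) × List (List (ℕ × Pc))) =>
    raR x.1 x.2) hz (RC.comp (g := fun q : List (ℕ × Pc) × List (List (ℕ × Pc)) =>
      raR q.1 q.2) rc_raR (RC.snd RC.id))
  have h := RC.flatten hm
  refine (h.mono 60 (fun a => ?_)).congr (fun a => rfl)
  obtain ⟨i, recs⟩ := a
  simp only [zero_add, List.map_map, rdPL_length]
  have h0 : (((rdPL i recs).zip (rdNs i recs)).map (fun a => (a.1.length + 1) * (a.1.length +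
      (a.2.map (fun l => l.length + 1)).sum + 1))).sum ≤ cA i recs := by
    unfold cA
    omega
  set Z := (rdPL i recs).zip (rdNs i recs) with hZ
  have h1 := sum_map_le_mul Z (fun a => (a.1.length + 1) * (a.1.length +
      (a.2.map (fun l => l.length + 1)).sum + 1) + 1)
    (fun a => (a.1.length + 1) * (a.1.length + (a.2.map (fun l => l.length + 1)).sum + 1)) 2
    (fun a _ => by
      have : 1 ≤ (a.1.length + 1) * (a.1.length + (a.2.map (fun l => l.length + 1)).sum + 1) :=
        Nat.mul_pos (by omega) (by omega)
      omega)
  have h2 := sum_map_le_mul Z ((fun x : List (List ℕ) => x.length + 1) ∘ fun a => raR a.1 a.2)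
    (fun a => (a.1.length + 1) * (a.1.length + (a.2.map (fun l => l.length + 1)).sum + 1)) 1
    (fun a _ => by
      simp only [Function.comp, raR_length, one_mul]
      exact Nat.le_mul_of_pos_right _ (by omega))
  have h4 := recs_length_le i recs
  omega

end SFA
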