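import Pool.Agent.Lib.SFA.BDeg
import Pool.Agent.Lib.SFA.RRoundA

/-!
# SFA.BAdj: the second term of the cost of a round

Let `a_m = (splitR i recs[m]).length + 1`.  The `m`-th pair of the zipped list is
`(PL[m], [PL[j] : j in recs[m].nb])` with `PL[m].length + 1 = a_m`, so its contribution is
`a_m (a_m + sum over j in recs[m].nb of a_j)`; `a_m a_j <= a_m^2 + a_j^2`.
`sum_m sum_(j in nb_m) a_m^2 <= 2 sum a_m^2` (`nb_length_le`), and
`sum_m sum_(j in nb_m) a_j^2 = sum_j (number of m with j in nb_m) a_j^2 <= 2 sum_j a_j^2`
(`indeg_le`; all `j in nb_m` are `< recs.length` and `nb_m` is Nodup, `Inv.nb`, `Inv.nbnd`).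
Total at most `5 sum a_m^2`.  Convert the lists to `Finset.range recs.length` sums.
-/

namespace SFA

open Classical

namespace BAdjAux

theorem sum_comm_list {X : Type} (l : List X) (s : Finset ℕ) (F : X → ℕ → ℕ) :
    (l.map (fun r => ∑ j ∈ s, F r j)).sum = ∑ j ∈ s, (l.map (fun r => F r j)).sum := by
  induction l with
  | nil => simp
  | cons x t ih => simp only [List.map_cons, List.sum_cons, ih, Finset.sum_add_distrib]

theorem sum_ite_list {X : Type} (l : List X) (p : X → Prop) [DecidablePred p] (c : ℕ) :
    (l.map (fun r => if p r then c else 0)).sum = (l.filter (fun r => decide (p r))).length * c := by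
  induction l with
  | nil => simp
  | cons x t ih =>
    by_cases h : p x
    · simp only [List.map_cons, List.sum_cons, ih, h, if_true, decide_true,
        List.filter_cons_of_pos, List.length_cons]
      ring
    · simp only [List.map_cons, List.sum_cons, ih, h, if_false, zero_add]
      rw [List.filter_cons_of_neg (by simp [h])]

theorem sum_range_getD (l : List ℕ) (F : ℕ → ℕ) :
    ∑ j ∈ Finset.range l.length, F (l.getD j 0) = (l.map F).sum := by
  induction l with
  | nil => simp
  | cons x t ih =>
    rw [List.length_cons, Finset.sum_range_succ', List.map_cons, List.sum_cons, ← ih]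
    simp only [List.getD_cons_succ, List.getD_cons_zero]
    ring

theorem sum_le_sum_list {X : Type} (l : List X) (F G : X → ℕ) (h : ∀ x ∈ l, F x ≤ G x) :
    (l.map F).sum ≤ (l.map G).sum := by
  induction l with
  | nil => simp
  | cons x t ih =>
    simp only [List.map_cons, List.sum_cons]
    have h1 := h x (by simp)
    have h2 := ih (fun y hy => h y (by simp [hy]))
    omega

theorem sum_add_list {X : Type} (l : List X) (F G : X → ℕ) :
    (l.map (fun x => F x + G x)).sum = (l.map F).sum + (l.map G).sum := by
  induction l with
  | nil => simp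
  | cons x t ih => simp only [List.map_cons, List.sum_cons, ih]; omega

theorem mul_sum_list {X : Type} (l : List X) (F : X → ℕ) (c : ℕ) :
    (l.map (fun x => c * F x)).sum = c * (l.map F).sum := by
  induction l with
  | nil => simp
  | cons x t ih => simp only [List.map_cons, List.sum_cons, ih]; ring

/-- one term -/
theorem term_le (a : ℕ) (nb : List ℕ) (b : ℕ → ℕ) (h : nb.length ≤ 2) :
    a * (a + (nb.map b).sum) ≤ 3 * a ^ 2 + (nb.map (fun j => b j ^ 2)).sum := by
  have h1 : a * (nb.map b).sum ≤ nb.length * a ^ 2 + (nb.map (fun j => b j ^ 2)).sum := by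
    clear h
    induction nb with
    | nil => simp
    | cons x t ih =>
      simp only [List.map_cons, List.sum_cons, List.length_cons]
      have h2 : a * b x ≤ a ^ 2 + b x ^ 2 := by
        rcases le_total a (b x) with h | h
        · nlinarith
        · nlinarith
      nlinarith
  have h2 : nb.length * a ^ 2 ≤ 2 * a ^ 2 := Nat.mul_le_mul_right _ h
  nlinarith

/-- the zipped list in terms of the records -/
theorem zip_eq (PL : List (List (ℕ × Pc))) (recs : List Rec) (len : Rec → ℕ)
    (hL : PL.map List.length = recs.map len) (F : List (ℕ × Pc) → List (List (ℕ × Pc)) → ℕ)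
    (f : ℕ → List ℕ → ℕ) (G : List ℕ → List (List (ℕ × Pc)))
    (hF : ∀ l nb, F l (G nb) = f l.length nb) :
    ((PL.zip ((recs.map Rec.nb).map G)).map (fun a => F a.1 a.2)).sum =
      (recs.map (fun r => f (len r) r.nb)).sum := by
  induction recs generalizing PL with
  | nil => simp
  | cons r t ih =>
    cases PL with
    | nil => simp at hL
    | cons l PL =>
      simp only [List.map_cons, List.cons.injEq] at hL
      simp only [List.map_cons, List.zip_cons_cons, List.sum_cons, hF, hL.1]
      rw [ih PL hL.2]

theorem getD_map_length (PL : List (List (ℕ × Pc))) (j : ℕ) :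
    (PL.getD j []).length = (PL.map List.length).getD j 0 := by
  induction PL generalizing j with
  | nil => simp
  | cons l PL ih =>
    cases j with
    | zero => simp
    | succ j => simpa using ih j

end BAdjAux

open BAdjAux

theorem second_le {eps : ℝ} {S : Finset Seg} {lv : Seg → ℕ} {x : ℂ} {i : ℕ} {recs : List Rec} (hG : Gen eps S x)
    (h : Inv eps S lv x i recs) :
    (((rdPL i recs).zip (rdNs i recs)).map (fun a =>
      (a.1.length + 1) * (a.1.length + (a.2.map (fun l => l.length + 1)).sum + 1))).sum ≤
    5 * (recs.map (fun r => ((splitR i r).length + 1) ^ 2)).sum := by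
  have hL : (rdPL i recs).map List.length = recs.map (fun r => (splitR i r).length) := by
    unfold rdPL
    rw [numberL_lengths, List.map_map]
    rfl
  set PL := rdPL i recs with hPL
  set b : ℕ → ℕ := fun j => (PL.map List.length).getD j 0 + 1 with hb
  have e1 := zip_eq PL recs (fun r => (splitR i r).length) hL
    (fun l ns => (l.length + 1) * (l.length + (ns.map (fun l => l.length + 1)).sum + 1))
    (fun n nb => (n + 1) * ((n + 1) + (nb.map b).sum))
    (fun is => is.map (fun j => PL.getD j []))
    (fun l nb => by
      have : (nb.map (fun j => PL.getD j [])).map (fun l => l.length + 1) = nb.map b := by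
        rw [List.map_map]
        refine List.map_congr_left (fun j _ => ?_)
        simp only [Function.comp, hb]
        rw [getD_map_length]
      simp only [this]
      ring)
  have e0 : rdNs i recs = (recs.map Rec.nb).map (fun is => is.map (fun j => PL.getD j [])) := rfl
  rw [e0]
  have e1' : ((PL.zip ((recs.map Rec.nb).map (fun is => is.map (fun j => PL.getD j [])))).map
      (fun a => (a.1.length + 1) * (a.1.length + (a.2.map (fun l => l.length + 1)).sum + 1))).sum =
      (recs.map (fun r => ((splitR i r).length + 1) *
        (((splitR i r).length + 1) + (r.nb.map b).sum))).sum := e1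
  rw [e1']
  set N := recs.length with hN
  have h1 : (recs.map (fun r => ((splitR i r).length + 1) *
        (((splitR i r).length + 1) + (r.nb.map b).sum))).sum ≤
      (recs.map (fun r => 3 * ((splitR i r).length + 1) ^ 2 +
        ∑ j ∈ Finset.range N, if j ∈ r.nb then b j ^ 2 else 0)).sum := by
    refine sum_le_sum_list _ _ _ (fun r hr => ?_)
    have h2 := term_le ((splitR i r).length + 1) r.nb b (nb_length_le hG h hr)
    have h3 : (r.nb.map (fun j => b j ^ 2)).sum =
        ∑ j ∈ Finset.range N, if j ∈ r.nb then b j ^ 2 else 0 := by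
      rw [← List.sum_toFinset _ (h.nbnd r hr), ← Finset.sum_filter]
      refine Finset.sum_congr ?_ (fun _ _ => rfl)
      ext j
      rw [List.mem_toFinset, Finset.mem_filter, Finset.mem_range]
      constructor
      · intro hj
        obtain ⟨hlt, _⟩ := (h.nb r hr j).1 hj
        exact ⟨hlt, hj⟩
      · exact fun hj => hj.2
    rw [h3] at h2
    exact h2
  refine h1.trans ?_
  rw [sum_add_list, mul_sum_list, sum_comm_list]
  have h4 : ∑ j ∈ Finset.range N, (recs.map (fun r => if j ∈ r.nb then b j ^ 2 else 0)).sum ≤
      ∑ j ∈ Finset.range N, 2 * b j ^ 2 := by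
    refine Finset.sum_le_sum (fun j hj => ?_)
    rw [sum_ite_list recs (fun r => j ∈ r.nb)]
    exact Nat.mul_le_mul_right _ (indeg_le hG h j (Finset.mem_range.1 hj))
  have h5 : ∑ j ∈ Finset.range N, 2 * b j ^ 2 =
      2 * (recs.map (fun r => ((splitR i r).length + 1) ^ 2)).sum := by
    rw [← Finset.mul_sum]
    have h6 := sum_range_getD (PL.map List.length) (fun n => (n + 1) ^ 2)
    have h7 : (PL.map List.length).length = N := by rw [hL, List.length_map]
    rw [h7] at h6
    have h8 : ∑ j ∈ Finset.range N, b j ^ 2 =
        ∑ j ∈ Finset.range N, (((PL.map List.length).getD j 0) + 1) ^ 2 := rfl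
    rw [h8, h6, hL, List.map_map]
    rfl
  omega

end SFA
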