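import Pool.Agent.Lib.SFA.RoundS

/-!
# SFA.RoundT: `PSys` for the lists computed in a round

Let `PL = roundPL i recs = numberL 0 (recs.map (splitR i))`, `P = roundP i recs = (recs.map (splitR i)).flatten` (`numberL_flatten_snd`).  For `j < P.length` let `own j` be the index `m < recs.length` with `(j, P[j]) ∈ PL[m]` (`numberL_own`, `numberL_uniq`, `mem_numberL`), `co j = recs[own j].c`, and
`cn j` a cell with `IsP ... (co j) (cn j) (pcAt P j)` (`splitR_spec`; choose; the other values are arbitrary).
* `surj`: `c = recs[m].c` (`Inv.mem`), `d` is the first component of an element `a` of `splitR i recs[m]`; `(j, a) ∈ PL[m]` for some `j` (`numberL_getD_snd`).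
* `inj`: `co j = co k` gives `own j = own k` (`Inv.nodup`); the elements of `splitR i recs[m]` with the same first component are equal, and at the same position (Nodup), so `j = k` (positions in `PL[m]`: `numberL_nodup` and `numberL_getD_snd`).
* `K`, `Knd`: `splitR_spec`.
* `raM`: `roundRa = (... raR ...).flatten`; the `m`-th block is `raR PL[m] (recs[m].nb.map (PL.getD · []))` and has the length of `PL[m]`, so the `j`-th entry of the flattened list is the entry for `(j, P[j])`: its elements are the `k` with
  `(k, P[k]) ∈ PL[m]` or `∈ PL[m']`, `m' ∈ recs[m].nb`, and `adjB`.  `Inv.nb`: `m' ∈ recs[m].nb ↔ m' < recs.length ∧ adj recs[m].c recs[m'].c`.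
* `raNd`: the indices `m :: recs[m].nb` are different (`m ∉ nb`: `adj c c` is impossible because `X p < X q` for a valid cell), `numberL_gather_nodup`, a sublist.
-/

namespace SFA

namespace RoundTAux

theorem flat_zip {α γ β : Type} (f : List (ℕ × α) × γ → ℕ × α → β) (g : ℕ) (ls : List (List α))
    (G : List γ) (hG : G.length = ls.length) :
    ((((numberL g ls).zip G).map (fun a => a.1.map (f a))).flatten).length = ls.flatten.length ∧
    ∀ m j x, (j, x) ∈ (numberL g ls).getD m [] → ∃ c, G[m]? = some c ∧
      ((((numberL g ls).zip G).map (fun a => a.1.map (f a))).flatten)[j - g]? =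
        some (f ((numberL g ls).getD m [], c) (j, x)) := by
  induction ls generalizing g G with
  | nil =>
    refine ⟨by simp [numberL], ?_⟩
    intro m j x h
    simp [numberL] at h
  | cons l ls ih =>
    cases G with
    | nil => simp at hG
    | cons c G =>
      have hG' : G.length = ls.length := by simpa using hG
      obtain ⟨ih1, ih2⟩ := ih (g + l.length) G hG'
      have e1 : (((numberL g (l :: ls)).zip (c :: G)).map (fun a => a.1.map (f a))).flatten =
          (((l.zipIdx g).map (fun p => (p.2, p.1))).map
            (f ((l.zipIdx g).map (fun p => (p.2, p.1)), c))) ++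
          (((numberL (g + l.length) ls).zip G).map (fun a => a.1.map (f a))).flatten := by
        rw [numberL, List.zip_cons_cons, List.map_cons, List.flatten_cons]
      rw [e1]
      refine ⟨?_, ?_⟩
      · rw [List.length_append, ih1, List.flatten_cons, List.length_append]
        simp
      · intro m j x h
        cases m with
        | zero =>
          rw [numberL, List.getD_cons_zero] at h ⊢
          refine ⟨c, rfl, ?_⟩
          obtain ⟨p, hp, hpe⟩ := List.mem_map.1 h
          have h1 : p = (x, j) := by
            rw [Prod.mk.injEq] at hpe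
            exact Prod.ext hpe.2 hpe.1
          rw [h1, List.mem_zipIdx_iff_le_and_getElem?_sub] at hp
          obtain ⟨h2, h3⟩ := hp
          have h2' : g ≤ j := h2
          have h3' : l[j - g]? = some x := h3
          have h4 : j - g < l.length := by
            by_contra hc
            rw [List.getElem?_eq_none (by omega)] at h3'
            exact absurd h3' (by simp)
          rw [List.getElem?_append_left (by simpa using h4), List.getElem?_map, List.getElem?_map,
            List.getElem?_zipIdx, h3']
          simp only [Option.map_some]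
          rw [show g + (j - g) = j by omega]
        | succ m =>
          rw [numberL, List.getD_cons_succ] at h ⊢
          obtain ⟨c', hc1, hc2⟩ := ih2 m j x h
          refine ⟨c', by rw [List.getElem?_cons_succ]; exact hc1, ?_⟩
          have h5 := (mem_numberL h).1
          rw [List.getElem?_append_right (by simp; omega)]
          have h6 : j - g - (((l.zipIdx g).map (fun p => (p.2, p.1))).map
            (f ((l.zipIdx g).map (fun p => (p.2, p.1)), c))).length = j - (g + l.length) := by
            simp
            omega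
          rw [h6]
          exact hc2

/-- the record with number `m` -/
noncomputable def rc (recs : List Rec) (m : ℕ) : Rec := recs.getD m ⟨pc0.1, [], []⟩

theorem rc_eq {recs : List Rec} {m : ℕ} (hm : m < recs.length) : rc recs m = recs[m] := by
  unfold rc
  rw [List.getD_eq_getElem _ _ hm]

theorem rc_mem {recs : List Rec} {m : ℕ} (hm : m < recs.length) : rc recs m ∈ recs := by
  rw [rc_eq hm]
  exact List.getElem_mem hm

theorem rc_inj {recs : List Rec} (hnd : (recs.map Rec.c).Nodup) {m m' : ℕ} (hm : m < recs.length)
    (hm' : m' < recs.length) (h : (rc recs m).c = (rc recs m').c) : m = m' := by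
  rw [rc_eq hm, rc_eq hm'] at h
  have h1 : m < (recs.map Rec.c).length := by rw [List.length_map]; exact hm
  have h2 : m' < (recs.map Rec.c).length := by rw [List.length_map]; exact hm'
  refine (hnd.getElem_inj_iff (hi := h1) (hj := h2)).1 ?_
  rw [List.getElem_map, List.getElem_map]
  exact h

theorem L_getD {i : ℕ} {recs : List Rec} {m : ℕ} (hm : m < recs.length) :
    (recs.map (splitR i)).getD m [] = splitR i (rc recs m) := by
  rw [List.getD_eq_getElem _ _ (by rw [List.length_map]; exact hm), List.getElem_map, rc_eq hm]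

theorem P_eq (i : ℕ) (recs : List Rec) : roundP i recs = (recs.map (splitR i)).flatten := by
  unfold roundP roundPL
  exact numberL_flatten_snd 0 _

/-- membership in a numbered list -/
theorem mem_PL {i : ℕ} {recs : List Rec} {m j : ℕ} {a : Pc}
    (h : (j, a) ∈ (roundPL i recs).getD m []) :
    m < recs.length ∧ j < (roundP i recs).length ∧ (roundP i recs).getD j pc0 = a ∧
      a ∈ splitR i (rc recs m) := by
  unfold roundPL at h
  obtain ⟨_, h2, h3, h4⟩ := mem_numberL h
  rw [List.length_map] at h4
  rw [P_eq]
  refine ⟨h4, by omega, ?_, ?_⟩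
  · rw [Nat.sub_zero] at h3
    rw [List.getD_eq_getElem?_getD, h3]
    rfl
  · have h5 : a ∈ ((numberL 0 (recs.map (splitR i))).getD m []).map Prod.snd :=
      List.mem_map.2 ⟨(j, a), h, rfl⟩
    rw [numberL_getD_snd, L_getD h4] at h5
    exact h5

theorem PL_own {i : ℕ} {recs : List Rec} {j : ℕ} (hj : j < (roundP i recs).length) :
    ∃ m, m < recs.length ∧ (j, (roundP i recs).getD j pc0) ∈ (roundPL i recs).getD m [] := by
  have hj' := hj
  rw [P_eq] at hj'
  obtain ⟨m, hm, a, ha⟩ := numberL_own 0 (recs.map (splitR i)) (Nat.zero_le j) (by omega)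
  have ha' : (j, a) ∈ (roundPL i recs).getD m [] := ha
  obtain ⟨h1, _, h3, _⟩ := mem_PL ha'
  refine ⟨m, h1, ?_⟩
  rw [h3]
  exact ha'

theorem PL_uniq {i : ℕ} {recs : List Rec} {m m' j : ℕ} {a a' : Pc}
    (h : (j, a) ∈ (roundPL i recs).getD m []) (h' : (j, a') ∈ (roundPL i recs).getD m' []) :
    m = m' := (numberL_uniq h h').1

/-- the function in `raR` -/
noncomputable def fr (a : List (ℕ × Pc) × List (List (ℕ × Pc))) (p : ℕ × Pc) : List ℕ :=
  ((a.1 ++ a.2.flatten).filter (fun q => adjB p.2.1 q.2.1)).map Prod.fst

theorem roundRa_eq (i : ℕ) (recs : List Rec) : roundRa i recs =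
    ((((roundPL i recs).zip (gather2 [] (roundPL i recs) (recs.map Rec.nb))).map
      (fun a => a.1.map (fr a))).flatten) := rfl

theorem ra_len (i : ℕ) (recs : List Rec) : (roundRa i recs).length = (roundP i recs).length := by
  rw [roundRa_eq, P_eq]
  refine (flat_zip fr 0 (recs.map (splitR i)) (gather2 [] (roundPL i recs) (recs.map Rec.nb)) ?_).1
  simp [gather2]

theorem ra_entry {i : ℕ} {recs : List Rec} {m j : ℕ} {a : Pc}
    (h : (j, a) ∈ (roundPL i recs).getD m []) :
    (roundRa i recs).getD j [] =
      (((roundPL i recs).getD m [] ++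
        ((rc recs m).nb.map (fun k => (roundPL i recs).getD k [])).flatten).filter
          (fun q => adjB a.1 q.2.1)).map Prod.fst := by
  obtain ⟨c, h1, h2⟩ := (flat_zip fr 0 (recs.map (splitR i))
    (gather2 [] (roundPL i recs) (recs.map Rec.nb)) (by simp [gather2])).2 m j a h
  have hm := (mem_PL h).1
  have h3 : c = (rc recs m).nb.map (fun k => (roundPL i recs).getD k []) := by
    unfold gather2 at h1
    rw [List.getElem?_map, List.getElem?_map, List.getElem?_eq_getElem hm] at h1
    rw [rc_eq hm]
    simpa using h1.symm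
  rw [Nat.sub_zero] at h2
  rw [roundRa_eq, List.getD_eq_getElem?_getD]
  have h4 : ((((roundPL i recs).zip (gather2 [] (roundPL i recs) (recs.map Rec.nb))).map
      (fun a => a.1.map (fr a))).flatten)[j]? = some (fr ((roundPL i recs).getD m [], c) (j, a)) := h2
  rw [h4, h3]
  rfl

end RoundTAux

open RoundTAux

theorem psys_of_inv {eps : ℝ} {S : Finset Seg} {x : ℂ} (hG : Gen eps S x) (hL : LexOK eps S x)
    {lv : Seg → ℕ} {i : ℕ} {recs : List Rec} (h : Inv eps S lv x i recs) :
    ∃ co cn : ℕ → Cell, PSys eps S lv x i (roundP i recs) (roundRa i recs) co cn := by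
  have hface : ∀ m, m < recs.length → InFace eps (lev S lv i) x (rc recs m).c := by
    intro m hm
    exact (h.mem _).1 (List.mem_map.2 ⟨rc recs m, rc_mem hm, rfl⟩)
  have hspec := fun (m : ℕ) (hm : m < recs.length) =>
    splitR_spec hG hL (hface m hm).1 (h.K _ (rc_mem hm)) (h.Knd _ (rc_mem hm))
  have hex : ∀ j, j < (roundP i recs).length →
      ∃ m, m < recs.length ∧ (j, (roundP i recs).getD j pc0) ∈ (roundPL i recs).getD m [] :=
    fun j hj => PL_own hj
  choose! own hown1 hown2 using hex
  have hpcm : ∀ j, j < (roundP i recs).length →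
      (roundP i recs).getD j pc0 ∈ splitR i (rc recs (own j)) :=
    fun j hj => (mem_PL (hown2 j hj)).2.2.2
  have hex2 : ∀ j, j < (roundP i recs).length →
      ∃ c', IsP eps (lev S lv i) (lev S lv (i + 1)) (rc recs (own j)).c c' (pcAt (roundP i recs) j) := by
    intro j hj
    refine ((hspec (own j) (hown1 j hj)).1 _).1 ?_
    exact List.mem_map.2 ⟨_, hpcm j hj, rfl⟩
  haveI : Nonempty Cell := ⟨⟨none, none, none, none⟩⟩
  choose! cn hcn using hex2
  have hownu : ∀ {j m : ℕ} {a : Pc}, j < (roundP i recs).length →
      (j, a) ∈ (roundPL i recs).getD m [] → own j = m :=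
    fun hj ha => PL_uniq (hown2 _ hj) ha
  have hco : ∀ j, j < (roundP i recs).length → ∀ k, k < (roundP i recs).length →
      ((rc recs (own k)).c = (rc recs (own j)).c ↔ own k = own j) := by
    intro j hj k hk
    constructor
    · exact rc_inj h.nodup (hown1 k hk) (hown1 j hj)
    · intro e
      rw [e]
  refine ⟨fun j => (rc recs (own j)).c, cn, ?_⟩
  refine ⟨ra_len i recs, hcn, fun j hj => hface _ (hown1 j hj), ?_, ?_, ?_, ?_, ?_, ?_⟩
  · -- surj
    intro c c' d hc hd
    obtain ⟨r, hr, rfl⟩ := List.mem_map.1 ((h.mem c).2 hc)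
    obtain ⟨m, hm, rfl⟩ := List.getElem_of_mem hr
    have h1 : d ∈ (splitR i (rc recs m)).map Prod.fst := by
      refine ((hspec m hm).1 d).2 ⟨c', ?_⟩
      rw [rc_eq hm]
      exact hd
    obtain ⟨a, ha, rfl⟩ := List.mem_map.1 h1
    rw [← L_getD hm, ← numberL_getD_snd 0] at ha
    obtain ⟨⟨j, b⟩, hjb, hb⟩ := List.mem_map.1 ha
    have hb' : b = a := hb
    subst hb'
    have hjb' : (j, b) ∈ (roundPL i recs).getD m [] := hjb
    obtain ⟨_, h3, h4, _⟩ := mem_PL hjb'
    refine ⟨j, h3, ?_, ?_⟩
    · change (rc recs (own j)).c = _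
      rw [hownu h3 hjb', rc_eq hm]
    · unfold pcAt
      rw [h4]
  · -- inj
    intro j hj k hk hc hp
    have hc' : (rc recs (own j)).c = (rc recs (own k)).c := hc
    have e := (hco k hk j hj).1 hc'
    have h1 := hown2 j hj
    have h2 := hown2 k hk
    rw [e] at h1
    have hm := hown1 k hk
    have hnd := (hspec (own k) hm).2.1
    rw [← L_getD hm, ← numberL_getD_snd 0, List.map_map] at hnd
    have h3 := List.inj_on_of_nodup_map hnd (x := (j, (roundP i recs).getD j pc0)) h1
      (y := (k, (roundP i recs).getD k pc0)) h2 hp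
    exact (Prod.mk.inj h3).1
  · -- K
    intro j hj s l
    exact ((hspec (own j) (hown1 j hj)).2.2 _ (hpcm j hj)).2 s l
  · -- Knd
    intro j hj
    exact ((hspec (own j) (hown1 j hj)).2.2 _ (hpcm j hj)).1
  · -- raM
    intro j hj k
    rw [ra_entry (hown2 j hj), List.mem_map]
    have hnb : ∀ m', m' ∈ (rc recs (own j)).nb ↔ m' < recs.length ∧
        adj (rc recs (own j)).c (rc recs m').c := by
      intro m'
      rw [h.nb _ (rc_mem (hown1 j hj))]
      constructor
      · rintro ⟨h1, h2⟩
        exact ⟨h1, by rw [rc_eq h1]; exact h2⟩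
      · rintro ⟨h1, h2⟩
        exact ⟨h1, by rw [rc_eq h1] at h2; exact h2⟩
    constructor
    · rintro ⟨⟨k', b⟩, hq, hk'⟩
      have hk'' : k' = k := hk'
      subst hk''
      rw [List.mem_filter, List.mem_append] at hq
      obtain ⟨hq1, hq2⟩ := hq
      rcases hq1 with hq1 | hq1
      · obtain ⟨_, h3, h4, _⟩ := mem_PL hq1
        refine ⟨h3, Or.inl ?_, ?_⟩
        · exact (hco j hj k' h3).2 (hownu h3 hq1)
        · unfold pcAt
          rw [h4]
          exact hq2
      · obtain ⟨W, hW, hq3⟩ := List.mem_flatten.1 hq1
        obtain ⟨m', hm', rfl⟩ := List.mem_map.1 hW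
        obtain ⟨_, h3, h4, _⟩ := mem_PL hq3
        refine ⟨h3, Or.inr ?_, ?_⟩
        · change adj (rc recs (own j)).c (rc recs (own k')).c
          rw [hownu h3 hq3]
          exact ((hnb m').1 hm').2
        · unfold pcAt
          rw [h4]
          exact hq2
    · rintro ⟨h1, h2, h3⟩
      refine ⟨(k, (roundP i recs).getD k pc0), ?_, rfl⟩
      rw [List.mem_filter, List.mem_append]
      refine ⟨?_, h3⟩
      rcases h2 with h2 | h2
      · left
        have h4 := hown2 k h1
        rw [(hco j hj k h1).1 h2] at h4
        exact h4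
      · right
        have h2' : adj (rc recs (own j)).c (rc recs (own k)).c := h2
        refine List.mem_flatten.2 ⟨_, List.mem_map.2 ⟨own k, ?_, rfl⟩, hown2 k h1⟩
        exact (hnb (own k)).2 ⟨hown1 k h1, h2'⟩
  · -- raNd
    intro j hj
    rw [ra_entry (hown2 j hj)]
    have hm := hown1 j hj
    have hnd : (own j :: (rc recs (own j)).nb).Nodup := by
      rw [List.nodup_cons]
      refine ⟨?_, h.nbnd _ (rc_mem hm)⟩
      intro hmem
      obtain ⟨h1, v, hv1, hv2, _⟩ := (h.nb _ (rc_mem hm) _).1 hmem
      rw [← rc_eq h1] at hv2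
      have h2 := (hface (own j) hm).1.shape.lt v hv2 v hv1
      exact lt_irrefl _ h2
    have h3 := numberL_gather_nodup 0 (recs.map (splitR i)) _ hnd
    rw [List.map_cons, List.flatten_cons] at h3
    refine List.Nodup.sublist ?_ h3
    exact List.Sublist.map _ List.filter_sublist

end SFA
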