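import Pool.Agent.Lib.SFA.PS4
import Pool.Agent.Lib.SFA.RoundT

/-!
# SFA.InvStep: the invariant is preserved by a round

`inv_finish`: with `finishR_eq` the new records are `starts.map F`.
* `nodup`: the cells are `starts.map cn`; `nodup_startL`, `first_unique` (`mem_startL`).  `mem`: `mem_startL`; `first_exists`.
* `K`, `Knd`: `pchain`, `mem_mergeK`, `nodup_mergeK` with `PSys.K`, `PSys.Knd`.
* `nb`: let `a ∈ starts`, `l = last of chn a`: `trueR`, `cn l = cn a` (`chain_spec`).  `k ∈ ra[l]`: `true_succ`: `adj (cn a) (cn k)`, `trueL k`, `k < P.length`, `cn k` in the face (`adj_same_face`), so `k ∈ starts`, `starts[m]? = some k` for some `m`, and `idxL[k] = m` (`scatter_zipIdx`): the `m`-th record has the cell `cn k`.  Conversely let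
  `m < starts.length`, `adj (cn a) (cn starts[m])`: `true_surj` gives `k ∈ ra[l]` with `cn k = cn starts[m]`, `trueL k` (`true_succ`), so `k = starts[m]` (`first_unique`) and `idxL[k] = m`.
* `nbnd`: `raNd` and `idxL` is injective on `ra[l]` (its values are positions in `starts`).
`inv_init`: `lev S lv 0 = ∅`; the only valid cell of the empty set is the whole plane (`b`, `t` in `∅` impossible, no critical points), its region is everything, the face of `x` is everything.  `K`: no bottom or top: every `s` conflicts (`carrier s` is not empty).  `adj` is false (`q = none`).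
`inv_rounds`: induction (`List.range_succ`, `foldl_append`), `round_eq`, `psys_of_inv`, `inv_finish`.
-/

namespace SFA

namespace InvStepAux

theorem walkN_ne (nxt : List (Option ℕ)) (n a : ℕ) : walkN nxt n a ≠ [] := by
  cases n <;> simp [walkN]

theorem getLastD_mem {l : List ℕ} (h : l ≠ []) : l.getLastD 0 ∈ l := by
  rw [List.getLastD_eq_getLast?, List.getLast?_eq_some_getLast h]
  exact List.getLast_mem h

theorem last_spec {eps : ℝ} {S : Finset Seg} {lv : Seg → ℕ} {x : ℂ} {i : ℕ} {P : List Pc}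
    {ra : List (List ℕ)} {co cn : ℕ → Cell} (hG : Gen eps S x)
    (h : PSys eps S lv x i P ra co cn) {a : ℕ} (ha : a < P.length) :
    (chn P ra a).getLastD 0 < P.length ∧ cn ((chn P ra a).getLastD 0) = cn a ∧
      trueR (pcAt P ((chn P ra a).getLastD 0)) = true := by
  obtain ⟨-, h2, -, h4, -⟩ := h.chain_spec hG ha
  have h5 := h2 _ (getLastD_mem (walkN_ne _ _ _ : chn P ra a ≠ []))
  exact ⟨h5.1, h5.2, h4⟩

/-- the successors of the last piece of a new cell are first pieces -/
theorem succ_spec {eps : ℝ} {S : Finset Seg} {lv : Seg → ℕ} {x : ℂ} {i : ℕ} {P : List Pc}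
    {ra : List (List ℕ)} {co cn : ℕ → Cell} (hG : Gen eps S x) (hL : LexOK eps S x)
    (h : PSys eps S lv x i P ra co cn) {a : ℕ} (ha : a ∈ startL x P ra) {k : ℕ}
    (hk : k ∈ ra.getD ((chn P ra a).getLastD 0) []) :
    adj (cn a) (cn k) ∧ ∃ m, (startL x P ra)[m]? = some k ∧ (idxL x P ra).getD k 0 = m := by
  obtain ⟨ha1, ha2, ha3⟩ := (h.mem_startL hG hL a).1 ha
  obtain ⟨l1, l2, l3⟩ := last_spec hG h ha1
  obtain ⟨k1, k2, k3⟩ := h.true_succ hG l1 l3 hk
  rw [l2] at k2
  have hlast : Valid eps (lev S lv (i + 1)) (cn k) := (h.isP k k1).vc'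
  have hin : InFace eps (lev S lv (i + 1)) x (cn k) :=
    ⟨hlast, adj_same_face (hG.mono (lev_subset S lv (i + 1))) ha2.1 hlast (Or.inl k2) ha2.2⟩
  have hks : k ∈ startL x P ra := (h.mem_startL hG hL k).2 ⟨k1, hin, k3⟩
  obtain ⟨m, hm⟩ := List.mem_iff_getElem?.1 hks
  exact ⟨k2, m, hm, scatter_zipIdx (nodup_startL x P ra) hm k1⟩

end InvStepAux

open InvStepAux

theorem inv_finish {eps : ℝ} {S : Finset Seg} {lv : Seg → ℕ} {x : ℂ} {i : ℕ} {P : List Pc}
    {ra : List (List ℕ)} {co cn : ℕ → Cell} (hG : Gen eps S x) (hL : LexOK eps S x)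
    (h : PSys eps S lv x i P ra co cn) : Inv eps S lv x (i + 1) (finishR x P ra) := by
  rw [h.finishR_eq hG hL]
  have hKc : ∀ a < P.length, ∀ q ∈ (chn P ra a).map (fun j => P.getD j pc0), ∀ s l',
      (s, l') ∈ q.2 ↔ s ∈ S ∧ l' = lv s ∧ i + 1 ≤ lv s ∧ confl eps q.1 s := by
    intro a ha q hq s l'
    obtain ⟨j, hj, rfl⟩ := List.mem_map.1 hq
    exact h.K j ((h.chain_spec hG ha).2.1 j hj).1 s l'
  have hKn : ∀ a < P.length, ∀ q ∈ (chn P ra a).map (fun j => P.getD j pc0), q.2.Nodup := by
    intro a ha q hq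
    obtain ⟨j, hj, rfl⟩ := List.mem_map.1 hq
    exact h.Knd j ((h.chain_spec hG ha).2.1 j hj).1
  refine ⟨?_, ?_, ?_, ?_, ?_, ?_⟩
  · rw [List.map_map]
    refine List.Nodup.map_on ?_ (nodup_startL x P ra)
    intro a ha b hb hab
    obtain ⟨ha1, ha2, ha3⟩ := (h.mem_startL hG hL a).1 ha
    obtain ⟨hb1, hb2, hb3⟩ := (h.mem_startL hG hL b).1 hb
    exact h.first_unique hG ha1 hb1 ha3 hb3 hab
  · intro c
    rw [List.map_map, List.mem_map]
    constructor
    · rintro ⟨a, ha, rfl⟩
      exact ((h.mem_startL hG hL a).1 ha).2.1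
    · intro hc
      obtain ⟨j, hj, hj2, rfl⟩ := h.first_exists hG hc
      exact ⟨j, (h.mem_startL hG hL j).2 ⟨hj, hc, hj2⟩, rfl⟩
  · intro r hr s l
    obtain ⟨a, ha, rfl⟩ := List.mem_map.1 hr
    obtain ⟨ha1, ha2, ha3⟩ := (h.mem_startL hG hL a).1 ha
    exact mem_mergeK hG hL (h.pchain hG ha1 ha3) (hKc a ha1) s l
  · intro r hr
    obtain ⟨a, ha, rfl⟩ := List.mem_map.1 hr
    obtain ⟨ha1, ha2, ha3⟩ := (h.mem_startL hG hL a).1 ha
    exact nodup_mergeK hG hL (h.pchain hG ha1 ha3) (hKc a ha1) (hKn a ha1)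
  · intro r hr j
    obtain ⟨a, ha, rfl⟩ := List.mem_map.1 hr
    obtain ⟨ha1, ha2, ha3⟩ := (h.mem_startL hG hL a).1 ha
    obtain ⟨l1, l2, l3⟩ := last_spec hG h ha1
    simp only [List.mem_map]
    constructor
    · rintro ⟨k, hk, rfl⟩
      obtain ⟨h1, m, h2, h3⟩ := succ_spec hG hL h ha hk
      rw [h3]
      obtain ⟨hm, hm2⟩ := List.getElem?_eq_some_iff.1 h2
      refine ⟨by rw [List.length_map]; exact hm, ?_⟩
      rw [List.getElem_map, hm2]
      exact h1
    · rintro ⟨hlt, hadj⟩
      rw [List.getElem_map] at hadj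
      rw [List.length_map] at hlt
      have hb : (startL x P ra)[j] ∈ startL x P ra := List.getElem_mem hlt
      obtain ⟨hb1, hb2, hb3⟩ := (h.mem_startL hG hL _).1 hb
      have hadj' : adj (cn ((chn P ra a).getLastD 0)) (cn (startL x P ra)[j]) := by
        rw [l2]
        exact hadj
      obtain ⟨k, hk, hk2⟩ := h.true_surj hG l1 l3 hb2.1 hadj'
      obtain ⟨k1, k2, k3⟩ := h.true_succ hG l1 l3 hk
      have e : k = (startL x P ra)[j] := h.first_unique hG k1 hb1 k3 hb3 hk2
      refine ⟨k, hk, ?_⟩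
      exact scatter_zipIdx (nodup_startL x P ra) (j := j) (k := k)
        (by rw [e]; exact List.getElem?_eq_getElem hlt) k1
  · intro r hr
    obtain ⟨a, ha, rfl⟩ := List.mem_map.1 hr
    obtain ⟨ha1, ha2, ha3⟩ := (h.mem_startL hG hL a).1 ha
    obtain ⟨l1, l2, l3⟩ := last_spec hG h ha1
    refine List.Nodup.map_on ?_ (h.raNd _ l1)
    intro k hk k' hk' he
    obtain ⟨-, m, h2, h3⟩ := succ_spec hG hL h ha hk
    obtain ⟨-, m', h2', h3'⟩ := succ_spec hG hL h ha hk'
    rw [h3, h3'] at he
    rw [he] at h2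
    rw [h2] at h2'
    exact Option.some.inj h2'

theorem inv_round {eps : ℝ} {S : Finset Seg} {lv : Seg → ℕ} {x : ℂ} {i : ℕ} {recs : List Rec}
    (hG : Gen eps S x) (hL : LexOK eps S x) (h : Inv eps S lv x i recs) :
    Inv eps S lv x (i + 1) (round i x recs) := by
  obtain ⟨co, cn, hp⟩ := psys_of_inv hG hL h
  rw [round_eq]
  exact inv_finish hG hL hp

theorem inv_init {eps : ℝ} {S : Finset Seg} {lv : Seg → ℕ} {x : ℂ} (hG : Gen eps S x)
    {inp : List (Seg × ℕ)} (hnd : inp.Nodup)
    (hinp : ∀ s l, (s, l) ∈ inp ↔ s ∈ S ∧ l = lv s) : Inv eps S lv x 0 (initR inp) := by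
  have hlev : lev S lv 0 = ∅ := by
    unfold lev
    simp
  have hU : (U (∅ : Finset Seg))ᶜ = Set.univ := by
    unfold U
    simp
  have hface : face (∅ : Finset Seg) x = Set.univ := by
    unfold face
    rw [hU, connectedComponentIn_univ]
    exact PreconnectedSpace.connectedComponent_eq_univ x
  have hh : ∀ z, z ∈ hreg eps (⟨none, none, none, none⟩ : Cell) := by
    intro z
    exact ⟨⟨fun p hp => by simp at hp, fun p hp => by simp at hp⟩,
      ⟨fun p hp => by simp at hp, fun p hp => by simp at hp⟩⟩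
  refine ⟨?_, ?_, ?_, ?_, ?_, ?_⟩
  · simp [initR]
  · intro c
    rw [hlev]
    simp only [initR, List.map_cons, List.map_nil, List.mem_singleton]
    constructor
    · rintro rfl
      refine ⟨⟨⟨?_, ?_, ?_, ?_, ?_, ?_⟩, ⟨?_, ?_, ?_, ?_⟩, ?_⟩, ?_⟩
      · intro p hp; simp at hp
      · intro p hp; simp at hp
      · intro p hp; simp at hp
      · intro p hp; simp at hp
      · intro p hp; simp at hp
      · intro p hp; simp at hp
      · intro p hp; simp at hp
      · intro p hp; simp at hp
      · intro p hp; simp at hp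
      · intro p hp; simp at hp
      · intro s hs; simp at hs
      · rw [hface]
        exact Set.subset_univ _
    · intro hc
      have hc' : Valid eps ∅ c := hc.1
      have hcr : ∀ p : ℂ, ¬ IsCrit ∅ p := by
        rintro p (⟨s, hs, -⟩ | ⟨s, hs, -⟩)
        · simp at hs
        · simp at hs
      rcases c with ⟨b, t, p, q⟩
      have e1 : b = none := by
        rcases b with _ | b
        · rfl
        · exact absurd (hc'.defd.bR b rfl) (by simp)
      have e2 : t = none := by
        rcases t with _ | b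
        · rfl
        · exact absurd (hc'.defd.tR b rfl) (by simp)
      have e3 : p = none := by
        rcases p with _ | b
        · rfl
        · exact absurd (hc'.defd.pC b rfl) (hcr b)
      have e4 : q = none := by
        rcases q with _ | b
        · rfl
        · exact absurd (hc'.defd.qC b rfl) (hcr b)
      rw [e1, e2, e3, e4]
  · intro r hr s l
    simp only [initR, List.mem_singleton] at hr
    subst hr
    rw [hinp]
    constructor
    · rintro ⟨h1, h2⟩
      exact ⟨h1, h2, Nat.zero_le _, by simp, by simp, s.1, left_mem_carrier s, hh _⟩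
    · rintro ⟨h1, h2, -⟩
      exact ⟨h1, h2⟩
  · intro r hr
    simp only [initR, List.mem_singleton] at hr
    subst hr
    exact hnd
  · intro r hr j
    simp only [initR, List.mem_singleton] at hr
    subst hr
    constructor
    · intro hj
      simp at hj
    · rintro ⟨-, v, hv, -⟩
      simp at hv
  · intro r hr
    simp only [initR, List.mem_singleton] at hr
    subst hr
    exact List.nodup_nil

/-- the records before round `i` -/
noncomputable def recsAt (x : ℂ) (inp : List (Seg × ℕ)) : ℕ → List Rec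
  | 0 => initR inp
  | i + 1 => round i x (recsAt x inp i)

theorem rounds_eq (L : ℕ) (x : ℂ) (inp : List (Seg × ℕ)) :
    rounds L x inp = recsAt x inp (L + 1) := by
  have key : ∀ n, (List.range n).foldl (fun recs i => round i x recs) (initR inp) =
      recsAt x inp n := by
    intro n
    induction n with
    | zero => rfl
    | succ n ih =>
      rw [List.range_succ, List.foldl_append, ih]
      rfl
  exact key (L + 1)

theorem inv_recsAt {eps : ℝ} {S : Finset Seg} {lv : Seg → ℕ} {x : ℂ} (hG : Gen eps S x)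
    (hL : LexOK eps S x) {inp : List (Seg × ℕ)} (hnd : inp.Nodup)
    (hinp : ∀ s l, (s, l) ∈ inp ↔ s ∈ S ∧ l = lv s) (i : ℕ) :
    Inv eps S lv x i (recsAt x inp i) := by
  induction i with
  | zero => exact inv_init hG hnd hinp
  | succ i ih => exact inv_round hG hL ih

end SFA
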