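import Pool.Agent.Lib.SFA.RTest
import Pool.Agent.Lib.SFA.RoundDefs

/-!
# SFA.RAssign: assigning the levels, encoding the output

* `rc_assign`: fold over the segments with state (remaining bits, reversed output); one step: take
  `L` bits, count the leading ones, drop `L` bits (`RC.iterate` with `L` repetitions and state
  (rest, still counting?, count), cost `C (L + 1)`); then `RC.reverse`.  Prove that the fold equals
  `assign L S w` by induction on `S` (generalise `w` and the accumulator).
* `rc_encOut`: nested `RC.flatMap`.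
* `rc_lvl`: `Nat.clog 2 N`: repeat `N` times on the state `(k, e)`, start `(1, 0)`: if `k < N` then
  `(k + k, e + 1)` else unchanged; after `j` steps `(2^(min j (clog 2 N)), min j (clog 2 N))`; and
  `Nat.clog 2 N <= N`.  (`k` stays below `2 N`.)
-/

namespace SFA

open P7m Classical

namespace RAssignAux

/-- one step of counting the leading ones -/
def gst (p : List Bool × Bool × ℕ) : List Bool × Bool × ℕ :=
  (p.1.tail, p.2.1 && (p.1.head?).getD false,
    if (p.2.1 && (p.1.head?).getD false) = true then p.2.2 + 1 else p.2.2)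

theorem rc_gst : RC (fun p : List Bool × Bool × ℕ => gst p) (fun _ => 0) := by
  have h1 : CT (fun p : List Bool × Bool × ℕ => p.1.tail) := RC.tail (RC.fst RC.id)
  have h2 : CT (fun p : List Bool × Bool × ℕ => (p.2.1 && (p.1.head?).getD false)) :=
    RC.and (RC.fst (RC.snd RC.id)) (RC.getD (RC.head? (RC.fst RC.id)) RC.const_false)
  have h3 : CT (fun p : List Bool × Bool × ℕ => p.2.2) := RC.snd (RC.snd RC.id)
  exact CT.pair h1 (CT.pair h2 (CT.cond h2 (RC.succ h3) h3))

theorem gst_fst (k : ℕ) (p : List Bool × Bool × ℕ) : (gst^[k] p).1 = p.1.drop k := by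
  induction k generalizing p with
  | zero => rfl
  | succ k ih =>
    rw [Function.iterate_succ_apply, ih]
    simp [gst]

theorem gst_false (k : ℕ) (w : List Bool) (c : ℕ) : (gst^[k] (w, false, c)).2.2 = c := by
  induction k generalizing w with
  | zero => rfl
  | succ k ih =>
    rw [Function.iterate_succ_apply]
    simp only [gst, Bool.false_and, Bool.false_eq_true, if_false]
    exact ih _

theorem gst_true (k : ℕ) (w : List Bool) (c : ℕ) :
    (gst^[k] (w, true, c)).2.2 = c + ((w.take k).takeWhile (fun b => b)).length := by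
  induction k generalizing w c with
  | zero => simp
  | succ k ih =>
    rw [Function.iterate_succ_apply]
    cases w with
    | nil =>
      have : gst ([], true, c) = ([], false, c) := by simp [gst]
      rw [this, gst_false]
      simp
    | cons b t =>
      cases b with
      | false =>
        have : gst (false :: t, true, c) = (t, false, c) := by simp [gst]
        rw [this, gst_false]
        simp
      | true =>
        have : gst (true :: t, true, c) = (t, true, c + 1) := by simp [gst]
        rw [this, ih]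
        simp
        omega

/-- counting the leading ones among the first `a.1` bits of `a.2` -/
theorem rc_lead : RC (fun a : ℕ × List Bool => gst^[a.1] (a.2, true, 0)) (fun a => a.1) := by
  have h := RC.iterate (f := fun (_ : ℕ × List Bool) s => gst s) (b := fun a => (a.2, true, 0))
    (RC.fst RC.id) (RC.pair (f := fun a : ℕ × List Bool => a.2) (RC.snd RC.id)
      (RC.pair RC.const_true (RC.const_nat 0)))
    (RC.comp0 (g := gst) rc_gst (RC.snd RC.id))
  refine h.of_le (fun a => ?_)
  have h2 := iterCost_le_const (fun s => gst s) (fun _ => 0) 0 a.1 (a.2, true, 0)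
    (fun _ => le_refl _)
  simp only [Nat.zero_add, Nat.one_mul] at h2 ⊢
  exact h2

/-- one step of the fold of `assign` -/
def fst' (a : ℕ × List Seg × List Bool) (s : List Bool × List (Seg × ℕ)) (x : Seg) :
    List Bool × List (Seg × ℕ) :=
  ((gst^[a.1] (s.1, true, 0)).1, (x, a.1 - (gst^[a.1] (s.1, true, 0)).2.2) :: s.2)

theorem fold_assign (a : ℕ × List Seg × List Bool) (S : List Seg) (w : List Bool)
    (acc : List (Seg × ℕ)) :
    (S.foldl (fst' a) (w, acc)).2 = (assign a.1 S w).reverse ++ acc := by
  induction S generalizing w acc with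
  | nil => simp [assign]
  | cons s t ih =>
    rw [List.foldl_cons]
    have h1 : fst' a (w, acc) s
        = (w.drop a.1, (s, a.1 - ((w.take a.1).takeWhile (fun b => b)).length) :: acc) := by
      unfold fst'
      rw [gst_fst, gst_true]
      simp
    rw [h1, ih]
    simp [assign]

end RAssignAux

open RAssignAux

theorem assign_length (L : ℕ) (S : List Seg) (w : List Bool) :
    (assign L S w).length = S.length := by
  induction S generalizing w with
  | nil => rfl
  | cons s t ih => simp [assign, ih]

theorem rc_assign : RC (fun a : ℕ × List Seg × List Bool => assign a.1 a.2.1 a.2.2)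
    (fun a => a.2.1.length * (a.1 + 1)) := by
  have hL : RC (fun p : (ℕ × List Seg × List Bool) × (List Bool × List (Seg × ℕ)) × Seg =>
      gst^[p.1.1] (p.2.1.1, true, 0)) (fun p => p.1.1) :=
    (RC.comp (g := fun a : ℕ × List Bool => gst^[a.1] (a.2, true, 0)) rc_lead
      (RC.pair (RC.fst (RC.fst RC.id)) (RC.fst (RC.fst (RC.snd RC.id))))).of_le
      (fun p => by simp)
  have hstep : RC (fun p : (ℕ × List Seg × List Bool) × (List Bool × List (Seg × ℕ)) × Seg =>
      fst' p.1 p.2.1 p.2.2) (fun p => 2 * p.1.1) :=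
    (RC.pair (RC.fst hL) (RC.cons (RC.pair (RC.snd (RC.snd RC.id))
      (RC.nsub (RC.fst (RC.fst RC.id)) (RC.snd (RC.snd hL))))
      (RC.snd (RC.fst (RC.snd RC.id))))).of_le (fun p => by simp; omega)
  have hfold := RC.foldl (f := fst') (l := fun a : ℕ × List Seg × List Bool => a.2.1)
    (b := fun a => (a.2.2, ([] : List (Seg × ℕ)))) (RC.fst (RC.snd RC.id))
    (RC.pair (RC.snd (RC.snd RC.id)) RC.nil) hstep
  have hrev := RC.reverse (RC.snd hfold)
  refine (hrev.mono 3 (fun a => ?_)).congr (fun a => ?_)
  · rw [fold_assign, List.append_nil, List.length_reverse, assign_length]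
    have h1 := foldCost_le_const (fst' a) (fun _ _ => 2 * a.1) (2 * a.1) a.2.1 (a.2.2, [])
      (fun _ _ _ => le_refl _)
    have h2 : (2 * a.1 + 1) * a.2.1.length + a.2.1.length ≤ 3 * (a.2.1.length * (a.1 + 1)) := by
      nlinarith [Nat.zero_le (a.1 * a.2.1.length)]
    dsimp only at h1 ⊢
    omega
  · rw [fold_assign]; simp

section

variable {A B C : Type} [Enc A] [Enc B] [Enc C]

theorem RAssignAux.rc_inl {f : A → B} {c : A → ℕ} (hf : RC f c) :
    RC (fun a => (Sum.inl (f a) : B ⊕ C)) c :=
  (RC.mkNode 0 hf RC.const_unit (fun a => (Sum.inl (f a) : B ⊕ C)) (fun _ => rfl)).of_le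
    (fun _ => le_refl _)

theorem RAssignAux.rc_inr {f : A → C} {c : A → ℕ} (hf : RC f c) :
    RC (fun a => (Sum.inr (f a) : B ⊕ C)) c :=
  (RC.mkNode 1 hf RC.const_unit (fun a => (Sum.inr (f a) : B ⊕ C)) (fun _ => rfl)).of_le
    (fun _ => le_refl _)

end

/-- the words of one list of points -/
noncomputable def RAssignAux.enc1 (l : List ℂ) : List (ℕ ⊕ ℝ) :=
  Sum.inl l.length :: l.flatMap (fun z => [Sum.inr z.re, Sum.inr z.im])

theorem RAssignAux.enc1_length (l : List ℂ) : (enc1 l).length = 2 * l.length + 1 := by
  unfold enc1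
  rw [List.length_cons, List.length_flatMap]
  simp
  omega

theorem RAssignAux.rc_enc1 : RC (fun l : List ℂ => enc1 l) (fun l => l.length) := by
  have h1 : RC (fun l : List ℂ =>
      l.flatMap (fun z => ([Sum.inr z.re, Sum.inr z.im] : List (ℕ ⊕ ℝ)))) (fun l => l.length) := by
    have h := RC.flatMap (f := fun (_ : List ℂ) z => ([Sum.inr z.re, Sum.inr z.im] : List (ℕ ⊕ ℝ)))
      (RC.id (A := List ℂ))
      (RC.cons (rc_inr (RC.re (RC.snd RC.id))) (RC.cons (rc_inr (RC.im (RC.snd RC.id))) RC.nil))
    refine h.mono 3 (fun l => ?_)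
    simp
    omega
  exact (RC.cons (rc_inl (RC.length RC.id)) h1).mono 2 (fun l => by simp; omega)

theorem rc_encOut : RC (fun W : List (List ℂ) => encOut W)
    (fun W => (W.map (fun l => l.length + 1)).sum) := by
  have h := RC.flatMap (f := fun (_ : List (List ℂ)) l => enc1 l) (RC.id (A := List (List ℂ)))
    (RC.comp (g := enc1) rc_enc1 (RC.snd RC.id))
  have h2 : RC (fun W : List (List ℂ) => W.flatMap (fun l => enc1 l))
      (fun W => (W.map (fun l => l.length + 1)).sum) := by
    refine h.mono 3 (fun W => ?_)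
    have h3 : (W.map (fun l => 0 + l.length + (enc1 l).length + 1)).sum
        ≤ 3 * (W.map (fun l => l.length + 1)).sum := by
      rw [← List.sum_map_mul_left]
      apply List.sum_le_sum
      intro l _
      rw [enc1_length]
      omega
    simp only [Nat.zero_add] at h3 ⊢
    omega
  refine ((RC.cons (rc_inl (RC.length RC.id)) h2).mono 2 (fun W => ?_)).congr (fun W => rfl)
  have h4 : W.length ≤ (W.map (fun l => l.length + 1)).sum := by
    have h5 : (W.map (fun _ => 1)).sum ≤ (W.map (fun l => l.length + 1)).sum := by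
      apply List.sum_le_sum
      intro l _
      omega
    simp at h5 ⊢
  omega

theorem encOut_length_le (W : List (List ℂ)) :
    (encOut W).length ≤ 1 + (W.map (fun l => 2 * l.length + 1)).sum := by
  have h : encOut W = Sum.inl W.length :: W.flatMap (fun l => enc1 l) := rfl
  rw [h, List.length_cons, List.length_flatMap]
  have h2 : (W.map (fun l => (enc1 l).length)) = W.map (fun l => 2 * l.length + 1) := by
    apply List.map_congr_left
    intro l _
    exact enc1_length l
  rw [h2]
  omega

/-- one step of the computation of the logarithm -/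
def RAssignAux.lst (N : ℕ) (p : ℕ × ℕ) : ℕ × ℕ := if p.1 < N then (p.1 + p.1, p.2 + 1) else p

theorem RAssignAux.lst_iter (N j : ℕ) :
    (lst N)^[j] (1, 0) = (2 ^ (min j (Nat.clog 2 N)), min j (Nat.clog 2 N)) := by
  induction j with
  | zero => simp
  | succ j ih =>
    rw [Function.iterate_succ_apply', ih]
    unfold lst
    by_cases h : j < Nat.clog 2 N
    · have h1 : 2 ^ j < N := (Nat.lt_clog_iff_pow_lt one_lt_two).1 h
      have h2 : min j (Nat.clog 2 N) = j := min_eq_left h.le
      have h3 : min (j + 1) (Nat.clog 2 N) = j + 1 := min_eq_left h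
      rw [h2, h3]
      simp only [h1, if_true]
      rw [pow_succ, mul_two]
    · have h2 : min j (Nat.clog 2 N) = Nat.clog 2 N := min_eq_right (not_lt.1 h)
      have h3 : min (j + 1) (Nat.clog 2 N) = Nat.clog 2 N := min_eq_right (by omega)
      have h4 : ¬ 2 ^ Nat.clog 2 N < N := not_lt.2 (Nat.le_pow_clog one_lt_two N)
      rw [h2, h3]
      simp only [h4, if_false]

theorem rc_lvl : RC (fun N : ℕ => lvl N) (fun N => N) := by
  have hs : RC (fun p : ℕ × ℕ × ℕ => lst p.1 p.2) (fun _ => 0) := by
    have h1 : CT (fun p : ℕ × ℕ × ℕ => decide (p.2.1 < p.1)) :=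
      RC.nlt (RC.fst (RC.snd RC.id)) (RC.fst RC.id)
    have h2 : CT (fun p : ℕ × ℕ × ℕ => (p.2.1 + p.2.1, p.2.2 + 1)) :=
      RC.pair (RC.nadd (RC.fst (RC.snd RC.id)) (RC.fst (RC.snd RC.id)))
        (RC.succ (RC.snd (RC.snd RC.id)))
    exact CT.ite h1 h2 (RC.snd RC.id)
  have h := RC.snd (RC.iterate (f := lst) (b := fun _ : ℕ => (1, 0)) (n := fun N : ℕ => N)
    RC.id (RC.pair (RC.const_nat 1) (RC.const_nat 0)) hs)
  refine (h.of_le (fun N => ?_)).congr (fun N => ?_)
  · have h2 := iterCost_le_const (lst N) (fun _ => 0) 0 N (1, 0) (fun _ => le_refl _)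
    simp only [Nat.zero_add, Nat.one_mul] at h2 ⊢
    exact h2
  · rw [lst_iter]
    have h3 : Nat.clog 2 N ≤ N := Nat.clog_le_of_le_pow Nat.lt_two_pow_self.le
    simp only [lvl]
    omega

end SFA
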