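import Pool.Agent.Lib.P7m.Mem
import Pool.Agent.Lib.SFA.RoundDefs

/-!
# SFA.RGenD: RC version of cyclesM

`cyclesM nxt` repeats `cycStep nxt` `3 * nxt.length` times; the state contains a function
`vis : N -> Bool`, which becomes part of the memory: memory cell `i` holds the pair
(the entry `nxt[i]`, visited flag), type `M = Option (Option N x Bool)` or
`Option (Option N) x Bool`-like encoding with default `none`; load `nxt.map (fun o => (o, false))`
with `RC.runWith`.  Invariant linking the two representations: for `i < nxt.length` the cell is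
`some (nxt[i], vis i)`.  For `a >= nxt.length` (possible only as an entry of `nxt` outside the
range): `nxt.getD a none = none`; the flag of such an `a` has to be remembered too: write
`some (none, true)` into the cell, and an empty cell means (none, false).  So the abstract state
is: `nxt.getD i none` = first component or `none`, `vis i` = second component or `false`.
Cost: every step O(1); the final reversals cost the total length `<= 3 * nxt.length`.
-/

namespace SFA

open P7m Classical

namespace RGenDAux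

/-- content of a memory cell -/
abbrev Mm := Option (Option ℕ × Bool)

/-- the state without the memory -/
abbrev Ss := List ℕ × List ℕ × List (List ℕ)

def nxC (c : Mm) : Option ℕ := c.elim none (fun p => p.1)
def vsC (c : Mm) : Bool := c.elim false (fun p => p.2)

def idx1 (s : Ss) : ℕ := listElim s.2.1 (listElim s.1 0 (fun a _ => a)) (fun a _ => a)

def idx2 (s : Ss) (c : Mm) : ℕ :=
  listElim s.2.1 (idx1 s) (fun a _ => (nxC c).elim a (fun b => b))

def upd (s : Ss) (c1 c2 : Mm) : Ss × Mm :=
  listElim s.2.1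
    (listElim s.1 (s, c2) (fun a rest => if vsC c1 || !(nxC c1).isSome then ((rest, [], s.2.2), c2)
      else ((rest, [a], s.2.2), some (nxC c1, true))))
    (fun a cur => (nxC c1).elim ((s.1, [], (a :: cur) :: s.2.2), c2)
      (fun b => if vsC c2 then ((s.1, [], (a :: cur) :: s.2.2), c2)
        else ((s.1, b :: a :: cur, s.2.2), some (nxC c2, true))))

def cstep (s : Ss) (m : ℕ → Mm) : Ss × (ℕ → Mm) :=
  ((upd s (m (idx1 s)) (m (idx2 s (m (idx1 s))))).1,
    Function.update m (idx2 s (m (idx1 s))) (upd s (m (idx1 s)) (m (idx2 s (m (idx1 s))))).2)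

/-- the memory represents the list and the visited set -/
def Rp (nxt : List (Option ℕ)) (m : ℕ → Mm) (vis : ℕ → Bool) : Prop :=
  (∀ i, nxC (m i) = nxt.getD i none) ∧ (∀ i, vsC (m i) = vis i)

theorem Rp.upd {nxt : List (Option ℕ)} {m : ℕ → Mm} {vis : ℕ → Bool} (h : Rp nxt m vis) (a : ℕ) :
    Rp nxt (Function.update m a (some (nxC (m a), true))) (Function.update vis a true) := by
  constructor
  · intro i
    by_cases hi : i = a
    · subst hi
      rw [Function.update_self]
      exact h.1 i
    · rw [Function.update_of_ne hi]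
      exact h.1 i
  · intro i
    by_cases hi : i = a
    · subst hi
      rw [Function.update_self, Function.update_self]
      rfl
    · rw [Function.update_of_ne hi, Function.update_of_ne hi]
      exact h.2 i

theorem sim {nxt : List (Option ℕ)} {m : ℕ → Mm} {vis : ℕ → Bool} (h : Rp nxt m vis) (s : Ss) :
    (cstep s m).1 = ((cycStep nxt (s.1, s.2.1, s.2.2, vis)).1,
      (cycStep nxt (s.1, s.2.1, s.2.2, vis)).2.1, (cycStep nxt (s.1, s.2.1, s.2.2, vis)).2.2.1) ∧
    Rp nxt (cstep s m).2 (cycStep nxt (s.1, s.2.1, s.2.2, vis)).2.2.2 := by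
  obtain ⟨sc, cur, dn⟩ := s
  cases cur with
  | nil =>
    cases sc with
    | nil =>
      have e : cstep ([], [], dn) m = (([], [], dn), Function.update m 0 (m 0)) := rfl
      rw [e, Function.update_eq_self]
      exact ⟨rfl, h⟩
    | cons a rest =>
      have e : cstep (a :: rest, [], dn) m =
          ((if vsC (m a) || !(nxC (m a)).isSome then (((rest, [], dn) : Ss), m a)
            else ((rest, [a], dn), some (nxC (m a), true))).1,
          Function.update m a (if vsC (m a) || !(nxC (m a)).isSome then (((rest, [], dn) : Ss), m a)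
            else ((rest, [a], dn), some (nxC (m a), true))).2) := rfl
      rw [e]
      have hc : (vsC (m a) || !(nxC (m a)).isSome) = (vis a || (nxt.getD a none).isNone) := by
        rw [h.1 a, h.2 a]
        cases nxt.getD a none <;> rfl
      rw [hc]
      have e2 : cycStep nxt (a :: rest, [], dn, vis) =
        if vis a || (nxt.getD a none).isNone then (rest, [], (dn, vis))
        else (rest, [a], dn, Function.update vis a true) := rfl
      rw [e2]
      by_cases hv : (vis a || (nxt.getD a none).isNone) = true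
      · rw [if_pos hv, if_pos hv, Function.update_eq_self]
        exact ⟨rfl, h⟩
      · rw [if_neg hv, if_neg hv]
        exact ⟨rfl, h.upd a⟩
  | cons a cur =>
    have e : cstep (sc, a :: cur, dn) m =
        (((nxC (m a)).elim (((sc, [], (a :: cur) :: dn) : Ss), m ((nxC (m a)).elim a (fun b => b)))
          (fun b => if vsC (m ((nxC (m a)).elim a (fun b => b))) then
            ((sc, [], (a :: cur) :: dn), m ((nxC (m a)).elim a (fun b => b)))
            else ((sc, b :: a :: cur, dn),
              some (nxC (m ((nxC (m a)).elim a (fun b => b))), true)))).1,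
        Function.update m ((nxC (m a)).elim a (fun b => b))
          ((nxC (m a)).elim (((sc, [], (a :: cur) :: dn) : Ss), m ((nxC (m a)).elim a (fun b => b)))
          (fun b => if vsC (m ((nxC (m a)).elim a (fun b => b))) then
            ((sc, [], (a :: cur) :: dn), m ((nxC (m a)).elim a (fun b => b)))
            else ((sc, b :: a :: cur, dn),
              some (nxC (m ((nxC (m a)).elim a (fun b => b))), true)))).2) := rfl
    rw [e, h.1 a]
    cases hb : nxt.getD a none with
    | none =>
      have e2 : cycStep nxt (sc, a :: cur, dn, vis) = (sc, [], (a :: cur) :: dn, vis) := by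
        simp only [cycStep, hb]
      rw [e2]
      simp only [Option.elim_none, Function.update_eq_self]
      exact ⟨trivial, h⟩
    | some b =>
      have e2 : cycStep nxt (sc, a :: cur, dn, vis) =
          if vis b then (sc, [], (a :: cur) :: dn, vis)
          else (sc, b :: a :: cur, dn, Function.update vis b true) := by
        simp only [cycStep, hb]
      rw [e2]
      by_cases hv : vis b = true
      · have hvs : vsC (m b) = true := by rw [h.2 b]; exact hv
        simp only [Option.elim_some, hvs, hv, if_true, Function.update_eq_self]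
        exact ⟨trivial, h⟩
      · have hv' : vis b = false := by simpa using hv
        have hvs : vsC (m b) = false := by rw [h.2 b]; exact hv'
        simp only [Option.elim_some, hvs, hv', Bool.false_eq_true, if_false]
        exact ⟨trivial, h.upd b⟩

theorem sim_iter {nxt : List (Option ℕ)} (k : ℕ) {m : ℕ → Mm} {vis : ℕ → Bool}
    (h : Rp nxt m vis) (s : Ss) :
    ((fun t : Ss × (ℕ → Mm) => cstep t.1 t.2)^[k] (s, m)).1 =
      (((cycStep nxt)^[k] (s.1, s.2.1, s.2.2, vis)).1,
      ((cycStep nxt)^[k] (s.1, s.2.1, s.2.2, vis)).2.1,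
      ((cycStep nxt)^[k] (s.1, s.2.1, s.2.2, vis)).2.2.1) := by
  induction k generalizing m vis s with
  | zero => rfl
  | succ k ih =>
    rw [Function.iterate_succ_apply, Function.iterate_succ_apply]
    obtain ⟨h1, h2⟩ := sim h s
    have h3 := ih h2 (cstep s m).1
    have h5 : ((cstep s m).1.1, (cstep s m).1.2.1, (cstep s m).1.2.2,
        (cycStep nxt (s.1, s.2.1, s.2.2, vis)).2.2.2) =
        cycStep nxt (s.1, s.2.1, s.2.2, vis) := by rw [h1]
    rw [h5] at h3
    exact h3

theorem cyc_pot (nxt : List (Option ℕ)) (s : List ℕ × List ℕ × List (List ℕ) × (ℕ → Bool)) :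
    (cycStep nxt s).2.1.length + ((cycStep nxt s).2.2.1.map List.length).sum ≤
      s.2.1.length + (s.2.2.1.map List.length).sum + 1 ∧
    (cycStep nxt s).2.2.1.length ≤ s.2.2.1.length + 1 := by
  obtain ⟨sc, cur, dn, vis⟩ := s
  cases cur with
  | nil =>
    cases sc with
    | nil => simp [cycStep]
    | cons a rest =>
      simp only [cycStep]
      split_ifs <;> simp <;> omega
  | cons a cur =>
    cases hb : nxt.getD a none with
    | none =>
      simp only [cycStep, hb]
      simp
    | some b =>
      simp only [cycStep, hb]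
      split_ifs <;> simp <;> omega

theorem cyc_pot_iter (nxt : List (Option ℕ)) (k : ℕ)
    (s : List ℕ × List ℕ × List (List ℕ) × (ℕ → Bool)) :
    ((cycStep nxt)^[k] s).2.1.length + (((cycStep nxt)^[k] s).2.2.1.map List.length).sum ≤
      s.2.1.length + (s.2.2.1.map List.length).sum + k ∧
    ((cycStep nxt)^[k] s).2.2.1.length ≤ s.2.2.1.length + k := by
  induction k with
  | zero => exact ⟨le_rfl, le_rfl⟩
  | succ k ih =>
    rw [Function.iterate_succ_apply']
    have h := cyc_pot nxt ((cycStep nxt)^[k] s)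
    obtain ⟨h1, h2⟩ := h
    obtain ⟨h3, h4⟩ := ih
    constructor <;> omega

theorem map_rev_len (l : List (List ℕ)) :
    ((l.map List.reverse).reverse.map List.length).sum = (l.map List.length).sum := by
  rw [List.map_reverse, List.sum_reverse, List.map_map]
  congr 1
  apply List.map_congr_left
  intro a _
  simp

/-! constant time versions -/

section
variable {A B C : Type} [Enc A] [Enc B] [Enc C]

theorem c_listElim {l : A → List B} {n : A → C} {s : A → B → List B → C}
    (hl : RC l (fun _ => 0)) (hn : RC n (fun _ => 0))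
    (hs : RC (fun p : A × B × List B => s p.1 p.2.1 p.2.2) (fun _ => 0)) :
    RC (fun a => listElim (l a) (n a) (s a)) (fun _ => 0) :=
  (RC.listElim hl hn hs).of_le (fun a => by cases l a <;> simp)

theorem c_elim {o : A → Option B} {n : A → C} {s : A → B → C} (ho : RC o (fun _ => 0))
    (hn : RC n (fun _ => 0)) (hs : RC (fun p : A × B => s p.1 p.2) (fun _ => 0)) :
    RC (fun a => (o a).elim (n a) (s a)) (fun _ => 0) :=
  (RC.optionElim ho hn hs).of_le (fun a => by cases o a <;> simp)

theorem c_cond {p : A → Bool} {f g : A → B} (hp : RC p (fun _ => 0)) (hf : RC f (fun _ => 0))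
    (hg : RC g (fun _ => 0)) : RC (fun a => if p a then f a else g a) (fun _ => 0) :=
  (RC.cond hp hf hg).of_le (fun a => by simp)

theorem c_pair {f : A → B} {g : A → C} (hf : RC f (fun _ => 0)) (hg : RC g (fun _ => 0)) :
    RC (fun a => (f a, g a)) (fun _ => 0) := RC.pair hf hg

theorem c_cons {f : A → B} {g : A → List B} (hf : RC f (fun _ => 0)) (hg : RC g (fun _ => 0)) :
    RC (fun a => f a :: g a) (fun _ => 0) := RC.cons hf hg

theorem c_some {f : A → B} (hf : RC f (fun _ => 0)) :
    RC (fun a => (some (f a) : Option B)) (fun _ => 0) := RC.some hf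

theorem c_nxC {f : A → Mm} (hf : RC f (fun _ => 0)) : RC (fun a => nxC (f a)) (fun _ => 0) :=
  c_elim (s := fun (_ : A) (p : Option ℕ × Bool) => p.1) hf RC.none (RC.fst (RC.snd RC.id))

theorem c_vsC {f : A → Mm} (hf : RC f (fun _ => 0)) : RC (fun a => vsC (f a)) (fun _ => 0) :=
  c_elim (s := fun (_ : A) (p : Option ℕ × Bool) => p.2) hf RC.const_false
    (RC.snd (RC.snd RC.id))

theorem c_idx1 {f : A → Ss} (hf : RC f (fun _ => 0)) : RC (fun a => idx1 (f a)) (fun _ => 0) :=
  c_listElim (s := fun _ a _ => a) (RC.fst (RC.snd hf))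
    (c_listElim (s := fun _ a _ => a) (RC.fst hf) (RC.const_nat 0) (RC.fst (RC.snd RC.id)))
    (RC.fst (RC.snd RC.id))

theorem c_idx2 {f : A → Ss} {g : A → Mm} (hf : RC f (fun _ => 0)) (hg : RC g (fun _ => 0)) :
    RC (fun a => idx2 (f a) (g a)) (fun _ => 0) :=
  c_listElim (s := fun a x _ => (nxC (g a)).elim x (fun b => b)) (RC.fst (RC.snd hf)) (c_idx1 hf)
    (c_elim (o := fun q : A × ℕ × List ℕ => nxC (g q.1)) (n := fun q => q.2.1) (s := fun _ b => b)
      (c_nxC (RC.comp0 (g := g) hg (RC.fst RC.id))) (RC.fst (RC.snd RC.id)) (RC.snd RC.id))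

theorem c_upd {f : A → Ss} {g1 g2 : A → Mm} (hf : RC f (fun _ => 0)) (hg1 : RC g1 (fun _ => 0))
    (hg2 : RC g2 (fun _ => 0)) : RC (fun a => upd (f a) (g1 a) (g2 a)) (fun _ => 0) := by
  -- liftings
  have lf : RC (fun q : A × ℕ × List ℕ => f q.1) (fun _ => 0) := RC.comp0 (g := f) hf (RC.fst RC.id)
  have l1 : RC (fun q : A × ℕ × List ℕ => g1 q.1) (fun _ => 0) :=
    RC.comp0 (g := g1) hg1 (RC.fst RC.id)
  have l2 : RC (fun q : A × ℕ × List ℕ => g2 q.1) (fun _ => 0) :=
    RC.comp0 (g := g2) hg2 (RC.fst RC.id)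
  have la : RC (fun q : A × ℕ × List ℕ => q.2.1) (fun _ => 0) := RC.fst (RC.snd RC.id)
  have lr : RC (fun q : A × ℕ × List ℕ => q.2.2) (fun _ => 0) := RC.snd (RC.snd RC.id)
  have hnil : RC (fun _ : A × ℕ × List ℕ => ([] : List ℕ)) (fun _ => 0) := RC.nil
  have hA : RC (fun q : A × ℕ × List ℕ =>
      if vsC (g1 q.1) || !(nxC (g1 q.1)).isSome then
        (((q.2.2, [], (f q.1).2.2) : Ss), g2 q.1)
      else ((q.2.2, [q.2.1], (f q.1).2.2), (some (nxC (g1 q.1), true) : Mm))) (fun _ => 0) := by
    refine c_cond (p := fun q : A × ℕ × List ℕ => vsC (g1 q.1) || !(nxC (g1 q.1)).isSome)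
      (RC.or (c_vsC l1) (RC.not (RC.isSome (c_nxC l1)))) ?_ ?_
    · exact c_pair (c_pair lr (c_pair hnil (RC.snd (RC.snd lf)))) l2
    · exact c_pair (c_pair lr (c_pair (c_cons la hnil) (RC.snd (RC.snd lf))))
        (c_some (c_pair (c_nxC l1) RC.const_true))
  have hB : RC (fun q : A × ℕ × List ℕ =>
      (nxC (g1 q.1)).elim ((((f q.1).1, [], (q.2.1 :: q.2.2) :: (f q.1).2.2) : Ss), g2 q.1)
      (fun b => if vsC (g2 q.1) then
        ((((f q.1).1, [], (q.2.1 :: q.2.2) :: (f q.1).2.2) : Ss), g2 q.1)
        else (((f q.1).1, b :: q.2.1 :: q.2.2, (f q.1).2.2),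
          (some (nxC (g2 q.1), true) : Mm)))) (fun _ => 0) := by
    have hfin : RC (fun q : A × ℕ × List ℕ =>
        ((((f q.1).1, [], (q.2.1 :: q.2.2) :: (f q.1).2.2) : Ss), g2 q.1)) (fun _ => 0) :=
      c_pair (c_pair (RC.fst lf) (c_pair hnil (c_cons (c_cons la lr) (RC.snd (RC.snd lf))))) l2
    refine c_elim (o := fun q : A × ℕ × List ℕ => nxC (g1 q.1))
      (s := fun q b => if vsC (g2 q.1) then
        ((((f q.1).1, [], (q.2.1 :: q.2.2) :: (f q.1).2.2) : Ss), g2 q.1)
        else (((f q.1).1, b :: q.2.1 :: q.2.2, (f q.1).2.2),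
          (some (nxC (g2 q.1), true) : Mm))) (c_nxC l1) hfin ?_
    have m2 : RC (fun r : (A × ℕ × List ℕ) × ℕ => g2 r.1.1) (fun _ => 0) :=
      RC.comp0 (g := fun q : A × ℕ × List ℕ => g2 q.1) l2 (RC.fst RC.id)
    have mf : RC (fun r : (A × ℕ × List ℕ) × ℕ => f r.1.1) (fun _ => 0) :=
      RC.comp0 (g := fun q : A × ℕ × List ℕ => f q.1) lf (RC.fst RC.id)
    have ma : RC (fun r : (A × ℕ × List ℕ) × ℕ => r.1.2.1) (fun _ => 0) :=
      RC.fst (RC.snd (RC.fst RC.id))
    have mr : RC (fun r : (A × ℕ × List ℕ) × ℕ => r.1.2.2) (fun _ => 0) :=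
      RC.snd (RC.snd (RC.fst RC.id))
    have mb : RC (fun r : (A × ℕ × List ℕ) × ℕ => r.2) (fun _ => 0) := RC.snd RC.id
    refine c_cond (p := fun r : (A × ℕ × List ℕ) × ℕ => vsC (g2 r.1.1)) (c_vsC m2)
      (RC.comp0 (g := fun q : A × ℕ × List ℕ =>
        ((((f q.1).1, [], (q.2.1 :: q.2.2) :: (f q.1).2.2) : Ss), g2 q.1)) hfin (RC.fst RC.id)) ?_
    exact c_pair (c_pair (RC.fst mf) (c_pair (c_cons mb (c_cons ma mr)) (RC.snd (RC.snd mf))))
      (c_some (c_pair (c_nxC m2) RC.const_true))
  exact c_listElim (l := fun a => (f a).2.1) (RC.fst (RC.snd hf))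
    (c_listElim (l := fun a => (f a).1) (RC.fst hf) (c_pair hf hg2) hA) hB

theorem rs_cstep : RS (fun (p : A × Ss) (m : ℕ → Mm) => cstep p.2 m) (fun _ _ => 0) := by
  have h1 : RS (fun (p : A × Ss) (m : ℕ → Mm) => (m (idx1 p.2), m)) (fun _ _ => 0) :=
    RS.read (i := fun p : A × Ss => idx1 p.2) (c_idx1 (RC.snd RC.id))
  have h2 : RS (fun (p : (A × Ss) × Mm) (m : ℕ → Mm) => (m (idx2 p.1.2 p.2), m))
      (fun _ _ => 0) :=
    RS.read (i := fun p : (A × Ss) × Mm => idx2 p.1.2 p.2)
      (c_idx2 (RC.snd (RC.fst RC.id)) (RC.snd RC.id))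
  have h3 : RS (fun (p : ((A × Ss) × Mm) × Mm) (m : ℕ → Mm) => (upd p.1.1.2 p.1.2 p.2, m))
      (fun _ _ => 0) :=
    RS.pure (f := fun p : ((A × Ss) × Mm) × Mm => upd p.1.1.2 p.1.2 p.2)
      (c_upd (RC.snd (RC.fst (RC.fst RC.id))) (RC.snd (RC.fst RC.id)) (RC.snd RC.id))
  have h4 : RS (fun (p : (((A × Ss) × Mm) × Mm) × Ss × Mm) (m : ℕ → Mm) =>
      ((), Function.update m (idx2 p.1.1.1.2 p.1.1.2) p.2.2)) (fun _ _ => 0) :=
    RS.write (i := fun p : (((A × Ss) × Mm) × Mm) × Ss × Mm => idx2 p.1.1.1.2 p.1.1.2)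
      (v := fun p => p.2.2)
      (c_idx2 (RC.snd (RC.fst (RC.fst (RC.fst RC.id)))) (RC.snd (RC.fst (RC.fst RC.id))))
      (RC.snd (RC.snd RC.id))
  have h5 : RS (fun (p : (((A × Ss) × Mm) × Mm) × Ss × Mm) (m : ℕ → Mm) =>
      (p.2.1, Function.update m (idx2 p.1.1.1.2 p.1.1.2) p.2.2)) (fun _ _ => 0) :=
    (RS.map (g := fun (p : (((A × Ss) × Mm) × Mm) × Ss × Mm) (_ : Unit) => p.2.1) h4
      (RC.fst (RC.snd (RC.fst RC.id)))).of_le (fun _ _ => by simp)
  have h6 := RS.bind (g := fun (p : ((A × Ss) × Mm) × Mm) (r : Ss × Mm) (m : ℕ → Mm) =>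
    (r.1, Function.update m (idx2 p.1.1.2 p.1.2) r.2)) h3 h5
  have h7 := RS.bind (g := fun (p : (A × Ss) × Mm) (c2 : Mm) (m : ℕ → Mm) =>
    ((upd p.1.2 p.2 c2).1, Function.update m (idx2 p.1.2 p.2) (upd p.1.2 p.2 c2).2)) h2 h6
  have h8 := RS.bind (g := fun (p : A × Ss) (c1 : Mm) (m : ℕ → Mm) =>
    ((upd p.2 c1 (m (idx2 p.2 c1))).1,
      Function.update m (idx2 p.2 c1) (upd p.2 c1 (m (idx2 p.2 c1))).2)) h1 h7
  exact h8.of_le (fun _ _ => by simp)

end

end RGenDAux

open RGenDAux

theorem cyclesM_flatten_le (nxt : List (Option ℕ)) :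
    ((cyclesM nxt).map List.length).sum ≤ 3 * nxt.length := by
  unfold cyclesM
  rw [map_rev_len]
  have h := (cyc_pot_iter nxt (3 * nxt.length) (List.range nxt.length, [], [], fun _ => false)).1
  simp only [List.length_nil, List.map_nil, List.sum_nil] at h
  omega

theorem cyclesM_length_le (nxt : List (Option ℕ)) :
    (cyclesM nxt).length ≤ 3 * nxt.length := by
  unfold cyclesM
  rw [List.length_reverse, List.length_map]
  have h := (cyc_pot_iter nxt (3 * nxt.length) (List.range nxt.length, [], [], fun _ => false)).2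
  simp only [List.length_nil] at h
  omega

theorem rc_cyclesM : RC (fun l : List (Option ℕ) => cyclesM l) (fun l => l.length) := by
  have hl : RC (fun l : List (Option ℕ) => l.map (fun o => (o, false))) (fun l => l.length) :=
    (RC.map (f := fun (_ : List (Option ℕ)) (o : Option ℕ) => (o, false)) RC.id
      (c_pair (RC.snd RC.id) RC.const_false)).of_le (fun l => by simp)
  have hn : RC (fun l : List (Option ℕ) => 3 * l.length) (fun l => l.length) :=
    (RC.nmulConst 3 (RC.length RC.id)).of_le (fun l => by simp)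
  have hb : RC (fun l : List (Option ℕ) => ((List.range l.length, [], []) : Ss))
      (fun l => l.length) :=
    (RC.pair (RC.range (RC.length RC.id)) (c_pair (RC.nil (B := ℕ)) (RC.nil (B := List ℕ)))).mono 2
      (fun l => by simp; omega)
  have hit := RS.iterate (f := fun (_ : List (Option ℕ)) s (m : ℕ → Mm) => cstep s m) hn hb
    rs_cstep
  have hrun := RC.runWith (f := fun (l : List (Option ℕ)) (m : ℕ → Mm) =>
    (fun s : Ss × (ℕ → Mm) => cstep s.1 s.2)^[3 * l.length]
      ((List.range l.length, [], []), m)) hl hit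
  have hsim : ∀ l : List (Option ℕ),
      ((fun s : Ss × (ℕ → Mm) => cstep s.1 s.2)^[3 * l.length]
      ((List.range l.length, [], []), fun i => (l.map (fun o => (o, false)))[i]?)).1.2.2 =
      ((cycStep l)^[3 * l.length] (List.range l.length, [], [], fun _ => false)).2.2.1 := by
    intro l
    have hR : Rp l (fun i => (l.map (fun o => (o, false)))[i]?) (fun _ => false) := by
      constructor
      · intro i
        show nxC ((l.map (fun o => (o, false)))[i]?) = _
        rw [List.getElem?_map, List.getD_eq_getElem?_getD]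
        cases l[i]? <;> rfl
      · intro i
        show vsC ((l.map (fun o => (o, false)))[i]?) = _
        rw [List.getElem?_map]
        cases l[i]? <;> rfl
    rw [sim_iter (3 * l.length) hR ((List.range l.length, [], []) : Ss)]
  have hfin := RC.reverse (RC.map (f := fun (_ : List (Option ℕ)) (x : List ℕ) => x.reverse)
    (RC.snd (RC.snd hrun)) (RC.reverse (RC.snd RC.id)))
  refine (hfin.mono 30 (fun l => ?_)).congr (fun l => ?_)
  · have h1 := iterCost_le_const (fun s : Ss × (ℕ → Mm) => cstep s.1 s.2) (fun _ => 0) 0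
      (3 * l.length) (((List.range l.length, [], []) : Ss),
        fun i => (l.map (fun o => (o, false)))[i]?) (fun _ => le_rfl)
    have h2 := cyc_pot_iter l (3 * l.length) (List.range l.length, [], [], fun _ => false)
    obtain ⟨h2, h3⟩ := h2
    rw [← hsim l] at h2 h3
    simp only [List.length_nil, List.map_nil, List.sum_nil, List.length_map] at h2 h3 ⊢
    have h4 : ∀ L : List (List ℕ), (L.map (fun x => 0 + x.length + 1)).sum =
        (L.map List.length).sum + L.length := by
      intro L
      induction L with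
      | nil => rfl
      | cons x t ih => simp only [List.map_cons, List.sum_cons, List.length_cons, ih]; omega
    rw [h4]
    omega
  · unfold cyclesM
    rw [← hsim l]

end SFA
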