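import Pool.Agent.Lib.SFA.RTest
import Pool.Agent.Lib.SFA.RGenA
import Pool.Agent.Lib.SFA.RGenD

/-!
# SFA.RWalk: cost of the output walks

Let `n = recs.length`, `D = degB recs` (all lists `nb` and all lists of `leftNb` have length `<= D`).
* `leftNb`: zipIdx, flatMap, `rc_bucketL`: cost `C (n + n D)`.
* `locs`: zipIdx, map, `rc_gather2` twice, zip, map: cost `C n (D + 1)`.  Every `a in locs recs` has
  `a.L.length <= D`, `a.R.length <= D`.
* `sideNext`: `rc_gather2` twice, then for every cell `topNext a Ls`, `botNext a Rs` with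
  `Ls.length, Rs.length <= D` and all members of `Ls` and `Rs` in `locs recs` or equal to `loc0`:
  cost `C (D + 1)^2` (`RC.optionElim`, `RC.find?`, `CT.offB`, `CT.onB`, `CT.osEq`).
  State `rc_topNext` with the cost `1 + Ls.length + sum over Ls of l.R.length`.
* `sideStart`: flatMap, constant time for each.  `sideNext` and `sideStart` have length `2 n`.
* `cyclesM`: `rc_cyclesM`; `gather2 none`, `filterMap`: `cyclesM_flatten_le`, `cyclesM_length_le`.
-/

namespace SFA

open P7m Classical

/-- a bound for the numbers of left and right neighbours -/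
noncomputable def degB (recs : List Rec) : ℕ :=
  ((leftNb recs).map List.length ++ recs.map (fun r => r.nb.length)).foldr max 0

/-! ### sizes -/

private theorem le_foldr_max : ∀ (l : List ℕ) (x : ℕ), x ∈ l → x ≤ l.foldr max 0
  | [], x, h => by simp at h
  | y :: t, x, h => by
    rcases List.mem_cons.1 h with rfl | h
    · exact le_max_left _ _
    · exact (le_foldr_max t x h).trans (le_max_right _ _)

private theorem nb_le {recs : List Rec} {r : Rec} (h : r ∈ recs) : r.nb.length ≤ degB recs :=
  le_foldr_max _ _ (List.mem_append_right _ (List.mem_map.2 ⟨r, h, rfl⟩))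

private theorem left_le {recs : List Rec} {l : List ℕ} (h : l ∈ leftNb recs) :
    l.length ≤ degB recs :=
  le_foldr_max _ _ (List.mem_append_left _ (List.mem_map.2 ⟨l, h, rfl⟩))

private theorem sum_le {X : Type} (l : List X) (g : X → ℕ) (K : ℕ) (h : ∀ x ∈ l, g x ≤ K) :
    (l.map g).sum ≤ l.length * K := by
  induction l with
  | nil => simp
  | cons x t ih =>
    have h1 := h x List.mem_cons_self
    have h2 := ih (fun y hy => h y (List.mem_cons_of_mem _ hy))
    simp only [List.map_cons, List.sum_cons, List.length_cons]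
    nlinarith

private theorem leftNb_length (recs : List Rec) : (leftNb recs).length = recs.length := by
  simp [leftNb, bucketL]

private theorem gather2_length {X : Type} (d : X) (l : List X) (iss : List (List ℕ)) :
    (gather2 d l iss).length = iss.length := by simp [gather2]

private theorem locs_length (recs : List Rec) : (locs recs).length = recs.length := by
  simp [locs, gather2_length, leftNb_length]

private theorem sideNext_length (recs : List Rec) : (sideNext recs).length = 2 * recs.length := by
  have h : ∀ {X : Type} (l : List X) (f g : X → Option ℕ),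
      (l.flatMap (fun a => [f a, g a])).length = 2 * l.length := by
    intro X l f g
    induction l with
    | nil => rfl
    | cons x t ih => simp only [List.flatMap_cons, List.length_append, ih]; simp; omega
  unfold sideNext
  simp only
  rw [h]
  simp [gather2_length, leftNb_length, locs_length]

private theorem sideStart_length (recs : List Rec) :
    (sideStart recs).length = 2 * recs.length := by
  have h : ∀ {X : Type} (l : List X) (f g : X → Option ℂ),
      (l.flatMap (fun a => [f a, g a])).length = 2 * l.length := by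
    intro X l f g
    induction l with
    | nil => rfl
    | cons x t ih => simp only [List.flatMap_cons, List.length_append, ih]; simp; omega
  unfold sideStart
  rw [h]

private theorem sum_len_succ {X : Type} (L : List (List X)) :
    (L.map (fun l => l.length + 1)).sum = (L.map List.length).sum + L.length := by
  induction L with
  | nil => rfl
  | cons x t ih => simp only [List.map_cons, List.sum_cons, ih, List.length_cons]; omega

private theorem cyc_le (recs : List Rec) :
    ((cyclesM (sideNext recs)).map (fun l => l.length + 1)).sum ≤ 12 * recs.length := by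
  have h1 := cyclesM_flatten_le (sideNext recs)
  have h2 := cyclesM_length_le (sideNext recs)
  rw [sideNext_length] at h1 h2
  rw [sum_len_succ]
  omega

private theorem gather2_sum {X : Type} (d : X) (l : List X) (iss : List (List ℕ)) :
    ((gather2 d l iss).map (fun l => l.length + 1)).sum =
      (iss.map (fun l => l.length + 1)).sum := by
  simp [gather2, Function.comp_def]

theorem walks_size_le (recs : List Rec) :
    ((walks recs).map (fun l => l.length + 1)).sum ≤ 12 * recs.length := by
  refine le_trans ?_ (cyc_le recs)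
  rw [← gather2_sum (none : Option ℂ) (sideStart recs) (cyclesM (sideNext recs))]
  unfold walks
  rw [List.map_map]
  refine List.sum_le_sum (fun l _ => ?_)
  simp only [Function.comp_apply]
  have := List.length_filterMap_le (id : Option ℂ → Option ℂ) l
  omega

/-! ### the neighbours of the cells -/

private theorem gather2_mem {X : Type} {d : X} {l : List X} {iss : List (List ℕ)} {m : List X}
    (h : m ∈ gather2 d l iss) : (∃ is ∈ iss, m.length = is.length) ∧ ∀ x ∈ m, x ∈ l ∨ x = d := by
  obtain ⟨is, his, rfl⟩ := List.mem_map.1 h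
  refine ⟨⟨is, his, by simp⟩, fun x hx => ?_⟩
  obtain ⟨i, _, rfl⟩ := List.mem_map.1 hx
  by_cases hi : i < l.length
  · left
    rw [List.getD_eq_getElem _ _ hi]
    exact List.getElem_mem _
  · right
    rw [List.getD_eq_default _ _ (by omega)]

private theorem locs_mem {recs : List Rec} {a : Loc} (h : a ∈ locs recs) :
    a.L.length ≤ degB recs ∧ a.R.length ≤ degB recs := by
  unfold locs at h
  obtain ⟨b, hb, rfl⟩ := List.mem_map.1 h
  have h1 := (List.of_mem_zip hb).2
  have h2 := (List.of_mem_zip h1).1
  have h3 := (List.of_mem_zip h1).2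
  obtain ⟨⟨is, his, e⟩, _⟩ := gather2_mem h2
  obtain ⟨⟨js, hjs, e'⟩, _⟩ := gather2_mem h3
  obtain ⟨r, hr, rfl⟩ := List.mem_map.1 hjs
  exact ⟨e.le.trans (left_le his), e'.le.trans (nb_le hr)⟩

/-! ### costs -/

section

variable {A B C : Type} [Enc A] [Enc B] [Enc C]

private theorem ct0 {f : A → B} {c : A → ℕ} (h : CT f) : RC f c :=
  RC.of_le h (fun _ => Nat.zero_le _)

private theorem elimU {o : A → Option B} {n : A → C} {s : A → B → C} {c : A → ℕ} (ho : RC o c)
    (hn : RC n c) (hs : RC (fun p : A × B => s p.1 p.2) (fun p => c p.1)) :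
    RC (fun a => (o a).elim (n a) (s a)) c :=
  (RC.optionElim ho hn hs).mono 2 (fun a => by
    cases o a
    · simp only [Option.elim_none]; omega
    · simp only [Option.elim_some]; omega)

private theorem condU {p : A → Bool} {f g : A → B} {c : A → ℕ} (hp : RC p c) (hf : RC f c)
    (hg : RC g c) : RC (fun a => if p a then f a else g a) c :=
  (RC.cond hp hf hg).mono 2 (fun a => by split_ifs <;> omega)

end

/-! ### the next side -/

private noncomputable def t2 (l : Loc) (v : ℂ) : Option ℕ :=
  if onB l.c.t v then some (2 * l.i)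
  else (l.R.find? (fun r => osEq r.2.t l.c.t)).map (fun r => 2 * r.1 + 1)

private noncomputable def b2 (r : Loc) (v : ℂ) : Option ℕ :=
  if onB r.c.b v then some (2 * r.i + 1)
  else (r.L.find? (fun l => osEq l.2.b r.c.b)).map (fun l => 2 * l.1)

private theorem rc_t2 : RC (fun p : Loc × ℂ => t2 p.1 p.2) (fun p => p.1.R.length) := by
  unfold t2
  refine condU (ct0 (CT.onB (CT.cellt (RC.locc (CT.fst CT.id))) (CT.snd CT.id)))
    (ct0 (CT.some (RC.nmulConst 2 (RC.loci (CT.fst CT.id))))) ?_
  have h := RC.find? (A := Loc × ℂ) (l := fun p => p.1.R) (p := fun p r => osEq r.2.t p.1.c.t)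
     (RC.locR (RC.fst RC.id)) (CT.osEq (CT.cellt (CT.snd (CT.snd CT.id)))
       (CT.cellt (RC.locc (CT.fst (CT.fst CT.id)))))
  have h2 := RC.optionMap (f := fun (_ : Loc × ℂ) (r : ℕ × Cell) => 2 * r.1 + 1) h
    (RC.succ (RC.nmulConst 2 (CT.fst (CT.snd CT.id))))
  refine h2.of_le (fun p => ?_)
  have e : (Option.elim (List.find? (fun r : ℕ × Cell => osEq r.2.t p.1.c.t) p.1.R) 0
    (fun _ => 0)) = 0 := by cases (List.find? (fun r : ℕ × Cell => osEq r.2.t p.1.c.t) p.1.R) <;> rfl
  simp only [e]
  simp

private theorem rc_b2 : RC (fun p : Loc × ℂ => b2 p.1 p.2) (fun p => p.1.L.length) := by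
  unfold b2
  refine condU (ct0 (CT.onB (CT.cellb (RC.locc (CT.fst CT.id))) (CT.snd CT.id)))
    (ct0 (CT.some (RC.succ (RC.nmulConst 2 (RC.loci (CT.fst CT.id)))))) ?_
  have h := RC.find? (A := Loc × ℂ) (l := fun p => p.1.L) (p := fun p r => osEq r.2.b p.1.c.b)
     (RC.locL (RC.fst RC.id)) (CT.osEq (CT.cellb (CT.snd (CT.snd CT.id)))
       (CT.cellb (RC.locc (CT.fst (CT.fst CT.id)))))
  have h2 := RC.optionMap (f := fun (_ : Loc × ℂ) (r : ℕ × Cell) => 2 * r.1) h
    (RC.nmulConst 2 (CT.fst (CT.snd CT.id)))
  refine h2.of_le (fun p => ?_)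
  have e : (Option.elim (List.find? (fun r : ℕ × Cell => osEq r.2.b p.1.c.b) p.1.L) 0
    (fun _ => 0)) = 0 := by cases (List.find? (fun r : ℕ × Cell => osEq r.2.b p.1.c.b) p.1.L) <;> rfl
  simp only [e]
  simp


private noncomputable def t1 (a : Loc) (Ls : List Loc) (t : Seg) (v : ℂ) : Option ℕ :=
  if offB (some t) v then (Ls.find? (fun l => osEq l.c.t a.c.t)).map (fun l => 2 * l.i)
  else if onB a.c.b v then some (2 * a.i + 1)
  else (Ls.find? (fun l => osEq l.c.b a.c.b)).elim none fun l => t2 l v

private noncomputable def b1 (a : Loc) (Rs : List Loc) (b : Seg) (v : ℂ) : Option ℕ :=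
  if offB (some b) v then (Rs.find? (fun r => osEq r.c.b a.c.b)).map (fun r => 2 * r.i + 1)
  else if onB a.c.t v then some (2 * a.i)
  else (Rs.find? (fun r => osEq r.c.t a.c.t)).elim none fun r => b2 r v

private theorem topNext_eq (a : Loc) (Ls : List Loc) :
    topNext a Ls = a.c.t.elim none fun t => a.c.p.elim none fun v => t1 a Ls t v := rfl

private theorem botNext_eq (a : Loc) (Rs : List Loc) :
    botNext a Rs = a.c.b.elim none fun b => a.c.q.elim none fun v => b1 a Rs b v := rfl

private abbrev CX := ((Loc × List Loc) × Seg) × ℂ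

private theorem len_le_sum {X : Type} (l : List X) (g : X → ℕ) : l.length ≤ (l.map (fun x => g x + 1)).sum := by
  induction l with
  | nil => simp
  | cons x t ih => simp only [List.map_cons, List.sum_cons, List.length_cons]; omega

private theorem mem_le_sum {X : Type} {l : List X} (g : X → ℕ) {x : X} (h : x ∈ l) :
    g x ≤ (l.map (fun x => g x + 1)).sum := by
  induction l with
  | nil => simp at h
  | cons y t ih =>
    simp only [List.map_cons, List.sum_cons]
    rcases List.mem_cons.1 h with rfl | h
    · omega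
    · have := ih h; omega

private theorem rc_t1 : RC (fun p : CX => t1 p.1.1.1 p.1.1.2 p.1.2 p.2)
    (fun p => (p.1.1.2.map (fun l => l.R.length + 1)).sum) := by
  unfold t1
  have ha : CT (fun p : CX => p.1.1.1) := CT.fst (CT.fst (CT.fst CT.id))
  have hL : CT (fun p : CX => p.1.1.2) := CT.snd (CT.fst (CT.fst CT.id))
  have ht : CT (fun p : CX => p.1.2) := CT.snd (CT.fst CT.id)
  have hv : CT (fun p : CX => p.2) := CT.snd CT.id
  refine condU (ct0 (CT.offB (CT.some ht) hv)) ?_
    (condU (ct0 (CT.onB (CT.cellb (RC.locc ha)) hv))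
      (ct0 (CT.some (RC.succ (RC.nmulConst 2 (RC.loci ha))))) ?_)
  · have h := RC.find? (A := CX) (l := fun p => p.1.1.2)
      (p := fun p l => osEq l.c.t p.1.1.1.c.t) hL
      (CT.osEq (CT.cellt (RC.locc (CT.snd CT.id))) (CT.cellt (RC.locc (CT.fst (CT.fst (CT.fst (CT.fst CT.id)))))))
    have h2 := RC.optionMap (f := fun (_ : CX) (l : Loc) => 2 * l.i) h
      (RC.nmulConst 2 (RC.loci (CT.snd CT.id)))
    refine h2.of_le (fun p => ?_)
    have e : (Option.elim (List.find? (fun l : Loc => osEq l.c.t p.1.1.1.c.t) p.1.1.2) 0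
      (fun _ => 0)) = 0 := by
      cases (List.find? (fun l : Loc => osEq l.c.t p.1.1.1.c.t) p.1.1.2) <;> rfl
    simp only [e]
    have := len_le_sum p.1.1.2 (fun l => l.R.length)
    simp
  · have h := RC.find? (A := CX) (l := fun p => p.1.1.2)
      (p := fun p l => osEq l.c.b p.1.1.1.c.b) hL
      (CT.osEq (CT.cellb (RC.locc (CT.snd CT.id))) (CT.cellb (RC.locc (CT.fst (CT.fst (CT.fst (CT.fst CT.id)))))))
    have h2 := RC.optionElim (n := fun _ => none) (s := fun (p : CX) (l : Loc) => t2 l p.2) h
      RC.none (RC.comp (f := fun q : CX × Loc => (q.2, q.1.2)) rc_t2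
        (CT.pair (CT.snd CT.id) (CT.comp hv (CT.fst CT.id))))
    refine h2.mono 2 (fun p => ?_)
    have h3 := len_le_sum p.1.1.2 (fun l => l.R.length)
    cases hf : List.find? (fun l : Loc => osEq l.c.b p.1.1.1.c.b) p.1.1.2 with
    | none => simp at h3 ⊢; omega
    | some l =>
      have h4 := mem_le_sum (fun l : Loc => l.R.length) (List.mem_of_find?_eq_some hf)
      simp at h3 h4 ⊢; omega

private theorem rc_b1 : RC (fun p : CX => b1 p.1.1.1 p.1.1.2 p.1.2 p.2)
    (fun p => (p.1.1.2.map (fun l => l.L.length + 1)).sum) := by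
  unfold b1
  have ha : CT (fun p : CX => p.1.1.1) := CT.fst (CT.fst (CT.fst CT.id))
  have hL : CT (fun p : CX => p.1.1.2) := CT.snd (CT.fst (CT.fst CT.id))
  have ht : CT (fun p : CX => p.1.2) := CT.snd (CT.fst CT.id)
  have hv : CT (fun p : CX => p.2) := CT.snd CT.id
  refine condU (ct0 (CT.offB (CT.some ht) hv)) ?_
    (condU (ct0 (CT.onB (CT.cellt (RC.locc ha)) hv))
      (ct0 (CT.some (RC.nmulConst 2 (RC.loci ha)))) ?_)
  · have h := RC.find? (A := CX) (l := fun p => p.1.1.2)
      (p := fun p l => osEq l.c.b p.1.1.1.c.b) hL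
      (CT.osEq (CT.cellb (RC.locc (CT.snd CT.id))) (CT.cellb (RC.locc (CT.fst (CT.fst (CT.fst (CT.fst CT.id)))))))
    have h2 := RC.optionMap (f := fun (_ : CX) (l : Loc) => 2 * l.i + 1) h
      (RC.succ (RC.nmulConst 2 (RC.loci (CT.snd CT.id))))
    refine h2.of_le (fun p => ?_)
    have e : (Option.elim (List.find? (fun l : Loc => osEq l.c.b p.1.1.1.c.b) p.1.1.2) 0
      (fun _ => 0)) = 0 := by
      cases (List.find? (fun l : Loc => osEq l.c.b p.1.1.1.c.b) p.1.1.2) <;> rfl
    simp only [e]
    have := len_le_sum p.1.1.2 (fun l => l.L.length)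
    simp
  · have h := RC.find? (A := CX) (l := fun p => p.1.1.2)
      (p := fun p l => osEq l.c.t p.1.1.1.c.t) hL
      (CT.osEq (CT.cellt (RC.locc (CT.snd CT.id))) (CT.cellt (RC.locc (CT.fst (CT.fst (CT.fst (CT.fst CT.id)))))))
    have h2 := RC.optionElim (n := fun _ => none) (s := fun (p : CX) (l : Loc) => b2 l p.2) h
      RC.none (RC.comp (f := fun q : CX × Loc => (q.2, q.1.2)) rc_b2
        (CT.pair (CT.snd CT.id) (CT.comp hv (CT.fst CT.id))))
    refine h2.mono 2 (fun p => ?_)
    have h3 := len_le_sum p.1.1.2 (fun l => l.L.length)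
    cases hf : List.find? (fun l : Loc => osEq l.c.t p.1.1.1.c.t) p.1.1.2 with
    | none => simp at h3 ⊢; omega
    | some l =>
      have h4 := mem_le_sum (fun l : Loc => l.L.length) (List.mem_of_find?_eq_some hf)
      simp at h3 h4 ⊢; omega

private theorem rc_topNext : RC (fun p : Loc × List Loc => topNext p.1 p.2)
    (fun p => (p.2.map (fun l => l.R.length + 1)).sum) := by
  simp only [topNext_eq]
  exact elimU (ct0 (CT.cellt (RC.locc (CT.fst CT.id)))) (ct0 CT.none)
    (elimU (s := fun (q : (Loc × List Loc) × Seg) v => t1 q.1.1 q.1.2 q.2 v)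
      (ct0 (CT.cellp (RC.locc (CT.fst (CT.fst CT.id))))) (ct0 CT.none) rc_t1)

private theorem rc_botNext : RC (fun p : Loc × List Loc => botNext p.1 p.2)
    (fun p => (p.2.map (fun l => l.L.length + 1)).sum) := by
  simp only [botNext_eq]
  exact elimU (ct0 (CT.cellb (RC.locc (CT.fst CT.id)))) (ct0 CT.none)
    (elimU (s := fun (q : (Loc × List Loc) × Seg) v => b1 q.1.1 q.1.2 q.2 v)
      (ct0 (CT.cellq (RC.locc (CT.fst (CT.fst CT.id))))) (ct0 CT.none) rc_b1)


/-! ### the walks -/

private noncomputable def W (recs : List Rec) : ℕ := recs.length * (degB recs + 1) ^ 2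

private theorem W_eq (recs : List Rec) : W recs =
    recs.length * (degB recs * degB recs) + 2 * (recs.length * degB recs) + recs.length := by
  unfold W; ring

private theorem rc_len : RC (fun recs : List Rec => recs.length) W :=
  (RC.length RC.id).of_le (fun recs => by rw [W_eq]; omega)

private theorem rc_zi : RC (fun recs : List Rec => recs.zipIdx) W :=
  (RC.zipIdx RC.id (RC.const_nat 0)).of_le (fun recs => by rw [W_eq]; omega)

private theorem mem_zi {X : Type} {l : List X} {x : X × ℕ} (h : x ∈ l.zipIdx) : x.1 ∈ l := by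
  obtain ⟨a, i⟩ := x
  exact List.fst_mem_of_mem_zipIdx h

private theorem rc_leftNb : RC (fun recs : List Rec => leftNb recs) W := by
  have h1 := RC.map (A := List Rec × (Rec × ℕ)) (l := fun p => p.2.1.nb)
    (f := fun p j => (j, p.2.2)) (RC.recnb (RC.fst (RC.snd RC.id)))
    (RC.pair (RC.snd RC.id) (RC.snd (RC.snd (RC.fst RC.id))))
  have h2 := RC.flatMap (f := fun _ (r : Rec × ℕ) => r.1.nb.map (fun j => (j, r.2))) rc_zi h1
  have h3 := RC.comp rc_bucketL (RC.pair rc_len h2)
  refine h3.mono 20 (fun recs => ?_)
  have e1 := sum_le recs.zipIdx (fun x : Rec × ℕ => 0 + (List.map (fun _ => 0 + 0 + 1) x.1.nb).sum +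
    (List.map (fun j => (j, x.2)) x.1.nb).length + 1) (2 * degB recs + 1) (fun x hx => by
      have := nb_le (mem_zi hx)
      simp; omega)
  have e2 : (recs.zipIdx.flatMap (fun r : Rec × ℕ => r.1.nb.map (fun j => (j, r.2)))).length ≤
      recs.length * degB recs := by
    rw [List.length_flatMap]
    have := sum_le recs.zipIdx (fun x : Rec × ℕ => (x.1.nb.map (fun j => (j, x.2))).length)
      (degB recs) (fun x hx => by simpa using nb_le (mem_zi hx))
    simpa using this
  rw [List.length_zipIdx] at e1
  have e3 := W_eq recs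
  simp only at e1 e2 ⊢
  nlinarith

private noncomputable def C0 (recs : List Rec) : List (ℕ × Cell) :=
  recs.zipIdx.map (fun r => (r.2, r.1.c))

private theorem C0_length (recs : List Rec) : (C0 recs).length = recs.length := by simp [C0]

private theorem rc_C0 : RC (fun recs : List Rec => C0 recs) W := by
  have h := RC.map (f := fun (_ : List Rec) (r : Rec × ℕ) => (r.2, r.1.c)) rc_zi
    (RC.pair (RC.snd (RC.snd RC.id)) (RC.recc (RC.fst (RC.snd RC.id))))
  refine h.mono 2 (fun recs => ?_)
  have e3 := W_eq recs
  simp only [List.map_const', List.sum_replicate, List.length_zipIdx, smul_eq_mul]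
  nlinarith

private theorem rc_nbs : RC (fun recs : List Rec => recs.map Rec.nb) W := by
  have h := RC.map (f := fun (_ : List Rec) (r : Rec) => r.nb) (RC.id (A := List Rec))
    (RC.recnb (RC.snd RC.id))
  refine h.mono 2 (fun recs => ?_)
  have e3 := W_eq recs
  simp only [List.map_const', List.sum_replicate, smul_eq_mul]
  nlinarith

private theorem rc_g2 {B : Type} [Enc B] {d : B} {l : List Rec → List B}
    {iss : List Rec → List (List ℕ)} (hd : RC (fun _ : List Rec => d) W) (hl : RC l W)
    (hi : RC iss W) (h1 : ∀ r, (l r).length ≤ 2 * r.length)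
    (h2 : ∀ r, (iss r).length ≤ r.length) (h3 : ∀ r, ∀ x ∈ iss r, x.length ≤ degB r) :
    RC (fun r => gather2 d (l r) (iss r)) W := by
  have h := RC.comp rc_gather2 (RC.pair hd (RC.pair hl hi))
  refine h.mono 10 (fun r => ?_)
  have e1 := sum_le (iss r) (fun l => l.length + 1) (degB r + 1)
    (fun x hx => by have := h3 r x hx; omega)
  have e2 := h1 r
  have e4 : (iss r).length * (degB r + 1) ≤ r.length * (degB r + 1) :=
    Nat.mul_le_mul_right _ (h2 r)
  have e3 := W_eq r
  simp only at e1 ⊢
  nlinarith

private noncomputable abbrev d0 : ℕ × Cell := (0, ⟨none, none, none, none⟩)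

private theorem rc_d0 : RC (fun _ : List Rec => d0) W :=
  (RC.pair (RC.const_nat 0) (RC.cellmk RC.none RC.none RC.none RC.none)).of_le
    (fun _ => Nat.zero_le _)

private theorem nbs_mem {r : List Rec} {x : List ℕ} (h : x ∈ r.map Rec.nb) :
    x.length ≤ degB r := by
  obtain ⟨a, ha, rfl⟩ := List.mem_map.1 h
  exact nb_le ha

private theorem rc_locs : RC (fun recs : List Rec => locs recs) W := by
  have hL := rc_g2 rc_d0 rc_C0 rc_leftNb (fun r => by rw [C0_length]; omega)
    (fun r => (leftNb_length r).le) (fun r x hx => left_le hx)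
  have hR := rc_g2 rc_d0 rc_C0 rc_nbs (fun r => by rw [C0_length]; omega)
    (fun r => by simp) (fun r x hx => nbs_mem hx)
  have h1 := RC.zip rc_C0 (RC.zip hL hR)
  have h2 := RC.map (f := fun (_ : List Rec)
      (a : (ℕ × Cell) × List (ℕ × Cell) × List (ℕ × Cell)) => Loc.mk a.1.1 a.1.2 a.2.1 a.2.2) h1
    (RC.locmk (RC.fst (RC.fst (RC.snd RC.id))) (RC.snd (RC.fst (RC.snd RC.id)))
      (RC.fst (RC.snd (RC.snd RC.id))) (RC.snd (RC.snd (RC.snd RC.id))))
  refine (h2.mono 10 (fun recs => ?_)).congr (fun recs => rfl)
  have e3 := W_eq recs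
  simp only [List.map_const', List.sum_replicate, smul_eq_mul, List.length_zip, C0_length,
    gather2_length, leftNb_length, List.length_map]
  simp
  nlinarith

private theorem rc_loc0 : RC (fun _ : List Rec => loc0) W :=
  (RC.locmk (RC.const_nat 0) (RC.cellmk RC.none RC.none RC.none RC.none) RC.nil RC.nil).of_le
    (fun _ => Nat.zero_le _)

private theorem rc_sideNext : RC (fun recs : List Rec => sideNext recs) W := by
  have hL := rc_g2 rc_loc0 rc_locs rc_leftNb (fun r => by rw [locs_length]; omega)
    (fun r => (leftNb_length r).le) (fun r x hx => left_le hx)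
  have hR := rc_g2 rc_loc0 rc_locs rc_nbs (fun r => by rw [locs_length]; omega)
    (fun r => by simp) (fun r x hx => nbs_mem hx)
  have h1 := RC.zip rc_locs (RC.zip hL hR)
  have h2 := RC.flatMap (f := fun (_ : List Rec)
      (a : Loc × List Loc × List Loc) => [topNext a.1 a.2.1, botNext a.1 a.2.2]) h1
    (RC.cons (RC.comp rc_topNext (RC.pair (RC.fst (RC.snd RC.id)) (RC.fst (RC.snd (RC.snd RC.id)))))
      (RC.cons (RC.comp rc_botNext (RC.pair (RC.fst (RC.snd RC.id))
        (RC.snd (RC.snd (RC.snd RC.id))))) RC.nil))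
  refine (h2.mono 20 (fun recs => ?_)).congr (fun recs => rfl)
  have e3 := W_eq recs
  have e1 := sum_le ((locs recs).zip ((gather2 loc0 (locs recs) (leftNb recs)).zip
      (gather2 loc0 (locs recs) (recs.map Rec.nb))))
    (fun x : Loc × List Loc × List Loc =>
      0 + 0 + (x.2.1.map (fun l => l.R.length + 1)).sum +
        (0 + 0 + (x.2.2.map (fun l => l.L.length + 1)).sum + 0) + 2 + 1)
    (2 * (degB recs * (degB recs + 1)) + 3) (fun x hx => by
      have m1 := (List.of_mem_zip hx).2
      obtain ⟨⟨is, his, l1⟩, k1⟩ := gather2_mem (List.of_mem_zip m1).1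
      obtain ⟨⟨js, hjs, l2⟩, k2⟩ := gather2_mem (List.of_mem_zip m1).2
      have l1' := l1.le.trans (left_le his)
      have l2' := l2.le.trans (nbs_mem hjs)
      have s1 := sum_le x.2.1 (fun l => l.R.length + 1) (degB recs + 1) (fun y hy => by
        rcases k1 y hy with h | rfl
        · have := (locs_mem h).2; omega
        · simp [loc0])
      have s2 := sum_le x.2.2 (fun l => l.L.length + 1) (degB recs + 1) (fun y hy => by
        rcases k2 y hy with h | rfl
        · have := (locs_mem h).1; omega
        · simp [loc0])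
      have s3 : x.2.1.length * (degB recs + 1) ≤ degB recs * (degB recs + 1) :=
        Nat.mul_le_mul_right _ l1'
      have s4 : x.2.2.length * (degB recs + 1) ≤ degB recs * (degB recs + 1) :=
        Nat.mul_le_mul_right _ l2'
      omega)
  have e2 : ((locs recs).zip ((gather2 loc0 (locs recs) (leftNb recs)).zip
      (gather2 loc0 (locs recs) (recs.map Rec.nb)))).length = recs.length := by
    simp [locs_length, gather2_length, leftNb_length]
  rw [e2] at e1
  simp only [List.length_cons, List.length_nil, locs_length, gather2_length, leftNb_length] at e1 ⊢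
  nlinarith

private theorem rc_sideStart : RC (fun recs : List Rec => sideStart recs) W := by
  have q : ∀ {o : List Rec × Rec → Option Seg} {v : List Rec × Rec → Option ℂ}, CT o → CT v →
      CT (fun p => (o p).elim none (fun t => (v p).elim none
        (fun v => if ori t v = 0 then some v else none))) := by
    intro o v ho hv
    exact elimU ho CT.none (elimU (s := fun (q : (List Rec × Rec) × Seg) v =>
        if ori q.2 v = 0 then some v else none) (CT.comp hv (CT.fst CT.id)) CT.none
      (CT.ite (CT.req (CT.ori (CT.snd (CT.fst CT.id)) (CT.snd CT.id)) CT.zero)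
        (CT.some (CT.snd CT.id)) CT.none))
  have h := RC.flatMap (f := fun (_ : List Rec) (r : Rec) =>
    [r.c.t.elim none (fun t => r.c.q.elim none (fun v => if ori t v = 0 then some v else none)),
      r.c.b.elim none (fun b => r.c.p.elim none (fun v => if ori b v = 0 then some v else none))])
    (RC.id (A := List Rec))
    (RC.cons (q (CT.cellt (RC.recc (CT.snd CT.id))) (CT.cellq (RC.recc (CT.snd CT.id))))
      (RC.cons (q (CT.cellb (RC.recc (CT.snd CT.id))) (CT.cellp (RC.recc (CT.snd CT.id))))
        RC.nil))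
  refine (h.mono 3 (fun recs => ?_)).congr (fun recs => rfl)
  have e3 := W_eq recs
  simp only [List.length_cons, List.length_nil, List.map_const', List.sum_replicate, smul_eq_mul]
  nlinarith

theorem rc_walks : RC (fun recs : List Rec => walks recs)
    (fun recs => recs.length * (degB recs + 1) ^ 2) := by
  have h1 := RC.comp rc_cyclesM rc_sideNext
  have h2 := RC.comp rc_gather2 (RC.pair (RC.none (A := List Rec) (B := ℂ))
    (RC.pair rc_sideStart h1))
  have h3 := RC.map (f := fun (_ : List Rec) (l : List (Option ℂ)) => l.filterMap id) h2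
    (RC.filterMap (f := fun _ o => id o) (RC.snd RC.id) (RC.snd RC.id))
  refine (h3.mono 100 (fun recs => ?_)).congr (fun recs => rfl)
  have e3 := W_eq recs
  have e1 := cyc_le recs
  have e2 := gather2_sum (none : Option ℂ) (sideStart recs) (cyclesM (sideNext recs))
  have e4 : recs.length * (degB recs + 1) ^ 2 = W recs := rfl
  rw [e4]
  simp only [sideStart_length, sideNext_length]
  simp at e1 e2 ⊢
  nlinarith

end SFA
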