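import Pool.Agent.Lib.SFA.RRounds
import Pool.Agent.Lib.SFA.RWalk
import Pool.Agent.Lib.SFA.RAssign

/-!
# SFA.RAlg: cost of the algorithm after the preprocessing

Composition of `rc_assign`, `rc_rounds`, `rc_walks`, `rc_encOut` (`walks_size_le`); unfold `algL`.
`L` is the number of random bits for each segment (a parameter of the algorithm).
-/

namespace SFA

open P7m Classical

/-- the records after all rounds -/
noncomputable def finalRecs (L : ℕ) (S : List Seg) (x : ℂ) (w : List Bool) : List Rec :=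
  rounds L x (assign L S w)

/-- the algorithm with `L` random bits for each segment -/
noncomputable def algL (L : ℕ) (S : List Seg) (x : ℂ) (w : List Bool) : List (List ℂ) :=
  walks (finalRecs L S x w)

/-- explicit cost of the algorithm -/
noncomputable def algCost (L : ℕ) (S : List Seg) (x : ℂ) (w : List Bool) : ℕ :=
  S.length * (L + 1) +
  ((List.range (L + 1)).map (fun i =>
    roundCost i x (before i x (assign L S w)) + 1)).sum +
  (finalRecs L S x w).length * (degB (finalRecs L S x w) + 1) ^ 2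

theorem RAlgAux.rc_final : RC (fun a : ℕ × (List Seg × ℂ) × List Bool =>
    finalRecs a.1 a.2.1.1 a.2.1.2 a.2.2)
    (fun a => a.2.1.1.length * (a.1 + 1) + ((List.range (a.1 + 1)).map (fun i =>
      roundCost i a.2.1.2 (before i a.2.1.2 (assign a.1 a.2.1.1 a.2.2)) + 1)).sum) := by
  have h1 : RC (fun a : ℕ × (List Seg × ℂ) × List Bool => assign a.1 a.2.1.1 a.2.2)
      (fun a => a.2.1.1.length * (a.1 + 1)) :=
    (RC.comp (f := fun a : ℕ × (List Seg × ℂ) × List Bool => (a.1, a.2.1.1, a.2.2)) rc_assign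
      (RC.pair (RC.fst RC.id) (RC.pair (RC.fst (RC.fst (RC.snd RC.id)))
        (RC.snd (RC.snd RC.id))))).of_le (fun a => by simp)
  have h2 : RC (fun a : ℕ × (List Seg × ℂ) × List Bool =>
      (a.1, a.2.1.2, assign a.1 a.2.1.1 a.2.2)) (fun a => a.2.1.1.length * (a.1 + 1)) :=
    (RC.pair (RC.fst RC.id) (RC.pair (RC.snd (RC.fst (RC.snd RC.id))) h1)).of_le
      (fun a => by simp)
  exact RC.comp (f := fun a : ℕ × (List Seg × ℂ) × List Bool =>
      (a.1, a.2.1.2, assign a.1 a.2.1.1 a.2.2)) rc_rounds h2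

theorem rc_algL : RC (fun a : ℕ × (List Seg × ℂ) × List Bool =>
    encOut (algL a.1 a.2.1.1 a.2.1.2 a.2.2))
    (fun a => algCost a.1 a.2.1.1 a.2.1.2 a.2.2) := by
  have h1 := RC.comp (g := fun W : List (List ℂ) => encOut W) rc_encOut
    (RC.comp (g := fun recs : List Rec => walks recs) rc_walks RAlgAux.rc_final)
  refine RC.mono h1 13 (fun a => ?_)
  have h2 := walks_size_le (finalRecs a.1 a.2.1.1 a.2.1.2 a.2.2)
  have h3 : (finalRecs a.1 a.2.1.1 a.2.1.2 a.2.2).length ≤
      (finalRecs a.1 a.2.1.1 a.2.1.2 a.2.2).length *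
        (degB (finalRecs a.1 a.2.1.1 a.2.1.2 a.2.2) + 1) ^ 2 :=
    Nat.le_mul_of_pos_right _ (by positivity)
  simp only [algCost] at h2 h3 ⊢
  omega

theorem out_length_le (L : ℕ) (S : List Seg) (x : ℂ) (w : List Bool) :
    (encOut (algL L S x w)).length ≤ 1 + 24 * (finalRecs L S x w).length := by
  have h1 := encOut_length_le (algL L S x w)
  have h2 := walks_size_le (finalRecs L S x w)
  have h3 : ((algL L S x w).map (fun l => 2 * l.length + 1)).sum ≤
      2 * ((algL L S x w).map (fun l => l.length + 1)).sum := by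
    rw [← List.sum_map_mul_left]
    apply List.sum_le_sum
    intro l _
    omega
  unfold algL at h1 h3 ⊢
  omega

end SFA
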