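import Pool.Agent.Lib.SFA.BRound
import Pool.Agent.Lib.SFA.RAlg
import Pool.Agent.Lib.SFA.InvStep

/-!
# SFA.BAlg: the cost of the algorithm in terms of the trapezoids

* `mem_assign`: induction on `T`: `assign` pairs every element of `T` with a level; since `T` has no
  repetition, `find?` with `sgEq` (equality of the four coordinates) finds the pair of `s`.
  `assign_nodup`, `lvOf_le`: levels are `<= L` (truncated subtraction).
* `before_eq`: induction, `List.range_succ`, `List.foldl_append`.
* `inv_before`: `inv_recsAt` for `inp = assign L T w`, `S = T.toFinset`, `lv = lvOf L T w`.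
* `inv_final`: `i = L + 1`; `lev_top`: all levels are `<= L`.
* `algCost_le`: `roundCost_le` for every round; `recs_length_eq`, `degB_le` for the last term
  (`(2 + 1)^2 = 9`).
-/

namespace SFA

open Classical

private theorem lvOf_cons {L : ℕ} {a : Seg} {t : List Seg} {w : List Bool} (s : Seg) :
    lvOf L (a :: t) w s = if a = s then L - ((w.take L).takeWhile (fun b => b)).length
      else lvOf L t (w.drop L) s := by
  unfold lvOf
  rw [assign, List.find?_cons]
  by_cases h : a = s
  · have h1 : sgEq a s = true := (sgEq_iff a s).2 h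
    rw [if_pos h]
    simp only [h1, Option.map_some, Option.getD_some]
  · have h1 : sgEq a s = false := by
      rw [Bool.eq_false_iff]
      exact fun h2 => h ((sgEq_iff a s).1 h2)
    rw [if_neg h]
    simp only [h1]

theorem mem_assign {L : ℕ} {T : List Seg} (hT : T.Nodup) {w : List Bool} (s : Seg) (l : ℕ) :
    (s, l) ∈ assign L T w ↔ s ∈ T ∧ l = lvOf L T w s := by
  induction T generalizing w with
  | nil => simp [assign]
  | cons a t ih =>
    obtain ⟨ha, ht⟩ := List.nodup_cons.1 hT
    rw [assign, List.mem_cons, ih ht, Prod.mk.injEq, lvOf_cons, List.mem_cons]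
    by_cases h : a = s
    · subst h
      rw [if_pos rfl]
      constructor
      · rintro (⟨-, h2⟩ | ⟨h1, -⟩)
        · exact ⟨Or.inl rfl, h2⟩
        · exact absurd h1 ha
      · rintro ⟨-, h2⟩
        exact Or.inl ⟨rfl, h2⟩
    · rw [if_neg h]
      constructor
      · rintro (⟨h1, -⟩ | ⟨h1, h2⟩)
        · exact absurd h1.symm h
        · exact ⟨Or.inr h1, h2⟩
      · rintro ⟨h1 | h1, h2⟩
        · exact absurd h1.symm h
        · exact Or.inr ⟨h1, h2⟩

private theorem fst_mem {L : ℕ} {T : List Seg} {w : List Bool} {s : Seg} {l : ℕ}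
    (h : (s, l) ∈ assign L T w) : s ∈ T := by
  induction T generalizing w with
  | nil => simp [assign] at h
  | cons a t ih =>
    rw [assign, List.mem_cons, Prod.mk.injEq] at h
    rcases h with ⟨h1, -⟩ | h
    · rw [h1]; exact List.mem_cons_self
    · exact List.mem_cons_of_mem _ (ih h)

theorem assign_nodup {L : ℕ} {T : List Seg} (hT : T.Nodup) {w : List Bool} :
    (assign L T w).Nodup := by
  induction T generalizing w with
  | nil => simp [assign]
  | cons a t ih =>
    obtain ⟨ha, ht⟩ := List.nodup_cons.1 hT
    rw [assign, List.nodup_cons]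
    exact ⟨fun h => ha (fst_mem h), ih ht⟩

theorem lvOf_le {L : ℕ} {T : List Seg} (hT : T.Nodup) {w : List Bool} {s : Seg} (hs : s ∈ T) :
    lvOf L T w s ≤ L := by
  have h : (s, lvOf L T w s) ∈ assign L T w := (mem_assign hT s _).2 ⟨hs, rfl⟩
  clear hs hT
  generalize lvOf L T w s = l at h
  induction T generalizing w with
  | nil => simp [assign] at h
  | cons a t ih =>
    rw [assign, List.mem_cons, Prod.mk.injEq] at h
    rcases h with ⟨-, h1⟩ | h
    · rw [h1]; exact Nat.sub_le _ _
    · exact ih h

private theorem before_eq (i : ℕ) (x : ℂ) (inp : List (Seg × ℕ)) :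
    before i x inp = recsAt x inp i := by
  induction i with
  | zero => rfl
  | succ n ih =>
    rw [before, List.range_succ, List.foldl_append]
    have h : List.foldl (fun recs j => round j x recs) (initR inp) (List.range n) =
      recsAt x inp n := ih
    rw [h]
    rfl

theorem inv_before {eps : ℝ} {T : List Seg} {x : ℂ} (hT : T.Nodup)
    (hG : Gen eps T.toFinset x) (hL : LexOK eps T.toFinset x) (L : ℕ) (w : List Bool) (i : ℕ) :
    Inv eps T.toFinset (lvOf L T w) x i (before i x (assign L T w)) := by
  rw [before_eq]
  refine inv_recsAt hG hL (assign_nodup hT) (fun s l => ?_) i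
  rw [mem_assign hT, List.mem_toFinset]

theorem inv_final {eps : ℝ} {T : List Seg} {x : ℂ} (hT : T.Nodup)
    (hG : Gen eps T.toFinset x) (hL : LexOK eps T.toFinset x) (L : ℕ) (w : List Bool) :
    Inv eps T.toFinset (lvOf L T w) x (L + 1) (finalRecs L T x w) ∧
      lev T.toFinset (lvOf L T w) (L + 1) = T.toFinset := by
  constructor
  · have h : finalRecs L T x w = before (L + 1) x (assign L T w) := rfl
    rw [h]
    exact inv_before hT hG hL L w (L + 1)
  · unfold lev
    apply Finset.filter_true_of_mem
    intro s hs
    exact Nat.lt_succ_of_le (lvOf_le hT (List.mem_toFinset.1 hs))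

private theorem sum_map_le (l : List ℕ) (f g : ℕ → ℕ) (h : ∀ i, f i ≤ 7000 * g i) :
    (l.map (fun i => f i + 1)).sum ≤ l.length + 7000 * (l.map g).sum := by
  induction l with
  | nil => simp
  | cons a t ih =>
    simp only [List.map_cons, List.sum_cons, List.length_cons]
    have := h a
    omega

theorem finalRecs_length {eps : ℝ} {T : List Seg} {x : ℂ} (hT : T.Nodup)
    (hG : Gen eps T.toFinset x) (hL : LexOK eps T.toFinset x) (L : ℕ) (w : List Bool) :
    (finalRecs L T x w).length = (TF eps T.toFinset x).ncard := by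
  obtain ⟨h1, h2⟩ := inv_final hT hG hL L w
  have h3 := recs_length_eq hG h1
  rw [h2] at h3
  exact h3

theorem algCost_le {eps : ℝ} {T : List Seg} {x : ℂ} (hT : T.Nodup)
    (hG : Gen eps T.toFinset x) (hL : LexOK eps T.toFinset x) (L : ℕ) (w : List Bool) :
    algCost L T x w ≤ T.length * (L + 1) + (L + 1) +
      7000 * ((List.range (L + 1)).map
        (fun i => stepSum 12 eps T.toFinset (lvOf L T w) x i)).sum +
      9 * (TF eps T.toFinset x).ncard := by
  obtain ⟨h1, h2⟩ := inv_final hT hG hL L w
  have h3 := finalRecs_length hT hG hL L w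
  have h4 := sum_map_le (List.range (L + 1))
    (fun i => roundCost i x (before i x (assign L T w)))
    (fun i => stepSum 12 eps T.toFinset (lvOf L T w) x i)
    (fun i => roundCost_le hG hL (inv_before hT hG hL L w i))
  rw [List.length_range] at h4
  have h5 : (degB (finalRecs L T x w) + 1) ^ 2 ≤ 9 := by
    have h6 := degB_le hG h1
    calc (degB (finalRecs L T x w) + 1) ^ 2 ≤ (2 + 1) ^ 2 :=
          Nat.pow_le_pow_left (by omega) 2
      _ = 9 := by norm_num
  have h7 : (finalRecs L T x w).length * (degB (finalRecs L T x w) + 1) ^ 2 ≤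
      9 * (TF eps T.toFinset x).ncard := by
    rw [h3, Nat.mul_comm]
    exact Nat.mul_le_mul_right _ h5
  unfold algCost
  omega

end SFA
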