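import Pool.Agent.Lib.SFA.Alg

/-!
# SFA.PathL: walks in a partial successor function

`walkN_spec`: along the walk `μ` increases strictly, so the elements are different; they are `< nxt.length`, so a walk with `nxt.length` further steps allowed must stop earlier: by induction on `k` show: if `walkN nxt k a` does not end with `nxt = none` then it has `k + 1` elements; a Nodup list of numbers `< n`
has at most `n` elements.
`pathsM_eq`: one path `walkN nxt nxt.length a` of length `m` (ending at `none`) takes `m + 1` steps of `pathStep`: from `(a :: rest, [], done)` to `(rest, [], (path reversed) :: done)`; induction on the path for the inner part.  Total number of steps: total length + number of paths `≤ nxt.length + starts.length`; the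
final state `([], [], done)` is fixed by `pathStep`, so further iterations change nothing.
-/

namespace SFA

theorem walkN_ne {nxt : List (Option ℕ)} {k a : ℕ} : walkN nxt k a ≠ [] := by
  cases k <;> simp [walkN]

theorem walkN_headD {nxt : List (Option ℕ)} {k a : ℕ} : (walkN nxt k a).headD 0 = a := by
  cases k <;> simp [walkN]

namespace PathLAux

theorem walk_gen {α : Type} [Preorder α] (nxt : List (Option ℕ)) (μ : ℕ → α) (D : Set ℕ)
    (hn : ∀ a ∈ D, ∀ b ∈ nxt.getD a none, b ∈ D ∧ μ a < μ b) : ∀ (k a : ℕ), a ∈ D →
    ((walkN nxt k a).Pairwise (fun b c => μ b < μ c)) ∧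
      (∀ b ∈ walkN nxt k a, b ∈ D ∧ (b = a ∨ μ a < μ b)) ∧
      (walkN nxt k a).IsChain (fun b c => nxt.getD b none = some c) ∧
      (nxt.getD ((walkN nxt k a).getLastD 0) none = none ∨ (walkN nxt k a).length = k + 1) := by
  intro k
  induction k with
  | zero =>
    intro a ha
    refine ⟨by simp [walkN], ?_, by simp [walkN], Or.inr (by simp [walkN])⟩
    intro b hb
    simp only [walkN, List.mem_singleton] at hb
    exact ⟨hb ▸ ha, Or.inl hb⟩
  | succ k ih =>
    intro a ha
    rcases h : nxt.getD a none with _ | b
    · have hw : walkN nxt (k + 1) a = [a] := by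
        simp only [walkN, h, Option.elim_none]
      rw [hw]
      refine ⟨by simp, ?_, by simp, Or.inl ?_⟩
      · intro c hc
        simp only [List.mem_singleton] at hc
        exact ⟨hc ▸ ha, Or.inl hc⟩
      · simpa using h
    · have hb := hn a ha b (by rw [h]; rfl)
      obtain ⟨h1, h2, h3, h4⟩ := ih b hb.1
      have hw : walkN nxt (k + 1) a = a :: walkN nxt k b := by
        simp only [walkN, h, Option.elim_some]
      have hlt : ∀ c ∈ walkN nxt k b, μ a < μ c := by
        intro c hc
        rcases (h2 c hc).2 with h5 | h5
        · rw [h5]
          exact hb.2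
        · exact hb.2.trans h5
      rw [hw]
      refine ⟨List.pairwise_cons.2 ⟨hlt, h1⟩, ?_, ?_, ?_⟩
      · intro c hc
        rcases List.mem_cons.1 hc with hc | hc
        · exact ⟨hc ▸ ha, Or.inl hc⟩
        · exact ⟨(h2 c hc).1, Or.inr (hlt c hc)⟩
      · obtain ⟨y, ys, hys⟩ := List.exists_cons_of_ne_nil (walkN_ne (nxt := nxt) (k := k) (a := b))
        have hy : y = b := by
          have := walkN_headD (nxt := nxt) (k := k) (a := b)
          rw [hys] at this
          simpa using this
        rw [hys] at h3 ⊢
        subst hy
        exact List.isChain_cons_cons.2 ⟨h, h3⟩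
      · have hl : (a :: walkN nxt k b).getLastD 0 = (walkN nxt k b).getLastD 0 := by
          obtain ⟨y, ys, hys⟩ := List.exists_cons_of_ne_nil (walkN_ne (nxt := nxt) (k := k) (a := b))
          rw [hys]
          simp [List.getLastD_cons]
        rcases h4 with h4 | h4
        · left
          rw [hl]
          exact h4
        · right
          simp [h4]

/-- the inner part of one path -/
theorem inner (nxt : List (Option ℕ)) (rest : List ℕ) (done : List (List ℕ)) :
    ∀ (k a : ℕ) (cur : List ℕ), nxt.getD ((walkN nxt k a).getLastD 0) none = none →
      (pathStep nxt)^[(walkN nxt k a).length] (rest, a :: cur, done) =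
        (rest, [], ((walkN nxt k a).reverse ++ cur) :: done) := by
  intro k
  induction k with
  | zero =>
    intro a cur h
    have h' : nxt.getD a none = none := by simpa [walkN] using h
    show (pathStep nxt)^[1] (rest, a :: cur, done) = _
    simp only [Function.iterate_one, pathStep, h']
    simp [walkN]
  | succ k ih =>
    intro a cur h
    rcases hb : nxt.getD a none with _ | b
    · have hw : walkN nxt (k + 1) a = [a] := by
        simp only [walkN, hb, Option.elim_none]
      rw [hw]
      show (pathStep nxt)^[1] (rest, a :: cur, done) = _
      simp only [Function.iterate_one, pathStep, hb]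
      simp
    · have hw : walkN nxt (k + 1) a = a :: walkN nxt k b := by
        simp only [walkN, hb, Option.elim_some]
      have hl : (a :: walkN nxt k b).getLastD 0 = (walkN nxt k b).getLastD 0 := by
        obtain ⟨y, ys, hys⟩ := List.exists_cons_of_ne_nil (walkN_ne (nxt := nxt) (k := k) (a := b))
        rw [hys]
        simp [List.getLastD_cons]
      rw [hw, hl] at h
      rw [hw, List.length_cons, Function.iterate_succ_apply]
      have hs : pathStep nxt (rest, a :: cur, done) = (rest, b :: a :: cur, done) := by
        simp only [pathStep, hb]
      rw [hs, ih b (a :: cur) h]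
      simp

theorem outer (nxt : List (Option ℕ)) : ∀ (starts : List ℕ) (done : List (List ℕ)),
    (∀ a ∈ starts, nxt.getD ((walkN nxt nxt.length a).getLastD 0) none = none) →
      (pathStep nxt)^[(starts.map (walkN nxt nxt.length)).flatten.length + starts.length]
        (starts, [], done) =
        ([], [], (starts.map (fun a => (walkN nxt nxt.length a).reverse)).reverse ++ done) := by
  intro starts
  induction starts with
  | nil =>
    intro done h
    simp
  | cons a rest ih =>
    intro done h
    have hlen : ((a :: rest).map (walkN nxt nxt.length)).flatten.length + (a :: rest).length =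
        ((rest.map (walkN nxt nxt.length)).flatten.length + rest.length) +
          ((walkN nxt nxt.length a).length + 1) := by
      simp only [List.map_cons, List.flatten_cons, List.length_append, List.length_cons]
      omega
    rw [hlen, Function.iterate_add_apply, Function.iterate_succ_apply]
    have hs : pathStep nxt (a :: rest, [], done) = (rest, [a], done) := by
      simp only [pathStep]
    rw [hs, inner nxt rest done nxt.length a [] (h a (by simp)),
      ih _ (fun b hb => h b (List.mem_cons_of_mem a hb))]
    simp

theorem fixed (nxt : List (Option ℕ)) (done : List (List ℕ)) (n : ℕ) :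
    (pathStep nxt)^[n] ([], [], done) = ([], [], done) := by
  induction n with
  | zero => rfl
  | succ n ih =>
    rw [Function.iterate_succ_apply]
    exact ih

end PathLAux

open PathLAux in
theorem walkN_spec {α : Type} [Preorder α] (nxt : List (Option ℕ)) (μ : ℕ → α) (D : Set ℕ)
    (hD : ∀ a ∈ D, a < nxt.length)
    (hn : ∀ a ∈ D, ∀ b ∈ nxt.getD a none, b ∈ D ∧ μ a < μ b) {a : ℕ} (ha : a ∈ D) :
    (walkN nxt nxt.length a).Nodup ∧ (∀ b ∈ walkN nxt nxt.length a, b ∈ D) ∧
      (walkN nxt nxt.length a).IsChain (fun b c => nxt.getD b none = some c) ∧
      nxt.getD ((walkN nxt nxt.length a).getLastD 0) none = none := by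
  obtain ⟨h1, h2, h3, h4⟩ := walk_gen nxt μ D hn nxt.length a ha
  have hnd : (walkN nxt nxt.length a).Nodup := by
    refine h1.imp ?_
    intro b c hbc h
    rw [h] at hbc
    exact lt_irrefl _ hbc
  refine ⟨hnd, fun b hb => (h2 b hb).1, h3, ?_⟩
  rcases h4 with h4 | h4
  · exact h4
  · exfalso
    have h5 : (walkN nxt nxt.length a).toFinset ⊆ Finset.range nxt.length := by
      intro b hb
      exact Finset.mem_range.2 (hD b (h2 b (List.mem_toFinset.1 hb)).1)
    have h6 := Finset.card_le_card h5
    rw [List.toFinset_card_of_nodup hnd, Finset.card_range, h4] at h6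
    omega

open PathLAux in
theorem pathsM_eq (nxt : List (Option ℕ)) (starts : List ℕ)
    (h : (starts.map (walkN nxt nxt.length)).flatten.length ≤ nxt.length)
    (h' : ∀ a ∈ starts, nxt.getD ((walkN nxt nxt.length a).getLastD 0) none = none) :
    pathsM nxt starts = paths nxt starts := by
  unfold pathsM paths
  have hlen : nxt.length + starts.length =
      (nxt.length - (starts.map (walkN nxt nxt.length)).flatten.length) +
        ((starts.map (walkN nxt nxt.length)).flatten.length + starts.length) := by
    omega
  rw [hlen, Function.iterate_add_apply, outer nxt starts [] h', fixed]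
  simp [List.map_reverse, Function.comp_def]

end SFA
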