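import Pool.Agent.Lib.SFA.PS4
import Pool.Agent.Lib.SFA.RoundT
import Pool.Agent.Lib.SFA.PathL
import Pool.Agent.Lib.SFA.RoundDefs

/-!
# SFA.BChain: every piece is in at most one chain

`rdP i recs = roundP i recs`, `rdRa i recs = roundRa i recs`, `rdCh i x recs = chL x (roundP i recs) (roundRa i recs)`,
`rdStarts` = `startL` hold by `rfl`.  `psys_of_inv` gives `co`, `cn` and `PSys`; `PSys.chL_eq`:
`chL = startL.map chn`.
* `rdCh_nodup`: each chain is Nodup with all elements `b < P.length`, `cn b = cn a` (`chain_spec`);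
  different starts `a <> b` have `cn a <> cn b` (`first_unique`, `mem_startL`), so the chains are
  disjoint; `nodup_startL`.  (`List.nodup_flatten`.)
* `sum_nodup_le`: for a Nodup list of numbers `< n`; it is a sub-multiset of `range n`
  (`List.Nodup.subperm`, `List.Subperm` and sums of natural numbers, or `Finset.sum_le_sum_of_subset`).
* `fourth_le`: the last elements of the chains (not empty, `walkN_ne`) are elements of different
  chains, so they are different and `< P.length = rdRa.length`; apply `sum_nodup_le` with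
  `f j = (rdRa.getD j []).length`.
* `fifth_le`: `gather2 pc0 P ch` maps every `j` of a chain to `P[j]`; the sum is the sum over
  `ch.flatten` of `f j = (P.getD j pc0).2.length + 1`; `sum_nodup_le`, and
  `(range P.length).map (P.getD · pc0) = P`.
-/

namespace SFA

open Classical

namespace BChainAux

theorem map_range_getD {α β : Type} (g : α → β) (l : List α) (d : α) :
    (List.range l.length).map (fun j => g (l.getD j d)) = l.map g := by
  apply List.ext_getElem
  · simp
  · intro j h1 h2
    rw [List.length_map] at h2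
    rw [List.getElem_map, List.getElem_map, List.getElem_range, List.getD_eq_getElem _ _ h2]

theorem getLastD_mem' {l : List ℕ} (h : l ≠ []) : l.getLastD 0 ∈ l := by
  cases l with
  | nil => exact absurd rfl h
  | cons a l =>
    rw [List.getLastD_eq_getLast?, List.getLast?_eq_some_getLast (List.cons_ne_nil a l)]
    exact List.getLast_mem _

theorem lasts_nodup {L : List (List ℕ)} (h : L.flatten.Nodup) (hne : ∀ l ∈ L, l ≠ []) :
    (L.map (fun l => l.getLastD 0)).Nodup := by
  rw [List.nodup_flatten] at h
  rw [List.Nodup, List.pairwise_map]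
  refine List.Pairwise.imp_of_mem ?_ h.2
  intro a b ha hb hab he
  exact hab (getLastD_mem' (hne a ha)) (he ▸ getLastD_mem' (hne b hb))

theorem gather2_sum' {α : Type} (g : α → ℕ) (d : α) (P : List α) : ∀ L : List (List ℕ),
    ((gather2 d P L).map (fun l => (l.map g).sum)).sum =
      (L.flatten.map (fun j => g (P.getD j d))).sum
  | [] => by simp [gather2]
  | a :: L => by
    have ih := gather2_sum' g d P L
    have e1 : gather2 d P (a :: L) = a.map (fun i => P.getD i d) :: gather2 d P L := rfl
    rw [e1, List.map_cons, List.sum_cons, ih, List.flatten_cons, List.map_append, List.sum_append,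
      List.map_map]
    rfl

end BChainAux

open BChainAux

theorem sum_nodup_le {f : ℕ → ℕ} {l : List ℕ} {n : ℕ} (hnd : l.Nodup) (hlt : ∀ a ∈ l, a < n) :
    (l.map f).sum ≤ ((List.range n).map f).sum := by
  rw [← List.sum_toFinset f hnd, ← List.sum_toFinset f List.nodup_range, List.toFinset_range]
  refine Finset.sum_le_sum_of_subset ?_
  intro a ha
  rw [List.mem_toFinset] at ha
  exact Finset.mem_range.2 (hlt a ha)

theorem rdCh_nodup {eps : ℝ} {S : Finset Seg} {lv : Seg → ℕ} {x : ℂ} {i : ℕ} {recs : List Rec} (hG : Gen eps S x)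
    (hL : LexOK eps S x) (h : Inv eps S lv x i recs) :
    (rdCh i x recs).flatten.Nodup ∧ (∀ j ∈ (rdCh i x recs).flatten, j < (rdP i recs).length) ∧
      ∀ l ∈ rdCh i x recs, l ≠ [] := by
  obtain ⟨co, cn, hp⟩ := psys_of_inv hG hL h
  have e : rdCh i x recs = (startL x (roundP i recs) (roundRa i recs)).map
      (chn (roundP i recs) (roundRa i recs)) := (hp.chL_eq hG hL).1
  have eP : rdP i recs = roundP i recs := rfl
  rw [e, eP]
  have hst := fun a => hp.mem_startL hG hL a
  refine ⟨?_, ?_, ?_⟩
  · rw [List.nodup_flatten]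
    constructor
    · intro l hl
      obtain ⟨a, ha, rfl⟩ := List.mem_map.1 hl
      exact (hp.chain_spec hG ((hst a).1 ha).1).1
    · rw [List.pairwise_map]
      refine List.Pairwise.imp_of_mem ?_ (nodup_startL x (roundP i recs) (roundRa i recs))
      intro a b ha hb hab j hja hjb
      obtain ⟨ha1, -, ha3⟩ := (hst a).1 ha
      obtain ⟨hb1, -, hb3⟩ := (hst b).1 hb
      have h1 := ((hp.chain_spec hG ha1).2.1 j hja).2
      have h2 := ((hp.chain_spec hG hb1).2.1 j hjb).2
      exact hab (hp.first_unique hG ha1 hb1 ha3 hb3 (h1.symm.trans h2))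
  · intro j hj
    obtain ⟨l, hl, hjl⟩ := List.mem_flatten.1 hj
    obtain ⟨a, ha, rfl⟩ := List.mem_map.1 hl
    exact ((hp.chain_spec hG ((hst a).1 ha).1).2.1 j hjl).1
  · intro l hl
    obtain ⟨a, ha, rfl⟩ := List.mem_map.1 hl
    exact walkN_ne

theorem fourth_le {eps : ℝ} {S : Finset Seg} {lv : Seg → ℕ} {x : ℂ} {i : ℕ} {recs : List Rec} (hG : Gen eps S x)
    (hL : LexOK eps S x) (h : Inv eps S lv x i recs) :
    ((rdCh i x recs).map (fun l => ((rdRa i recs).getD (l.getLastD 0) []).length)).sum ≤
      ((rdRa i recs).map List.length).sum := by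
  obtain ⟨h1, h2, h3⟩ := rdCh_nodup hG hL h
  obtain ⟨co, cn, hp⟩ := psys_of_inv hG hL h
  have hlen : (rdRa i recs).length = (rdP i recs).length := hp.len
  have e1 : (rdCh i x recs).map (fun l => ((rdRa i recs).getD (l.getLastD 0) []).length) =
      ((rdCh i x recs).map (fun l => l.getLastD 0)).map
        (fun j => ((rdRa i recs).getD j []).length) := by
    rw [List.map_map]; rfl
  rw [e1, ← map_range_getD List.length (rdRa i recs) []]
  refine sum_nodup_le (lasts_nodup h1 h3) ?_
  intro a ha
  obtain ⟨l, hl, rfl⟩ := List.mem_map.1 ha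
  rw [hlen]
  exact h2 _ (List.mem_flatten.2 ⟨l, hl, getLastD_mem' (h3 l hl)⟩)

theorem fifth_le {eps : ℝ} {S : Finset Seg} {lv : Seg → ℕ} {x : ℂ} {i : ℕ} {recs : List Rec} (hG : Gen eps S x)
    (hL : LexOK eps S x) (h : Inv eps S lv x i recs) :
    ((gather2 pc0 (rdP i recs) (rdCh i x recs)).map
      (fun l => (l.map (fun p => p.2.length + 1)).sum)).sum ≤
    ((rdP i recs).map (fun p => p.2.length + 1)).sum := by
  obtain ⟨h1, h2, h3⟩ := rdCh_nodup hG hL h
  rw [gather2_sum' (fun p : Pc => p.2.length + 1) pc0 (rdP i recs) (rdCh i x recs),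
    ← map_range_getD (fun p : Pc => p.2.length + 1) (rdP i recs) pc0]
  exact sum_nodup_le h1 h2

end SFA
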