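import Pool.Agent.Lib.SFA.Basic

/-!
# SFA.Ivt: two segments that change their vertical order share a point

`f c = ht t c - ht s c` is continuous and changes sign; by the intermediate value theorem the two
heights agree at some `c` in `[c1,c2]`.
-/

namespace SFA

open Set Filter Topology

theorem cross_ht {eps : ℝ} {s t : Seg} (hs : X eps s.1 < X eps s.2)
    (ht' : X eps t.1 < X eps t.2) {c1 c2 : ℝ} (h12 : c1 ≤ c2)
    (hs1 : X eps s.1 ≤ c1) (hs2 : c2 ≤ X eps s.2)
    (ht1 : X eps t.1 ≤ c1) (ht2 : c2 ≤ X eps t.2)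
    (h1 : ht eps s c1 ≤ ht eps t c1) (h2 : ht eps t c2 ≤ ht eps s c2) :
    ∃ c, c1 ≤ c ∧ c ≤ c2 ∧ ht eps s c = ht eps t c ∧
      pt eps c (ht eps s c) ∈ carrier s ∧ pt eps c (ht eps s c) ∈ carrier t := by
  have hcont : ContinuousOn (fun c => ht eps t c - ht eps s c) (Icc c1 c2) :=
    ((continuous_ht eps t).sub (continuous_ht eps s)).continuousOn
  have h0 : (0 : ℝ) ∈ Icc ((fun c => ht eps t c - ht eps s c) c2)
      ((fun c => ht eps t c - ht eps s c) c1) := by
    refine ⟨?_, ?_⟩
    · simp only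
      linarith
    · simp only
      linarith
  obtain ⟨c, ⟨hc1, hc2⟩, hc⟩ := intermediate_value_Icc' h12 hcont h0
  have he : ht eps s c = ht eps t c := by
    simp only at hc
    linarith
  refine ⟨c, hc1, hc2, he, ?_, ?_⟩
  · exact pt_mem_carrier hs (hs1.trans hc1) (hc2.trans hs2)
  · rw [he]
    exact pt_mem_carrier ht' (ht1.trans hc1) (hc2.trans ht2)

end SFA
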