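import Pool.Agent.Lib.SFA.RegB
import Pool.Agent.Lib.SFA.Ivt

/-!
# SFA.NoCrit: a valid cell contains no critical point and no point of the segments

* `shape_tb` (the symmetric form of `Shape.bt`): let `t in c.t`, `b in c.b`, `z in carrier t` in the
  open slab.  `b` spans the slab, so `w = pt eps (X eps z) (ht eps b (X eps z))` is on `carrier b`
  and in the open slab, so `ori t w < 0`, i.e. `ht b (X z) < ht t (X z) = z.im`, i.e. `0 < ori b z`.
* `no_crit_in_hreg`: let `v` be critical and in `hreg`.
  (i) `v` is an endpoint of `s in R` (so `v in carrier s`).  If `s` is neither bottom nor top, it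
  conflicts with `c`: against `emp`.  If `s` is bottom (or top), `s` spans the slab:
  `X s.1 <= X p < X v < X q <= X s.2`, so `v` is not an endpoint of `s` (`congrArg (X eps)`).
  (ii) `v` is on two distinct `s, t in R`.  If one of them is neither bottom nor top: conflict.
  Otherwise one is the bottom `b` and the other the top `t` (they are distinct), and `bt` gives
  `ori t v < 0`, but `v in carrier t` gives `ori t v = 0` (`mem_carrier_iff`).
* `reg_disj_U`: let `z in reg`, `z in carrier s`, `s in R`.  `s` is not the bottom (`0 < ori b z` but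
  `ori s z = 0`), not the top; so it conflicts with `c` (`reg_subset_hreg`).
* `reg_nonempty`: if `b, t` and `p, q` are given choose an abscissa `m` strictly between the walls
  (`Shape.lt`) and a height strictly between `ht b m` and `ht t m` (`bt`); if bottom or top is
  missing go far down or up; if `p` or `q` is missing there is no bottom and no top (spans).
-/

namespace SFA

open Set Filter Topology

theorem shape_tb {eps : ℝ} {c : Cell} (hc : Shape eps c)
    (hinc : ∀ b ∈ c.b, X eps b.1 < X eps b.2) (hinc' : ∀ t ∈ c.t, X eps t.1 < X eps t.2) :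
    ∀ t ∈ c.t, ∀ b ∈ c.b, ∀ z ∈ carrier t, inSlab eps c z → 0 < ori b z := by
  intro t ht' b hb z hz hsl
  obtain ⟨⟨p, hp, h1⟩, ⟨q, hq, h2⟩⟩ := hc.bs b hb
  have h3 := hsl.1 p hp
  have h4 := hsl.2 q hq
  have hw : pt eps (X eps z) (ht eps b (X eps z)) ∈ carrier b :=
    pt_mem_carrier (hinc b hb) (h1.trans h3.le) (h4.le.trans h2)
  have hws : inSlab eps c (pt eps (X eps z) (ht eps b (X eps z))) := by
    unfold inSlab
    rw [X_pt]
    exact hsl
  have h5 := hc.bt b hb t ht' _ hw hws
  rw [ori_neg_iff (hinc' t ht'), X_pt, pt_im] at h5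
  rw [ori_pos_iff (hinc b hb)]
  have h6 := ((mem_carrier_iff' (hinc' t ht') z).1 hz).2.2
  rw [h6]
  exact h5

namespace NoCritAux

theorem mem_bt {eps : ℝ} {R : Finset Seg} {c : Cell} (hc : Valid eps R c) {s : Seg} (hs : s ∈ R)
    {v : ℂ} (hv : v ∈ carrier s) (hh : v ∈ hreg eps c) : s ∈ c.b ∨ s ∈ c.t := by
  by_contra hcon
  push Not at hcon
  exact hc.emp s hs ⟨hcon.1, hcon.2, v, hv, hh⟩

theorem spans_lt {eps : ℝ} {c : Cell} {s : Seg} (h : spans eps c s) {v : ℂ}
    (hv : inSlab eps c v) : X eps s.1 < X eps v ∧ X eps v < X eps s.2 := by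
  obtain ⟨⟨p, hp, h1⟩, ⟨q, hq, h2⟩⟩ := h
  exact ⟨h1.trans_lt (hv.1 p hp), (hv.2 q hq).trans_le h2⟩

end NoCritAux

open NoCritAux

theorem no_crit_in_hreg {eps : ℝ} {R : Finset Seg} {x : ℂ} (hG : Gen eps R x) {c : Cell}
    (hc : Valid eps R c) {v : ℂ} (hv : IsCrit R v) : v ∉ hreg eps c := by
  intro hh
  rcases hv with ⟨s, hs, h1⟩ | ⟨s, hs, t, ht', hst, h1, h2⟩
  · have hvs : v ∈ carrier s := by
      rcases h1 with rfl | rfl
      · exact left_mem_carrier s
      · exact right_mem_carrier s
    have hsp : spans eps c s := by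
      rcases mem_bt hc hs hvs hh with h | h
      · exact hc.shape.bs s h
      · exact hc.shape.ts s h
    obtain ⟨h3, h4⟩ := spans_lt hsp hh.1
    rcases h1 with rfl | rfl
    · exact lt_irrefl _ h3
    · exact lt_irrefl _ h4
  · rcases mem_bt hc hs h1 hh with h | h <;> rcases mem_bt hc ht' h2 hh with h' | h'
    · exact hst (Option.mem_unique h h')
    · have h3 := hc.shape.bt s h t h' v h1 hh.1
      have h4 := ((mem_carrier_iff (hG.inc t ht') v).1 h2).2.2
      linarith
    · have h3 := hc.shape.bt t h' s h v h2 hh.1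
      have h4 := ((mem_carrier_iff (hG.inc s hs) v).1 h1).2.2
      linarith
    · exact hst (Option.mem_unique h h')

theorem reg_disj_U {eps : ℝ} {R : Finset Seg} {x : ℂ} (hG : Gen eps R x) {c : Cell}
    (hc : Valid eps R c) {z : ℂ} (hz : z ∈ reg eps c) : z ∉ U R := by
  intro hU
  obtain ⟨s, hs, hzs⟩ := mem_U.1 hU
  have h0 := ((mem_carrier_iff (hG.inc s hs) z).1 hzs).2.2
  rcases mem_bt hc hs hzs (reg_subset_hreg eps c hz) with h | h
  · have h1 := hz.2.1 s h
    linarith
  · have h1 := hz.2.2 s h
    linarith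

theorem reg_nonempty {eps : ℝ} {R : Finset Seg} {x : ℂ} (hG : Gen eps R x) {c : Cell}
    (hc : Valid eps R c) : (reg eps c).Nonempty := by
  have hm : ∃ m : ℝ, (∀ p ∈ c.p, X eps p < m) ∧ (∀ q ∈ c.q, m < X eps q) := by
    rcases hp : c.p with _ | p <;> rcases hq : c.q with _ | q
    · exact ⟨0, fun p h => by simp at h, fun q h => by simp at h⟩
    · refine ⟨X eps q - 1, fun p h => by simp at h, fun q' h => ?_⟩
      obtain rfl : q = q' := Option.some.inj h
      linarith
    · refine ⟨X eps p + 1, fun p' h => ?_, fun q' h => by simp at h⟩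
      obtain rfl : p = p' := Option.some.inj h
      linarith
    · have hlt := hc.shape.lt p hp q hq
      refine ⟨(X eps p + X eps q) / 2, fun p' h => ?_, fun q' h => ?_⟩
      · obtain rfl : p = p' := Option.some.inj h
        linarith
      · obtain rfl : q = q' := Option.some.inj h
        linarith
  obtain ⟨m, hm1, hm2⟩ := hm
  have hy : ∃ y : ℝ, (∀ b ∈ c.b, ht eps b m < y) ∧ (∀ t ∈ c.t, y < ht eps t m) := by
    rcases hb : c.b with _ | b <;> rcases ht' : c.t with _ | t
    · exact ⟨0, fun p h => by simp at h, fun q h => by simp at h⟩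
    · refine ⟨ht eps t m - 1, fun p h => by simp at h, fun q' h => ?_⟩
      obtain rfl : t = q' := Option.some.inj h
      linarith
    · refine ⟨ht eps b m + 1, fun p' h => ?_, fun q' h => by simp at h⟩
      obtain rfl : b = p' := Option.some.inj h
      linarith
    · have hbi := hG.inc b (hc.defd.bR b hb)
      have hti := hG.inc t (hc.defd.tR t ht')
      obtain ⟨⟨p, hp, h1⟩, ⟨q, hq, h2⟩⟩ := hc.shape.bs b hb
      have hw : pt eps m (ht eps b m) ∈ carrier b :=
        pt_mem_carrier hbi (h1.trans (hm1 p hp).le) ((hm2 q hq).le.trans h2)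
      have hws : inSlab eps c (pt eps m (ht eps b m)) := by
        unfold inSlab
        rw [X_pt]
        exact ⟨hm1, hm2⟩
      have h5 := hc.shape.bt b hb t ht' _ hw hws
      rw [ori_neg_iff hti, X_pt, pt_im] at h5
      refine ⟨(ht eps b m + ht eps t m) / 2, fun p' h => ?_, fun q' h => ?_⟩
      · obtain rfl : b = p' := Option.some.inj h
        linarith
      · obtain rfl : t = q' := Option.some.inj h
        linarith
  obtain ⟨y, hy1, hy2⟩ := hy
  refine ⟨pt eps m y, ?_, ?_, ?_⟩
  · unfold inSlab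
    rw [X_pt]
    exact ⟨hm1, hm2⟩
  · intro b hb
    rw [ori_pos_iff (hG.inc b (hc.defd.bR b hb)), X_pt, pt_im]
    exact hy1 b hb
  · intro t ht'
    rw [ori_neg_iff (hG.inc t (hc.defd.tR t ht')), X_pt, pt_im]
    exact hy2 t ht'

end SFA
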