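import Pool.Agent.Lib.SFA.SideC
import Pool.Agent.Lib.SFA.NoCrit

/-!
# SFA.Chg2: charging a cell whose left critical point is on its top

`c` valid, `v in c.p`, `t in c.t`, `ori t v = 0`.  `t` is over `X v`, so `v in carrier t`, and
`X v < X q <= X t.2`.  `next_crit` gives the edge `(v,w)` on `t`; `(w,v)` is an edge too
(`IsEdge` is symmetric, `openSegment_symm`).
`chg2`: choose `y` on the open edge with `X y < X q`.  `y` is in the open slab, on `t`, so
`0 < ori b y` (`shape_tb`).  For small `h > 0` the point `y' = y + h I (v - w)` is in `reg c`: slab and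
bottom by continuity, and `ori t y' = h * cross (t.2 - t.1) (I (v - w)) < 0` since `v - w` is a
negative multiple of `t.2 - t.1`.  So `isDart_of_left` for the edge `(w,v)`.
`uniq2`: as `uniq1`: a point of `t` slightly to the right of `v`, moved down a little, is in both
regions.
-/

namespace SFA

open Set Filter Topology

private theorem Chg2Aux.dot_pos {eps : ℝ} {a d : ℂ} (h : cross a d = 0) (ha : 0 < X eps a)
    (hd : 0 < X eps d) : 0 < a.re * d.re + a.im * d.im := by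
  have h1 : a.re * d.im - a.im * d.re = 0 := h
  unfold X at ha hd
  have h2 : (a.re * d.re + a.im * d.im) * (d.re + eps * d.im)
      = (a.re + eps * a.im) * (d.re ^ 2 + d.im ^ 2) := by
    linear_combination (eps * d.re - d.im) * h1
  have h3 : 0 < d.re ^ 2 + d.im ^ 2 := by
    by_contra hn
    have h4 : d.re = 0 := by nlinarith [sq_nonneg d.re, sq_nonneg d.im]
    have h5 : d.im = 0 := by nlinarith [sq_nonneg d.re, sq_nonneg d.im]
    rw [h4, h5] at hd
    simp at hd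
  have h4 : 0 < (a.re * d.re + a.im * d.im) * (d.re + eps * d.im) := by
    rw [h2]; exact mul_pos ha h3
  exact pos_of_mul_pos_left h4 hd.le

private theorem Chg2Aux.ori_shift (t : Seg) (y d : ℂ) (h : ℝ) :
    ori t (y + (h : ℂ) * Complex.I * d) = ori t y
      - h * ((t.2 - t.1).re * (-d).re + (t.2 - t.1).im * (-d).im) := by
  simp [ori, cross]
  ring

private theorem Chg2Aux.ev {eps : ℝ} {R : Finset Seg} {x : ℂ} (hG : Gen eps R x) {c : Cell}
    (hc : Valid eps R c) {v w y : ℂ} (hv : v ∈ c.p) {t : Seg} (ht' : t ∈ c.t)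
    (hvt : v ∈ carrier t) (hwt : w ∈ carrier t) (hvw : X eps v < X eps w)
    (hy : y ∈ carrier t) (hvy : X eps v < X eps y) (hyq : ∀ q ∈ c.q, X eps y < X eps q) :
    ∀ᶠ h : ℝ in 𝓝[>] (0 : ℝ), y + ((h : ℝ) : ℂ) * Complex.I * (v - w) ∈ reg eps c := by
  have hinc := hG.inc t (hc.defd.tR t ht')
  have hslab : inSlab eps c y := by
    refine ⟨fun p hp => ?_, hyq⟩
    rw [Option.mem_unique hp hv]; exact hvy
  have hcont : Continuous fun h : ℝ => y + ((h : ℝ) : ℂ) * Complex.I * (v - w) := by fun_prop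
  have hlim : Tendsto (fun h : ℝ => y + ((h : ℝ) : ℂ) * Complex.I * (v - w)) (𝓝[>] (0 : ℝ))
      (𝓝 y) := by
    have h1 := hcont.tendsto 0
    simp only [Complex.ofReal_zero, zero_mul, add_zero] at h1
    exact h1.mono_left nhdsWithin_le_nhds
  -- open conditions
  have e1 : ∀ᶠ h : ℝ in 𝓝[>] (0 : ℝ),
      X eps v < X eps (y + ((h : ℝ) : ℂ) * Complex.I * (v - w)) :=
    (((continuous_X eps).tendsto y).comp hlim).eventually_const_lt hvy
  obtain ⟨⟨p, hp, -⟩, ⟨q, hq, -⟩⟩ := hc.shape.ts t ht'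
  have e2 : ∀ᶠ h : ℝ in 𝓝[>] (0 : ℝ),
      X eps (y + ((h : ℝ) : ℂ) * Complex.I * (v - w)) < X eps q :=
    (((continuous_X eps).tendsto y).comp hlim).eventually_lt_const (hyq q hq)
  have e3 : ∀ᶠ h : ℝ in 𝓝[>] (0 : ℝ), ∀ b ∈ c.b,
      0 < ori b (y + ((h : ℝ) : ℂ) * Complex.I * (v - w)) := by
    rcases hb : c.b with _ | b
    · exact Filter.Eventually.of_forall fun h b hb => by simp at hb
    · have h1 : 0 < ori b y := shape_tb hc.shape
        (fun b hb => hG.inc b (hc.defd.bR b hb)) (fun b hb => hG.inc b (hc.defd.tR b hb))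
        t ht' b (by rw [hb]; rfl) y hy hslab
      have h2 : ∀ᶠ h : ℝ in 𝓝[>] (0 : ℝ),
          0 < ori b (y + ((h : ℝ) : ℂ) * Complex.I * (v - w)) :=
        (((continuous_ori b).tendsto y).comp hlim).eventually_const_lt h1
      refine h2.mono fun h hh b' hb' => ?_
      have : b' = b := (Option.mem_some_iff.1 hb').symm
      rw [this]; exact hh
  have hcr : cross (t.2 - t.1) (w - v) = 0 := by
    have h1 := ((mem_carrier_iff hinc v).1 hvt).2.2
    have h2 := ((mem_carrier_iff hinc w).1 hwt).2.2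
    have h3 : cross (t.2 - t.1) (w - v) = ori t w - ori t v := by
      simp [ori, cross]; ring
    rw [h3, h1, h2, sub_zero]
  have hdot := Chg2Aux.dot_pos (eps := eps) hcr (by rw [X_sub]; linarith) (by rw [X_sub]; linarith)
  have e4 : ∀ᶠ h : ℝ in 𝓝[>] (0 : ℝ), 0 < h := self_mem_nhdsWithin
  filter_upwards [e1, e2, e3, e4] with h h1 h2 h3 h4
  refine ⟨⟨fun p hp => ?_, fun q' hq' => ?_⟩, h3, fun t' ht'' => ?_⟩
  · rw [Option.mem_unique hp hv]; exact h1
  · rw [Option.mem_unique hq' hq]; exact h2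
  · rw [Option.mem_unique ht'' ht', Chg2Aux.ori_shift, ((mem_carrier_iff hinc y).1 hy).2.2, neg_sub]
    have := mul_pos h4 hdot
    linarith

private theorem Chg2Aux.pick {eps : ℝ} {v w : ℂ} (hvw : X eps v < X eps w) {m : ℝ}
    (hm : X eps v < m) : ∃ y, y ∈ openSegment ℝ w v ∧ X eps v < X eps y ∧ X eps y < m := by
  have h0 : 0 < X eps w - X eps v := by linarith
  set l : ℝ := min (1 / 2) ((m - X eps v) / (2 * (X eps w - X eps v))) with hl
  have hl0 : 0 < l := lt_min (by norm_num) (div_pos (by linarith) (by linarith))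
  have hl1 : l ≤ 1 / 2 := min_le_left _ _
  have hl2 : l ≤ (m - X eps v) / (2 * (X eps w - X eps v)) := min_le_right _ _
  have hl3 : l * (2 * (X eps w - X eps v)) ≤ m - X eps v := by
    rwa [le_div_iff₀ (by linarith)] at hl2
  refine ⟨l • w + (1 - l) • v, ⟨l, 1 - l, hl0, by linarith, by ring, rfl⟩, ?_, ?_⟩
  · rw [X_comb eps (by ring)]
    nlinarith
  · rw [X_comb eps (by ring)]
    nlinarith

theorem chg2 {eps : ℝ} {R : Finset Seg} {x : ℂ} (hG : Gen eps R x) {c : Cell}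
    (hc : InFace eps R x c) {v : ℂ} (hv : v ∈ c.p) {t : Seg} (ht' : t ∈ c.t)
    (htv : ori t v = 0) :
    ∃ w, IsDart R (face R x) w v ∧ X eps v < X eps w ∧ v ∈ carrier t ∧ w ∈ carrier t := by
  have hinc := hG.inc t (hc.1.defd.tR t ht')
  obtain ⟨⟨p, hp, hp1⟩, ⟨q, hq, hq1⟩⟩ := hc.1.shape.ts t ht'
  rw [Option.mem_unique hp hv] at hp1
  have hvq := hc.1.shape.lt v hv q hq
  have hvt : v ∈ carrier t := (mem_carrier_iff hinc v).2 ⟨hp1, by linarith, htv⟩
  obtain ⟨w, hwt, hvw, he, -⟩ := next_crit hG (hc.1.defd.tR t ht') (hc.1.defd.pC v hv) hvt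
    (by linarith)
  have he' : IsEdge R w v := by
    obtain ⟨h1, h2, h3, ⟨s, hs, h4, h5⟩, h6⟩ := he
    refine ⟨h1.symm, h3, h2, ⟨s, hs, h5, h4⟩, ?_⟩
    rw [openSegment_symm]; exact h6
  obtain ⟨y, hy, hvy, hyq⟩ := Chg2Aux.pick hvw hvq
  have hyt : y ∈ carrier t := by
    have : openSegment ℝ w v ⊆ carrier t :=
      (openSegment_subset_segment ℝ w v).trans ((convex_segment t.1 t.2).segment_subset hwt hvt)
    exact this hy
  refine ⟨w, isDart_of_left hG he' hy ?_, hvw, hvt, hwt⟩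
  refine (Filter.Eventually.frequently ?_)
  refine (Chg2Aux.ev hG hc.1 hv ht' hvt hwt hvw hyt hvy (fun q' hq' => ?_)).mono
    fun h hh => hc.2 hh
  rw [Option.mem_unique hq' hq]; exact hyq

theorem uniq2 {eps : ℝ} {R : Finset Seg} {x : ℂ} (hG : Gen eps R x) {c1 c2 : Cell}
    (hc1 : Valid eps R c1) (hc2 : Valid eps R c2) {v w : ℂ} (hv1 : v ∈ c1.p)
    (hv2 : v ∈ c2.p) {t1 t2 : Seg} (ht1 : t1 ∈ c1.t) (ht2 : t2 ∈ c2.t)
    (h1 : v ∈ carrier t1) (h1' : w ∈ carrier t1) (h2 : v ∈ carrier t2)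
    (h2' : w ∈ carrier t2) (hvw : X eps v < X eps w) :
    ∃ z, z ∈ reg eps c1 ∧ z ∈ reg eps c2 := by
  have hne : v ≠ w := fun h => by rw [h] at hvw; exact lt_irrefl _ hvw
  have ht12 : t1 = t2 := edge_seg_unique hG hne (hc1.defd.tR t1 ht1) (hc2.defd.tR t2 ht2)
    h1 h1' h2 h2'
  subst ht12
  obtain ⟨-, ⟨q1, hq1, -⟩⟩ := hc1.shape.ts t1 ht1
  obtain ⟨-, ⟨q2, hq2, -⟩⟩ := hc2.shape.ts t1 ht2
  have hvq1 := hc1.shape.lt v hv1 q1 hq1
  have hvq2 := hc2.shape.lt v hv2 q2 hq2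
  obtain ⟨y, hy, hvy, hyq⟩ := Chg2Aux.pick hvw (lt_min hvq1 hvq2)
  have hyt : y ∈ carrier t1 := by
    have : openSegment ℝ w v ⊆ carrier t1 :=
      (openSegment_subset_segment ℝ w v).trans ((convex_segment t1.1 t1.2).segment_subset h1' h1)
    exact this hy
  have e1 := Chg2Aux.ev hG hc1 hv1 ht1 h1 h1' hvw hyt hvy (fun q' hq' => by
    rw [Option.mem_unique hq' hq1]; exact hyq.trans_le (min_le_left _ _))
  have e2 := Chg2Aux.ev hG hc2 hv2 ht2 h2 h2' hvw hyt hvy (fun q' hq' => by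
    rw [Option.mem_unique hq' hq2]; exact hyq.trans_le (min_le_right _ _))
  obtain ⟨h, hh1, hh2⟩ := (e1.and e2).exists
  exact ⟨_, hh1, hh2⟩

end SFA
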