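import Pool.Agent.Lib.SFA.NoCrit

/-!
# SFA.Uniq: at most one valid cell contains a given point

Let `z` be in both regions.
* Same bottom: suppose `b in c.b` and `b notin c'.b`.  `b` spans the slab of `c`, so the point
  `y = pt eps (X z) (ht b (X z))` is on `carrier b`, `X y = X z`, and `y.im < z.im`.
  If `c'.b = none`: `y` is in `hreg c'` (same abscissa as `z`; below `z`, so `ori t' y <= 0`),
  `b` is not `c'.b`; `b` is not `c'.t` since the top of `c'` is strictly above `z`; so `b`
  conflicts with `c'`, against `emp`.  If `c'.b = some b'`: by symmetry we may assume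
  `ht b' (X z) <= ht b (X z)` (otherwise exchange the roles of `c` and `c'`: then `b'` conflicts
  with `c`), so `y` is in `hreg c'` and again `b` conflicts with `c'`.
  Same argument for the tops.
* Same left wall: suppose `p in c.p`, `p' in c'.p` with `X p < X p'`.  `p'` is critical,
  `X p < X p' < X z < X q` for `q in c.q`, and `p'` is in the band of `c'` = band of `c`: so
  `p' in hreg c`, against `no_crit_in_hreg`.  The same if `c.p = none`.  So both are `none` or
  `X p = X p'` and `Gen.inj` gives `p = p'`.  Same for `q`.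
-/

namespace SFA

open Set Filter Topology

namespace UniqAux

open NoCritAux

theorem bot_mem {eps : ℝ} {R : Finset Seg} {x : ℂ} (hG : Gen eps R x) {c c' : Cell}
    (hc : Valid eps R c) (hc' : Valid eps R c') {z : ℂ} (hz : z ∈ reg eps c)
    (hz' : z ∈ reg eps c') {b : Seg} (hb : b ∈ c.b)
    (hle : ∀ b' ∈ c'.b, ht eps b' (X eps z) ≤ ht eps b (X eps z)) : b ∈ c'.b := by
  have hbR := hc.defd.bR b hb
  have hbi := hG.inc b hbR
  obtain ⟨h1, h2⟩ := spans_lt (hc.shape.bs b hb) hz.1
  have hlt : ht eps b (X eps z) < z.im := (ori_pos_iff hbi z).1 (hz.2.1 b hb)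
  have hw : pt eps (X eps z) (ht eps b (X eps z)) ∈ carrier b := pt_mem_carrier hbi h1.le h2.le
  have hh : pt eps (X eps z) (ht eps b (X eps z)) ∈ hreg eps c' := by
    refine ⟨?_, ?_, ?_⟩
    · unfold inSlab
      rw [X_pt]
      exact hz'.1
    · intro b' hb'
      rw [ori_nonneg_iff (hG.inc b' (hc'.defd.bR b' hb')), X_pt, pt_im]
      exact hle b' hb'
    · intro t' ht'
      have hti := hG.inc t' (hc'.defd.tR t' ht')
      rw [ori_nonpos_iff hti, X_pt, pt_im]
      exact (hlt.trans ((ori_neg_iff hti z).1 (hz'.2.2 t' ht'))).le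
  rcases mem_bt hc' hbR hw hh with h | h
  · exact h
  · have h3 := (ori_neg_iff hbi z).1 (hz'.2.2 b h)
    exact absurd hlt (not_lt.2 h3.le)

theorem top_mem {eps : ℝ} {R : Finset Seg} {x : ℂ} (hG : Gen eps R x) {c c' : Cell}
    (hc : Valid eps R c) (hc' : Valid eps R c') {z : ℂ} (hz : z ∈ reg eps c)
    (hz' : z ∈ reg eps c') {t : Seg} (ht0 : t ∈ c.t)
    (hle : ∀ t' ∈ c'.t, ht eps t (X eps z) ≤ ht eps t' (X eps z)) : t ∈ c'.t := by
  have hbR := hc.defd.tR t ht0
  have hbi := hG.inc t hbR
  obtain ⟨h1, h2⟩ := spans_lt (hc.shape.ts t ht0) hz.1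
  have hlt : z.im < ht eps t (X eps z) := (ori_neg_iff hbi z).1 (hz.2.2 t ht0)
  have hw : pt eps (X eps z) (ht eps t (X eps z)) ∈ carrier t := pt_mem_carrier hbi h1.le h2.le
  have hh : pt eps (X eps z) (ht eps t (X eps z)) ∈ hreg eps c' := by
    refine ⟨?_, ?_, ?_⟩
    · unfold inSlab
      rw [X_pt]
      exact hz'.1
    · intro b' hb'
      have hti := hG.inc b' (hc'.defd.bR b' hb')
      rw [ori_nonneg_iff hti, X_pt, pt_im]
      exact (((ori_pos_iff hti z).1 (hz'.2.1 b' hb')).trans hlt).le
    · intro t' ht'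
      rw [ori_nonpos_iff (hG.inc t' (hc'.defd.tR t' ht')), X_pt, pt_im]
      exact hle t' ht'
  rcases mem_bt hc' hbR hw hh with h | h
  · have h3 := (ori_pos_iff hbi z).1 (hz'.2.1 t h)
    exact absurd hlt (not_lt.2 h3.le)
  · exact h

theorem bot_eq {eps : ℝ} {R : Finset Seg} {x : ℂ} (hG : Gen eps R x) {c c' : Cell}
    (hc : Valid eps R c) (hc' : Valid eps R c') {z : ℂ} (hz : z ∈ reg eps c)
    (hz' : z ∈ reg eps c') : c.b = c'.b := by
  rcases hb : c.b with _ | b <;> rcases hb' : c'.b with _ | b'
  · rfl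
  · have h := bot_mem hG hc' hc hz' hz hb' (fun u hu => by rw [hb] at hu; simp at hu)
    rw [hb] at h
    simp at h
  · have h := bot_mem hG hc hc' hz hz' hb (fun u hu => by rw [hb'] at hu; simp at hu)
    rw [hb'] at h
    simp at h
  · rcases le_total (ht eps b' (X eps z)) (ht eps b (X eps z)) with hle | hle
    · have h := bot_mem hG hc hc' hz hz' hb (fun u hu => by
        rw [hb'] at hu
        obtain rfl : b' = u := Option.some.inj hu
        exact hle)
      rw [hb'] at h
      exact h.symm
    · have h := bot_mem hG hc' hc hz' hz hb' (fun u hu => by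
        rw [hb] at hu
        obtain rfl : b = u := Option.some.inj hu
        exact hle)
      rw [hb] at h
      exact h

theorem top_eq {eps : ℝ} {R : Finset Seg} {x : ℂ} (hG : Gen eps R x) {c c' : Cell}
    (hc : Valid eps R c) (hc' : Valid eps R c') {z : ℂ} (hz : z ∈ reg eps c)
    (hz' : z ∈ reg eps c') : c.t = c'.t := by
  rcases hb : c.t with _ | b <;> rcases hb' : c'.t with _ | b'
  · rfl
  · have h := top_mem hG hc' hc hz' hz hb' (fun u hu => by rw [hb] at hu; simp at hu)
    rw [hb] at h
    simp at h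
  · have h := top_mem hG hc hc' hz hz' hb (fun u hu => by rw [hb'] at hu; simp at hu)
    rw [hb'] at h
    simp at h
  · rcases le_total (ht eps b (X eps z)) (ht eps b' (X eps z)) with hle | hle
    · have h := top_mem hG hc hc' hz hz' hb (fun u hu => by
        rw [hb'] at hu
        obtain rfl : b' = u := Option.some.inj hu
        exact hle)
      rw [hb'] at h
      exact h.symm
    · have h := top_mem hG hc' hc hz' hz hb' (fun u hu => by
        rw [hb] at hu
        obtain rfl : b = u := Option.some.inj hu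
        exact hle)
      rw [hb] at h
      exact h

theorem left_false {eps : ℝ} {R : Finset Seg} {x : ℂ} (hG : Gen eps R x) {c c' : Cell}
    (hc : Valid eps R c) (hc' : Valid eps R c') (hbb : c.b = c'.b) (htt : c.t = c'.t) {z : ℂ}
    (hz : z ∈ reg eps c) (hz' : z ∈ reg eps c') {p' : ℂ} (hp' : p' ∈ c'.p)
    (hlt : ∀ p ∈ c.p, X eps p < X eps p') : False := by
  refine no_crit_in_hreg hG hc (hc'.defd.pC p' hp') ⟨⟨hlt, fun q hq => ?_⟩, ?_⟩
  · exact (hz'.1.1 p' hp').trans (hz.1.2 q hq)
  · have h := hc'.shape.pb p' hp'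
    unfold inBand at h ⊢
    rw [hbb, htt]
    exact h

theorem right_false {eps : ℝ} {R : Finset Seg} {x : ℂ} (hG : Gen eps R x) {c c' : Cell}
    (hc : Valid eps R c) (hc' : Valid eps R c') (hbb : c.b = c'.b) (htt : c.t = c'.t) {z : ℂ}
    (hz : z ∈ reg eps c) (hz' : z ∈ reg eps c') {q' : ℂ} (hq' : q' ∈ c'.q)
    (hlt : ∀ q ∈ c.q, X eps q' < X eps q) : False := by
  refine no_crit_in_hreg hG hc (hc'.defd.qC q' hq') ⟨⟨fun p hp => ?_, hlt⟩, ?_⟩
  · exact (hz.1.1 p hp).trans (hz'.1.2 q' hq')
  · have h := hc'.shape.qb q' hq'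
    unfold inBand at h ⊢
    rw [hbb, htt]
    exact h

theorem left_eq {eps : ℝ} {R : Finset Seg} {x : ℂ} (hG : Gen eps R x) {c c' : Cell}
    (hc : Valid eps R c) (hc' : Valid eps R c') (hbb : c.b = c'.b) (htt : c.t = c'.t) {z : ℂ}
    (hz : z ∈ reg eps c) (hz' : z ∈ reg eps c') : c.p = c'.p := by
  rcases hp : c.p with _ | p <;> rcases hp' : c'.p with _ | p'
  · rfl
  · exact (left_false hG hc hc' hbb htt hz hz' hp'
      (fun u hu => by rw [hp] at hu; simp at hu)).elim
  · exact (left_false hG hc' hc hbb.symm htt.symm hz' hz hp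
      (fun u hu => by rw [hp'] at hu; simp at hu)).elim
  · rcases lt_trichotomy (X eps p) (X eps p') with hlt | heq | hlt
    · exact (left_false hG hc hc' hbb htt hz hz' hp' (fun u hu => by
        rw [hp] at hu
        obtain rfl : p = u := Option.some.inj hu
        exact hlt)).elim
    · rw [hG.inj p p' (hc.defd.pC p hp) (hc'.defd.pC p' hp') heq]
    · exact (left_false hG hc' hc hbb.symm htt.symm hz' hz hp (fun u hu => by
        rw [hp'] at hu
        obtain rfl : p' = u := Option.some.inj hu
        exact hlt)).elim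

theorem right_eq {eps : ℝ} {R : Finset Seg} {x : ℂ} (hG : Gen eps R x) {c c' : Cell}
    (hc : Valid eps R c) (hc' : Valid eps R c') (hbb : c.b = c'.b) (htt : c.t = c'.t) {z : ℂ}
    (hz : z ∈ reg eps c) (hz' : z ∈ reg eps c') : c.q = c'.q := by
  rcases hp : c.q with _ | p <;> rcases hp' : c'.q with _ | p'
  · rfl
  · exact (right_false hG hc hc' hbb htt hz hz' hp'
      (fun u hu => by rw [hp] at hu; simp at hu)).elim
  · exact (right_false hG hc' hc hbb.symm htt.symm hz' hz hp
      (fun u hu => by rw [hp'] at hu; simp at hu)).elim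
  · rcases lt_trichotomy (X eps p) (X eps p') with hlt | heq | hlt
    · exact (right_false hG hc' hc hbb.symm htt.symm hz' hz hp (fun u hu => by
        rw [hp'] at hu
        obtain rfl : p' = u := Option.some.inj hu
        exact hlt)).elim
    · rw [hG.inj p p' (hc.defd.qC p hp) (hc'.defd.qC p' hp') heq]
    · exact (right_false hG hc hc' hbb htt hz hz' hp' (fun u hu => by
        rw [hp] at hu
        obtain rfl : p = u := Option.some.inj hu
        exact hlt)).elim

end UniqAux

open UniqAux

theorem valid_unique {eps : ℝ} {R : Finset Seg} {x : ℂ} (hG : Gen eps R x) {c c' : Cell}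
    (hc : Valid eps R c) (hc' : Valid eps R c') {z : ℂ} (hz : z ∈ reg eps c)
    (hz' : z ∈ reg eps c') : c = c' := by
  have hbb := bot_eq hG hc hc' hz hz'
  have htt := top_eq hG hc hc' hz hz'
  have hpp := left_eq hG hc hc' hbb htt hz hz'
  have hqq := right_eq hG hc hc' hbb htt hz hz'
  cases c
  cases c'
  simp only at hbb htt hpp hqq
  subst hbb htt hpp hqq
  rfl

end SFA
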