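import Pool.Agent.Lib.SFA.ExistV
import Pool.Agent.Lib.SFA.Uniq

/-!
# SFA.HalfR: the right half ball at a point of a wall lies in one valid cell

Mirror image of HalfL (see its header for the details).
`z notin U R`, `v` critical and visible from `z`.  Choose `r > 0` with the ball of radius `r` at `z`
disjoint from `U R` and without points on critical abscissas other than `X z`.
`H = {w in ball z r : X z < X w}` is convex, not empty, every point is in a valid cell
(`exists_valid'`), so `H` is in `reg c` for one valid `c` (connectedness, `valid_unique`).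
`z` is in the closure of `reg c`: `X p <= X z`, `X z < X q`, and for `b in c.b`:
`X b.1 <= X p <= X z < X q <= X b.2`, so `0 < ori b z` since `z notin U R`; similarly `ori t z < 0`.
If `c.p = none` or `X p < X z` then `z in reg c` and `v in hreg c` (by `Vis` bottom and top are not
strictly between `v` and `z`): against `no_crit_in_hreg`.  So `X p = X z = X v` and `p = v`.
-/

namespace SFA

open Set Filter Topology

private theorem HalfRAux.mem_open {eps : ℝ} {z v y : ℂ} (h1 : X eps v = X eps z)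
    (h2 : X eps y = X eps z) (h3 : v.im < y.im) (h4 : y.im < z.im) :
    y ∈ openSegment ℝ z v := by
  have h0 : 0 < z.im - v.im := by linarith
  refine ⟨(y.im - v.im) / (z.im - v.im), (z.im - y.im) / (z.im - v.im), by
    exact div_pos (by linarith) h0, div_pos (by linarith) h0, ?_, ?_⟩
  · rw [← add_div, div_eq_one_iff_eq h0.ne']
    ring
  · have hab : (y.im - v.im) / (z.im - v.im) + (z.im - y.im) / (z.im - v.im) = 1 := by
      rw [← add_div, div_eq_one_iff_eq h0.ne']
      ring
    apply ext_X (eps := eps)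
    · rw [X_comb eps hab, h1, h2, ← add_mul, hab, one_mul]
    · rw [im_comb]
      field_simp
      ring

private theorem HalfRAux.nbhd {eps : ℝ} {R : Finset Seg} {x : ℂ} (hG : Gen eps R x) {z : ℂ}
    (hz : z ∉ U R) : ∃ r > 0, ∀ w ∈ Metric.ball z r, w ∉ U R ∧
      ∀ u, IsCrit R u → X eps u ≠ X eps z → X eps u ≠ X eps w := by
  have h1 : ∀ᶠ w in 𝓝 z, w ∉ U R := (isClosed_U R).isOpen_compl.mem_nhds hz
  have h2 : ∀ᶠ w in 𝓝 z, ∀ u ∈ {v : ℂ | IsCrit R v}, X eps u ≠ X eps z → X eps u ≠ X eps w := by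
    rw [Filter.eventually_all_finite (finite_crit hG)]
    intro u _
    by_cases hu : X eps u = X eps z
    · exact Filter.Eventually.of_forall fun w h => absurd hu h
    · have h3 : ∀ᶠ w in 𝓝 z, X eps w ≠ X eps u :=
        (continuous_X eps).continuousAt.eventually_ne (fun h => hu h.symm)
      exact h3.mono fun w hw _ h => hw h.symm
  obtain ⟨r, hr, h⟩ := Metric.eventually_nhds_iff_ball.1 (h1.and h2)
  exact ⟨r, hr, fun w hw => ⟨(h w hw).1, fun u hu => (h w hw).2 u hu⟩⟩

theorem half_right {eps : ℝ} {R : Finset Seg} {x : ℂ} (hG : Gen eps R x) {z v : ℂ}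
    (hz : z ∉ U R) (hv : IsCrit R v) (hvis : Vis eps R z v) :
    ∃ c, Valid eps R c ∧ v ∈ c.p ∧ (∀ q ∈ c.q, X eps z < X eps q) ∧
      (∀ b ∈ c.b, 0 < ori b z) ∧ (∀ t ∈ c.t, ori t z < 0) ∧
      ∃ r > 0, ∀ w ∈ Metric.ball z r, X eps z < X eps w → w ∈ reg eps c := by
  obtain ⟨r, hr, hball⟩ := HalfRAux.nbhd hG hz
  set H : Set ℂ := {w | w ∈ Metric.ball z r ∧ X eps z < X eps w} with hH
  have hconv : Convex ℝ H := by
    have h1 : Convex ℝ {w : ℂ | X eps z < X eps w} := by
      intro u hu w hw a b ha hb hab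
      simp only [Set.mem_ofPred_eq] at hu hw ⊢
      rw [X_comb eps hab]
      rcases eq_or_lt_of_le ha with ha | ha
      · have hb1 : b = 1 := by linarith
        rw [← ha, hb1]; linarith
      · have h2 : a * X eps z < a * X eps u := mul_lt_mul_of_pos_left hu ha
        have h3 : b * X eps z ≤ b * X eps w := mul_le_mul_of_nonneg_left hw.le hb
        have h4 : a * X eps z + b * X eps z = X eps z := by rw [← add_mul, hab, one_mul]
        linarith
    exact (convex_ball z r).inter h1
  have hpt : ∀ d : ℝ, 0 < d → d < r → z + (d : ℂ) ∈ H := by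
    intro d hd hdr
    refine ⟨?_, ?_⟩
    · rw [Metric.mem_ball, Complex.dist_eq]
      have : z + (d : ℂ) - z = (d : ℂ) := by ring
      rw [this, Complex.norm_real, Real.norm_eq_abs, abs_of_pos hd]
      exact hdr
    · rw [X_add]
      have : X eps (d : ℂ) = d := by simp [X]
      rw [this]; linarith
  have hval : ∀ w ∈ H, ∃ c, Valid eps R c ∧ w ∈ reg eps c := by
    rintro w ⟨hw1, hw2⟩
    refine exists_valid' hG (hball w hw1).1 fun u hu => ?_
    by_cases h : X eps u = X eps z
    · rw [h]; exact hw2.ne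
    · exact (hball w hw1).2 u hu h
  obtain ⟨c, hc, hwc⟩ := hval _ (hpt (r / 2) (by linarith) (by linarith))
  have hsub : H ⊆ reg eps c := by
    have hopen : IsOpen (⋃ c' ∈ {c' : Cell | Valid eps R c' ∧ c' ≠ c}, reg eps c') :=
      isOpen_biUnion fun c' _ => isOpen_reg eps c'
    refine IsPreconnected.subset_left_of_subset_union (isOpen_reg eps c) hopen ?_ ?_
      ⟨_, hpt (r / 2) (by linarith) (by linarith), hwc⟩ hconv.isPreconnected
    · rw [Set.disjoint_left]
      intro w hw hw'
      simp only [Set.mem_iUnion, Set.mem_ofPred_eq] at hw'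
      obtain ⟨c', ⟨hc', hne⟩, hwc'⟩ := hw'
      exact hne (valid_unique hG hc' hc hwc' hw)
    · intro w hw
      obtain ⟨c', hc', hwc'⟩ := hval w hw
      by_cases h : c' = c
      · left; rw [← h]; exact hwc'
      · right
        simp only [Set.mem_iUnion, Set.mem_ofPred_eq]
        exact ⟨c', ⟨hc', h⟩, hwc'⟩
  have hcl : z ∈ closure (reg eps c) := by
    rw [Metric.mem_closure_iff]
    intro e he
    have hm : 0 < min e r / 2 := by
      have : 0 < min e r := lt_min he hr
      linarith
    have hm1 : min e r / 2 < e := by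
      have := min_le_left e r
      have h3 : 0 < min e r := lt_min he hr
      linarith
    have hm2 : min e r / 2 < r := by
      have := min_le_right e r
      have h3 : 0 < min e r := lt_min he hr
      linarith
    refine ⟨_, hsub (hpt _ hm hm2), ?_⟩
    rw [Complex.dist_eq]
    have : z - (z + ((min e r / 2 : ℝ) : ℂ)) = ((-(min e r / 2) : ℝ) : ℂ) := by push_cast; ring
    rw [this, Complex.norm_real, Real.norm_eq_abs, abs_neg, abs_of_pos hm]
    exact hm1
  obtain ⟨hp0, hq0, hb0, ht0⟩ := closure_le hcl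
  have hqz : ∀ q ∈ c.q, X eps z < X eps q := by
    intro q hq
    have h1 := hwc.1.2 q hq
    have h2 := (hpt (r / 2) (by linarith) (by linarith)).2
    linarith
  have hbz : ∀ b ∈ c.b, 0 < ori b z := by
    intro b hb
    refine lt_of_le_of_ne (hb0 b hb) fun h => hz ?_
    obtain ⟨⟨p, hp, hp1⟩, ⟨q, hq, hq1⟩⟩ := hc.shape.bs b hb
    rw [mem_U]
    refine ⟨b, hc.defd.bR b hb, (mem_carrier_iff (hG.inc b (hc.defd.bR b hb)) z).2
      ⟨?_, ?_, h.symm⟩⟩
    · linarith [hp0 p hp]
    · linarith [hqz q hq]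
  have htz : ∀ t ∈ c.t, ori t z < 0 := by
    intro t htt
    refine lt_of_le_of_ne (ht0 t htt) fun h => hz ?_
    obtain ⟨⟨p, hp, hp1⟩, ⟨q, hq, hq1⟩⟩ := hc.shape.ts t htt
    rw [mem_U]
    refine ⟨t, hc.defd.tR t htt, (mem_carrier_iff (hG.inc t (hc.defd.tR t htt)) z).2
      ⟨?_, ?_, h⟩⟩
    · linarith [hp0 p hp]
    · linarith [hqz q hq]
  refine ⟨c, hc, ?_, hqz, hbz, htz, r, hr, fun w hw hw' => hsub ⟨hw, hw'⟩⟩
  by_contra hvp
  have hpz : ∀ p ∈ c.p, X eps p < X eps z := by
    intro p hp
    refine lt_of_le_of_ne (hp0 p hp) fun h => hvp ?_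
    have : v = p := hG.inj v p hv (hc.defd.pC p hp) (by rw [hvis.1, h])
    rw [this]; exact hp
  refine no_crit_in_hreg hG hc hv ⟨⟨?_, ?_⟩, ?_, ?_⟩
  · intro p hp
    rw [hvis.1]; exact hpz p hp
  · intro q hq
    rw [hvis.1]; exact hqz q hq
  · intro b hb
    by_contra hlt
    push Not at hlt
    have hinc := hG.inc b (hc.defd.bR b hb)
    obtain ⟨⟨p, hp, hp1⟩, ⟨q, hq, hq1⟩⟩ := hc.shape.bs b hb
    have h1 := (ori_neg_iff hinc v).1 hlt
    have h2 := (ori_pos_iff hinc z).1 (hbz b hb)
    rw [hvis.1] at h1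
    have hy : pt eps (X eps z) (ht eps b (X eps z)) ∈ carrier b :=
      pt_mem_carrier hinc (by linarith [hpz p hp]) (by linarith [hqz q hq])
    have hy2 : pt eps (X eps z) (ht eps b (X eps z)) ∈ openSegment ℝ z v :=
      HalfRAux.mem_open (eps := eps) hvis.1 (by simp) (by simpa using h1) (by simpa using h2)
    exact Set.disjoint_left.1 hvis.2 hy2 (mem_U.2 ⟨b, hc.defd.bR b hb, hy⟩)
  · intro b hb
    by_contra hlt
    push Not at hlt
    have hinc := hG.inc b (hc.defd.tR b hb)
    obtain ⟨⟨p, hp, hp1⟩, ⟨q, hq, hq1⟩⟩ := hc.shape.ts b hb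
    have h1 := (ori_pos_iff hinc v).1 hlt
    have h2 := (ori_neg_iff hinc z).1 (htz b hb)
    rw [hvis.1] at h1
    have hy : pt eps (X eps z) (ht eps b (X eps z)) ∈ carrier b :=
      pt_mem_carrier hinc (by linarith [hpz p hp]) (by linarith [hqz q hq])
    have hy2 : pt eps (X eps z) (ht eps b (X eps z)) ∈ openSegment ℝ z v := by
      rw [openSegment_symm]
      exact HalfRAux.mem_open (eps := eps) hvis.1.symm (by simp [hvis.1]) (by simpa using h2)
        (by simpa using h1)
    exact Set.disjoint_left.1 hvis.2 hy2 (mem_U.2 ⟨b, hc.defd.tR b hb, hy⟩)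

end SFA
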