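import Pool.Agent.Lib.SFA.NoCrit

/-!
# SFA.WallBot: cells on both sides of a wall, below the critical point, have the same bottom

Mirror image (upside down) of WallTop.
`c` ends at `v`, `c'` starts at `v`, `z` is below `v` on the same vertical line and strictly between
bottom and top of both cells.  Let `zeta = X z = X v`.
For `b in c.b`: `b` is over `zeta`, `0 < ori b z` gives `ht b zeta < z.im < v.im`, so
`0 < ori b v`.  Same for `b' in c'.b`.
Equality of the bottoms: let `b in c.b`, `h = ht b zeta < z.im < v.im`, `y = pt eps zeta h` (on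
`carrier b`).  `y` is not critical (`Gen.inj` with `v`), so `zeta < X b.2`.  Suppose `b` is not the
bottom of `c'`.  If `c'.b = none` or `ht b' zeta < h`: the points of `b` slightly to the right of
`zeta` are in the slab and in the band of `c'` (`ori b' y > 0`, `ori t' y < 0` for `t' in c'.t` since
`ht t' zeta > z.im > h`; continuity), `b` is not `c'.t`; so `b` conflicts with `c'`: contradiction.
If `h < ht b' zeta`: `b'` extends to the left of `zeta` and conflicts with `c`.  Equal heights and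
`b <> b'`: `y` is critical, contradiction.  `c.b = none`, `c'.b = some b'`: `b'` extends to the left
and conflicts with `c`.
-/

namespace SFA

open Set Filter Topology

private theorem wb_opt {α : Type*} {F : Filter ℝ} {o : Option α} {P : α → ℝ → Prop}
    (h : ∀ a ∈ o, ∀ᶠ r in F, P a r) : ∀ᶠ r in F, ∀ a ∈ o, P a r := by
  cases o with
  | none => exact Filter.Eventually.of_forall (fun r a ha => by simp at ha)
  | some a =>
    filter_upwards [h a rfl] with r hr a' ha'
    cases ha'
    exact hr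

private theorem wb_cont (eps : ℝ) (s : Seg) : Continuous (fun r : ℝ => pt eps r (ht eps s r)) :=
  (continuous_pt eps).comp (continuous_id.prodMk (continuous_ht eps s))

private theorem wb_right {eps : ℝ} {R : Finset Seg} {x : ℂ} (hG : Gen eps R x) {c' : Cell}
    (hc' : Valid eps R c') {v : ℂ} (hv' : v ∈ c'.p) {s : Seg} (hs : s ∈ R)
    (h1 : X eps s.1 ≤ X eps v) (h2 : X eps v ≤ X eps s.2) (h3 : ht eps s (X eps v) < v.im)
    (hsb : s ∉ c'.b) (hst : s ∉ c'.t)
    (hb : ∀ b ∈ c'.b, 0 < ori b (pt eps (X eps v) (ht eps s (X eps v))))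
    (ht' : ∀ t ∈ c'.t, ori t (pt eps (X eps v) (ht eps s (X eps v))) < 0) : False := by
  have hinc := hG.inc s hs
  have h4 : X eps v < X eps s.2 := by
    rcases lt_or_eq_of_le h2 with h | h
    · exact h
    · exfalso
      have h5 := hG.inj _ _ (hc'.defd.pC v hv') (IsCrit.right hs) h
      have h7 : v ∈ carrier s := by rw [h5]; exact right_mem_carrier s
      have h6 := (mem_carrier_iff' hinc v).1 h7
      linarith [h6.2.2]
  have hcont := wb_cont eps s
  have hev1 : ∀ᶠ r in 𝓝[>] (X eps v), r < X eps s.2 :=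
    mem_nhdsWithin_of_mem_nhds (Iio_mem_nhds h4)
  have hev2 : ∀ᶠ r in 𝓝[>] (X eps v), X eps v < r := self_mem_nhdsWithin
  have hev3 : ∀ᶠ r in 𝓝[>] (X eps v), ∀ q ∈ c'.q, r < X eps q :=
    wb_opt (fun q hq => mem_nhdsWithin_of_mem_nhds (Iio_mem_nhds (hc'.shape.lt v hv' q hq)))
  have hev4 : ∀ᶠ r in 𝓝[>] (X eps v), ∀ b ∈ c'.b, 0 < ori b (pt eps r (ht eps s r)) :=
    wb_opt (fun b hb' => mem_nhdsWithin_of_mem_nhds
      ((((continuous_ori b).comp hcont).tendsto (X eps v)).eventually (lt_mem_nhds (hb b hb'))))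
  have hev5 : ∀ᶠ r in 𝓝[>] (X eps v), ∀ t ∈ c'.t, ori t (pt eps r (ht eps s r)) < 0 :=
    wb_opt (fun t htt => mem_nhdsWithin_of_mem_nhds
      ((((continuous_ori t).comp hcont).tendsto (X eps v)).eventually (gt_mem_nhds (ht' t htt))))
  obtain ⟨r, hr1, hr2, hr3, hr4, hr5⟩ :=
    (hev1.and (hev2.and (hev3.and (hev4.and hev5)))).exists
  refine hc'.emp s hs ⟨hsb, hst, pt eps r (ht eps s r),
    pt_mem_carrier hinc (by linarith) hr1.le, ⟨?_, ?_⟩, ?_, ?_⟩
  · intro p hp
    rw [X_pt]
    have : p = v := by rw [Option.mem_def] at hp hv'; rw [hp] at hv'; exact Option.some.inj hv'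
    rw [this]; exact hr2
  · intro q hq
    rw [X_pt]; exact hr3 q hq
  · intro b hb'
    exact (hr4 b hb').le
  · intro t htt
    exact (hr5 t htt).le

private theorem wb_left {eps : ℝ} {R : Finset Seg} {x : ℂ} (hG : Gen eps R x) {c : Cell}
    (hc : Valid eps R c) {v : ℂ} (hv : v ∈ c.q) {s : Seg} (hs : s ∈ R)
    (h1 : X eps s.1 ≤ X eps v) (h2 : X eps v ≤ X eps s.2) (h3 : ht eps s (X eps v) < v.im)
    (hsb : s ∉ c.b) (hst : s ∉ c.t)
    (hb : ∀ b ∈ c.b, 0 < ori b (pt eps (X eps v) (ht eps s (X eps v))))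
    (ht' : ∀ t ∈ c.t, ori t (pt eps (X eps v) (ht eps s (X eps v))) < 0) : False := by
  have hinc := hG.inc s hs
  have h4 : X eps s.1 < X eps v := by
    rcases lt_or_eq_of_le h1 with h | h
    · exact h
    · exfalso
      have h5 := hG.inj _ _ (IsCrit.left hs) (hc.defd.qC v hv) h
      have h7 : v ∈ carrier s := by rw [← h5]; exact left_mem_carrier s
      have h6 := (mem_carrier_iff' hinc v).1 h7
      linarith [h6.2.2]
  have hcont := wb_cont eps s
  have hev1 : ∀ᶠ r in 𝓝[<] (X eps v), X eps s.1 < r :=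
    mem_nhdsWithin_of_mem_nhds (Ioi_mem_nhds h4)
  have hev2 : ∀ᶠ r in 𝓝[<] (X eps v), r < X eps v := self_mem_nhdsWithin
  have hev3 : ∀ᶠ r in 𝓝[<] (X eps v), ∀ p ∈ c.p, X eps p < r :=
    wb_opt (fun p hp => mem_nhdsWithin_of_mem_nhds (Ioi_mem_nhds (hc.shape.lt p hp v hv)))
  have hev4 : ∀ᶠ r in 𝓝[<] (X eps v), ∀ b ∈ c.b, 0 < ori b (pt eps r (ht eps s r)) :=
    wb_opt (fun b hb' => mem_nhdsWithin_of_mem_nhds
      ((((continuous_ori b).comp hcont).tendsto (X eps v)).eventually (lt_mem_nhds (hb b hb'))))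
  have hev5 : ∀ᶠ r in 𝓝[<] (X eps v), ∀ t ∈ c.t, ori t (pt eps r (ht eps s r)) < 0 :=
    wb_opt (fun t htt => mem_nhdsWithin_of_mem_nhds
      ((((continuous_ori t).comp hcont).tendsto (X eps v)).eventually (gt_mem_nhds (ht' t htt))))
  obtain ⟨r, hr1, hr2, hr3, hr4, hr5⟩ :=
    (hev1.and (hev2.and (hev3.and (hev4.and hev5)))).exists
  refine hc.emp s hs ⟨hsb, hst, pt eps r (ht eps s r),
    pt_mem_carrier hinc hr1.le (by linarith), ⟨?_, ?_⟩, ?_, ?_⟩
  · intro p hp
    rw [X_pt]; exact hr3 p hp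
  · intro q hq
    rw [X_pt]
    have : q = v := by rw [Option.mem_def] at hq hv; rw [hq] at hv; exact Option.some.inj hv
    rw [this]; exact hr2
  · intro b hb'
    exact (hr4 b hb').le
  · intro t htt
    exact (hr5 t htt).le

theorem wall_bot {eps : ℝ} {R : Finset Seg} {x : ℂ} (hG : Gen eps R x) {c c' : Cell}
    (hc : Valid eps R c) (hc' : Valid eps R c') {v z : ℂ} (hv : v ∈ c.q) (hv' : v ∈ c'.p)
    (hX : X eps z = X eps v) (him : z.im < v.im)
    (hb : ∀ b ∈ c.b, 0 < ori b z) (ht' : ∀ t ∈ c.t, ori t z < 0)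
    (hb' : ∀ b ∈ c'.b, 0 < ori b z) (htt : ∀ t ∈ c'.t, ori t z < 0) :
    c.b = c'.b ∧ ∀ b ∈ c.b, 0 < ori b v := by
  have hinj : ∀ {u : ℂ}, u ∈ c.q → u = v := by
    intro u hu
    rw [Option.mem_def] at hu hv; rw [hu] at hv; exact Option.some.inj hv
  have hinj' : ∀ {u : ℂ}, u ∈ c'.p → u = v := by
    intro u hu
    rw [Option.mem_def] at hu hv'; rw [hu] at hv'; exact Option.some.inj hv'
  -- facts on the bottom of `c`
  have hA : ∀ b ∈ c.b, b ∈ R ∧ X eps b.1 ≤ X eps v ∧ X eps v ≤ X eps b.2 ∧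
      ht eps b (X eps v) < z.im := by
    intro b hbc
    obtain ⟨⟨p, hp, h1⟩, ⟨q, hq, h2⟩⟩ := hc.shape.bs b hbc
    have hqv := hinj hq
    subst hqv
    have h3 := hc.shape.lt p hp q hq
    have hR := hc.defd.bR b hbc
    have h4 := (ori_pos_iff (hG.inc b hR) z).1 (hb b hbc)
    rw [hX] at h4
    exact ⟨hR, by linarith, h2, h4⟩
  have hA' : ∀ b ∈ c'.b, b ∈ R ∧ X eps b.1 ≤ X eps v ∧ X eps v ≤ X eps b.2 ∧
      ht eps b (X eps v) < z.im := by
    intro b hbc
    obtain ⟨⟨p, hp, h1⟩, ⟨q, hq, h2⟩⟩ := hc'.shape.bs b hbc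
    have hpv := hinj' hp
    subst hpv
    have h3 := hc'.shape.lt p hp q hq
    have hR := hc'.defd.bR b hbc
    have h4 := (ori_pos_iff (hG.inc b hR) z).1 (hb' b hbc)
    rw [hX] at h4
    exact ⟨hR, h1, by linarith, h4⟩
  have hB : ∀ t ∈ c.t, t ∈ R ∧ z.im < ht eps t (X eps v) := by
    intro t htc
    have hR := hc.defd.tR t htc
    have h4 := (ori_neg_iff (hG.inc t hR) z).1 (ht' t htc)
    rw [hX] at h4
    exact ⟨hR, h4⟩
  have hB' : ∀ t ∈ c'.t, t ∈ R ∧ z.im < ht eps t (X eps v) := by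
    intro t htc
    have hR := hc'.defd.tR t htc
    have h4 := (ori_neg_iff (hG.inc t hR) z).1 (htt t htc)
    rw [hX] at h4
    exact ⟨hR, h4⟩
  refine ⟨?_, ?_⟩
  · -- if `b'` is the bottom of `c'`, not that of `c`, and above the bottom of `c`
    have hC : ∀ b' ∈ c'.b, b' ∉ c.b →
        (∀ b ∈ c.b, ht eps b (X eps v) < ht eps b' (X eps v)) → False := by
      intro b' hb1 hb2 hb3
      obtain ⟨hR, h1, h2, h3⟩ := hA' b' hb1
      refine wb_left hG hc hv hR h1 h2 (by linarith) hb2 ?_ ?_ ?_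
      · intro hbt
        have := (hB b' hbt).2
        linarith
      · intro b hbc
        rw [ori_pos_iff (hG.inc b (hA b hbc).1)]
        rw [X_pt, pt_im]
        exact hb3 b hbc
      · intro t htc
        rw [ori_neg_iff (hG.inc t (hB t htc).1)]
        rw [X_pt, pt_im]
        have := (hB t htc).2
        linarith
    have hD : ∀ b ∈ c.b, b ∉ c'.b →
        (∀ b' ∈ c'.b, ht eps b' (X eps v) < ht eps b (X eps v)) → False := by
      intro b hb1 hb2 hb3
      obtain ⟨hR, h1, h2, h3⟩ := hA b hb1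
      refine wb_right hG hc' hv' hR h1 h2 (by linarith) hb2 ?_ ?_ ?_
      · intro hbt
        have := (hB' b hbt).2
        linarith
      · intro b' hbc
        rw [ori_pos_iff (hG.inc b' (hA' b' hbc).1)]
        rw [X_pt, pt_im]
        exact hb3 b' hbc
      · intro t htc
        rw [ori_neg_iff (hG.inc t (hB' t htc).1)]
        rw [X_pt, pt_im]
        have := (hB' t htc).2
        linarith
    rcases hcb : c.b with _ | b
    · rcases hcb' : c'.b with _ | b'
      · rfl
      · exfalso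
        exact hC b' (by rw [hcb']; rfl) (by rw [hcb]; simp) (by rw [hcb]; simp)
    · have hbm : b ∈ c.b := by rw [hcb]; rfl
      rcases hcb' : c'.b with _ | b'
      · exfalso
        exact hD b hbm (by rw [hcb']; simp) (by rw [hcb']; simp)
      · have hbm' : b' ∈ c'.b := by rw [hcb']; rfl
        by_contra hne
        have hne' : b ≠ b' := fun h => hne (by rw [h])
        have hn1 : b ∉ c'.b := by rw [hcb']; intro h; exact hne' (Option.some.inj h).symm
        have hn2 : b' ∉ c.b := by rw [hcb]; intro h; exact hne' (Option.some.inj h)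
        obtain ⟨hR, h1, h2, h3⟩ := hA b hbm
        obtain ⟨hR', h1', h2', h3'⟩ := hA' b' hbm'
        rcases lt_trichotomy (ht eps b (X eps v)) (ht eps b' (X eps v)) with h | h | h
        · refine hC b' hbm' hn2 ?_
          intro u hu
          rw [hcb] at hu
          have := Option.some.inj hu
          rw [← this]; exact h
        · have hy1 := pt_mem_carrier (hG.inc b hR) h1 h2
          have hy2 := pt_mem_carrier (hG.inc b' hR') h1' h2'
          rw [← h] at hy2
          have hcr := IsCrit.inter hR hR' hne' hy1 hy2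
          have := hG.inj _ _ hcr (hc.defd.qC v hv) (by rw [X_pt])
          have h5 := congrArg Complex.im this
          rw [pt_im] at h5
          linarith
        · refine hD b hbm hn1 ?_
          intro u hu
          rw [hcb'] at hu
          have := Option.some.inj hu
          rw [← this]; exact h
  · intro b hbc
    obtain ⟨hR, h1, h2, h3⟩ := hA b hbc
    rw [ori_pos_iff (hG.inc b hR)]
    linarith

end SFA
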