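import Pool.Agent.Lib.SFA.NoCrit

/-!
# SFA.WallTop: cells on both sides of a wall, above the critical point, have the same top

`c` ends at `v`, `c'` starts at `v`, `z` is above `v` on the same vertical line and strictly between
bottom and top of both cells.  Let `zeta = X z = X v`.
For `t in c.t`: `t` is over `zeta` (`X t.1 <= X p < X v = X q <= X t.2`), `ori t z < 0` gives
`z.im < ht t zeta`, so `v.im < ht t zeta`, i.e. `ori t v < 0`.  Same for `t' in c'.t`.
Equality of the tops: let `t in c.t` and `h = ht t zeta > z.im > v.im`, `y = pt eps zeta h` (on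
`carrier t`).  `y` is not critical (`Gen.inj` with `v`: `y = v` would give `h = v.im`), so
`X t.2 <> zeta` (`t.2` would be a critical point with abscissa `zeta`, so it is `v`, but `t.2 = y`):
`zeta < X t.2`.  Suppose `t` is not the top of `c'`.  If `c'.t = none` or `h < ht t' zeta`: the
points `y' = pt eps (zeta + d) (ht t (zeta + d))`, `d > 0` small, are on `carrier t`, in the open slab
of `c'`, and in the band of `c'` (at `y`: `0 < ori b' y` for `b' in c'.b`, since
`ht b' zeta < z.im < h`, and `ori t' y < 0`; continuity); `t` is not `c'.b` (`0 < ori b' y`,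
`ori t y = 0`); so `t` conflicts with `c'`: contradiction.  If `ht t' zeta < h`: exchange the
roles: `t'` extends to the left of `zeta` (`X t'.1 < zeta`) and conflicts with `c`.
If `ht t' zeta = h` and `t' <> t` then `y` is on both, critical: contradiction.
If `c.t = none` and `c'.t = some t'`: `t'` extends to the left and conflicts with `c`.
-/

namespace SFA

open Set Filter Topology

namespace WallTopAux

theorem push {eps : ℝ} {R : Finset Seg} {c : Cell} (hc : Valid eps R c)
    (hinc : ∀ s ∈ R, X eps s.1 < X eps s.2) {t : Seg} (htR : t ∈ R) {zeta : ℝ} {F : Filter ℝ}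
    [F.NeBot] (hF : F ≤ 𝓝 zeta) (h1 : ∀ᶠ xi in F, X eps t.1 ≤ xi ∧ xi ≤ X eps t.2)
    (h2 : ∀ᶠ xi in F, ∀ p ∈ c.p, X eps p < xi) (h3 : ∀ᶠ xi in F, ∀ q ∈ c.q, xi < X eps q)
    (hb : ∀ b ∈ c.b, ht eps b zeta < ht eps t zeta)
    (ht' : ∀ t' ∈ c.t, ht eps t zeta < ht eps t' zeta) : False := by
  have hcont : Continuous (fun xi : ℝ => pt eps xi (ht eps t xi)) :=
    (continuous_pt eps).comp (continuous_id.prodMk (continuous_ht eps t))
  have e1 : ∀ᶠ xi in F, ∀ b ∈ c.b, 0 < ori b (pt eps xi (ht eps t xi)) := by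
    rcases hcb : c.b with _ | b
    · exact Eventually.of_forall (fun xi b hb => by simp at hb)
    · have hbb : b ∈ c.b := by rw [hcb]; rfl
      have hR := hinc b (hc.defd.bR b hbb)
      have h0 : 0 < ori b (pt eps zeta (ht eps t zeta)) := by
        rw [ori_pos_iff hR]
        simpa using hb b hbb
      have := ((continuous_ori b).comp hcont).continuousAt.eventually (lt_mem_nhds h0)
      filter_upwards [hF this] with xi hxi b' hb'
      obtain rfl : b = b' := by simpa using hb'
      exact hxi
  have e2 : ∀ᶠ xi in F, ∀ t' ∈ c.t, ori t' (pt eps xi (ht eps t xi)) < 0 := by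
    rcases hct : c.t with _ | b
    · exact Eventually.of_forall (fun xi b hb => by simp at hb)
    · have hbb : b ∈ c.t := by rw [hct]; rfl
      have hR := hinc b (hc.defd.tR b hbb)
      have h0 : ori b (pt eps zeta (ht eps t zeta)) < 0 := by
        rw [ori_neg_iff hR]
        simpa using ht' b hbb
      have := ((continuous_ori b).comp hcont).continuousAt.eventually (gt_mem_nhds h0)
      filter_upwards [hF this] with xi hxi b' hb'
      obtain rfl : b = b' := by simpa using hb'
      exact hxi
  obtain ⟨xi, a1, a2, a3, a4, a5⟩ :=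
    (h1.and (h2.and (h3.and (e1.and e2)))).exists
  refine hc.emp t htR ⟨fun h => lt_irrefl _ (hb t h), fun h => lt_irrefl _ (ht' t h),
    pt eps xi (ht eps t xi), pt_mem_carrier (hinc t htR) a1.1 a1.2, ⟨?_, ?_⟩, ?_, ?_⟩
  · intro p hp
    rw [X_pt]
    exact a2 p hp
  · intro q hq
    rw [X_pt]
    exact a3 q hq
  · exact fun b hb' => (a4 b hb').le
  · exact fun t' ht'' => (a5 t' ht'').le

theorem mem_unique {v q : ℂ} {o : Option ℂ} (h : v ∈ o) (h' : q ∈ o) : q = v := by
  rw [Option.mem_def] at h h'
  rw [h] at h'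
  exact (Option.some.inj h').symm

/-- pushing to the right of the left wall -/
theorem push_right {eps : ℝ} {R : Finset Seg} {c : Cell} (hc : Valid eps R c)
    (hinc : ∀ s ∈ R, X eps s.1 < X eps s.2) {t : Seg} (htR : t ∈ R) {v : ℂ} (hv : v ∈ c.p)
    (h1 : X eps t.1 ≤ X eps v) (h2 : X eps v < X eps t.2)
    (hb : ∀ b ∈ c.b, ht eps b (X eps v) < ht eps t (X eps v))
    (ht' : ∀ t' ∈ c.t, ht eps t (X eps v) < ht eps t' (X eps v)) : False := by
  refine push hc hinc htR (zeta := X eps v) (F := 𝓝[>] (X eps v)) nhdsWithin_le_nhds ?_ ?_ ?_ hb ht'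
  · filter_upwards [self_mem_nhdsWithin, nhdsWithin_le_nhds (gt_mem_nhds h2)] with xi h3 h4
    exact ⟨h1.trans (le_of_lt h3), le_of_lt h4⟩
  · filter_upwards [self_mem_nhdsWithin] with xi h3 p hp
    rw [mem_unique hv hp]
    exact h3
  · rcases hq : c.q with _ | q
    · exact Eventually.of_forall (fun xi b hb => by simp at hb)
    · have hqq : q ∈ c.q := by rw [hq]; rfl
      filter_upwards [nhdsWithin_le_nhds (gt_mem_nhds (hc.shape.lt v hv q hqq))] with xi h3 q' hq'
      obtain rfl : q = q' := by simpa using hq'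
      exact h3

/-- pushing to the left of the right wall -/
theorem push_left {eps : ℝ} {R : Finset Seg} {c : Cell} (hc : Valid eps R c)
    (hinc : ∀ s ∈ R, X eps s.1 < X eps s.2) {t : Seg} (htR : t ∈ R) {v : ℂ} (hv : v ∈ c.q)
    (h1 : X eps t.1 < X eps v) (h2 : X eps v ≤ X eps t.2)
    (hb : ∀ b ∈ c.b, ht eps b (X eps v) < ht eps t (X eps v))
    (ht' : ∀ t' ∈ c.t, ht eps t (X eps v) < ht eps t' (X eps v)) : False := by
  refine push hc hinc htR (zeta := X eps v) (F := 𝓝[<] (X eps v)) nhdsWithin_le_nhds ?_ ?_ ?_ hb ht'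
  · filter_upwards [self_mem_nhdsWithin, nhdsWithin_le_nhds (lt_mem_nhds h1)] with xi h3 h4
    exact ⟨le_of_lt h4, (le_of_lt h3).trans h2⟩
  · rcases hq : c.p with _ | q
    · exact Eventually.of_forall (fun xi b hb => by simp at hb)
    · have hqq : q ∈ c.p := by rw [hq]; rfl
      filter_upwards [nhdsWithin_le_nhds (lt_mem_nhds (hc.shape.lt q hqq v hv))] with xi h3 q' hq'
      obtain rfl : q = q' := by simpa using hq'
      exact h3
  · filter_upwards [self_mem_nhdsWithin] with xi h3 p hp
    rw [mem_unique hv hp]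
    exact h3

end WallTopAux

open WallTopAux in
theorem wall_top {eps : ℝ} {R : Finset Seg} {x : ℂ} (hG : Gen eps R x) {c c' : Cell}
    (hc : Valid eps R c) (hc' : Valid eps R c') {v z : ℂ} (hv : v ∈ c.q) (hv' : v ∈ c'.p)
    (hX : X eps z = X eps v) (him : v.im < z.im)
    (hb : ∀ b ∈ c.b, 0 < ori b z) (ht' : ∀ t ∈ c.t, ori t z < 0)
    (hb' : ∀ b ∈ c'.b, 0 < ori b z) (htt : ∀ t ∈ c'.t, ori t z < 0) :
    c.t = c'.t ∧ ∀ t ∈ c.t, ori t v < 0 := by
  have hinc := hG.inc
  have hcrit : IsCrit R v := hc.defd.qC v hv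
  have hB : ∀ b ∈ c.b, ht eps b (X eps v) < z.im := by
    intro b h
    have := (ori_pos_iff (hinc b (hc.defd.bR b h)) z).1 (hb b h)
    rwa [hX] at this
  have hB' : ∀ b ∈ c'.b, ht eps b (X eps v) < z.im := by
    intro b h
    have := (ori_pos_iff (hinc b (hc'.defd.bR b h)) z).1 (hb' b h)
    rwa [hX] at this
  have hT : ∀ t ∈ c.t, z.im < ht eps t (X eps v) := by
    intro b h
    have := (ori_neg_iff (hinc b (hc.defd.tR b h)) z).1 (ht' b h)
    rwa [hX] at this
  have hT' : ∀ t ∈ c'.t, z.im < ht eps t (X eps v) := by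
    intro b h
    have := (ori_neg_iff (hinc b (hc'.defd.tR b h)) z).1 (htt b h)
    rwa [hX] at this
  have hA : ∀ t ∈ c.t, X eps t.1 < X eps v ∧ X eps v < X eps t.2 := by
    intro t h
    have hR := hc.defd.tR t h
    obtain ⟨⟨p, hp, hp'⟩, ⟨q, hq, hq'⟩⟩ := hc.shape.ts t h
    rw [mem_unique hv hq] at hq'
    refine ⟨lt_of_le_of_lt hp' (hc.shape.lt p hp v hv), lt_of_le_of_ne hq' ?_⟩
    intro e
    have e2 : v = t.2 := hG.inj v t.2 hcrit (IsCrit.right hR) e
    have e3 := (ori_zero_iff (hinc t hR) t.2).1 (ori_right t)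
    rw [← e2] at e3
    have := hT t h
    linarith
  have hA' : ∀ t ∈ c'.t, X eps t.1 < X eps v ∧ X eps v < X eps t.2 := by
    intro t h
    have hR := hc'.defd.tR t h
    obtain ⟨⟨p, hp, hp'⟩, ⟨q, hq, hq'⟩⟩ := hc'.shape.ts t h
    rw [mem_unique hv' hp] at hp'
    refine ⟨lt_of_le_of_ne hp' ?_, lt_of_lt_of_le (hc'.shape.lt v hv' q hq) hq'⟩
    intro e
    have e2 : t.1 = v := hG.inj t.1 v (IsCrit.left hR) hcrit e
    have e3 := (ori_zero_iff (hinc t hR) t.1).1 (ori_left t)
    rw [e2] at e3
    have := hT' t h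
    linarith
  refine ⟨?_, ?_⟩
  · rcases h1 : c.t with _ | t
    · rcases h2 : c'.t with _ | t'
      · rfl
      · exfalso
        have m : t' ∈ c'.t := by rw [h2]; rfl
        refine push_left hc hinc (hc'.defd.tR t' m) hv (hA' t' m).1 (hA' t' m).2.le ?_ ?_
        · exact fun b h => (hB b h).trans (hT' t' m)
        · intro t h
          rw [h1] at h
          simp at h
    · have mt : t ∈ c.t := by rw [h1]; rfl
      rcases h2 : c'.t with _ | t'
      · exfalso
        refine push_right hc' hinc (hc.defd.tR t mt) hv' (hA t mt).1.le (hA t mt).2 ?_ ?_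
        · exact fun b h => (hB' b h).trans (hT t mt)
        · intro t h
          rw [h2] at h
          simp at h
      · have mt' : t' ∈ c'.t := by rw [h2]; rfl
        congr 1
        by_contra hne
        rcases lt_trichotomy (ht eps t (X eps v)) (ht eps t' (X eps v)) with h | h | h
        · refine push_right hc' hinc (hc.defd.tR t mt) hv' (hA t mt).1.le (hA t mt).2 ?_ ?_
          · exact fun b h => (hB' b h).trans (hT t mt)
          · intro t'' h'
            rw [h2] at h'
            obtain rfl : t' = t'' := by simpa using h'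
            exact h
        · have m1 : pt eps (X eps v) (ht eps t (X eps v)) ∈ carrier t :=
            pt_mem_carrier (hinc t (hc.defd.tR t mt)) (hA t mt).1.le (hA t mt).2.le
          have m2 : pt eps (X eps v) (ht eps t (X eps v)) ∈ carrier t' := by
            rw [h]
            exact pt_mem_carrier (hinc t' (hc'.defd.tR t' mt')) (hA' t' mt').1.le (hA' t' mt').2.le
          have m3 := IsCrit.inter (hc.defd.tR t mt) (hc'.defd.tR t' mt') hne m1 m2
          have m4 := hG.inj _ v m3 hcrit (X_pt _ _ _)
          have m5 := congrArg Complex.im m4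
          rw [pt_im] at m5
          have := hT t mt
          linarith
        · refine push_left hc hinc (hc'.defd.tR t' mt') hv (hA' t' mt').1 (hA' t' mt').2.le ?_ ?_
          · exact fun b h => (hB b h).trans (hT' t' mt')
          · intro t'' h'
            rw [h1] at h'
            obtain rfl : t = t'' := by simpa using h'
            exact h
  · intro t h
    rw [ori_neg_iff (hinc t (hc.defd.tR t h))]
    exact him.trans (hT t h)

end SFA
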