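import Pool.Agent.Lib.SFA.HalfL
import Pool.Agent.Lib.SFA.HalfR
import Pool.Agent.Lib.SFA.WallTop
import Pool.Agent.Lib.SFA.WallBot

/-!
# SFA.LocStr: near a point outside the segments there are one or two adjacent cells

Let `z notin U R`.  If no critical point is visible from `z`: `exists_valid`, `c = c'`, a ball
inside the open set `reg c`.  Otherwise let `v` be critical and visible, `X v = X z`, `v <> z`
(`v in U R`), so `v.im <> z.im` (`ext_X`).  `half_left` gives `c` ending at `v`, `half_right` gives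
`c'` starting at `v`, take the smaller radius.  If `v.im < z.im`, `wall_top` gives the first
alternative of `adj c c'`; if `z.im < v.im`, `wall_bot` gives the second.
-/

namespace SFA

open Set Filter Topology

theorem local_structure {eps : ℝ} {R : Finset Seg} {x : ℂ} (hG : Gen eps R x) {z : ℂ}
    (hz : z ∉ U R) :
    ∃ c c' : Cell, Valid eps R c ∧ Valid eps R c' ∧
      ((c = c' ∧ z ∈ reg eps c) ∨
        (adj c c' ∧ InCl eps c z ∧ InCl eps c' z ∧ ∃ v ∈ c.q, v ∈ c'.p ∧ Vis eps R z v)) ∧
      ∃ r > 0, ∀ w ∈ Metric.ball z r,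
        (X eps w < X eps z → w ∈ reg eps c) ∧ (X eps z < X eps w → w ∈ reg eps c') := by
  by_cases hvis : ∀ v : ℂ, IsCrit R v → ¬ Vis eps R z v
  · obtain ⟨c, hc, hzc⟩ := exists_valid hG hz hvis
    obtain ⟨r, hr, hball⟩ := Metric.isOpen_iff.1 (isOpen_reg eps c) z hzc
    exact ⟨c, c, hc, hc, Or.inl ⟨rfl, hzc⟩, r, hr,
      fun w hw => ⟨fun _ => hball hw, fun _ => hball hw⟩⟩
  · push Not at hvis
    obtain ⟨v, hv, hvz⟩ := hvis
    obtain ⟨c, hc, hvc, hp, hb, ht, r, hr, hrc⟩ := half_left hG hz hv hvz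
    obtain ⟨c', hc', hvc', hq, hb', ht', r', hr', hrc'⟩ := half_right hG hz hv hvz
    have hX : X eps z = X eps v := hvz.1.symm
    have hne : v ≠ z := fun h => hz (h ▸ hv.mem_U)
    have him : v.im ≠ z.im := fun h => hne (ext_X hvz.1 h)
    refine ⟨c, c', hc, hc', Or.inr ⟨⟨v, hvc, hvc', ?_⟩, ?_, ?_, v, hvc, hvc', hvz⟩,
      min r r', lt_min hr hr', fun w hw => ⟨fun h => ?_, fun h => ?_⟩⟩
    · rcases lt_or_gt_of_ne him with h | h
      · exact Or.inl (wall_top hG hc hc' hvc hvc' hX h hb ht hb' ht')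
      · exact Or.inr (wall_bot hG hc hc' hvc hvc' hX h hb ht hb' ht')
    · refine ⟨fun p hpp => (hp p hpp).le, fun q hqq => ?_, fun b hbb => (hb b hbb).le,
        fun t htt => (ht t htt).le⟩
      rw [Option.mem_unique hqq hvc]
      exact hX.le
    · refine ⟨fun p hpp => ?_, fun q hqq => (hq q hqq).le, fun b hbb => (hb' b hbb).le,
        fun t htt => (ht' t htt).le⟩
      rw [Option.mem_unique hpp hvc']
      exact hX.ge
    · exact hrc w (Metric.ball_subset_ball (min_le_left r r') hw) h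
    · exact hrc' w (Metric.ball_subset_ball (min_le_right r r') hw) h

end SFA
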