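import Pool.Agent.Lib.SFA.SideC
import Pool.Agent.Lib.SFA.LocStr
import Pool.Agent.Lib.SFA.AdjFace

/-!
# SFA.Chg3: charging a cell whose left critical point is strictly inside its left wall

`c` valid in the face, `v in c.p`, `0 < ori b v` for `b in c.b`, `ori t v < 0` for `t in c.t`.
(0) All points `w` near `v` with `X v < X w` are in `reg c` (strict inequalities at `v` and
`X v < X q`, continuity).  This gives `uniq3` at once.
(1) No segment `s in R` through `v` has `X v < X s.2`: otherwise its points slightly to the right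
of `v` are in `reg c`, against `reg_disj_U`.
(2) Choose `z` above `v` (`X z = X v`) so close that `z` is strictly below `c.t` and above `c.b` and
the open segment from `v` to `z` and `z` itself avoid `U R`: the segments not through `v` stay away
from `v` (closed sets); the segments through `v` meet the line `X = X v` only in `v` (`X s.1 < X s.2`).
So `Vis eps R z v`.
(3) `half_left` at `z`: a valid cell `cl` with `v in cl.q`, strictly containing `z` between bottom and
top; `half_right` at `z` gives a valid `c1` starting at `v`, and `c1 = c`: points slightly to the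
right of `z`, `z` close to `v`, are in both (choose `z` in the neighbourhood of (0)),
`valid_unique`.  `wall_top` gives `cl.t = c.t` and `ori t v < 0`; so `adj cl c` and `cl` is in the face
(`adj_same_face`).
(4) `v` is on the bottom of `cl`: `v` is critical, so there is `s in R` with `v in carrier s`; by (1)
`X s.2 = X v` (so `s.2 = v`) and `X s.1 < X v`.  If `v` were strictly above `cl.b` (or `cl.b = none`)
the points of `s` slightly to the left of `v` would be in `hreg cl` and `s` is not `cl.b`, not `cl.t`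
(`ori <> 0` at `v`): conflict, contradiction.  So `cl.b = some s'` with `ori s' v = 0` (`0 <= ori s' v`
by `Shape.qb`), `v in carrier s'` (`spans`).
(5) `prev_crit` gives the edge `(w,v)` on `s'`, `X w < X v`.  A point `y` of the open edge near `v` is in
the open slab of `cl`, on its bottom, so strictly below its top; moved up a little it is in
`reg cl`, in the face: `isDart_of_left` for `(w,v)` (direction to the right, left side = above:
`ori s' (y + h I (v - w)) > 0`).
-/

namespace SFA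

open Set Filter Topology

namespace Chg3Aux

theorem ev_opt {α β : Type*} {F : Filter β} (o : Option α) (P : α → β → Prop)
    (h : ∀ a ∈ o, ∀ᶠ w in F, P a w) : ∀ᶠ w in F, ∀ a ∈ o, P a w := by
  cases o with
  | none => exact Filter.Eventually.of_forall (fun w a ha => by simp at ha)
  | some a =>
    refine (h a rfl).mono (fun w hw b hb => ?_)
    obtain rfl : a = b := by simpa using hb
    exact hw

theorem ev_b {o : Option Seg} {v : ℂ} (hb : ∀ b ∈ o, 0 < ori b v) :
    ∀ᶠ w in 𝓝 v, ∀ b ∈ o, 0 < ori b w :=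
  ev_opt o (fun b w => 0 < ori b w)
    (fun b hb' => ((continuous_ori b).tendsto v).eventually_const_lt (hb b hb'))

theorem ev_t {o : Option Seg} {v : ℂ} (ht' : ∀ t ∈ o, ori t v < 0) :
    ∀ᶠ w in 𝓝 v, ∀ t ∈ o, ori t w < 0 :=
  ev_opt o (fun t w => ori t w < 0)
    (fun t ht => ((continuous_ori t).tendsto v).eventually_lt_const (ht' t ht))

theorem ev_p {eps : ℝ} {o : Option ℂ} {v : ℂ} (hp : ∀ p ∈ o, X eps p < X eps v) :
    ∀ᶠ w in 𝓝 v, ∀ p ∈ o, X eps p < X eps w :=
  ev_opt o (fun p w => X eps p < X eps w)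
    (fun p hp' => ((continuous_X eps).tendsto v).eventually_const_lt (hp p hp'))

theorem ev_q {eps : ℝ} {o : Option ℂ} {v : ℂ} (hq : ∀ q ∈ o, X eps v < X eps q) :
    ∀ᶠ w in 𝓝 v, ∀ q ∈ o, X eps w < X eps q :=
  ev_opt o (fun q w => X eps w < X eps q)
    (fun q hq' => ((continuous_X eps).tendsto v).eventually_lt_const (hq q hq'))

/-- all points near `v` on its right are in the cell -/
theorem near_right {eps : ℝ} {c : Cell} (hc : Shape eps c) {v : ℂ} (hv : v ∈ c.p)
    (hb : ∀ b ∈ c.b, 0 < ori b v) (ht' : ∀ t ∈ c.t, ori t v < 0) :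
    ∀ᶠ w in 𝓝 v, X eps v < X eps w → w ∈ reg eps c := by
  have h1 := ev_q (eps := eps) (o := c.q) (v := v) (fun q hq => hc.lt v hv q hq)
  filter_upwards [h1, ev_b hb, ev_t ht'] with w h1 h2 h3 hw
  refine ⟨⟨?_, h1⟩, h2, h3⟩
  intro p hp
  obtain rfl : v = p := Option.mem_unique hv hp
  exact hw

/-- all points near `v` on its left are in the cell -/
theorem near_left {eps : ℝ} {c : Cell} (hc : Shape eps c) {v : ℂ} (hv : v ∈ c.q)
    (hb : ∀ b ∈ c.b, 0 < ori b v) (ht' : ∀ t ∈ c.t, ori t v < 0) :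
    ∀ᶠ w in 𝓝 v, X eps w < X eps v → w ∈ reg eps c := by
  have h1 := ev_p (eps := eps) (o := c.p) (v := v) (fun p hp => hc.lt p hp v hv)
  filter_upwards [h1, ev_b hb, ev_t ht'] with w h1 h2 h3 hw
  refine ⟨⟨h1, ?_⟩, h2, h3⟩
  intro q hq
  obtain rfl : v = q := Option.mem_unique hv hq
  exact hw

theorem tendsto_ray (v d : ℂ) : Tendsto (fun h : ℝ => v + h • d) (𝓝[>] 0) (𝓝 v) := by
  have h1 : Continuous (fun h : ℝ => v + h • d) := by fun_prop
  have h2 := (h1.tendsto 0).mono_left (nhdsWithin_le_nhds (s := Ioi (0 : ℝ)))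
  simpa using h2

theorem X_one (eps : ℝ) : X eps 1 = 1 := by simp [X]

theorem ev_pos : ∀ᶠ h : ℝ in 𝓝[>] (0 : ℝ), 0 < h := self_mem_nhdsWithin

theorem ev_lt {a : ℝ} (ha : 0 < a) : ∀ᶠ h : ℝ in 𝓝[>] (0 : ℝ), h < a :=
  (eventually_lt_nhds ha).filter_mono nhdsWithin_le_nhds

/-- no segment through `v` extends to the right -/
theorem no_right {eps : ℝ} {R : Finset Seg} {x : ℂ} (hG : Gen eps R x) {c : Cell}
    (hc : Valid eps R c) {v : ℂ} (hv : v ∈ c.p) (hb : ∀ b ∈ c.b, 0 < ori b v)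
    (ht' : ∀ t ∈ c.t, ori t v < 0) {s : Seg} (hs : s ∈ R) (hvs : v ∈ carrier s) :
    X eps s.2 ≤ X eps v := by
  by_contra hlt
  push Not at hlt
  have h1 := (tendsto_ray v (s.2 - v)).eventually (near_right hc.shape hv hb ht')
  obtain ⟨h, h2, h3, h4⟩ := (h1.and (ev_pos.and (ev_lt one_pos))).exists
  have h5 : v + h • (s.2 - v) ∈ carrier s := by
    have hconv : Convex ℝ (carrier s) := convex_segment _ _
    exact hconv.add_smul_sub_mem hvs (right_mem_carrier s) ⟨h3.le, h4.le⟩
  have h6 : v + h • (s.2 - v) ∈ reg eps c := by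
    apply h2
    rw [X_add, X_smul, X_sub]
    nlinarith
  exact reg_disj_U hG hc h6 (mem_U.2 ⟨s, hs, h5⟩)

/-- a segment through `v` extending to the left leaves the cell ending at `v` only through
the bottom -/
theorem no_left {eps : ℝ} {R : Finset Seg} {x : ℂ} (hG : Gen eps R x) {c : Cell}
    (hc : Valid eps R c) {v : ℂ} (hv : v ∈ c.q) (hb : ∀ b ∈ c.b, 0 < ori b v)
    (ht' : ∀ t ∈ c.t, ori t v < 0) {s : Seg} (hs : s ∈ R) (hvs : v ∈ carrier s) :
    X eps v ≤ X eps s.1 := by
  by_contra hlt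
  push Not at hlt
  have h1 := (tendsto_ray v (s.1 - v)).eventually (near_left hc.shape hv hb ht')
  obtain ⟨h, h2, h3, h4⟩ := (h1.and (ev_pos.and (ev_lt one_pos))).exists
  have h5 : v + h • (s.1 - v) ∈ carrier s := by
    have hconv : Convex ℝ (carrier s) := convex_segment _ _
    exact hconv.add_smul_sub_mem hvs (left_mem_carrier s) ⟨h3.le, h4.le⟩
  have h6 : v + h • (s.1 - v) ∈ reg eps c := by
    apply h2
    rw [X_add, X_smul, X_sub]
    nlinarith
  exact reg_disj_U hG hc h6 (mem_U.2 ⟨s, hs, h5⟩)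

/-- two points of a segment -/
theorem sub_of_mem {eps : ℝ} {s : Seg} (hinc : X eps s.1 < X eps s.2) {w v : ℂ}
    (hw : w ∈ carrier s) (hv : v ∈ carrier s) (hlt : X eps w < X eps v) :
    ∃ l : ℝ, 0 < l ∧ v - w = l • (s.2 - s.1) := by
  obtain ⟨a1, a2, ha1, ha2, haa, rfl⟩ := hw
  obtain ⟨c1, c2, hc1, hc2, hcc, rfl⟩ := hv
  refine ⟨c2 - a2, ?_, ?_⟩
  · rw [X_comb eps haa, X_comb eps hcc] at hlt
    have h1 : a1 = 1 - a2 := by linarith
    have h2 : c1 = 1 - c2 := by linarith
    rw [h1, h2] at hlt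
    by_contra hneg
    push Not at hneg
    nlinarith
  · have h1 : a1 = 1 - a2 := by linarith
    have h2 : c1 = 1 - c2 := by linarith
    rw [h1, h2]
    module

theorem ori_add (s : Seg) (y d : ℂ) : ori s (y + d) = ori s y + cross (s.2 - s.1) d := by
  simp [ori, cross]; ring

theorem cross_rot (a : ℂ) (h l : ℝ) :
    cross a ((h : ℂ) * Complex.I * (l • a)) = h * l * (a.re ^ 2 + a.im ^ 2) := by
  simp [cross]; ring

end Chg3Aux

open Chg3Aux

namespace Chg3Aux

/-- the points slightly above `v` -/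
noncomputable def up (eps : ℝ) (v : ℂ) (h : ℝ) : ℂ := pt eps (X eps v) (v.im + h)

theorem up_zero (eps : ℝ) (v : ℂ) : up eps v 0 = v := by
  unfold up
  rw [add_zero, pt_eta]

theorem X_up (eps : ℝ) (v : ℂ) (h : ℝ) : X eps (up eps v h) = X eps v := by
  simp [up]

theorem im_up (eps : ℝ) (v : ℂ) (h : ℝ) : (up eps v h).im = v.im + h := by
  simp [up]

theorem tendsto_up (eps : ℝ) (v : ℂ) : Tendsto (up eps v) (𝓝 0) (𝓝 v) := by
  have h1 : Continuous (up eps v) := by
    have h2 := (continuous_pt eps).comp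
      (by fun_prop : Continuous (fun h : ℝ => ((X eps v, v.im + h) : ℝ × ℝ)))
    exact h2
  have h3 := h1.tendsto 0
  rwa [up_zero] at h3

/-- the set of the segments not through `v` -/
def off (R : Finset Seg) (v : ℂ) : Set ℂ := {w | ∃ s ∈ R, v ∉ carrier s ∧ w ∈ carrier s}

theorem isClosed_off (R : Finset Seg) (v : ℂ) : IsClosed (off R v) := by
  classical
  have h1 : off R v = ⋃ s ∈ (R.filter (fun s => v ∉ carrier s)), carrier s := by
    ext w
    simp only [off, Set.mem_setOf_eq, Set.mem_iUnion, Finset.mem_filter, exists_prop]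
    constructor
    · rintro ⟨s, hs, h1, h2⟩
      exact ⟨s, ⟨hs, h1⟩, h2⟩
    · rintro ⟨s, ⟨hs, h1⟩, h2⟩
      exact ⟨s, hs, h1, h2⟩
  rw [h1]
  exact (Finset.finite_toSet _).isClosed_biUnion (fun s _ => isClosed_carrier s)

theorem ev_off (R : Finset Seg) (v : ℂ) : ∀ᶠ w in 𝓝 v, w ∉ off R v := by
  have h1 : v ∉ off R v := by
    rintro ⟨s, hs, h1, h2⟩
    exact h1 h2
  exact (isClosed_off R v).isOpen_compl.mem_nhds h1

/-- a point on the vertical line of `v` near `v` and different from `v` is not on the segments -/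
theorem not_mem_U {eps : ℝ} {R : Finset Seg} {x : ℂ} (hG : Gen eps R x) {v w : ℂ}
    (hX : X eps w = X eps v) (hne : w ≠ v) (hoff : w ∉ off R v) : w ∉ U R := by
  intro hw
  obtain ⟨s, hs, hws⟩ := mem_U.1 hw
  by_cases hvs : v ∈ carrier s
  · apply hne
    refine ext_X hX ?_
    have h1 := ((mem_carrier_iff' (hG.inc s hs) w).1 hws).2.2
    have h2 := ((mem_carrier_iff' (hG.inc s hs) v).1 hvs).2.2
    rw [h1, h2, hX]
  · exact hoff ⟨s, hs, hvs, hws⟩

theorem vis_up {eps : ℝ} {R : Finset Seg} {x : ℂ} (hG : Gen eps R x) {v : ℂ} {h0 h : ℝ}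
    (hh : 0 < h) (hlt : h < h0) (hoff : ∀ k : ℝ, 0 < k → k < h0 → up eps v k ∉ off R v) :
    up eps v h ∉ U R ∧ Vis eps R (up eps v h) v := by
  have hne : ∀ k : ℝ, 0 < k → up eps v k ≠ v := by
    intro k hk he
    have h1 := im_up eps v k
    rw [he] at h1
    linarith
  refine ⟨not_mem_U hG (X_up eps v h) (hne h hh) (hoff h hh hlt), (X_up eps v h).symm, ?_⟩
  rw [Set.disjoint_left]
  rintro y ⟨a, b, ha, hb, hab, rfl⟩
  have h1 : a • up eps v h + b • v = up eps v (a * h) := by
    apply ext_X (eps := eps)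
    · rw [X_comb eps hab, X_up, X_up, ← add_mul, hab, one_mul]
    · rw [im_comb, im_up, im_up]
      have : b = 1 - a := by linarith
      rw [this]; ring
  have h2 : 0 < a * h := mul_pos ha hh
  have h3 : a * h < h0 := by
    have : a < 1 := by linarith
    nlinarith
  have h4 := not_mem_U hG (X_up eps v (a * h)) (hne _ h2) (hoff _ h2 h3)
  rw [← h1] at h4
  exact h4

/-- there is a cell of the face ending at `v` with the same top -/
theorem exists_left_cell {eps : ℝ} {R : Finset Seg} {x : ℂ} (hG : Gen eps R x) {c : Cell}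
    (hc : InFace eps R x c) {v : ℂ} (hv : v ∈ c.p) (hb : ∀ b ∈ c.b, 0 < ori b v)
    (ht' : ∀ t ∈ c.t, ori t v < 0) :
    ∃ cl : Cell, Valid eps R cl ∧ reg eps cl ⊆ face R x ∧ v ∈ cl.q ∧
      ∀ t ∈ cl.t, ori t v < 0 := by
  have hvc : IsCrit R v := hc.1.defd.pC v hv
  have hnr := near_right hc.1.shape hv hb ht'
  -- a neighbourhood of `v`
  obtain ⟨N, hN, hNo, hvN⟩ := eventually_nhds_iff.1 (hnr.and ((ev_b hb).and ((ev_t ht').and
    (ev_off R v))))
  have hup := (tendsto_up eps v).eventually (hNo.mem_nhds hvN)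
  obtain ⟨h0, hh0, hball⟩ := Metric.eventually_nhds_iff.1 hup
  have hmem : ∀ k : ℝ, 0 < k → k < h0 → up eps v k ∈ N := by
    intro k hk hk'
    apply hball
    rw [Real.dist_eq, sub_zero, abs_of_pos hk]
    exact hk'
  set z := up eps v (h0 / 2) with hzdef
  have hz1 : z ∈ N := hmem _ (by linarith) (by linarith)
  obtain ⟨hzU, hvis⟩ := vis_up hG (v := v) (h0 := h0) (h := h0 / 2) (by linarith) (by linarith)
    (fun k hk hk' => (hN _ (hmem k hk hk')).2.2.2)
  obtain ⟨cl, hcl, hclq, hclp, hclb, hclt, r, hr, hclr⟩ := half_left hG hzU hvc hvis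
  obtain ⟨c1, hc1, hc1p, hc1q, hc1b, hc1t, r1, hr1, hc1r⟩ := half_right hG hzU hvc hvis
  -- `c1 = c`
  have hcc : c1 = c := by
    have h1 := (tendsto_ray z 1).eventually ((hNo.mem_nhds hz1))
    have h2 := (tendsto_ray z 1).eventually (Metric.ball_mem_nhds z hr1)
    obtain ⟨h, h3, h4, h5⟩ := (h1.and (h2.and ev_pos)).exists
    have h6 : X eps z < X eps (z + h • (1 : ℂ)) := by
      rw [X_add, X_smul, X_one]; linarith
    have h7 : X eps v < X eps (z + h • (1 : ℂ)) := by
      rw [hzdef, X_up] at h6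
      exact h6
    exact valid_unique hG hc1 hc.1 (hc1r _ h4 h6) ((hN _ h3).1 h7)
  have him : v.im < z.im := by
    rw [hzdef, im_up]; linarith
  have hwall := wall_top hG hcl hc.1 hclq hv (X_up eps v _) him hclb hclt
    (hN _ hz1).2.1 (hN _ hz1).2.2.1
  have hadj : adj cl c := ⟨v, hclq, hv, Or.inl hwall⟩
  exact ⟨cl, hcl, adj_same_face hG hc.1 hcl (Or.inr hadj) hc.2, hclq, hwall.2⟩

end Chg3Aux

theorem chg3 {eps : ℝ} {R : Finset Seg} {x : ℂ} (hG : Gen eps R x) {c : Cell}
    (hc : InFace eps R x c) {v : ℂ} (hv : v ∈ c.p) (hb : ∀ b ∈ c.b, 0 < ori b v)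
    (ht' : ∀ t ∈ c.t, ori t v < 0) :
    ∃ w, IsDart R (face R x) w v ∧ X eps w < X eps v := by
  have hvc : IsCrit R v := hc.1.defd.pC v hv
  obtain ⟨cl, hcl, hclF, hclq, hclt⟩ := exists_left_cell hG hc hv hb ht'
  -- the bottom of `cl` goes through `v`
  have hbot : ∃ b ∈ cl.b, ori b v = 0 := by
    by_contra hno
    push Not at hno
    have hb2 : ∀ b ∈ cl.b, 0 < ori b v := fun b hb' =>
      lt_of_le_of_ne ((hcl.shape.qb v hclq).1 b hb') (Ne.symm (hno b hb'))
    obtain ⟨s, hs, hvs⟩ := mem_U.1 hvc.mem_U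
    have h1 := no_right hG hc.1 hv hb ht' hs hvs
    have h2 := no_left hG hcl hclq hb2 hclt hs hvs
    have h3 := hG.inc s hs
    linarith
  obtain ⟨b, hbcl, hbv⟩ := hbot
  have hbR : b ∈ R := hcl.defd.bR b hbcl
  have hinc := hG.inc b hbR
  obtain ⟨⟨p, hp, hp1⟩, ⟨q, hq, hq1⟩⟩ := hcl.shape.bs b hbcl
  have hpv : X eps p < X eps v := hcl.shape.lt p hp v hclq
  obtain rfl : v = q := Option.mem_unique hclq hq
  have hvb : v ∈ carrier b := (mem_carrier_iff hinc v).2 ⟨by linarith, hq1, hbv⟩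
  obtain ⟨w, hwb, hwv, hedge, -⟩ := prev_crit hG hbR hvc hvb (by linarith : X eps b.1 < X eps v)
  refine ⟨w, ?_, hwv⟩
  obtain ⟨l, hl, hvw⟩ := sub_of_mem hinc hwb hvb hwv
  -- a point of the open edge near `v`
  have hpp : ∀ p ∈ cl.p, X eps p < X eps v := fun p hp => hcl.shape.lt p hp v hclq
  have h1 := (tendsto_ray v (w - v)).eventually ((ev_p hpp).and (ev_t hclt))
  obtain ⟨k, ⟨hk1, hk2⟩, hk3, hk4⟩ := (h1.and (ev_pos.and (ev_lt one_pos))).exists
  set y := v + k • (w - v) with hy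
  have hyo : y ∈ openSegment ℝ w v :=
    ⟨k, 1 - k, hk3, by linarith, by ring, by rw [hy]; module⟩
  have hyb : ori b y = 0 := by
    have h2 : y = k • w + (1 - k) • v := by rw [hy]; module
    rw [h2, ori_comb b (by ring), hbv, ((mem_carrier_iff hinc w).1 hwb).2.2]
    ring
  have hyX : X eps y < X eps v := by
    rw [hy, X_add, X_smul, X_sub]
    nlinarith
  refine isDart_of_left hG hedge hyo (Filter.Eventually.frequently ?_)
  have htend : Tendsto (fun h : ℝ => y + ((h : ℝ) : ℂ) * Complex.I * (v - w)) (𝓝[>] 0) (𝓝 y) := by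
    have h2 : Continuous (fun h : ℝ => y + ((h : ℝ) : ℂ) * Complex.I * (v - w)) := by fun_prop
    have h3 := (h2.tendsto 0).mono_left (nhdsWithin_le_nhds (s := Ioi (0 : ℝ)))
    simpa using h3
  have hq2 : ∀ q ∈ cl.q, X eps y < X eps q := by
    intro q hq
    obtain rfl : v = q := Option.mem_unique hclq hq
    exact hyX
  have h2 := htend.eventually ((ev_p hk1).and ((ev_q hq2).and (ev_t hk2)))
  filter_upwards [h2, ev_pos] with h h3 h4
  obtain ⟨h5, h6, h7⟩ := h3
  apply hclF
  refine ⟨⟨h5, h6⟩, ?_, h7⟩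
  intro b' hb'
  obtain rfl : b = b' := Option.mem_unique hbcl hb'
  rw [ori_add, hyb, hvw, cross_rot, zero_add]
  have hne : b.2 - b.1 ≠ 0 := by
    intro h8
    have h9 : b.2 = b.1 := sub_eq_zero.1 h8
    rw [h9] at hinc
    exact lt_irrefl _ hinc
  have hpos : 0 < (b.2 - b.1).re ^ 2 + (b.2 - b.1).im ^ 2 := by
    by_contra h8
    push Not at h8
    apply hne
    apply Complex.ext
    · simp only [Complex.zero_re]; nlinarith [sq_nonneg (b.2 - b.1).re, sq_nonneg (b.2 - b.1).im]
    · simp only [Complex.zero_im]; nlinarith [sq_nonneg (b.2 - b.1).re, sq_nonneg (b.2 - b.1).im]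
  positivity

theorem uniq3 {eps : ℝ} {R : Finset Seg} {x : ℂ} (hG : Gen eps R x) {c1 c2 : Cell}
    (hc1 : Valid eps R c1) (hc2 : Valid eps R c2) {v : ℂ} (hv1 : v ∈ c1.p) (hv2 : v ∈ c2.p)
    (hb1 : ∀ b ∈ c1.b, 0 < ori b v) (ht1 : ∀ t ∈ c1.t, ori t v < 0)
    (hb2 : ∀ b ∈ c2.b, 0 < ori b v) (ht2 : ∀ t ∈ c2.t, ori t v < 0) :
    ∃ z, z ∈ reg eps c1 ∧ z ∈ reg eps c2 := by
  have h1 := (tendsto_ray v 1).eventually (near_right hc1.shape hv1 hb1 ht1)
  have h2 := (tendsto_ray v 1).eventually (near_right hc2.shape hv2 hb2 ht2)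
  obtain ⟨h, h3, h4, h5⟩ := (h1.and (h2.and ev_pos)).exists
  have h6 : X eps v < X eps (v + h • (1 : ℂ)) := by
    rw [X_add, X_smul, X_one]; linarith
  exact ⟨_, h3 h6, h4 h6⟩

end SFA
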