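import Pool.Agent.Lib.SFA.Chg1
import Pool.Agent.Lib.SFA.Chg2
import Pool.Agent.Lib.SFA.Chg3
import Pool.Agent.Lib.SFA.Uniq

/-!
# SFA.CardTF: the number of cells of the face is at most twice the number of darts plus one (L6)

`TF eps R x` = cells of the face.  Finite: bottom, top are `none` or in `R`, walls `none` or critical
(`finite_crit`).
Cells with `c.p = none`: there is at most one.  `spans` gives `c.b = c.t = none`, so `reg c` is the
half plane `X z < X q` or everything; two such half planes meet, `valid_unique`.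
For the other cells define an injection into `(darts R F) x Bool`:
* type 1, `v in c.p` is on the bottom `b` (`ori b v = 0`): `c ↦ ((v,w), true)` with `w` from `chg1`;
* type 2, not type 1, `v` is on the top: `c ↦ ((w,v), false)` with `w` from `chg2`, `X v < X w`;
* type 3, otherwise (`pb` gives the strict inequalities): `c ↦ ((w,v), false)` from `chg3`, `X w < X v`.
Injective: same image with `true`: both type 1, same `v`, same `w`: `uniq1`, `valid_unique`.
Same image `((a,v), false)`: if `X v < X a` both are of type 2: `uniq2`; if `X a < X v` both of type 3: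
`uniq3`; `valid_unique`.
So `ncard TF <= 1 + 2 * ncard darts` (`Set.ncard_le_ncard_of_injOn`, `Set.ncard_prod`).
-/

namespace SFA

open Set Filter Topology

namespace CardTFAux

theorem finite_darts {eps : ℝ} {R : Finset Seg} {x : ℂ} (hG : Gen eps R x) (F : Set ℂ) :
    (darts R F).Finite := by
  have h1 := finite_crit hG
  refine (h1.prod h1).subset ?_
  rintro ⟨u, w⟩ hd
  exact ⟨hd.1.2.1, hd.1.2.2.1⟩

theorem b_none {eps : ℝ} {c : Cell} (hs : Shape eps c) (hp : c.p = none) : c.b = none := by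
  cases hb : c.b with
  | none => rfl
  | some b =>
    exfalso
    obtain ⟨⟨p, hp', _⟩, _⟩ := hs.bs b (by rw [hb]; rfl)
    rw [hp] at hp'
    simp at hp'

theorem t_none {eps : ℝ} {c : Cell} (hs : Shape eps c) (hp : c.p = none) : c.t = none := by
  cases hb : c.t with
  | none => rfl
  | some b =>
    exfalso
    obtain ⟨⟨p, hp', _⟩, _⟩ := hs.ts b (by rw [hb]; rfl)
    rw [hp] at hp'
    simp at hp'

theorem far {eps : ℝ} (c : Cell) : ∃ r : ℝ, ∀ q ∈ c.q, r ≤ X eps q := by
  cases hq : c.q with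
  | none => exact ⟨0, fun q hq' => by simp at hq'⟩
  | some q =>
    refine ⟨X eps q, fun q' hq' => ?_⟩
    simp only [Option.mem_def, Option.some.injEq] at hq'
    rw [hq']

theorem reg_of_none {eps : ℝ} {c : Cell} (hs : Shape eps c) (hp : c.p = none) {z : ℂ}
    (hz : ∀ q ∈ c.q, X eps z < X eps q) : z ∈ reg eps c := by
  refine ⟨⟨?_, hz⟩, ?_, ?_⟩
  · intro p hp'
    rw [hp] at hp'
    simp at hp'
  · intro b hb
    rw [b_none hs hp] at hb
    simp at hb
  · intro b hb
    rw [t_none hs hp] at hb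
    simp at hb

theorem none_unique {eps : ℝ} {R : Finset Seg} {x : ℂ} (hG : Gen eps R x) {c c' : Cell}
    (hc : Valid eps R c) (hc' : Valid eps R c') (hp : c.p = none) (hp' : c'.p = none) :
    c = c' := by
  obtain ⟨r, hr⟩ := far (eps := eps) c
  obtain ⟨r', hr'⟩ := far (eps := eps) c'
  have h1 : min r r' - 1 < r := by have := min_le_left r r'; linarith
  have h2 : min r r' - 1 < r' := by have := min_le_right r r'; linarith
  refine valid_unique hG hc hc' (z := pt eps (min r r' - 1) 0)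
    (reg_of_none hc.shape hp ?_) (reg_of_none hc'.shape hp' ?_)
  · intro q hq
    rw [X_pt]
    exact lt_of_lt_of_le h1 (hr q hq)
  · intro q hq
    rw [X_pt]
    exact lt_of_lt_of_le h2 (hr' q hq)

/-- the charge relation -/
def Ch (eps : ℝ) (c : Cell) (d : (ℂ × ℂ) × Bool) : Prop :=
  (d.2 = true ∧ d.1.1 ∈ c.p ∧ X eps d.1.1 < X eps d.1.2 ∧
    ∃ b ∈ c.b, d.1.1 ∈ carrier b ∧ d.1.2 ∈ carrier b) ∨
  (d.2 = false ∧ d.1.2 ∈ c.p ∧ X eps d.1.2 < X eps d.1.1 ∧
    ∃ t ∈ c.t, d.1.2 ∈ carrier t ∧ d.1.1 ∈ carrier t) ∨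
  (d.2 = false ∧ d.1.2 ∈ c.p ∧ X eps d.1.1 < X eps d.1.2 ∧
    (∀ b ∈ c.b, 0 < ori b d.1.2) ∧ ∀ t ∈ c.t, ori t d.1.2 < 0)

theorem exists_ch {eps : ℝ} {R : Finset Seg} {x : ℂ} (hG : Gen eps R x) {c : Cell}
    (hc : InFace eps R x c) (hp : c.p ≠ none) :
    ∃ d : (ℂ × ℂ) × Bool, d.1 ∈ darts R (face R x) ∧ Ch eps c d := by
  obtain ⟨v, hv⟩ := Option.ne_none_iff_exists'.1 hp
  have hv' : v ∈ c.p := hv
  have hband := hc.1.shape.pb v hv'
  by_cases h1 : ∃ b ∈ c.b, ori b v = 0
  · obtain ⟨b, hb, hbv⟩ := h1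
    obtain ⟨w, hd, hw, h2, h3⟩ := chg1 hG hc hv' hb hbv
    exact ⟨((v, w), true), hd, Or.inl ⟨rfl, hv', hw, b, hb, h2, h3⟩⟩
  · by_cases h2 : ∃ t ∈ c.t, ori t v = 0
    · obtain ⟨t, ht', htv⟩ := h2
      obtain ⟨w, hd, hw, h3, h4⟩ := chg2 hG hc hv' ht' htv
      exact ⟨((w, v), false), hd, Or.inr (Or.inl ⟨rfl, hv', hw, t, ht', h3, h4⟩)⟩
    · have hb : ∀ b ∈ c.b, 0 < ori b v := by
        intro b hb
        refine lt_of_le_of_ne (hband.1 b hb) ?_
        intro he
        exact h1 ⟨b, hb, he.symm⟩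
      have ht' : ∀ t ∈ c.t, ori t v < 0 := by
        intro t ht'
        refine lt_of_le_of_ne (hband.2 t ht') ?_
        intro he
        exact h2 ⟨t, ht', he⟩
      obtain ⟨w, hd, hw⟩ := chg3 hG hc hv' hb ht'
      exact ⟨((w, v), false), hd, Or.inr (Or.inr ⟨rfl, hv', hw, hb, ht'⟩)⟩

theorem ch_inj {eps : ℝ} {R : Finset Seg} {x : ℂ} (hG : Gen eps R x) {c c' : Cell}
    (hc : Valid eps R c) (hc' : Valid eps R c') {d : (ℂ × ℂ) × Bool} (h : Ch eps c d)
    (h' : Ch eps c' d) : c = c' := by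
  rcases h with ⟨h1, h2, h3, b, hb, h4, h5⟩ | ⟨h1, h2, h3, b, hb, h4, h5⟩ | ⟨h1, h2, h3, h4, h5⟩ <;>
  rcases h' with ⟨k1, k2, k3, b', hb', k4, k5⟩ | ⟨k1, k2, k3, b', hb', k4, k5⟩ |
    ⟨k1, k2, k3, k4, k5⟩
  · obtain ⟨z, hz, hz'⟩ := uniq1 hG hc hc' h2 k2 hb hb' h4 h5 k4 k5 h3
    exact valid_unique hG hc hc' hz hz'
  · rw [h1] at k1; exact absurd k1 (by decide)
  · rw [h1] at k1; exact absurd k1 (by decide)
  · rw [h1] at k1; exact absurd k1 (by decide)
  · obtain ⟨z, hz, hz'⟩ := uniq2 hG hc hc' h2 k2 hb hb' h4 h5 k4 k5 h3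
    exact valid_unique hG hc hc' hz hz'
  · exact absurd h3 (not_lt.2 k3.le)
  · rw [h1] at k1; exact absurd k1 (by decide)
  · exact absurd h3 (not_lt.2 k3.le)
  · obtain ⟨z, hz, hz'⟩ := uniq3 hG hc hc' h2 k2 h4 h5 k4 k5
    exact valid_unique hG hc hc' hz hz'

end CardTFAux

open CardTFAux

theorem finite_TF {eps : ℝ} {R : Finset Seg} {x : ℂ} (hG : Gen eps R x) :
    (TF eps R x).Finite := by 
  have h1 := finite_crit hG
  have hS : (insert none (some '' (R : Set Seg)) : Set (Option Seg)).Finite :=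
    (R.finite_toSet.image _).insert _
  have hC : (insert none (some '' {v : ℂ | IsCrit R v}) : Set (Option ℂ)).Finite :=
    (h1.image _).insert _
  have hP := hS.prod (hS.prod (hC.prod hC))
  refine (hP.image (fun e : Option Seg × Option Seg × Option ℂ × Option ℂ =>
    (⟨e.1, e.2.1, e.2.2.1, e.2.2.2⟩ : Cell))).subset ?_
  rintro ⟨b, t, p, q⟩ hc
  have hd := hc.1.defd
  refine ⟨(b, t, p, q), ⟨?_, ?_, ?_, ?_⟩, rfl⟩
  · cases b with
    | none => exact Or.inl rfl
    | some b => exact Or.inr ⟨b, hd.bR b rfl, rfl⟩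
  · cases t with
    | none => exact Or.inl rfl
    | some t => exact Or.inr ⟨t, hd.tR t rfl, rfl⟩
  · cases p with
    | none => exact Or.inl rfl
    | some p => exact Or.inr ⟨p, hd.pC p rfl, rfl⟩
  · cases q with
    | none => exact Or.inl rfl
    | some q => exact Or.inr ⟨q, hd.qC q rfl, rfl⟩

theorem card_TF {eps : ℝ} {R : Finset Seg} {x : ℂ} (hG : Gen eps R x) :
    (TF eps R x).ncard ≤ 2 * (darts R (face R x)).ncard + 1 := by 
  classical
  have hfin := finite_TF hG
  have hdf := finite_darts hG (face R x)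
  have hsplit : TF eps R x ⊆ {c ∈ TF eps R x | c.p = none} ∪ {c ∈ TF eps R x | c.p ≠ none} := by
    intro c hc
    by_cases hp : c.p = none
    · exact Or.inl ⟨hc, hp⟩
    · exact Or.inr ⟨hc, hp⟩
  have hf1 : {c ∈ TF eps R x | c.p = none}.Finite := hfin.subset (fun c hc => hc.1)
  have hf2 : {c ∈ TF eps R x | c.p ≠ none}.Finite := hfin.subset (fun c hc => hc.1)
  have hA : {c ∈ TF eps R x | c.p = none}.ncard ≤ 1 := by
    rw [Set.ncard_le_one hf1]
    intro a ha b hb
    exact none_unique hG ha.1.1 hb.1.1 ha.2 hb.2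
  have hB : {c ∈ TF eps R x | c.p ≠ none}.ncard ≤ 2 * (darts R (face R x)).ncard := by
    have hex : ∀ c ∈ {c ∈ TF eps R x | c.p ≠ none}, ∃ d : (ℂ × ℂ) × Bool,
        d.1 ∈ darts R (face R x) ∧ Ch eps c d := fun c hc => exists_ch hG hc.1 hc.2
    choose! f hf using hex
    have h2 : {c ∈ TF eps R x | c.p ≠ none}.ncard ≤
        ((darts R (face R x)) ×ˢ (Set.univ : Set Bool)).ncard := by
      refine Set.ncard_le_ncard_of_injOn f ?_ ?_ (hdf.prod Set.finite_univ)
      · intro c hc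
        exact ⟨(hf c hc).1, Set.mem_univ _⟩
      · intro c hc c' hc' he
        have k1 := (hf c hc).2
        have k2 := (hf c' hc').2
        rw [← he] at k2
        exact ch_inj hG hc.1.1 hc'.1.1 k1 k2
    rw [Set.ncard_prod, Set.ncard_univ] at h2
    simp only [Nat.card_eq_fintype_card, Fintype.card_bool] at h2
    omega
  have hU := (Set.ncard_le_ncard hsplit (hf1.union hf2)).trans
    (Set.ncard_union_le _ _)
  omega

end SFA
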