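import Pool.Agent.Lib.SFA.PDefs
import Pool.Agent.Lib.SFA.CardTF

/-!
# SFA.BCount: counting with the invariant

`Inv.K`: `(s, l) in r.K` iff `s in S`, `l = lv s`, `i <= lv s`, `confl eps r.c s`; `Inv.Knd`: no repetition.
So `r.K.filter (level = i)` has as many elements as `{s in S : lv s = i, confl}` (map `s ↦ (s, lv s)`
is injective; `List.toFinset_card_of_nodup`), and `r.K.length <= cK`.
`sum_recs`: `Inv.nodup`, `Inv.mem`: `recs.map Rec.c` is a list without repetition of the elements of the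
finite set `TF` (`finite_TF (hG.mono (lev_subset ..))`): `finsum_mem_eq_finite_toFinset_sum` and
`List.sum_toFinset` (the image of the list).
-/

namespace SFA

open Classical

theorem newN_eq {eps : ℝ} {S : Finset Seg} {lv : Seg → ℕ} {x : ℂ} {i : ℕ} {recs : List Rec} (h : Inv eps S lv x i recs)
    {r : Rec} (hr : r ∈ recs) : newN i r = cN eps S lv i r.c := by
  unfold newN cN
  rw [← List.toFinset_card_of_nodup ((h.Knd r hr).filter _)]
  have h1 : (r.K.filter (fun k => decide (k.2 = i))).toFinset =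
      (S.filter (fun s => lv s = i ∧ confl eps r.c s)).image (fun s => (s, lv s)) := by
    ext ⟨s, l⟩
    rw [List.mem_toFinset, List.mem_filter, h.K r hr, Finset.mem_image]
    constructor
    · rintro ⟨⟨h1, h2, h3, h4⟩, h5⟩
      have h6 : l = i := of_decide_eq_true h5
      exact ⟨s, Finset.mem_filter.2 ⟨h1, by rw [← h2, h6], h4⟩, by rw [h2]⟩
    · rintro ⟨s', hs', he⟩
      obtain ⟨h1, h2, h3⟩ := Finset.mem_filter.1 hs'
      obtain ⟨rfl, rfl⟩ := Prod.mk.inj he
      exact ⟨⟨h1, rfl, h2.ge, h3⟩, decide_eq_true h2⟩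
  rw [h1, Finset.card_image_of_injective]
  intro a b hab
  exact (Prod.mk.inj hab).1

theorem K_length_le {eps : ℝ} {S : Finset Seg} {lv : Seg → ℕ} {x : ℂ} {i : ℕ} {recs : List Rec} (h : Inv eps S lv x i recs)
    {r : Rec} (hr : r ∈ recs) : r.K.length ≤ cK eps S r.c := by
  unfold cK
  rw [← List.toFinset_card_of_nodup (h.Knd r hr)]
  have h1 : r.K.toFinset ⊆ (S.filter (fun s => confl eps r.c s)).image (fun s => (s, lv s)) := by
    rintro ⟨s, l⟩ hs
    rw [List.mem_toFinset, h.K r hr] at hs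
    obtain ⟨h1, h2, h3, h4⟩ := hs
    exact Finset.mem_image.2 ⟨s, Finset.mem_filter.2 ⟨h1, h4⟩, by rw [h2]⟩
  exact (Finset.card_le_card h1).trans Finset.card_image_le

theorem BCountAux.toFinset_eq {eps : ℝ} {S : Finset Seg} {lv : Seg → ℕ} {x : ℂ} {i : ℕ}
    {recs : List Rec} (hG : Gen eps S x) (h : Inv eps S lv x i recs) :
    (recs.map Rec.c).toFinset = (finite_TF (hG.mono (lev_subset S lv i))).toFinset := by
  ext c
  rw [List.mem_toFinset, h.mem, Set.Finite.mem_toFinset]

theorem sum_recs {eps : ℝ} {S : Finset Seg} {lv : Seg → ℕ} {x : ℂ} {i : ℕ} {recs : List Rec} (hG : Gen eps S x)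
    (h : Inv eps S lv x i recs) (f : Cell → ℕ) :
    (recs.map (fun r => f r.c)).sum = ∑ᶠ c ∈ TF eps (lev S lv i) x, f c := by
  rw [finsum_mem_eq_finite_toFinset_sum f (finite_TF (hG.mono (lev_subset S lv i))),
    ← BCountAux.toFinset_eq hG h, List.sum_toFinset f h.nodup, List.map_map]
  rfl

theorem recs_length_eq {eps : ℝ} {S : Finset Seg} {lv : Seg → ℕ} {x : ℂ} {i : ℕ} {recs : List Rec} (hG : Gen eps S x)
    (h : Inv eps S lv x i recs) : recs.length = (TF eps (lev S lv i) x).ncard := by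
  rw [Set.ncard_eq_toFinset_card _ (finite_TF (hG.mono (lev_subset S lv i))),
    ← BCountAux.toFinset_eq hG h, List.toFinset_card_of_nodup h.nodup, List.length_map]

end SFA
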