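import Pool.Agent.Lib.SFA.Uniq

/-!
# SFA.Deg2: at most two right neighbours and at most two left neighbours

`same_top`: `c1, c2` valid, both start at `v`, same top `o`, `v` strictly below it.  Then `c1 = c2`:
both regions contain the points `w` slightly to the right of a suitable point: choose the point
`y` with `X y = X v` strictly between `v` and the top (`y.im = (v.im + ht t (X v))/2`, or `v.im + 1` if
there is no top); for `i = 1,2`: `y` is strictly above the bottom of `c_i` (`v` is in its band), strictly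
below the top, and `X y = X v < X q_i`: points slightly to the right of `y` are in both regions;
`valid_unique`.  `same_bottom`, and the two versions for cells ending at `v`: mirror images.
`adj_le_two`: the right neighbours of `c` are determined by the alternative (top or bottom) of
`adj`: so any set of valid right neighbours has at most two elements.  Same for left neighbours.
-/

namespace SFA

open Set Filter Topology

namespace Deg2Aux

/-- If the point `y` above or below the left wall point is strictly between bottom and top of two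
valid cells with this left wall, the cells agree. -/
theorem eq_right {eps : ℝ} {R : Finset Seg} {x : ℂ} (hG : Gen eps R x) {c1 c2 : Cell}
    (hc1 : Valid eps R c1) (hc2 : Valid eps R c2) {v y : ℂ} (hv1 : v ∈ c1.p) (hv2 : v ∈ c2.p)
    (hy : X eps y = X eps v)
    (hb1 : ∀ b ∈ c1.b, 0 < ori b y) (ht1 : ∀ t ∈ c1.t, ori t y < 0)
    (hb2 : ∀ b ∈ c2.b, 0 < ori b y) (ht2 : ∀ t ∈ c2.t, ori t y < 0) : c1 = c2 := by
  have key : ∀ c : Cell, Valid eps R c → v ∈ c.p → (∀ b ∈ c.b, 0 < ori b y) →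
      (∀ t ∈ c.t, ori t y < 0) →
      ∀ᶠ d : ℝ in 𝓝 0, 0 < d → y + (d : ℂ) ∈ reg eps c := by
    intro c hc hv hb htt
    have h2 := RegBAux.isOpen_opt c.q (fun q z => X eps z < X eps q)
      (fun q => isOpen_lt (continuous_X eps) continuous_const)
    have h3 := RegBAux.isOpen_opt c.b (fun b z => 0 < ori b z)
      (fun b => isOpen_lt continuous_const (continuous_ori b))
    have h4 := RegBAux.isOpen_opt c.t (fun t z => ori t z < 0)
      (fun t => isOpen_lt (continuous_ori t) continuous_const)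
    have hf : Continuous (fun d : ℝ => y + (d : ℂ)) := by fun_prop
    have hO := (h2.inter (h3.inter h4)).preimage hf
    have h0 : (0 : ℝ) ∈ (fun d : ℝ => y + (d : ℂ)) ⁻¹'
        ({z | ∀ q ∈ c.q, X eps z < X eps q} ∩
          ({z | ∀ b ∈ c.b, 0 < ori b z} ∩ {z | ∀ t ∈ c.t, ori t z < 0})) := by
      simp only [mem_preimage, Complex.ofReal_zero, add_zero]
      exact ⟨fun q hq => by rw [hy]; exact hc.shape.lt v hv q hq, hb, htt⟩
    filter_upwards [hO.mem_nhds h0] with d hd hdpos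
    obtain ⟨d2, d3, d4⟩ := hd
    refine ⟨⟨fun p hp => ?_, d2⟩, d3, d4⟩
    have : p = v := Option.mem_unique hp hv
    subst this
    have : X eps (y + (d : ℂ)) = X eps y + d := by
      simp [X]; ring
    rw [this, hy]
    linarith
  have hev := (key c1 hc1 hv1 hb1 ht1).and (key c2 hc2 hv2 hb2 ht2)
  have hev' : ∀ᶠ d : ℝ in 𝓝[>] 0, (0 < d → y + (d : ℂ) ∈ reg eps c1) ∧
      (0 < d → y + (d : ℂ) ∈ reg eps c2) := hev.filter_mono nhdsWithin_le_nhds
  have hpos : ∀ᶠ d : ℝ in 𝓝[>] 0, (0 : ℝ) < d := by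
    filter_upwards [self_mem_nhdsWithin] with d hd using hd
  obtain ⟨d, ⟨hd1, hd2⟩, hd⟩ := (hev'.and hpos).exists
  exact valid_unique hG hc1 hc2 (hd1 hd) (hd2 hd)

theorem eq_left {eps : ℝ} {R : Finset Seg} {x : ℂ} (hG : Gen eps R x) {c1 c2 : Cell}
    (hc1 : Valid eps R c1) (hc2 : Valid eps R c2) {v y : ℂ} (hv1 : v ∈ c1.q) (hv2 : v ∈ c2.q)
    (hy : X eps y = X eps v)
    (hb1 : ∀ b ∈ c1.b, 0 < ori b y) (ht1 : ∀ t ∈ c1.t, ori t y < 0)
    (hb2 : ∀ b ∈ c2.b, 0 < ori b y) (ht2 : ∀ t ∈ c2.t, ori t y < 0) : c1 = c2 := by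
  have key : ∀ c : Cell, Valid eps R c → v ∈ c.q → (∀ b ∈ c.b, 0 < ori b y) →
      (∀ t ∈ c.t, ori t y < 0) →
      ∀ᶠ d : ℝ in 𝓝 0, 0 < d → y - (d : ℂ) ∈ reg eps c := by
    intro c hc hv hb htt
    have h2 := RegBAux.isOpen_opt c.p (fun p z => X eps p < X eps z)
      (fun p => isOpen_lt continuous_const (continuous_X eps))
    have h3 := RegBAux.isOpen_opt c.b (fun b z => 0 < ori b z)
      (fun b => isOpen_lt continuous_const (continuous_ori b))
    have h4 := RegBAux.isOpen_opt c.t (fun t z => ori t z < 0)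
      (fun t => isOpen_lt (continuous_ori t) continuous_const)
    have hf : Continuous (fun d : ℝ => y - (d : ℂ)) := by fun_prop
    have hO := (h2.inter (h3.inter h4)).preimage hf
    have h0 : (0 : ℝ) ∈ (fun d : ℝ => y - (d : ℂ)) ⁻¹'
        ({z | ∀ p ∈ c.p, X eps p < X eps z} ∩
          ({z | ∀ b ∈ c.b, 0 < ori b z} ∩ {z | ∀ t ∈ c.t, ori t z < 0})) := by
      simp only [mem_preimage, Complex.ofReal_zero, sub_zero]
      exact ⟨fun p hp => by rw [hy]; exact hc.shape.lt p hp v hv, hb, htt⟩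
    filter_upwards [hO.mem_nhds h0] with d hd hdpos
    obtain ⟨d2, d3, d4⟩ := hd
    refine ⟨⟨d2, fun q hq => ?_⟩, d3, d4⟩
    have : q = v := Option.mem_unique hq hv
    subst this
    have : X eps (y - (d : ℂ)) = X eps y - d := by
      simp [X]; ring
    rw [this, hy]
    linarith
  have hev := (key c1 hc1 hv1 hb1 ht1).and (key c2 hc2 hv2 hb2 ht2)
  have hev' : ∀ᶠ d : ℝ in 𝓝[>] 0, (0 < d → y - (d : ℂ) ∈ reg eps c1) ∧
      (0 < d → y - (d : ℂ) ∈ reg eps c2) := hev.filter_mono nhdsWithin_le_nhds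
  have hpos : ∀ᶠ d : ℝ in 𝓝[>] 0, (0 : ℝ) < d := by
    filter_upwards [self_mem_nhdsWithin] with d hd using hd
  obtain ⟨d, ⟨hd1, hd2⟩, hd⟩ := (hev'.and hpos).exists
  exact valid_unique hG hc1 hc2 (hd1 hd) (hd2 hd)

/-- A point straight above `v`, strictly below the top. -/
theorem above {eps : ℝ} {R : Finset Seg} {x : ℂ} (hG : Gen eps R x) (o : Option Seg)
    (hR : ∀ t ∈ o, t ∈ R) {v : ℂ} (hs : ∀ t ∈ o, ori t v < 0) :
    ∃ y : ℂ, X eps y = X eps v ∧ v.im < y.im ∧ ∀ t ∈ o, ori t y < 0 := by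
  cases o with
  | none =>
    refine ⟨pt eps (X eps v) (v.im + 1), by simp, by simp, by simp⟩
  | some t =>
    have htR : t ∈ R := hR t rfl
    have h1 : v.im < ht eps t (X eps v) := (ori_neg_iff (hG.inc t htR) v).1 (hs t rfl)
    refine ⟨pt eps (X eps v) ((v.im + ht eps t (X eps v)) / 2), by simp, by simp; linarith, ?_⟩
    intro t' ht'
    have : t' = t := by simpa using ht'.symm
    subst this
    rw [ori_neg_iff (hG.inc t' htR)]
    simp only [X_pt, pt_im]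
    linarith

/-- A point straight below `v`, strictly above the bottom. -/
theorem below {eps : ℝ} {R : Finset Seg} {x : ℂ} (hG : Gen eps R x) (o : Option Seg)
    (hR : ∀ t ∈ o, t ∈ R) {v : ℂ} (hs : ∀ t ∈ o, 0 < ori t v) :
    ∃ y : ℂ, X eps y = X eps v ∧ y.im < v.im ∧ ∀ t ∈ o, 0 < ori t y := by
  cases o with
  | none =>
    refine ⟨pt eps (X eps v) (v.im - 1), by simp, by simp, by simp⟩
  | some t =>
    have htR : t ∈ R := hR t rfl
    have h1 : ht eps t (X eps v) < v.im := (ori_pos_iff (hG.inc t htR) v).1 (hs t rfl)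
    refine ⟨pt eps (X eps v) ((v.im + ht eps t (X eps v)) / 2), by simp, by simp; linarith, ?_⟩
    intro t' ht'
    have : t' = t := by simpa using ht'.symm
    subst this
    rw [ori_pos_iff (hG.inc t' htR)]
    simp only [X_pt, pt_im]
    linarith

theorem bot_of_above {eps : ℝ} {R : Finset Seg} {x : ℂ} (hG : Gen eps R x) {c : Cell}
    (hc : Valid eps R c) {v y : ℂ} (hv : inBand c v) (hy : X eps y = X eps v)
    (h : v.im < y.im) : ∀ b ∈ c.b, 0 < ori b y := by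
  intro b hb
  have hi := hG.inc b (hc.defd.bR b hb)
  have h1 := (ori_nonneg_iff hi v).1 (hv.1 b hb)
  rw [ori_pos_iff hi, hy]
  linarith

theorem top_of_below {eps : ℝ} {R : Finset Seg} {x : ℂ} (hG : Gen eps R x) {c : Cell}
    (hc : Valid eps R c) {v y : ℂ} (hv : inBand c v) (hy : X eps y = X eps v)
    (h : y.im < v.im) : ∀ t ∈ c.t, ori t y < 0 := by
  intro t htt
  have hi := hG.inc t (hc.defd.tR t htt)
  have h1 := (ori_nonpos_iff hi v).1 (hv.2 t htt)
  rw [ori_neg_iff hi, hy]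
  linarith

end Deg2Aux

open Deg2Aux

theorem same_top_right {eps : ℝ} {R : Finset Seg} {x : ℂ} (hG : Gen eps R x) {c1 c2 : Cell}
    (hc1 : Valid eps R c1) (hc2 : Valid eps R c2) {v : ℂ} (hv1 : v ∈ c1.p) (hv2 : v ∈ c2.p)
    (h : c1.t = c2.t) (hs : ∀ t ∈ c1.t, ori t v < 0) : c1 = c2 := by
  obtain ⟨y, hy1, hy2, hy3⟩ := above hG c1.t hc1.defd.tR hs
  exact eq_right hG hc1 hc2 hv1 hv2 hy1
    (bot_of_above hG hc1 (hc1.shape.pb v hv1) hy1 hy2) hy3
    (bot_of_above hG hc2 (hc2.shape.pb v hv2) hy1 hy2) (h ▸ hy3)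

theorem same_bottom_right {eps : ℝ} {R : Finset Seg} {x : ℂ} (hG : Gen eps R x)
    {c1 c2 : Cell} (hc1 : Valid eps R c1) (hc2 : Valid eps R c2) {v : ℂ} (hv1 : v ∈ c1.p)
    (hv2 : v ∈ c2.p) (h : c1.b = c2.b) (hs : ∀ b ∈ c1.b, 0 < ori b v) : c1 = c2 := by
  obtain ⟨y, hy1, hy2, hy3⟩ := below hG c1.b hc1.defd.bR hs
  exact eq_right hG hc1 hc2 hv1 hv2 hy1
    hy3 (top_of_below hG hc1 (hc1.shape.pb v hv1) hy1 hy2)
    (h ▸ hy3) (top_of_below hG hc2 (hc2.shape.pb v hv2) hy1 hy2)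

theorem same_top_left {eps : ℝ} {R : Finset Seg} {x : ℂ} (hG : Gen eps R x) {c1 c2 : Cell}
    (hc1 : Valid eps R c1) (hc2 : Valid eps R c2) {v : ℂ} (hv1 : v ∈ c1.q) (hv2 : v ∈ c2.q)
    (h : c1.t = c2.t) (hs : ∀ t ∈ c1.t, ori t v < 0) : c1 = c2 := by
  obtain ⟨y, hy1, hy2, hy3⟩ := above hG c1.t hc1.defd.tR hs
  exact eq_left hG hc1 hc2 hv1 hv2 hy1
    (bot_of_above hG hc1 (hc1.shape.qb v hv1) hy1 hy2) hy3
    (bot_of_above hG hc2 (hc2.shape.qb v hv2) hy1 hy2) (h ▸ hy3)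

theorem same_bottom_left {eps : ℝ} {R : Finset Seg} {x : ℂ} (hG : Gen eps R x)
    {c1 c2 : Cell} (hc1 : Valid eps R c1) (hc2 : Valid eps R c2) {v : ℂ} (hv1 : v ∈ c1.q)
    (hv2 : v ∈ c2.q) (h : c1.b = c2.b) (hs : ∀ b ∈ c1.b, 0 < ori b v) : c1 = c2 := by
  obtain ⟨y, hy1, hy2, hy3⟩ := below hG c1.b hc1.defd.bR hs
  exact eq_left hG hc1 hc2 hv1 hv2 hy1
    hy3 (top_of_below hG hc1 (hc1.shape.qb v hv1) hy1 hy2)
    (h ▸ hy3) (top_of_below hG hc2 (hc2.shape.qb v hv2) hy1 hy2)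

namespace Deg2Aux

/-- The four kinds of neighbours. -/
def Kind (c d : Cell) (k : Fin 4) : Prop :=
  (k = 0 ∧ ∃ v : ℂ, v ∈ c.q ∧ v ∈ d.p ∧ c.t = d.t ∧ ∀ t ∈ c.t, ori t v < 0) ∨
  (k = 1 ∧ ∃ v : ℂ, v ∈ c.q ∧ v ∈ d.p ∧ c.b = d.b ∧ ∀ b ∈ c.b, 0 < ori b v) ∨
  (k = 2 ∧ ∃ v : ℂ, v ∈ d.q ∧ v ∈ c.p ∧ d.t = c.t ∧ ∀ t ∈ d.t, ori t v < 0) ∨
  (k = 3 ∧ ∃ v : ℂ, v ∈ d.q ∧ v ∈ c.p ∧ d.b = c.b ∧ ∀ b ∈ d.b, 0 < ori b v)

theorem exists_kind {c d : Cell} (h : nbr c d) : ∃ k, Kind c d k := by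
  rcases h with ⟨v, h1, h2, h3 | h3⟩ | ⟨v, h1, h2, h3 | h3⟩
  · exact ⟨0, Or.inl ⟨rfl, v, h1, h2, h3.1, h3.2⟩⟩
  · exact ⟨1, Or.inr (Or.inl ⟨rfl, v, h1, h2, h3.1, h3.2⟩)⟩
  · exact ⟨2, Or.inr (Or.inr (Or.inl ⟨rfl, v, h1, h2, h3.1, h3.2⟩))⟩
  · exact ⟨3, Or.inr (Or.inr (Or.inr ⟨rfl, v, h1, h2, h3.1, h3.2⟩))⟩

theorem kind_unique {eps : ℝ} {R : Finset Seg} {x : ℂ} (hG : Gen eps R x) {c d d' : Cell}
    (hd : Valid eps R d) (hd' : Valid eps R d') {k : Fin 4} (h : Kind c d k)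
    (h' : Kind c d' k) : d = d' := by
  rcases h with ⟨rfl, v, h1, h2, h3, h4⟩ | ⟨rfl, v, h1, h2, h3, h4⟩ | ⟨rfl, v, h1, h2, h3, h4⟩ |
    ⟨rfl, v, h1, h2, h3, h4⟩
  · rcases h' with ⟨_, w, k1, k2, k3, k4⟩ | ⟨h0, _⟩ | ⟨h0, _⟩ | ⟨h0, _⟩
    · have : v = w := Option.mem_unique h1 k1
      subst this
      exact same_top_right hG hd hd' h2 k2 (h3.symm.trans k3) (h3 ▸ h4)
    all_goals exact absurd h0 (by decide)
  · rcases h' with ⟨h0, _⟩ | ⟨_, w, k1, k2, k3, k4⟩ | ⟨h0, _⟩ | ⟨h0, _⟩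
    · exact absurd h0 (by decide)
    · have : v = w := Option.mem_unique h1 k1
      subst this
      exact same_bottom_right hG hd hd' h2 k2 (h3.symm.trans k3) (h3 ▸ h4)
    all_goals exact absurd h0 (by decide)
  · rcases h' with ⟨h0, _⟩ | ⟨h0, _⟩ | ⟨_, w, k1, k2, k3, k4⟩ | ⟨h0, _⟩
    · exact absurd h0 (by decide)
    · exact absurd h0 (by decide)
    · have : v = w := Option.mem_unique h2 k2
      subst this
      exact same_top_left hG hd hd' h1 k1 (h3.trans k3.symm) h4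
    all_goals exact absurd h0 (by decide)
  · rcases h' with ⟨h0, _⟩ | ⟨h0, _⟩ | ⟨h0, _⟩ | ⟨_, w, k1, k2, k3, k4⟩
    · exact absurd h0 (by decide)
    · exact absurd h0 (by decide)
    · exact absurd h0 (by decide)
    · have : v = w := Option.mem_unique h2 k2
      subst this
      exact same_bottom_left hG hd hd' h1 k1 (h3.trans k3.symm) h4

end Deg2Aux

theorem nbr_le_four {eps : ℝ} {R : Finset Seg} {x : ℂ} (hG : Gen eps R x) {c : Cell}
    (hc : Valid eps R c) (l : List Cell) (hl : l.Nodup)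
    (h : ∀ d ∈ l, Valid eps R d ∧ nbr c d) : l.length ≤ 4 := by
  classical
  by_contra hcon
  push Not at hcon
  have hk : ∀ d : Cell, ∃ k : Fin 4, d ∈ l → Kind c d k := by
    intro d
    by_cases hd : d ∈ l
    · obtain ⟨k, hk⟩ := exists_kind (h d hd).2
      exact ⟨k, fun _ => hk⟩
    · exact ⟨0, fun h0 => absurd h0 hd⟩
  choose f hf using hk
  have hcard : (Finset.univ : Finset (Fin 4)).card < l.toFinset.card := by
    rw [List.toFinset_card_of_nodup hl]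
    simpa using hcon
  obtain ⟨d, hd, d', hd', hne, he⟩ := Finset.exists_ne_map_eq_of_card_lt_of_maps_to hcard
    (f := f) (fun d _ => Finset.mem_coe.2 (Finset.mem_univ _))
  have hdl : d ∈ l := List.mem_toFinset.1 hd
  have hdl' : d' ∈ l := List.mem_toFinset.1 hd'
  exact hne (kind_unique hG (h d hdl).1 (h d' hdl').1 (hf d hdl) (he ▸ hf d' hdl'))

end SFA
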