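import Pool.Agent.Lib.SFA.G2Defs
import Pool.Agent.Lib.SFA.Deg2
import Pool.Agent.Lib.SFA.RWalk

/-!
# SFA.BDeg: at most two right and two left neighbours

Let `c = recs[r].c` (valid for `lev S lv i` by `Inv.mem`).
* `nb_length_le`: the elements `j` of `r.nb` are different (`Inv.nbnd`) and satisfy `adj c recs[j].c`
  (`Inv.nb`); different `j` have different cells (`Inv.nodup`).  `adj` has two alternatives: same top
  (then `recs[j].c` is determined by `same_top_right`) or same bottom (`same_bottom_right`); so among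
  three different `j` two have the same cell: contradiction.
* `indeg_le`: the indices `r` with `j in recs[r].nb`: at most two (`same_top_left`,
  `same_bottom_left`).
* `degB_le`: `leftNb recs` = buckets of the pairs `(j, r)` with `j in recs[r].nb`; the `j`-th bucket
  contains each such `r` once, so its length is the number of such `r` (`indeg_le`).
-/

namespace SFA

open Classical

namespace BDegAux

theorem len_le_two {α : Type} {l : List α} (hnd : l.Nodup) (P Q : α → Prop)
    (h : ∀ j ∈ l, P j ∨ Q j) (hP : ∀ j ∈ l, ∀ k ∈ l, P j → P k → j = k)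
    (hQ : ∀ j ∈ l, ∀ k ∈ l, Q j → Q k → j = k) : l.length ≤ 2 := by
  rw [← List.toFinset_card_of_nodup hnd]
  have : l.toFinset.card ≤ (Finset.univ : Finset Bool).card := by
    refine Finset.card_le_card_of_injOn (fun j => decide (P j)) (fun _ _ => Finset.mem_coe.2 (Finset.mem_univ _)) ?_
    intro j hj k hk hjk
    have hj' : j ∈ l := by simpa using hj
    have hk' : k ∈ l := by simpa using hk
    have hjk' : P j ↔ P k := by simpa using hjk
    by_cases hp : P j
    · exact hP j hj' k hk' hp (hjk'.1 hp)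
    · have hq : Q j := (h j hj').resolve_left hp
      have hp' : ¬ P k := fun h0 => hp (hjk'.2 h0)
      exact hQ j hj' k hk' hq ((h k hk').resolve_left hp')
  simpa using this

theorem kind_of_adj {c d : Cell} (h : adj c d) :
    Deg2Aux.Kind c d 0 ∨ Deg2Aux.Kind c d 1 := by
  obtain ⟨v, h1, h2, h3 | h3⟩ := h
  · exact Or.inl (Or.inl ⟨rfl, v, h1, h2, h3.1, h3.2⟩)
  · exact Or.inr (Or.inr (Or.inl ⟨rfl, v, h1, h2, h3.1, h3.2⟩))

theorem kind_of_adj' {c d : Cell} (h : adj d c) :
    Deg2Aux.Kind c d 2 ∨ Deg2Aux.Kind c d 3 := by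
  obtain ⟨v, h1, h2, h3 | h3⟩ := h
  · exact Or.inl (Or.inr (Or.inr (Or.inl ⟨rfl, v, h1, h2, h3.1, h3.2⟩)))
  · exact Or.inr (Or.inr (Or.inr (Or.inr ⟨rfl, v, h1, h2, h3.1, h3.2⟩)))

theorem valid_rec {eps : ℝ} {S : Finset Seg} {lv : Seg → ℕ} {x : ℂ} {i : ℕ} {recs : List Rec}
    (h : Inv eps S lv x i recs) {r : Rec} (hr : r ∈ recs) :
    Valid eps (lev S lv i) r.c :=
  ((h.mem r.c).1 (List.mem_map.2 ⟨r, hr, rfl⟩)).1

theorem filter_flatMap_length (L : List (Rec × ℕ)) (j : ℕ) (hL : ∀ r ∈ L, r.1.nb.Nodup) :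
    ((L.flatMap (fun r => r.1.nb.map (fun j => (j, r.2)))).filter
      (fun p => decide (p.1 = j))).length =
      (L.filter (fun r => decide (j ∈ r.1.nb))).length := by
  induction L with
  | nil => rfl
  | cons a L ih =>
    have ih' := ih (fun r hr => hL r (List.mem_cons_of_mem _ hr))
    rw [List.flatMap_cons, List.filter_append, List.length_append, ih']
    have h1 : ((a.1.nb.map (fun j => (j, a.2))).filter (fun p => decide (p.1 = j))).length =
        a.1.nb.count j := by
      rw [← List.countP_eq_length_filter, List.countP_map, List.count]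
      refine List.countP_congr (fun x _ => ?_)
      simp
    rw [h1, List.Nodup.count (hL a List.mem_cons_self)]
    by_cases hj : j ∈ a.1.nb
    · rw [List.filter_cons_of_pos (by simpa using hj), if_pos hj, List.length_cons]
      omega
    · rw [List.filter_cons_of_neg (by simpa using hj), if_neg hj]
      omega

theorem zipIdx_filter_length (recs : List Rec) (j : ℕ) :
    (recs.zipIdx.filter (fun r => decide (j ∈ r.1.nb))).length =
      (recs.filter (fun r => decide (j ∈ r.nb))).length := by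
  rw [← List.countP_eq_length_filter, ← List.countP_eq_length_filter]
  conv_rhs => rw [← List.zipIdx_map_fst 0 recs, List.countP_map]
  rfl

theorem foldr_max_le (l : List ℕ) (K : ℕ) (h : ∀ x ∈ l, x ≤ K) : l.foldr max 0 ≤ K := by
  induction l with
  | nil => simp
  | cons a l ih =>
    rw [List.foldr_cons]
    exact max_le (h a List.mem_cons_self) (ih (fun x hx => h x (List.mem_cons_of_mem _ hx)))

end BDegAux

open BDegAux

theorem nb_length_le {eps : ℝ} {S : Finset Seg} {lv : Seg → ℕ} {x : ℂ} {i : ℕ} {recs : List Rec} (hG : Gen eps S x)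
    (h : Inv eps S lv x i recs) {r : Rec} (hr : r ∈ recs) : r.nb.length ≤ 2 := by
  have hG' := hG.mono (lev_subset S lv i)
  have key : ∀ k : Fin 4, ∀ j j' : ℕ, (∃ h : j < recs.length, Deg2Aux.Kind r.c (recs[j]).c k) →
      (∃ h : j' < recs.length, Deg2Aux.Kind r.c (recs[j']).c k) → j = j' := by
    rintro k j j' ⟨h1, h2⟩ ⟨h3, h4⟩
    have h5 := Deg2Aux.kind_unique hG' (valid_rec h (List.getElem_mem h1))
      (valid_rec h (List.getElem_mem h3)) h2 h4
    have h6 := h.nodup
    have h7 : (recs.map Rec.c)[j]'(by simpa using h1) = (recs.map Rec.c)[j']'(by simpa using h3) := by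
      simpa using h5
    exact (h6.getElem_inj_iff).1 h7
  refine len_le_two (h.nbnd r hr)
    (fun j => ∃ h : j < recs.length, Deg2Aux.Kind r.c (recs[j]).c 0)
    (fun j => ∃ h : j < recs.length, Deg2Aux.Kind r.c (recs[j]).c 1) ?_
    (fun j _ k _ => key 0 j k) (fun j _ k _ => key 1 j k)
  intro j hj
  obtain ⟨hj1, hj2⟩ := (h.nb r hr j).1 hj
  rcases kind_of_adj hj2 with h0 | h0
  · exact Or.inl ⟨hj1, h0⟩
  · exact Or.inr ⟨hj1, h0⟩

theorem indeg_le {eps : ℝ} {S : Finset Seg} {lv : Seg → ℕ} {x : ℂ} {i : ℕ} {recs : List Rec} (hG : Gen eps S x)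
    (h : Inv eps S lv x i recs) (j : ℕ) (hj : j < recs.length) :
    (recs.filter (fun r => decide (j ∈ r.nb))).length ≤ 2 := by
  have hG' := hG.mono (lev_subset S lv i)
  have hmem : ∀ r, r ∈ recs.filter (fun r => decide (j ∈ r.nb)) → r ∈ recs ∧ j ∈ r.nb := by
    intro r hr
    rw [List.mem_filter] at hr
    exact ⟨hr.1, of_decide_eq_true hr.2⟩
  have key : ∀ k : Fin 4, ∀ r ∈ recs.filter (fun r => decide (j ∈ r.nb)),
      ∀ r' ∈ recs.filter (fun r => decide (j ∈ r.nb)),
      Deg2Aux.Kind (recs[j]).c r.c k → Deg2Aux.Kind (recs[j]).c r'.c k → r = r' := by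
    intro k r hr r' hr' h1 h2
    have h5 := Deg2Aux.kind_unique hG' (valid_rec h (hmem r hr).1) (valid_rec h (hmem r' hr').1) h1 h2
    exact List.inj_on_of_nodup_map h.nodup (hmem r hr).1 (hmem r' hr').1 h5
  refine len_le_two ((List.Nodup.of_map _ h.nodup).filter _)
    (fun r => Deg2Aux.Kind (recs[j]).c r.c 2) (fun r => Deg2Aux.Kind (recs[j]).c r.c 3) ?_
    (key 2) (key 3)
  intro r hr
  obtain ⟨_, hj2⟩ := (h.nb r (hmem r hr).1 j).1 (hmem r hr).2
  exact kind_of_adj' hj2

theorem degB_le {eps : ℝ} {S : Finset Seg} {lv : Seg → ℕ} {x : ℂ} {i : ℕ} {recs : List Rec} (hG : Gen eps S x)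
    (h : Inv eps S lv x i recs) : degB recs ≤ 2 := by
  unfold degB
  refine foldr_max_le _ _ ?_
  intro y hy
  rw [List.mem_append] at hy
  rcases hy with hy | hy
  · obtain ⟨l, hl, rfl⟩ := List.mem_map.1 hy
    unfold leftNb bucketL at hl
    obtain ⟨j, hj, rfl⟩ := List.mem_map.1 hl
    rw [List.mem_range] at hj
    rw [List.length_map]
    have h1 := filter_flatMap_length recs.zipIdx j (fun r hr => by
      obtain ⟨a, k⟩ := r
      exact h.nbnd a (List.fst_mem_of_mem_zipIdx hr))
    have h2 := zipIdx_filter_length recs j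
    have h3 := indeg_le hG h j hj
    have h4 := h1.trans h2
    exact h4.le.trans h3
  · obtain ⟨r, hr, rfl⟩ := List.mem_map.1 hy
    exact nb_length_le hG h hr

end SFA
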