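import Pool.Agent.Lib.P7m.Reach
import Pool.Agent.Lib.SFA.RoundDefs

/-!
# SFA.RGenB: RC version of reachB

`P7m.reach und [r]` is the list of the reachable vertices (`mem_reach`).  Mark them: the Boolean list
of length `und.length` is obtained with `RC.lookups` for the association list
`reach.map (fun j => (j, true))` and the indices `List.range und.length`, then `isSome`.
`reachB und r` decides `ReflTransGen (fun a b => b in und.getD a []) r j` for `j < und.length`.
Equivalence with `mem_reach`: all intermediate vertices of such a path are `< und.length`, since
`und.getD a [] = []` for `a >= und.length` (so a path that leaves the range stops there, and its end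
`j` is in the range); in particular `r < und.length`.  The length of the list of reachable
vertices is at most `und.length` (`reach_nodup`, all of them `< und.length`).
-/

namespace SFA

open P7m Classical

namespace RGenBAux

theorem path_iff (und : List (List ℕ)) (r j : ℕ) (hj : j < und.length) :
    j ∈ P7m.reach und [r] ↔ Relation.ReflTransGen (fun a b => b ∈ und.getD a []) r j := by
  rw [mem_reach]
  constructor
  · rintro ⟨x, hx, _, hp⟩
    rw [List.mem_singleton] at hx
    subst hx
    refine Relation.ReflTransGen.mono ?_ _ _ hp
    rintro a b ⟨_, nb, hnb, hb⟩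
    change b ∈ und.getD a []
    rw [List.getD_eq_getElem?_getD, hnb]
    exact hb
  · intro hp
    have key : ∀ k, Relation.ReflTransGen (fun a b => b ∈ und.getD a []) r k → k < und.length →
        r < und.length ∧ Relation.ReflTransGen (fun i j => j < und.length ∧
          ∃ nb, und[i]? = Option.some nb ∧ j ∈ nb) r k := by
      intro k hk
      induction hk with
      | refl => intro h; exact ⟨h, Relation.ReflTransGen.refl⟩
      | tail _ hbc ih =>
        rename_i b c _
        intro hc
        have hb : b < und.length := by
          by_contra hge
          rw [List.getD_eq_getElem?_getD, List.getElem?_eq_none (not_lt.1 hge)] at hbc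
          exact absurd hbc (by simp)
        obtain ⟨h1, h2⟩ := ih hb
        refine ⟨h1, h2.tail ⟨hc, und[b], List.getElem?_eq_getElem hb, ?_⟩⟩
        rw [List.getD_eq_getElem?_getD, List.getElem?_eq_getElem hb] at hbc
        exact hbc
    obtain ⟨h1, h2⟩ := key j hp hj
    exact ⟨r, List.mem_singleton.2 rfl, h1, h2⟩

theorem lookup_isSome (L : List ℕ) (j : ℕ) :
    ((L.map (fun j => (j, true))).lookup j).isSome = true ↔ j ∈ L := by
  induction L with
  | nil => simp
  | cons x t ih =>
    rw [List.map_cons, List.lookup_cons, List.mem_cons]
    by_cases h : j = x
    · subst h; simp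
    · have h' : (j == x) = false := by simpa using h
      rw [h']
      simp only [h, false_or]
      exact ih

theorem reach_length_le (und : List (List ℕ)) (r : ℕ) :
    (P7m.reach und [r]).length ≤ und.length := by
  have h1 : (P7m.reach und [r]).toFinset ⊆ Finset.range und.length := by
    intro i hi
    rw [List.mem_toFinset, mem_reach] at hi
    obtain ⟨x, _, hx, hp⟩ := hi
    rw [Finset.mem_range]
    rcases Relation.ReflTransGen.cases_tail hp with h | ⟨c, _, hc⟩
    · rw [h]; exact hx
    · exact hc.1
  have h2 := Finset.card_le_card h1
  rwa [List.toFinset_card_of_nodup (reach_nodup _ _), Finset.card_range] at h2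

theorem sum_succ (L : List (List ℕ)) :
    (L.map (fun l => l.length + 1)).sum = (L.map List.length).sum + L.length := by
  induction L with
  | nil => rfl
  | cons x t ih =>
    simp only [List.map_cons, List.sum_cons, List.length_cons, ih]
    omega

theorem reachB_eq (und : List (List ℕ)) (r : ℕ) :
    reachB und r = ((List.range und.length).map (fun i =>
      ((P7m.reach und [r]).map (fun j => (j, true))).lookup i)).map (fun o => o.isSome) := by
  unfold reachB
  rw [List.map_map]
  refine List.map_congr_left fun j hj => ?_
  rw [List.mem_range] at hj
  rw [Bool.eq_iff_iff, decide_eq_true_eq, ← path_iff und r j hj]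
  exact (lookup_isSome _ _).symm

end RGenBAux

open RGenBAux

theorem rc_reachB : RC (fun a : List (List ℕ) × ℕ => reachB a.1 a.2)
    (fun a => (a.1.map (fun l => l.length + 1)).sum) := by
  have h1 : RC (fun a : List (List ℕ) × ℕ => P7m.reach a.1 [a.2]) _ :=
    RC.reach (RC.fst RC.id) (RC.singleton (RC.snd RC.id))
  have h2 := RC.map (f := fun (_ : List (List ℕ) × ℕ) (j : ℕ) => (j, true)) h1
    (RC.pair (RC.snd RC.id) RC.const_true)
  have h3 := RC.range (RC.length (RC.fst (RC.id (A := List (List ℕ) × ℕ))))
  have h4 := RC.map (f := fun (_ : List (List ℕ) × ℕ) (o : Option Bool) => o.isSome)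
    (RC.lookups h2 h3) (RC.isSome (RC.snd RC.id))
  refine (h4.mono 10 (fun a => ?_)).congr (fun a => reachB_eq a.1 a.2)
  have e1 := reach_length_le a.1 a.2
  have e2 := sum_succ a.1
  simp only [List.length_map, List.length_range, List.map_const', List.sum_replicate,
    List.length_cons, List.length_nil, smul_eq_mul] at *
  omega

end SFA
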