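import Pool.Agent.Lib.P7m.Mem
import Pool.Agent.Lib.SFA.RoundDefs

/-!
# SFA.RGenC: RC version of pathsM

`pathsM nxt starts` repeats `pathStep nxt` `nxt.length + starts.length` times on the state
(remaining starts, current path reversed, finished paths).  With the list `nxt` loaded in the
memory (`RC.runWith`, `M = Option (Option N)`) one step costs O(1): `nxt.getD a none` is
`(m a).getD none` for the memory `m = fun i => nxt[i]?` (`RS.iterate` with a step that only reads
`RS.read`; the memory never changes).  Afterwards `(.. .map List.reverse).reverse`: the total length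
of the finished paths is at most the number of steps, so the cost is
`C (nxt.length + starts.length)`.
`pathsM_flatten_le`: every step adds at most one element to the current or finished paths (invariant:
cur.length + total length of finished paths <= number of steps done); `pathsM_length_le`: the number
of finished paths is at most the number of starts used.
-/

namespace SFA

open P7m Classical

namespace RGenCAux

/-- total length of the current and the finished paths -/
def tot (s : List ℕ × List ℕ × List (List ℕ)) : ℕ :=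
  s.2.1.length + (s.2.2.map List.length).sum

theorem tot_step (nxt : List (Option ℕ)) (s : List ℕ × List ℕ × List (List ℕ)) :
    tot (pathStep nxt s) ≤ tot s + 1 := by
  obtain ⟨st, cur, fin⟩ := s
  unfold pathStep tot
  cases cur with
  | nil =>
    cases st with
    | nil => simp
    | cons a rest => simp; omega
  | cons a cur =>
    simp only
    cases nxt.getD a none with
    | none => simp
    | some b => simp; omega

theorem tot_iter (nxt : List (Option ℕ)) (k : ℕ) (s : List ℕ × List ℕ × List (List ℕ)) :
    tot ((pathStep nxt)^[k] s) ≤ tot s + k := by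
  induction k generalizing s with
  | zero => simp
  | succ k ih =>
    rw [Function.iterate_succ_apply]
    have h1 := ih (pathStep nxt s)
    have h2 := tot_step nxt s
    omega

/-- number of paths begun or still to be begun -/
def cnt (s : List ℕ × List ℕ × List (List ℕ)) : ℕ :=
  s.1.length + min s.2.1.length 1 + s.2.2.length

theorem cnt_step (nxt : List (Option ℕ)) (s : List ℕ × List ℕ × List (List ℕ)) :
    cnt (pathStep nxt s) = cnt s := by
  obtain ⟨st, cur, fin⟩ := s
  unfold pathStep cnt
  cases cur with
  | nil =>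
    cases st with
    | nil => simp
    | cons a rest => simp
  | cons a cur =>
    simp only
    cases nxt.getD a none with
    | none => simp; omega
    | some b => simp

theorem cnt_iter (nxt : List (Option ℕ)) (k : ℕ) (s : List ℕ × List ℕ × List (List ℕ)) :
    cnt ((pathStep nxt)^[k] s) = cnt s := by
  induction k generalizing s with
  | zero => rfl
  | succ k ih =>
    rw [Function.iterate_succ_apply, ih, cnt_step]

/-- one step, reading the memory -/
noncomputable def stp (m : ℕ → Option (Option ℕ)) (s : List ℕ × List ℕ × List (List ℕ)) :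
    List ℕ × List ℕ × List (List ℕ) :=
  P7m.listElim s.2.1
    (P7m.listElim s.1 s (fun a rest => (rest, [a], s.2.2)))
    (fun a cur => ((m a).getD none).elim (s.1, [], (a :: cur) :: s.2.2)
      (fun b => (s.1, b :: a :: cur, s.2.2)))

theorem stp_eq (nxt : List (Option ℕ)) (s : List ℕ × List ℕ × List (List ℕ)) :
    stp (fun i => nxt[i]?) s = pathStep nxt s := by
  obtain ⟨st, cur, fin⟩ := s
  unfold stp pathStep
  cases cur with
  | nil => cases st <;> rfl
  | cons a cur =>
    simp only [P7m.listElim]
    rw [← List.getD_eq_getElem?_getD]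
    cases nxt.getD a none <;> rfl

abbrev Stt : Type := List ℕ × List ℕ × List (List ℕ)

theorem rs_stp {A : Type} [Enc A] :
    RS (fun (p : A × Stt) (m : ℕ → Option (Option ℕ)) => (stp m p.2, m)) (fun _ _ => 0) := by
  -- the case of an empty current path
  have h1 : RC (fun p : A × Stt => P7m.listElim p.2.1 p.2 (fun a rest => (rest, [a], p.2.2.2)))
      (fun _ => 0) := by
    have hs : RC (fun q : (A × Stt) × ℕ × List ℕ => (q.2.2, [q.2.1], q.1.2.2.2)) (fun _ => 0) := by
      refine (RC.pair (RC.snd (RC.snd RC.id)) (RC.pair (RC.singleton (RC.fst (RC.snd RC.id)))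
        (RC.snd (RC.snd (RC.snd (RC.fst RC.id)))))).of_le (fun _ => ?_)
      simp
    refine (RC.listElim (s := fun (p : A × Stt) (a : ℕ) (rest : List ℕ) =>
      (rest, [a], p.2.2.2)) (RC.fst (RC.snd RC.id)) (RC.snd RC.id) hs).of_le (fun p => ?_)
    cases p.2.1 <;> simp [P7m.listElim]
  -- the case of a nonempty current path
  have h2 : RS (fun (q : (A × Stt) × ℕ × List ℕ) (m : ℕ → Option (Option ℕ)) =>
      (((m q.2.1).getD none).elim (q.1.2.1, [], (q.2.1 :: q.2.2) :: q.1.2.2.2)
        (fun b => (q.1.2.1, b :: q.2.1 :: q.2.2, q.1.2.2.2)), m)) (fun _ _ => 0) := by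
    have hr : RS (fun (q : (A × Stt) × ℕ × List ℕ) (m : ℕ → Option (Option ℕ)) =>
        (m q.2.1, m)) (fun _ _ => 0) := RS.read (RC.fst (RC.snd RC.id))
    have hg : RC (fun (r : ((A × Stt) × ℕ × List ℕ) × Option (Option ℕ)) =>
        (r.2.getD none).elim (r.1.1.2.1, ([] : List ℕ), (r.1.2.1 :: r.1.2.2) :: r.1.1.2.2.2)
        (fun b => (r.1.1.2.1, b :: r.1.2.1 :: r.1.2.2, r.1.1.2.2.2))) (fun _ => 0) := by
      have g1 : RC (fun (r : ((A × Stt) × ℕ × List ℕ) × Option (Option ℕ)) =>
          r.2.getD none) (fun _ => 0) :=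
        (RC.getD (RC.snd RC.id) RC.none).of_le (fun _ => by simp)
      have g2 : RC (fun (r : ((A × Stt) × ℕ × List ℕ) × Option (Option ℕ)) =>
          (r.1.1.2.1, ([] : List ℕ), (r.1.2.1 :: r.1.2.2) :: r.1.1.2.2.2)) (fun _ => 0) := by
        refine (RC.pair (RC.fst (RC.snd (RC.fst (RC.fst RC.id)))) (RC.pair RC.nil
          (RC.cons (RC.cons (RC.fst (RC.snd (RC.fst RC.id))) (RC.snd (RC.snd (RC.fst RC.id))))
            (RC.snd (RC.snd (RC.snd (RC.fst (RC.fst RC.id)))))))).of_le (fun _ => ?_)
        simp
      have g3 : RC (fun (t : (((A × Stt) × ℕ × List ℕ) × Option (Option ℕ)) × ℕ) =>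
          (t.1.1.1.2.1, t.2 :: t.1.1.2.1 :: t.1.1.2.2, t.1.1.1.2.2.2)) (fun _ => 0) := by
        refine (RC.pair (RC.fst (RC.snd (RC.fst (RC.fst (RC.fst RC.id))))) (RC.pair
          (RC.cons (RC.snd RC.id) (RC.cons (RC.fst (RC.snd (RC.fst (RC.fst RC.id))))
            (RC.snd (RC.snd (RC.fst (RC.fst RC.id))))))
          (RC.snd (RC.snd (RC.snd (RC.fst (RC.fst (RC.fst RC.id)))))))).of_le (fun _ => ?_)
        simp
      refine (RC.optionElim (s := fun (r : ((A × Stt) × ℕ × List ℕ) × Option (Option ℕ)) (b : ℕ) =>
        (r.1.1.2.1, b :: r.1.2.1 :: r.1.2.2, r.1.1.2.2.2)) g1 g2 g3).of_le (fun r => ?_)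
      cases r.2.getD none <;> simp
    exact (RS.map (g := fun (q : (A × Stt) × ℕ × List ℕ) (o : Option (Option ℕ)) =>
      (o.getD none).elim (q.1.2.1, ([] : List ℕ), (q.2.1 :: q.2.2) :: q.1.2.2.2)
        (fun b => (q.1.2.1, b :: q.2.1 :: q.2.2, q.1.2.2.2))) hr hg).of_le
      (fun _ _ => by simp)
  have h3 := RS.listElim (M := Option (Option ℕ))
    (s := fun (p : A × Stt) (a : ℕ) (cur : List ℕ) (m : ℕ → Option (Option ℕ)) =>
      (((m a).getD none).elim (p.2.1, [], (a :: cur) :: p.2.2.2)
        (fun b => (p.2.1, b :: a :: cur, p.2.2.2)), m))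
    (l := fun p : A × Stt => p.2.2.1) (RC.fst (RC.snd (RC.snd RC.id))) (RS.pure h1) h2
  refine (h3.of_le (fun p m => ?_)).congr (fun p m => ?_)
  · cases p.2.2.1 <;> simp [P7m.listElim]
  · unfold stp
    cases p.2.2.1 <;> rfl

theorem iter_pair (m : ℕ → Option (Option ℕ)) (k : ℕ) (s : Stt) :
    (fun t : Stt × (ℕ → Option (Option ℕ)) => (stp t.2 t.1, t.2))^[k] (s, m) =
      ((stp m)^[k] s, m) := by
  induction k generalizing s with
  | zero => rfl
  | succ k ih => rw [Function.iterate_succ_apply, Function.iterate_succ_apply, ih]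

theorem sum_succ {X : Type} (f : X → ℕ) (l : List X) :
    (l.map (fun x => f x + 1)).sum = (l.map f).sum + l.length := by
  induction l with
  | nil => rfl
  | cons x l ih =>
    simp only [List.map_cons, List.sum_cons, List.length_cons, ih]
    omega

end RGenCAux

open RGenCAux

theorem pathsM_flatten_le (nxt : List (Option ℕ)) (starts : List ℕ) :
    ((pathsM nxt starts).map List.length).sum ≤ nxt.length + starts.length := by
  have h := tot_iter nxt (nxt.length + starts.length) (starts, [], [])
  unfold pathsM
  rw [List.map_reverse, List.sum_reverse, List.map_map]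
  have e : (List.length ∘ List.reverse : List ℕ → ℕ) = List.length := by
    funext l
    simp
  rw [e]
  unfold tot at h
  simp only [List.length_nil, List.map_nil, List.sum_nil] at h
  omega

theorem pathsM_length_le (nxt : List (Option ℕ)) (starts : List ℕ) :
    (pathsM nxt starts).length ≤ starts.length := by
  have h := cnt_iter nxt (nxt.length + starts.length) (starts, [], [])
  unfold pathsM
  rw [List.length_reverse, List.length_map]
  unfold cnt at h
  simp only [List.length_nil] at h
  omega

theorem rc_pathsM : RC (fun a : List (Option ℕ) × List ℕ => pathsM a.1 a.2)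
    (fun a => a.1.length + a.2.length) := by
  have hn : RC (fun a : List (Option ℕ) × List ℕ => a.1.length + a.2.length)
      (fun a => a.1.length + a.2.length) :=
    (RC.nadd (RC.length (RC.fst RC.id)) (RC.length (RC.snd RC.id))).of_le (fun _ => by simp)
  have hb : RC (fun a : List (Option ℕ) × List ℕ =>
      ((a.2, ([] : List ℕ), ([] : List (List ℕ))) : Stt)) (fun _ => 0) :=
    (RC.pair (RC.snd RC.id) (RC.pair RC.nil RC.nil)).of_le (fun _ => by simp)
  have hi := RS.iterate (f := fun (_ : List (Option ℕ) × List ℕ) (s : Stt)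
    (m : ℕ → Option (Option ℕ)) => (stp m s, m)) hn hb rs_stp
  have hw := RC.runWith (l := fun a : List (Option ℕ) × List ℕ => a.1) (RC.fst RC.id) hi
  have hr := RC.reverse (RC.map (f := fun (_ : List (Option ℕ) × List ℕ) (l : List ℕ) =>
    l.reverse) (RC.snd (RC.snd hw)) (RC.reverse (RC.snd RC.id)))
  have key : ∀ a : List (Option ℕ) × List ℕ,
      ((fun t : Stt × (ℕ → Option (Option ℕ)) => (stp t.2 t.1, t.2))^[a.1.length + a.2.length]
        ((a.2, [], []), fun i => a.1[i]?)).1 =
      (pathStep a.1)^[a.1.length + a.2.length] (a.2, [], []) := by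
    intro a
    rw [iter_pair]
    have : stp (fun i => a.1[i]?) = pathStep a.1 := funext (stp_eq a.1)
    rw [this]
  refine (hr.congr (fun a => ?_)).mono 8 (fun a => ?_)
  · rw [key]
    rfl
  · have h1 := iterCost_le_const (fun t : Stt × (ℕ → Option (Option ℕ)) => (stp t.2 t.1, t.2))
      (fun _ => 0) 0 (a.1.length + a.2.length) ((a.2, [], []), fun i => a.1[i]?)
      (fun _ => le_refl _)
    have h2 := tot_iter a.1 (a.1.length + a.2.length) (a.2, [], [])
    have h3 := cnt_iter a.1 (a.1.length + a.2.length) (a.2, [], [])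
    unfold tot at h2
    unfold cnt at h3
    simp only [List.length_nil, List.map_nil, List.sum_nil] at h2 h3
    rw [key]
    simp only [List.length_map, sum_succ, zero_add]
    omega

end SFA
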