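import Pool.Agent.Lib.SFA.Alg

/-!
# SFA.ScatL: `scatter`, `bucketL`, `undL`, `reachB`

Unfold; `List.getD` of `(List.range n).map f` at `i < n` is `f i`.  `mem_undL`: the pairs `(a, b)`, `(b, a)` for `b ∈ ra[a]`; `zipIdx` gives the pairs `(ra[a], a)`.
`scatter_zipIdx`: the pairs of `starts.zipIdx` are `(starts[j], j)`; exactly one has first component `k`.
-/

namespace SFA

namespace ScatLAux

theorem getD_map_range {β : Type} (n : ℕ) (f : ℕ → β) (d : β) {i : ℕ} (hi : i < n) :
    ((List.range n).map f).getD i d = f i := by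
  rw [List.getD_eq_getElem?_getD, List.getElem?_map, List.getElem?_range hi]
  rfl

theorem getLast_all {l : List ℕ} {j : ℕ} (h0 : l ≠ []) (h : ∀ x ∈ l, x = j) :
    l.getLast?.getD 0 = j := by
  rw [List.getLast?_eq_some_getLast h0]
  exact h _ (List.getLast_mem h0)

theorem mem_getD {ra : List (List ℕ)} {i b : ℕ} :
    b ∈ ra.getD i [] ↔ ∃ l, ra[i]? = some l ∧ b ∈ l := by
  rw [List.getD_eq_getElem?_getD]
  cases h : ra[i]? with
  | none => simp
  | some l => simp

end ScatLAux

open ScatLAux

theorem bucketL_length {α : Type} (n : ℕ) (l : List (ℕ × α)) : (bucketL n l).length = n := by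
  unfold bucketL
  rw [List.length_map, List.length_range]

theorem bucketL_getD {α : Type} {n : ℕ} {l : List (ℕ × α)} {i : ℕ} (hi : i < n) :
    (bucketL n l).getD i [] = (l.filter (fun p => p.1 = i)).map Prod.snd := by
  unfold bucketL
  rw [getD_map_range n _ [] hi]

theorem mem_bucketL {α : Type} {n : ℕ} {l : List (ℕ × α)} {i : ℕ} (hi : i < n) (b : α) :
    b ∈ (bucketL n l).getD i [] ↔ (i, b) ∈ l := by
  rw [bucketL_getD hi, List.mem_map]
  constructor
  · rintro ⟨⟨j, c⟩, hp, rfl⟩
    rw [List.mem_filter] at hp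
    obtain ⟨h1, h2⟩ := hp
    have h3 : j = i := of_decide_eq_true h2
    subst h3
    exact h1
  · intro h
    exact ⟨(i, b), List.mem_filter.2 ⟨h, decide_eq_true rfl⟩, rfl⟩

theorem scatter_zipIdx {n : ℕ} {starts : List ℕ} (hnd : starts.Nodup) {j k : ℕ}
    (hj : starts[j]? = some k) (hk : k < n) : (scatter 0 n starts.zipIdx).getD k 0 = j := by
  unfold scatter
  rw [getD_map_range n _ 0 hk]
  refine getLast_all ?_ ?_
  · intro h
    have h1 : j ∈ ((starts.zipIdx).filter (fun p => p.1 = k)).map Prod.snd := by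
      rw [List.mem_map]
      exact ⟨(k, j), List.mem_filter.2 ⟨List.mk_mem_zipIdx_iff_getElem?.2 hj, decide_eq_true rfl⟩, rfl⟩
    rw [h] at h1
    exact absurd h1 List.not_mem_nil
  · intro y hy
    rw [List.mem_map] at hy
    obtain ⟨⟨a, b⟩, hp, rfl⟩ := hy
    rw [List.mem_filter] at hp
    obtain ⟨h1, h2⟩ := hp
    have h3 : a = k := of_decide_eq_true h2
    subst h3
    have h4 := List.mk_mem_zipIdx_iff_getElem?.1 h1
    have h5 : j < starts.length := by
      by_contra h6
      rw [List.getElem?_eq_none (by omega)] at hj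
      exact absurd hj (by simp)
    have h6 : b < starts.length := by
      by_contra h7
      rw [List.getElem?_eq_none (by omega)] at h4
      exact absurd h4 (by simp)
    rw [List.getElem?_eq_getElem h5] at hj
    rw [List.getElem?_eq_getElem h6] at h4
    have h8 : starts[j] = starts[b] := by
      rw [Option.some_inj] at hj h4
      rw [hj, h4]
    exact ((hnd.getElem_inj_iff).1 h8).symm

theorem undL_length (ra : List (List ℕ)) : (undL ra).length = ra.length := by
  unfold undL
  rw [bucketL_length]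

theorem mem_undL {ra : List (List ℕ)} {a : ℕ} (ha : a < ra.length) (b : ℕ) :
    b ∈ (undL ra).getD a [] ↔ b ∈ ra.getD a [] ∨ (b < ra.length ∧ a ∈ ra.getD b []) := by
  unfold undL
  rw [mem_bucketL ha, List.mem_flatMap]
  constructor
  · rintro ⟨⟨l, i⟩, hp, hq⟩
    rw [List.mem_flatMap] at hq
    obtain ⟨c, hc, hab⟩ := hq
    have h1 := List.mk_mem_zipIdx_iff_getElem?.1 hp
    rw [List.mem_cons, List.mem_cons] at hab
    rcases hab with hab | hab | hab
    · obtain ⟨rfl, rfl⟩ := Prod.mk.inj hab
      exact Or.inl (mem_getD.2 ⟨l, h1, hc⟩)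
    · obtain ⟨rfl, rfl⟩ := Prod.mk.inj hab
      refine Or.inr ⟨?_, mem_getD.2 ⟨l, h1, hc⟩⟩
      by_contra h6
      rw [List.getElem?_eq_none (by omega)] at h1
      exact absurd h1 (by simp)
    · exact absurd hab List.not_mem_nil
  · rintro (h | ⟨_, h⟩)
    · obtain ⟨l, h1, h2⟩ := mem_getD.1 h
      refine ⟨(l, a), List.mk_mem_zipIdx_iff_getElem?.2 h1, ?_⟩
      rw [List.mem_flatMap]
      exact ⟨b, h2, List.mem_cons_self⟩
    · obtain ⟨l, h1, h2⟩ := mem_getD.1 h
      refine ⟨(l, b), List.mk_mem_zipIdx_iff_getElem?.2 h1, ?_⟩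
      rw [List.mem_flatMap]
      exact ⟨a, h2, List.mem_cons_of_mem _ List.mem_cons_self⟩

theorem reachB_length (und : List (List ℕ)) (r : ℕ) : (reachB und r).length = und.length := by
  unfold reachB
  rw [List.length_map, List.length_range]

theorem reachB_getD {und : List (List ℕ)} {r j : ℕ} (hj : j < und.length) :
    (reachB und r).getD j false = true ↔
      Relation.ReflTransGen (fun a b => b ∈ und.getD a []) r j := by
  unfold reachB
  classical
  rw [getD_map_range und.length _ false hj]
  constructor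
  · intro h
    exact of_decide_eq_true h
  · intro h
    exact decide_eq_true h

end SFA
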