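import Pool.Agent.Lib.SFA.RRoundA
import Pool.Agent.Lib.SFA.RGenB
import Pool.Agent.Lib.SFA.RGenC
import Pool.Agent.Lib.SFA.ScatL

/-!
# SFA.RRoundB: cost of a round, second part (search, chains)

* `rc_undL`: `RC.zipIdx`, `RC.flatMap`, `rc_bucketL`, `RC.length`; cost `C sum (l.length + 1)`.
  `undL_length` (in `ScatL`): `bucketL n _` has length `n`.  `undL_sum_le`: the lengths of the buckets with index
  `< n` add up to at most the number of pairs, which is twice the total length.
* `rc_rdRoot`: `rc_findIdx` with the constant time test `CT.regB`, cost `rdP.length`.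
* `rc_rdVis`: `rc_reachB` after `rc_undL`; `reachB und r` has length `und.length`.
* `rc_rdStarts`: zip, zipIdx, filter, map.  At most `rdP.length` elements.
* `rc_rdNxt`: zip, map with `CT.trueR`, `RC.head?`.  Length `rdP.length` (`rdRa_length`).
* `rc_rdCh`: `rc_pathsM`, cost `rdNxt.length + rdStarts.length <= 2 rdP.length`.
All costs are `<= C * cA` by `rdP_length_le`, `rdRa_sum_le` (use `RC.mono`).
-/

namespace SFA

open P7m Classical

namespace RRoundBAux

theorem filter_split {α : Type} (l : List (ℕ × α)) (n : ℕ) :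
    (l.filter (fun p => p.1 < n + 1)).length =
      (l.filter (fun p => p.1 < n)).length + (l.filter (fun p => p.1 = n)).length := by
  induction l with
  | nil => rfl
  | cons a t ih =>
    rcases Nat.lt_trichotomy a.1 n with h | h | h
    · rw [List.filter_cons_of_pos (by simpa using (by omega : a.1 < n + 1)),
        List.filter_cons_of_pos (by simpa using h),
        List.filter_cons_of_neg (by simpa using (by omega : ¬ a.1 = n))]
      simp only [List.length_cons]
      omega
    · rw [List.filter_cons_of_pos (by simpa using (by omega : a.1 < n + 1)),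
        List.filter_cons_of_neg (by simpa using (by omega : n ≤ a.1)),
        List.filter_cons_of_pos (by simpa using h)]
      simp only [List.length_cons]
      omega
    · rw [List.filter_cons_of_neg (by simpa using (by omega : n + 1 ≤ a.1)),
        List.filter_cons_of_neg (by simpa using (by omega : n ≤ a.1)),
        List.filter_cons_of_neg (by simpa using (by omega : ¬ a.1 = n))]
      omega

theorem bucketL_sum {α : Type} (n : ℕ) (l : List (ℕ × α)) :
    ((bucketL n l).map List.length).sum = (l.filter (fun p => p.1 < n)).length := by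
  induction n with
  | zero =>
    have : l.filter (fun p => p.1 < 0) = [] := by
      rw [List.filter_eq_nil_iff]
      intro a _
      simp
    rw [this]
    rfl
  | succ n ih =>
    rw [filter_split, ← ih]
    unfold bucketL
    rw [List.range_succ, List.map_append, List.map_append, List.sum_append]
    simp

theorem zipIdx_sum {α : Type} (l : List α) (g : α → ℕ) (k : ℕ) :
    ((l.zipIdx k).map (fun p => g p.1)).sum = (l.map g).sum := by
  have h : (l.zipIdx k).map (fun p => g p.1) = l.map g := by
    have h1 : ((l.zipIdx k).map Prod.fst).map g = l.map g := by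
      rw [List.zipIdx_map_fst]
    rw [← h1, List.map_map]
    rfl
  rw [h]

/-- the pairs -/
def prs (ra : List (List ℕ)) : List (ℕ × ℕ) :=
  ra.zipIdx.flatMap (fun p => p.1.flatMap (fun b => [(p.2, b), (b, p.2)]))

theorem inner_length (p : List ℕ × ℕ) :
    (p.1.flatMap (fun b => [(p.2, b), (b, p.2)])).length = 2 * p.1.length := by
  rw [List.length_flatMap]
  induction p.1 with
  | nil => rfl
  | cons x t ih =>
    simp only [List.map_cons, List.sum_cons, List.length_cons, List.length_nil] at ih ⊢
    omega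

theorem prs_length (ra : List (List ℕ)) : (prs ra).length = 2 * (ra.map List.length).sum := by
  unfold prs
  rw [List.length_flatMap]
  have h : (ra.zipIdx.map (fun p => (p.1.flatMap (fun b => [(p.2, b), (b, p.2)])).length)) =
      ra.zipIdx.map (fun p => 2 * p.1.length) :=
    List.map_congr_left (fun p _ => inner_length p)
  rw [h, zipIdx_sum ra (fun l => 2 * l.length) 0, List.sum_map_mul_left]

theorem sum_succ {α : Type} (L : List α) (f : α → ℕ) :
    (L.map (fun l => f l + 1)).sum = (L.map f).sum + L.length := by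
  induction L with
  | nil => rfl
  | cons x t ih =>
    simp only [List.map_cons, List.sum_cons, List.length_cons, ih]
    omega

theorem sum_const {α : Type} (L : List α) (c : ℕ) : (L.map (fun _ => c)).sum = c * L.length := by
  induction L with
  | nil => simp
  | cons x t ih =>
    rw [List.map_cons, List.sum_cons, ih, List.length_cons]
    ring

theorem rc_prs : RC (fun ra : List (List ℕ) => prs ra)
    (fun ra => (ra.map (fun l => l.length + 1)).sum) := by
  have hinner : RC (fun q : List (List ℕ) × (List ℕ × ℕ) =>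
      q.2.1.flatMap (fun b => [(q.2.2, b), (b, q.2.2)])) (fun q => 3 * q.2.1.length) := by
    have h := RC.flatMap (l := fun q : List (List ℕ) × (List ℕ × ℕ) => q.2.1)
      (f := fun (q : List (List ℕ) × (List ℕ × ℕ)) (b : ℕ) => [(q.2.2, b), (b, q.2.2)])
      (RC.fst (RC.snd RC.id))
      (RC.cons (RC.pair (RC.snd (RC.snd (RC.fst RC.id))) (RC.snd RC.id))
        (RC.cons (RC.pair (RC.snd RC.id) (RC.snd (RC.snd (RC.fst RC.id)))) RC.nil))
    refine h.of_le (fun q => ?_)
    simp only [List.length_cons, List.length_nil, zero_add, Nat.add_zero]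
    rw [sum_const]
  have h := RC.flatMap (l := fun ra : List (List ℕ) => ra.zipIdx 0)
    (f := fun (_ : List (List ℕ)) (p : List ℕ × ℕ) =>
      p.1.flatMap (fun b => [(p.2, b), (b, p.2)])) (RC.zipIdx RC.id (RC.const_nat 0)) hinner
  refine h.mono 10 (fun ra => ?_)
  have h1 : ((ra.zipIdx 0).map (fun x => 3 * x.1.length +
      (x.1.flatMap (fun b => [(x.2, b), (b, x.2)])).length + 1)).sum =
      5 * (ra.map List.length).sum + ra.length := by
    have h2 : ((ra.zipIdx 0).map (fun x => 3 * x.1.length +
      (x.1.flatMap (fun b => [(x.2, b), (b, x.2)])).length + 1)) =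
      (ra.zipIdx 0).map (fun x => 5 * x.1.length + 1) :=
      List.map_congr_left (fun p _ => by rw [inner_length]; omega)
    rw [h2, zipIdx_sum ra (fun l => 5 * l.length + 1) 0, sum_succ, List.sum_map_mul_left]
  try simp only
  rw [h1, sum_succ]
  omega

theorem undL_eq (ra : List (List ℕ)) : undL ra = bucketL ra.length (prs ra) := rfl

end RRoundBAux

open RRoundBAux

theorem undL_sum_le (ra : List (List ℕ)) :
    ((undL ra).map List.length).sum ≤ 2 * (ra.map List.length).sum := by
  rw [undL_eq, bucketL_sum, ← prs_length]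
  exact List.length_filter_le _ _

theorem rc_undL : RC (fun ra : List (List ℕ) => undL ra)
    (fun ra => (ra.map (fun l => l.length + 1)).sum) := by
  have h := RC.comp (f := fun ra : List (List ℕ) => (ra.length, prs ra)) (rc_bucketL (B := ℕ))
    (RC.pair (RC.length RC.id) rc_prs)
  refine (h.mono 10 (fun ra => ?_)).congr (fun ra => undL_eq ra)
  try simp only
  rw [prs_length, sum_succ]
  omega

theorem rdVis_length (i : ℕ) (x : ℂ) (recs : List Rec) :
    (rdVis i x recs).length = (rdP i recs).length := by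
  unfold rdVis
  rw [reachB_length, undL_length, rdRa_length]

theorem rdStarts_length_le (i : ℕ) (x : ℂ) (recs : List Rec) :
    (rdStarts i x recs).length ≤ (rdP i recs).length := by
  unfold rdStarts
  rw [List.length_map]
  refine (List.length_filter_le _ _).trans ?_
  rw [List.length_zipIdx, List.length_zip]
  exact min_le_left _ _

theorem rdNxt_length (i : ℕ) (recs : List Rec) :
    (rdNxt i recs).length = (rdP i recs).length := by
  unfold rdNxt
  rw [List.length_map, List.length_zip, rdRa_length, min_self]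

namespace RRoundBAux

theorem rc_P3 : RC (fun a : ℕ × ℂ × List Rec => rdP a.1 a.2.2) (fun a => cA a.1 a.2.2) :=
  (RC.comp (f := fun a : ℕ × ℂ × List Rec => (a.1, a.2.2)) rc_rdP
    (RC.pair (RC.fst RC.id) (RC.snd (RC.snd RC.id)))).of_le (fun a => by simp)

theorem rc_Ra3 : RC (fun a : ℕ × ℂ × List Rec => rdRa a.1 a.2.2) (fun a => cA a.1 a.2.2) :=
  (RC.comp (f := fun a : ℕ × ℂ × List Rec => (a.1, a.2.2)) rc_rdRa
    (RC.pair (RC.fst RC.id) (RC.snd (RC.snd RC.id)))).of_le (fun a => by simp)

theorem rc_root : RC (fun a : ℕ × ℂ × List Rec => rdRoot a.1 a.2.1 a.2.2)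
    (fun a => cA a.1 a.2.2) := by
  have h := rc_findIdx (l := fun a : ℕ × ℂ × List Rec => rdP a.1 a.2.2)
    (p := fun (a : ℕ × ℂ × List Rec) (d : Pc) => regB d.1 a.2.1) rc_P3
    (CT.regB (CT.fst (CT.snd CT.id)) (CT.fst (CT.snd (CT.fst CT.id))))
  refine (h.mono 30 (fun a => ?_)).congr (fun a => rfl)
  have h1 := rdP_length_le a.1 a.2.2
  have h2 : ((rdP a.1 a.2.2).map (fun _ => 0 + 1)).sum = 1 * (rdP a.1 a.2.2).length :=
    sum_const _ 1
  have h3 : cA a.1 a.2.2 + ((rdP a.1 a.2.2).map (fun _ => 0 + 1)).sum ≤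
      30 * (cA a.1 a.2.2 + 1) := by
    rw [h2]
    omega
  exact h3

theorem rc_und3 : RC (fun a : ℕ × ℂ × List Rec => undL (rdRa a.1 a.2.2))
    (fun a => cA a.1 a.2.2) := by
  have h := RC.comp (f := fun a : ℕ × ℂ × List Rec => rdRa a.1 a.2.2) rc_undL rc_Ra3
  refine h.mono 30 (fun a => ?_)
  have h1 := rdP_length_le a.1 a.2.2
  have h2 := rdRa_sum_le a.1 a.2.2
  have h3 := rdRa_length a.1 a.2.2
  try simp only
  rw [sum_succ]
  omega

theorem rc_vis : RC (fun a : ℕ × ℂ × List Rec => rdVis a.1 a.2.1 a.2.2)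
    (fun a => cA a.1 a.2.2) := by
  have h := RC.comp (f := fun a : ℕ × ℂ × List Rec => (undL (rdRa a.1 a.2.2), rdRoot a.1 a.2.1 a.2.2))
    rc_reachB (RC.pair rc_und3 rc_root)
  refine (h.mono 40 (fun a => ?_)).congr (fun a => rfl)
  have h1 := rdP_length_le a.1 a.2.2
  have h2 := rdRa_sum_le a.1 a.2.2
  have h3 := rdRa_length a.1 a.2.2
  have h4 := undL_sum_le (rdRa a.1 a.2.2)
  have h5 := undL_length (rdRa a.1 a.2.2)
  try simp only
  rw [sum_succ]
  omega

theorem rc_nxt3 : RC (fun a : ℕ × ℂ × List Rec => rdNxt a.1 a.2.2)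
    (fun a => cA a.1 a.2.2) := by
  have h := RC.map (f := fun (_ : ℕ × ℂ × List Rec) (b : Pc × List ℕ) =>
      if trueR b.1.1 then (none : Option ℕ) else b.2.head?) (RC.zip rc_P3 rc_Ra3)
    (RC.cond (CT.trueR (CT.fst (CT.fst (CT.snd CT.id)))) RC.none
      (RC.head? (RC.snd (RC.snd RC.id))))
  refine (h.mono 80 (fun a => ?_)).congr (fun a => rfl)
  have h1 := rdP_length_le a.1 a.2.2
  have h3 := rdRa_length a.1 a.2.2
  simp only [zero_add, ite_self]
  rw [sum_const, List.length_zip, h3, min_self]
  omega

end RRoundBAux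

theorem rc_rdStarts : RC (fun a : ℕ × ℂ × List Rec => rdStarts a.1 a.2.1 a.2.2)
    (fun a => cA a.1 a.2.2) := by
  have h1 := RC.zipIdx (RC.zip rc_P3 rc_vis) (RC.const_nat (A := ℕ × ℂ × List Rec) 0)
  have h2 := RC.filter (p := fun (_ : ℕ × ℂ × List Rec) (b : (Pc × Bool) × ℕ) =>
    b.1.2 && trueL b.1.1.1) h1
    (RC.and (RC.snd (RC.fst (RC.snd RC.id)))
      (CT.trueL (CT.fst (CT.fst (CT.fst (CT.snd CT.id))))))
  have h3 := RC.map (f := fun (_ : ℕ × ℂ × List Rec) (b : (Pc × Bool) × ℕ) => b.2) h2
    (RC.snd (RC.snd RC.id))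
  refine (h3.mono 200 (fun a => ?_)).congr (fun a => rfl)
  have e1 := rdP_length_le a.1 a.2.2
  have e2 := rdVis_length a.1 a.2.1 a.2.2
  have e3 : ((((rdP a.1 a.2.2).zip (rdVis a.1 a.2.1 a.2.2)).zipIdx 0).filter
      (fun b => b.1.2 && trueL b.1.1.1)).length ≤ (rdP a.1 a.2.2).length := by
    refine (List.length_filter_le _ _).trans ?_
    rw [List.length_zipIdx, List.length_zip]
    exact min_le_left _ _
  simp only [zero_add, Nat.add_zero]
  rw [sum_const, sum_const, List.length_zipIdx, List.length_zip, e2, min_self]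
  omega

theorem rc_rdCh : RC (fun a : ℕ × ℂ × List Rec => rdCh a.1 a.2.1 a.2.2)
    (fun a => cA a.1 a.2.2) := by
  have h := RC.comp (f := fun a : ℕ × ℂ × List Rec => (rdNxt a.1 a.2.2, rdStarts a.1 a.2.1 a.2.2))
    rc_pathsM (RC.pair rc_nxt3 rc_rdStarts)
  refine (h.mono 60 (fun a => ?_)).congr (fun a => rfl)
  have e1 := rdP_length_le a.1 a.2.2
  have e2 := rdNxt_length a.1 a.2.2
  have e3 := rdStarts_length_le a.1 a.2.1 a.2.2
  try simp only
  omega

theorem rdCh_sum_le (i : ℕ) (x : ℂ) (recs : List Rec) :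
    ((rdCh i x recs).map (fun l => l.length + 1)).sum ≤ 3 * (rdP i recs).length := by
  have e1 := pathsM_flatten_le (rdNxt i recs) (rdStarts i x recs)
  have e2 := pathsM_length_le (rdNxt i recs) (rdStarts i x recs)
  have e3 := rdNxt_length i recs
  have e4 := rdStarts_length_le i x recs
  have e5 : (rdCh i x recs) = pathsM (rdNxt i recs) (rdStarts i x recs) := rfl
  rw [e5, RRoundBAux.sum_succ]
  omega

end SFA
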