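import Pool.Agent.Lib.SFA.BCount
import Pool.Agent.Lib.SFA.BAdj
import Pool.Agent.Lib.SFA.BChain
import Pool.Agent.Lib.SFA.RRoundB

/-!
# SFA.BRound: the cost of a round in terms of the trapezoids

Let `A = newN i r + 1`, `k = r.K.length + 1`, `Sigma = sum over recs of A^12 k`.  The five terms of `roundCost`:
1. `sum (A^7 k + nb.length) <= 3 Sigma` (`nb_length_le`, `A^12 k >= 1`);
2. `second_le`, `splitR_length_le`: `((splitR).length + 1)^2 <= (25 A^6 + 1)^2 <= 676 A^12`: `<= 3380 Sigma`;
3. `rdCh_sum_le`, `rdP_length`: `<= 3 * 25 sum A^6 <= 75 Sigma`;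
4. `fourth_le`, `rdRa_sum_le`: `<= cA <= 3383 Sigma`;
5. `fifth_le`: `rdP` is the concatenation of the `splitR i r` (`numberL_flatten_snd` in NumL), every piece
   has `p.2.length <= r.K.length` (`splitR_K_le`): `<= sum 25 A^6 k <= 25 Sigma`.
Total at most `7000 Sigma`, and `Sigma <= stepSum 12` by `newN_eq`, `K_length_le`, `sum_recs`.
-/

namespace SFA

open Classical

namespace BRoundAux

theorem sum_le_mul {α : Type} (l : List α) (f g : α → ℕ) (C : ℕ) (h : ∀ r ∈ l, f r ≤ C * g r) :
    (l.map f).sum ≤ C * (l.map g).sum := by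
  induction l with
  | nil => simp
  | cons a t ih =>
    rw [List.map_cons, List.sum_cons, List.map_cons, List.sum_cons, Nat.mul_add]
    exact Nat.add_le_add (h a (by simp)) (ih fun r hr => h r (by simp [hr]))

theorem pw (A k : ℕ) (hA : 1 ≤ A) (hk : 1 ≤ k) {m : ℕ} (hm : m ≤ 12) :
    A ^ m ≤ A ^ 12 * k := by
  calc A ^ m ≤ A ^ 12 := Nat.pow_le_pow_right hA hm
    _ = A ^ 12 * 1 := (Nat.mul_one _).symm
    _ ≤ A ^ 12 * k := Nat.mul_le_mul_left _ hk

theorem rdP_eq (i : ℕ) (recs : List Rec) : rdP i recs = (recs.map (splitR i)).flatten := by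
  unfold rdP rdPL
  rw [numberL_flatten_snd]

theorem sum_flatten_map {α : Type} (ls : List (List α)) (f : α → ℕ) :
    (ls.flatten.map f).sum = (ls.map (fun l => (l.map f).sum)).sum := by
  induction ls with
  | nil => simp
  | cons a t ih =>
    rw [List.flatten_cons, List.map_append, List.sum_append, ih, List.map_cons, List.sum_cons]

theorem sum_const_le {α : Type} (l : List α) (f : α → ℕ) (k : ℕ) (h : ∀ p ∈ l, f p ≤ k) :
    (l.map f).sum ≤ l.length * k := by
  induction l with
  | nil => simp
  | cons a t ih =>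
    rw [List.map_cons, List.sum_cons, List.length_cons, Nat.add_mul, Nat.one_mul, Nat.add_comm]
    exact Nat.add_le_add (ih fun r hr => h r (by simp [hr])) (h a (by simp))

end BRoundAux

open BRoundAux in
theorem roundCost_le {eps : ℝ} {S : Finset Seg} {lv : Seg → ℕ} {x : ℂ} {i : ℕ} {recs : List Rec} (hG : Gen eps S x)
    (hL : LexOK eps S x) (h : Inv eps S lv x i recs) :
    roundCost i x recs ≤ 7000 * stepSum 12 eps S lv x i := by
  obtain ⟨Sg, hSg⟩ : ∃ Sg, Sg = (recs.map (fun r => (newN i r + 1) ^ 12 * (r.K.length + 1))).sum :=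
    ⟨_, rfl⟩
  have h0 : Sg ≤ stepSum 12 eps S lv x i := by
    unfold stepSum
    rw [← sum_recs hG h (fun c => (cN eps S lv i c + 1) ^ 12 * (cK eps S c + 1)), hSg]
    have := sum_le_mul recs (fun r => (newN i r + 1) ^ 12 * (r.K.length + 1))
      (fun r => (cN eps S lv i r.c + 1) ^ 12 * (cK eps S r.c + 1)) 1 (fun r hr => by
        rw [Nat.one_mul, newN_eq h hr]
        exact Nat.mul_le_mul_left _ (Nat.add_le_add_right (K_length_le h hr) 1))
    rw [Nat.one_mul] at this
    exact this
  have h1 : (recs.map (fun r => (newN i r + 1) ^ 7 * (r.K.length + 1) + r.nb.length)).sum ≤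
      3 * Sg := by
    rw [hSg]
    refine sum_le_mul recs _ _ 3 fun r hr => ?_
    have e1 := nb_length_le hG h hr
    have e2 : (newN i r + 1) ^ 7 * (r.K.length + 1) ≤ (newN i r + 1) ^ 12 * (r.K.length + 1) :=
      Nat.mul_le_mul_right _ (Nat.pow_le_pow_right (by omega) (by norm_num))
    have e3 : 1 ≤ (newN i r + 1) ^ 12 * (r.K.length + 1) := by
      have := pw (newN i r + 1) (r.K.length + 1) (by omega) (by omega) (Nat.zero_le 12)
      simpa using this
    omega
  have h2 : (((rdPL i recs).zip (rdNs i recs)).map (fun a =>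
      (a.1.length + 1) * (a.1.length + (a.2.map (fun l => l.length + 1)).sum + 1))).sum ≤
      3380 * Sg := by
    refine (second_le hG h).trans ?_
    have : (recs.map (fun r => ((splitR i r).length + 1) ^ 2)).sum ≤ 676 * Sg := by
      rw [hSg]
      refine sum_le_mul recs _ _ 676 fun r hr => ?_
      have e1 := splitR_length_le i r
      have e2 : 1 ≤ (newN i r + 1) ^ 6 := Nat.one_le_pow _ _ (by omega)
      calc ((splitR i r).length + 1) ^ 2 ≤ (26 * (newN i r + 1) ^ 6) ^ 2 :=
            Nat.pow_le_pow_left (by omega) 2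
        _ = 676 * (newN i r + 1) ^ 12 := by ring
        _ ≤ 676 * ((newN i r + 1) ^ 12 * (r.K.length + 1)) :=
            Nat.mul_le_mul_left _ (pw _ _ (by omega) (by omega) le_rfl)
    omega
  have h3 : ((rdCh i x recs).map (fun l => l.length + 1)).sum ≤ 75 * Sg := by
    refine (rdCh_sum_le i x recs).trans ?_
    rw [rdP_length]
    have : (recs.map (fun r => (splitR i r).length)).sum ≤ 25 * Sg := by
      rw [hSg]
      refine sum_le_mul recs _ _ 25 fun r hr => ?_
      refine (splitR_length_le i r).trans ?_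
      exact Nat.mul_le_mul_left _ (pw _ _ (by omega) (by omega) (by norm_num))
    omega
  have hcA : cA i recs ≤ 3383 * Sg := by
    unfold cA
    omega
  have h4 : ((rdCh i x recs).map (fun l => ((rdRa i recs).getD (l.getLastD 0) []).length)).sum ≤
      3383 * Sg := (fourth_le hG hL h).trans ((rdRa_sum_le i recs).trans hcA)
  have h5 : ((gather2 pc0 (rdP i recs) (rdCh i x recs)).map
      (fun l => (l.map (fun p => p.2.length + 1)).sum)).sum ≤ 25 * Sg := by
    refine (fifth_le hG hL h).trans ?_
    rw [rdP_eq, sum_flatten_map, List.map_map, hSg]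
    refine sum_le_mul recs _ _ 25 fun r hr => ?_
    have e1 : ((splitR i r).map (fun p => p.2.length + 1)).sum ≤
        (splitR i r).length * (r.K.length + 1) :=
      sum_const_le _ _ _ fun p hp => Nat.add_le_add_right (splitR_K_le i r p hp) 1
    refine e1.trans ?_
    calc (splitR i r).length * (r.K.length + 1)
        ≤ (25 * (newN i r + 1) ^ 6) * (r.K.length + 1) :=
          Nat.mul_le_mul_right _ (splitR_length_le i r)
      _ ≤ (25 * (newN i r + 1) ^ 12) * (r.K.length + 1) :=
          Nat.mul_le_mul_right _ (Nat.mul_le_mul_left _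
            (Nat.pow_le_pow_right (by omega) (by norm_num)))
      _ = 25 * ((newN i r + 1) ^ 12 * (r.K.length + 1)) := by ring
  unfold roundCost
  omega

end SFA
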