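import Pool.Agent.Lib.SFA.Defs

/-!
# SFA.Basic: coordinates `(X eps z, z.im)`, orientation, heights, carriers
-/

namespace SFA

/-- The point with sheared abscissa `c` and imaginary part `y`. -/
def pt (eps c y : ℝ) : ℂ := ⟨c - eps * y, y⟩

@[simp] theorem X_pt (eps c y : ℝ) : X eps (pt eps c y) = c := by
  simp [X, pt]

@[simp] theorem pt_im (eps c y : ℝ) : (pt eps c y).im = y := rfl

theorem pt_eta (eps : ℝ) (z : ℂ) : pt eps (X eps z) z.im = z := by
  apply Complex.ext
  · simp [X, pt]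
  · rfl

theorem ext_X {eps : ℝ} {u v : ℂ} (h : X eps u = X eps v) (h' : u.im = v.im) : u = v := by
  rw [← pt_eta eps u, ← pt_eta eps v, h, h']

theorem X_add (eps : ℝ) (u v : ℂ) : X eps (u + v) = X eps u + X eps v := by
  simp [X]; ring

theorem X_sub (eps : ℝ) (u v : ℂ) : X eps (u - v) = X eps u - X eps v := by
  simp [X]; ring

theorem X_smul (eps : ℝ) (r : ℝ) (u : ℂ) : X eps (r • u) = r * X eps u := by
  simp [X]; ring

theorem continuous_X (eps : ℝ) : Continuous (X eps) := by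
  unfold X; fun_prop

theorem continuous_cross (a : ℂ) : Continuous (cross a) := by
  unfold cross; fun_prop

theorem continuous_ori (s : Seg) : Continuous (ori s) := by
  unfold ori cross; fun_prop

theorem continuous_pt (eps : ℝ) : Continuous (fun w : ℝ × ℝ => pt eps w.1 w.2) := by
  have h : (fun w : ℝ × ℝ => pt eps w.1 w.2)
      = fun w : ℝ × ℝ => (((w.1 - eps * w.2 : ℝ) : ℂ) + ((w.2 : ℝ) : ℂ) * Complex.I) := by
    funext w
    apply Complex.ext <;> simp [pt]
  rw [h]
  fun_prop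

/-- The cross product in sheared coordinates. -/
theorem cross_eq (eps : ℝ) (a b : ℂ) : cross a b = X eps a * b.im - a.im * X eps b := by
  simp [cross, X]; ring

theorem ori_eq (eps : ℝ) (s : Seg) (z : ℂ) :
    ori s z = (X eps s.2 - X eps s.1) * (z.im - s.1.im)
      - (s.2.im - s.1.im) * (X eps z - X eps s.1) := by
  simp [ori, cross, X]; ring

/-- Convex combinations. -/
theorem X_comb (eps : ℝ) {a b : ℝ} (_hab : a + b = 1) (u v : ℂ) :
    X eps (a • u + b • v) = a * X eps u + b * X eps v := by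
  simp [X]; ring

theorem im_comb {a b : ℝ} (u v : ℂ) : (a • u + b • v).im = a * u.im + b * v.im := by
  simp

theorem ori_comb (s : Seg) {a b : ℝ} (hab : a + b = 1) (u v : ℂ) :
    ori s (a • u + b • v) = a * ori s u + b * ori s v := by
  have hb : b = 1 - a := by linarith
  subst hb
  simp [ori, cross]; ring

@[simp] theorem ori_left (s : Seg) : ori s s.1 = 0 := by simp [ori, cross]

@[simp] theorem ori_right (s : Seg) : ori s s.2 = 0 := by simp [ori, cross]; ring

/-- `ori` is the height difference times the width. -/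
theorem ori_ht {eps : ℝ} {s : Seg} (h : X eps s.1 < X eps s.2) (z : ℂ) :
    ori s z = (X eps s.2 - X eps s.1) * (z.im - ht eps s (X eps z)) := by
  have h0 : X eps s.2 - X eps s.1 ≠ 0 := by linarith
  rw [ori_eq eps, ht]
  field_simp
  ring

theorem ori_pos_iff {eps : ℝ} {s : Seg} (h : X eps s.1 < X eps s.2) (z : ℂ) :
    0 < ori s z ↔ ht eps s (X eps z) < z.im := by
  rw [ori_ht h]
  constructor
  · intro h1
    by_contra h2
    push Not at h2
    nlinarith
  · intro h1
    exact mul_pos (by linarith) (by linarith)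

theorem ori_neg_iff {eps : ℝ} {s : Seg} (h : X eps s.1 < X eps s.2) (z : ℂ) :
    ori s z < 0 ↔ z.im < ht eps s (X eps z) := by
  rw [ori_ht h]
  constructor
  · intro h1
    by_contra h2
    push Not at h2
    nlinarith
  · intro h1
    exact mul_neg_of_pos_of_neg (by linarith) (by linarith)

theorem ori_zero_iff {eps : ℝ} {s : Seg} (h : X eps s.1 < X eps s.2) (z : ℂ) :
    ori s z = 0 ↔ z.im = ht eps s (X eps z) := by
  rw [ori_ht h]
  constructor
  · intro h1
    rcases mul_eq_zero.1 h1 with h2 | h2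
    · linarith
    · linarith
  · intro h1
    rw [h1]; ring

theorem ori_nonneg_iff {eps : ℝ} {s : Seg} (h : X eps s.1 < X eps s.2) (z : ℂ) :
    0 ≤ ori s z ↔ ht eps s (X eps z) ≤ z.im := by
  rw [← not_lt, ori_neg_iff h, not_lt]

theorem ori_nonpos_iff {eps : ℝ} {s : Seg} (h : X eps s.1 < X eps s.2) (z : ℂ) :
    ori s z ≤ 0 ↔ z.im ≤ ht eps s (X eps z) := by
  rw [← not_lt, ori_pos_iff h, not_lt]

theorem continuous_ht (eps : ℝ) (s : Seg) : Continuous (ht eps s) := by
  unfold ht; fun_prop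

theorem ori_pt_ht {eps : ℝ} {s : Seg} (h : X eps s.1 < X eps s.2) (c : ℝ) :
    ori s (pt eps c (ht eps s c)) = 0 := by
  rw [ori_zero_iff h]; simp

/-- Membership in the carrier in sheared coordinates. -/
theorem mem_carrier_iff {eps : ℝ} {s : Seg} (h : X eps s.1 < X eps s.2) (z : ℂ) :
    z ∈ carrier s ↔ X eps s.1 ≤ X eps z ∧ X eps z ≤ X eps s.2 ∧ ori s z = 0 := by
  constructor
  · rintro ⟨a, b, ha, hb, hab, rfl⟩
    refine ⟨?_, ?_, ?_⟩
    · have hb' : a = 1 - b := by linarith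
      rw [X_comb eps hab, hb']; nlinarith
    · have hb' : b = 1 - a := by linarith
      rw [X_comb eps hab, hb']; nlinarith
    · rw [ori_comb s hab]; simp
  · rintro ⟨h1, h2, h3⟩
    have h0 : (0 : ℝ) < X eps s.2 - X eps s.1 := by linarith
    set l : ℝ := (X eps z - X eps s.1) / (X eps s.2 - X eps s.1) with hl
    have hl0 : 0 ≤ l := div_nonneg (by linarith) h0.le
    have hl1 : l ≤ 1 := by rw [hl, div_le_one h0]; linarith
    have hlm : l * (X eps s.2 - X eps s.1) = X eps z - X eps s.1 := by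
      rw [hl]; field_simp
    refine ⟨1 - l, l, by linarith, hl0, by ring, ?_⟩
    apply ext_X (eps := eps)
    · rw [X_comb eps (by ring)]
      nlinarith [hlm]
    · rw [im_comb]
      rw [ori_zero_iff h] at h3
      rw [h3, ht, ← hl]
      ring

theorem mem_carrier_iff' {eps : ℝ} {s : Seg} (h : X eps s.1 < X eps s.2) (z : ℂ) :
    z ∈ carrier s ↔ X eps s.1 ≤ X eps z ∧ X eps z ≤ X eps s.2 ∧ z.im = ht eps s (X eps z) := by
  rw [mem_carrier_iff h, ori_zero_iff h]

theorem pt_mem_carrier {eps : ℝ} {s : Seg} (h : X eps s.1 < X eps s.2) {c : ℝ}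
    (h1 : X eps s.1 ≤ c) (h2 : c ≤ X eps s.2) : pt eps c (ht eps s c) ∈ carrier s := by
  rw [mem_carrier_iff' h]; simp [h1, h2]

theorem left_mem_carrier (s : Seg) : s.1 ∈ carrier s := left_mem_segment ℝ _ _

theorem right_mem_carrier (s : Seg) : s.2 ∈ carrier s := right_mem_segment ℝ _ _

theorem isClosed_carrier (s : Seg) : IsClosed (carrier s) := by
  have h : IsCompact (carrier s) := by
    unfold carrier
    rw [segment_eq_image_lineMap]
    exact isCompact_Icc.image (by fun_prop)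
  exact h.isClosed

theorem isCompact_carrier (s : Seg) : IsCompact (carrier s) := by
  unfold carrier
  rw [segment_eq_image_lineMap]
  exact isCompact_Icc.image (by fun_prop)

theorem isClosed_U (R : Finset Seg) : IsClosed (U R) := by
  unfold U
  exact R.finite_toSet.isClosed_biUnion (fun s _ => isClosed_carrier s)

theorem mem_U {R : Finset Seg} {z : ℂ} : z ∈ U R ↔ ∃ s ∈ R, z ∈ carrier s := by
  simp [U]

theorem U_mono {R R' : Finset Seg} (h : R ⊆ R') : U R ⊆ U R' := by
  intro z hz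
  rw [mem_U] at hz ⊢
  obtain ⟨s, hs, hz⟩ := hz
  exact ⟨s, h hs, hz⟩

theorem face_anti {R R' : Finset Seg} (h : R ⊆ R') (x : ℂ) : face R' x ⊆ face R x := by
  unfold face
  exact connectedComponentIn_mono x (Set.compl_subset_compl.2 (U_mono h))

theorem IsCrit.mono {R R' : Finset Seg} (h : R ⊆ R') {v : ℂ} (hv : IsCrit R v) :
    IsCrit R' v := by
  rcases hv with ⟨s, hs, h1⟩ | ⟨s, hs, t, ht', h1, h2, h3⟩
  · exact Or.inl ⟨s, h hs, h1⟩
  · exact Or.inr ⟨s, h hs, t, h ht', h1, h2, h3⟩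

theorem IsCrit.mem_U {R : Finset Seg} {v : ℂ} (hv : IsCrit R v) : v ∈ U R := by
  rcases hv with ⟨s, hs, h1 | h1⟩ | ⟨s, hs, t, ht', h1, h2, h3⟩
  · exact SFA.mem_U.2 ⟨s, hs, h1 ▸ left_mem_carrier s⟩
  · exact SFA.mem_U.2 ⟨s, hs, h1 ▸ right_mem_carrier s⟩
  · exact SFA.mem_U.2 ⟨s, hs, h2⟩

theorem IsCrit.left {R : Finset Seg} {s : Seg} (hs : s ∈ R) : IsCrit R s.1 :=
  Or.inl ⟨s, hs, Or.inl rfl⟩

theorem IsCrit.right {R : Finset Seg} {s : Seg} (hs : s ∈ R) : IsCrit R s.2 :=
  Or.inl ⟨s, hs, Or.inr rfl⟩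

theorem IsCrit.inter {R : Finset Seg} {s t : Seg} (hs : s ∈ R) (ht' : t ∈ R) (hst : s ≠ t)
    {v : ℂ} (h1 : v ∈ carrier s) (h2 : v ∈ carrier t) : IsCrit R v :=
  Or.inr ⟨s, hs, t, ht', hst, h1, h2⟩

theorem Gen.mono {eps : ℝ} {S R : Finset Seg} {x : ℂ} (hG : Gen eps S x) (h : R ⊆ S) :
    Gen eps R x where
  inc := fun s hs => hG.inc s (h hs)
  one := fun s hs t ht' hst => hG.one s (h hs) t (h ht') hst
  inj := fun u v hu hv he => hG.inj u v (hu.mono h) (hv.mono h) he
  xfree := fun hx => hG.xfree (U_mono h hx)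
  xgen := fun u hu => hG.xgen u (hu.mono h)

/-- The set of critical points is finite. -/
theorem finite_crit {eps : ℝ} {R : Finset Seg} {x : ℂ} (hG : Gen eps R x) :
    {v : ℂ | IsCrit R v}.Finite := by
  classical
  have h1 : {v : ℂ | IsCrit R v} ⊆
      (⋃ s ∈ R, ({s.1, s.2} : Set ℂ)) ∪
      ⋃ s ∈ R, ⋃ t ∈ R, {v : ℂ | s ≠ t ∧ v ∈ carrier s ∧ v ∈ carrier t} := by
    intro v hv
    rcases hv with ⟨s, hs, h1⟩ | ⟨s, hs, t, ht', h1, h2, h3⟩
    · left
      simp only [Set.mem_iUnion]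
      exact ⟨s, hs, by simpa using h1⟩
    · right
      simp only [Set.mem_iUnion]
      exact ⟨s, hs, t, ht', h1, h2, h3⟩
  refine Set.Finite.subset (Set.Finite.union ?_ ?_) h1
  · exact R.finite_toSet.biUnion (fun s _ => Set.toFinite _)
  · refine R.finite_toSet.biUnion (fun s hs => R.finite_toSet.biUnion (fun t ht' => ?_))
    by_cases hst : s = t
    · have : {v : ℂ | s ≠ t ∧ v ∈ carrier s ∧ v ∈ carrier t} = ∅ := by
        ext v; simp [hst]
      rw [this]; exact Set.finite_empty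
    · refine Set.Finite.subset
        (Set.Subsingleton.finite (hG.one s (by simpa using hs) t (by simpa using ht') hst)) ?_
      rintro v ⟨_, h2, h3⟩
      exact ⟨h2, h3⟩

end SFA
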