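import Pool.Agent.Lib.SFA.WallTF

/-!
# SFA.ChainG: the pieces of one new cell, from left to right, and their conflicts

`PChain`: the list `l` of pieces (with conflict lists) of the cell `c'`: consecutive ones share a wall, the first starts at the left wall of `c'`, the last ends at the right wall of `c'`.
`mergeC_eq`: the first piece has the bottom and top of `c'` (`infC`) and the left wall of `c'`, the last one the right wall.
`chain_cover`: every point `w ∈ hreg c'` whose abscissa is not the abscissa of an inner wall (`d.q` of a piece that is not the last) is in `hreg` of a piece of `l` (`hreg_inf`; the slabs of the pieces between consecutive walls fill the slab of `c'`: induction on `l` starting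
from an arbitrary left wall).
`confl_chain`: let `s ∈ S`, `s ∉ R'`, conflict with `c'`: `w ∈ carrier s ∩ hreg c'`.  If `X w` is the abscissa of an inner wall `v` (artificial: `trueR d = false` since `X v < X c'.q` ..., so `¬ inBand d v`, `IsP.falseR`) then `w` is not on `c'.b`, `c'.t` (a common point of `s` with another segment of `S`
is critical, so it would be `v` by `Gen.inj`, but `v ∉` band), and `w` is not both endpoints of `s`: move along `s` a little to the left or to the right: the new point is in the open band and the slab of `c'` and not over a wall.  So `s` conflicts with a piece.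
Conversely a conflict with a piece is a conflict with `c'` (`hreg_inf`).
`confl_convex`: if `s` conflicts with the pieces number `i < k` then with all pieces between: the points `w_i, w_k` of `carrier s ∩ hreg c'` (a convex set, `convex_hreg`), a convex combination has its abscissa in the open slab of the piece number `j`.
-/

namespace SFA

open Set Filter Topology

/-- `l` is the list of the pieces of `c'` from left to right -/
structure PChain (eps : ℝ) (R R' : Finset Seg) (c' : Cell) (l : List Pc) : Prop where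
  ne : l ≠ []
  isP : ∀ a ∈ l, ∃ c, IsP eps R R' c c' a.1
  head : (l.headD pc0).1.p = c'.p
  last : (l.getLastD pc0).1.q = c'.q
  link : l.IsChain (fun a b => a.1.q = b.1.p ∧ trueR a.1 = false)

namespace ChainGAux

theorem headD_mem {l : List Pc} (h : l ≠ []) : l.headD pc0 ∈ l := by
  cases l with
  | nil => exact absurd rfl h
  | cons a l => simp

theorem getLastD_mem {l : List Pc} (h : l ≠ []) : l.getLastD pc0 ∈ l := by
  cases l with
  | nil => exact absurd rfl h
  | cons a l =>
    rw [List.getLastD_eq_getLast?, List.getLast?_eq_some_getLast (List.cons_ne_nil a l)]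
    exact List.getLast_mem _

theorem isP_b {eps : ℝ} {R R' : Finset Seg} {c c' d : Cell} (h : IsP eps R R' c c' d) :
    d.b = c'.b := by rw [h.eq]; rfl

theorem isP_t {eps : ℝ} {R R' : Finset Seg} {c c' d : Cell} (h : IsP eps R R' c c' d) :
    d.t = c'.t := by rw [h.eq]; rfl

theorem isP_hreg {eps : ℝ} {R R' : Finset Seg} {c c' d : Cell} (h : IsP eps R R' c c' d) {w : ℂ}
    (hw : w ∈ hreg eps d) : w ∈ hreg eps c' := by
  rw [h.eq, hreg_inf] at hw
  exact hw.2

theorem isP_hreg_of {eps : ℝ} {R R' : Finset Seg} {c c' d : Cell} (h : IsP eps R R' c c' d)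
    {w : ℂ} (h1 : inSlab eps d w) (h2 : inBand c' w) : w ∈ hreg eps d := by
  refine ⟨h1, ?_⟩
  unfold inBand
  rw [isP_b h, isP_t h]
  exact h2

/-- the walls of a piece are in order -/
theorem isP_lt {eps : ℝ} {S R R' : Finset Seg} {x : ℂ} (hG : Gen eps S x) (hR : R ⊆ R')
    (hR' : R' ⊆ S) {c c' d : Cell} (h : IsP eps R R' c c' d) {p q : ℂ} (hp : p ∈ d.p)
    (hq : q ∈ d.q) : X eps p < X eps q := by
  obtain ⟨z, hz⟩ := h.ne
  rw [← h.reg_eq hG hR hR'] at hz
  exact (hz.1.1 p hp).trans (hz.1.2 q hq)

/-- an abscissa that is not over an inner wall is in the slab of a piece -/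
theorem slab_cover (eps : ℝ) (w : ℂ) : ∀ l : List Pc, l ≠ [] →
    l.IsChain (fun a b => a.1.q = b.1.p ∧ trueR a.1 = false) →
    (∀ p ∈ (l.headD pc0).1.p, X eps p < X eps w) →
    (∀ q ∈ (l.getLastD pc0).1.q, X eps w < X eps q) →
    (∀ a ∈ l, trueR a.1 = false → ∀ v ∈ a.1.q, X eps v ≠ X eps w) →
    ∃ a ∈ l, inSlab eps a.1 w
  | [], h, _, _, _, _ => absurd rfl h
  | [a], _, _, h1, h2, _ => ⟨a, by simp, h1, h2⟩
  | a :: b :: l, _, hc, h1, h2, h3 => by
    rw [List.isChain_cons_cons] at hc
    by_cases hq : ∀ q ∈ a.1.q, X eps w < X eps q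
    · exact ⟨a, by simp, h1, hq⟩
    · push Not at hq
      obtain ⟨q, hq1, hq2⟩ := hq
      have hne := h3 a (by simp) hc.1.2 q hq1
      have hlt : X eps q < X eps w := lt_of_le_of_ne hq2 hne
      have hb : ∀ p ∈ ((b :: l).headD pc0).1.p, X eps p < X eps w := by
        intro p hp
        simp only [List.headD_cons] at hp
        rw [← hc.1.1] at hp
        have : q = p := Option.some.inj ((Option.mem_def.1 hq1).symm.trans (Option.mem_def.1 hp))
        rw [← this]
        exact hlt
      obtain ⟨d, hd, hsl⟩ := slab_cover eps w (b :: l) (List.cons_ne_nil _ _) hc.2 hb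
        (by simpa using h2) (fun a' ha' => h3 a' (List.mem_cons_of_mem _ ha'))
      exact ⟨d, List.mem_cons_of_mem _ hd, hsl⟩

theorem eventually_opt_lt {f : ℝ → ℝ} {x0 : ℝ} (hf : ContinuousAt f x0) {A : Type*}
    (o : Option A) (g : A → ℝ → ℝ) (hg : ∀ a ∈ o, ContinuousAt (g a) x0)
    (h : ∀ a ∈ o, f x0 < g a x0) : ∀ᶠ c in 𝓝 x0, ∀ a ∈ o, f c < g a c := by
  cases o with
  | none => simp
  | some a =>
    have h1 := (hf.eventually_lt (hg a rfl) (h a rfl))
    filter_upwards [h1] with c hc a' ha'
    rw [← Option.some.inj ha']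
    exact hc

theorem eventually_opt_lt' {f : ℝ → ℝ} {x0 : ℝ} (hf : ContinuousAt f x0) {A : Type*}
    (o : Option A) (g : A → ℝ → ℝ) (hg : ∀ a ∈ o, ContinuousAt (g a) x0)
    (h : ∀ a ∈ o, g a x0 < f x0) : ∀ᶠ c in 𝓝 x0, ∀ a ∈ o, g a c < f c := by
  cases o with
  | none => simp
  | some a =>
    have h1 := ((hg a rfl).eventually_lt hf (h a rfl))
    filter_upwards [h1] with c hc a' ha'
    rw [← Option.some.inj ha']
    exact hc

theorem q_of_false {d : Cell} (h : trueR d = false) : ∃ v, v ∈ d.q := by
  cases hq : d.q with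
  | none =>
    have : trueR d = true := by
      rw [trueR_iff]
      intro v hv
      rw [hq] at hv
      exact absurd hv (by simp)
    rw [this] at h
    exact absurd h (by simp)
  | some v => exact ⟨v, rfl⟩

end ChainGAux

open ChainGAux

theorem mergeC_eq {eps : ℝ} {R R' : Finset Seg} {c' : Cell} {l : List Pc}
    (h : PChain eps R R' c' l) : mergeC l = c' := by
  obtain ⟨c, hc⟩ := h.isP _ (headD_mem h.ne)
  unfold mergeC
  rw [isP_b hc, isP_t hc, h.head, h.last]

theorem confl_chain {eps : ℝ} {S R R' : Finset Seg} {x : ℂ} (hG : Gen eps S x) (hR : R ⊆ R')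
    (hR' : R' ⊆ S) {c' : Cell} {l : List Pc} (h : PChain eps R R' c' l) {s : Seg} (hs : s ∈ S)
    (hs' : s ∉ R') : confl eps c' s ↔ ∃ a ∈ l, confl eps a.1 s := by
  constructor
  · rintro ⟨hb, ht', w, hws, hwh⟩
    obtain ⟨c0, hc0⟩ := h.isP _ (headD_mem h.ne)
    have hv' : Valid eps R' c' := hc0.vc'
    have hinc := hG.inc s hs
    -- conclusion for a point which is not over an inner wall
    have key : ∀ w ∈ carrier s, w ∈ hreg eps c' →
        (∀ a ∈ l, trueR a.1 = false → ∀ v ∈ a.1.q, X eps v ≠ X eps w) →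
        ∃ a ∈ l, confl eps a.1 s := by
      intro w hws hwh hno
      obtain ⟨a, ha, hsl⟩ := slab_cover eps w l h.ne h.link
        (by rw [h.head]; exact hwh.1.1) (by rw [h.last]; exact hwh.1.2) hno
      obtain ⟨c, hc⟩ := h.isP a ha
      refine ⟨a, ha, ?_, ?_, w, hws, isP_hreg_of hc hsl hwh.2⟩
      · rw [isP_b hc]; exact hb
      · rw [isP_t hc]; exact ht'
    by_cases hno : ∀ a ∈ l, trueR a.1 = false → ∀ v ∈ a.1.q, X eps v ≠ X eps w
    · exact key w hws hwh hno
    · push Not at hno
      obtain ⟨a, ha, hfa, v, hv, hvw⟩ := hno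
      obtain ⟨c, hc⟩ := h.isP a ha
      obtain ⟨v', hv'1, _, hcr, hnb, _, _⟩ := hc.falseR hG hR hR' hfa
      have hvv : v' = v := Option.some.inj
        ((Option.mem_def.1 hv'1).symm.trans (Option.mem_def.1 hv))
      subst hvv
      have hcrS : IsCrit S v' := hcr.mono (hR.trans hR')
      have hnbw : ¬ IsCrit S w := by
        intro hcw
        have : v' = w := hG.inj v' w hcrS hcw hvw
        subst this
        apply hnb
        unfold inBand
        rw [isP_b hc, isP_t hc]
        exact hwh.2
      have hsx := (mem_carrier_iff hinc w).1 hws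
      have hl1 : X eps s.1 < X eps w := by
        refine lt_of_le_of_ne hsx.1 (fun he => hnbw ?_)
        have : s.1 = w := by
          apply ext_X he
          have h1 := (mem_carrier_iff' hinc w).1 hws
          have h2 := (mem_carrier_iff' hinc s.1).1 (left_mem_carrier s)
          rw [h1.2.2, h2.2.2, he]
        rw [← this]
        exact IsCrit.left hs
      have hl2 : X eps w < X eps s.2 := by
        refine lt_of_le_of_ne hsx.2.1 (fun he => hnbw ?_)
        have : w = s.2 := by
          apply ext_X he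
          have h1 := (mem_carrier_iff' hinc w).1 hws
          have h2 := (mem_carrier_iff' hinc s.2).1 (right_mem_carrier s)
          rw [h1.2.2, h2.2.2, he]
        rw [this]
        exact IsCrit.right hs
      have hwpt : pt eps (X eps w) (ht eps s (X eps w)) = w := by
        have h1 := (mem_carrier_iff' hinc w).1 hws
        rw [← h1.2.2]
        exact pt_eta eps w
      have hbpos : ∀ b ∈ c'.b, 0 < ori b w := by
        intro b hb'
        refine lt_of_le_of_ne (hwh.2.1 b hb') (fun he => hnbw ?_)
        have hbR : b ∈ R' := hv'.defd.bR b hb'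
        obtain ⟨⟨p, hp, hp1⟩, q, hq, hq1⟩ := hv'.shape.bs b hb'
        have hwb : w ∈ carrier b := by
          rw [mem_carrier_iff (hG.inc b (hR' hbR))]
          exact ⟨hp1.trans (hwh.1.1 p hp).le, (hwh.1.2 q hq).le.trans hq1, he.symm⟩
        refine IsCrit.inter hs (hR' hbR) ?_ hws hwb
        rintro rfl
        exact hs' hbR
      have htneg : ∀ t ∈ c'.t, ori t w < 0 := by
        intro t ht''
        refine lt_of_le_of_ne (hwh.2.2 t ht'') (fun he => hnbw ?_)
        have htR : t ∈ R' := hv'.defd.tR t ht''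
        obtain ⟨⟨p, hp, hp1⟩, q, hq, hq1⟩ := hv'.shape.ts t ht''
        have hwt : w ∈ carrier t := by
          rw [mem_carrier_iff (hG.inc t (hR' htR))]
          exact ⟨hp1.trans (hwh.1.1 p hp).le, (hwh.1.2 q hq).le.trans hq1, he⟩
        refine IsCrit.inter hs (hR' htR) ?_ hws hwt
        rintro rfl
        exact hs' htR
      -- the good abscissas near `X w`
      have hptc : Continuous (fun a : ℝ => pt eps a (ht eps s a)) :=
        (continuous_pt eps).comp (continuous_id.prodMk (continuous_ht eps s))
      have e1 : ∀ᶠ a in 𝓝 (X eps w), X eps s.1 < a := lt_mem_nhds hl1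
      have e2 : ∀ᶠ a in 𝓝 (X eps w), a < X eps s.2 := gt_mem_nhds hl2
      have e3 : ∀ᶠ a in 𝓝 (X eps w), ∀ p ∈ c'.p, X eps p < a :=
        eventually_opt_lt' (f := fun a => a) continuousAt_id c'.p (fun p _ => X eps p)
          (fun p _ => continuousAt_const) (fun p hp => hwh.1.1 p hp)
      have e4 : ∀ᶠ a in 𝓝 (X eps w), ∀ q ∈ c'.q, a < X eps q :=
        eventually_opt_lt (f := fun a => a) continuousAt_id c'.q (fun q _ => X eps q)
          (fun q _ => continuousAt_const) (fun q hq => hwh.1.2 q hq)
      have e5 : ∀ᶠ a in 𝓝 (X eps w), ∀ b ∈ c'.b, (0 : ℝ) < ori b (pt eps a (ht eps s a)) :=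
        eventually_opt_lt (f := fun _ => 0) continuousAt_const c'.b
          (fun b a => ori b (pt eps a (ht eps s a)))
          (fun b _ => ((continuous_ori b).comp hptc).continuousAt)
          (fun b hb' => by
            change (0 : ℝ) < ori b (pt eps (X eps w) (ht eps s (X eps w)))
            rw [hwpt]; exact hbpos b hb')
      have e6 : ∀ᶠ a in 𝓝 (X eps w), ∀ t ∈ c'.t, ori t (pt eps a (ht eps s a)) < 0 :=
        eventually_opt_lt' (f := fun _ => 0) continuousAt_const c'.t
          (fun t a => ori t (pt eps a (ht eps s a)))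
          (fun t _ => ((continuous_ori t).comp hptc).continuousAt)
          (fun t ht'' => by
            change ori t (pt eps (X eps w) (ht eps s (X eps w))) < 0
            rw [hwpt]; exact htneg t ht'')
      have hinf : Set.Infinite {a : ℝ | X eps s.1 < a ∧ a < X eps s.2 ∧ (∀ p ∈ c'.p, X eps p < a) ∧
          (∀ q ∈ c'.q, a < X eps q) ∧ (∀ b ∈ c'.b, (0 : ℝ) < ori b (pt eps a (ht eps s a))) ∧
          (∀ t ∈ c'.t, ori t (pt eps a (ht eps s a)) < 0)} := by
        apply infinite_of_mem_nhds (X eps w)
        filter_upwards [e1, e2, e3, e4, e5, e6] with a h1 h2 h3 h4 h5 h6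
        exact ⟨h1, h2, h3, h4, h5, h6⟩
      have hfin : {a : ℝ | ∃ d ∈ l, ∃ v ∈ d.1.q, X eps v = a}.Finite := by
        have : {a : ℝ | ∃ d ∈ l, ∃ v ∈ d.1.q, X eps v = a} ⊆
            ⋃ d ∈ {d : Pc | d ∈ l}, {a : ℝ | ∃ v ∈ d.1.q, X eps v = a} := by
          rintro a ⟨d, hd, v, hv, rfl⟩
          simp only [Set.mem_iUnion]
          exact ⟨d, hd, v, hv, rfl⟩
        refine Set.Finite.subset ?_ this
        refine Set.Finite.biUnion (List.finite_toSet l) (fun d _ => ?_)
        cases hq : d.1.q with
        | none => simp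
        | some q =>
          refine (Set.finite_singleton (X eps q)).subset ?_
          rintro a ⟨v, hv, rfl⟩
          rw [← Option.some.inj hv]
          rfl
      obtain ⟨a0, ha0, hna0⟩ := hinf.exists_notMem_finite hfin
      obtain ⟨h1, h2, h3, h4, h5, h6⟩ := ha0
      refine key (pt eps a0 (ht eps s a0)) (pt_mem_carrier hinc h1.le h2.le) ?_ ?_
      · refine ⟨⟨?_, ?_⟩, fun b hb' => (h5 b hb').le, fun t ht'' => (h6 t ht'').le⟩
        · intro p hp
          rw [X_pt]; exact h3 p hp
        · intro q hq
          rw [X_pt]; exact h4 q hq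
      · intro d hd _ u hu he
        rw [X_pt] at he
        exact hna0 ⟨d, hd, u, hu, he⟩
  · rintro ⟨a, ha, hb, ht', w, hws, hwh⟩
    obtain ⟨c, hc⟩ := h.isP a ha
    refine ⟨?_, ?_, w, hws, isP_hreg hc hwh⟩
    · rw [← isP_b hc]; exact hb
    · rw [← isP_t hc]; exact ht'

theorem confl_convex {eps : ℝ} {S R R' : Finset Seg} {x : ℂ} (hG : Gen eps S x) (hR : R ⊆ R')
    (hR' : R' ⊆ S) {c' : Cell} {l : List Pc} (h : PChain eps R R' c' l) {s : Seg} (hs : s ∈ S)
    (hs' : s ∉ R') {i j k : ℕ} (hij : i < j) (hjk : j < k) (hk : k < l.length)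
    (h1 : confl eps (l[i]).1 s) (h2 : confl eps (l[k]).1 s) : confl eps (l[j]).1 s := by
  obtain ⟨hbi, hti, u, hus, huh⟩ := h1
  obtain ⟨_, _, v, hvs, hvh⟩ := h2
  obtain ⟨ci, hci⟩ := h.isP l[i] (List.getElem_mem _)
  obtain ⟨ck, hck⟩ := h.isP l[k] (List.getElem_mem _)
  obtain ⟨cj, hcj⟩ := h.isP l[j] (List.getElem_mem _)
  have hlink : ∀ (m : ℕ) (hm : m + 1 < l.length),
      (l[m]).1.q = (l[m + 1]).1.p ∧ trueR (l[m]).1 = false := fun m hm =>
    List.isChain_iff_getElem.1 h.link m hm
  -- the left walls of the later pieces are to the right of `u`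
  have hleft : ∀ (m : ℕ) (hm : i + 1 + m < l.length),
      ∃ p ∈ (l[i + 1 + m]).1.p, X eps u < X eps p := by
    intro m
    induction m with
    | zero =>
      intro hm
      have hl := hlink i (by omega)
      obtain ⟨q, hq⟩ := q_of_false hl.2
      refine ⟨q, ?_, huh.1.2 q hq⟩
      rw [hl.1] at hq
      exact hq
    | succ m ih =>
      intro hm
      obtain ⟨p, hp, hup⟩ := ih (by omega)
      have hl := hlink (i + 1 + m) (by omega)
      obtain ⟨q, hq⟩ := q_of_false hl.2
      obtain ⟨cm, hcm⟩ := h.isP (l[i + 1 + m]) (List.getElem_mem _)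
      have hpq := isP_lt hG hR hR' hcm hp hq
      refine ⟨q, ?_, hup.trans hpq⟩
      rw [hl.1] at hq
      exact hq
  -- the right walls of the earlier pieces are to the left of `v`
  have hright : ∀ (m : ℕ) (hm : m < k), ∃ q ∈ (l[k - 1 - m]'(by omega)).1.q,
      X eps q < X eps v := by
    intro m
    induction m with
    | zero =>
      intro hm
      have hl := hlink (k - 1) (by omega)
      obtain ⟨q, hq⟩ := q_of_false hl.2
      refine ⟨q, hq, ?_⟩
      rw [hl.1] at hq
      have hk1 : l[k - 1 + 1]'(by omega) = l[k] := by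
        congr 1
        omega
      rw [hk1] at hq
      exact hvh.1.1 q hq
    | succ m ih =>
      intro hm
      obtain ⟨q, hq, hqv⟩ := ih (by omega)
      have hl := hlink (k - 1 - (m + 1)) (by omega)
      have hk1 : l[k - 1 - (m + 1) + 1]'(by omega) = l[k - 1 - m]'(by omega) := by
        congr 1
        omega
      obtain ⟨q', hq'⟩ := q_of_false hl.2
      refine ⟨q', hq', ?_⟩
      have hq'' := hq'
      rw [hl.1, hk1] at hq''
      obtain ⟨cm, hcm⟩ := h.isP (l[k - 1 - m]'(by omega)) (List.getElem_mem _)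
      exact (isP_lt hG hR hR' hcm hq'' hq).trans hqv
  obtain ⟨p, hp, hup⟩ : ∃ p ∈ (l[j]).1.p, X eps u < X eps p := by
    have := hleft (j - i - 1) (by omega)
    have hj : l[i + 1 + (j - i - 1)]'(by omega) = l[j] := by
      congr 1
      omega
    rw [hj] at this
    exact this
  obtain ⟨q, hq, hqv⟩ : ∃ q ∈ (l[j]).1.q, X eps q < X eps v := by
    have := hright (k - 1 - j) (by omega)
    have hj : l[k - 1 - (k - 1 - j)]'(by omega) = l[j] := by
      congr 1
      omega
    rw [hj] at this
    exact this
  have hpq := isP_lt hG hR hR' hcj hp hq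
  -- the intermediate point
  have huv : 0 < X eps v - X eps u := by linarith
  set lam : ℝ := ((X eps p + X eps q) / 2 - X eps u) / (X eps v - X eps u) with hlam
  have hl0 : 0 ≤ lam := div_nonneg (by linarith) huv.le
  have hl1 : lam ≤ 1 := by rw [hlam, div_le_one huv]; linarith
  have hlm : lam * (X eps v - X eps u) = (X eps p + X eps q) / 2 - X eps u := by
    rw [hlam]; field_simp
  have hsum : (1 - lam) + lam = 1 := by ring
  have hz1 : (1 - lam) • u + lam • v ∈ carrier s :=
    (convex_segment s.1 s.2) hus hvs (by linarith) hl0 hsum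
  have hz2 : (1 - lam) • u + lam • v ∈ hreg eps c' :=
    (convex_hreg eps c') (isP_hreg hci huh) (isP_hreg hck hvh) (by linarith) hl0 hsum
  have hX : X eps ((1 - lam) • u + lam • v) = (X eps p + X eps q) / 2 := by
    rw [X_comb eps hsum]
    linarith
  refine ⟨?_, ?_, _, hz1, isP_hreg_of hcj ⟨?_, ?_⟩ hz2.2⟩
  · rw [isP_b hcj, ← isP_b hci]; exact hbi
  · rw [isP_t hcj, ← isP_t hci]; exact hti
  · intro p' hp'
    rw [hX, ← Option.some.inj ((Option.mem_def.1 hp).symm.trans (Option.mem_def.1 hp'))]
    linarith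
  · intro q' hq'
    rw [hX, ← Option.some.inj ((Option.mem_def.1 hq).symm.trans (Option.mem_def.1 hq'))]
    linarith

end SFA
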