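import Pool.Agent.Lib.SFA.SideC
import Pool.Agent.Lib.SFA.NoCrit

/-!
# SFA.Chg1: charging a cell whose left critical point is on its bottom

`c` valid, `v in c.p`, `b in c.b`, `ori b v = 0`.  `b` is over `X v` (`spans`), so `v in carrier b`,
and `X v < X q <= X b.2`.  `next_crit` gives the edge `(v,w)` on `b`.
`chg1`: choose `y` on the open edge with `X y < X q` (`y = v + l (w - v)`, `l` small).  `y` is in the
open slab, on `b`, so `ori t y < 0` (`Shape.bt`).  For small `h > 0` the point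
`y' = y + h I (w - v)` is in `reg c`: slab and top by continuity, and
`ori b y' = ori b y + h * cross (b.2 - b.1) (I (w - v)) = h * |..| > 0` since `w - v` is a positive
multiple of `b.2 - b.1` (both on `b`, `X v < X w`).  So `y' in reg c`, contained in the face:
`isDart_of_left`.
`uniq1`: two valid cells `c1, c2` starting at `v`, with bottoms `b1, b2` through `v`, both containing
`w` with `X v < X w`: `b1 = b2 = b` (`edge_seg_unique`; use `Gen.one`).  A point of `b` slightly to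
the right of `v`, moved up a little, is in both regions (as before): `valid_unique` is not
imported here, so the conclusion is only the common point.
-/

namespace SFA

open Set Filter Topology

namespace Chg1Aux

theorem opt_ev {α β : Type*} {F : Filter β} (o : Option α) {P : α → β → Prop}
    (h : ∀ t ∈ o, ∀ᶠ y in F, P t y) : ∀ᶠ y in F, ∀ t ∈ o, P t y := by
  rcases o with _ | t
  · exact Filter.Eventually.of_forall fun y t ht => absurd ht (by simp)
  · refine (h t rfl).mono fun y hy t' ht' => ?_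
    obtain rfl : t = t' := by simpa using ht'
    exact hy

theorem dpos {eps : ℝ} {b : Seg} (hinc : X eps b.1 < X eps b.2) {v w : ℂ} (hv : v ∈ carrier b)
    (hw : w ∈ carrier b) (hvw : X eps v < X eps w) :
    0 < cross (b.2 - b.1) (Complex.I * (w - v)) := by
  obtain ⟨-, -, ov⟩ := (mem_carrier_iff hinc v).1 hv
  obtain ⟨-, -, ow⟩ := (mem_carrier_iff hinc w).1 hw
  have hX : X eps (b.2 - b.1) = X eps b.2 - X eps b.1 := X_sub eps _ _
  have hX' : X eps (w - v) = X eps w - X eps v := X_sub eps _ _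
  have hA : 0 < X eps (b.2 - b.1) := by rw [hX]; linarith
  have hD : 0 < X eps (w - v) := by rw [hX']; linarith
  have hc0 : cross (b.2 - b.1) (w - v) = 0 := by
    have : cross (b.2 - b.1) (w - v) = ori b w - ori b v := by
      simp only [ori, cross, Complex.sub_re, Complex.sub_im]
      ring
    rw [this, ov, ow, sub_zero]
  rw [cross_eq eps] at hc0
  set A := X eps (b.2 - b.1) with hAdef
  set D := X eps (w - v) with hDdef
  have e1 : (w - v).im = (D / A) * (b.2 - b.1).im := by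
    have hA0 : A ≠ 0 := hA.ne'
    field_simp
    linarith
  have e2 : (w - v).re = (D / A) * (b.2 - b.1).re := by
    have hA0 : A ≠ 0 := hA.ne'
    have h3 : D = (w - v).re + eps * (w - v).im := rfl
    have h4 : A = (b.2 - b.1).re + eps * (b.2 - b.1).im := rfl
    have h5 : (b.2 - b.1).re = A - eps * (b.2 - b.1).im := by linarith
    rw [h5, mul_sub, div_mul_cancel₀ D hA0]
    have h6 : (D / A) * (eps * (b.2 - b.1).im) = eps * (w - v).im := by
      rw [e1]
      ring
    rw [h6]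
    linarith
  have e3 : cross (b.2 - b.1) (Complex.I * (w - v)) =
      (D / A) * ((b.2 - b.1).re ^ 2 + (b.2 - b.1).im ^ 2) := by
    have : cross (b.2 - b.1) (Complex.I * (w - v)) =
        (b.2 - b.1).re * (w - v).re + (b.2 - b.1).im * (w - v).im := by
      simp only [cross, Complex.mul_re, Complex.mul_im, Complex.I_re, Complex.I_im]
      ring
    rw [this, e1, e2]
    ring
  rw [e3]
  refine mul_pos (div_pos hD hA) ?_
  have hne : ¬ ((b.2 - b.1).re = 0 ∧ (b.2 - b.1).im = 0) := by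
    rintro ⟨h1, h2⟩
    have h4 : A = (b.2 - b.1).re + eps * (b.2 - b.1).im := rfl
    rw [h1, h2] at h4
    linarith
  rcases eq_or_ne (b.2 - b.1).re 0 with h | h
  · have h' : (b.2 - b.1).im ≠ 0 := fun h' => hne ⟨h, h'⟩
    have := sq_pos_of_ne_zero h'
    have := sq_nonneg (b.2 - b.1).re
    linarith
  · have := sq_pos_of_ne_zero h
    have := sq_nonneg (b.2 - b.1).im
    linarith

theorem side {eps : ℝ} {R : Finset Seg} {c : Cell} (hc : Valid eps R c) {v : ℂ} (hv : v ∈ c.p)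
    {b : Seg} (hinc : X eps b.1 < X eps b.2) (hb : b ∈ c.b) {q : ℂ} (hq : q ∈ c.q) {y d : ℂ}
    (hy : y ∈ carrier b) (h1 : X eps v < X eps y) (h2 : X eps y < X eps q)
    (hd : 0 < cross (b.2 - b.1) (Complex.I * d)) :
    ∀ᶠ h : ℝ in 𝓝[>] (0 : ℝ), y + ((h : ℝ) : ℂ) * Complex.I * d ∈ reg eps c := by
  have hslab : inSlab eps c y := by
    constructor
    · intro p hp
      have e : p = v := by
        rw [Option.mem_def] at hp hv
        rw [hp] at hv
        exact Option.some.inj hv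
      rw [e]
      exact h1
    · intro q' hq'
      have e : q' = q := by
        rw [Option.mem_def] at hq' hq
        rw [hq'] at hq
        exact Option.some.inj hq
      rw [e]
      exact h2
  have hcont : Continuous (fun h : ℝ => y + ((h : ℝ) : ℂ) * Complex.I * d) := by fun_prop
  have hat : (fun h : ℝ => y + ((h : ℝ) : ℂ) * Complex.I * d) 0 = y := by simp
  have lt_ev : ∀ (g : ℂ → ℝ), Continuous g → ∀ m : ℝ, g y < m →
      ∀ᶠ h : ℝ in 𝓝[>] (0 : ℝ), g (y + ((h : ℝ) : ℂ) * Complex.I * d) < m := by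
    intro g hg m hm
    have hgc : Continuous (fun h : ℝ => g (y + ((h : ℝ) : ℂ) * Complex.I * d)) := hg.comp hcont
    have h0 : (fun h : ℝ => g (y + ((h : ℝ) : ℂ) * Complex.I * d)) 0 < m := by
      change g ((fun h : ℝ => y + ((h : ℝ) : ℂ) * Complex.I * d) 0) < m
      rw [hat]
      exact hm
    exact nhdsWithin_le_nhds ((hgc.tendsto 0).eventually (gt_mem_nhds h0))
  have gt_ev : ∀ (g : ℂ → ℝ), Continuous g → ∀ m : ℝ, m < g y →
      ∀ᶠ h : ℝ in 𝓝[>] (0 : ℝ), m < g (y + ((h : ℝ) : ℂ) * Complex.I * d) := by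
    intro g hg m hm
    have hgc : Continuous (fun h : ℝ => g (y + ((h : ℝ) : ℂ) * Complex.I * d)) := hg.comp hcont
    have h0 : m < (fun h : ℝ => g (y + ((h : ℝ) : ℂ) * Complex.I * d)) 0 := by
      change m < g ((fun h : ℝ => y + ((h : ℝ) : ℂ) * Complex.I * d) 0)
      rw [hat]
      exact hm
    exact nhdsWithin_le_nhds ((hgc.tendsto 0).eventually (lt_mem_nhds h0))
  have e1 : ∀ᶠ h : ℝ in 𝓝[>] (0 : ℝ), ∀ p ∈ c.p,
      X eps p < X eps (y + ((h : ℝ) : ℂ) * Complex.I * d) :=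
    opt_ev c.p fun p hp => gt_ev _ (continuous_X eps) _ (hslab.1 p hp)
  have e2 : ∀ᶠ h : ℝ in 𝓝[>] (0 : ℝ), ∀ q ∈ c.q,
      X eps (y + ((h : ℝ) : ℂ) * Complex.I * d) < X eps q :=
    opt_ev c.q fun q hq => lt_ev _ (continuous_X eps) _ (hslab.2 q hq)
  have e3 : ∀ᶠ h : ℝ in 𝓝[>] (0 : ℝ), ∀ t ∈ c.t,
      ori t (y + ((h : ℝ) : ℂ) * Complex.I * d) < 0 :=
    opt_ev c.t fun t ht => lt_ev _ (continuous_ori t) _ (hc.shape.bt b hb t ht y hy hslab)
  have e4 : ∀ᶠ h : ℝ in 𝓝[>] (0 : ℝ), ∀ b' ∈ c.b,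
      0 < ori b' (y + ((h : ℝ) : ℂ) * Complex.I * d) := by
    refine eventually_nhdsWithin_of_forall fun h hh b' hb' => ?_
    have e : b' = b := by
      rw [Option.mem_def] at hb' hb
      rw [hb'] at hb
      exact Option.some.inj hb
    rw [e]
    have o0 : ori b y = 0 := ((mem_carrier_iff hinc y).1 hy).2.2
    have : ori b (y + ((h : ℝ) : ℂ) * Complex.I * d) =
        ori b y + h * cross (b.2 - b.1) (Complex.I * d) := by
      simp only [ori, cross, Complex.sub_re, Complex.sub_im, Complex.add_re, Complex.add_im,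
        Complex.mul_re, Complex.mul_im, Complex.I_re, Complex.I_im, Complex.ofReal_re,
        Complex.ofReal_im]
      ring
    rw [this, o0, zero_add]
    exact mul_pos hh hd
  filter_upwards [e1, e2, e3, e4] with h h1 h2 h3 h4
  exact ⟨⟨h1, h2⟩, h4, h3⟩

theorem exists_y {eps : ℝ} {b : Seg} {v w : ℂ} (hv : v ∈ carrier b) (hw : w ∈ carrier b)
    (hvw : X eps v < X eps w) {m : ℝ} (hm : X eps v < m) :
    ∃ y ∈ openSegment ℝ v w, y ∈ carrier b ∧ X eps v < X eps y ∧ X eps y < m := by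
  set M : ℝ := min m (X eps w) with hM
  have hM1 : X eps v < M := lt_min hm hvw
  have hD : 0 < X eps w - X eps v := by linarith
  set l : ℝ := (M - X eps v) / (2 * (X eps w - X eps v)) with hl
  have hl0 : 0 < l := div_pos (by linarith) (by linarith)
  have hlm : l * (X eps w - X eps v) = (M - X eps v) / 2 := by
    rw [hl]
    field_simp
  have hl1 : l < 1 := by
    have h2 : M ≤ X eps w := min_le_right _ _
    rw [hl, div_lt_one (by linarith)]
    linarith
  have hX : X eps ((1 - l) • v + l • w) = X eps v + (M - X eps v) / 2 := by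
    rw [X_comb eps (by ring), ← hlm]
    ring
  refine ⟨(1 - l) • v + l • w, ⟨1 - l, l, by linarith, hl0, by ring, rfl⟩, ?_, ?_, ?_⟩
  · have hc : Convex ℝ (carrier b) := convex_segment _ _
    exact hc hv hw (by linarith) hl0.le (by ring)
  · rw [hX]
    linarith
  · rw [hX]
    have h2 : M ≤ m := min_le_left _ _
    linarith

theorem right_end {eps : ℝ} {R : Finset Seg} {c : Cell} (hc : Valid eps R c) {v : ℂ}
    (hv : v ∈ c.p) {b : Seg} (hb : b ∈ c.b) :
    ∃ q ∈ c.q, X eps v < X eps q ∧ X eps q ≤ X eps b.2 ∧ X eps b.1 ≤ X eps v := by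
  obtain ⟨⟨p, hp, hp'⟩, ⟨q, hq, hq'⟩⟩ := hc.shape.bs b hb
  have e : p = v := by
    rw [Option.mem_def] at hp hv
    rw [hp] at hv
    exact Option.some.inj hv
  subst e
  exact ⟨q, hq, hc.shape.lt p hp q hq, hq', hp'⟩

end Chg1Aux

open Chg1Aux

theorem chg1 {eps : ℝ} {R : Finset Seg} {x : ℂ} (hG : Gen eps R x) {c : Cell}
    (hc : InFace eps R x c) {v : ℂ} (hv : v ∈ c.p) {b : Seg} (hb : b ∈ c.b)
    (hbv : ori b v = 0) :
    ∃ w, IsDart R (face R x) v w ∧ X eps v < X eps w ∧ v ∈ carrier b ∧ w ∈ carrier b := by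
  obtain ⟨hV, hface⟩ := hc
  have hbR := hV.defd.bR b hb
  have hinc := hG.inc b hbR
  obtain ⟨q, hq, hvq, hqb, hbv'⟩ := right_end hV hv hb
  have hvs : v ∈ carrier b := (mem_carrier_iff hinc v).2 ⟨hbv', by linarith, hbv⟩
  obtain ⟨w, hw, hvw, he, -⟩ := next_crit hG hbR (hV.defd.pC v hv) hvs (by linarith)
  obtain ⟨y, hyo, hyc, hy1, hy2⟩ := exists_y hvs hw hvw hvq
  have hev := side hV hv hinc hb hq hyc hy1 hy2 (dpos hinc hvs hw hvw)
  exact ⟨w, isDart_of_left hG he hyo (hev.mono fun h hh => hface hh).frequently, hvw, hvs, hw⟩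

theorem uniq1 {eps : ℝ} {R : Finset Seg} {x : ℂ} (hG : Gen eps R x) {c1 c2 : Cell}
    (hc1 : Valid eps R c1) (hc2 : Valid eps R c2) {v w : ℂ} (hv1 : v ∈ c1.p)
    (hv2 : v ∈ c2.p) {b1 b2 : Seg} (hb1 : b1 ∈ c1.b) (hb2 : b2 ∈ c2.b)
    (h1 : v ∈ carrier b1) (h1' : w ∈ carrier b1) (h2 : v ∈ carrier b2)
    (h2' : w ∈ carrier b2) (hvw : X eps v < X eps w) :
    ∃ z, z ∈ reg eps c1 ∧ z ∈ reg eps c2 := by
  have hne : v ≠ w := fun e => by rw [e] at hvw; exact lt_irrefl _ hvw
  obtain rfl : b1 = b2 := edge_seg_unique hG hne (hc1.defd.bR b1 hb1) (hc2.defd.bR b2 hb2)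
    h1 h1' h2 h2'
  have hinc := hG.inc b1 (hc1.defd.bR b1 hb1)
  obtain ⟨q1, hq1, hvq1, -, -⟩ := right_end hc1 hv1 hb1
  obtain ⟨q2, hq2, hvq2, -, -⟩ := right_end hc2 hv2 hb2
  obtain ⟨y, -, hyc, hy1, hy2⟩ := exists_y h1 h1' hvw (lt_min hvq1 hvq2)
  have e1 := side hc1 hv1 hinc hb1 hq1 hyc hy1 (hy2.trans_le (min_le_left _ _))
    (dpos hinc h1 h1' hvw)
  have e2 := side hc2 hv2 hinc hb2 hq2 hyc hy1 (hy2.trans_le (min_le_right _ _))
    (dpos hinc h1 h1' hvw)
  obtain ⟨h, hh⟩ := (e1.and e2).exists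
  exact ⟨_, hh.1, hh.2⟩

end SFA
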