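import Pool.Agent.Lib.SFA.LocStr
import Pool.Agent.Lib.SFA.AdjFace

/-!
# SFA.Comp: the cells of the face are the cells reachable from the cell of the point (L5)

`exists_root`: `x` is outside `U R` and has no critical abscissa: `exists_valid'`.
`comp`: Right to left: induction along the path with `adj_same_face`, starting from
`reg c0` in the face (`reg_subset_face`, `x in face R x` by `mem_connectedComponentIn`).
Left to right: let `Q z` (for `z` outside `U R`) mean: there is a reachable valid cell `c` with
`z in closure (reg c)`.  Claim: `{z in face : Q z}` and `{z in face : not Q z}` are both open.  By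
`local_structure` near `z` there are cells `c, c'` (equal or adjacent) whose regions contain the
left and right half ball of radius `r` at `z`.  If `d` is any valid cell and a point `y` of the ball
is in `closure (reg d)`, then `reg d` (open, convex) meets the ball in a point with abscissa
different from `X z` (a nonempty open set is not contained in a line), so `d = c` or `d = c'` by
`valid_unique`.  Hence: `Q y` for some `y` in the ball implies that `c` or `c'` is reachable, hence
both are (they are equal or adjacent), and then `Q y'` for all `y'` in the ball: every `y'` in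
the ball is in the closure of one of the two half balls.  So `Q` is constant on the ball.
The face is preconnected (`isPreconnected_connectedComponentIn`) and `Q x` holds, so `Q` holds on
the face.  Now let `c` be valid with `reg c` in the face, `z in reg c` (`reg_nonempty`): there is a
reachable `d` with `z in closure (reg d)`; `reg c` is an open neighbourhood of `z`, so it meets
`reg d`, so `c = d` by `valid_unique`.
-/

namespace SFA

open Set Filter Topology

theorem exists_root {eps : ℝ} {R : Finset Seg} {x : ℂ} (hG : Gen eps R x) :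
    ∃ c, Valid eps R c ∧ x ∈ reg eps c :=
  exists_valid' hG hG.xfree hG.xgen

private theorem pt_mem_nhds {eps : ℝ} {O : Set ℂ} {w : ℂ} (hO : O ∈ 𝓝 w) :
    ∀ᶠ a in 𝓝 (X eps w), pt eps a w.im ∈ O := by
  have hcont : Continuous (fun a : ℝ => pt eps a w.im) := by
    have h := (continuous_pt eps).comp (continuous_id.prodMk (continuous_const (y := w.im)))
    simpa [Function.comp_def] using h
  have h1 : pt eps (X eps w) w.im = w := pt_eta eps w
  have h2 : ContinuousAt (fun a : ℝ => pt eps a w.im) (X eps w) := hcont.continuousAt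
  have h3 : O ∈ 𝓝 ((fun a : ℝ => pt eps a w.im) (X eps w)) := by
    simpa [h1] using hO
  exact h2.eventually h3

private theorem exists_off {eps : ℝ} {O : Set ℂ} (hO : IsOpen O) (hne : O.Nonempty) (a : ℝ) :
    ∃ w ∈ O, X eps w ≠ a := by
  obtain ⟨w, hw⟩ := hne
  by_cases h : X eps w = a
  · have e1 := (pt_mem_nhds (eps := eps) (hO.mem_nhds hw)).filter_mono
      (nhdsWithin_le_nhds (s := Set.Iio (X eps w)))
    have e2 : ∀ᶠ b in 𝓝[<] (X eps w), b < X eps w := self_mem_nhdsWithin
    have hne : (𝓝[<] (X eps w)).NeBot := inferInstance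
    obtain ⟨b, hb1, hb2⟩ := (e1.and e2).exists
    exact ⟨_, hb1, by rw [X_pt]; intro hh; linarith⟩
  · exact ⟨w, hw, h⟩

private theorem mem_closure_left {eps : ℝ} {z y : ℂ} {r : ℝ} (hy : y ∈ Metric.ball z r)
    {A : Set ℂ} (hXy : X eps y = X eps z)
    (hA : ∀ w ∈ Metric.ball z r, X eps w < X eps z → w ∈ A) : y ∈ closure A := by
  rw [mem_closure_iff_nhds]
  intro O hO
  have hO' : O ∩ Metric.ball z r ∈ 𝓝 y := inter_mem hO (Metric.isOpen_ball.mem_nhds hy)
  have e1 := (pt_mem_nhds (eps := eps) hO').filter_mono
    (nhdsWithin_le_nhds (s := Set.Iio (X eps y)))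
  have e2 : ∀ᶠ b in 𝓝[<] (X eps y), b < X eps y := self_mem_nhdsWithin
  have hne : (𝓝[<] (X eps y)).NeBot := inferInstance
  obtain ⟨b, hb1, hb2⟩ := (e1.and e2).exists
  exact ⟨_, hb1.1, hA _ hb1.2 (by rw [X_pt]; linarith)⟩

theorem comp {eps : ℝ} {R : Finset Seg} {x : ℂ} (hG : Gen eps R x) {c0 : Cell}
    (h0 : Valid eps R c0) (hx : x ∈ reg eps c0) (c : Cell) :
    InFace eps R x c ↔
      Relation.ReflTransGen (fun a a' => Valid eps R a' ∧ nbr a a') c0 c := by
  have hxf : x ∈ face R x := mem_connectedComponentIn hG.xfree
  constructor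
  · intro hc
    set Rch : Cell → Prop := fun d =>
      Relation.ReflTransGen (fun a a' => Valid eps R a' ∧ nbr a a') c0 d with hRch
    have hval : ∀ d, Rch d → Valid eps R d := by
      intro d hd
      rcases Relation.ReflTransGen.cases_tail hd with h | ⟨e, _, h⟩
      · rw [h]; exact h0
      · exact h.1
    have hstep : ∀ d d', Rch d → Valid eps R d' → nbr d d' → Rch d' :=
      fun d d' h1 h2 h3 => Relation.ReflTransGen.tail h1 ⟨h2, h3⟩
    set Q : ℂ → Prop := fun z => ∃ d, Rch d ∧ z ∈ closure (reg eps d) with hQ
    have hloc : ∀ z, z ∉ U R → ∃ r > 0, ∀ y ∈ Metric.ball z r, ∀ y' ∈ Metric.ball z r,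
        Q y → Q y' := by
      intro z hz
      obtain ⟨d, d', hd, hd', hdd, r, hr, hball⟩ := local_structure hG hz
      refine ⟨r, hr, ?_⟩
      rintro y hy y' hy' ⟨e, he, hye⟩
      have hboth : Rch d ∧ Rch d' := by
        have hOne : (Metric.ball z r ∩ reg eps e).Nonempty := by
          rw [mem_closure_iff_nhds] at hye
          exact hye _ (Metric.isOpen_ball.mem_nhds hy)
        obtain ⟨w, ⟨hw1, hw2⟩, hwX⟩ := exists_off (eps := eps)
          (Metric.isOpen_ball.inter (isOpen_reg eps e)) hOne (X eps z)
        rcases lt_or_gt_of_ne hwX with h | h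
        · have : e = d := valid_unique hG (hval e he) hd hw2 ((hball w hw1).1 h)
          subst this
          rcases hdd with ⟨h1, _⟩ | ⟨h1, _⟩
          · subst h1; exact ⟨he, he⟩
          · exact ⟨he, hstep _ _ he hd' (Or.inl h1)⟩
        · have : e = d' := valid_unique hG (hval e he) hd' hw2 ((hball w hw1).2 h)
          subst this
          rcases hdd with ⟨h1, _⟩ | ⟨h1, _⟩
          · subst h1; exact ⟨he, he⟩
          · exact ⟨hstep _ _ he hd (Or.inr h1), he⟩
      rcases lt_trichotomy (X eps y') (X eps z) with h | h | h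
      · exact ⟨d, hboth.1, subset_closure ((hball y' hy').1 h)⟩
      · exact ⟨d, hboth.1, mem_closure_left hy' h (fun w hw hX => (hball w hw).1 hX)⟩
      · exact ⟨d', hboth.2, subset_closure ((hball y' hy').2 h)⟩
    have hpre : IsPreconnected (face R x) := isPreconnected_connectedComponentIn
    have hfsub : face R x ⊆ (U R)ᶜ := connectedComponentIn_subset _ _
    obtain ⟨z, hz⟩ := reg_nonempty hG hc.1
    have hzf := hc.2 hz
    have key : Q x → Q z := by
      refine hpre.induction₂' (fun a b => Q a → Q b) ?_ ?_ hxf hzf
      · intro a ha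
        obtain ⟨r, hr, h⟩ := hloc a (hfsub ha)
        have : Metric.ball a r ∈ 𝓝[face R x] a :=
          nhdsWithin_le_nhds (Metric.ball_mem_nhds a hr)
        filter_upwards [this] with b hb
        exact ⟨h a (Metric.mem_ball_self hr) b hb, h b hb a (Metric.mem_ball_self hr)⟩
      · intro a b d _ _ _ h1 h2 h3
        exact h2 (h1 h3)
    obtain ⟨d, hd, hzd⟩ := key ⟨c0, Relation.ReflTransGen.refl, subset_closure hx⟩
    rw [mem_closure_iff_nhds] at hzd
    obtain ⟨w, hw1, hw2⟩ := hzd _ ((isOpen_reg eps c).mem_nhds hz)
    have : c = d := valid_unique hG hc.1 (hval d hd) hw1 hw2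
    rw [this]; exact hd
  · intro h
    induction h with
    | refl => exact ⟨h0, reg_subset_face hG h0 hx hxf⟩
    | tail _ hst ih => exact ⟨hst.1, adj_same_face hG ih.1 hst.1 hst.2 ih.2⟩

end SFA
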