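import Pool.Agent.Lib.SFA.AboveS

/-!
# SFA.ConflS: the test `conflB`

`bt_ht`: from `bt` with the point `pt eps c (ht eps b c)` of `b` (`pt_mem_carrier`, spans), `ori_neg_iff`.

`conflB_iff`.  Let `lo = loPt c s` (abscissa `max (X p) (X s.1)`, or `X s.1` if `c.p = none`; a critical point of `S`, `lexB_X`) and
`hi = min (X q) (X s.2)` (or `X s.2`).  The tests `beforeQ c.q s.1`, `afterP c.p s.2` say `X s.1 < X q`, `X p < X s.2`, so `X lo < hi` and `(X lo, hi)` is inside the slab and the
span of `s`.  `hitB c s e` says that the common point of `s` and `e` is in the slab (`meet_iff_S`, `slabB_iff`).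
(⇒) If `hitB c s c.b`: the common point `u` is in the slab, `ori b u = 0`, and `ori t u < 0` by `bt`: `u ∈ hreg`.  If `hitB c s c.t`: `ori t u = 0`, `0 < ori b u` by `bt_ht`.
If neither, but `above s b lo` and `above t s lo` (where `b`, `t` exist): take `c₀ ∈ (X lo, hi)`; `above_spec` with `a' = hi` (no common points in `(X lo, hi)` because of
`¬ hitB`) gives `ht b c₀ < ht s c₀ < ht t c₀`: the point `pt eps c₀ (ht s c₀)` of `s` is in `reg ⊆ hreg`.
(⇐) Let `w ∈ carrier s ∩ hreg c`, `s ∉ c.b, c.t`.  `X p < X w ≤ X s.2`, `X s.1 ≤ X w < X q`.  Suppose no hit.  Then `w` is not on `b`, not on `t`: `ht b (X w) < w.im = ht s (X w) < ht t (X w)`.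
`X lo ≤ X w ≤ hi` (with `X w ≤ X s.2`).  `above_spec` for `s, b` on `(X lo, hi)`: if it gave `ht s < ht b` on the open interval, then by continuity
`ht s ≤ ht b` on the closed interval `[X lo, hi] ∋ X w`, contradiction.  So `above s b lo = true`, same for `t`.
-/

namespace SFA

namespace ConflSAux

theorem span_le {eps : ℝ} {c : Cell} {b : Seg} (h : spans eps c b) {z : ℂ}
    (hz : inSlab eps c z) : X eps b.1 < X eps z ∧ X eps z < X eps b.2 := by
  obtain ⟨⟨p, hp, h1⟩, q, hq, h2⟩ := h
  exact ⟨lt_of_le_of_lt h1 (hz.1 p hp), lt_of_lt_of_le (hz.2 q hq) h2⟩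

theorem beforeQ_iff {eps : ℝ} {S : Finset Seg} {x : ℂ} (hL : LexOK eps S x) {c : Cell}
    (hd : Defd S c) {z : ℂ} (hz : IsCrit S z) :
    beforeQ c.q z = true ↔ ∀ q ∈ c.q, X eps z < X eps q := by
  unfold beforeQ
  cases hq : c.q with
  | none => simp
  | some q =>
    have hqc : IsCrit S q := hd.qC q hq
    simp only [Option.elim_some, Option.mem_def, Option.some.injEq, forall_eq']
    exact lexB_X hL (Or.inl hz) (Or.inl hqc)

theorem afterP_iff {eps : ℝ} {S : Finset Seg} {x : ℂ} (hL : LexOK eps S x) {c : Cell}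
    (hd : Defd S c) {z : ℂ} (hz : IsCrit S z) :
    afterP c.p z = true ↔ ∀ p ∈ c.p, X eps p < X eps z := by
  unfold afterP
  cases hq : c.p with
  | none => simp
  | some q =>
    have hqc : IsCrit S q := hd.pC q hq
    simp only [Option.elim_some, Option.mem_def, Option.some.injEq, forall_eq']
    exact lexB_X hL (Or.inl hqc) (Or.inl hz)

theorem lo_spec {eps : ℝ} {S : Finset Seg} {x : ℂ} (hL : LexOK eps S x) {c : Cell}
    (hd : Defd S c) {s : Seg} (hs : s ∈ S) :
    IsCrit S (loPt c s) ∧ X eps s.1 ≤ X eps (loPt c s) ∧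
      (∀ p ∈ c.p, X eps p ≤ X eps (loPt c s)) ∧ (loPt c s = s.1 ∨ loPt c s ∈ c.p) := by
  have hs1 : IsCrit S s.1 := IsCrit.left hs
  unfold loPt
  cases hp : c.p with
  | none =>
    simp only [Option.elim_none]
    exact ⟨hs1, le_rfl, by simp, Or.inl trivial⟩
  | some p =>
    have hpc : IsCrit S p := hd.pC p hp
    simp only [Option.elim_some, Option.mem_def, Option.some.injEq, forall_eq']
    by_cases h : lexB s.1 p = true
    · rw [if_pos h]
      have h' := (lexB_X hL (Or.inl hs1) (Or.inl hpc)).1 h
      exact ⟨hpc, h'.le, le_rfl, Or.inr rfl⟩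
    · rw [if_neg h]
      have h' : ¬ X eps s.1 < X eps p := fun h2 =>
        h ((lexB_X hL (Or.inl hs1) (Or.inl hpc)).2 h2)
      exact ⟨hs1, le_rfl, not_lt.1 h', Or.inl rfl⟩

theorem hi_exists {eps : ℝ} (c : Cell) (s : Seg) :
    ∃ hi : ℝ, hi ≤ X eps s.2 ∧ (∀ q ∈ c.q, hi ≤ X eps q) ∧
      (hi = X eps s.2 ∨ ∃ q ∈ c.q, hi = X eps q) := by
  cases hq : c.q with
  | none => exact ⟨X eps s.2, le_rfl, by simp, Or.inl rfl⟩
  | some q =>
    refine ⟨min (X eps q) (X eps s.2), min_le_right _ _, ?_, ?_⟩
    · intro q' hq'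
      simp only [Option.mem_def, Option.some.injEq] at hq'
      rw [← hq']
      exact min_le_left _ _
    · rcases min_choice (X eps q) (X eps s.2) with h | h
      · exact Or.inr ⟨q, rfl, h⟩
      · exact Or.inl h

theorem hit_iff {eps : ℝ} {S : Finset Seg} {x : ℂ} (hG : Gen eps S x) (hL : LexOK eps S x)
    {c : Cell} (hd : Defd S c) {s : Seg} (hs : s ∈ S) {e : Option Seg}
    (he : ∀ a ∈ e, a ∈ S ∧ s ≠ a) :
    hitB c s e = true ↔ ∃ a ∈ e, ∃ u, u ∈ carrier s ∧ u ∈ carrier a ∧ inSlab eps c u := by
  unfold hitB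
  cases e with
  | none => simp
  | some a =>
    obtain ⟨haS, hsa⟩ := he a rfl
    simp only [Option.elim_some, Option.mem_def, Option.some.injEq, exists_eq_left']
    cases hm : meet s a with
    | none =>
      simp only [Option.elim_none, Bool.false_eq_true, false_iff]
      rintro ⟨u, h1, h2, _⟩
      exact meet_none_S hG hs haS hsa hm u h1 h2
    | some u =>
      have hu := (meet_iff_S hG hs haS hsa u).1 hm
      have huc : IsCrit S u := IsCrit.inter hs haS hsa hu.1 hu.2
      simp only [Option.elim_some]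
      rw [slabB_iff hL hd.pC hd.qC (Or.inl huc)]
      constructor
      · intro h
        exact ⟨u, hu.1, hu.2, h⟩
      · rintro ⟨u', h1, h2, h3⟩
        have := hG.one s hs a haS hsa ⟨h1, h2⟩ hu
        rw [← this]
        exact h3

theorem closed_le {f g : ℝ → ℝ} (hf : Continuous f) (hg : Continuous g) {a a' : ℝ} (h : a < a')
    (hlt : ∀ c, a < c → c < a' → f c < g c) {c : ℝ} (h1 : a ≤ c) (h2 : c ≤ a') : f c ≤ g c := by
  have hcl : IsClosed {c | f c ≤ g c} := isClosed_le hf hg
  have hsub : Set.Ioo a a' ⊆ {c | f c ≤ g c} := fun c hc => (hlt c hc.1 hc.2).le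
  have := hcl.closure_subset_iff.2 hsub
  rw [closure_Ioo h.ne] at this
  exact this ⟨h1, h2⟩

/-- the geometric data of the segment in the slab -/
theorem core {eps : ℝ} {S : Finset Seg} {x : ℂ} (hG : Gen eps S x) (hL : LexOK eps S x)
    {c : Cell} (h0 : Shape0 eps c) (hd : Defd S c) {s : Seg} (hs : s ∈ S)
    (h1 : ∀ q ∈ c.q, X eps s.1 < X eps q) (h2 : ∀ p ∈ c.p, X eps p < X eps s.2) :
    ∃ hi : ℝ, X eps (loPt c s) < hi ∧ hi ≤ X eps s.2 ∧ (∀ q ∈ c.q, hi ≤ X eps q) ∧
      (∀ w : ℂ, inSlab eps c w → w ∈ carrier s → X eps (loPt c s) ≤ X eps w ∧ X eps w ≤ hi) := by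
  obtain ⟨hi, hi1, hi2, hi3⟩ := hi_exists (eps := eps) c s
  obtain ⟨l0, l1, l2, l3⟩ := lo_spec hL hd hs
  refine ⟨hi, ?_, hi1, hi2, ?_⟩
  · rcases l3 with l3 | l3 <;> rcases hi3 with hi3 | ⟨q, hq, hi3⟩
    · rw [l3, hi3]; exact hG.inc s hs
    · rw [l3, hi3]; exact h1 q hq
    · rw [hi3]; exact h2 _ l3
    · rw [hi3]; exact h0.lt _ l3 q hq
  · intro w hw hws
    rw [mem_carrier_iff (hG.inc s hs)] at hws
    constructor
    · rcases l3 with l3 | l3
      · rw [l3]; exact hws.1
      · exact (hw.1 _ l3).le
    · rcases hi3 with hi3 | ⟨q, hq, hi3⟩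
      · rw [hi3]; exact hws.2.1
      · rw [hi3]; exact (hw.2 q hq).le

end ConflSAux

open ConflSAux

theorem bt_ht {eps : ℝ} {S : Finset Seg} {x : ℂ} (hG : Gen eps S x) {c : Cell}
    (h0 : Shape0 eps c) (hd : Defd S c) {b t : Seg} (hb : b ∈ c.b) (ht' : t ∈ c.t) {z : ℂ}
    (hz : inSlab eps c z) : ht eps b (X eps z) < ht eps t (X eps z) := by
  have hbs := span_le (h0.bs b hb) hz
  have hbS := hd.bR b hb
  have htS := hd.tR t ht'
  have hy := pt_mem_carrier (hG.inc b hbS) hbs.1.le hbs.2.le
  have hin : inSlab eps c (pt eps (X eps z) (ht eps b (X eps z))) := by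
    constructor
    · intro p hp
      rw [X_pt]
      exact hz.1 p hp
    · intro q hq
      rw [X_pt]
      exact hz.2 q hq
  have h := h0.bt b hb t ht' _ hy hin
  rw [ori_neg_iff (hG.inc t htS), X_pt, pt_im] at h
  exact h

theorem conflB_iff {eps : ℝ} {S : Finset Seg} {x : ℂ} (hG : Gen eps S x) (hL : LexOK eps S x)
    {c : Cell} (h0 : Shape0 eps c) (hd : Defd S c) {s : Seg} (hs : s ∈ S) :
    conflB c s = true ↔ confl eps c s := by
  unfold conflB
  simp only [Bool.and_eq_true, Bool.or_eq_true, Bool.not_eq_true']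
  have hb0 : osEq c.b (some s) = false ↔ s ∉ c.b := by
    rw [← Bool.not_eq_true, osEq_iff]
    exact Iff.rfl
  have ht0 : osEq c.t (some s) = false ↔ s ∉ c.t := by
    rw [← Bool.not_eq_true, osEq_iff]
    exact Iff.rfl
  rw [hb0, ht0, beforeQ_iff hL hd (IsCrit.left hs), afterP_iff hL hd (IsCrit.right hs)]
  have habv : ∀ (hsb : s ∉ c.b) (hst : s ∉ c.t),
      (hitB c s c.b = true ↔ ∃ a ∈ c.b, ∃ u, u ∈ carrier s ∧ u ∈ carrier a ∧ inSlab eps c u) ∧
      (hitB c s c.t = true ↔ ∃ a ∈ c.t, ∃ u, u ∈ carrier s ∧ u ∈ carrier a ∧ inSlab eps c u) := by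
    intro hsb hst
    refine ⟨hit_iff hG hL hd hs ?_, hit_iff hG hL hd hs ?_⟩
    · intro a ha
      exact ⟨hd.bR a ha, fun he => hsb (he ▸ ha)⟩
    · intro a ha
      exact ⟨hd.tR a ha, fun he => hst (he ▸ ha)⟩
  obtain ⟨l0, l1, l2, l3⟩ := lo_spec hL hd hs
  constructor
  · rintro ⟨⟨⟨⟨hsb, hst⟩, h1⟩, h2⟩, h3⟩
    refine ⟨hsb, hst, ?_⟩
    obtain ⟨hb', ht''⟩ := habv hsb hst
    by_cases hitb : hitB c s c.b = true
    · obtain ⟨b, hb, u, hus, hub, hin⟩ := hb'.1 hitb
      refine ⟨u, hus, hin, ?_, ?_⟩
      · intro b1 hb1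
        have he : b1 = b := by
          rw [Option.mem_def] at hb1 hb
          rw [hb] at hb1
          exact (Option.some.inj hb1).symm
        rw [he]
        rw [mem_carrier_iff (hG.inc b (hd.bR b hb))] at hub
        exact hub.2.2.symm.le
      · intro t ht1
        exact (h0.bt b hb t ht1 u hub hin).le
    · by_cases hitt : hitB c s c.t = true
      · obtain ⟨t, ht1, u, hus, hut, hin⟩ := ht''.1 hitt
        refine ⟨u, hus, hin, ?_, ?_⟩
        · intro b hb
          have hlt := bt_ht hG h0 hd hb ht1 hin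
          rw [mem_carrier_iff' (hG.inc t (hd.tR t ht1))] at hut
          rw [ori_nonneg_iff (hG.inc b (hd.bR b hb)), hut.2.2]
          exact hlt.le
        · intro t1 ht1'
          have he : t1 = t := by
            rw [Option.mem_def] at ht1 ht1'
            rw [ht1] at ht1'
            exact (Option.some.inj ht1').symm
          rw [he]
          rw [mem_carrier_iff (hG.inc t (hd.tR t ht1))] at hut
          exact hut.2.2.le
      · obtain ⟨hi, k1, k2, k3, k4⟩ := core hG hL h0 hd hs h1 h2
        rcases h3 with (h3 | h3) | h3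
        · exact absurd h3 hitb
        · exact absurd h3 hitt
        · have c1 : X eps (loPt c s) < (X eps (loPt c s) + hi) / 2 := by linarith
          have c2 : (X eps (loPt c s) + hi) / 2 < hi := by linarith
          have hslab : ∀ w : ℂ, X eps (loPt c s) < X eps w → X eps w < hi → inSlab eps c w := by
            intro w w1 w2
            exact ⟨fun p hp => lt_of_le_of_lt (l2 p hp) w1, fun q hq => lt_of_lt_of_le w2 (k3 q hq)⟩
          set c₀ : ℝ := (X eps (loPt c s) + hi) / 2 with hc₀
          refine ⟨pt eps c₀ (ht eps s c₀), pt_mem_carrier (hG.inc s hs) (by linarith)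
            (by linarith), hslab _ (by rw [X_pt]; exact c1) (by rw [X_pt]; exact c2), ?_, ?_⟩
          · intro b hb
            have hab : above s b (loPt c s) = true := by
              have := h3.1
              rw [Option.mem_def] at hb
              rw [hb] at this
              exact this
            have hbS := hd.bR b hb
            have hsp := h0.bs b hb
            obtain ⟨⟨p, hp, p1⟩, q, hq, q1⟩ := hsp
            have hspec := above_spec hG hL hs hbS (fun he => hsb (he ▸ hb)) (Or.inl l0) k1 l1 k2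
              (p1.trans (l2 p hp)) ((k3 q hq).trans q1) (by
                intro w w1 w2 w3
                exact hitb (hb'.2 ⟨b, hb, w, w1, w2, hslab w w3.1 w3.2⟩))
            rcases hspec with ⟨_, hh⟩ | ⟨hh, _⟩
            · rw [ori_nonneg_iff (hG.inc b hbS), X_pt, pt_im]
              exact (hh c₀ c1 c2).le
            · rw [hab] at hh
              exact absurd hh (by decide)
          · intro t ht1
            have hab : above t s (loPt c s) = true := by
              have := h3.2
              rw [Option.mem_def] at ht1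
              rw [ht1] at this
              exact this
            have htS := hd.tR t ht1
            have hsp := h0.ts t ht1
            obtain ⟨⟨p, hp, p1⟩, q, hq, q1⟩ := hsp
            have hspec := above_spec hG hL htS hs (fun he => hst (he ▸ ht1)) (Or.inl l0) k1
              (p1.trans (l2 p hp)) ((k3 q hq).trans q1) l1 k2 (by
                intro w w1 w2 w3
                exact hitt (ht''.2 ⟨t, ht1, w, w2, w1, hslab w w3.1 w3.2⟩))
            rcases hspec with ⟨_, hh⟩ | ⟨hh, _⟩
            · rw [ori_nonpos_iff (hG.inc t htS), X_pt, pt_im]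
              exact (hh c₀ c1 c2).le
            · rw [hab] at hh
              exact absurd hh (by decide)
  · rintro ⟨hsb, hst, w, hws, hin, hband⟩
    obtain ⟨hb', ht''⟩ := habv hsb hst
    have hws' := (mem_carrier_iff' (hG.inc s hs) w).1 hws
    have h1 : ∀ q ∈ c.q, X eps s.1 < X eps q := fun q hq => lt_of_le_of_lt hws'.1 (hin.2 q hq)
    have h2 : ∀ p ∈ c.p, X eps p < X eps s.2 := fun p hp => lt_of_lt_of_le (hin.1 p hp) hws'.2.1
    refine ⟨⟨⟨⟨hsb, hst⟩, h1⟩, h2⟩, ?_⟩
    by_cases hitb : hitB c s c.b = true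
    · exact Or.inl (Or.inl hitb)
    · by_cases hitt : hitB c s c.t = true
      · exact Or.inl (Or.inr hitt)
      · right
        obtain ⟨hi, k1, k2, k3, k4⟩ := core hG hL h0 hd hs h1 h2
        obtain ⟨w1, w2⟩ := k4 w hin hws
        have hslab : ∀ w : ℂ, X eps (loPt c s) < X eps w → X eps w < hi → inSlab eps c w := by
          intro w w1 w2
          exact ⟨fun p hp => lt_of_le_of_lt (l2 p hp) w1, fun q hq => lt_of_lt_of_le w2 (k3 q hq)⟩
        constructor
        · cases hb : c.b with
          | none => rfl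
          | some b =>
            have hbm : b ∈ c.b := hb
            have hbS := hd.bR b hbm
            have hsp := h0.bs b hbm
            have hspl := span_le hsp hin
            obtain ⟨⟨p, hp, p1⟩, q, hq, q1⟩ := hsp
            have hspec := above_spec hG hL hs hbS (fun he => hsb (he ▸ hbm)) (Or.inl l0) k1 l1 k2
              (p1.trans (l2 p hp)) ((k3 q hq).trans q1) (by
                intro w w1 w2 w3
                exact hitb (hb'.2 ⟨b, hbm, w, w1, w2, hslab w w3.1 w3.2⟩))
            rcases hspec with ⟨hh, _⟩ | ⟨_, hh⟩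
            · exact hh
            · exfalso
              have hle := closed_le (continuous_ht eps s) (continuous_ht eps b) k1 hh w1 w2
              have hge := (ori_nonneg_iff (hG.inc b hbS) w).1 (hband.1 b hbm)
              rw [hws'.2.2] at hge
              have heq : ht eps b (X eps w) = ht eps s (X eps w) := le_antisymm hge hle
              apply hitb
              rw [hb']
              refine ⟨b, hbm, w, hws, ?_, hin⟩
              rw [mem_carrier_iff' (hG.inc b hbS), heq]
              exact ⟨hspl.1.le, hspl.2.le, hws'.2.2⟩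
        · cases ht1 : c.t with
          | none => rfl
          | some t =>
            have htm : t ∈ c.t := ht1
            have htS := hd.tR t htm
            have hsp := h0.ts t htm
            have hspl := span_le hsp hin
            obtain ⟨⟨p, hp, p1⟩, q, hq, q1⟩ := hsp
            have hspec := above_spec hG hL htS hs (fun he => hst (he ▸ htm)) (Or.inl l0) k1
              (p1.trans (l2 p hp)) ((k3 q hq).trans q1) l1 k2 (by
                intro w w1 w2 w3
                exact hitt (ht''.2 ⟨t, htm, w, w2, w1, hslab w w3.1 w3.2⟩))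
            rcases hspec with ⟨hh, _⟩ | ⟨_, hh⟩
            · exact hh
            · exfalso
              have hle := closed_le (continuous_ht eps t) (continuous_ht eps s) k1 hh w1 w2
              have hge := (ori_nonpos_iff (hG.inc t htS) w).1 (hband.2 t htm)
              rw [hws'.2.2] at hge
              have heq : ht eps t (X eps w) = ht eps s (X eps w) := le_antisymm hle hge
              apply hitt
              rw [ht'']
              refine ⟨t, htm, w, hws, ?_, hin⟩
              rw [mem_carrier_iff' (hG.inc t htS), heq]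
              exact ⟨hspl.1.le, hspl.2.le, hws'.2.2⟩

end SFA
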