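import Pool.Agent.Lib.SFA.TestB

/-!
# SFA.MeetS: `meet s t` is the common point

Let `a = s.2 - s.1`, `b = t.2 - t.1`, `c = t.1 - s.1`, `D = cross a b`.
* `D ≠ 0`: the equation `u a - w b = c` has the only solution `u = cross c b / D`, `w = cross c a / D` (Cramer; check by
  taking `cross _ b` and `cross _ a`).  A common point is `s.1 + u a = t.1 + w b` with `u, w ∈ [0, 1]` (`segment`), and `mv s u = s.1 + u • a`.
* `D = 0`: if `s.2 = t.1` or `t.2 = s.1` this is a common point, and by `hone` the only one.  Conversely let `v` be a common point; by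
  `mem_carrier_iff` and `ori`: the lines agree (`ori s` vanishes on the whole line of `t`, as `D = 0` and `ori s v = 0`), so both carriers are
  `{z on the line | X s.1 ≤ X z ≤ X s.2}` etc.  If `X t.1 < X s.2` and `X s.1 < X t.2` the intersection contains the two points of the line with
  abscissas `max (X s.1) (X t.1) < min (X s.2) (X t.2)`, contradiction to `hone`; so `X s.2 ≤ X t.1`, then `v` has abscissa `X s.2 = X t.1` and `v = s.2 = t.1`, or
  symmetrically `v = t.2 = s.1`.  (If both `s.2 = t.1` and `t.2 = s.1`: impossible, since `X s.1 < X s.2 = X t.1 < X t.2 = X s.1`.)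
-/

namespace SFA

namespace MeetSAux

theorem mem_seg {s : Seg} {v : ℂ} : v ∈ carrier s ↔ ∃ u : ℝ, 0 ≤ u ∧ u ≤ 1 ∧ v = mv s u := by
  constructor
  · rintro ⟨a, b, ha, hb, hab, rfl⟩
    refine ⟨b, hb, by linarith, ?_⟩
    have ha' : a = 1 - b := by linarith
    subst ha'
    apply Complex.ext
    · simp [mv]; ring
    · simp [mv]; ring
  · rintro ⟨u, h0, h1, rfl⟩
    refine ⟨1 - u, u, by linarith, h0, by ring, ?_⟩
    apply Complex.ext
    · simp [mv]; ring
    · simp [mv]; ring

/-- Cramer -/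
theorem cramer {s t : Seg} {u w : ℝ} (hD : cross (s.2 - s.1) (t.2 - t.1) ≠ 0) :
    mv s u = mv t w ↔ u = cross (t.1 - s.1) (t.2 - t.1) / cross (s.2 - s.1) (t.2 - t.1) ∧
      w = cross (t.1 - s.1) (s.2 - s.1) / cross (s.2 - s.1) (t.2 - t.1) := by
  rw [Complex.ext_iff, eq_div_iff hD, eq_div_iff hD]
  simp only [mv]
  have hD' : (s.2.re - s.1.re) * (t.2.im - t.1.im) - (s.2.im - s.1.im) * (t.2.re - t.1.re) ≠ 0 := by
    intro h
    apply hD
    simp only [cross, Complex.sub_re, Complex.sub_im]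
    exact h
  simp only [cross, Complex.sub_re, Complex.sub_im]
  constructor
  · rintro ⟨h1, h2⟩
    constructor
    · linear_combination (t.2.im - t.1.im) * h1 - (t.2.re - t.1.re) * h2
    · linear_combination (s.2.im - s.1.im) * h1 - (s.2.re - s.1.re) * h2
  · rintro ⟨h1, h2⟩
    constructor
    · apply mul_left_cancel₀ hD'
      linear_combination (s.2.re - s.1.re) * h1 - (t.2.re - t.1.re) * h2
    · apply mul_left_cancel₀ hD'
      linear_combination (s.2.im - s.1.im) * h1 - (t.2.im - t.1.im) * h2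

theorem par {eps : ℝ} {s t : Seg} (hs : X eps s.1 < X eps s.2) (hr : X eps t.1 < X eps t.2)
    (hone : (carrier s ∩ carrier t).Subsingleton) (hD : cross (s.2 - s.1) (t.2 - t.1) = 0) {v : ℂ}
    (h1 : v ∈ carrier s) (h2 : v ∈ carrier t) : s.2 = t.1 ∨ t.2 = s.1 := by
  obtain ⟨a1, a2, a3⟩ := (mem_carrier_iff' hs v).1 h1
  obtain ⟨b1, b2, b3⟩ := (mem_carrier_iff' hr v).1 h2
  have hs1 := (mem_carrier_iff' hs s.1).1 (left_mem_carrier s)
  have hs2 := (mem_carrier_iff' hs s.2).1 (right_mem_carrier s)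
  have ht1 := (mem_carrier_iff' hr t.1).1 (left_mem_carrier t)
  have ht2 := (mem_carrier_iff' hr t.2).1 (right_mem_carrier t)
  have key : ∀ xi, X eps s.1 ≤ xi → xi ≤ X eps s.2 → X eps t.1 ≤ xi → xi ≤ X eps t.2 →
      pt eps xi (ht eps s xi) ∈ carrier s ∩ carrier t := by
    intro xi c1 c2 c3 c4
    refine ⟨pt_mem_carrier hs c1 c2, ?_⟩
    rw [mem_carrier_iff hr, X_pt]
    refine ⟨c3, c4, ?_⟩
    have e1 : ori s (pt eps xi (ht eps s xi)) = 0 := ori_pt_ht hs xi
    have e2 : ori s v = 0 := ((mem_carrier_iff hs v).1 h1).2.2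
    have e3 : ori t v = 0 := ((mem_carrier_iff hr v).1 h2).2.2
    rw [ori_eq eps, X_pt, pt_im] at e1
    rw [ori_eq eps] at e2 e3
    rw [ori_eq eps, X_pt, pt_im]
    rw [cross_eq eps, X_sub, X_sub, Complex.sub_im, Complex.sub_im] at hD
    have hA : X eps s.2 - X eps s.1 ≠ 0 := by linarith
    apply mul_left_cancel₀ hA
    rw [mul_zero]
    linear_combination (X eps t.2 - X eps t.1) * e1 - (X eps t.2 - X eps t.1) * e2 +
      (X eps s.2 - X eps s.1) * e3 - (xi - X eps v) * hD
  rcases le_or_gt (X eps s.2) (X eps t.1) with h | h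
  · left
    have g1 : X eps v = X eps s.2 := le_antisymm a2 (h.trans b1)
    have g2 : X eps v = X eps t.1 := le_antisymm (a2.trans h) b1
    have f1 : v = s.2 := ext_X g1 (by rw [a3, hs2.2.2, g1])
    have f2 : v = t.1 := ext_X g2 (by rw [b3, ht1.2.2, g2])
    rw [← f1, f2]
  rcases le_or_gt (X eps t.2) (X eps s.1) with h' | h'
  · right
    have g1 : X eps v = X eps t.2 := le_antisymm b2 (h'.trans a1)
    have g2 : X eps v = X eps s.1 := le_antisymm (b2.trans h') a1
    have f1 : v = t.2 := ext_X g1 (by rw [b3, ht2.2.2, g1])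
    have f2 : v = s.1 := ext_X g2 (by rw [a3, hs1.2.2, g2])
    rw [← f1, f2]
  exfalso
  have k1 := key (max (X eps s.1) (X eps t.1)) (le_max_left _ _) (max_le hs.le h.le)
    (le_max_right _ _) (max_le h'.le hr.le)
  have k2 := key (min (X eps s.2) (X eps t.2)) (le_min hs.le h'.le) (min_le_left _ _)
    (le_min h.le hr.le) (min_le_right _ _)
  have := congrArg (X eps) (hone k1 k2)
  rw [X_pt, X_pt] at this
  have h3 : max (X eps s.1) (X eps t.1) < min (X eps s.2) (X eps t.2) :=
    lt_min (max_lt hs h) (max_lt h' hr)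
  linarith

end MeetSAux

theorem meet_iff {eps : ℝ} {s t : Seg} (hs : X eps s.1 < X eps s.2) (ht : X eps t.1 < X eps t.2)
    (hone : (carrier s ∩ carrier t).Subsingleton) (v : ℂ) :
    meet s t = some v ↔ v ∈ carrier s ∧ v ∈ carrier t := by
  unfold meet
  by_cases hD : cross (s.2 - s.1) (t.2 - t.1) = 0
  · rw [if_pos hD]
    by_cases h1 : s.2 = t.1
    · rw [if_pos ((ptEq_iff _ _).2 h1), Option.some.injEq]
      constructor
      · rintro rfl
        exact ⟨right_mem_carrier s, h1 ▸ left_mem_carrier t⟩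
      · intro h
        exact hone ⟨right_mem_carrier s, h1 ▸ left_mem_carrier t⟩ h
    · rw [if_neg (fun h => h1 ((ptEq_iff _ _).1 h))]
      by_cases h2 : t.2 = s.1
      · rw [if_pos ((ptEq_iff _ _).2 h2), Option.some.injEq]
        constructor
        · rintro rfl
          exact ⟨left_mem_carrier s, h2 ▸ right_mem_carrier t⟩
        · intro h
          exact hone ⟨left_mem_carrier s, h2 ▸ right_mem_carrier t⟩ h
      · rw [if_neg (fun h => h2 ((ptEq_iff _ _).1 h))]
        constructor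
        · intro h
          exact absurd h (by simp)
        · rintro ⟨h3, h4⟩
          rcases MeetSAux.par hs ht hone hD h3 h4 with h | h
          · exact absurd h h1
          · exact absurd h h2
  · rw [if_neg hD]
    constructor
    · intro h
      split_ifs at h with hc
      rw [Option.some.injEq] at h
      rw [← h]
      refine ⟨MeetSAux.mem_seg.2 ⟨_, hc.1, hc.2.1, rfl⟩,
        MeetSAux.mem_seg.2 ⟨_, hc.2.2.1, hc.2.2.2, ?_⟩⟩
      exact (MeetSAux.cramer hD).2 ⟨rfl, rfl⟩
    · rintro ⟨h3, h4⟩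
      obtain ⟨u, u0, u1, hu⟩ := MeetSAux.mem_seg.1 h3
      obtain ⟨w, w0, w1, hw⟩ := MeetSAux.mem_seg.1 h4
      obtain ⟨e1, e2⟩ := (MeetSAux.cramer hD).1 (hu.symm.trans hw)
      rw [← e1, ← e2, if_pos ⟨u0, u1, w0, w1⟩, hu]

theorem meet_iff_S {eps : ℝ} {S : Finset Seg} {x : ℂ} (hG : Gen eps S x) {s t : Seg} (hs : s ∈ S)
    (ht : t ∈ S) (hst : s ≠ t) (v : ℂ) : v ∈ meet s t ↔ v ∈ carrier s ∧ v ∈ carrier t :=
  meet_iff (hG.inc s hs) (hG.inc t ht) (hG.one s hs t ht hst) v

theorem meet_none_S {eps : ℝ} {S : Finset Seg} {x : ℂ} (hG : Gen eps S x) {s t : Seg} (hs : s ∈ S)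
    (ht : t ∈ S) (hst : s ≠ t) (h : meet s t = none) (v : ℂ) (h1 : v ∈ carrier s) :
    v ∉ carrier t := by
  intro h2
  have := (meet_iff_S hG hs ht hst v).2 ⟨h1, h2⟩
  rw [h] at this
  simp at this

/-- Two different segments of `S` that both extend over an open interval of abscissas and have no common
point there are in constant vertical order.  Proof: the difference of the heights is affine; if it vanished at `c ∈ (a, a')`
then `pt eps c (ht eps s c)` would be a common point (`pt_mem_carrier`); so it has constant sign (intermediate value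
theorem, `continuous_ht`). -/
theorem ht_order {eps : ℝ} {S : Finset Seg} {x : ℂ} (hG : Gen eps S x) {s t : Seg} (hs : s ∈ S)
    (ht' : t ∈ S) {a a' : ℝ} (hs1 : X eps s.1 ≤ a) (hs2 : a' ≤ X eps s.2)
    (ht1 : X eps t.1 ≤ a) (ht2 : a' ≤ X eps t.2)
    (hno : ∀ w, w ∈ carrier s → w ∈ carrier t → ¬ (a < X eps w ∧ X eps w < a')) :
    (∀ c, a < c → c < a' → ht eps t c < ht eps s c) ∨
      (∀ c, a < c → c < a' → ht eps s c < ht eps t c) := by
  have hne : ∀ c, a < c → c < a' → ht eps s c - ht eps t c ≠ 0 := by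
    intro c h1 h2 h3
    have m1 : pt eps c (ht eps s c) ∈ carrier s :=
      pt_mem_carrier (hG.inc s hs) (hs1.trans h1.le) (h2.le.trans hs2)
    have m2 : pt eps c (ht eps s c) ∈ carrier t := by
      rw [sub_eq_zero.1 h3]
      exact pt_mem_carrier (hG.inc t ht') (ht1.trans h1.le) (h2.le.trans ht2)
    exact hno _ m1 m2 ⟨by rwa [X_pt], by rwa [X_pt]⟩
  have hcont : Continuous (fun c => ht eps s c - ht eps t c) :=
    (continuous_ht eps s).sub (continuous_ht eps t)
  by_contra hcon
  push Not at hcon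
  obtain ⟨⟨c1, h1, h2, h3⟩, c2, h4, h5, h6⟩ := hcon
  have hz : (0 : ℝ) ∈ Set.uIcc (ht eps s c1 - ht eps t c1) (ht eps s c2 - ht eps t c2) := by
    rw [Set.mem_uIcc]
    left
    constructor <;> linarith
  obtain ⟨c, hc, hc0⟩ := intermediate_value_uIcc (hcont.continuousOn) hz
  have hc1 : a < c ∧ c < a' := by
    rw [Set.mem_uIcc] at hc
    rcases hc with hc | hc
    · exact ⟨lt_of_lt_of_le h1 hc.1, lt_of_le_of_lt hc.2 h5⟩
    · exact ⟨lt_of_lt_of_le h4 hc.1, lt_of_le_of_lt hc.2 h2⟩
  exact hne c hc1.1 hc1.2 hc0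

end SFA
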