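import Pool.Agent.Lib.SFA.TestB
import Pool.Agent.Lib.SFA.MeetS

/-!
# SFA.CritS: the list of critical points in a cell, removal of repetitions
-/

namespace SFA

namespace CritSAux

theorem dedupB_cons {α : Type} (e : α → α → Bool) (a : α) (l : List α) :
    dedupB e (a :: l) = if (dedupB e l).any (fun b => e a b) then dedupB e l
      else a :: dedupB e l := rfl

theorem mem_dedup {α : Type} {e : α → α → Bool} (he : ∀ a b, e a b = true ↔ a = b) (l : List α) :
    ∀ a : α, a ∈ dedupB e l ↔ a ∈ l := by
  induction l with
  | nil => intro a; simp [dedupB]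
  | cons x l ih =>
    intro a
    rw [dedupB_cons]
    by_cases h : (dedupB e l).any (fun b => e x b) = true
    · rw [if_pos h]
      rw [List.any_eq_true] at h
      obtain ⟨b, hb, hxb⟩ := h
      have hxb' : x = b := (he x b).mp hxb
      rw [List.mem_cons, ih]
      constructor
      · exact Or.inr
      · rintro (h1 | h1)
        · rw [h1, hxb']
          exact (ih b).mp hb
        · exact h1
    · rw [if_neg h, List.mem_cons, List.mem_cons, ih]

end CritSAux

/-- `dedupB` keeps the elements. -/
theorem mem_dedupB {α : Type} {e : α → α → Bool} (he : ∀ a b, e a b = true ↔ a = b) (l : List α)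
    (a : α) : a ∈ dedupB e l ↔ a ∈ l :=
  CritSAux.mem_dedup he l a

theorem nodup_dedupB {α : Type} {e : α → α → Bool} (he : ∀ a b, e a b = true ↔ a = b)
    (l : List α) : (dedupB e l).Nodup := by
  induction l with
  | nil => simp [dedupB]
  | cons x l ih =>
    rw [CritSAux.dedupB_cons]
    by_cases h : (dedupB e l).any (fun b => e x b) = true
    · rw [if_pos h]
      exact ih
    · rw [if_neg h, List.nodup_cons]
      refine ⟨fun hx => h ?_, ih⟩
      rw [List.any_eq_true]
      exact ⟨x, hx, (he x x).mpr rfl⟩

theorem length_dedupB_le {α : Type} (e : α → α → Bool) (l : List α) :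
    (dedupB e l).length ≤ l.length := by
  induction l with
  | nil => simp [dedupB]
  | cons x l ih =>
    rw [CritSAux.dedupB_cons]
    by_cases h : (dedupB e l).any (fun b => e x b) = true
    · rw [if_pos h, List.length_cons]
      omega
    · rw [if_neg h, List.length_cons, List.length_cons]
      omega

/-- The list `critL c N` consists of the critical points of `N`, bottom and top in `hreg c`.

Proof.  `hregB_iff` (the points are critical for `S`).  (⇒) endpoints of `N`, common points (`meet_iff_S`) of `s ∈ N` and `t ∈ N ∪ {b, t}`, `t ≠ s` (`sgEq_iff`): critical.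
(⇐) A critical point `v ∈ hreg c` of `N ∪ {b, t}`: endpoint of a segment of `N`: in the list.  Endpoint of `b` (or `t`): `spans` gives `X b.1 ≤ X p < X v` and
`X v < X q ≤ X b.2`, impossible.  Common point of two different segments, at least one in `N`: in the list (if `s ∉ N`, `t ∈ N` exchange them).  Common point of `b` and `t`:
impossible by `bt` (`ori t v < 0` and `ori t v = 0`). -/
theorem mem_critL {eps : ℝ} {S : Finset Seg} {x : ℂ} (hG : Gen eps S x) (hL : LexOK eps S x)
    {c : Cell} (h0 : Shape0 eps c) (hd : Defd S c) {N : List Seg} (hN : ∀ s ∈ N, s ∈ S) (v : ℂ) :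
    v ∈ critL c N ↔
      v ∈ hreg eps c ∧ IsCrit (N.toFinset ∪ (c.b.toFinset ∪ c.t.toFinset)) v := by
  have hM : N.toFinset ∪ (c.b.toFinset ∪ c.t.toFinset) ⊆ S := by
    intro s hs
    rw [Finset.mem_union, Finset.mem_union, List.mem_toFinset, Option.mem_toFinset,
      Option.mem_toFinset] at hs
    rcases hs with h | h | h
    · exact hN s h
    · exact hd.bR s h
    · exact hd.tR s h
  have memN : ∀ s ∈ N, s ∈ N.toFinset ∪ (c.b.toFinset ∪ c.t.toFinset) := by
    intro s hs
    rw [Finset.mem_union, List.mem_toFinset]
    exact Or.inl hs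
  have memb : ∀ s ∈ c.b, s ∈ N.toFinset ∪ (c.b.toFinset ∪ c.t.toFinset) := by
    intro s hs
    rw [Finset.mem_union, Finset.mem_union, Option.mem_toFinset]
    exact Or.inr (Or.inl hs)
  have memt : ∀ s ∈ c.t, s ∈ N.toFinset ∪ (c.b.toFinset ∪ c.t.toFinset) := by
    intro s hs
    rw [Finset.mem_union, Finset.mem_union, Option.mem_toFinset, Option.mem_toFinset]
    exact Or.inr (Or.inr hs)
  unfold critL
  rw [List.mem_filter, List.mem_append, List.mem_flatMap, List.mem_flatMap]
  constructor
  · rintro ⟨h1, h2⟩
    have hc : IsCrit (N.toFinset ∪ (c.b.toFinset ∪ c.t.toFinset)) v := by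
      rcases h1 with ⟨s, hs, h3⟩ | ⟨s, hs, h3⟩
      · rw [List.mem_cons, List.mem_singleton] at h3
        exact Or.inl ⟨s, memN s hs, h3⟩
      · rw [List.mem_flatMap] at h3
        obtain ⟨t, ht, h4⟩ := h3
        rw [List.mem_append, List.mem_append, Option.mem_toList, Option.mem_toList] at ht
        have htM : t ∈ N.toFinset ∪ (c.b.toFinset ∪ c.t.toFinset) := by
          rcases ht with (ht | ht) | ht
          · exact memb t ht
          · exact memt t ht
          · exact memN t ht
        by_cases hst : sgEq s t = true
        · rw [if_pos hst] at h4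
          simp at h4
        · rw [if_neg hst, Option.mem_toList] at h4
          have hne : s ≠ t := fun h => hst ((sgEq_iff s t).mpr h)
          have h5 := (meet_iff_S hG (hN s hs) (hM htM) hne v).mp h4
          exact Or.inr ⟨s, memN s hs, t, htM, hne, h5.1, h5.2⟩
    exact ⟨(hregB_iff hL hd.pC hd.qC (Or.inl (hc.mono hM))).mp h2, hc⟩
  · rintro ⟨h1, hc⟩
    refine ⟨?_, (hregB_iff hL hd.pC hd.qC (Or.inl (hc.mono hM))).mpr h1⟩
    have hslab : inSlab eps c v := h1.1
    -- a segment that spans has no endpoint in the slab
    have hsp : ∀ s, spans eps c s → ¬ (v = s.1 ∨ v = s.2) := by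
      rintro s ⟨⟨p, hp, hp1⟩, ⟨q, hq, hq1⟩⟩ h
      have k1 := hslab.1 p hp
      have k2 := hslab.2 q hq
      rcases h with h | h
      · rw [← h] at hp1
        linarith
      · rw [← h] at hq1
        linarith
    -- bottom and top have no common point in the slab
    have hbt : ∀ b ∈ c.b, ∀ t ∈ c.t, v ∈ carrier b → v ∈ carrier t → False := by
      intro b hb t ht k1 k2
      have k3 := h0.bt b hb t ht v k1 hslab
      have k4 := ((mem_carrier_iff (hG.inc t (hd.tR t ht)) v).mp k2).2.2
      linarith
    have hpair : ∀ s ∈ N, ∀ t ∈ N.toFinset ∪ (c.b.toFinset ∪ c.t.toFinset), s ≠ t →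
        v ∈ carrier s → v ∈ carrier t →
        ∃ a ∈ N, v ∈ List.flatMap (fun t => if sgEq a t = true then [] else (meet a t).toList)
          (c.b.toList ++ c.t.toList ++ N) := by
      intro s hs t ht hne k1 k2
      refine ⟨s, hs, ?_⟩
      rw [List.mem_flatMap]
      refine ⟨t, ?_, ?_⟩
      · rw [Finset.mem_union, Finset.mem_union, List.mem_toFinset, Option.mem_toFinset,
          Option.mem_toFinset] at ht
        rw [List.mem_append, List.mem_append, Option.mem_toList, Option.mem_toList]
        tauto
      · rw [if_neg (fun h => hne ((sgEq_iff s t).mp h)), Option.mem_toList]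
        exact (meet_iff_S hG (hN s hs) (hM ht) hne v).mpr ⟨k1, k2⟩
    rcases hc with ⟨s, hs, h3⟩ | ⟨s, hs, t, ht, hne, k1, k2⟩
    · left
      rw [Finset.mem_union, Finset.mem_union, List.mem_toFinset, Option.mem_toFinset,
        Option.mem_toFinset] at hs
      rcases hs with h | h | h
      · refine ⟨s, h, ?_⟩
        rw [List.mem_cons, List.mem_singleton]
        exact h3
      · exact absurd h3 (hsp s (h0.bs s h))
      · exact absurd h3 (hsp s (h0.ts s h))
    · right
      have hs' := hs
      have ht' := ht
      rw [Finset.mem_union, Finset.mem_union, List.mem_toFinset, Option.mem_toFinset,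
        Option.mem_toFinset] at hs' ht'
      rcases hs' with h | h | h
      · exact hpair s h t ht hne k1 k2
      · rcases ht' with h' | h' | h'
        · exact hpair t h' s hs hne.symm k2 k1
        · exact absurd (Option.mem_unique h h') hne
        · exact (hbt s h t h' k1 k2).elim
      · rcases ht' with h' | h' | h'
        · exact hpair t h' s hs hne.symm k2 k1
        · exact (hbt t h' s h k2 k1).elim
        · exact absurd (Option.mem_unique h h') hne

end SFA
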