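import Pool.Agent.Lib.SFA.ODefs

/-!
# SFA.CycL: cyclic lists

`cyc l` = the list of cyclically consecutive pairs, `cyc3 l` = triples (ODefs.lean).  `cyc_map`, `cyc3_map`, `cyc_fst`, `cyc_snd`, `cyc3_pairs`: direct (unfold; `List.zip`, `List.rotate`).
`cyc_filter`: the elements with `E` of a cyclic list.  Let `p = (a, b) ∈ cyc (C.filter E)`.  Write `C = u ++ a :: w` for the occurrence of `a` concerned; if `w` contains an element with `E`, then `b` is the first one, and the elements between give the chain; otherwise `b` is the first element with `E` of `u ++ [a]`, and the chain goes through the end of `C` (the pair (last, first) is in `cyc C`).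
(One way: both sides are compatible with rotations (`List.filter` of a rotation is a rotation of the filtered list), rotate `C` so that it starts with `a`; then `C = a :: w`, `C.filter E = a :: w.filter E`, and `b` is the head of `w.filter E ++ [a]`; induct on `w`.)
-/

namespace SFA

theorem cyc_map {α β : Type} (f : α → β) (l : List α) :
    cyc (l.map f) = (cyc l).map (Prod.map f f) := by
  unfold cyc
  rw [← List.map_rotate, List.zip_map]

theorem cyc3_map {α β : Type} (f : α → β) (l : List α) :
    cyc3 (l.map f) = (cyc3 l).map (Prod.map f (Prod.map f f)) := by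
  unfold cyc3
  rw [← List.map_rotate, ← List.map_rotate, List.zip_map, List.zip_map]

theorem cyc_fst {α : Type} (l : List α) : (cyc l).map Prod.fst = l := by
  unfold cyc
  exact List.map_fst_zip (by rw [List.length_rotate])

theorem cyc_snd {α : Type} (l : List α) : (cyc l).map Prod.snd = l.rotate 1 := by
  unfold cyc
  exact List.map_snd_zip (by rw [List.length_rotate])

theorem cyc3_pairs {α : Type} {l : List α} {a b c : α} (h : (a, b, c) ∈ cyc3 l) :
    (a, b) ∈ cyc l ∧ (b, c) ∈ cyc l := by
  unfold cyc3 at h
  unfold cyc
  obtain ⟨i, hi, he⟩ := List.mem_iff_getElem.1 h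
  have hn : i < l.length := by
    rw [List.length_zip] at hi
    exact lt_of_lt_of_le hi (min_le_left _ _)
  have hpos : 0 < l.length := lt_of_le_of_lt (Nat.zero_le _) hn
  rw [List.getElem_zip, List.getElem_zip, List.getElem_rotate, List.getElem_rotate,
    Prod.mk.injEq, Prod.mk.injEq] at he
  obtain ⟨h1, h2, h3⟩ := he
  refine ⟨List.mem_iff_getElem.2 ⟨i, ?_, ?_⟩, List.mem_iff_getElem.2 ⟨(i + 1) % l.length, ?_, ?_⟩⟩
  · rw [List.length_zip, List.length_rotate, min_self]; exact hn
  · rw [List.getElem_zip, List.getElem_rotate, h1, h2]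
  · rw [List.length_zip, List.length_rotate, min_self]; exact Nat.mod_lt _ hpos
  · rw [List.getElem_zip, List.getElem_rotate, h2, Prod.mk.injEq]
    refine ⟨rfl, ?_⟩
    rw [← h3]
    congr 1
    rw [Nat.mod_add_mod]

/-- `b` is the first element after `a` with `E` (`N` = next) -/
def NextE {α : Type} (N : α → α → Prop) (E : α → Bool) (a b : α) : Prop :=
  ∃ m, Relation.ReflTransGen (fun x y => N x y ∧ E y = false) a m ∧ N m b ∧ E b = true

theorem CycLAux.cyc_cons {α : Type} (a : α) (w : List α) :
    cyc (a :: w) = (a :: w).zip (w ++ [a]) := by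
  unfold cyc
  rw [List.rotate_cons_succ, List.rotate_zero]

theorem CycLAux.mem_cyc_rotate {α : Type} (l : List α) (k : ℕ) (p : α × α) :
    p ∈ cyc (l.rotate k) ↔ p ∈ cyc l := by
  have h : cyc (l.rotate k) = (cyc l).rotate k := by
    unfold cyc
    rw [List.zip_eq_zipWith, List.zip_eq_zipWith,
      List.zipWith_rotate_distrib _ _ _ _ (by rw [List.length_rotate]),
      List.rotate_rotate, List.rotate_rotate, add_comm]
  rw [h, List.mem_rotate]

theorem CycLAux.path {α : Type} (N : α → α → Prop) (E : α → Bool) (w : List α) (b : α)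
    (hb : E b = true) : ∀ a m : α,
    Relation.ReflTransGen (fun x y => N x y ∧ E y = false) a m →
    (∀ p ∈ (m :: w).zip (w ++ [b]), N p.1 p.2) →
    ∀ p ∈ (a :: w.filter E).zip (w.filter E ++ [b]), NextE N E p.1 p.2 := by
  induction w with
  | nil =>
    intro a m hm hN p hp
    simp only [List.filter_nil, List.nil_append, List.zip_cons_cons, List.zip_nil_left,
      List.mem_singleton] at hp hN
    rw [hp]
    exact ⟨m, hm, hN (m, b) rfl, hb⟩
  | cons c w ih =>
    intro a m hm hN p hp
    rw [List.cons_append, List.zip_cons_cons, List.forall_mem_cons] at hN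
    by_cases hc : E c = true
    · rw [List.filter_cons_of_pos hc, List.cons_append, List.zip_cons_cons, List.mem_cons] at hp
      rcases hp with hp | hp
      · rw [hp]
        exact ⟨m, hm, hN.1, hc⟩
      · exact ih c c Relation.ReflTransGen.refl hN.2 p hp
    · rw [List.filter_cons_of_neg hc] at hp
      exact ih a c (hm.tail ⟨hN.1, by simpa using hc⟩) hN.2 p hp

/-- the elements with `E` of a cyclic list -/
theorem cyc_filter {α : Type} (N : α → α → Prop) (E : α → Bool) (C : List α)
    (hC : ∀ p ∈ cyc C, N p.1 p.2) : ∀ p ∈ cyc (C.filter E), NextE N E p.1 p.2 := by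
  rcases hf : C.filter E with _ | ⟨a, r⟩
  · intro p hp
    simp [cyc] at hp
  · obtain ⟨u, w, h1, h2, h3, h4⟩ := List.filter_eq_cons_iff.1 hf
    have hu : u.filter E = [] := List.filter_eq_nil_iff.2 h2
    have hrot : C.rotate u.length = a :: (w ++ u) := by
      rw [h1, List.rotate_append_length_eq, List.cons_append]
    have hN : ∀ p ∈ (a :: (w ++ u)).zip ((w ++ u) ++ [a]), N p.1 p.2 := by
      intro p hp
      apply hC
      rw [← CycLAux.mem_cyc_rotate C u.length, hrot, CycLAux.cyc_cons]
      exact hp
    have h5 := CycLAux.path N E (w ++ u) a h3 a a Relation.ReflTransGen.refl hN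
    rw [List.filter_append, hu, List.append_nil, h4] at h5
    rw [CycLAux.cyc_cons]
    exact h5

theorem CycLAux.path2 {α : Type} (N : α → α → Prop) (E : α → Bool) (w : List α) (b : α)
    (hb : E b = false) (a : α) : ∀ m : α, (∀ c ∈ w, E c = false) →
    Relation.ReflTransGen (fun x y => N x y ∧ E y = false) a m →
    (∀ p ∈ (m :: w).zip (w ++ [b]), N p.1 p.2) →
    Relation.TransGen (fun x y => N x y ∧ E y = false) a b := by
  induction w with
  | nil =>
    intro m _ hm hN
    simp only [List.nil_append, List.zip_cons_cons, List.zip_nil_left,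
      List.mem_singleton] at hN
    exact Relation.TransGen.tail' hm ⟨hN (m, b) rfl, hb⟩
  | cons c w ih =>
    intro m hw hm hN
    rw [List.cons_append, List.zip_cons_cons, List.forall_mem_cons] at hN
    exact ih c (fun d hd => hw d (List.mem_cons_of_mem _ hd))
      (hm.tail ⟨hN.1, hw c List.mem_cons_self⟩) hN.2

/-- if no element of a nonempty cyclic list has `E`, the relation `N` restricted to the elements without `E` has a cycle through the first element (the whole list) -/
theorem cyc_noE {α : Type} (N : α → α → Prop) (E : α → Bool) {C : List α} (hne : C ≠ [])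
    (hC : ∀ p ∈ cyc C, N p.1 p.2) (hE : ∀ a ∈ C, E a = false) :
    ∃ a ∈ C, Relation.TransGen (fun x y => N x y ∧ E y = false) a a := by
  rcases C with _ | ⟨a, w⟩
  · exact absurd rfl hne
  · rw [CycLAux.cyc_cons] at hC
    exact ⟨a, List.mem_cons_self, CycLAux.path2 N E w a (hE a List.mem_cons_self) a a
      (fun c hc => hE c (List.mem_cons_of_mem _ hc)) Relation.ReflTransGen.refl hC⟩

end SFA
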