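import Pool.Agent.Lib.SFA.Alg
import Pool.Agent.Lib.SFA.CycL

/-!
# SFA.CycM: `cyclesM` lists the cycles of a partial permutation

`cyc C` = the list of cyclically consecutive pairs (ODefs.lean; facts in CycL.lean).  Hypotheses: the values of `nxt` are again in its domain, `nxt` is injective.  So the domain `D` is a finite set and `nxt` a permutation of it.  Invariant of `cycStep`, for states reachable from `(range n, [], [], fun _ => false)`, `n = nxt.length`: (1) the visited indices are exactly the elements of the finished paths and of the current path;
all of them are in `D`, together they form a Nodup list; (2) every finished path `p` (reversed: `C = p.reverse`) is a cycle: `C ≠ []` and `nxt a = some b` for all `(a, b) ∈ cyc C`; (3) the current path (reversed) is a path: consecutive elements are related by `nxt`; (4) every index `< n` that is not in the list `rest` and is in `D` is visited; `rest` is a suffix of `range n`.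
When the next element `b` of the current path with last element `a` is already visited: `b` is not in a finished cycle `C` (otherwise `nxt a' = some b` for some `a' ∈ C` by (2), `a = a'` by injectivity, `a` would be in two paths, against Nodup), so `b` is in the current path; if it is not the first element, its predecessor `a'` has `nxt a' = some b`, `a' = a`: against Nodup (`b` would follow the last element).
So `b` is the first element: the path is a cycle.  Number of steps: potential `|rest| + 2 (number of elements of D not visited) + [current path nonempty]`: a scan step lowers it by at least 1 (starting a path: `-1 - 2 + 1`), an extension by 2, closing by 1.  It starts with `n + 2 |D| ≤ 3 n` and while it is positive the state is not final (a state with potential 0 is `([], [], ..)` and fixed).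
In the final state: `rest = []`, current path `[]`: by (4) and (1) the finished paths contain exactly `D` (`nxt.getD a none = some b` implies `a < n`).
-/

namespace SFA

namespace CycMAux

abbrev St := List ℕ × List ℕ × List (List ℕ) × (ℕ → Bool)

/-- the not visited elements of the domain -/
def U (nxt : List (Option ℕ)) (vis : ℕ → Bool) : Finset ℕ :=
  (Finset.range nxt.length).filter (fun a => (nxt.getD a none).isSome = true ∧ vis a = false)

/-- the potential -/
def pot (nxt : List (Option ℕ)) (s : St) : ℕ :=
  s.1.length + 2 * (U nxt s.2.2.2).card + min 1 s.2.1.length

/-- the invariant -/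
structure Inv (nxt : List (Option ℕ)) (s : St) : Prop where
  vis : ∀ a, s.2.2.2 a = true ↔ a ∈ s.2.1 ∨ a ∈ s.2.2.1.flatten
  nodup : (s.2.1 ++ s.2.2.1.flatten).Nodup
  dom : ∀ a, a ∈ s.2.1 ∨ a ∈ s.2.2.1.flatten → (nxt.getD a none).isSome = true
  fin : ∀ p ∈ s.2.2.1, p ≠ [] ∧ ∀ q ∈ cyc p.reverse, nxt.getD q.1 none = some q.2
  path : s.2.1.IsChain (fun b a => nxt.getD a none = some b)
  scan : ∀ a, (nxt.getD a none).isSome = true → a ∉ s.1 → s.2.2.2 a = true

theorem lt_of_isSome {nxt : List (Option ℕ)} {a : ℕ} (h : (nxt.getD a none).isSome = true) :
    a < nxt.length := by
  by_contra hge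
  rw [List.getD_eq_default _ _ (by omega)] at h
  simp at h

theorem card_U_update {nxt : List (Option ℕ)} {vis : ℕ → Bool} {a : ℕ}
    (h : (nxt.getD a none).isSome = true) (hv : vis a = false) :
    (U nxt (Function.update vis a true)).card + 1 = (U nxt vis).card := by
  have hmem : a ∈ U nxt vis := by
    simp only [U, Finset.mem_filter, Finset.mem_range]
    exact ⟨lt_of_isSome h, h, hv⟩
  have : U nxt (Function.update vis a true) = (U nxt vis).erase a := by
    ext b
    simp only [U, Finset.mem_filter, Finset.mem_range, Finset.mem_erase]
    by_cases hb : b = a
    · subst hb
      simp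
    · rw [Function.update_of_ne hb]
      tauto
  rw [this, Finset.card_erase_of_mem hmem]
  have : 0 < (U nxt vis).card := Finset.card_pos.2 ⟨a, hmem⟩
  omega

theorem zip_chain {R : ℕ → ℕ → Prop} : ∀ (t : List ℕ) (x y a : ℕ) (w : List ℕ),
    (x :: t).IsChain R → x :: t = w ++ [a] → R a y →
    ∀ p ∈ (x :: t).zip (t ++ [y]), R p.1 p.2
  | [], x, y, a, w, _, he, hR => by
    intro p hp
    have hxa : x = a := by
      rcases w with _ | ⟨c, w⟩
      · simpa using he
      · simp at he
    subst hxa
    simp at hp
    subst hp
    exact hR
  | z :: t, x, y, a, w, hc, he, hR => by
    intro p hp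
    rw [List.isChain_cons_cons] at hc
    rcases w with _ | ⟨c, w⟩
    · simp at he
    · simp only [List.cons_append, List.cons.injEq] at he
      simp only [List.cons_append, List.zip_cons_cons, List.mem_cons] at hp
      rcases hp with rfl | hp
      · exact hc.1
      · exact zip_chain t z y a w hc.2 he.2 hR p hp

/-- the current path is closed -/
theorem close {nxt : List (Option ℕ)}
    (hinj : ∀ a a' b, nxt.getD a none = some b → nxt.getD a' none = some b → a = a')
    {sc : List ℕ} {a b : ℕ} {c : List ℕ} {dn : List (List ℕ)} {vis : ℕ → Bool}
    (h : Inv nxt (sc, a :: c, dn, vis)) (hb : nxt.getD a none = some b) (hv : vis b = true) :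
    ∀ q ∈ cyc (a :: c).reverse, nxt.getD q.1 none = some q.2 := by
  have hnd : ((a :: c) ++ dn.flatten).Nodup := h.nodup
  have hpath : (a :: c).IsChain (fun b a => nxt.getD a none = some b) := h.path
  rcases (h.vis b).1 hv with hbc | hbd
  · -- `b` is in the current path
    have hbc : b ∈ a :: c := hbc
    obtain ⟨u, v, huv⟩ := List.append_of_mem hbc
    rcases v with _ | ⟨a', v⟩
    · -- closed
      have hrev : (a :: c).reverse = b :: u.reverse := by
        rw [huv]; simp
      have hrev2 : b :: u.reverse = c.reverse ++ [a] := by
        rw [← hrev]; simp
      have hch : (b :: u.reverse).IsChain (fun a b => nxt.getD a none = some b) := by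
        rw [← hrev, List.isChain_reverse]
        exact hpath
      have := zip_chain (R := fun a b => nxt.getD a none = some b) u.reverse b b a c.reverse
        hch hrev2 hb
      intro q hq
      rw [hrev] at hq
      apply this q
      simpa [cyc] using hq
    · exfalso
      have hch : (u ++ b :: a' :: v).IsChain (fun b a => nxt.getD a none = some b) := by
        rw [← huv]; exact hpath
      have h2 : nxt.getD a' none = some b := by
        have h3 := (List.isChain_append.1 hch).2.1
        rw [List.isChain_cons_cons] at h3
        exact h3.1
      have h4 : a = a' := hinj a a' b hb h2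
      have h5 : (a :: c).Nodup := (List.nodup_append.1 hnd).1
      rcases u with _ | ⟨d, u⟩
      · simp only [List.nil_append, List.cons.injEq] at huv
        rw [List.nodup_cons] at h5
        apply h5.1
        rw [huv.2, h4]
        simp
      · simp only [List.cons_append, List.cons.injEq] at huv
        rw [List.nodup_cons] at h5
        apply h5.1
        rw [huv.2, h4]
        simp
  · exfalso
    have hbd : b ∈ dn.flatten := hbd
    obtain ⟨p, hp, hbp⟩ := List.mem_flatten.1 hbd
    have h1 := (h.fin p hp).2
    have h2 : b ∈ (cyc p.reverse).map Prod.snd := by
      rw [cyc_snd, List.mem_rotate, List.mem_reverse]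
      exact hbp
    obtain ⟨⟨a', b'⟩, hq, hqb⟩ := List.mem_map.1 h2
    simp only at hqb
    subst hqb
    have h3 := h1 _ hq
    simp only at h3
    have h4 : a = a' := hinj a a' _ hb h3
    have h5 : a' ∈ p := by
      have : a' ∈ (cyc p.reverse).map Prod.fst := List.mem_map.2 ⟨_, hq, rfl⟩
      rw [cyc_fst, List.mem_reverse] at this
      exact this
    have h6 : a ∈ dn.flatten := List.mem_flatten.2 ⟨p, hp, h4 ▸ h5⟩
    exact (List.nodup_append.1 hnd).2.2 a List.mem_cons_self a h6 rfl

theorem step {nxt : List (Option ℕ)}
    (hr : ∀ a b, nxt.getD a none = some b → (nxt.getD b none).isSome = true)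
    (hinj : ∀ a a' b, nxt.getD a none = some b → nxt.getD a' none = some b → a = a')
    (s : St) (h : Inv nxt s) :
    Inv nxt (cycStep nxt s) ∧ (pot nxt (cycStep nxt s) + 1 ≤ pot nxt s ∨
      (pot nxt s = 0 ∧ cycStep nxt s = s)) := by
  obtain ⟨sc, cur, dn, vis⟩ := s
  rcases cur with _ | ⟨a, c⟩
  · rcases sc with _ | ⟨a, rest⟩
    · refine ⟨h, Or.inr ⟨?_, rfl⟩⟩
      have : U nxt vis = ∅ := by
        ext a
        simp only [U, Finset.mem_filter, Finset.mem_range, Finset.notMem_empty, iff_false]
        rintro ⟨_, h2, h3⟩
        have := h.scan a h2 (by simp)
        simp only at this
        rw [h3] at this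
        simp at this
      simp [pot, this]
    · by_cases hc : (vis a || (nxt.getD a none).isNone) = true
      · have e : cycStep nxt (a :: rest, [], dn, vis) = (rest, [], dn, vis) := by
          simp only [cycStep, hc, if_true]
        rw [e]
        refine ⟨⟨h.vis, h.nodup, h.dom, h.fin, h.path, ?_⟩, Or.inl ?_⟩
        · intro b hb hbn
          by_cases hba : b = a
          · subst hba
            rw [Bool.or_eq_true] at hc
            rcases hc with hc | hc
            · exact hc
            · simp only at hbn ⊢
              rw [Option.isNone_iff_eq_none] at hc
              rw [hc] at hb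
              simp at hb
          · refine h.scan b hb ?_
            intro hm
            rcases List.mem_cons.1 hm with hm | hm
            · exact hba hm
            · exact hbn hm
        · simp only [pot, List.length_cons]
          omega
      · have e : cycStep nxt (a :: rest, [], dn, vis) =
            (rest, [a], dn, Function.update vis a true) := by
          simp only [cycStep, hc]
          rfl
        rw [e]
        rw [Bool.or_eq_true, not_or] at hc
        have hva : vis a = false := by simpa using hc.1
        have hsa : (nxt.getD a none).isSome = true := by
          rcases hn : nxt.getD a none with _ | b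
          · exact absurd (by rw [hn]; rfl) hc.2
          · rfl
        have hna : a ∉ dn.flatten := by
          intro hm
          have := (h.vis a).2 (Or.inr hm)
          simp only at this
          rw [hva] at this
          simp at this
        refine ⟨⟨?_, ?_, ?_, h.fin, ?_, ?_⟩, Or.inl ?_⟩
        · intro b
          by_cases hba : b = a
          · subst hba; simp
          · have := h.vis b
            simp only [Function.update_of_ne hba] at this ⊢
            rw [this]
            simp [hba]
        · simp only [List.cons_append, List.nil_append, List.nodup_cons]
          exact ⟨hna, by simpa using h.nodup⟩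
        · intro b hb
          rcases hb with hb | hb
          · have : b = a := by simpa using hb
            subst this; exact hsa
          · exact h.dom b (Or.inr hb)
        · simp
        · intro b hb hbn
          by_cases hba : b = a
          · subst hba; simp
          · simp only [Function.update_of_ne hba]
            refine h.scan b hb ?_
            intro hm
            rcases List.mem_cons.1 hm with hm | hm
            · exact hba hm
            · exact hbn hm
        · have := card_U_update hsa hva
          simp only [pot, List.length_cons, List.length_nil] at *
          omega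
  · rcases hb : nxt.getD a none with _ | b
    · exfalso
      have := h.dom a (Or.inl List.mem_cons_self)
      rw [hb] at this
      simp at this
    · rcases hv : vis b with _ | _
      · have e : cycStep nxt (sc, a :: c, dn, vis) =
            (sc, b :: a :: c, dn, Function.update vis b true) := by
          simp only [cycStep, hb, hv]
          rfl
        rw [e]
        have hsb := hr a b hb
        have hnb : b ∉ (a :: c) ∧ b ∉ dn.flatten := by
          constructor
          · intro hm
            have := (h.vis b).2 (Or.inl hm)
            simp only at this
            rw [hv] at this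
            simp at this
          · intro hm
            have := (h.vis b).2 (Or.inr hm)
            simp only at this
            rw [hv] at this
            simp at this
        refine ⟨⟨?_, ?_, ?_, h.fin, ?_, ?_⟩, Or.inl ?_⟩
        · intro d
          by_cases hdb : d = b
          · subst hdb; simp
          · have := h.vis d
            simp only [Function.update_of_ne hdb] at this ⊢
            rw [this]
            simp [hdb]
        · have h2 : ((a :: c) ++ dn.flatten).Nodup := h.nodup
          change (b :: ((a :: c) ++ dn.flatten)).Nodup
          rw [List.nodup_cons]
          refine ⟨?_, h2⟩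
          intro hm
          rcases List.mem_append.1 hm with hm | hm
          · exact hnb.1 hm
          · exact hnb.2 hm
        · intro d hd
          rcases hd with hd | hd
          · rcases List.mem_cons.1 hd with hd | hd
            · subst hd; exact hsb
            · exact h.dom d (Or.inl hd)
          · exact h.dom d (Or.inr hd)
        · have h2 : (a :: c).IsChain (fun b a => nxt.getD a none = some b) := h.path
          change (b :: a :: c).IsChain (fun b a => nxt.getD a none = some b)
          rw [List.isChain_cons_cons]
          exact ⟨hb, h2⟩
        · intro d hd hdn
          by_cases hdb : d = b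
          · subst hdb; simp
          · simp only [Function.update_of_ne hdb]
            exact h.scan d hd hdn
        · have := card_U_update hsb hv
          simp only [pot, List.length_cons] at *
          omega
      · have e : cycStep nxt (sc, a :: c, dn, vis) = (sc, [], (a :: c) :: dn, vis) := by
          simp only [cycStep, hb, hv, if_true]
        rw [e]
        refine ⟨⟨?_, ?_, ?_, ?_, ?_, h.scan⟩, Or.inl ?_⟩
        · intro d
          have := h.vis d
          simp only at this ⊢
          rw [this]
          simp [or_assoc]
        · have h2 : ((a :: c) ++ dn.flatten).Nodup := h.nodup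
          simpa using h2
        · intro d hd
          apply h.dom d
          rcases hd with hd | hd
          · simp at hd
          · simp only [List.flatten_cons, List.mem_append] at hd
            exact hd
        · intro p hp
          rcases List.mem_cons.1 hp with hp | hp
          · subst hp
            exact ⟨by simp, close hinj h hb hv⟩
          · exact h.fin p hp
        · simp
        · simp only [pot, List.length_cons, List.length_nil]
          omega

theorem iter {nxt : List (Option ℕ)}
    (hr : ∀ a b, nxt.getD a none = some b → (nxt.getD b none).isSome = true)
    (hinj : ∀ a a' b, nxt.getD a none = some b → nxt.getD a' none = some b → a = a') :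
    ∀ (k : ℕ) (s : St), Inv nxt s → pot nxt s ≤ k →
      Inv nxt ((cycStep nxt)^[k] s) ∧ pot nxt ((cycStep nxt)^[k] s) = 0
  | 0, s, h, hk => ⟨h, by simpa using hk⟩
  | k + 1, s, h, hk => by
    rw [Function.iterate_succ_apply]
    obtain ⟨h1, h2⟩ := step hr hinj s h
    refine iter hr hinj k _ h1 ?_
    rcases h2 with h2 | ⟨h2, h3⟩
    · omega
    · rw [h3]; omega

end CycMAux

open CycMAux

theorem cyclesM_spec (nxt : List (Option ℕ))
    (hr : ∀ a b, nxt.getD a none = some b → (nxt.getD b none).isSome = true)
    (hinj : ∀ a a' b, nxt.getD a none = some b → nxt.getD a' none = some b → a = a') :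
    (∀ C ∈ cyclesM nxt, C ≠ [] ∧ ∀ p ∈ cyc C, nxt.getD p.1 none = some p.2) ∧
      (cyclesM nxt).flatten.Nodup ∧
      (∀ a, a ∈ (cyclesM nxt).flatten ↔ (nxt.getD a none).isSome = true) := by
  have hinit : Inv nxt (List.range nxt.length, [], [], fun _ => false) := by
    refine ⟨by simp, by simp, by simp, by simp, by simp, ?_⟩
    intro a ha hn
    exact absurd (List.mem_range.2 (lt_of_isSome ha)) hn
  have hpot : pot nxt (List.range nxt.length, [], [], fun _ => false) ≤ 3 * nxt.length := by
    have : (CycMAux.U nxt (fun _ => false)).card ≤ nxt.length := by
      refine (Finset.card_filter_le _ _).trans ?_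
      simp
    simp only [pot, List.length_range, List.length_nil]
    omega
  obtain ⟨h1, h2⟩ := iter hr hinj (3 * nxt.length) _ hinit hpot
  unfold cyclesM
  generalize (cycStep nxt)^[3 * nxt.length] (List.range nxt.length, [], [], fun _ => false) = s
    at h1 h2
  obtain ⟨sc, cur, dn, vis⟩ := s
  have hsc : sc = [] := by
    simp only [pot] at h2
    exact List.length_eq_zero_iff.1 (by omega)
  have hcur : cur = [] := by
    simp only [pot] at h2
    exact List.length_eq_zero_iff.1 (by omega)
  subst hsc hcur
  simp only
  have hfl : ((dn.map List.reverse).reverse).flatten = dn.flatten.reverse := by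
    rw [List.reverse_flatten]
  refine ⟨?_, ?_, ?_⟩
  · intro C hC
    rw [List.mem_reverse, List.mem_map] at hC
    obtain ⟨p, hp, rfl⟩ := hC
    have := h1.fin p hp
    refine ⟨?_, this.2⟩
    intro h0
    exact this.1 (List.reverse_eq_nil_iff.1 h0)
  · rw [hfl, List.nodup_reverse]
    simpa using h1.nodup
  · intro a
    rw [hfl, List.mem_reverse]
    constructor
    · intro ha
      exact h1.dom a (Or.inr ha)
    · intro ha
      have h3 := h1.scan a ha (by simp)
      rcases (h1.vis a).1 h3 with h4 | h4
      · simp at h4
      · exact h4

end SFA
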