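import Pool.Agent.Lib.SFA.DartDef

/-!
# SFA.DartB: elementary facts on edges

* `finite_darts`: both coordinates are critical points (`finite_crit`).
* `edge_seg_unique`: the segment carrying an edge is unique: two distinct segments share at most one
  point (`Gen.one`), but the edge has two distinct endpoints.
* `open_edge_free`: a point `y` of the open edge `(u,w)` on the segment `s` is on no other segment
  of `R` (it would be critical, `IsCrit.inter`); `y in carrier s` by convexity of segments.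
* `next_crit`: `v` critical, on `s in R`, `X v < X s.2`.  The set of critical points `w` on `s` with
  `X v < X w` is finite and contains `s.2`; take the one with the smallest `X`.  The points of the
  open segment from `v` to `w` are on `s` with abscissa strictly between, so they are not
  critical.  `prev_crit`: mirror image with `s.1`.
-/

namespace SFA

open Set Filter Topology

theorem finite_darts {eps : ℝ} {R : Finset Seg} {x : ℂ} (hG : Gen eps R x) (F : Set ℂ) :
    (darts R F).Finite := by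
  have h := (finite_crit hG).prod (finite_crit hG)
  refine h.subset ?_
  rintro ⟨u, w⟩ hd
  exact ⟨hd.1.2.1, hd.1.2.2.1⟩

theorem edge_seg_unique {eps : ℝ} {R : Finset Seg} {x : ℂ} (hG : Gen eps R x) {u w : ℂ}
    (huw : u ≠ w) {s t : Seg} (hs : s ∈ R) (ht' : t ∈ R) (hus : u ∈ carrier s)
    (hws : w ∈ carrier s) (hut : u ∈ carrier t) (hwt : w ∈ carrier t) : s = t := by
  by_contra hst
  exact huw (hG.one s hs t ht' hst ⟨hus, hut⟩ ⟨hws, hwt⟩)

theorem open_edge_free {R : Finset Seg} {u w : ℂ} (he : IsEdge R u w) {s : Seg}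
    (hs : s ∈ R) (hus : u ∈ carrier s) (hws : w ∈ carrier s) {y : ℂ}
    (hy : y ∈ openSegment ℝ u w) : y ∈ carrier s ∧ ∀ t ∈ R, t ≠ s → y ∉ carrier t := by
  have h1 : y ∈ carrier s := (convex_segment s.1 s.2).openSegment_subset hus hws hy
  refine ⟨h1, fun t ht hts hyt => ?_⟩
  exact he.2.2.2.2 y hy (IsCrit.inter hs ht (fun e => hts e.symm) h1 hyt)

theorem next_crit {eps : ℝ} {R : Finset Seg} {x : ℂ} (hG : Gen eps R x) {s : Seg}
    (hs : s ∈ R) {v : ℂ} (hv : IsCrit R v) (hvs : v ∈ carrier s)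
    (hlt : X eps v < X eps s.2) :
    ∃ w, w ∈ carrier s ∧ X eps v < X eps w ∧ IsEdge R v w ∧
      ∀ u ∈ carrier s, IsCrit R u → X eps v < X eps u → X eps w ≤ X eps u := by
  have hfin : {w : ℂ | IsCrit R w ∧ w ∈ carrier s ∧ X eps v < X eps w}.Finite :=
    (finite_crit hG).subset (fun w hw => hw.1)
  obtain ⟨w, ⟨hw1, hw2, hw3⟩, hmin⟩ := Set.exists_min_image _ (X eps) hfin
    ⟨s.2, IsCrit.right hs, right_mem_carrier s, hlt⟩
  refine ⟨w, hw2, hw3, ⟨?_, hv, hw1, ⟨s, hs, hvs, hw2⟩, ?_⟩, ?_⟩
  · intro e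
    rw [e] at hw3
    exact lt_irrefl _ hw3
  · intro y hy hyc
    have h1 : y ∈ carrier s := (convex_segment s.1 s.2).openSegment_subset hvs hw2 hy
    obtain ⟨a, b, ha, hb, hab, rfl⟩ := hy
    have h2 : X eps (a • v + b • w) = a * X eps v + b * X eps w := X_comb eps hab v w
    have ha' : a = 1 - b := by linarith
    have hb' : b = 1 - a := by linarith
    have h3 : X eps v < X eps (a • v + b • w) := by
      rw [h2, ha']; nlinarith
    have h4 : X eps (a • v + b • w) < X eps w := by
      rw [h2, hb']; nlinarith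
    exact absurd (hmin _ ⟨hyc, h1, h3⟩) (not_le.2 h4)
  · intro u hu1 hu2 hu3
    exact hmin u ⟨hu2, hu1, hu3⟩

theorem prev_crit {eps : ℝ} {R : Finset Seg} {x : ℂ} (hG : Gen eps R x) {s : Seg}
    (hs : s ∈ R) {v : ℂ} (hv : IsCrit R v) (hvs : v ∈ carrier s)
    (hlt : X eps s.1 < X eps v) :
    ∃ w, w ∈ carrier s ∧ X eps w < X eps v ∧ IsEdge R w v ∧
      ∀ u ∈ carrier s, IsCrit R u → X eps u < X eps v → X eps u ≤ X eps w := by
  have hfin : {w : ℂ | IsCrit R w ∧ w ∈ carrier s ∧ X eps w < X eps v}.Finite :=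
    (finite_crit hG).subset (fun w hw => hw.1)
  obtain ⟨w, ⟨hw1, hw2, hw3⟩, hmax⟩ := Set.exists_max_image _ (X eps) hfin
    ⟨s.1, IsCrit.left hs, left_mem_carrier s, hlt⟩
  refine ⟨w, hw2, hw3, ⟨?_, hw1, hv, ⟨s, hs, hw2, hvs⟩, ?_⟩, ?_⟩
  · intro e
    rw [e] at hw3
    exact lt_irrefl _ hw3
  · intro y hy hyc
    have h1 : y ∈ carrier s := (convex_segment s.1 s.2).openSegment_subset hw2 hvs hy
    obtain ⟨a, b, ha, hb, hab, rfl⟩ := hy
    have h2 : X eps (a • w + b • v) = a * X eps w + b * X eps v := X_comb eps hab w v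
    have ha' : a = 1 - b := by linarith
    have hb' : b = 1 - a := by linarith
    have h3 : X eps w < X eps (a • w + b • v) := by
      rw [h2, ha']; nlinarith
    have h4 : X eps (a • w + b • v) < X eps v := by
      rw [h2, hb']; nlinarith
    exact absurd (hmax _ ⟨hyc, h1, h4⟩) (not_le.2 h3)
  · intro u hu1 hu2 hu3
    exact hmax u ⟨hu2, hu1, hu3⟩

end SFA
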