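import Pool.Agent.Lib.SFA.Basic

/-!
# SFA.DartDef: edges and directed edges (definitions only, nothing to prove)
-/

namespace SFA

open Set Filter Topology

/-- `u`, `w` are the endpoints of an edge of the arrangement. -/
def IsEdge (R : Finset Seg) (u w : ℂ) : Prop :=
  u ≠ w ∧ IsCrit R u ∧ IsCrit R w ∧ (∃ s ∈ R, u ∈ carrier s ∧ w ∈ carrier s) ∧
    ∀ v ∈ openSegment ℝ u w, ¬ IsCrit R v

/-- The points immediately to the left of `y`, seen in the direction from `u` to `w`, are in `F`. -/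
def LeftOf (F : Set ℂ) (u w y : ℂ) : Prop :=
  ∀ᶠ h : ℝ in 𝓝[>] (0 : ℝ), y + ((h : ℝ) : ℂ) * Complex.I * (w - u) ∈ F

/-- `(u, w)` is an edge directed from `u` to `w` with `F` on its left side. -/
def IsDart (R : Finset Seg) (F : Set ℂ) (u w : ℂ) : Prop :=
  IsEdge R u w ∧ LeftOf F u w (midpoint ℝ u w)

/-- The set of all such directed edges. -/
def darts (R : Finset Seg) (F : Set ℂ) : Set (ℂ × ℂ) := {d | IsDart R F d.1 d.2}

end SFA
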