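import Pool.Agent.Lib.SFA.SideC
import Pool.Agent.Lib.P7b.LPFin

/-!
# SFA.DartFE: the number of directed edges of the face is at most twice the number of its edges (helper8)
-/

namespace SFA

open Set Filter Topology

theorem isCrit_iff_Vx (R : Finset Seg) (v : ℂ) : IsCrit R v ↔ v ∈ P7b.Vx R := Iff.rfl

theorem face_eq_P7b (R : Finset Seg) (x : ℂ) : face R x = P7b.face R x := rfl

theorem openSegment_eq_cases {u w u' w' : ℂ} (h : u ≠ w)
    (he : openSegment ℝ u w = openSegment ℝ u' w') :
    (u = u' ∧ w = w') ∨ (u = w' ∧ w = u') := by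
  have hc : ∀ a b : ℂ, closure (openSegment ℝ a b) = segment ℝ a b := fun a b => by
    apply subset_antisymm
    · refine closure_minimal (openSegment_subset_segment ℝ a b) ?_
      have hk : IsCompact (segment ℝ a b) := by
        rw [segment_eq_image_lineMap]
        exact isCompact_Icc.image (by fun_prop)
      exact hk.isClosed
    · exact segment_subset_closure_openSegment
  have hs : segment ℝ u w = segment ℝ u' w' := by rw [← hc, ← hc, he]
  have h1 : ∀ z, z ∈ segment ℝ u w → z ∉ openSegment ℝ u w → z = u' ∨ z = w' := by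
    intro z hz hz'
    rw [hs, ← insert_endpoints_openSegment] at hz
    rw [he] at hz'
    rcases hz with hz | hz | hz
    · exact Or.inl hz
    · exact Or.inr hz
    · exact absurd hz hz'
  have hu := h1 u (left_mem_segment ℝ u w) (fun hh => h (left_mem_openSegment_iff.1 hh))
  have hw := h1 w (right_mem_segment ℝ u w) (fun hh => h (right_mem_openSegment_iff.1 hh))
  rcases hu with hu | hu <;> rcases hw with hw | hw
  · exact absurd (hu.trans hw.symm) h
  · exact Or.inl ⟨hu, hw⟩
  · exact Or.inr ⟨hu, hw⟩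
  · exact absurd (hu.trans hw.symm) h

theorem dart_edge {eps : ℝ} {R : Finset Seg} {x : ℂ} (hG : Gen eps R x) {d : ℂ × ℂ}
    (hd : d ∈ darts R (face R x)) : openSegment ℝ d.1 d.2 ∈ P7b.faceEdges R x := by
  obtain ⟨he, hl⟩ := hd
  obtain ⟨hne, hu, hw, ⟨s, hs, hus, hws⟩, hfree⟩ := id he
  refine ⟨⟨s, hs, d.1, ⟨hu, hus⟩, d.2, ⟨hw, hws⟩, hne, ?_, rfl⟩, ?_⟩
  · rw [Set.disjoint_left]
    intro v hv hv'
    exact hfree v hv hv'
  · intro y hy
    have hm : midpoint ℝ d.1 d.2 ∈ openSegment ℝ d.1 d.2 :=
      ⟨1 / 2, 1 / 2, by norm_num, by norm_num, by norm_num, by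
        rw [midpoint_eq_smul_add, invOf_eq_inv]; module⟩
    have hly : LeftOf (face R x) d.1 d.2 y := side_const hG he hm hy hl.frequently
    have hyU : y ∈ U R := mem_U.2 ⟨s, hs, (convex_segment s.1 s.2).segment_subset hus hws
      (openSegment_subset_segment ℝ _ _ hy)⟩
    have hyF : y ∉ face R x := fun h => (connectedComponentIn_subset _ _ h) hyU
    refine ⟨?_, fun h => hyF (interior_subset h)⟩
    have ht : Tendsto (fun h : ℝ => y + ((h : ℝ) : ℂ) * Complex.I * (d.2 - d.1)) (𝓝[>] (0 : ℝ))
        (𝓝 y) := by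
      have hc : Continuous (fun h : ℝ => y + ((h : ℝ) : ℂ) * Complex.I * (d.2 - d.1)) := by
        fun_prop
      have := hc.tendsto 0
      simp only [Complex.ofReal_zero, zero_mul, add_zero] at this
      exact this.mono_left nhdsWithin_le_nhds
    exact mem_closure_of_tendsto ht hly

theorem darts_finite {eps : ℝ} {R : Finset Seg} {x : ℂ} (hG : Gen eps R x) :
    (darts R (face R x)).Finite := by
  refine ((finite_crit hG).prod (finite_crit hG)).subset ?_
  rintro d ⟨he, -⟩
  exact ⟨he.2.1, he.2.2.1⟩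

theorem gen_lp {eps : ℝ} {R : Finset Seg} {x : ℂ} (hG : Gen eps R x) : P7b.LP R :=
  ⟨fun s hs h => by
    have := hG.inc s hs
    rw [h] at this
    exact lt_irrefl _ this, fun s hs t ht hst => hG.one s hs t ht hst⟩

theorem darts_ncard_le {eps : ℝ} {R : Finset Seg} {x : ℂ} (hG : Gen eps R x) :
    (darts R (face R x)).ncard ≤ 2 * P7b.faceSize R x := by
  classical
  have hfin := darts_finite hG
  have hE : (P7b.faceEdges R x).Finite := (gen_lp hG).edges_finite x
  rw [Set.ncard_eq_toFinset_card _ hfin, P7b.faceSize, Set.ncard_eq_toFinset_card _ hE]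
  have h1 : hfin.toFinset.card ≤ 2 *
      (hfin.toFinset.image (fun d : ℂ × ℂ => openSegment ℝ d.1 d.2)).card := by
    refine Finset.card_le_mul_card_image _ 2 (fun e he => ?_)
    obtain ⟨d0, hd0, rfl⟩ := Finset.mem_image.1 he
    have hd0' : d0 ∈ darts R (face R x) := (Set.Finite.mem_toFinset hfin).1 hd0
    refine (Finset.card_le_card (t := {d0, (d0.2, d0.1)}) ?_).trans Finset.card_le_two
    intro d hd
    rw [Finset.mem_filter] at hd
    have hd' : d ∈ darts R (face R x) := (Set.Finite.mem_toFinset hfin).1 hd.1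
    rcases openSegment_eq_cases hd'.1.1 hd.2 with ⟨h1, h2⟩ | ⟨h1, h2⟩
    · rw [Finset.mem_insert]
      left
      exact Prod.ext h1 h2
    · rw [Finset.mem_insert, Finset.mem_singleton]
      right
      exact Prod.ext h1 h2
  refine h1.trans (Nat.mul_le_mul_left 2 (Finset.card_le_card ?_))
  intro e he
  obtain ⟨d, hd, rfl⟩ := Finset.mem_image.1 he
  exact (Set.Finite.mem_toFinset hE).2 (dart_edge hG ((Set.Finite.mem_toFinset hfin).1 hd))

end SFA
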