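import Pool.Agent.Lib.SFA.Vis
import Pool.Agent.Lib.SFA.Ivt

/-!
# SFA.LeftFree: between the left critical point and `z` nothing happens

Notation: `p` = the left point (if any), `zeta = X z`.
* `bt_left`: `w in carrier b`, `X p < X w <= X z`.  Suppose `0 <= ori t w`, i.e.
  `ht t (X w) <= w.im = ht b (X w)` (`t` is over `X w`: `X t.1 <= X p < X w` by `IsLeft.mem`; if
  `o = none` then `b = t = none` by `IsLeft.ex`, nothing to prove).  At `X z`:
  `ht b (X z) < z.im < ht t (X z)`.  `cross_ht` for `s := t`, `t := b` on `[X w, X z]` gives `c` with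
  equal heights, `c < X z`; `u = pt eps c (ht eps t c)` is critical (`b <> t`), in the band, and
  `X s.1 <= X p < X w <= c = X u` for `s = b, t`: so `IsLeft.max` gives `X u <= X p`, contradiction.
* `free_left`: `s in R`, `s` not bottom, not top, `w in carrier s`, `X p < X w <= X z`, `w` in the
  band.  Contradiction:
  Case A, `X z <= X s.2`: `s` is over `X z`; `z notin U R`, so `ori s z <> 0`
  (`mem_carrier_iff`).  If `0 < ori s z`: `IsBelow.max` gives `b in o`,
  `ht s (X z) < ht b (X z)`.  At `X w`: `ht b (X w) <= w.im = ht s (X w)` (band).  `cross_ht` for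
  `s := b`, `t := s` on `[X w, X z]`: `c` with equal heights, `c < X z`, `u` critical, on `b` and on
  `s`.  `u` is in the band: `ori b u = 0`, and `ori t u <= 0` by `bt_left` (`u in carrier b`,
  `X p < X w <= X u <= X z`).  `X b.1 <= X p < X u`, `X t.1 <= X p`.  `IsLeft.max` gives
  `X u <= X p`: contradiction.  If `ori s z < 0`: the same with the top (use the mirrored form of
  `bt_left`: a point `u` of `carrier t` over `(X p, X z]` satisfies `0 <= ori b u`, which follows
  from `bt_left` applied to the point of `b` with the same abscissa).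
  Case B, `X s.2 < X z`: `e = s.2` is critical, `X w <= X e < X z`.  If `e` is in the band,
  `IsLeft.max` gives `X e <= X p`: contradiction.  If `ori b e < 0`: at `X w` `ht b <= ht s`, at `X e`
  `ht s < ht b`: `cross_ht` gives a critical point `u` on `b` and `s` over `[X w, X e]`:
  contradiction as before.  If `0 < ori t e`: the same with the top.
-/

namespace SFA

open Set Filter Topology

private theorem lf_low {eps : ℝ} {R : Finset Seg} {z : ℂ} {b t : Option Seg} {o : Option ℂ}
    (ho : IsLeft eps R z b t o) {w : ℂ} (hp : ∀ p ∈ o, X eps p < X eps w) {s : Seg}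
    (hs : s ∈ b ∨ s ∈ t) : X eps s.1 < X eps w := by
  obtain ⟨p, hpo⟩ := ho.ex ⟨s, hs⟩
  have h1 := ho.mem p hpo
  have h2 := hp p hpo
  rcases hs with hs | hs
  · linarith [h1.2.2.2.1 s hs]
  · linarith [h1.2.2.2.2 s hs]

private theorem lf_no_crit {eps : ℝ} {R : Finset Seg} {z : ℂ} {b t : Option Seg} {o : Option ℂ}
    (ho : IsLeft eps R z b t o) {w : ℂ} (hp : ∀ p ∈ o, X eps p < X eps w) {u : ℂ}
    (hu : IsCrit R u) (h1 : X eps w ≤ X eps u) (h2 : X eps u < X eps z)
    (hband : inBand ⟨b, t, none, none⟩ u) : False := by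
  obtain ⟨p, hpo, hle⟩ := ho.max u hu h2 hband
    (fun s hs => by linarith [lf_low ho hp (s := s) (Or.inl hs)])
    (fun s hs => by linarith [lf_low ho hp (s := s) (Or.inr hs)])
  linarith [hp p hpo]

theorem bt_left {eps : ℝ} {R : Finset Seg} {x : ℂ} (hG : Gen eps R x) {z : ℂ}
    {b t : Option Seg} {o : Option ℂ} (hb : IsBelow eps R z b) (ht' : IsAbove eps R z t)
    (ho : IsLeft eps R z b t o) {w : ℂ} (hp : ∀ p ∈ o, X eps p < X eps w)
    (hw : X eps w ≤ X eps z) {b' t' : Seg} (hb' : b' ∈ b) (htt : t' ∈ t)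
    (hwb : w ∈ carrier b') : ori t' w < 0 := by
  obtain ⟨hbR, hb1, hb2, hb3⟩ := hb.mem b' hb'
  obtain ⟨htR, ht1, ht2, ht3⟩ := ht'.mem t' htt
  have hbi := hG.inc b' hbR
  have hti := hG.inc t' htR
  by_contra hneg
  have hneg' : 0 ≤ ori t' w := not_lt.1 hneg
  have hw1 := (ori_nonneg_iff hti w).1 hneg'
  have hw2 := ((mem_carrier_iff' hbi w).1 hwb).2.2
  have hz1 := (ori_pos_iff hbi z).1 hb3
  have hz2 := (ori_neg_iff hti z).1 ht3
  have hl1 := lf_low ho hp (s := b') (Or.inl hb')
  have hl2 := lf_low ho hp (s := t') (Or.inr htt)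
  obtain ⟨c, hc1, hc2, hc3, hc4, hc5⟩ := cross_ht hti hbi hw hl2.le ht2.le hl1.le hb2.le
    (by rw [← hw2]; exact hw1) (by linarith)
  have hcz : c < X eps z := by
    rcases lt_or_eq_of_le hc2 with h1 | h1
    · exact h1
    · rw [h1] at hc3; linarith
  have hne : t' ≠ b' := by
    intro hh
    rw [hh] at ht3
    linarith
  refine lf_no_crit ho hp (u := pt eps c (ht eps t' c)) (IsCrit.inter htR hbR hne hc4 hc5)
    (by rw [X_pt]; exact hc1) (by rw [X_pt]; exact hcz) ⟨?_, ?_⟩
  · intro s hs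
    have hs' : s = b' := Option.mem_unique hs hb'
    rw [hs']
    exact (((mem_carrier_iff hbi _).1 hc5).2.2).ge
  · intro s hs
    have hs' : s = t' := Option.mem_unique hs htt
    rw [hs']
    exact (((mem_carrier_iff hti _).1 hc4).2.2).le

/-- mirrored form: a point of the top is over the bottom -/
private theorem bt_left' {eps : ℝ} {R : Finset Seg} {x : ℂ} (hG : Gen eps R x) {z : ℂ}
    {b t : Option Seg} {o : Option ℂ} (hb : IsBelow eps R z b) (ht' : IsAbove eps R z t)
    (ho : IsLeft eps R z b t o) {w : ℂ} (hp : ∀ p ∈ o, X eps p < X eps w)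
    (hw : X eps w ≤ X eps z) {b' t' : Seg} (hb' : b' ∈ b) (htt : t' ∈ t)
    (hwt : w ∈ carrier t') : 0 < ori b' w := by
  obtain ⟨hbR, hb1, hb2, hb3⟩ := hb.mem b' hb'
  obtain ⟨htR, ht1, ht2, ht3⟩ := ht'.mem t' htt
  have hbi := hG.inc b' hbR
  have hti := hG.inc t' htR
  have hl1 := lf_low ho hp (s := b') (Or.inl hb')
  have hm : pt eps (X eps w) (ht eps b' (X eps w)) ∈ carrier b' :=
    pt_mem_carrier hbi hl1.le (by linarith)
  have h1 := bt_left hG hb ht' ho (w := pt eps (X eps w) (ht eps b' (X eps w)))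
    (fun p hpo => by rw [X_pt]; exact hp p hpo) (by rw [X_pt]; exact hw) hb' htt hm
  rw [ori_neg_iff hti, X_pt, pt_im] at h1
  rw [ori_pos_iff hbi, ((mem_carrier_iff' hti w).1 hwt).2.2]
  exact h1

/-- a segment that crosses the bottom between the left point and `z` -/
private theorem lf_cross_b {eps : ℝ} {R : Finset Seg} {x : ℂ} (hG : Gen eps R x) {z : ℂ}
    {b t : Option Seg} {o : Option ℂ} (hb : IsBelow eps R z b) (ht' : IsAbove eps R z t)
    (ho : IsLeft eps R z b t o) {w : ℂ} (hp : ∀ p ∈ o, X eps p < X eps w) {s b' : Seg}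
    (hs : s ∈ R) (hsb : s ∉ b) (hb' : b' ∈ b) {c2 : ℝ} (hwc : X eps w ≤ c2)
    (hcz : c2 ≤ X eps z) (hs1 : X eps s.1 ≤ X eps w) (hs2 : c2 ≤ X eps s.2)
    (h1 : ht eps b' (X eps w) ≤ ht eps s (X eps w)) (h2 : ht eps s c2 ≤ ht eps b' c2)
    (h3 : c2 = X eps z → ht eps s c2 < ht eps b' c2) : False := by
  obtain ⟨hbR, hb1, hb2, hb3⟩ := hb.mem b' hb'
  have hbi := hG.inc b' hbR
  have hsi := hG.inc s hs
  have hl1 := lf_low ho hp (s := b') (Or.inl hb')
  obtain ⟨c, hc1, hc2, hc3, hc4, hc5⟩ := cross_ht hbi hsi hwc hl1.le (by linarith) hs1 hs2 h1 h2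
  have hcz' : c < X eps z := by
    rcases lt_or_eq_of_le (hc2.trans hcz) with h4 | h4
    · exact h4
    · exfalso
      have h5 : c = c2 := by linarith
      have h6 := h3 (by linarith)
      rw [← h5] at h6
      linarith
  have hne : b' ≠ s := fun hh => hsb (hh ▸ hb')
  refine lf_no_crit ho hp (u := pt eps c (ht eps b' c)) (IsCrit.inter hbR hs hne hc4 hc5)
    (by rw [X_pt]; exact hc1) (by rw [X_pt]; exact hcz') ⟨?_, ?_⟩
  · intro r hr
    have hr' : r = b' := Option.mem_unique hr hb'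
    rw [hr']
    exact (((mem_carrier_iff hbi _).1 hc4).2.2).ge
  · intro r hr
    exact (bt_left hG hb ht' ho (w := pt eps c (ht eps b' c))
      (fun p hpo => by rw [X_pt]; linarith [hp p hpo]) (by rw [X_pt]; exact hcz'.le) hb' hr hc4).le

/-- a segment that crosses the top between the left point and `z` -/
private theorem lf_cross_t {eps : ℝ} {R : Finset Seg} {x : ℂ} (hG : Gen eps R x) {z : ℂ}
    {b t : Option Seg} {o : Option ℂ} (hb : IsBelow eps R z b) (ht' : IsAbove eps R z t)
    (ho : IsLeft eps R z b t o) {w : ℂ} (hp : ∀ p ∈ o, X eps p < X eps w) {s t' : Seg}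
    (hs : s ∈ R) (hst : s ∉ t) (htt : t' ∈ t) {c2 : ℝ} (hwc : X eps w ≤ c2)
    (hcz : c2 ≤ X eps z) (hs1 : X eps s.1 ≤ X eps w) (hs2 : c2 ≤ X eps s.2)
    (h1 : ht eps s (X eps w) ≤ ht eps t' (X eps w)) (h2 : ht eps t' c2 ≤ ht eps s c2)
    (h3 : c2 = X eps z → ht eps t' c2 < ht eps s c2) : False := by
  obtain ⟨htR, ht1, ht2, ht3⟩ := ht'.mem t' htt
  have hti := hG.inc t' htR
  have hsi := hG.inc s hs
  have hl1 := lf_low ho hp (s := t') (Or.inr htt)
  obtain ⟨c, hc1, hc2, hc3, hc4, hc5⟩ := cross_ht hsi hti hwc hs1 hs2 hl1.le (by linarith) h1 h2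
  have hcz' : c < X eps z := by
    rcases lt_or_eq_of_le (hc2.trans hcz) with h4 | h4
    · exact h4
    · exfalso
      have h5 : c = c2 := by linarith
      have h6 := h3 (by linarith)
      rw [← h5] at h6
      linarith
  have hne : s ≠ t' := fun hh => hst (hh ▸ htt)
  refine lf_no_crit ho hp (u := pt eps c (ht eps s c)) (IsCrit.inter hs htR hne hc4 hc5)
    (by rw [X_pt]; exact hc1) (by rw [X_pt]; exact hcz') ⟨?_, ?_⟩
  · intro r hr
    exact (bt_left' hG hb ht' ho (w := pt eps c (ht eps s c))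
      (fun p hpo => by rw [X_pt]; linarith [hp p hpo]) (by rw [X_pt]; exact hcz'.le) hr htt hc5).le
  · intro r hr
    have hr' : r = t' := Option.mem_unique hr htt
    rw [hr']
    exact (((mem_carrier_iff hti _).1 hc5).2.2).le

theorem free_left {eps : ℝ} {R : Finset Seg} {x : ℂ} (hG : Gen eps R x) {z : ℂ}
    (hz : z ∉ U R) {b t : Option Seg} {o : Option ℂ} (hb : IsBelow eps R z b)
    (ht' : IsAbove eps R z t) (ho : IsLeft eps R z b t o) {w : ℂ}
    (hp : ∀ p ∈ o, X eps p < X eps w) (hw : X eps w ≤ X eps z) {s : Seg} (hs : s ∈ R)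
    (hsb : s ∉ b) (hst : s ∉ t) (hws : w ∈ carrier s)
    (hband : inBand ⟨b, t, none, none⟩ w) : False := by
  have hsi := hG.inc s hs
  obtain ⟨hws1, hws2, hws3⟩ := (mem_carrier_iff' hsi w).1 hws
  rcases le_or_gt (X eps z) (X eps s.2) with hA | hB
  · have hsz : ori s z ≠ 0 := by
      intro h0
      exact hz (mem_U.2 ⟨s, hs, (mem_carrier_iff hsi z).2 ⟨hws1.trans hw, hA, h0⟩⟩)
    rcases lt_or_gt_of_ne hsz with hneg | hpos
    · obtain ⟨t', htt, hlt⟩ := ht'.min s hs hst (hws1.trans hw) hA hneg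
      have htR := (ht'.mem t' htt).1
      have h1 := (ori_nonpos_iff (hG.inc t' htR) w).1 (hband.2 t' htt)
      rw [hws3] at h1
      exact lf_cross_t hG hb ht' ho hp hs hst htt hw le_rfl hws1 hA h1 hlt.le (fun _ => hlt)
    · obtain ⟨b', hb', hlt⟩ := hb.max s hs hsb (hws1.trans hw) hA hpos
      have hbR := (hb.mem b' hb').1
      have h1 := (ori_nonneg_iff (hG.inc b' hbR) w).1 (hband.1 b' hb')
      rw [hws3] at h1
      exact lf_cross_b hG hb ht' ho hp hs hsb hb' hw le_rfl hws1 hA h1 hlt.le (fun _ => hlt)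
  · by_cases hbe : inBand ⟨b, t, none, none⟩ s.2
    · exact lf_no_crit ho hp (IsCrit.right hs) hws2 hB hbe
    · unfold inBand at hbe
      rw [not_and_or] at hbe
      have hes : (s.2).im = ht eps s (X eps s.2) :=
        ((mem_carrier_iff' hsi s.2).1 (right_mem_carrier s)).2.2
      rcases hbe with hbe | hbe
      · push Not at hbe
        obtain ⟨b', hb', hlt⟩ := hbe
        have hbR := (hb.mem b' hb').1
        have h1 := (ori_nonneg_iff (hG.inc b' hbR) w).1 (hband.1 b' hb')
        rw [hws3] at h1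
        have h2 := (ori_neg_iff (hG.inc b' hbR) s.2).1 hlt
        rw [hes] at h2
        exact lf_cross_b hG hb ht' ho hp hs hsb hb' hws2 hB.le hws1 le_rfl h1 h2.le
          (fun hh => absurd hh hB.ne)
      · push Not at hbe
        obtain ⟨t', htt, hlt⟩ := hbe
        have htR := (ht'.mem t' htt).1
        have h1 := (ori_nonpos_iff (hG.inc t' htR) w).1 (hband.2 t' htt)
        rw [hws3] at h1
        have h2 := (ori_pos_iff (hG.inc t' htR) s.2).1 hlt
        rw [hes] at h2
        exact lf_cross_t hG hb ht' ho hp hs hst htt hws2 hB.le hws1 le_rfl h1 h2.le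
          (fun hh => absurd hh hB.ne)

end SFA
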