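import Pool.Agent.Lib.SFA.Vis
import Pool.Agent.Lib.SFA.Ivt

/-!
# SFA.LeftPt: existence of the last critical point before `z` between bottom and top

`P = {v : IsCrit R v, X v < X z, v in the band of b, t, X s.1 <= X v for s in b and for s in t}` is
finite (`finite_crit`).  If it is empty take `none`, otherwise an element with the largest `X`
(`Set.exists_max_image` or `Finset.exists_max_image`).  `mem` and `max` are clear.
`ex`: if bottom or top exist, `P` is not empty.
* only `b` (`t = none`): `b.1` is in `P` (`ori b b.1 = 0`, `IsBelow.mem`).  Only `t`: `t.1`.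
* both.  `ht b (X z) < z.im < ht t (X z)` (`ori_pos_iff`, `ori_neg_iff`).
  Case `X t.1 <= X b.1`: if `ori t b.1 <= 0` then `b.1` is in `P`.  Otherwise
  `ht t (X b.1) < b.1.im = ht b (X b.1)`; apply `cross_ht` to `s := t`, `t := b` on
  `[X b.1, X z]`: there is `c` with equal heights; `u = pt eps c (ht eps t c)` is on both carriers, so
  critical (`b <> t` since `ori b z > 0 > ori t z`), in the band (`ori = 0` for both,
  `ori_pt_ht` / `mem_carrier_iff`), `X u = c >= X b.1 >= X t.1`, and `c <> X z` since the heights at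
  `X z` are different.  So `u` is in `P`.
  Case `X b.1 <= X t.1`: symmetric with `t.1` (`ori b t.1 >= 0` or a crossing).
-/

namespace SFA

open Set Filter Topology

namespace LeftPtAux

/-- the crossing case: the top is not above the bottom at the abscissa `c1` -/
theorem crossing {eps : ℝ} {R : Finset Seg} {x : ℂ} (hG : Gen eps R x) {z : ℂ} {b t : Seg}
    (hbR : b ∈ R) (htR : t ∈ R) (hb2 : X eps z < X eps b.2) (htt2 : X eps z < X eps t.2)
    (hbz : 0 < ori b z) (htz : ori t z < 0) {c1 : ℝ} (h1 : X eps b.1 ≤ c1)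
    (h2 : X eps t.1 ≤ c1) (h3 : c1 ≤ X eps z) (h4 : ht eps t c1 ≤ ht eps b c1) :
    ∃ u, IsCrit R u ∧ X eps u < X eps z ∧ c1 ≤ X eps u ∧ ori b u = 0 ∧ ori t u = 0 := by
  have hbi := hG.inc b hbR
  have hti := hG.inc t htR
  have hbz' := (ori_pos_iff hbi z).1 hbz
  have htz' := (ori_neg_iff hti z).1 htz
  obtain ⟨c, hc1, hc2, hce, hct, hcb⟩ := cross_ht hti hbi h3 h2 htt2.le h1 hb2.le h4
    (by linarith)
  have hbt : t ≠ b := by
    rintro rfl
    linarith
  refine ⟨pt eps c (ht eps t c), IsCrit.inter htR hbR hbt hct hcb, ?_, ?_, ?_, ?_⟩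
  · rw [X_pt]
    rcases hc2.lt_or_eq with h | h
    · exact h
    · rw [h] at hce
      linarith
  · rw [X_pt]
    exact hc1
  · exact ((mem_carrier_iff hbi _).1 hcb).2.2
  · exact ((mem_carrier_iff hti _).1 hct).2.2

end LeftPtAux

theorem exists_left {eps : ℝ} {R : Finset Seg} {x : ℂ} (hG : Gen eps R x) {z : ℂ}
    {b t : Option Seg} (hb : IsBelow eps R z b) (ht' : IsAbove eps R z t) :
    ∃ o, IsLeft eps R z b t o := by
  set P : Set ℂ := {v | IsCrit R v ∧ X eps v < X eps z ∧ inBand ⟨b, t, none, none⟩ v ∧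
    (∀ s ∈ b, X eps s.1 ≤ X eps v) ∧ (∀ s ∈ t, X eps s.1 ≤ X eps v)} with hP
  have hPfin : P.Finite := (finite_crit hG).subset fun v hv => hv.1
  have key : (∃ s, s ∈ b ∨ s ∈ t) → P.Nonempty := by
    rintro ⟨s, hs⟩
    rcases b with _ | b
    · rcases t with _ | t
      · rcases hs with hs | hs <;> exact absurd hs (by simp)
      · obtain ⟨htR, ht1, ht2, htz⟩ := ht'.mem t rfl
        refine ⟨t.1, IsCrit.left htR, ht1, ⟨fun b hb => absurd hb (by simp), ?_⟩,
          fun b hb => absurd hb (by simp), ?_⟩
        · rintro t1 ht1'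
          obtain rfl : t = t1 := by simpa using ht1'
          rw [ori_left]
        · rintro t1 ht1'
          obtain rfl : t = t1 := by simpa using ht1'
          exact le_refl _
    · obtain ⟨hbR, hb1, hb2, hbz⟩ := hb.mem b rfl
      rcases t with _ | t
      · refine ⟨b.1, IsCrit.left hbR, hb1, ⟨?_, fun b hb => absurd hb (by simp)⟩, ?_,
          fun b hb => absurd hb (by simp)⟩
        · rintro b1 hb1'
          obtain rfl : b = b1 := by simpa using hb1'
          rw [ori_left]
        · rintro b1 hb1'
          obtain rfl : b = b1 := by simpa using hb1'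
          exact le_refl _
      · obtain ⟨htR, ht1, ht2, htz⟩ := ht'.mem t rfl
        have hbi := hG.inc b hbR
        have hti := hG.inc t htR
        -- it is enough to find a point for the two segments
        have fin : (∃ u, IsCrit R u ∧ X eps u < X eps z ∧ X eps b.1 ≤ X eps u ∧
            X eps t.1 ≤ X eps u ∧ 0 ≤ ori b u ∧ ori t u ≤ 0) → P.Nonempty := by
          rintro ⟨u, hu1, hu2, hu3, hu4, hu5, hu6⟩
          refine ⟨u, hu1, hu2, ⟨?_, ?_⟩, ?_, ?_⟩
          · rintro b1 hb1'
            obtain rfl : b = b1 := by simpa using hb1'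
            exact hu5
          · rintro t1 ht1'
            obtain rfl : t = t1 := by simpa using ht1'
            exact hu6
          · rintro b1 hb1'
            obtain rfl : b = b1 := by simpa using hb1'
            exact hu3
          · rintro t1 ht1'
            obtain rfl : t = t1 := by simpa using ht1'
            exact hu4
        apply fin
        rcases le_total (X eps t.1) (X eps b.1) with hc | hc
        · by_cases ho : ori t b.1 ≤ 0
          · exact ⟨b.1, IsCrit.left hbR, hb1, le_refl _, hc, (ori_left b).ge, ho⟩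
          · have h1 := (ori_pos_iff hti b.1).1 (not_le.1 ho)
            have h2 := (ori_zero_iff hbi b.1).1 (ori_left b)
            obtain ⟨u, hu1, hu2, hu3, hu4, hu5⟩ := LeftPtAux.crossing hG hbR htR hb2 ht2 hbz htz
              (le_refl (X eps b.1)) hc hb1.le (by rw [← h2]; exact h1.le)
            exact ⟨u, hu1, hu2, hu3, hc.trans hu3, hu4.ge, hu5.le⟩
        · by_cases ho : 0 ≤ ori b t.1
          · exact ⟨t.1, IsCrit.left htR, ht1, hc, le_refl _, ho, (ori_left t).le⟩
          · have h1 := (ori_neg_iff hbi t.1).1 (not_le.1 ho)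
            have h2 := (ori_zero_iff hti t.1).1 (ori_left t)
            obtain ⟨u, hu1, hu2, hu3, hu4, hu5⟩ := LeftPtAux.crossing hG hbR htR hb2 ht2 hbz htz
              hc (le_refl (X eps t.1)) ht1.le (by rw [← h2]; exact h1.le)
            exact ⟨u, hu1, hu2, hc.trans hu3, hu3, hu4.ge, hu5.le⟩
  rcases P.eq_empty_or_nonempty with hE | hN
  · refine ⟨none, fun p hp => absurd hp (by simp), ?_, ?_⟩
    · intro v h1 h2 h3 h4 h5
      have : v ∈ P := ⟨h1, h2, h3, h4, h5⟩
      rw [hE] at this
      exact absurd this (Set.notMem_empty v)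
    · intro hs
      exact absurd (key hs) (Set.not_nonempty_iff_eq_empty.2 hE)
  · obtain ⟨p, hp, hmax⟩ := Set.exists_max_image P (X eps) hPfin hN
    refine ⟨some p, ?_, ?_, fun _ => ⟨p, rfl⟩⟩
    · intro p' hp'
      obtain rfl : p = p' := by simpa using hp'
      exact hp
    · intro v h1 h2 h3 h4 h5
      exact ⟨p, rfl, hmax v ⟨h1, h2, h3, h4, h5⟩⟩

end SFA
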