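import Pool.Agent.Lib.SFA.Vis
import Pool.Agent.Lib.SFA.Ivt

/-!
# SFA.RightFree: between `z` and the right critical point nothing happens

Mirror image of LeftFree (see also its header).
* `bt_right`: `w in carrier b`, `X z <= X w < X q`.  Suppose `0 <= ori t w`, i.e.
  `ht t (X w) <= w.im = ht b (X w)` (`t` is over `X w`: `X w < X q <= X t.2` by `IsRight.mem`; if
  `o = none` then `b = t = none` by `IsRight.ex`).  At `X z`: `ht b (X z) < z.im < ht t (X z)`.
  `cross_ht` for `s := b`, `t := t` on `[X z, X w]` gives `c` with equal heights, `X z < c`;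
  `u = pt eps c (ht eps b c)` is critical (`b <> t`), in the band, `X u = c <= X w < X q <= X s.2` for
  `s = b, t`: so `IsRight.min` gives `X q <= X u`, contradiction.
* `free_right`: `s in R`, `s` not bottom, not top, `w in carrier s`, `X z <= X w < X q`, `w` in the
  band.  Contradiction:
  Case A, `X s.1 <= X z`: `ori s z <> 0`.  If `0 < ori s z`: `IsBelow.max` gives `b in o`,
  `ht s (X z) < ht b (X z)`.  At `X w`: `ht b (X w) <= w.im = ht s (X w)`.  `cross_ht` for
  `s := s`, `t := b` on `[X z, X w]`: `c` with equal heights, `X z < c`, `u` critical, on `b` and `s`,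
  in the band by `bt_right`; `IsRight.min` gives `X q <= X u`: contradiction.
  If `ori s z < 0`: the same with the top.
  Case B, `X z < X s.1`: `e = s.1` is critical, `X z < X e <= X w`.  If `e` is in the band,
  `IsRight.min` gives `X q <= X e`: contradiction.  If `ori b e < 0`: `cross_ht` gives a critical
  point `u` on `b` and `s` over `[X e, X w]`: contradiction.  If `0 < ori t e`: same with the top.
-/

namespace SFA

open Set Filter Topology

namespace RightFreeAux

/-- bottom and top extend beyond `w` -/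
theorem beyond {eps : ℝ} {R : Finset Seg} {z : ℂ} {b t : Option Seg} {o : Option ℂ}
    (ho : IsRight eps R z b t o) {w : ℂ} (hq : ∀ q ∈ o, X eps w < X eps q) {s : Seg}
    (hs : s ∈ b ∨ s ∈ t) : X eps w < X eps s.2 := by
  obtain ⟨q, hqo⟩ := ho.ex ⟨s, hs⟩
  obtain ⟨_, _, _, h1, h2⟩ := ho.mem q hqo
  rcases hs with hs | hs
  · exact lt_of_lt_of_le (hq q hqo) (h1 s hs)
  · exact lt_of_lt_of_le (hq q hqo) (h2 s hs)

/-- there is no critical point in the band between `z` and `w` -/
theorem no_point {eps : ℝ} {R : Finset Seg} {z : ℂ} {b t : Option Seg} {o : Option ℂ}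
    (ho : IsRight eps R z b t o) {w : ℂ} (hq : ∀ q ∈ o, X eps w < X eps q) {u : ℂ}
    (hu : IsCrit R u) (h1 : X eps z < X eps u) (h2 : X eps u ≤ X eps w)
    (hband : inBand ⟨b, t, none, none⟩ u) : False := by
  obtain ⟨q, hqo, hle⟩ := ho.min u hu h1 hband
    (fun s hs => le_trans h2 (beyond ho hq (Or.inl hs)).le)
    (fun s hs => le_trans h2 (beyond ho hq (Or.inr hs)).le)
  have := hq q hqo
  linarith

theorem ne_bt {z : ℂ} {b' t' : Seg} (h1 : 0 < ori b' z) (h2 : ori t' z < 0) : b' ≠ t' := by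
  rintro rfl
  linarith

end RightFreeAux

open RightFreeAux

theorem bt_right {eps : ℝ} {R : Finset Seg} {x : ℂ} (hG : Gen eps R x) {z : ℂ}
    {b t : Option Seg} {o : Option ℂ} (hb : IsBelow eps R z b) (ht' : IsAbove eps R z t)
    (ho : IsRight eps R z b t o) {w : ℂ} (hq : ∀ q ∈ o, X eps w < X eps q)
    (hw : X eps z ≤ X eps w) {b' t' : Seg} (hb' : b' ∈ b) (htt : t' ∈ t)
    (hwb : w ∈ carrier b') : ori t' w < 0 := by
  by_contra hcon
  push Not at hcon
  obtain ⟨hbR, hb1, hb2, hb3⟩ := hb.mem b' hb'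
  obtain ⟨htR, ht1, ht2, ht3⟩ := ht'.mem t' htt
  have hincb := hG.inc b' hbR
  have hinct := hG.inc t' htR
  have ovb := beyond ho hq (Or.inl hb')
  have ovt := beyond ho hq (Or.inr htt)
  have e1 := ((mem_carrier_iff' hincb w).1 hwb).2.2
  have e2 := (ori_nonneg_iff hinct w).1 hcon
  have e3 := (ori_pos_iff hincb z).1 hb3
  have e4 := (ori_neg_iff hinct z).1 ht3
  obtain ⟨c, hc1, hc2, hc3, hc4, hc5⟩ := cross_ht hincb hinct hw hb1.le ovb.le ht1.le ovt.le
    (by linarith) (by linarith)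
  have hne : X eps z ≠ c := by
    rintro rfl
    linarith
  have hlt : X eps z < c := lt_of_le_of_ne hc1 hne
  refine no_point ho hq (u := pt eps c (ht eps b' c))
    (IsCrit.inter hbR htR (ne_bt hb3 ht3) hc4 hc5) (by rwa [X_pt]) (by rwa [X_pt]) ?_
  refine ⟨fun b'' hb'' => ?_, fun t'' ht'' => ?_⟩
  · have : b'' = b' := Option.mem_unique hb'' hb'
    subst this
    exact (ori_pt_ht hincb c).ge
  · have : t'' = t' := Option.mem_unique ht'' htt
    subst this
    rw [hc3]
    exact (ori_pt_ht hinct c).le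

namespace RightFreeAux

/-- the mirrored form of `bt_right` -/
theorem tb_right {eps : ℝ} {R : Finset Seg} {x : ℂ} (hG : Gen eps R x) {z : ℂ}
    {b t : Option Seg} {o : Option ℂ} (hb : IsBelow eps R z b) (ht' : IsAbove eps R z t)
    (ho : IsRight eps R z b t o) {w : ℂ} (hq : ∀ q ∈ o, X eps w < X eps q)
    (hw : X eps z ≤ X eps w) {b' t' : Seg} (hb' : b' ∈ b) (htt : t' ∈ t)
    (hwt : w ∈ carrier t') : 0 < ori b' w := by
  obtain ⟨hbR, hb1, hb2, hb3⟩ := hb.mem b' hb'
  obtain ⟨htR, ht1, ht2, ht3⟩ := ht'.mem t' htt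
  have hincb := hG.inc b' hbR
  have hinct := hG.inc t' htR
  have ovb := beyond ho hq (Or.inl hb')
  have h1 : pt eps (X eps w) (ht eps b' (X eps w)) ∈ carrier b' :=
    pt_mem_carrier hincb (by linarith) ovb.le
  have h2 := bt_right hG hb ht' ho (w := pt eps (X eps w) (ht eps b' (X eps w)))
    (by rw [X_pt]; exact hq) (by rw [X_pt]; exact hw) hb' htt h1
  rw [ori_neg_iff hinct, X_pt, pt_im] at h2
  rw [ori_pos_iff hincb]
  have e1 := ((mem_carrier_iff' hinct w).1 hwt).2.2
  linarith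

/-- a segment different from the bottom cannot get from below the bottom to above it -/
theorem cross_b {eps : ℝ} {R : Finset Seg} {x : ℂ} (hG : Gen eps R x) {z : ℂ}
    {b t : Option Seg} {o : Option ℂ} (hb : IsBelow eps R z b) (ht' : IsAbove eps R z t)
    (ho : IsRight eps R z b t o) {w : ℂ} (hq : ∀ q ∈ o, X eps w < X eps q)
    {s b' : Seg} (hs : s ∈ R) (hsb : s ∉ b) (hb' : b' ∈ b) {c1 : ℝ} (hz1 : X eps z ≤ c1)
    (h1w : c1 ≤ X eps w) (hs1 : X eps s.1 ≤ c1) (hs2 : X eps w ≤ X eps s.2)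
    (hh1 : ht eps s c1 < ht eps b' c1) (hh2 : ht eps b' (X eps w) ≤ ht eps s (X eps w)) :
    False := by
  obtain ⟨hbR, hb1, hb2, hb3⟩ := hb.mem b' hb'
  have hincb := hG.inc b' hbR
  have hincs := hG.inc s hs
  have ovb := beyond ho hq (Or.inl hb')
  obtain ⟨c, hc1, hc2, hc3, hc4, hc5⟩ := cross_ht hincs hincb h1w hs1 hs2
    (by linarith) ovb.le hh1.le hh2
  have hne : c1 ≠ c := by
    rintro rfl
    linarith
  have hlt : X eps z < c := lt_of_le_of_lt hz1 (lt_of_le_of_ne hc1 hne)
  have hsb' : s ≠ b' := by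
    rintro rfl
    exact hsb hb'
  refine no_point ho hq (u := pt eps c (ht eps s c))
    (IsCrit.inter hs hbR hsb' hc4 hc5) (by rwa [X_pt]) (by rwa [X_pt]) ?_
  refine ⟨fun b'' hb'' => ?_, fun t'' ht'' => ?_⟩
  · have : b'' = b' := Option.mem_unique hb'' hb'
    subst this
    rw [hc3]
    exact (ori_pt_ht hincb c).ge
  · refine (bt_right hG hb ht' ho (w := pt eps c (ht eps s c)) ?_ (by rw [X_pt]; exact hlt.le)
      hb' ht'' hc5).le
    intro q hqo
    rw [X_pt]
    exact lt_of_le_of_lt hc2 (hq q hqo)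

/-- a segment different from the top cannot get from above the top to below it -/
theorem cross_t {eps : ℝ} {R : Finset Seg} {x : ℂ} (hG : Gen eps R x) {z : ℂ}
    {b t : Option Seg} {o : Option ℂ} (hb : IsBelow eps R z b) (ht' : IsAbove eps R z t)
    (ho : IsRight eps R z b t o) {w : ℂ} (hq : ∀ q ∈ o, X eps w < X eps q)
    {s t' : Seg} (hs : s ∈ R) (hst : s ∉ t) (htt : t' ∈ t) {c1 : ℝ} (hz1 : X eps z ≤ c1)
    (h1w : c1 ≤ X eps w) (hs1 : X eps s.1 ≤ c1) (hs2 : X eps w ≤ X eps s.2)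
    (hh1 : ht eps t' c1 < ht eps s c1) (hh2 : ht eps s (X eps w) ≤ ht eps t' (X eps w)) :
    False := by
  obtain ⟨htR, ht1, ht2, ht3⟩ := ht'.mem t' htt
  have hinct := hG.inc t' htR
  have hincs := hG.inc s hs
  have ovt := beyond ho hq (Or.inr htt)
  obtain ⟨c, hc1, hc2, hc3, hc4, hc5⟩ := cross_ht hinct hincs h1w (by linarith) ovt.le
    hs1 hs2 hh1.le hh2
  have hne : c1 ≠ c := by
    rintro rfl
    linarith
  have hlt : X eps z < c := lt_of_le_of_lt hz1 (lt_of_le_of_ne hc1 hne)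
  have hst' : t' ≠ s := by
    rintro rfl
    exact hst htt
  refine no_point ho hq (u := pt eps c (ht eps t' c))
    (IsCrit.inter htR hs hst' hc4 hc5) (by rwa [X_pt]) (by rwa [X_pt]) ?_
  refine ⟨fun b'' hb'' => ?_, fun t'' ht'' => ?_⟩
  · refine (tb_right hG hb ht' ho (w := pt eps c (ht eps t' c)) ?_ (by rw [X_pt]; exact hlt.le)
      hb'' htt hc4).le
    intro q hqo
    rw [X_pt]
    exact lt_of_le_of_lt hc2 (hq q hqo)
  · have : t'' = t' := Option.mem_unique ht'' htt
    subst this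
    exact (ori_pt_ht hinct c).le

end RightFreeAux

theorem free_right {eps : ℝ} {R : Finset Seg} {x : ℂ} (hG : Gen eps R x) {z : ℂ}
    (hz : z ∉ U R) {b t : Option Seg} {o : Option ℂ} (hb : IsBelow eps R z b)
    (ht' : IsAbove eps R z t) (ho : IsRight eps R z b t o) {w : ℂ}
    (hq : ∀ q ∈ o, X eps w < X eps q) (hw : X eps z ≤ X eps w) {s : Seg} (hs : s ∈ R)
    (hsb : s ∉ b) (hst : s ∉ t) (hws : w ∈ carrier s)
    (hband : inBand ⟨b, t, none, none⟩ w) : False := by
  have hincs := hG.inc s hs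
  obtain ⟨hw1, hw2, hw3⟩ := (mem_carrier_iff' hincs w).1 hws
  have hbw : ∀ b' ∈ b, ht eps b' (X eps w) ≤ ht eps s (X eps w) := by
    intro b' hb'
    have h1 : 0 ≤ ori b' w := hband.1 b' hb'
    rw [ori_nonneg_iff (hG.inc b' (hb.mem b' hb').1)] at h1
    rwa [← hw3]
  have htw : ∀ t' ∈ t, ht eps s (X eps w) ≤ ht eps t' (X eps w) := by
    intro t' htt
    have h1 : ori t' w ≤ 0 := hband.2 t' htt
    rw [ori_nonpos_iff (hG.inc t' (ht'.mem t' htt).1)] at h1
    rwa [← hw3]
  rcases le_or_gt (X eps s.1) (X eps z) with hA | hB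
  · have h0 : ori s z ≠ 0 := by
      intro h0
      exact hz (mem_U.2 ⟨s, hs, (mem_carrier_iff hincs z).2 ⟨hA, by linarith, h0⟩⟩)
    rcases lt_or_gt_of_ne h0 with hneg | hpos
    · obtain ⟨t', htt, hlt⟩ := ht'.min s hs hst hA (by linarith) hneg
      exact cross_t hG hb ht' ho hq hs hst htt le_rfl hw hA hw2 hlt (htw t' htt)
    · obtain ⟨b', hb', hlt⟩ := hb.max s hs hsb hA (by linarith) hpos
      exact cross_b hG hb ht' ho hq hs hsb hb' le_rfl hw hA hw2 hlt (hbw b' hb')
  · have he := ((mem_carrier_iff' hincs s.1).1 (left_mem_carrier s)).2.2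
    by_cases hband' : inBand ⟨b, t, none, none⟩ s.1
    · exact no_point ho hq (IsCrit.left hs) hB hw1 hband'
    · unfold inBand at hband'
      rw [not_and_or] at hband'
      rcases hband' with h | h
      · push Not at h
        obtain ⟨b', hb', hlt⟩ := h
        rw [ori_neg_iff (hG.inc b' (hb.mem b' hb').1), he] at hlt
        exact cross_b hG hb ht' ho hq hs hsb hb' hB.le hw1 le_rfl hw2 hlt (hbw b' hb')
      · push Not at h
        obtain ⟨t', htt, hlt⟩ := h
        rw [ori_pos_iff (hG.inc t' (ht'.mem t' htt).1), he] at hlt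
        exact cross_t hG hb ht' ho hq hs hst htt hB.le hw1 le_rfl hw2 hlt (htw t' htt)

end SFA
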