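import Pool.Agent.Lib.SFA.Vis
import Pool.Agent.Lib.SFA.Ivt

/-!
# SFA.RightPt: existence of the first critical point after `z` between bottom and top

Mirror image of LeftPt.
`P = {v : IsCrit R v, X z < X v, v in the band of b, t, X v <= X s.2 for s in b and for s in t}` is
finite (`finite_crit`).  If it is empty take `none`, otherwise an element with the smallest `X`.
`ex`: if bottom or top exist, `P` is not empty.
* only `b`: `b.2` is in `P` (`ori b b.2 = 0`).  Only `t`: `t.2`.
* both.  `ht b (X z) < z.im < ht t (X z)`.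
  Case `X b.2 <= X t.2`: if `ori t b.2 <= 0` then `b.2` is in `P`.  Otherwise
  `ht t (X b.2) < b.2.im = ht b (X b.2)`; apply `cross_ht` to `s := b`, `t := t` on
  `[X z, X b.2]`: there is `c` with equal heights; `u = pt eps c (ht eps b c)` is on both carriers, so
  critical (`b <> t`), in the band, `X u = c <= X b.2 <= X t.2`, and `c <> X z` since the heights at
  `X z` are different.  So `u` is in `P`.
  Case `X t.2 <= X b.2`: symmetric with `t.2` (`ori b t.2 >= 0` or a crossing).
-/

namespace SFA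

open Set Filter Topology

namespace RightPtAux

/-- The candidates for the right point. -/
def P (eps : ℝ) (R : Finset Seg) (z : ℂ) (b t : Option Seg) : Set ℂ :=
  {v | IsCrit R v ∧ X eps z < X eps v ∧ inBand ⟨b, t, none, none⟩ v ∧
    (∀ s ∈ b, X eps v ≤ X eps s.2) ∧ (∀ s ∈ t, X eps v ≤ X eps s.2)}

theorem both {eps : ℝ} {R : Finset Seg} {x : ℂ} (hG : Gen eps R x) {z : ℂ} {s r : Seg}
    (hs : s ∈ R) (hr : r ∈ R) (s1 : X eps s.1 < X eps z) (s2 : X eps z < X eps s.2)
    (s3 : 0 < ori s z) (r1 : X eps r.1 < X eps z) (r2 : X eps z < X eps r.2)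
    (r3 : ori r z < 0) : (P eps R z (some s) (some r)).Nonempty := by
  have is := hG.inc s hs
  have ir := hG.inc r hr
  have hne : s ≠ r := by
    rintro rfl
    exact absurd s3 (not_lt.2 r3.le)
  have h1 := (ori_pos_iff is z).1 s3
  have h2 := (ori_neg_iff ir z).1 r3
  have hlt : ht eps s (X eps z) < ht eps r (X eps z) := h1.trans h2
  have memP : ∀ v, IsCrit R v → X eps z < X eps v → 0 ≤ ori s v → ori r v ≤ 0 →
      X eps v ≤ X eps s.2 → X eps v ≤ X eps r.2 → v ∈ P eps R z (some s) (some r) := by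
    intro v a1 a2 a3 a4 a5 a6
    refine ⟨a1, a2, ⟨?_, ?_⟩, ?_, ?_⟩
    · intro b hb
      cases hb
      exact a3
    · intro b hb
      cases hb
      exact a4
    · intro b hb
      cases hb
      exact a5
    · intro b hb
      cases hb
      exact a6
  have cr : ∀ e, X eps z ≤ e → e ≤ X eps s.2 → e ≤ X eps r.2 → ht eps r e ≤ ht eps s e →
      (P eps R z (some s) (some r)).Nonempty := by
    intro e e1 e2 e3 e4
    obtain ⟨c, c1, c2, c3, c4, c5⟩ := cross_ht is ir e1 s1.le e2 r1.le e3 hlt.le e4
    have hcz : X eps z ≠ c := by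
      intro h
      rw [← h] at c3
      exact absurd c3 hlt.ne
    refine ⟨pt eps c (ht eps s c), memP _ (IsCrit.inter hs hr hne c4 c5) ?_ ?_ ?_ ?_ ?_⟩
    · rw [X_pt]
      exact lt_of_le_of_ne c1 hcz
    · rw [ori_pt_ht is]
    · rw [c3, ori_pt_ht ir]
    · rw [X_pt]
      exact c2.trans e2
    · rw [X_pt]
      exact c2.trans e3
  rcases le_total (X eps s.2) (X eps r.2) with h | h
  · by_cases h3 : ori r s.2 ≤ 0
    · exact ⟨s.2, memP _ (IsCrit.right hs) s2 (by rw [ori_right]) h3 le_rfl h⟩
    · push Not at h3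
      have h4 := (ori_pos_iff ir s.2).1 h3
      have h5 := (ori_zero_iff is s.2).1 (ori_right s)
      exact cr (X eps s.2) s2.le le_rfl h (by rw [← h5]; exact h4.le)
  · by_cases h3 : 0 ≤ ori s r.2
    · exact ⟨r.2, memP _ (IsCrit.right hr) r2 h3 (by rw [ori_right]) h le_rfl⟩
    · push Not at h3
      have h4 := (ori_neg_iff is r.2).1 h3
      have h5 := (ori_zero_iff ir r.2).1 (ori_right r)
      exact cr (X eps r.2) r2.le h le_rfl (by rw [← h5]; exact h4.le)

theorem nonempty {eps : ℝ} {R : Finset Seg} {x : ℂ} (hG : Gen eps R x) {z : ℂ}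
    {b t : Option Seg} (hb : IsBelow eps R z b) (ht' : IsAbove eps R z t)
    (h : ∃ s, s ∈ b ∨ s ∈ t) : (P eps R z b t).Nonempty := by
  cases b with
  | none =>
    cases t with
    | none =>
      obtain ⟨s, h | h⟩ := h
      · exact absurd h (by simp)
      · exact absurd h (by simp)
    | some r =>
      obtain ⟨r0, r1, r2, r3⟩ := ht'.mem r rfl
      refine ⟨r.2, IsCrit.right r0, r2, ⟨by simp, ?_⟩, by simp, ?_⟩
      · intro b hb
        cases hb
        rw [ori_right]
      · intro b hb
        cases hb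
        exact le_rfl
  | some s =>
    obtain ⟨s0, s1, s2, s3⟩ := hb.mem s rfl
    cases t with
    | none =>
      refine ⟨s.2, IsCrit.right s0, s2, ⟨?_, by simp⟩, ?_, by simp⟩
      · intro b hb
        cases hb
        rw [ori_right]
      · intro b hb
        cases hb
        exact le_rfl
    | some r =>
      obtain ⟨r0, r1, r2, r3⟩ := ht'.mem r rfl
      exact both hG s0 r0 s1 s2 s3 r1 r2 r3

end RightPtAux

open RightPtAux in
theorem exists_right {eps : ℝ} {R : Finset Seg} {x : ℂ} (hG : Gen eps R x) {z : ℂ}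
    {b t : Option Seg} (hb : IsBelow eps R z b) (ht' : IsAbove eps R z t) :
    ∃ o, IsRight eps R z b t o := by
  have hfin : (P eps R z b t).Finite := (finite_crit hG).subset (fun v hv => hv.1)
  rcases (P eps R z b t).eq_empty_or_nonempty with he | hne
  · refine ⟨none, ⟨by simp, ?_, ?_⟩⟩
    · intro v h1 h2 h3 h4 h5
      have h6 : v ∈ P eps R z b t := ⟨h1, h2, h3, h4, h5⟩
      rw [he] at h6
      exact h6.elim
    · intro h
      have h6 := nonempty hG hb ht' h
      rw [he] at h6
      exact (Set.not_nonempty_empty h6).elim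
  · obtain ⟨q, hq, hmin⟩ := Set.exists_min_image (P eps R z b t) (X eps) hfin hne
    refine ⟨some q, ⟨?_, ?_, ?_⟩⟩
    · intro q' hq'
      cases hq'
      exact hq
    · intro v h1 h2 h3 h4 h5
      exact ⟨q, rfl, hmin v ⟨h1, h2, h3, h4, h5⟩⟩
    · intro _
      exact ⟨q, rfl⟩

end SFA
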