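import Pool.Agent.Lib.SFA.Extr
import Pool.Agent.Lib.SFA.LeftPt
import Pool.Agent.Lib.SFA.RightPt
import Pool.Agent.Lib.SFA.LeftFree
import Pool.Agent.Lib.SFA.RightFree

/-!
# SFA.ExistV: every generic point is in a valid cell (L1)

`exists_below`, `exists_above` give `b`, `t`; `exists_left`, `exists_right` give `p`, `q`.
The cell `c = (b, t, p, q)`:
* `z in reg c`: `IsLeft.mem`, `IsRight.mem`, `IsBelow.mem`, `IsAbove.mem`.
* `Shape`: `bs`, `ts`: by `ex` there are `p`, `q`, and `mem` gives the inequalities.  `lt`: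
  `X p < X z < X q`.  `bt`: a point `w` of `b` in the slab: `X w <= X z` use `bt_left`, else
  `bt_right`.  `pb`, `qb`: `mem`.
* `Defd`: `mem` of all four.
* `emp`: a conflict `w in carrier s cap hreg c`: `free_left` or `free_right`.
`exists_valid'`: the special case where no critical point has the abscissa of `z`.
-/

namespace SFA

open Set Filter Topology

theorem exists_valid {eps : ℝ} {R : Finset Seg} {x : ℂ} (hG : Gen eps R x) {z : ℂ}
    (hz : z ∉ U R) (hv : ∀ v : ℂ, IsCrit R v → ¬ Vis eps R z v) :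
    ∃ c, Valid eps R c ∧ z ∈ reg eps c := by
  obtain ⟨b, hb⟩ := exists_below hG hz hv
  obtain ⟨t, ht'⟩ := exists_above hG hz hv
  obtain ⟨p, hp⟩ := exists_left hG hb ht'
  obtain ⟨q, hq⟩ := exists_right hG hb ht'
  refine ⟨⟨b, t, p, q⟩, ⟨⟨?_, ?_, ?_, ?_, ?_, ?_⟩, ⟨?_, ?_, ?_, ?_⟩, ?_⟩,
    ⟨⟨?_, ?_⟩, ?_, ?_⟩⟩
  · intro s hs
    obtain ⟨p', hp'⟩ := hp.ex ⟨s, Or.inl hs⟩
    obtain ⟨q', hq'⟩ := hq.ex ⟨s, Or.inl hs⟩
    exact ⟨⟨p', hp', (hp.mem p' hp').2.2.2.1 s hs⟩, ⟨q', hq', (hq.mem q' hq').2.2.2.1 s hs⟩⟩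
  · intro s hs
    obtain ⟨p', hp'⟩ := hp.ex ⟨s, Or.inr hs⟩
    obtain ⟨q', hq'⟩ := hq.ex ⟨s, Or.inr hs⟩
    exact ⟨⟨p', hp', (hp.mem p' hp').2.2.2.2 s hs⟩, ⟨q', hq', (hq.mem q' hq').2.2.2.2 s hs⟩⟩
  · intro p' hp' q' hq'
    exact (hp.mem p' hp').2.1.trans (hq.mem q' hq').2.1
  · intro b' hb' t' htt w hw hslab
    rcases le_total (X eps w) (X eps z) with h | h
    · exact bt_left hG hb ht' hp hslab.1 h hb' htt hw
    · exact bt_right hG hb ht' hq hslab.2 h hb' htt hw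
  · intro p' hp'
    exact (hp.mem p' hp').2.2.1
  · intro q' hq'
    exact (hq.mem q' hq').2.2.1
  · intro s hs
    exact (hb.mem s hs).1
  · intro s hs
    exact (ht'.mem s hs).1
  · intro p' hp'
    exact (hp.mem p' hp').1
  · intro q' hq'
    exact (hq.mem q' hq').1
  · rintro s hs ⟨hsb, hst, w, hws, hslab, hband⟩
    rcases le_total (X eps w) (X eps z) with h | h
    · exact free_left hG hz hb ht' hp hslab.1 h hs hsb hst hws hband
    · exact free_right hG hz hb ht' hq hslab.2 h hs hsb hst hws hband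
  · intro p' hp'
    exact (hp.mem p' hp').2.1
  · intro q' hq'
    exact (hq.mem q' hq').2.1
  · intro s hs
    exact (hb.mem s hs).2.2.2
  · intro s hs
    exact (ht'.mem s hs).2.2.2

theorem exists_valid' {eps : ℝ} {R : Finset Seg} {x : ℂ} (hG : Gen eps R x) {z : ℂ}
    (hz : z ∉ U R) (hv : ∀ v : ℂ, IsCrit R v → X eps v ≠ X eps z) :
    ∃ c, Valid eps R c ∧ z ∈ reg eps c :=
  exists_valid hG hz fun v h1 h2 => hv v h1 h2.1

end SFA
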