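import Pool.Agent.Lib.SFA.EdgeCh
import Pool.Agent.Lib.SFA.ExistV
import Pool.Agent.Lib.SFA.Uniq
import Pool.Agent.Lib.SFA.AdjFace
import Pool.Agent.Lib.SFA.Chg1

/-!
# SFA.DartSd: every directed edge of the face starts with exactly one side of a cell

`edge_end_unique`: `v`, `w` are both the next critical point after `u` on `s` in the same direction (`IsEdge`: no critical point inside the open segment; by abscissas: if `X v < X w` then `v ∈ openSegment u w`).
`side_of_dart`: `IsDart S F u w` on the segment `s`; `X u < X w` (upper side) or `X w < X u` (lower side) (`X u ≠ X w`: `inj`).  Upper side: choose `y` on the open edge so close to `u` that no critical abscissa is in `(X u, X y]` (finitely many), `X y < X w`.  By `side_const` the points `z = y + h I (w - u)` are in the face for all small `h > 0`; their abscissas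
(as `h` varies) are different from the finitely many critical ones for all but finitely many `h` (or choose `h` small enough: `X y` itself is not critical, so a neighbourhood is free), so `exists_valid'` gives valid cells containing `z_h`, `reg ⊆ face` (`reg_subset_face`).  For `h` small no segment other than `s` meets a ball around `y` (`open_edge_free`, closed sets), so the bottom
of the cell of `z_h` is `s`: a bottom `b ≠ s` (or none) with `z_h` above it: the point `y_h` of `s` below `z_h` is in the band if `b` is below it (then `s` conflicts), or `b` passes between `y_h` and `z_h`: impossible in the ball.  Its left wall `p`: `X p < X z_h`; `u` is critical, on `s`; if `p` is none or `X p < X u` then `u ∈ hreg c` (`X u < X z_h`): against `no_crit_in_hreg`;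
so `X u ≤ X p < X z_h` and by the choice of `y` (and `h` small) `X p = X u`, `p = u`.  So `Along (false, c) u w`.  Lower side: mirror image.
`side_unique`: two sides `Along` the same `(u, w)`: same kind (`X u < X w`), same segment (`edge_seg_unique`), both cells start at `u` with `s` as bottom: a point slightly to the right of `u` and slightly above `s` is in both regions (`uniq1` of Chg1 / the same argument), `valid_unique`.
-/

namespace SFA

open Set Filter Topology

namespace DartSdAux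

theorem between {eps : ℝ} {s : Seg} (hs : X eps s.1 < X eps s.2) {u v w : ℂ}
    (hu : u ∈ carrier s) (hv : v ∈ carrier s) (hw : w ∈ carrier s) (h1 : X eps u < X eps v)
    (h2 : X eps v < X eps w) : v ∈ openSegment ℝ u w := by
  have hD : 0 < X eps w - X eps u := by linarith
  set l : ℝ := (X eps v - X eps u) / (X eps w - X eps u) with hl
  have hl0 : 0 < l := div_pos (by linarith) hD
  have hl1 : l < 1 := (div_lt_one hD).2 (by linarith)
  have hlm : l * (X eps w - X eps u) = X eps v - X eps u := by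
    rw [hl]
    field_simp
  have hX : X eps ((1 - l) • u + l • w) = X eps v := by
    rw [X_comb eps (by ring)]
    linarith
  have hc : (1 - l) • u + l • w ∈ carrier s :=
    (convex_segment s.1 s.2) hu hw (by linarith) hl0.le (by ring)
  refine ⟨1 - l, l, by linarith, hl0, by ring, ?_⟩
  apply ext_X hX
  rw [((mem_carrier_iff' hs _).1 hc).2.2, ((mem_carrier_iff' hs _).1 hv).2.2, hX]

theorem pt_seg {eps a r r1 r2 : ℝ} (h1 : r1 ≤ r) (h2 : r ≤ r2) :
    pt eps a r ∈ segment ℝ (pt eps a r1) (pt eps a r2) := by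
  have h : r ∈ segment ℝ r1 r2 := by
    rw [segment_eq_Icc (h1.trans h2)]
    exact ⟨h1, h2⟩
  obtain ⟨α, β, hα, hβ, hαβ, rfl⟩ := h
  refine ⟨α, β, hα, hβ, hαβ, ?_⟩
  have hα' : α = 1 - β := by linarith
  apply ext_X (eps := eps)
  · rw [X_comb eps hαβ, X_pt, X_pt, X_pt, hα']
    ring
  · rw [im_comb, pt_im, pt_im, pt_im]
    simp

theorem near {eps : ℝ} {S : Finset Seg} {x : ℂ} (hG : Gen eps S x) {s : Seg} (hs : s ∈ S)
    {y : ℂ} (hy : y ∈ carrier s) (hfree : ∀ t ∈ S, t ≠ s → y ∉ carrier t) :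
    ∀ᶠ z in 𝓝 y, ∀ c, Valid eps S c → z ∈ reg eps c → X eps s.1 ≤ X eps z →
      X eps z ≤ X eps s.2 → (0 < ori s z → s ∈ c.b) ∧ (ori s z < 0 → s ∈ c.t) := by
  classical
  have hinc := hG.inc s hs
  have hyA : y ∈ (U (S.erase s))ᶜ := by
    intro h
    obtain ⟨t, ht', hyt⟩ := mem_U.1 h
    exact hfree t (Finset.mem_erase.1 ht').2 (Finset.mem_erase.1 ht').1 hyt
  obtain ⟨r, hr, hball⟩ := Metric.isOpen_iff.1 (isClosed_U (S.erase s)).isOpen_compl y hyA
  have hf : Continuous (fun z : ℂ => pt eps (X eps z) (ht eps s (X eps z))) := by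
    have h := (continuous_pt eps).comp
      ((continuous_X eps).prodMk ((continuous_ht eps s).comp (continuous_X eps)))
    simpa [Function.comp_def] using h
  have hfy : pt eps (X eps y) (ht eps s (X eps y)) = y := by
    rw [← ((mem_carrier_iff' hinc y).1 hy).2.2]
    exact pt_eta eps y
  have e1 : ∀ᶠ z in 𝓝 y, z ∈ Metric.ball y r := Metric.ball_mem_nhds y hr
  have e2 : ∀ᶠ z in 𝓝 y, pt eps (X eps z) (ht eps s (X eps z)) ∈ Metric.ball y r := by
    have h1 := hf.tendsto y
    simp only [hfy] at h1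
    exact h1.eventually (Metric.ball_mem_nhds y hr)
  filter_upwards [e1, e2] with z h1 h2 c hc hz hx1 hx2
  have hze : pt eps (X eps z) z.im = z := pt_eta eps z
  constructor
  · intro hpos
    by_contra hsb
    have hlt : ht eps s (X eps z) < z.im := (ori_pos_iff hinc z).1 hpos
    have hst : s ∉ c.t := fun h => absurd (hz.2.2 s h) (not_lt.2 hpos.le)
    refine hc.emp s hs ⟨hsb, hst, pt eps (X eps z) (ht eps s (X eps z)),
      pt_mem_carrier hinc hx1 hx2, ?_, ?_, ?_⟩
    · unfold inSlab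
      rw [X_pt]
      exact hz.1
    · intro b hb
      have hbR := hc.defd.bR b hb
      have hbi := hG.inc b hbR
      rw [ori_nonneg_iff hbi, X_pt, pt_im]
      by_contra hcon
      push Not at hcon
      have hb2 : ht eps b (X eps z) < z.im := (ori_pos_iff hbi z).1 (hz.2.1 b hb)
      have hbne : b ≠ s := fun e => hsb (e ▸ hb)
      obtain ⟨h3, h4⟩ := NoCritAux.spans_lt (hc.shape.bs b hb) hz.1
      have hmem : pt eps (X eps z) (ht eps b (X eps z)) ∈ carrier b :=
        pt_mem_carrier hbi h3.le h4.le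
      have hin : pt eps (X eps z) (ht eps b (X eps z)) ∈ Metric.ball y r := by
        have h5 := pt_seg (eps := eps) (a := X eps z) hcon.le hb2.le
        rw [hze] at h5
        exact (convex_ball y r).segment_subset h2 h1 h5
      exact hball hin (mem_U.2 ⟨b, Finset.mem_erase.2 ⟨hbne, hbR⟩, hmem⟩)
    · intro t ht'
      have hti := hG.inc t (hc.defd.tR t ht')
      rw [ori_nonpos_iff hti, X_pt, pt_im]
      have := (ori_neg_iff hti z).1 (hz.2.2 t ht')
      linarith
  · intro hneg
    by_contra hst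
    have hlt : z.im < ht eps s (X eps z) := (ori_neg_iff hinc z).1 hneg
    have hsb : s ∉ c.b := fun h => absurd (hz.2.1 s h) (not_lt.2 hneg.le)
    refine hc.emp s hs ⟨hsb, hst, pt eps (X eps z) (ht eps s (X eps z)),
      pt_mem_carrier hinc hx1 hx2, ?_, ?_, ?_⟩
    · unfold inSlab
      rw [X_pt]
      exact hz.1
    · intro t ht'
      have hti := hG.inc t (hc.defd.bR t ht')
      rw [ori_nonneg_iff hti, X_pt, pt_im]
      have := (ori_pos_iff hti z).1 (hz.2.1 t ht')
      linarith
    · intro b hb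
      have hbR := hc.defd.tR b hb
      have hbi := hG.inc b hbR
      rw [ori_nonpos_iff hbi, X_pt, pt_im]
      by_contra hcon
      push Not at hcon
      have hb2 : z.im < ht eps b (X eps z) := (ori_neg_iff hbi z).1 (hz.2.2 b hb)
      have hbne : b ≠ s := fun e => hst (e ▸ hb)
      obtain ⟨h3, h4⟩ := NoCritAux.spans_lt (hc.shape.ts b hb) hz.1
      have hmem : pt eps (X eps z) (ht eps b (X eps z)) ∈ carrier b :=
        pt_mem_carrier hbi h3.le h4.le
      have hin : pt eps (X eps z) (ht eps b (X eps z)) ∈ Metric.ball y r := by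
        have h5 := pt_seg (eps := eps) (a := X eps z) hb2.le hcon.le
        rw [hze] at h5
        exact (convex_ball y r).segment_subset h1 h2 h5
      exact hball hin (mem_U.2 ⟨b, Finset.mem_erase.2 ⟨hbne, hbR⟩, hmem⟩)

/-- the left wall of the cell with bottom `s` which contains a point slightly to the right of
`u` -/
theorem left_wall {eps : ℝ} {S : Finset Seg} {x : ℂ} (hG : Gen eps S x) {c : Cell}
    (hc : Valid eps S c) {s : Seg} (hs : s ∈ c.b) {u z : ℂ} (hu : IsCrit S u)
    (hus : u ∈ carrier s) (hz : z ∈ reg eps c) (huz : X eps u < X eps z)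
    (hfree : ∀ v, IsCrit S v → X eps u < X eps v → X eps z < X eps v) : u ∈ c.p := by
  have hinc := hG.inc s (hc.defd.bR s hs)
  obtain ⟨⟨p, hp, -⟩, ⟨q, hq, -⟩⟩ := hc.shape.bs s hs
  have hpz := hz.1.1 p hp
  have hzq := hz.1.2 q hq
  have hpc := hc.defd.pC p hp
  rcases lt_trichotomy (X eps p) (X eps u) with h | h | h
  · exfalso
    have hsl : inSlab eps c u := by
      refine ⟨fun p' hp' => ?_, fun q' hq' => ?_⟩
      · rw [Option.mem_unique hp' hp]; exact h
      · rw [Option.mem_unique hq' hq]; exact huz.trans hzq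
    refine no_crit_in_hreg hG hc hu ⟨hsl, fun b hb => ?_, fun t ht' => ?_⟩
    · rw [Option.mem_unique hb hs, ((mem_carrier_iff hinc u).1 hus).2.2]
    · exact (hc.shape.bt s hs t ht' u hus hsl).le
  · rw [← hG.inj p u hpc hu h]
    exact hp
  · exact absurd hpz (not_lt.2 (hfree p hpc h).le)

theorem right_wall {eps : ℝ} {S : Finset Seg} {x : ℂ} (hG : Gen eps S x) {c : Cell}
    (hc : Valid eps S c) {s : Seg} (hs : s ∈ c.t) {u z : ℂ} (hu : IsCrit S u)
    (hus : u ∈ carrier s) (hz : z ∈ reg eps c) (huz : X eps z < X eps u)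
    (hfree : ∀ v, IsCrit S v → X eps v < X eps u → X eps v < X eps z) : u ∈ c.q := by
  have hinc := hG.inc s (hc.defd.tR s hs)
  obtain ⟨⟨p, hp, -⟩, ⟨q, hq, -⟩⟩ := hc.shape.ts s hs
  have hpz := hz.1.1 p hp
  have hzq := hz.1.2 q hq
  have hqc := hc.defd.qC q hq
  rcases lt_trichotomy (X eps q) (X eps u) with h | h | h
  · exact absurd hzq (not_lt.2 (hfree q hqc h).le)
  · rw [← hG.inj q u hqc hu h]
    exact hq
  · exfalso
    have hsl : inSlab eps c u := by
      refine ⟨fun p' hp' => ?_, fun q' hq' => ?_⟩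
      · rw [Option.mem_unique hp' hp]; exact hpz.trans huz
      · rw [Option.mem_unique hq' hq]; exact h
    refine no_crit_in_hreg hG hc hu ⟨hsl, fun b hb => ?_, fun t ht' => ?_⟩
    · exact (shape_tb hc.shape (fun b hb => hG.inc b (hc.defd.bR b hb))
        (fun b hb => hG.inc b (hc.defd.tR b hb)) s hs b hb u hus hsl).le
    · rw [Option.mem_unique ht' hs, ((mem_carrier_iff hinc u).1 hus).2.2]

theorem mid_mem (u w : ℂ) : midpoint ℝ u w ∈ openSegment ℝ u w := by
  refine ⟨1 / 2, 1 / 2, by norm_num, by norm_num, by norm_num, ?_⟩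
  rw [midpoint_eq_smul_add, smul_add, one_div]
  norm_num

theorem tend (y d : ℂ) :
    Tendsto (fun h : ℝ => y + ((h : ℝ) : ℂ) * Complex.I * d) (𝓝[>] (0 : ℝ)) (𝓝 y) := by
  have hcont : Continuous (fun h : ℝ => y + ((h : ℝ) : ℂ) * Complex.I * d) := by fun_prop
  have h1 := hcont.tendsto 0
  simp only [Complex.ofReal_zero, zero_mul, add_zero] at h1
  exact h1.mono_left nhdsWithin_le_nhds

theorem ori_step (s : Seg) (y d : ℂ) (h : ℝ) :
    ori s (y + ((h : ℝ) : ℂ) * Complex.I * d) =
      ori s y + h * cross (s.2 - s.1) (Complex.I * d) := by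
  simp only [ori, cross, Complex.sub_re, Complex.sub_im, Complex.add_re, Complex.add_im,
    Complex.mul_re, Complex.mul_im, Complex.I_re, Complex.I_im, Complex.ofReal_re,
    Complex.ofReal_im]
  ring

theorem side_up {eps : ℝ} {S : Finset Seg} {x : ℂ} (hG : Gen eps S x) {u w : ℂ}
    (h : IsDart S (face S x) u w) {s : Seg} (hs : s ∈ S) (hus : u ∈ carrier s)
    (hws : w ∈ carrier s) (huw : X eps u < X eps w) :
    ∃ c, InFace eps S x c ∧ s ∈ c.b ∧ u ∈ c.p := by
  have hinc := hG.inc s hs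
  obtain ⟨he, hl⟩ := h
  have hfin : ∀ᶠ a in 𝓝[>] (X eps u), ∀ v ∈ {v : ℂ | IsCrit S v}, X eps u < X eps v →
      a < X eps v := by
    rw [Filter.eventually_all_finite (finite_crit hG)]
    intro v _
    by_cases hv : X eps u < X eps v
    · filter_upwards [(eventually_lt_nhds hv).filter_mono nhdsWithin_le_nhds] with a ha _
      exact ha
    · exact Filter.Eventually.of_forall fun a h => absurd h hv
  have e1 : ∀ᶠ a in 𝓝[>] (X eps u), X eps u < a := self_mem_nhdsWithin
  have e2 : ∀ᶠ a in 𝓝[>] (X eps u), a < X eps w :=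
    (eventually_lt_nhds huw).filter_mono nhdsWithin_le_nhds
  obtain ⟨a, ha1, ha2, ha3⟩ := (e1.and (e2.and hfin)).exists
  obtain ⟨bu1, -, -⟩ := (mem_carrier_iff hinc u).1 hus
  obtain ⟨-, bw2, -⟩ := (mem_carrier_iff hinc w).1 hws
  have hyc : pt eps a (ht eps s a) ∈ carrier s :=
    pt_mem_carrier hinc (bu1.trans ha1.le) (ha2.le.trans bw2)
  have hXy : X eps (pt eps a (ht eps s a)) = a := X_pt _ _ _
  set y : ℂ := pt eps a (ht eps s a) with hy
  have hyo : y ∈ openSegment ℝ u w :=
    between hinc hus hyc hws (by rw [hXy]; exact ha1) (by rw [hXy]; exact ha2)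
  have hlo := side_const hG he (mid_mem u w) hyo hl.frequently
  have hfr := (open_edge_free he hs hus hws hyo).2
  have hnear := (tend y (w - u)).eventually (near hG hs hyc hfr)
  have f1 : ∀ᶠ h : ℝ in 𝓝[>] (0 : ℝ),
      X eps u < X eps (y + ((h : ℝ) : ℂ) * Complex.I * (w - u)) :=
    (((continuous_X eps).tendsto y).comp (tend y (w - u))).eventually_const_lt
      (by rw [hXy]; exact ha1)
  have f2 : ∀ᶠ h : ℝ in 𝓝[>] (0 : ℝ),
      X eps (y + ((h : ℝ) : ℂ) * Complex.I * (w - u)) < X eps w :=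
    (((continuous_X eps).tendsto y).comp (tend y (w - u))).eventually_lt_const
      (by rw [hXy]; exact ha2)
  have f3 : ∀ᶠ h : ℝ in 𝓝[>] (0 : ℝ), ∀ v ∈ {v : ℂ | IsCrit S v}, X eps u < X eps v →
      X eps (y + ((h : ℝ) : ℂ) * Complex.I * (w - u)) < X eps v := by
    rw [Filter.eventually_all_finite (finite_crit hG)]
    intro v hv
    by_cases hv' : X eps u < X eps v
    · have h3 : ∀ᶠ h : ℝ in 𝓝[>] (0 : ℝ),
          X eps (y + ((h : ℝ) : ℂ) * Complex.I * (w - u)) < X eps v :=
        (((continuous_X eps).tendsto y).comp (tend y (w - u))).eventually_lt_const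
          (by rw [hXy]; exact ha3 v hv hv')
      exact h3.mono fun h hh _ => hh
    · exact Filter.Eventually.of_forall fun a h => absurd h hv'
  have f4 : ∀ᶠ h : ℝ in 𝓝[>] (0 : ℝ), 0 < h := self_mem_nhdsWithin
  obtain ⟨h, g0, g1, g2, g3, g4, g5⟩ :=
    (hlo.and (hnear.and (f1.and (f2.and (f3.and f4))))).exists
  have hori : 0 < ori s (y + ((h : ℝ) : ℂ) * Complex.I * (w - u)) := by
    rw [ori_step, ((mem_carrier_iff hinc y).1 hyc).2.2, zero_add]
    exact mul_pos g5 (Chg1Aux.dpos hinc hus hws huw)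
  set z : ℂ := y + ((h : ℝ) : ℂ) * Complex.I * (w - u) with hz
  have hzU : z ∉ U S := connectedComponentIn_subset _ _ g0
  obtain ⟨c, hc, hzc⟩ := exists_valid' hG hzU fun v hv hXv => by
    have := g4 v hv (by rw [hXv]; exact g2)
    rw [hXv] at this
    exact lt_irrefl _ this
  have hsb := (g1 c hc hzc (bu1.trans g2.le) (g3.le.trans bw2)).1 hori
  exact ⟨c, ⟨hc, reg_subset_face hG hc hzc g0⟩, hsb,
    left_wall hG hc hsb he.2.1 hus hzc g2 fun v hv => g4 v hv⟩

theorem side_dn {eps : ℝ} {S : Finset Seg} {x : ℂ} (hG : Gen eps S x) {u w : ℂ}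
    (h : IsDart S (face S x) u w) {s : Seg} (hs : s ∈ S) (hus : u ∈ carrier s)
    (hws : w ∈ carrier s) (huw : X eps w < X eps u) :
    ∃ c, InFace eps S x c ∧ s ∈ c.t ∧ u ∈ c.q := by
  have hinc := hG.inc s hs
  obtain ⟨he, hl⟩ := h
  have hfin : ∀ᶠ a in 𝓝[<] (X eps u), ∀ v ∈ {v : ℂ | IsCrit S v}, X eps v < X eps u →
      X eps v < a := by
    rw [Filter.eventually_all_finite (finite_crit hG)]
    intro v _
    by_cases hv : X eps v < X eps u
    · filter_upwards [(eventually_gt_nhds hv).filter_mono nhdsWithin_le_nhds] with a ha _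
      exact ha
    · exact Filter.Eventually.of_forall fun a h => absurd h hv
  have e1 : ∀ᶠ a in 𝓝[<] (X eps u), a < X eps u := self_mem_nhdsWithin
  have e2 : ∀ᶠ a in 𝓝[<] (X eps u), X eps w < a :=
    (eventually_gt_nhds huw).filter_mono nhdsWithin_le_nhds
  obtain ⟨a, ha1, ha2, ha3⟩ := (e1.and (e2.and hfin)).exists
  obtain ⟨-, bu1, -⟩ := (mem_carrier_iff hinc u).1 hus
  obtain ⟨bw2, -, -⟩ := (mem_carrier_iff hinc w).1 hws
  have hyc : pt eps a (ht eps s a) ∈ carrier s :=
    pt_mem_carrier hinc (bw2.trans ha2.le) (ha1.le.trans bu1)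
  have hXy : X eps (pt eps a (ht eps s a)) = a := X_pt _ _ _
  set y : ℂ := pt eps a (ht eps s a) with hy
  have hyo : y ∈ openSegment ℝ u w := by
    rw [openSegment_symm]
    exact between hinc hws hyc hus (by rw [hXy]; exact ha2) (by rw [hXy]; exact ha1)
  have hlo := side_const hG he (mid_mem u w) hyo hl.frequently
  have hfr := (open_edge_free he hs hus hws hyo).2
  have hnear := (tend y (w - u)).eventually (near hG hs hyc hfr)
  have f1 : ∀ᶠ h : ℝ in 𝓝[>] (0 : ℝ),
      X eps (y + ((h : ℝ) : ℂ) * Complex.I * (w - u)) < X eps u :=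
    (((continuous_X eps).tendsto y).comp (tend y (w - u))).eventually_lt_const
      (by rw [hXy]; exact ha1)
  have f2 : ∀ᶠ h : ℝ in 𝓝[>] (0 : ℝ),
      X eps w < X eps (y + ((h : ℝ) : ℂ) * Complex.I * (w - u)) :=
    (((continuous_X eps).tendsto y).comp (tend y (w - u))).eventually_const_lt
      (by rw [hXy]; exact ha2)
  have f3 : ∀ᶠ h : ℝ in 𝓝[>] (0 : ℝ), ∀ v ∈ {v : ℂ | IsCrit S v}, X eps v < X eps u →
      X eps v < X eps (y + ((h : ℝ) : ℂ) * Complex.I * (w - u)) := by
    rw [Filter.eventually_all_finite (finite_crit hG)]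
    intro v hv
    by_cases hv' : X eps v < X eps u
    · have h3 : ∀ᶠ h : ℝ in 𝓝[>] (0 : ℝ),
          X eps v < X eps (y + ((h : ℝ) : ℂ) * Complex.I * (w - u)) :=
        (((continuous_X eps).tendsto y).comp (tend y (w - u))).eventually_const_lt
          (by rw [hXy]; exact ha3 v hv hv')
      exact h3.mono fun h hh _ => hh
    · exact Filter.Eventually.of_forall fun a h => absurd h hv'
  have f4 : ∀ᶠ h : ℝ in 𝓝[>] (0 : ℝ), 0 < h := self_mem_nhdsWithin
  obtain ⟨h, g0, g1, g2, g3, g4, g5⟩ :=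
    (hlo.and (hnear.and (f1.and (f2.and (f3.and f4))))).exists
  have hori : ori s (y + ((h : ℝ) : ℂ) * Complex.I * (w - u)) < 0 := by
    have h1 := mul_pos g5 (Chg1Aux.dpos hinc hws hus huw)
    have h2 : cross (s.2 - s.1) (Complex.I * (w - u)) =
        - cross (s.2 - s.1) (Complex.I * (u - w)) := by
      simp only [cross, Complex.mul_re, Complex.mul_im, Complex.sub_re, Complex.sub_im]
      ring
    rw [ori_step, ((mem_carrier_iff hinc y).1 hyc).2.2, zero_add, h2]
    linarith
  set z : ℂ := y + ((h : ℝ) : ℂ) * Complex.I * (w - u) with hz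
  have hzU : z ∉ U S := connectedComponentIn_subset _ _ g0
  obtain ⟨c, hc, hzc⟩ := exists_valid' hG hzU fun v hv hXv => by
    have := g4 v hv (by rw [hXv]; exact g2)
    rw [hXv] at this
    exact lt_irrefl _ this
  have hsb := (g1 c hc hzc (bw2.trans g3.le) (g2.le.trans bu1)).2 hori
  exact ⟨c, ⟨hc, reg_subset_face hG hc hzc g0⟩, hsb,
    right_wall hG hc hsb he.2.1 hus hzc g2 fun v hv => g4 v hv⟩

/-- points slightly below the top, to the left of the right wall -/
theorem below {eps : ℝ} {S : Finset Seg} {x : ℂ} (hG : Gen eps S x) {c : Cell}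
    (hc : Valid eps S c) {s : Seg} (hs : s ∈ c.t) {a : ℝ}
    (ha : ∀ p ∈ c.p, X eps p < a) (ha' : ∀ q ∈ c.q, a < X eps q) :
    ∀ᶠ h : ℝ in 𝓝[>] (0 : ℝ), pt eps a (ht eps s a - h) ∈ reg eps c := by
  have hinc := hG.inc s (hc.defd.tR s hs)
  obtain ⟨⟨p, hp, hp'⟩, ⟨q, hq, hq'⟩⟩ := hc.shape.ts s hs
  have hyc : pt eps a (ht eps s a) ∈ carrier s :=
    pt_mem_carrier hinc (hp'.trans (ha p hp).le) ((ha' q hq).le.trans hq')
  have hsl : inSlab eps c (pt eps a (ht eps s a)) := by
    unfold inSlab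
    rw [X_pt]
    exact ⟨ha, ha'⟩
  have hcont : Continuous (fun h : ℝ => pt eps a (ht eps s a - h)) := by
    have h := (continuous_pt eps).comp
      ((continuous_const (y := a)).prodMk (continuous_const.sub continuous_id (f := fun _ : ℝ =>
        ht eps s a)))
    simpa [Function.comp_def] using h
  have htend : Tendsto (fun h : ℝ => pt eps a (ht eps s a - h)) (𝓝[>] (0 : ℝ))
      (𝓝 (pt eps a (ht eps s a))) := by
    have h1 := hcont.tendsto 0
    simp only [sub_zero] at h1
    exact h1.mono_left nhdsWithin_le_nhds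
  have e1 : ∀ᶠ h : ℝ in 𝓝[>] (0 : ℝ), ∀ b ∈ c.b,
      0 < ori b (pt eps a (ht eps s a - h)) := by
    refine Chg1Aux.opt_ev c.b fun b hb => ?_
    have h1 := shape_tb hc.shape (fun b hb => hG.inc b (hc.defd.bR b hb))
        (fun b hb => hG.inc b (hc.defd.tR b hb)) s hs b hb _ hyc hsl
    exact (((continuous_ori b).tendsto _).comp htend).eventually_const_lt h1
  have e2 : ∀ᶠ h : ℝ in 𝓝[>] (0 : ℝ), 0 < h := self_mem_nhdsWithin
  filter_upwards [e1, e2] with h h1 h2
  refine ⟨?_, h1, fun t ht' => ?_⟩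
  · unfold inSlab
    rw [X_pt]
    exact ⟨ha, ha'⟩
  · rw [Option.mem_unique ht' hs, ori_neg_iff hinc, X_pt, pt_im]
    linarith

theorem uniq_top {eps : ℝ} {S : Finset Seg} {x : ℂ} (hG : Gen eps S x) {c1 c2 : Cell}
    (hc1 : Valid eps S c1) (hc2 : Valid eps S c2) {u : ℂ} (hu1 : u ∈ c1.q) (hu2 : u ∈ c2.q)
    {s : Seg} (hs1 : s ∈ c1.t) (hs2 : s ∈ c2.t) : c1 = c2 := by
  obtain ⟨⟨p1, hp1, -⟩, -⟩ := hc1.shape.ts s hs1
  obtain ⟨⟨p2, hp2, -⟩, -⟩ := hc2.shape.ts s hs2
  have h1 := hc1.shape.lt p1 hp1 u hu1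
  have h2 := hc2.shape.lt p2 hp2 u hu2
  obtain ⟨a, ha1, ha2⟩ := exists_between (max_lt h1 h2)
  have e1 := below hG hc1 hs1 (a := a)
    (fun p hp => by rw [Option.mem_unique hp hp1]; exact (le_max_left _ _).trans_lt ha1)
    (fun q hq => by rw [Option.mem_unique hq hu1]; exact ha2)
  have e2 := below hG hc2 hs2 (a := a)
    (fun p hp => by rw [Option.mem_unique hp hp2]; exact (le_max_right _ _).trans_lt ha1)
    (fun q hq => by rw [Option.mem_unique hq hu2]; exact ha2)
  obtain ⟨h, hh1, hh2⟩ := (e1.and e2).exists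
  exact valid_unique hG hc1 hc2 hh1 hh2

end DartSdAux

open DartSdAux

theorem edge_end_unique {eps : ℝ} {S : Finset Seg} {x : ℂ} (hG : Gen eps S x) {u v w : ℂ}
    (hv : IsEdge S u v) (hw : IsEdge S u w) {s : Seg} (hs : s ∈ S) (hus : u ∈ carrier s)
    (hvs : v ∈ carrier s) (hws : w ∈ carrier s) (h : X eps u < X eps v ↔ X eps u < X eps w) :
    v = w := by
  have hinc := hG.inc s hs
  have key : ∀ v w : ℂ, IsEdge S u v → IsEdge S u w → v ∈ carrier s → w ∈ carrier s →
      (X eps u < X eps v ↔ X eps u < X eps w) → ¬ X eps v < X eps w := by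
    intro v w hv hw hvs hws h hlt
    by_cases h1 : X eps u < X eps v
    · exact hw.2.2.2.2 v (between hinc hus hvs hws h1 hlt) hv.2.2.1
    · have h2 : ¬ X eps u < X eps w := fun h' => h1 (h.2 h')
      have h3 : X eps w ≠ X eps u := fun h' => hw.1 (hG.inj w u hw.2.2.1 hw.2.1 h').symm
      have h4 : X eps w < X eps u := lt_of_le_of_ne (not_lt.1 h2) h3
      refine hv.2.2.2.2 w ?_ hw.2.2.1
      rw [openSegment_symm]
      exact between hinc hvs hws hus hlt h4
  rcases lt_trichotomy (X eps v) (X eps w) with h1 | h1 | h1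
  · exact absurd h1 (key v w hv hw hvs hws h)
  · exact hG.inj v w hv.2.2.1 hw.2.2.1 h1
  · exact absurd h1 (key w v hw hv hws hvs h.symm)

theorem side_of_dart {eps : ℝ} {S : Finset Seg} {x : ℂ} (hG : Gen eps S x) {u w : ℂ}
    (h : IsDart S (face S x) u w) :
    ∃ k : Bool × Cell, InFace eps S x k.2 ∧ Along eps k u w := by
  obtain ⟨s, hs, hus, hws⟩ := h.1.2.2.2.1
  have hinc := hG.inc s hs
  have hou := ((mem_carrier_iff hinc u).1 hus).2.2
  rcases lt_trichotomy (X eps u) (X eps w) with h1 | h1 | h1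
  · obtain ⟨c, hc, hsb, hup⟩ := side_up hG h hs hus hws h1
    exact ⟨(false, c), hc, ⟨s, hsb, hup, hou⟩, ⟨s, hsb, hus, hws⟩, h1⟩
  · exact absurd (hG.inj u w h.1.2.1 h.1.2.2.1 h1) h.1.1
  · obtain ⟨c, hc, hsb, hup⟩ := side_dn hG h hs hus hws h1
    exact ⟨(true, c), hc, ⟨s, hsb, hup, hou⟩, ⟨s, hsb, hus, hws⟩, h1⟩

theorem side_unique {eps : ℝ} {S : Finset Seg} {x : ℂ} (hG : Gen eps S x) {u w : ℂ}
    {k1 k2 : Bool × Cell} (h1 : Valid eps S k1.2) (h2 : Valid eps S k2.2)
    (ha1 : Along eps k1 u w) (ha2 : Along eps k2 u w) : k1 = k2 := by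
  obtain ⟨k1, c1⟩ := k1
  obtain ⟨k2, c2⟩ := k2
  obtain ⟨⟨s1, hs1, hu1, -⟩, ⟨s1', hs1', hus1, hws1⟩, hX1⟩ := ha1
  obtain ⟨⟨s2, hs2, hu2, -⟩, ⟨s2', hs2', hus2, hws2⟩, hX2⟩ := ha2
  cases k1 <;> cases k2
  · have hX1' : X eps u < X eps w := hX1
    obtain ⟨z, hz1, hz2⟩ := uniq1 hG h1 h2 (v := u) (w := w) hu1 hu2 (b1 := s1') (b2 := s2')
      hs1' hs2' hus1 hws1 hus2 hws2 hX1'
    have hcc : c1 = c2 := valid_unique hG h1 h2 hz1 hz2
    rw [hcc]
  · have hX1' : X eps u < X eps w := hX1
    have hX2' : X eps w < X eps u := hX2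
    exact absurd hX1' (not_lt.2 hX2'.le)
  · have hX1' : X eps w < X eps u := hX1
    have hX2' : X eps u < X eps w := hX2
    exact absurd hX1' (not_lt.2 hX2'.le)
  · have hX1' : X eps w < X eps u := hX1
    have hne : u ≠ w := fun e => by rw [e] at hX1'; exact lt_irrefl _ hX1'
    have hs : s1' = s2' := edge_seg_unique hG hne (h1.defd.tR s1' hs1') (h2.defd.tR s2' hs2')
      hus1 hws1 hus2 hws2
    subst hs
    have hcc : c1 = c2 := uniq_top hG h1 h2 (u := u) hu1 hu2 (s := s1') hs1' hs2'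
    rw [hcc]

end SFA
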