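import Mathlib

/-!
# SFA: the face of a point in an arrangement of segments, definitions for the algorithm

The plane is the set of complex numbers.  Everything about cells is written for the sheared
abscissa `X eps z = z.re + eps * z.im`; for small `eps > 0` the order of the abscissas of the
finitely many critical points is the lexicographic order of the points.
-/

namespace SFA

/-- A segment, given by its two endpoints. -/
abbrev Seg := ℂ × ℂ

/-- The closed segment as a set. -/
def carrier (s : Seg) : Set ℂ := segment ℝ s.1 s.2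

/-- The union of a finite set of segments. -/
def U (R : Finset Seg) : Set ℂ := ⋃ s ∈ R, carrier s

/-- The face of `x` in the arrangement of `R`. -/
def face (R : Finset Seg) (x : ℂ) : Set ℂ := connectedComponentIn (U R)ᶜ x

/-- Lexicographic order of points. -/
def lexlt (p q : ℂ) : Prop := p.re < q.re ∨ (p.re = q.re ∧ p.im < q.im)

/-- Cross product of two vectors. -/
def cross (a b : ℂ) : ℝ := a.re * b.im - a.im * b.re

/-- Orientation: positive iff `z` lies strictly above the line of `s`
(when `s` is directed to the right). -/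
def ori (s : Seg) (z : ℂ) : ℝ := cross (s.2 - s.1) (z - s.1)

/-- Critical points: endpoints and points on two distinct segments. -/
def IsCrit (R : Finset Seg) (v : ℂ) : Prop :=
  (∃ s ∈ R, v = s.1 ∨ v = s.2) ∨
    ∃ s ∈ R, ∃ t ∈ R, s ≠ t ∧ v ∈ carrier s ∧ v ∈ carrier t

/-- Sheared abscissa. -/
def X (eps : ℝ) (z : ℂ) : ℝ := z.re + eps * z.im

/-- Height of the line of `s` at abscissa `c`. -/
noncomputable def ht (eps : ℝ) (s : Seg) (c : ℝ) : ℝ :=
  s.1.im + (s.2.im - s.1.im) * ((c - X eps s.1) / (X eps s.2 - X eps s.1))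

/-- `S` is a finite set of segments directed to the right, two distinct ones share at most one
point, distinct critical points have distinct abscissas, `x` is on no segment and its abscissa
is not that of a critical point. -/
structure Gen (eps : ℝ) (S : Finset Seg) (x : ℂ) : Prop where
  inc : ∀ s ∈ S, X eps s.1 < X eps s.2
  one : ∀ s ∈ S, ∀ t ∈ S, s ≠ t → (carrier s ∩ carrier t).Subsingleton
  inj : ∀ u v : ℂ, IsCrit S u → IsCrit S v → X eps u = X eps v → u = v
  xfree : x ∉ U S
  xgen : ∀ u : ℂ, IsCrit S u → X eps u ≠ X eps x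

/-- The order of the abscissas of the critical points and `x` is the lexicographic order. -/
def LexOK (eps : ℝ) (S : Finset Seg) (x : ℂ) : Prop :=
  ∀ u v : ℂ, (IsCrit S u ∨ u = x) → (IsCrit S v ∨ v = x) → (lexlt u v ↔ X eps u < X eps v)

/-- A trapezoid: bottom segment, top segment, left critical point, right critical point
(`none` means unbounded in this direction). -/
structure Cell where
  b : Option Seg
  t : Option Seg
  p : Option ℂ
  q : Option ℂ

/-- `z` lies strictly between the two walls. -/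
def inSlab (eps : ℝ) (c : Cell) (z : ℂ) : Prop :=
  (∀ p ∈ c.p, X eps p < X eps z) ∧ (∀ q ∈ c.q, X eps z < X eps q)

/-- `z` lies between bottom and top (closed). -/
def inBand (c : Cell) (z : ℂ) : Prop :=
  (∀ b ∈ c.b, 0 ≤ ori b z) ∧ (∀ t ∈ c.t, ori t z ≤ 0)

/-- The open trapezoid. -/
def reg (eps : ℝ) (c : Cell) : Set ℂ :=
  {z | inSlab eps c z ∧ (∀ b ∈ c.b, 0 < ori b z) ∧ (∀ t ∈ c.t, ori t z < 0)}

/-- The trapezoid with its open bottom and top sides. -/
def hreg (eps : ℝ) (c : Cell) : Set ℂ := {z | inSlab eps c z ∧ inBand c z}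

/-- `s` extends over the whole closed slab of `c`. -/
def spans (eps : ℝ) (c : Cell) (s : Seg) : Prop :=
  (∃ p ∈ c.p, X eps s.1 ≤ X eps p) ∧ (∃ q ∈ c.q, X eps q ≤ X eps s.2)

/-- `s` conflicts with `c`. -/
def confl (eps : ℝ) (c : Cell) (s : Seg) : Prop :=
  s ∉ c.b ∧ s ∉ c.t ∧ (carrier s ∩ hreg eps c).Nonempty

/-- The conditions on `c` that do not depend on the set of segments. -/
structure Shape (eps : ℝ) (c : Cell) : Prop where
  bs : ∀ b ∈ c.b, spans eps c b
  ts : ∀ t ∈ c.t, spans eps c t
  lt : ∀ p ∈ c.p, ∀ q ∈ c.q, X eps p < X eps q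
  bt : ∀ b ∈ c.b, ∀ t ∈ c.t, ∀ z ∈ carrier b, inSlab eps c z → ori t z < 0
  pb : ∀ p ∈ c.p, inBand c p
  qb : ∀ q ∈ c.q, inBand c q

/-- The defining condition of `c`: bottom and top belong to `R`, the two walls pass through
critical points of `R`. -/
structure Defd (R : Finset Seg) (c : Cell) : Prop where
  bR : ∀ b ∈ c.b, b ∈ R
  tR : ∀ t ∈ c.t, t ∈ R
  pC : ∀ p ∈ c.p, IsCrit R p
  qC : ∀ q ∈ c.q, IsCrit R q

/-- `c` is a trapezoid of the decomposition of the plane by `R`. -/
structure Valid (eps : ℝ) (R : Finset Seg) (c : Cell) : Prop where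
  shape : Shape eps c
  defd : Defd R c
  emp : ∀ s ∈ R, ¬ confl eps c s

/-- `c` is a trapezoid of the face of `x`. -/
def InFace (eps : ℝ) (R : Finset Seg) (x : ℂ) (c : Cell) : Prop :=
  Valid eps R c ∧ reg eps c ⊆ face R x

/-- `c'` is a right neighbour of `c`. -/
def adj (c c' : Cell) : Prop :=
  ∃ v : ℂ, v ∈ c.q ∧ v ∈ c'.p ∧
    ((c.t = c'.t ∧ ∀ t ∈ c.t, ori t v < 0) ∨ (c.b = c'.b ∧ ∀ b ∈ c.b, 0 < ori b v))

/-- Neighbours on either side. -/
def nbr (c c' : Cell) : Prop := adj c c' ∨ adj c' c

/-- The set of trapezoids of the face of `x`. -/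
def TF (eps : ℝ) (R : Finset Seg) (x : ℂ) : Set Cell := {c | InFace eps R x c}

end SFA
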