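import Pool.Agent.Lib.SFA.DartB

/-!
# SFA.SideC: the left side of an edge lies in one face

Let `(u,w)` be an edge on `s`, `d = w - u`, `n = I * d`.  Let `y1, y2` be on the open edge, and `K` the
segment `[y1, y2]`, a compact subset of the open edge.  `K` is disjoint from the closed set
`A = union of carrier t, t in R, t <> s` (`open_edge_free`), so there is `rho > 0` such that the
`rho`-neighbourhood of `K` is disjoint from `A`.  A point `y + h n` with `y in K`, `h <> 0` is not on
the line of `s`: `cross d (y + h n - u) = h * |d|^2 <> 0` (`cross d (I d) = |d|^2`), and `carrier s` is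
contained in this line (`u <> w` are both on it).  So the rectangle
`Q = {y + h n : y in K, 0 < h < rho / (|d| + 1)}` is disjoint from `U R`, and it is convex
(image of a convex set under an affine map, or directly), hence preconnected.  If some point of
`Q` of the form `y1 + h n` is in `face R x`, then `Q` is contained in `face R x`
(`IsPreconnected.subset_connectedComponentIn` after `connectedComponentIn_eq`).  So
`y2 + h n in face R x` for all small `h > 0`.
-/

namespace SFA

open Set Filter Topology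

namespace SideCAux

theorem cross_add' (a b c : ℂ) : cross a (b + c) = cross a b + cross a c := by
  simp [cross]; ring

theorem ori_shift (s : Seg) (y v : ℂ) : ori s (y + v) = ori s y + cross (s.2 - s.1) v := by
  simp [ori, cross]; ring

theorem ne_zero_off {eps : ℝ} {s : Seg} (hs : X eps s.1 < X eps s.2) {u w y : ℂ} (huw : u ≠ w)
    (hu : ori s u = 0) (hw : ori s w = 0) (hy : ori s y = 0) {h : ℝ} (hh : h ≠ 0) :
    ori s (y + ((h : ℝ) : ℂ) * Complex.I * (w - u)) ≠ 0 := by
  intro h0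
  rw [ori_shift, hy, zero_add] at h0
  have h1 : cross (s.2 - s.1) (w - u) = 0 := by
    have := ori_shift s u (w - u)
    rw [hu, add_sub_cancel, hw] at this
    linarith
  set e := s.2 - s.1 with he
  set d := w - u with hd
  have h2 : cross e (((h : ℝ) : ℂ) * Complex.I * d) = h * (e.re * d.re + e.im * d.im) := by
    simp [cross]; ring
  rw [h2] at h0
  have h3 : e.re * d.re + e.im * d.im = 0 := (mul_eq_zero.1 h0).resolve_left hh
  have h4 : e.re * d.im - e.im * d.re = 0 := h1
  have h5 : (e.re ^ 2 + e.im ^ 2) * (d.re ^ 2 + d.im ^ 2) = 0 := by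
    have : (e.re ^ 2 + e.im ^ 2) * (d.re ^ 2 + d.im ^ 2) =
        (e.re * d.re + e.im * d.im) ^ 2 + (e.re * d.im - e.im * d.re) ^ 2 := by ring
    rw [this, h3, h4]; ring
  rcases mul_eq_zero.1 h5 with h6 | h6
  · have e1 : e.re = 0 := by nlinarith [sq_nonneg e.re, sq_nonneg e.im]
    have e2 : e.im = 0 := by nlinarith [sq_nonneg e.re, sq_nonneg e.im]
    have h7 : X eps e = 0 := by simp [X, e1, e2]
    rw [he, X_sub] at h7
    linarith
  · have e1 : d.re = 0 := by nlinarith [sq_nonneg d.re, sq_nonneg d.im]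
    have e2 : d.im = 0 := by nlinarith [sq_nonneg d.re, sq_nonneg d.im]
    have h7 : d = 0 := Complex.ext e1 e2
    exact huw (sub_eq_zero.1 h7).symm

end SideCAux

open SideCAux in
theorem side_const {eps : ℝ} {R : Finset Seg} {x : ℂ} (hG : Gen eps R x) {u w : ℂ}
    (he : IsEdge R u w) {y1 y2 : ℂ} (h1 : y1 ∈ openSegment ℝ u w)
    (h2 : y2 ∈ openSegment ℝ u w)
    (h : ∃ᶠ h : ℝ in 𝓝[>] (0 : ℝ), y1 + ((h : ℝ) : ℂ) * Complex.I * (w - u) ∈ face R x) :
    LeftOf (face R x) u w y2 := by
  classical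
  obtain ⟨huw, _, _, ⟨s, hs, hus, hws⟩, _⟩ := id he
  have hinc := hG.inc s hs
  have hK : segment ℝ y1 y2 ⊆ openSegment ℝ u w :=
    (convex_openSegment u w).segment_subset h1 h2
  have hKc : IsCompact (segment ℝ y1 y2) := isCompact_carrier (y1, y2)
  have hdis : Disjoint (segment ℝ y1 y2) (U (R.erase s)) := by
    rw [Set.disjoint_left]
    intro z hz hzU
    rw [mem_U] at hzU
    obtain ⟨t, ht, hzt⟩ := hzU
    rw [Finset.mem_erase] at ht
    exact (open_edge_free he hs hus hws (hK hz)).2 t ht.2 ht.1 hzt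
  obtain ⟨ρ, hρ, hdis2⟩ := hdis.exists_thickenings hKc (isClosed_U _)
  have hn : 0 ≤ ‖w - u‖ := norm_nonneg _
  set h0 : ℝ := ρ / (‖w - u‖ + 1) with hh0
  have h0pos : 0 < h0 := by positivity
  set Q : Set ℂ := (fun p : ℂ × ℝ => p.1 + ((p.2 : ℝ) : ℂ) * Complex.I * (w - u)) ''
    (segment ℝ y1 y2 ×ˢ Set.Ioo 0 h0) with hQ
  have hQp : IsPreconnected Q := by
    refine ((convex_segment y1 y2).isPreconnected.prod isPreconnected_Ioo).image _ ?_
    fun_prop
  have hQU : Q ⊆ (U R)ᶜ := by
    rintro _ ⟨⟨y, k⟩, ⟨hy, hk1, hk2⟩, rfl⟩ hzU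
    simp only at hy hk1 hk2 hzU
    rw [mem_U] at hzU
    obtain ⟨t, ht, hzt⟩ := hzU
    have hyc := open_edge_free he hs hus hws (hK hy)
    by_cases hts : t = s
    · subst hts
      have o1 := ((mem_carrier_iff hinc u).1 hus).2.2
      have o2 := ((mem_carrier_iff hinc w).1 hws).2.2
      have o3 := ((mem_carrier_iff hinc y).1 hyc.1).2.2
      have o4 := ((mem_carrier_iff hinc _).1 hzt).2.2
      exact ne_zero_off hinc huw o1 o2 o3 hk1.ne' o4
    · have m1 : y + ((k : ℝ) : ℂ) * Complex.I * (w - u) ∈ Metric.thickening ρ (segment ℝ y1 y2) := by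
        rw [Metric.mem_thickening_iff]
        refine ⟨y, hy, ?_⟩
        rw [dist_eq_norm, add_sub_cancel_left, norm_mul, norm_mul, Complex.norm_I, mul_one,
          Complex.norm_real, Real.norm_eq_abs, abs_of_pos hk1]
        have h3 : k * (‖w - u‖ + 1) < ρ := (lt_div_iff₀ (by positivity)).1 hk2
        nlinarith
      have m2 : y + ((k : ℝ) : ℂ) * Complex.I * (w - u) ∈ U (R.erase s) :=
        mem_U.2 ⟨t, Finset.mem_erase.2 ⟨hts, ht⟩, hzt⟩
      exact Set.disjoint_left.1 hdis2 m1 (Metric.self_subset_thickening hρ _ m2)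
  obtain ⟨k, hk1, hk2⟩ := (h.and_eventually (Ioo_mem_nhdsGT h0pos)).exists
  have hz1 : y1 + ((k : ℝ) : ℂ) * Complex.I * (w - u) ∈ Q :=
    ⟨(y1, k), ⟨left_mem_segment ℝ y1 y2, hk2⟩, rfl⟩
  have hsub : Q ⊆ face R x := by
    unfold face at hk1 ⊢
    rw [connectedComponentIn_eq hk1]
    exact hQp.subset_connectedComponentIn hz1 hQU
  filter_upwards [Ioo_mem_nhdsGT h0pos] with k hk
  exact hsub ⟨(y2, k), ⟨right_mem_segment ℝ y1 y2, hk⟩, rfl⟩

theorem isDart_of_left {eps : ℝ} {R : Finset Seg} {x : ℂ} (hG : Gen eps R x) {u w : ℂ}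
    (he : IsEdge R u w) {y : ℂ} (hy : y ∈ openSegment ℝ u w)
    (h : ∃ᶠ h : ℝ in 𝓝[>] (0 : ℝ), y + ((h : ℝ) : ℂ) * Complex.I * (w - u) ∈ face R x) :
    IsDart R (face R x) u w := by
  refine ⟨he, side_const hG he hy ?_ h⟩
  refine ⟨1 / 2, 1 / 2, by norm_num, by norm_num, by norm_num, ?_⟩
  rw [midpoint_eq_smul_add, smul_add, one_div]
  norm_num

end SFA
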