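import Pool.Agent.Lib.SFA.NxEx
import Pool.Agent.Lib.SFA.SideC
import Pool.Agent.Lib.SFA.Chg1

/-!
# SFA.EdgeCh: a run of straight steps between two vertices is a directed edge of the face

`Along k u w`: the side `k` starts at the vertex `u`, on the segment of `k` lies `w` in the direction of the side.
`dart_of_run`, bottom sides (`k.1 = false`): all sides of the run have the same segment `b` (`nx_cases`, or the rule `b1`: the target of a step that is not `Em` is straight; the kind stays `false`), cells `c_0, ..., c_m`, `u ∈ c_0.p`, `v_i ∈ c_i.q`, `v_i ∈ c_{i+1}.p`, `0 < ori b v_i`; the last one has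
`v ∈ c_m.q`, `ori b v = 0` (`Fin'`).  `X u < X v_0 < ... < X v` (`Shape.lt`).  `u, v ∈ carrier b` (spans, `mem_carrier_iff`).  No critical point `y` on `b` with `X u < X y < X v`: if `X y` is in an open slab of `c_i` then `y ∈ hreg c_i` (`ori b y = 0`, `bt`), against `no_crit_in_hreg`; if `X y = X v_i` then `y = v_i` by
`Gen.inj`, but `ori b v_i > 0`.  So `IsEdge u v`.  `isDart_of_left`: take a point `y` of the open edge in the slab of `c_0` (abscissa between `X u` and `X v_0`): for small `h > 0` the point `y + h I (v - u)` is in `reg c_0` (as in Chg1), contained in the face.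
Top sides: mirror image (rotate by 180 degrees: `X v < X u`, `I (v - u)` points downwards).
Induct on the run with the statement: `u ∈ carrier`, all critical points of the segment strictly between `u` and the right wall of the current cell: none, and `X u <` the right wall.
-/

namespace SFA

/-- the side `k` starts at `u`, and `w` is on its segment in the direction of the side -/
def Along (eps : ℝ) (k : Bool × Cell) (u w : ℂ) : Prop :=
  Em k u ∧ (∃ s ∈ sseg k, u ∈ carrier s ∧ w ∈ carrier s) ∧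
    (if k.1 then X eps w < X eps u else X eps u < X eps w)

/-- a straight step -/
def Run (eps : ℝ) (S : Finset Seg) (x : ℂ) (k m : Bool × Cell) : Prop :=
  Relation.ReflTransGen (fun a b => Nx (InFace eps S x) a b ∧ ¬ ∃ v, Em b v) k m

namespace EdgeChAux

open Set Filter Topology

/-- abscissa in the direction of the side -/
def Y (eps : ℝ) (β : Bool) (z : ℂ) : ℝ := if β then -X eps z else X eps z

theorem Y_true (eps : ℝ) (z : ℂ) : Y eps true z = -X eps z := rfl

theorem Y_false (eps : ℝ) (z : ℂ) : Y eps false z = X eps z := rfl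

theorem Y_comb (eps : ℝ) (β : Bool) {a b : ℝ} (hab : a + b = 1) (u v : ℂ) :
    Y eps β (a • u + b • v) = a * Y eps β u + b * Y eps β v := by
  cases β
  · rw [Y_false, Y_false, Y_false, X_comb eps hab]
  · rw [Y_true, Y_true, Y_true, X_comb eps hab]
    ring

theorem Y_eq {eps : ℝ} {β : Bool} {u v : ℂ} (h : Y eps β u = Y eps β v) :
    X eps u = X eps v := by
  cases β
  · exact h
  · rw [Y_true, Y_true] at h
    linarith

theorem exists_y {eps : ℝ} {β : Bool} {u v : ℂ} (huv : Y eps β u < Y eps β v) {m : ℝ}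
    (hm : Y eps β u < m) :
    ∃ y ∈ openSegment ℝ u v, Y eps β u < Y eps β y ∧ Y eps β y < m := by
  have h0 : 0 < Y eps β v - Y eps β u := by linarith
  set l : ℝ := min (1 / 2) ((m - Y eps β u) / (2 * (Y eps β v - Y eps β u))) with hl
  have hl0 : 0 < l := lt_min (by norm_num) (div_pos (by linarith) (by linarith))
  have hl1 : l ≤ 1 / 2 := min_le_left _ _
  have hl2 : l ≤ (m - Y eps β u) / (2 * (Y eps β v - Y eps β u)) := min_le_right _ _
  have hl3 : l * (2 * (Y eps β v - Y eps β u)) ≤ m - Y eps β u := by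
    rwa [le_div_iff₀ (by linarith)] at hl2
  refine ⟨(1 - l) • u + l • v, ⟨1 - l, l, by linarith, hl0, by ring, rfl⟩, ?_, ?_⟩
  · rw [Y_comb eps β (by ring)]
    nlinarith
  · rw [Y_comb eps β (by ring)]
    nlinarith

theorem between {eps : ℝ} {β : Bool} {u v y : ℂ} (huv : Y eps β u < Y eps β v)
    (hy : y ∈ openSegment ℝ u v) : Y eps β u < Y eps β y ∧ Y eps β y < Y eps β v := by
  obtain ⟨a, b, ha, hb, hab, rfl⟩ := hy
  rw [Y_comb eps β hab]
  have ha' : a = 1 - b := by linarith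
  subst ha'
  constructor <;> nlinarith

/-- the facts about one side of a cell -/
theorem cellA {eps : ℝ} {S : Finset Seg} {x : ℂ} (hG : Gen eps S x) {k : Bool × Cell}
    (hk : Valid eps S k.2) {s : Seg} (hs : s ∈ sseg k) :
    s ∈ S ∧ ∃ p ∈ sbeg k, ∃ q ∈ sfin k, Y eps k.1 p < Y eps k.1 q ∧
      (X eps s.1 ≤ X eps p ∧ X eps p ≤ X eps s.2) ∧ (X eps s.1 ≤ X eps q ∧ X eps q ≤ X eps s.2) ∧
      IsCrit S p ∧ IsCrit S q ∧
      ∀ y ∈ carrier s, Y eps k.1 p < Y eps k.1 y → Y eps k.1 y < Y eps k.1 q →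
        inSlab eps k.2 y ∧ (∀ b ∈ k.2.b, b ≠ s → 0 < ori b y) ∧
          (∀ t ∈ k.2.t, t ≠ s → ori t y < 0) ∧ ¬ IsCrit S y := by
  obtain ⟨β, c⟩ := k
  change Valid eps S c at hk
  cases β
  · replace hs : s ∈ c.b := hs
    have hsS := hk.defd.bR s hs
    obtain ⟨⟨p, hp, hp'⟩, ⟨q, hq, hq'⟩⟩ := hk.shape.bs s hs
    have hlt := hk.shape.lt p hp q hq
    refine ⟨hsS, p, hp, q, hq, hlt, ⟨hp', by linarith⟩, ⟨by linarith, hq'⟩,
      hk.defd.pC p hp, hk.defd.qC q hq, ?_⟩
    intro y hy h1 h2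
    change X eps p < X eps y at h1
    change X eps y < X eps q at h2
    have hslab : inSlab eps c y :=
      ⟨fun p' hp' => by rw [Option.mem_unique hp' hp]; exact h1,
        fun q' hq' => by rw [Option.mem_unique hq' hq]; exact h2⟩
    have ht' : ∀ t ∈ c.t, ori t y < 0 := fun t ht => hk.shape.bt s hs t ht y hy hslab
    refine ⟨hslab, fun b hb hne => absurd (Option.mem_unique hb hs) hne, fun t ht _ => ht' t ht, ?_⟩
    intro hcr
    refine no_crit_in_hreg hG hk hcr ⟨hslab, fun b hb => ?_, fun t ht => (ht' t ht).le⟩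
    rw [Option.mem_unique hb hs, ((mem_carrier_iff (hG.inc s hsS) y).1 hy).2.2]
  · replace hs : s ∈ c.t := hs
    have hsS := hk.defd.tR s hs
    obtain ⟨⟨p, hp, hp'⟩, ⟨q, hq, hq'⟩⟩ := hk.shape.ts s hs
    have hlt := hk.shape.lt p hp q hq
    refine ⟨hsS, q, hq, p, hp, neg_lt_neg hlt, ⟨by linarith, hq'⟩, ⟨hp', by linarith⟩,
      hk.defd.qC q hq, hk.defd.pC p hp, ?_⟩
    intro y hy h1 h2
    change -X eps q < -X eps y at h1
    change -X eps y < -X eps p at h2
    have hslab : inSlab eps c y :=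
      ⟨fun p' hp' => by rw [Option.mem_unique hp' hp]; linarith,
        fun q' hq' => by rw [Option.mem_unique hq' hq]; linarith⟩
    have hb' : ∀ b ∈ c.b, 0 < ori b y := fun b hb =>
      shape_tb hk.shape (fun b hb => hG.inc b (hk.defd.bR b hb))
        (fun t ht => hG.inc t (hk.defd.tR t ht)) s hs b hb y hy hslab
    refine ⟨hslab, fun b hb _ => hb' b hb, fun t ht hne => absurd (Option.mem_unique ht hs) hne, ?_⟩
    intro hcr
    refine no_crit_in_hreg hG hk hcr ⟨hslab, fun b hb => (hb' b hb).le, fun t ht => ?_⟩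
    rw [Option.mem_unique ht hs, ((mem_carrier_iff (hG.inc s hsS) y).1 hy).2.2]

/-- a straight step -/
theorem stepB {eps : ℝ} {S : Finset Seg} {x : ℂ} (hG : Gen eps S x) {k k' : Bool × Cell}
    (h : Nx (InFace eps S x) k k') (h' : ¬ ∃ v, Em k' v) :
    k.1 = k'.1 ∧ sseg k = sseg k' ∧ ∃ v, v ∈ sfin k ∧ v ∈ sbeg k' ∧ ∃ s ∈ sseg k, ori s v ≠ 0 := by
  rcases nx_cases hG h with ⟨v, -, hv⟩ | ⟨-, h1⟩
  · exact absurd ⟨v, hv⟩ h'
  · exact h1

theorem runC {eps : ℝ} {S : Finset Seg} {x : ℂ} (hG : Gen eps S x) {k m : Bool × Cell}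
    {u : ℂ} (hk : InFace eps S x k.2) {s : Seg} (hs : s ∈ sseg k) (hu : u ∈ sbeg k)
    (hr : Run eps S x k m) :
    InFace eps S x m.2 ∧ k.1 = m.1 ∧ sseg k = sseg m ∧ ∃ q ∈ sfin m, Y eps k.1 u < Y eps k.1 q ∧
      ∀ y ∈ carrier s, Y eps k.1 u < Y eps k.1 y → Y eps k.1 y < Y eps k.1 q →
        ¬ IsCrit S y := by
  induction hr with
  | refl =>
    obtain ⟨-, p, hp, q, hq, hlt, -, -, -, -, hf⟩ := cellA hG hk.1 hs
    obtain rfl := Option.mem_unique hp hu
    exact ⟨hk, rfl, rfl, q, hq, hlt, fun y hy h1 h2 => (hf y hy h1 h2).2.2.2⟩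
  | @tail m m' _ hst ih =>
    obtain ⟨hm, e1, e2, q, hq, hlt, hf⟩ := ih
    obtain ⟨e3, e4, v, hv1, hv2, s', hs', hne⟩ := stepB hG hst.1 hst.2
    have hm' : InFace eps S x m'.2 := hst.1.snd
    have hsm : s ∈ sseg m := by rw [← e2]; exact hs
    obtain rfl := Option.mem_unique hs' hsm
    obtain rfl := Option.mem_unique hv1 hq
    have hsm' : s' ∈ sseg m' := by rw [← e4]; exact hsm
    obtain ⟨hsS, p', hp', q', hq', hlt', -, -, hpc, -, hf'⟩ := cellA hG hm'.1 hsm'
    obtain rfl := Option.mem_unique hv2 hp'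
    have e5 : k.1 = m'.1 := e1.trans e3
    rw [← e5] at hlt' hf'
    refine ⟨hm', e5, e2.trans e4, q', hq', hlt.trans hlt', ?_⟩
    intro y hy h1 h2 hcr
    rcases lt_trichotomy (Y eps k.1 y) (Y eps k.1 v) with h | h | h
    · exact hf y hy h1 h hcr
    · have : y = v := hG.inj y v hcr hpc (Y_eq h)
      rw [this] at hy
      exact hne ((mem_carrier_iff (hG.inc s' hsS) v).1 hy).2.2
    · exact (hf' y hy h h2).2.2.2 hcr

theorem opt_ev {α β : Type*} {F : Filter β} (o : Option α) {P : α → β → Prop}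
    (h : ∀ t ∈ o, ∀ᶠ y in F, P t y) : ∀ᶠ y in F, ∀ t ∈ o, P t y := by
  rcases o with _ | t
  · exact Filter.Eventually.of_forall fun y t ht => absurd ht (by simp)
  · refine (h t rfl).mono fun y hy t' ht' => ?_
    obtain rfl : t = t' := by simpa using ht'
    exact hy

theorem ori_shift (s : Seg) (y d : ℂ) (h : ℝ) :
    ori s (y + ((h : ℝ) : ℂ) * Complex.I * d) =
      ori s y + h * cross (s.2 - s.1) (Complex.I * d) := by
  simp only [ori, cross, Complex.sub_re, Complex.sub_im, Complex.add_re, Complex.add_im,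
    Complex.mul_re, Complex.mul_im, Complex.I_re, Complex.I_im, Complex.ofReal_re,
    Complex.ofReal_im]
  ring

theorem ev_reg {eps : ℝ} {c : Cell} {y d : ℂ} (hslab : inSlab eps c y)
    (hb : ∀ b ∈ c.b, 0 < ori b y ∨ (ori b y = 0 ∧ 0 < cross (b.2 - b.1) (Complex.I * d)))
    (ht' : ∀ t ∈ c.t, ori t y < 0 ∨ (ori t y = 0 ∧ cross (t.2 - t.1) (Complex.I * d) < 0)) :
    ∀ᶠ h : ℝ in 𝓝[>] (0 : ℝ), y + ((h : ℝ) : ℂ) * Complex.I * d ∈ reg eps c := by
  have hcont : Continuous (fun h : ℝ => y + ((h : ℝ) : ℂ) * Complex.I * d) := by fun_prop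
  have hat : (fun h : ℝ => y + ((h : ℝ) : ℂ) * Complex.I * d) 0 = y := by simp
  have lt_ev : ∀ (g : ℂ → ℝ), Continuous g → ∀ m : ℝ, g y < m →
      ∀ᶠ h : ℝ in 𝓝[>] (0 : ℝ), g (y + ((h : ℝ) : ℂ) * Complex.I * d) < m := by
    intro g hg m hm
    have hgc : Continuous (fun h : ℝ => g (y + ((h : ℝ) : ℂ) * Complex.I * d)) := hg.comp hcont
    have h0 : (fun h : ℝ => g (y + ((h : ℝ) : ℂ) * Complex.I * d)) 0 < m := by
      change g ((fun h : ℝ => y + ((h : ℝ) : ℂ) * Complex.I * d) 0) < m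
      rw [hat]
      exact hm
    exact nhdsWithin_le_nhds ((hgc.tendsto 0).eventually (gt_mem_nhds h0))
  have gt_ev : ∀ (g : ℂ → ℝ), Continuous g → ∀ m : ℝ, m < g y →
      ∀ᶠ h : ℝ in 𝓝[>] (0 : ℝ), m < g (y + ((h : ℝ) : ℂ) * Complex.I * d) := by
    intro g hg m hm
    have hgc : Continuous (fun h : ℝ => g (y + ((h : ℝ) : ℂ) * Complex.I * d)) := hg.comp hcont
    have h0 : m < (fun h : ℝ => g (y + ((h : ℝ) : ℂ) * Complex.I * d)) 0 := by
      change m < g ((fun h : ℝ => y + ((h : ℝ) : ℂ) * Complex.I * d) 0)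
      rw [hat]
      exact hm
    exact nhdsWithin_le_nhds ((hgc.tendsto 0).eventually (lt_mem_nhds h0))
  have e1 : ∀ᶠ h : ℝ in 𝓝[>] (0 : ℝ), ∀ p ∈ c.p,
      X eps p < X eps (y + ((h : ℝ) : ℂ) * Complex.I * d) :=
    opt_ev c.p fun p hp => gt_ev _ (continuous_X eps) _ (hslab.1 p hp)
  have e2 : ∀ᶠ h : ℝ in 𝓝[>] (0 : ℝ), ∀ q ∈ c.q,
      X eps (y + ((h : ℝ) : ℂ) * Complex.I * d) < X eps q :=
    opt_ev c.q fun q hq => lt_ev _ (continuous_X eps) _ (hslab.2 q hq)
  have e3 : ∀ᶠ h : ℝ in 𝓝[>] (0 : ℝ), ∀ t ∈ c.t,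
      ori t (y + ((h : ℝ) : ℂ) * Complex.I * d) < 0 := by
    refine opt_ev c.t fun t ht => ?_
    rcases ht' t ht with h1 | ⟨h1, h2⟩
    · exact lt_ev _ (continuous_ori t) _ h1
    · refine eventually_nhdsWithin_of_forall fun h hh => ?_
      rw [ori_shift, h1, zero_add]
      exact mul_neg_of_pos_of_neg hh h2
  have e4 : ∀ᶠ h : ℝ in 𝓝[>] (0 : ℝ), ∀ b ∈ c.b,
      0 < ori b (y + ((h : ℝ) : ℂ) * Complex.I * d) := by
    refine opt_ev c.b fun b hb' => ?_
    rcases hb b hb' with h1 | ⟨h1, h2⟩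
    · exact gt_ev _ (continuous_ori b) _ h1
    · refine eventually_nhdsWithin_of_forall fun h hh => ?_
      rw [ori_shift, h1, zero_add]
      exact mul_pos hh h2
  filter_upwards [e1, e2, e3, e4] with h h1 h2 h3 h4
  exact ⟨⟨h1, h2⟩, h4, h3⟩

theorem cross_neg' (a u v : ℂ) : cross a (Complex.I * (v - u)) = -cross a (Complex.I * (u - v)) := by
  simp only [cross, Complex.mul_re, Complex.mul_im, Complex.I_re, Complex.I_im, Complex.sub_re,
    Complex.sub_im]
  ring

end EdgeChAux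

open EdgeChAux

theorem dart_of_run {eps : ℝ} {S : Finset Seg} {x : ℂ} (hG : Gen eps S x) {k m : Bool × Cell}
    {u v : ℂ} (hk : InFace eps S x k.2) (hu : Em k u) (hr : Run eps S x k m) (hv : Fin' m v) :
    IsDart S (face S x) u v ∧ Along eps k u v ∧ k.1 = m.1 ∧ sseg k = sseg m := by
  obtain ⟨s, hs, hub, hou⟩ := hu
  obtain ⟨s', hs', hvf, hov⟩ := hv
  obtain ⟨hm, e1, e2, q, hq, hlt, hf⟩ := runC hG hk hs hub hr
  rw [← e2] at hs'
  obtain rfl := Option.mem_unique hs' hs
  obtain rfl := Option.mem_unique hvf hq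
  obtain ⟨hsS, p, hp, q0, hq0, hlt0, hrp, -, hpc, -, hcell⟩ := cellA hG hk.1 hs
  obtain rfl := Option.mem_unique hp hub
  have hsm : s' ∈ sseg m := by rw [← e2]; exact hs
  obtain ⟨-, -, -, q1, hq1, -, -, hrq, -, hqc, -⟩ := cellA hG hm.1 hsm
  obtain rfl := Option.mem_unique hq1 hvf
  have hinc := hG.inc s' hsS
  have huc : p ∈ carrier s' := (mem_carrier_iff hinc p).2 ⟨hrp.1, hrp.2, hou⟩
  have hvc : q1 ∈ carrier s' := (mem_carrier_iff hinc q1).2 ⟨hrq.1, hrq.2, hov⟩
  have hedge : IsEdge S p q1 := by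
    refine ⟨?_, hpc, hqc, ⟨s', hsS, huc, hvc⟩, ?_⟩
    · rintro rfl
      exact lt_irrefl _ hlt
    · intro y hy
      have hyc : y ∈ carrier s' := (convex_segment s'.1 s'.2).openSegment_subset huc hvc hy
      obtain ⟨h1, h2⟩ := between hlt hy
      exact hf y hyc h1 h2
  refine ⟨?_, ⟨⟨s', hs, hub, hou⟩, ⟨s', hs, huc, hvc⟩, ?_⟩, e1, e2⟩
  · obtain ⟨y, hy, h1, h2⟩ := exists_y hlt hlt0
    have hyc : y ∈ carrier s' := (convex_segment s'.1 s'.2).openSegment_subset huc hvc hy
    obtain ⟨hslab, hb, ht', -⟩ := hcell y hyc h1 h2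
    have hy0 : ori s' y = 0 := ((mem_carrier_iff hinc y).1 hyc).2.2
    refine isDart_of_left hG hedge hy (Filter.Eventually.frequently ?_)
    have hev : ∀ᶠ h : ℝ in nhdsWithin (0 : ℝ) (Set.Ioi 0),
        y + ((h : ℝ) : ℂ) * Complex.I * (q1 - p) ∈ reg eps k.2 := by
      obtain ⟨β, c⟩ := k
      cases β
      · replace hs : s' ∈ c.b := hs
        have hcr := Chg1Aux.dpos hinc huc hvc hlt
        refine ev_reg hslab (fun b hb' => ?_) (fun t ht => ?_)
        · right
          rw [Option.mem_unique hb' hs]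
          exact ⟨hy0, hcr⟩
        · left
          exact hk.1.shape.bt s' hs t ht y hyc hslab
      · replace hs : s' ∈ c.t := hs
        have hlt' : X eps q1 < X eps p := by
          have : -X eps p < -X eps q1 := hlt
          linarith
        have hcr := Chg1Aux.dpos hinc hvc huc hlt'
        refine ev_reg hslab (fun b hb' => ?_) (fun t ht => ?_)
        · left
          exact shape_tb hk.1.shape (fun b hb => hG.inc b (hk.1.defd.bR b hb))
            (fun t ht => hG.inc t (hk.1.defd.tR t ht)) s' hs b hb' y hyc hslab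
        · right
          rw [Option.mem_unique ht hs, cross_neg']
          exact ⟨hy0, neg_neg_of_pos hcr⟩
    exact hev.mono (fun h hh => hk.2 hh)
  · obtain ⟨β, c⟩ := k
    cases β
    · exact hlt
    · have : -X eps p < -X eps q1 := hlt
      show X eps q1 < X eps p
      linarith

/-- There is no infinite run: the abscissas are strictly monotone.  (`∃ v ∈ sfin k, ∃ v' ∈ sfin m`; for `k ≠ m` connected by a run the abscissa of the final wall is strictly larger (bottom) or smaller (top).) -/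
theorem no_cyclic_run {eps : ℝ} {S : Finset Seg} {x : ℂ} (hG : Gen eps S x) {k : Bool × Cell}
    (h : Relation.TransGen (fun a b => Nx (InFace eps S x) a b ∧ ¬ ∃ v, Em b v) k k) :
    False := by
  have step : ∀ a b : Bool × Cell, (Nx (InFace eps S x) a b ∧ ¬ ∃ v, Em b v) →
      a.1 = b.1 ∧ ∃ q ∈ sfin a, ∃ q' ∈ sfin b, Y eps a.1 q < Y eps a.1 q' := by
    intro a b hab
    obtain ⟨e1, e2, v, hv1, hv2, s, hs, -⟩ := stepB hG hab.1 hab.2
    rw [e2] at hs
    obtain ⟨-, p, hp, q', hq', hlt, -⟩ := cellA hG hab.1.snd.1 hs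
    obtain rfl := Option.mem_unique hp hv2
    rw [← e1] at hlt
    exact ⟨e1, p, hv1, q', hq', hlt⟩
  have key : ∀ m : Bool × Cell,
      Relation.TransGen (fun a b => Nx (InFace eps S x) a b ∧ ¬ ∃ v, Em b v) k m →
      k.1 = m.1 ∧ ∃ q ∈ sfin k, ∃ q' ∈ sfin m, Y eps k.1 q < Y eps k.1 q' := by
    intro m hm
    induction hm with
    | single hab => exact step _ _ hab
    | @tail a b _ hab ih =>
      obtain ⟨e1, q, hq, q', hq', hlt⟩ := ih
      obtain ⟨e2, q1, hq1, q2, hq2, hlt2⟩ := step _ _ hab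
      obtain rfl := Option.mem_unique hq1 hq'
      rw [← e1] at hlt2
      exact ⟨e1.trans e2, q, hq, q2, hq2, hlt.trans hlt2⟩
  obtain ⟨-, q, hq, q', hq', hlt⟩ := key k h
  obtain rfl := Option.mem_unique hq hq'
  exact lt_irrefl _ hlt

end SFA
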