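import Pool.Agent.Lib.SFA.Basic

/-!
# SFA.Eps: the shear exists

Let `P` be the finite set of critical points together with `x`.  For `u, v in P` with
`lexlt u v` the inequality `X eps u < X eps v` holds for all sufficiently small `eps > 0`: if
`u.re < v.re` by continuity of `eps ↦ X eps u` at `0`; if `u.re = v.re`, `u.im < v.im`, for all
`eps > 0`.  Finitely many pairs, so one `eps > 0` works for all (`Filter.eventually_all_finite`
in `nhdsWithin 0 (Ioi 0)`, which is `NeBot`).  Then for `u <> v` in `P` one of `lexlt u v`,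
`lexlt v u` holds, so the abscissas are different; `LexOK` follows (if `X u < X v` then `u <> v` and
not `lexlt v u`, so `lexlt u v`).  `inc`: `lexlt s.1 s.2`.  The finiteness of the set of critical
points: endpoints and one point for each pair (see the proof of `finite_crit` in Basic; here
`Gen` is not available, so repeat the argument with the hypothesis `hone`).
-/

namespace SFA

open Set Filter Topology

theorem exists_eps {S : Finset Seg} {x : ℂ} (hlex : ∀ s ∈ S, lexlt s.1 s.2)
    (hone : ∀ s ∈ S, ∀ t ∈ S, s ≠ t → (carrier s ∩ carrier t).Subsingleton)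
    (hx : x ∉ U S) : ∃ eps : ℝ, 0 < eps ∧ Gen eps S x ∧ LexOK eps S x := by
  classical
  have hfin : {v : ℂ | IsCrit S v}.Finite := by
    have h1 : {v : ℂ | IsCrit S v} ⊆
        (⋃ s ∈ S, ({s.1, s.2} : Set ℂ)) ∪
        ⋃ s ∈ S, ⋃ t ∈ S, {v : ℂ | s ≠ t ∧ v ∈ carrier s ∧ v ∈ carrier t} := by
      intro v hv
      rcases hv with ⟨s, hs, h1⟩ | ⟨s, hs, t, ht', h1, h2, h3⟩
      · left
        simp only [Set.mem_iUnion]
        exact ⟨s, hs, by simpa using h1⟩
      · right
        simp only [Set.mem_iUnion]
        exact ⟨s, hs, t, ht', h1, h2, h3⟩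
    refine Set.Finite.subset (Set.Finite.union ?_ ?_) h1
    · exact S.finite_toSet.biUnion (fun s _ => Set.toFinite _)
    · refine S.finite_toSet.biUnion (fun s hs => S.finite_toSet.biUnion (fun t ht' => ?_))
      by_cases hst : s = t
      · have : {v : ℂ | s ≠ t ∧ v ∈ carrier s ∧ v ∈ carrier t} = ∅ := by
          ext v; simp [hst]
        rw [this]; exact Set.finite_empty
      · refine Set.Finite.subset
          (Set.Subsingleton.finite (hone s (by simpa using hs) t (by simpa using ht') hst)) ?_
        rintro v ⟨_, h2, h3⟩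
        exact ⟨h2, h3⟩
  have hfin2 : {v : ℂ | IsCrit S v ∨ v = x}.Finite :=
    hfin.union (Set.finite_singleton x)
  have hev : ∀ u v : ℂ, lexlt u v → ∀ᶠ eps in 𝓝[>] (0 : ℝ), X eps u < X eps v := by
    intro u v huv
    rcases huv with h | ⟨h1, h2⟩
    · have hc : Continuous (fun eps : ℝ => X eps v - X eps u) := by
        unfold X; fun_prop
      have h0 : (0 : ℝ) < X 0 v - X 0 u := by simp [X]; linarith
      have h3 := (hc.tendsto 0).eventually (lt_mem_nhds h0)
      have h4 : ∀ᶠ eps in 𝓝[>] (0 : ℝ), 0 < X eps v - X eps u := nhdsWithin_le_nhds h3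
      exact h4.mono (fun eps h => by linarith)
    · filter_upwards [self_mem_nhdsWithin] with eps he
      unfold X
      rw [h1]
      have := mul_lt_mul_of_pos_left h2 (show (0 : ℝ) < eps from he)
      linarith
  have hall : ∀ᶠ eps in 𝓝[>] (0 : ℝ), ∀ u ∈ {v : ℂ | IsCrit S v ∨ v = x},
      ∀ v ∈ {v : ℂ | IsCrit S v ∨ v = x}, lexlt u v → X eps u < X eps v := by
    rw [Filter.eventually_all_finite hfin2]
    intro u _
    rw [Filter.eventually_all_finite hfin2]
    intro v _
    by_cases h : lexlt u v
    · exact (hev u v h).mono (fun _ h' _ => h')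
    · exact Eventually.of_forall (fun _ h' => absurd h' h)
  obtain ⟨eps, he, hpos⟩ := (hall.and self_mem_nhdsWithin).exists
  have tri : ∀ u v : ℂ, u = v ∨ lexlt u v ∨ lexlt v u := by
    intro u v
    rcases lt_trichotomy u.re v.re with h | h | h
    · exact Or.inr (Or.inl (Or.inl h))
    · rcases lt_trichotomy u.im v.im with h' | h' | h'
      · exact Or.inr (Or.inl (Or.inr ⟨h, h'⟩))
      · exact Or.inl (Complex.ext h h')
      · exact Or.inr (Or.inr (Or.inr ⟨h.symm, h'⟩))
    · exact Or.inr (Or.inr (Or.inl h))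
  have key : ∀ u v : ℂ, (IsCrit S u ∨ u = x) → (IsCrit S v ∨ v = x) →
      X eps u = X eps v → u = v := by
    intro u v hu hv h
    rcases tri u v with h1 | h1 | h1
    · exact h1
    · exact absurd h (he u hu v hv h1).ne
    · exact absurd h (he v hv u hu h1).ne'
  refine ⟨eps, hpos, ⟨?_, hone, ?_, hx, ?_⟩, ?_⟩
  · intro s hs
    exact he s.1 (Or.inl (IsCrit.left hs)) s.2 (Or.inl (IsCrit.right hs)) (hlex s hs)
  · intro u v hu hv h
    exact key u v (Or.inl hu) (Or.inl hv) h
  · intro u hu h
    have := key u x (Or.inl hu) (Or.inr rfl) h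
    exact hx (this ▸ hu.mem_U)
  · intro u v hu hv
    refine ⟨fun h => he u hu v hv h, fun h => ?_⟩
    rcases tri u v with h1 | h1 | h1
    · rw [h1] at h
      exact absurd h (lt_irrefl _)
    · exact h1
    · exact absurd (he v hv u hu h1) (lt_asymm h)

end SFA
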