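import Pool.Agent.Lib.SFA.Vis

/-!
# SFA.Extr: existence of the segment directly below and directly above

`A = {s in R : X s.1 <= X z <= X s.2, 0 < ori s z}` (finite).  If `A` is empty take `none`.
Otherwise let `b` maximise `ht eps s (X z)` over `A` (`Finset.exists_max_image`).  Take `some b`.
* `X b.1 < X z < X b.2`: suppose `X b.1 = X z`.  `v = b.1` is critical and visible from `z`: let
  `w` be on the open segment from `z` to `v` and on `carrier s`, `s in R`.  Then `X w = X z`,
  `v.im < w.im < z.im` (`ht b (X z) = v.im` since `v in carrier b`, and it is `< z.im` by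
  `ori_pos_iff`), so `s` spans `X z` with `ht s (X z) = w.im < z.im`, so `s in A` with a larger
  height: contradiction.  Same for `b.2`.
* `max`: let `s` be in `A`, `s <> b`.  `ht s (X z) <= ht b (X z)`.  If equal, the point
  `v = pt eps (X z) (ht b (X z))` is on both carriers, so it is critical (`IsCrit.inter`), and it
  is visible from `z` by the same argument: contradiction.
Above: the same with the minimum of the heights.
Both theorems have the hypothesis that no critical point is visible from `z`.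
-/

namespace SFA

open Set Filter Topology

namespace ExtrAux

/-- points of the open vertical segment from `z` down or up to `v` -/
theorem open_vert {eps : ℝ} {z v w : ℂ} (hX : X eps v = X eps z) (hw : w ∈ openSegment ℝ z v) :
    X eps w = X eps z ∧ ∃ a c : ℝ, 0 < a ∧ 0 < c ∧ a + c = 1 ∧ w.im = a * z.im + c * v.im := by
  obtain ⟨a, c, ha, hc, hac, rfl⟩ := hw
  refine ⟨?_, a, c, ha, hc, hac, im_comb _ _⟩
  rw [X_comb eps hac, hX, ← add_mul, hac, one_mul]

/-- the foot of `z` on a highest segment below `z` is visible -/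
theorem vis_below {eps : ℝ} {R : Finset Seg} {x : ℂ} (hG : Gen eps R x) {z : ℂ} {b : Seg}
    (hb : ht eps b (X eps z) < z.im)
    (hmax : ∀ s ∈ R, X eps s.1 ≤ X eps z → X eps z ≤ X eps s.2 → 0 < ori s z →
      ht eps s (X eps z) ≤ ht eps b (X eps z)) :
    Vis eps R z (pt eps (X eps z) (ht eps b (X eps z))) := by
  refine ⟨X_pt _ _ _, ?_⟩
  rw [Set.disjoint_left]
  intro w hw hwU
  obtain ⟨hXw, a, c, ha, hc, hac, him⟩ := open_vert (X_pt _ _ _) hw
  rw [pt_im] at him
  obtain ⟨s, hs, hws⟩ := mem_U.1 hwU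
  rw [mem_carrier_iff' (hG.inc s hs), hXw] at hws
  obtain ⟨h1, h2, h3⟩ := hws
  have hc' : c = 1 - a := by linarith
  have h4 : ht eps b (X eps z) < w.im := by
    have := mul_pos ha (sub_pos.2 hb)
    rw [him, hc']; nlinarith
  have h5 : w.im < z.im := by
    have := mul_pos hc (sub_pos.2 hb)
    have ha' : a = 1 - c := by linarith
    rw [him, ha']; nlinarith
  have h6 : 0 < ori s z := by rw [ori_pos_iff (hG.inc s hs), ← h3]; exact h5
  have h7 := hmax s hs h1 h2 h6
  rw [← h3] at h7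
  linarith

/-- the foot of `z` on a lowest segment above `z` is visible -/
theorem vis_above {eps : ℝ} {R : Finset Seg} {x : ℂ} (hG : Gen eps R x) {z : ℂ} {b : Seg}
    (hb : z.im < ht eps b (X eps z))
    (hmin : ∀ s ∈ R, X eps s.1 ≤ X eps z → X eps z ≤ X eps s.2 → ori s z < 0 →
      ht eps b (X eps z) ≤ ht eps s (X eps z)) :
    Vis eps R z (pt eps (X eps z) (ht eps b (X eps z))) := by
  refine ⟨X_pt _ _ _, ?_⟩
  rw [Set.disjoint_left]
  intro w hw hwU
  obtain ⟨hXw, a, c, ha, hc, hac, him⟩ := open_vert (X_pt _ _ _) hw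
  rw [pt_im] at him
  obtain ⟨s, hs, hws⟩ := mem_U.1 hwU
  rw [mem_carrier_iff' (hG.inc s hs), hXw] at hws
  obtain ⟨h1, h2, h3⟩ := hws
  have hc' : c = 1 - a := by linarith
  have h4 : w.im < ht eps b (X eps z) := by
    have := mul_pos ha (sub_pos.2 hb)
    rw [him, hc']; nlinarith
  have h5 : z.im < w.im := by
    have := mul_pos hc (sub_pos.2 hb)
    have ha' : a = 1 - c := by linarith
    rw [him, ha']; nlinarith
  have h6 : ori s z < 0 := by rw [ori_neg_iff (hG.inc s hs), ← h3]; exact h5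
  have h7 := hmin s hs h1 h2 h6
  rw [← h3] at h7
  linarith

/-- if the foot of `z` on `b` is not critical, `z` is strictly between the endpoints of `b` -/
theorem strict {eps : ℝ} {R : Finset Seg} {x : ℂ} (hG : Gen eps R x) {z : ℂ} {b : Seg}
    (hbR : b ∈ R) (h1 : X eps b.1 ≤ X eps z) (h2 : X eps z ≤ X eps b.2)
    (hnc : ¬ IsCrit R (pt eps (X eps z) (ht eps b (X eps z)))) :
    X eps b.1 < X eps z ∧ X eps z < X eps b.2 := by
  constructor
  · refine lt_of_le_of_ne h1 (fun he => hnc ?_)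
    have h3 := ((mem_carrier_iff' (hG.inc b hbR) b.1).1 (left_mem_carrier b)).2.2
    rw [← he, ← h3, pt_eta]
    exact IsCrit.left hbR
  · refine lt_of_le_of_ne h2 (fun he => hnc ?_)
    have h3 := ((mem_carrier_iff' (hG.inc b hbR) b.2).1 (right_mem_carrier b)).2.2
    rw [he, ← h3, pt_eta]
    exact IsCrit.right hbR

/-- if the foot of `z` on `b` is not critical, no other segment passes through it -/
theorem ht_ne {eps : ℝ} {R : Finset Seg} {x : ℂ} (hG : Gen eps R x) {z : ℂ} {b s : Seg}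
    (hbR : b ∈ R) (h1 : X eps b.1 ≤ X eps z) (h2 : X eps z ≤ X eps b.2)
    (hs : s ∈ R) (hsb : s ≠ b) (h3 : X eps s.1 ≤ X eps z) (h4 : X eps z ≤ X eps s.2)
    (hnc : ¬ IsCrit R (pt eps (X eps z) (ht eps b (X eps z)))) :
    ht eps s (X eps z) ≠ ht eps b (X eps z) := by
  intro he
  apply hnc
  refine IsCrit.inter hs hbR hsb ?_ (pt_mem_carrier (hG.inc b hbR) h1 h2)
  rw [← he]
  exact pt_mem_carrier (hG.inc s hs) h3 h4

end ExtrAux

open ExtrAux in
theorem exists_below {eps : ℝ} {R : Finset Seg} {x : ℂ} (hG : Gen eps R x) {z : ℂ}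
    (hz : z ∉ U R) (hv : ∀ v : ℂ, IsCrit R v → ¬ Vis eps R z v) :
    ∃ o, IsBelow eps R z o := by
  classical
  set A : Finset Seg := R.filter (fun s => X eps s.1 ≤ X eps z ∧ X eps z ≤ X eps s.2 ∧ 0 < ori s z)
    with hA
  by_cases hne : A.Nonempty
  · obtain ⟨b, hbA, hbmax⟩ := Finset.exists_max_image A (fun s => ht eps s (X eps z)) hne
    rw [hA, Finset.mem_filter] at hbA
    obtain ⟨hbR, h1, h2, h3⟩ := hbA
    have hmax : ∀ s ∈ R, X eps s.1 ≤ X eps z → X eps z ≤ X eps s.2 → 0 < ori s z →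
        ht eps s (X eps z) ≤ ht eps b (X eps z) := by
      intro s hs h4 h5 h6
      exact hbmax s (by rw [hA, Finset.mem_filter]; exact ⟨hs, h4, h5, h6⟩)
    have hvis := vis_below hG ((ori_pos_iff (hG.inc b hbR) z).1 h3) hmax
    have hnc : ¬ IsCrit R (pt eps (X eps z) (ht eps b (X eps z))) := fun hc => hv _ hc hvis
    obtain ⟨h7, h8⟩ := strict hG hbR h1 h2 hnc
    refine ⟨some b, ⟨?_, ?_⟩⟩
    · intro b' hb'
      rw [Option.mem_some_iff] at hb'
      subst hb'
      exact ⟨hbR, h7, h8, h3⟩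
    · intro s hs hsb h4 h5 h6
      have hsb' : s ≠ b := by
        rintro rfl
        exact hsb rfl
      exact ⟨b, rfl, lt_of_le_of_ne (hmax s hs h4 h5 h6) (ht_ne hG hbR h1 h2 hs hsb' h4 h5 hnc)⟩
  · refine ⟨none, ⟨?_, ?_⟩⟩
    · intro b hb
      exact absurd hb (by simp)
    · intro s hs _ h4 h5 h6
      exact absurd ⟨s, by rw [hA, Finset.mem_filter]; exact ⟨hs, h4, h5, h6⟩⟩ hne

open ExtrAux in
theorem exists_above {eps : ℝ} {R : Finset Seg} {x : ℂ} (hG : Gen eps R x) {z : ℂ}
    (hz : z ∉ U R) (hv : ∀ v : ℂ, IsCrit R v → ¬ Vis eps R z v) :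
    ∃ o, IsAbove eps R z o := by
  classical
  set A : Finset Seg := R.filter (fun s => X eps s.1 ≤ X eps z ∧ X eps z ≤ X eps s.2 ∧ ori s z < 0)
    with hA
  by_cases hne : A.Nonempty
  · obtain ⟨b, hbA, hbmin⟩ := Finset.exists_min_image A (fun s => ht eps s (X eps z)) hne
    rw [hA, Finset.mem_filter] at hbA
    obtain ⟨hbR, h1, h2, h3⟩ := hbA
    have hmin : ∀ s ∈ R, X eps s.1 ≤ X eps z → X eps z ≤ X eps s.2 → ori s z < 0 →
        ht eps b (X eps z) ≤ ht eps s (X eps z) := by
      intro s hs h4 h5 h6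
      exact hbmin s (by rw [hA, Finset.mem_filter]; exact ⟨hs, h4, h5, h6⟩)
    have hvis := vis_above hG ((ori_neg_iff (hG.inc b hbR) z).1 h3) hmin
    have hnc : ¬ IsCrit R (pt eps (X eps z) (ht eps b (X eps z))) := fun hc => hv _ hc hvis
    obtain ⟨h7, h8⟩ := strict hG hbR h1 h2 hnc
    refine ⟨some b, ⟨?_, ?_⟩⟩
    · intro b' hb'
      rw [Option.mem_some_iff] at hb'
      subst hb'
      exact ⟨hbR, h7, h8, h3⟩
    · intro s hs hsb h4 h5 h6
      have hsb' : s ≠ b := by
        rintro rfl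
        exact hsb rfl
      exact ⟨b, rfl, lt_of_le_of_ne (hmin s hs h4 h5 h6)
        (ht_ne hG hbR h1 h2 hs hsb' h4 h5 hnc).symm⟩
  · refine ⟨none, ⟨?_, ?_⟩⟩
    · intro b hb
      exact absurd hb (by simp)
    · intro s hs _ h4 h5 h6
      exact absurd ⟨s, by rw [hA, Finset.mem_filter]; exact ⟨hs, h4, h5, h6⟩⟩ hne

end SFA
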