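import Pool.Agent.Lib.SFA.WallTF

/-!
# SFA.FAdj: adjacent pieces

`adjB d1 d2`: `v ∈ d1.q`, `v ∈ d2.p`, same top not through `v` (or same bottom).  `d_i = infC c_i c_i'`, bottom and top of `d_i` are those of `c_i'`.
`adj_false`: the right wall of `d1` is artificial: `X v < X c1'.q`, `X c1'.p < X v`.  Same top `o`: choose an abscissa `a > X v` in the open slabs of `c1'` and `c2'` (`X c2'.p ≤ X d2.p = X v < X c2'.q`: `d2.p ≤`, take a point of `reg d2`).
A point `(a, y)` with `y` below `ht o a` (if `o = none`: `y` large) and above the bottoms of both (possible: `bt` over `a`) is in `reg c1' ∩ reg c2'`: `c1' = c2'`.  Then `trueL d2 = false`: else `d2.p = c2'.p = c1'.p` (`p_eq`), but `X c1'.p < X v`.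
Same bottom: symmetric.
`adj_true`: `d1.q = c1'.q = some v`, `v` critical for `R'`, in the band of `c1'`.  Same top `o = c1'.t = c2'.t`: `ori t v ≤ 0`, `≠ 0`, so `< 0`.  Claim `v ∈ c2'.p`.  Otherwise `d2.p = maxP c2.p c2'.p = some v` comes from `c2.p` and `X c2'.p < X v` (or `c2'.p = none`); `v` is in the open slab
of `c2'`.  If `v` is above `c2'.b` (weakly) then `v ∈ hreg c2'`, against `no_crit_in_hreg`.  Otherwise `b2 ∈ c2'.b` with `v.im < ht b2 (X v) < ht o (X v)` (`bt`): the point `y` of `b2` over `X v`; `X b2.1 ≤ X c2'.p < X v`, so `b2` extends to the left of `y`, and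
its points slightly to the left of `y` are strictly between bottom and top of `c1'` (`c1'.b` is `≤ v.im < y.im` over `X v`; continuity) and in the slab of `c1'`: in `reg c1' ∩ U R'`, against `reg_disj_U`.  So `v ∈ c2'.p`, `adj c1' c2'` by the first alternative, and `d2.p = c2'.p`: `trueL d2` (`p_eq`).
-/

namespace SFA

open Set Filter Topology

namespace FAdjAux

theorem mem_unique {v q : ℂ} {o : Option ℂ} (h : v ∈ o) (h' : q ∈ o) : q = v := by
  rw [Option.mem_def] at h h'
  rw [h] at h'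
  exact (Option.some.inj h').symm

theorem push_left {eps : ℝ} {R : Finset Seg} {c : Cell} (hc : Valid eps R c)
    (hinc : ∀ s ∈ R, X eps s.1 < X eps s.2) {t : Seg} (htR : t ∈ R) {v : ℂ} (hv : v ∈ c.q)
    (h1 : X eps t.1 < X eps v) (h2 : X eps v ≤ X eps t.2)
    (hb : ∀ b ∈ c.b, ht eps b (X eps v) < ht eps t (X eps v))
    (ht' : ∀ t' ∈ c.t, ht eps t (X eps v) < ht eps t' (X eps v)) : False := by
  have hcont : Continuous (fun xi : ℝ => pt eps xi (ht eps t xi)) :=
    (continuous_pt eps).comp (continuous_id.prodMk (continuous_ht eps t))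
  have hF : 𝓝[<] (X eps v) ≤ 𝓝 (X eps v) := nhdsWithin_le_nhds
  have e1 : ∀ᶠ xi in 𝓝[<] (X eps v), ∀ b ∈ c.b, 0 < ori b (pt eps xi (ht eps t xi)) := by
    rcases hcb : c.b with _ | b
    · exact Eventually.of_forall (fun xi b hb => by simp at hb)
    · have hbb : b ∈ c.b := by rw [hcb]; rfl
      have hR := hinc b (hc.defd.bR b hbb)
      have h0 : 0 < ori b (pt eps (X eps v) (ht eps t (X eps v))) := by
        rw [ori_pos_iff hR]
        simpa using hb b hbb
      have := ((continuous_ori b).comp hcont).continuousAt.eventually (lt_mem_nhds h0)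
      filter_upwards [hF this] with xi hxi b' hb'
      obtain rfl : b = b' := by simpa using hb'
      exact hxi
  have e2 : ∀ᶠ xi in 𝓝[<] (X eps v), ∀ t' ∈ c.t, ori t' (pt eps xi (ht eps t xi)) < 0 := by
    rcases hct : c.t with _ | b
    · exact Eventually.of_forall (fun xi b hb => by simp at hb)
    · have hbb : b ∈ c.t := by rw [hct]; rfl
      have hR := hinc b (hc.defd.tR b hbb)
      have h0 : ori b (pt eps (X eps v) (ht eps t (X eps v))) < 0 := by
        rw [ori_neg_iff hR]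
        simpa using ht' b hbb
      have := ((continuous_ori b).comp hcont).continuousAt.eventually (gt_mem_nhds h0)
      filter_upwards [hF this] with xi hxi b' hb'
      obtain rfl : b = b' := by simpa using hb'
      exact hxi
  have e3 : ∀ᶠ xi in 𝓝[<] (X eps v), ∀ p ∈ c.p, X eps p < xi := by
    rcases hq : c.p with _ | q
    · exact Eventually.of_forall (fun xi b hb => by simp at hb)
    · have hqq : q ∈ c.p := by rw [hq]; rfl
      filter_upwards [hF (lt_mem_nhds (hc.shape.lt q hqq v hv))] with xi h3 q' hq'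
      obtain rfl : q = q' := by simpa using hq'
      exact h3
  have e4 : ∀ᶠ xi in 𝓝[<] (X eps v), xi < X eps v := self_mem_nhdsWithin
  have e5 : ∀ᶠ xi in 𝓝[<] (X eps v), X eps t.1 < xi := hF (lt_mem_nhds h1)
  obtain ⟨xi, a1, a2, a3, a4, a5⟩ := (e1.and (e2.and (e3.and (e4.and e5)))).exists
  refine hc.emp t htR ⟨fun h => lt_irrefl _ (hb t h), fun h => lt_irrefl _ (ht' t h),
    pt eps xi (ht eps t xi), pt_mem_carrier (hinc t htR) a5.le (a4.le.trans h2), ⟨?_, ?_⟩, ?_, ?_⟩
  · intro p hp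
    rw [X_pt]
    exact a3 p hp
  · intro q hq
    rw [X_pt, mem_unique hv hq]
    exact a4
  · exact fun b hb' => (a1 b hb').le
  · exact fun t' ht'' => (a2 t' ht'').le

/-- an abscissa slightly to the right of `a` -/
theorem exists_right {eps : ℝ} {a : ℝ} {o o' : Option ℂ} (h : ∀ q ∈ o, a < X eps q)
    (h' : ∀ q ∈ o', a < X eps q) : ∃ b, a < b ∧ (∀ q ∈ o, b < X eps q) ∧
      ∀ q ∈ o', b < X eps q := by
  have hF : 𝓝[>] a ≤ 𝓝 a := nhdsWithin_le_nhds
  have key : ∀ o : Option ℂ, (∀ q ∈ o, a < X eps q) →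
      ∀ᶠ xi in 𝓝[>] a, ∀ q ∈ o, xi < X eps q := by
    intro o ho
    rcases o with _ | q
    · exact Eventually.of_forall (fun xi b hb => by simp at hb)
    · filter_upwards [hF (gt_mem_nhds (ho q rfl))] with xi h3 q' hq'
      obtain rfl : q = q' := by simpa using hq'
      exact h3
  have e0 : ∀ᶠ xi in 𝓝[>] a, a < xi := self_mem_nhdsWithin
  obtain ⟨b, h1, h2, h3⟩ := (e0.and ((key o h).and (key o' h'))).exists
  exact ⟨b, h1, h2, h3⟩

theorem maxP_spec {eps : ℝ} {u w : Option ℂ} {v : ℂ} (h : v ∈ maxP eps u w) :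
    (∀ p ∈ w, X eps p ≤ X eps v) ∧ (v ∉ w → v ∈ u) := by
  unfold maxP at h
  rcases u with _ | a
  · rcases w with _ | b
    · simp at h
    · have h' : v ∈ some b := h
      obtain rfl : b = v := by simpa using h'
      refine ⟨fun p hp => ?_, fun hn => absurd rfl hn⟩
      obtain rfl : b = p := by simpa using hp
      exact le_rfl
  · rcases w with _ | b
    · have h' : v ∈ some a := h
      exact ⟨fun p hp => by simp at hp, fun _ => h'⟩
    · have h' : v ∈ (if X eps a < X eps b then some b else some a) := h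
      split_ifs at h' with hc
      · obtain rfl : b = v := by simpa using h'
        refine ⟨fun p hp => ?_, fun hn => absurd rfl hn⟩
        obtain rfl : b = p := by simpa using hp
        exact le_rfl
      · obtain rfl : a = v := by simpa using h'
        refine ⟨fun p hp => ?_, fun _ => rfl⟩
        obtain rfl : b = p := by simpa using hp
        exact not_lt.1 hc

theorem shared {eps : ℝ} {R : Finset Seg} {x : ℂ} (hG : Gen eps R x) {c c' : Cell}
    (hc : Valid eps R c) (hc' : Valid eps R c') (h : c.t = c'.t ∨ c.b = c'.b) {a : ℝ}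
    (hp : ∀ p ∈ c.p, X eps p < a) (hq : ∀ q ∈ c.q, a < X eps q)
    (hp' : ∀ p ∈ c'.p, X eps p < a) (hq' : ∀ q ∈ c'.q, a < X eps q) : c = c' := by
  obtain ⟨z, hz, hza⟩ := exists_reg_at hc.shape.shape0 (fun b hb => hG.inc b (hc.defd.bR b hb))
    (fun t ht' => hG.inc t (hc.defd.tR t ht')) hp hq
  obtain ⟨w, hw, hwa⟩ := exists_reg_at hc'.shape.shape0 (fun b hb => hG.inc b (hc'.defd.bR b hb))
    (fun t ht' => hG.inc t (hc'.defd.tR t ht')) hp' hq'
  have slab : ∀ u : ℂ, X eps u = a → inSlab eps c u := by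
    intro u hu
    exact ⟨fun p h1 => by rw [hu]; exact hp p h1, fun q h1 => by rw [hu]; exact hq q h1⟩
  have slab' : ∀ u : ℂ, X eps u = a → inSlab eps c' u := by
    intro u hu
    exact ⟨fun p h1 => by rw [hu]; exact hp' p h1, fun q h1 => by rw [hu]; exact hq' q h1⟩
  have up : ∀ {b : Seg}, b ∈ R → ∀ {u u' : ℂ}, X eps u = a → X eps u' = a → u.im ≤ u'.im →
      0 < ori b u → 0 < ori b u' := by
    intro b hb u u' h1 h2 h3 h4
    rw [ori_pos_iff (hG.inc b hb), h1] at h4
    rw [ori_pos_iff (hG.inc b hb), h2]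
    exact lt_of_lt_of_le h4 h3
  have dn : ∀ {b : Seg}, b ∈ R → ∀ {u u' : ℂ}, X eps u = a → X eps u' = a → u'.im ≤ u.im →
      ori b u < 0 → ori b u' < 0 := by
    intro b hb u u' h1 h2 h3 h4
    rw [ori_neg_iff (hG.inc b hb), h1] at h4
    rw [ori_neg_iff (hG.inc b hb), h2]
    exact lt_of_le_of_lt h3 h4
  rcases h with h | h
  · rcases le_total z.im w.im with h3 | h3
    · refine valid_unique hG hc hc' (z := w) ⟨slab w hwa, ?_, ?_⟩ hw
      · exact fun b hb => up (hc.defd.bR b hb) hza hwa h3 (hz.2.1 b hb)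
      · rw [h]
        exact hw.2.2
    · refine valid_unique hG hc hc' (z := z) hz ⟨slab' z hza, ?_, ?_⟩
      · exact fun b hb => up (hc'.defd.bR b hb) hwa hza h3 (hw.2.1 b hb)
      · rw [← h]
        exact hz.2.2
  · rcases le_total z.im w.im with h3 | h3
    · refine valid_unique hG hc hc' (z := z) hz ⟨slab' z hza, ?_, ?_⟩
      · rw [← h]
        exact hz.2.1
      · exact fun b hb => dn (hc'.defd.tR b hb) hwa hza h3 (hw.2.2 b hb)
    · refine valid_unique hG hc hc' (z := w) ⟨slab w hwa, ?_, ?_⟩ hw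
      · rw [h]
        exact hw.2.1
      · exact fun b hb => dn (hc.defd.tR b hb) hza hwa h3 (hz.2.2 b hb)

/-- data of the left wall of a piece -/
theorem left_data {eps : ℝ} {S R R' : Finset Seg} {x : ℂ} (hG : Gen eps S x) (hR : R ⊆ R')
    (hR' : R' ⊆ S) {c c' d : Cell} (h : IsP eps R R' c c' d) {v : ℂ} (hv : v ∈ d.p) :
    (∀ p ∈ c'.p, X eps p ≤ X eps v) ∧ (∀ q ∈ c'.q, X eps v < X eps q) ∧
      (v ∉ c'.p → v ∈ c.p) := by
  have e := h.eq
  have hv' : v ∈ maxP eps c.p c'.p := by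
    rw [e] at hv
    exact hv
  obtain ⟨h1, h2⟩ := maxP_spec hv'
  refine ⟨h1, fun q hq => ?_, h2⟩
  obtain ⟨z, hz1, hz2⟩ := h.ne
  have hz : z ∈ reg eps d := by
    rw [h.reg_eq hG hR hR']
    exact ⟨hz1, hz2⟩
  exact (hz.1.1 v hv).trans (hz2.1.2 q hq)

end FAdjAux

open FAdjAux

theorem IsP.adj_false {eps : ℝ} {S R R' : Finset Seg} {x : ℂ} (hG : Gen eps S x) (hR : R ⊆ R')
    (hR' : R' ⊆ S) {c1 c1' d1 c2 c2' d2 : Cell} (h1 : IsP eps R R' c1 c1' d1)
    (h2 : IsP eps R R' c2 c2' d2) (ha : adjB d1 d2 = true) (hf : trueR d1 = false) :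
    c1' = c2' ∧ trueL d2 = false := by
  obtain ⟨v, hv1, hv2, hor⟩ := (adjB_iff d1 d2).1 ha
  obtain ⟨v', g1, g2, g3, g4, g5, g6⟩ := h1.falseR hG hR hR' hf
  obtain rfl : v' = v := mem_unique hv1 g1
  obtain ⟨k1, k2, k3⟩ := left_data hG hR hR' h2 hv2
  obtain ⟨a, ha1, ha2, ha3⟩ := exists_right g6 k2
  have hG' := hG.mono hR'
  have hd1t : d1.t = c1'.t := by rw [h1.eq]; rfl
  have hd1b : d1.b = c1'.b := by rw [h1.eq]; rfl
  have hd2t : d2.t = c2'.t := by rw [h2.eq]; rfl
  have hd2b : d2.b = c2'.b := by rw [h2.eq]; rfl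
  have hc : c1' = c2' := by
    refine shared hG' h1.vc' h2.vc' ?_ (a := a) (fun p hp => (g5 p hp).trans ha1) ha2
      (fun p hp => lt_of_le_of_lt (k1 p hp) ha1) ha3
    rcases hor with h | h
    · left
      rw [← hd1t, ← hd2t, h.1]
    · right
      rw [← hd1b, ← hd2b, h.1]
  refine ⟨hc, ?_⟩
  by_contra hcon
  rw [Bool.not_eq_false] at hcon
  have e := (h2.p_eq hG hR hR').1 hcon
  rw [e, ← hc] at hv2
  exact lt_irrefl _ (g5 _ hv2)

theorem IsP.adj_true {eps : ℝ} {S R R' : Finset Seg} {x : ℂ} (hG : Gen eps S x) (hR : R ⊆ R')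
    (hR' : R' ⊆ S) {c1 c1' d1 c2 c2' d2 : Cell} (h1 : IsP eps R R' c1 c1' d1)
    (h2 : IsP eps R R' c2 c2' d2) (ha : adjB d1 d2 = true) (ht' : trueR d1 = true) :
    adj c1' c2' ∧ trueL d2 = true := by
  obtain ⟨v, hv1, hv2, hor⟩ := (adjB_iff d1 d2).1 ha
  have hG' := hG.mono hR'
  have hinc := hG'.inc
  have hd1t : d1.t = c1'.t := by rw [h1.eq]; rfl
  have hd1b : d1.b = c1'.b := by rw [h1.eq]; rfl
  have hd2t : d2.t = c2'.t := by rw [h2.eq]; rfl
  have hd2b : d2.b = c2'.b := by rw [h2.eq]; rfl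
  have hvq : v ∈ c1'.q := by
    rw [← (h1.q_eq hG hR hR').1 ht']
    exact hv1
  have hcrit : IsCrit R' v := h1.vc'.defd.qC v hvq
  have hband : inBand c1' v := h1.vc'.shape.qb v hvq
  obtain ⟨k1, k2, k3⟩ := left_data hG hR hR' h2 hv2
  have hfin : v ∈ c2'.p → trueL d2 = true := by
    intro h
    rw [h2.p_eq hG hR hR']
    rw [Option.mem_def] at hv2 h
    rw [hv2, h]
  have hslab : v ∉ c2'.p → inSlab eps c2' v := by
    intro hn
    refine ⟨fun p hp => lt_of_le_of_ne (k1 p hp) ?_, k2⟩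
    intro e
    have := hG'.inj p v (h2.vc'.defd.pC p hp) hcrit e
    rw [this] at hp
    exact hn hp
  rcases hor with ⟨e1, e2⟩ | ⟨e1, e2⟩
  · rw [hd1t] at e2
    rw [hd1t, hd2t] at e1
    have hneg : ∀ t ∈ c1'.t, ori t v < 0 := fun t hh =>
      lt_of_le_of_ne (hband.2 t hh) (e2 t hh)
    have hvp : v ∈ c2'.p := by
      by_contra hn
      have hs := hslab hn
      by_cases hall : ∀ b ∈ c2'.b, 0 ≤ ori b v
      · refine no_crit_in_hreg hG' h2.vc' hcrit ⟨hs, hall, fun t hh => ?_⟩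
        rw [← e1] at hh
        exact (hneg t hh).le
      · push Not at hall
        obtain ⟨b2, hb2, hlt⟩ := hall
        have hb2R := h2.vc'.defd.bR b2 hb2
        obtain ⟨⟨p, hp, hp'⟩, ⟨q, hq, hq'⟩⟩ := h2.vc'.shape.bs b2 hb2
        have x1 : X eps b2.1 < X eps v := lt_of_le_of_lt hp' (hs.1 p hp)
        have x2 : X eps v ≤ X eps b2.2 := (hs.2 q hq).le.trans hq'
        rw [ori_neg_iff (hinc b2 hb2R)] at hlt
        refine push_left h1.vc' hinc hb2R hvq x1 x2 ?_ ?_
        · intro b hb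
          have := (ori_nonneg_iff (hinc b (h1.vc'.defd.bR b hb)) v).1 (hband.1 b hb)
          exact lt_of_le_of_lt this hlt
        · intro t hh
          rw [e1] at hh
          have h3 := h2.vc'.shape.bt b2 hb2 t hh (pt eps (X eps v) (ht eps b2 (X eps v)))
            (pt_mem_carrier (hinc b2 hb2R) x1.le x2)
            ⟨fun p hp => by rw [X_pt]; exact hs.1 p hp, fun q hq => by rw [X_pt]; exact hs.2 q hq⟩
          rw [ori_neg_iff (hinc t (h2.vc'.defd.tR t hh)), X_pt, pt_im] at h3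
          exact h3
    exact ⟨⟨v, hvq, hvp, Or.inl ⟨e1, hneg⟩⟩, hfin hvp⟩
  · rw [hd1b] at e2
    rw [hd1b, hd2b] at e1
    have hpos : ∀ b ∈ c1'.b, 0 < ori b v := fun t hh =>
      lt_of_le_of_ne (hband.1 t hh) (Ne.symm (e2 t hh))
    have hvp : v ∈ c2'.p := by
      by_contra hn
      have hs := hslab hn
      by_cases hall : ∀ t ∈ c2'.t, ori t v ≤ 0
      · refine no_crit_in_hreg hG' h2.vc' hcrit ⟨hs, fun b hh => ?_, hall⟩
        rw [← e1] at hh
        exact (hpos b hh).le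
      · push Not at hall
        obtain ⟨t2, ht2, hlt⟩ := hall
        have ht2R := h2.vc'.defd.tR t2 ht2
        obtain ⟨⟨p, hp, hp'⟩, ⟨q, hq, hq'⟩⟩ := h2.vc'.shape.ts t2 ht2
        have x1 : X eps t2.1 < X eps v := lt_of_le_of_lt hp' (hs.1 p hp)
        have x2 : X eps v ≤ X eps t2.2 := (hs.2 q hq).le.trans hq'
        rw [ori_pos_iff (hinc t2 ht2R)] at hlt
        refine push_left h1.vc' hinc ht2R hvq x1 x2 ?_ ?_
        · intro b hb
          rw [e1] at hb
          have h3 := shape_tb h2.vc'.shape (fun b hb => hinc b (h2.vc'.defd.bR b hb))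
            (fun t hh => hinc t (h2.vc'.defd.tR t hh)) t2 ht2 b hb
            (pt eps (X eps v) (ht eps t2 (X eps v)))
            (pt_mem_carrier (hinc t2 ht2R) x1.le x2)
            ⟨fun p hp => by rw [X_pt]; exact hs.1 p hp, fun q hq => by rw [X_pt]; exact hs.2 q hq⟩
          rw [ori_pos_iff (hinc b (h2.vc'.defd.bR b hb)), X_pt, pt_im] at h3
          exact h3
        · intro t hh
          have := (ori_nonpos_iff (hinc t (h1.vc'.defd.tR t hh)) v).1 (hband.2 t hh)
          exact lt_of_lt_of_le hlt this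
    exact ⟨⟨v, hvq, hvp, Or.inr ⟨e1, hpos⟩⟩, hfin hvp⟩

end SFA
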