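import Pool.Agent.Lib.SFA.WallTF
import Pool.Agent.Lib.SFA.ExistV
import Pool.Agent.Lib.SFA.AdjFace

/-!
# SFA.FFirst: the first piece of a new cell

`old_inFace`: `z ∈ reg c ∩ reg c'`, `reg c' ⊆ face R' x ⊆ face R x` (`face_anti`), `reg_subset_face`.
`exists_first`: let `F` be the finite set of critical abscissas of `S`, choose `z ∈ reg c'` (`exists_gen_reg`) whose abscissa is not in `F` and such that there is no element of `F` strictly between `X c'.p` and `X z`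
(if `c'.p = none`: no element of `F` to the left of `X z`).  `z ∉ U R' ⊇ U R`, `exists_valid'` for `R`: `c`.  `d = infC c c'`: if `p₀ ∈ c.p` then `X p₀ < X z`, so `X p₀ ≤ X c'.p` (in particular `c'.p ≠ none`), hence `maxP c.p c'.p = c'.p` (if the abscissas are equal, the points are equal by
`Gen.inj`): `trueL d` by `p_eq`.
`uniq_first`: `d1.p = d2.p`; take an abscissa `a` slightly to the right of it (or very small if it is `none`), in the open slabs of `d1` and `d2`, and `z ∈ reg c'` with `X z = a`: `z ∈ reg c1 ∩ reg c2` by `nest_open` (`inSlab_inf`).  So `c1 = c2`.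
`face_new`: `reg c'` meets `reg c`... `x` is in exactly one piece: `exists_root` for `R'` and for `R`.
-/

namespace SFA

open Set Filter Topology

theorem IsP.old_inFace {eps : ℝ} {S R R' : Finset Seg} {x : ℂ} (hG : Gen eps S x) (hR : R ⊆ R')
    (hR' : R' ⊆ S) {c c' d : Cell} (h : IsP eps R R' c c' d) (hf : InFace eps R' x c') :
    InFace eps R x c := by
  obtain ⟨z, hz1, hz2⟩ := h.ne
  exact ⟨h.vc, reg_subset_face (hG.mono (hR.trans hR')) h.vc hz1 (face_anti hR x (hf.2 hz2))⟩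

/-- a point of the region slightly to the right of the left wall -/
private theorem exists_near {eps : ℝ} {S R' : Finset Seg} {x : ℂ} (hG : Gen eps S x)
    (hR' : R' ⊆ S) {c' : Cell} (hc' : Valid eps R' c') :
    ∃ z ∈ reg eps c', (∀ v : ℂ, IsCrit S v → X eps v ≠ X eps z) ∧
      ∀ v : ℂ, IsCrit S v → X eps v < X eps z → ∃ p' ∈ c'.p, X eps v ≤ X eps p' := by
  have hF : (X eps '' {v : ℂ | IsCrit S v}).Finite := (finite_crit hG).image _
  have hb : ∀ b ∈ c'.b, X eps b.1 < X eps b.2 := fun b hb => hG.inc b (hR' (hc'.defd.bR b hb))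
  have ht' : ∀ t ∈ c'.t, X eps t.1 < X eps t.2 := fun t ht => hG.inc t (hR' (hc'.defd.tR t ht))
  have hq : ∀ q ∈ c'.q, IsCrit S q := fun q hq => (hc'.defd.qC q hq).mono hR'
  rcases hp : c'.p with _ | p'
  · obtain ⟨a, ha⟩ := hF.bddBelow
    have ha' : ∀ v : ℂ, IsCrit S v → a ≤ X eps v := fun v hv => ha ⟨v, hv, rfl⟩
    obtain ⟨z, hz, h1, h2, h3⟩ := exists_gen_reg (eps := eps) hc'.shape.shape0 hb ht'
      (a₁ := a - 1) (a₂ := a) (by linarith)
      ⟨fun p h => by simp [hp] at h, fun q h => by linarith [ha' q (hq q h)]⟩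
      ⟨fun p h => by simp [hp] at h, fun q h => ha' q (hq q h)⟩ hF
    refine ⟨z, hz, fun v hv he => h3 ⟨v, hv, he⟩, fun v hv hlt => ?_⟩
    exfalso
    have := ha' v hv
    linarith
  · have hfin : ((X eps '' {v : ℂ | IsCrit S v}) ∩ Ioi (X eps p')).Finite :=
      hF.subset inter_subset_left
    obtain ⟨a, ha1, ha2⟩ : ∃ a, X eps p' < a ∧ ∀ v : ℂ, IsCrit S v → X eps p' < X eps v →
        a ≤ X eps v := by
      rcases ((X eps '' {v : ℂ | IsCrit S v}) ∩ Ioi (X eps p')).eq_empty_or_nonempty with he | hne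
      · refine ⟨X eps p' + 1, by linarith, fun v hv hlt => ?_⟩
        exfalso
        have hm : X eps v ∈ ((X eps '' {v : ℂ | IsCrit S v}) ∩ Ioi (X eps p')) :=
          ⟨⟨v, hv, rfl⟩, hlt⟩
        rw [he] at hm
        exact hm
      · obtain ⟨a, ha, hmin⟩ := Set.exists_min_image _ id hfin hne
        exact ⟨a, ha.2, fun v hv hlt => hmin _ ⟨⟨v, hv, rfl⟩, hlt⟩⟩
    have hpm : p' ∈ c'.p := by rw [hp]; rfl
    obtain ⟨z, hz, h1, h2, h3⟩ := exists_gen_reg (eps := eps) hc'.shape.shape0 hb ht'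
      (a₁ := X eps p') (a₂ := a) ha1
      ⟨fun p h => by
          rw [hp] at h
          obtain rfl : p' = p := Option.some.inj h
          exact le_rfl,
        fun q h => (hc'.shape.lt p' hpm q h).le⟩
      ⟨fun p h => by
          rw [hp] at h
          obtain rfl : p' = p := Option.some.inj h
          exact ha1.le,
        fun q h => ha2 q (hq q h) (hc'.shape.lt p' hpm q h)⟩ hF
    refine ⟨z, hz, fun v hv he => h3 ⟨v, hv, he⟩, fun v hv hlt => ⟨p', rfl, ?_⟩⟩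
    by_contra hcon
    push Not at hcon
    have := ha2 v hv hcon
    linarith

theorem exists_first {eps : ℝ} {S R R' : Finset Seg} {x : ℂ} (hG : Gen eps S x) (hR : R ⊆ R')
    (hR' : R' ⊆ S) {c' : Cell} (hf : InFace eps R' x c') :
    ∃ c d, InFace eps R x c ∧ IsP eps R R' c c' d ∧ trueL d = true := by
  obtain ⟨z, hz, hz1, hz2⟩ := exists_near hG hR' hf.1
  have hU' : z ∉ U R' := reg_disj_U (hG.mono hR') hf.1 hz
  have hU : z ∉ U R := fun h => hU' (U_mono hR h)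
  obtain ⟨c, hc, hzc⟩ := exists_valid' (hG.mono (hR.trans hR')) hU
    (fun v hv => hz1 v (hv.mono (hR.trans hR')))
  have hP : IsP eps R R' c c' (infC eps c c') := ⟨hc, hf.1, ⟨z, hzc, hz⟩, rfl⟩
  refine ⟨c, infC eps c c', hP.old_inFace hG hR hR' hf, hP, ?_⟩
  rw [hP.p_eq hG hR hR']
  change maxP eps c.p c'.p = c'.p
  rcases hp : c.p with _ | p₀
  · rfl
  · have hpm : p₀ ∈ c.p := by rw [hp]; rfl
    have hcrit : IsCrit S p₀ := (hc.defd.pC p₀ hpm).mono (hR.trans hR')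
    obtain ⟨p', hp', hle⟩ := hz2 p₀ hcrit (hzc.1.1 p₀ hpm)
    have hp'' : c'.p = some p' := hp'
    have hcrit' : IsCrit S p' := (hf.1.defd.pC p' hp').mono hR'
    rw [hp'']
    change (if X eps p₀ < X eps p' then some p' else some p₀) = some p'
    split_ifs with hlt
    · rfl
    · rw [hG.inj p₀ p' hcrit hcrit' (le_antisymm hle (not_lt.1 hlt))]

private theorem uniq_first_aux {eps : ℝ} {S R R' : Finset Seg} {x : ℂ} (hG : Gen eps S x)
    (hR : R ⊆ R') (hR' : R' ⊆ S) {c1 c2 c' d1 d2 : Cell} (h1 : IsP eps R R' c1 c' d1)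
    (h2 : IsP eps R R' c2 c' d2) (hp : d1.p = d2.p) {z1 z2 : ℂ}
    (hz1 : z1 ∈ reg eps d1) (hz2 : z2 ∈ reg eps d2) (hle : X eps z1 ≤ X eps z2) : c1 = c2 := by
  have e1 : z1 ∈ reg eps c1 ∩ reg eps c' := by rw [← h1.reg_eq hG hR hR']; exact hz1
  have hs2 : inSlab eps d2 z1 := by
    refine ⟨fun p h => hz1.1.1 p (by rw [hp]; exact h), fun q h => ?_⟩
    exact lt_of_le_of_lt hle (hz2.1.2 q h)
  rw [h2.eq, inSlab_inf] at hs2
  have hob : OpenBand c2 z1 := by
    refine nest_open hG hR hR' h2.vc h2.vc' h2.ne ?_ ?_ ?_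
    · exact ⟨fun p h => (hs2.1.1 p h).le, fun q h => (hs2.1.2 q h).le⟩
    · exact ⟨fun p h => (hs2.2.1 p h).le, fun q h => (hs2.2.2 q h).le⟩
    · exact e1.2.2
  exact valid_unique (hG.mono (hR.trans hR')) h1.vc h2.vc e1.1 ⟨hs2.1, hob⟩

theorem IsP.uniq_first {eps : ℝ} {S R R' : Finset Seg} {x : ℂ} (hG : Gen eps S x) (hR : R ⊆ R')
    (hR' : R' ⊆ S) {c1 c2 c' d1 d2 : Cell} (h1 : IsP eps R R' c1 c' d1)
    (h2 : IsP eps R R' c2 c' d2) (hp : d1.p = d2.p) : c1 = c2 ∧ d1 = d2 := by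
  have hc : c1 = c2 := by
    obtain ⟨z1, hz1⟩ := h1.ne
    obtain ⟨z2, hz2⟩ := h2.ne
    rw [← h1.reg_eq hG hR hR'] at hz1
    rw [← h2.reg_eq hG hR hR'] at hz2
    rcases le_total (X eps z1) (X eps z2) with h | h
    · exact uniq_first_aux hG hR hR' h1 h2 hp hz1 hz2 h
    · exact (uniq_first_aux hG hR hR' h2 h1 hp.symm hz2 hz1 h).symm
  refine ⟨hc, ?_⟩
  rw [h1.eq, h2.eq, hc]

/-- The piece of `x`. -/
theorem exists_root_piece {eps : ℝ} {S R R' : Finset Seg} {x : ℂ} (hG : Gen eps S x)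
    (hR : R ⊆ R') (hR' : R' ⊆ S) :
    ∃ c c' d, InFace eps R x c ∧ InFace eps R' x c' ∧ IsP eps R R' c c' d ∧
      x ∈ reg eps d := by
  have hGR : Gen eps R x := hG.mono (hR.trans hR')
  have hGR' : Gen eps R' x := hG.mono hR'
  obtain ⟨c, hc, hxc⟩ := exists_valid' hGR hGR.xfree hGR.xgen
  obtain ⟨c', hc', hxc'⟩ := exists_valid' hGR' hGR'.xfree hGR'.xgen
  have hm : ∀ {R₀ : Finset Seg}, x ∉ U R₀ → x ∈ face R₀ x := by
    intro R₀ h
    unfold face
    exact mem_connectedComponentIn h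
  have hP : IsP eps R R' c c' (infC eps c c') := ⟨hc, hc', ⟨x, hxc, hxc'⟩, rfl⟩
  refine ⟨c, c', infC eps c c', ⟨hc, reg_subset_face hGR hc hxc (hm hGR.xfree)⟩,
    ⟨hc', reg_subset_face hGR' hc' hxc' (hm hGR'.xfree)⟩, hP, ?_⟩
  rw [hP.reg_eq hG hR hR']
  exact ⟨hxc, hxc'⟩

end SFA
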