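import Pool.Agent.Lib.SFA.WallTF

/-!
# SFA.FLast: the last piece of a new cell is unique

`uniq_last`: `d1.q = d2.q`; take an abscissa `a` slightly to the left of it (or very large if it is `none`), in the open slabs of `d1` and `d2`, and `z ∈ reg c'` with `X z = a` (`exists_reg_at`): `z ∈ reg c1 ∩ reg c2` by `nest_open` (`inSlab_inf`).  So `c1 = c2` by `valid_unique`, and
`d1 = infC c1 c' = d2`.
`exists_gen`-type facts are not needed.  `q_mono`: `X d.p < X d.q` for a piece (a point of `reg d` has its abscissa between).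
-/

namespace SFA

open Set Filter Topology

namespace FLastAux

theorem aux {eps : ℝ} {S R R' : Finset Seg} {x : ℂ} (hG : Gen eps S x)
    (hR : R ⊆ R') (hR' : R' ⊆ S) {c1 c2 c' d1 d2 : Cell} (h1 : IsP eps R R' c1 c' d1)
    (h2 : IsP eps R R' c2 c' d2) (hq : d1.q = d2.q) {z1 z2 : ℂ}
    (hz1 : z1 ∈ reg eps d1) (hz2 : z2 ∈ reg eps d2) (hle : X eps z2 ≤ X eps z1) : c1 = c2 := by
  have e1 : z1 ∈ reg eps c1 ∩ reg eps c' := by rw [← h1.reg_eq hG hR hR']; exact hz1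
  have hs2 : inSlab eps d2 z1 := by
    refine ⟨fun p h => ?_, fun q h => hz1.1.2 q (by rw [hq]; exact h)⟩
    exact lt_of_lt_of_le (hz2.1.1 p h) hle
  rw [h2.eq, inSlab_inf] at hs2
  have hob : OpenBand c2 z1 := by
    refine nest_open hG hR hR' h2.vc h2.vc' h2.ne ?_ ?_ ?_
    · exact ⟨fun p h => (hs2.1.1 p h).le, fun q h => (hs2.1.2 q h).le⟩
    · exact ⟨fun p h => (hs2.2.1 p h).le, fun q h => (hs2.2.2 q h).le⟩
    · exact e1.2.2
  exact valid_unique (hG.mono (hR.trans hR')) h1.vc h2.vc e1.1 ⟨hs2.1, hob⟩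

end FLastAux

theorem IsP.uniq_last {eps : ℝ} {S R R' : Finset Seg} {x : ℂ} (hG : Gen eps S x) (hR : R ⊆ R')
    (hR' : R' ⊆ S) {c1 c2 c' d1 d2 : Cell} (h1 : IsP eps R R' c1 c' d1)
    (h2 : IsP eps R R' c2 c' d2) (hq : d1.q = d2.q) : c1 = c2 ∧ d1 = d2 := by
  have hc : c1 = c2 := by
    obtain ⟨z1, hz1⟩ := h1.ne
    obtain ⟨z2, hz2⟩ := h2.ne
    rw [← h1.reg_eq hG hR hR'] at hz1
    rw [← h2.reg_eq hG hR hR'] at hz2
    rcases le_total (X eps z2) (X eps z1) with h | h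
    · exact FLastAux.aux hG hR hR' h1 h2 hq hz1 hz2 h
    · exact (FLastAux.aux hG hR hR' h2 h1 hq.symm hz2 hz1 h).symm
  refine ⟨hc, ?_⟩
  rw [h1.eq, h2.eq, hc]

theorem IsP.p_lt_q {eps : ℝ} {S R R' : Finset Seg} {x : ℂ} (hG : Gen eps S x) (hR : R ⊆ R')
    (hR' : R' ⊆ S) {c c' d : Cell} (h : IsP eps R R' c c' d) :
    ∀ p ∈ d.p, ∀ q ∈ d.q, X eps p < X eps q := by
  intro p hp q hq
  obtain ⟨z, hz⟩ := h.ne
  rw [← h.reg_eq hG hR hR'] at hz
  exact (hz.1.1 p hp).trans (hz.1.2 q hq)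

end SFA
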