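import Pool.Agent.Lib.SFA.G2Defs

/-!
# SFA.TestB: the Boolean tests mean what they should

All proofs: unfold, `Option.elim` by cases, `decide_eq_true_eq`, `Bool.and_eq_true`; equality of complex numbers
by `Complex.ext_iff`.
-/

namespace SFA

namespace TestBAux

theorem elim_true {α : Type*} (o : Option α) (f : α → Bool) :
    o.elim true f = true ↔ ∀ a ∈ o, f a = true := by
  cases o with
  | none => simp
  | some a => simp

theorem elim_false {α : Type*} (o : Option α) (f : α → Bool) :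
    o.elim false f = true ↔ ∃ a ∈ o, f a = true := by
  cases o with
  | none => simp
  | some a => simp

end TestBAux

open TestBAux

theorem lexB_iff (u v : ℂ) : lexB u v = true ↔ lexlt u v := by
  unfold lexB lexlt
  rw [Bool.or_eq_true, Bool.and_eq_true, decide_eq_true_eq, decide_eq_true_eq, decide_eq_true_eq]

theorem ptEq_iff (u v : ℂ) : ptEq u v = true ↔ u = v := by
  unfold ptEq
  rw [Bool.and_eq_true, decide_eq_true_eq, decide_eq_true_eq, Complex.ext_iff]

theorem sgEq_iff (s t : Seg) : sgEq s t = true ↔ s = t := by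
  unfold sgEq
  rw [Bool.and_eq_true, ptEq_iff, ptEq_iff, Prod.ext_iff]

theorem opEq_iff (u v : Option ℂ) : opEq u v = true ↔ u = v := by
  unfold opEq
  cases u <;> cases v <;> simp [ptEq_iff]

theorem osEq_iff (s t : Option Seg) : osEq s t = true ↔ s = t := by
  unfold osEq
  cases s <;> cases t <;> simp [sgEq_iff]

theorem lexB_X {eps : ℝ} {S : Finset Seg} {x : ℂ} (hL : LexOK eps S x) {u v : ℂ}
    (hu : IsCrit S u ∨ u = x) (hv : IsCrit S v ∨ v = x) :
    lexB u v = true ↔ X eps u < X eps v := by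
  rw [lexB_iff]
  exact hL u v hu hv

theorem slabB_iff {eps : ℝ} {S : Finset Seg} {x : ℂ} (hL : LexOK eps S x) {c : Cell}
    (hp : ∀ p ∈ c.p, IsCrit S p) (hq : ∀ q ∈ c.q, IsCrit S q) {z : ℂ}
    (hz : IsCrit S z ∨ z = x) : slabB c z = true ↔ inSlab eps c z := by
  unfold slabB inSlab afterP beforeQ
  rw [Bool.and_eq_true, elim_true, elim_true]
  constructor
  · rintro ⟨h1, h2⟩
    exact ⟨fun p hp' => (lexB_X hL (Or.inl (hp p hp')) hz).1 (h1 p hp'),
      fun q hq' => (lexB_X hL hz (Or.inl (hq q hq'))).1 (h2 q hq')⟩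
  · rintro ⟨h1, h2⟩
    exact ⟨fun p hp' => (lexB_X hL (Or.inl (hp p hp')) hz).2 (h1 p hp'),
      fun q hq' => (lexB_X hL hz (Or.inl (hq q hq'))).2 (h2 q hq')⟩

theorem bandB_iff (c : Cell) (z : ℂ) : bandB c z = true ↔ inBand c z := by
  unfold bandB inBand
  rw [Bool.and_eq_true, elim_true, elim_true]
  simp only [decide_eq_true_eq]

theorem openB_iff (c : Cell) (z : ℂ) :
    openB c z = true ↔ (∀ b ∈ c.b, 0 < ori b z) ∧ (∀ t ∈ c.t, ori t z < 0) := by
  unfold openB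
  rw [Bool.and_eq_true, elim_true, elim_true]
  simp only [decide_eq_true_eq]

theorem regB_iff {eps : ℝ} {S : Finset Seg} {x : ℂ} (hL : LexOK eps S x) {c : Cell}
    (hp : ∀ p ∈ c.p, IsCrit S p) (hq : ∀ q ∈ c.q, IsCrit S q) {z : ℂ}
    (hz : IsCrit S z ∨ z = x) : regB c z = true ↔ z ∈ reg eps c := by
  unfold regB
  rw [Bool.and_eq_true, slabB_iff hL hp hq hz, openB_iff]
  rfl

theorem hregB_iff {eps : ℝ} {S : Finset Seg} {x : ℂ} (hL : LexOK eps S x) {c : Cell}
    (hp : ∀ p ∈ c.p, IsCrit S p) (hq : ∀ q ∈ c.q, IsCrit S q) {z : ℂ}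
    (hz : IsCrit S z ∨ z = x) : hregB c z = true ↔ z ∈ hreg eps c := by
  unfold hregB
  rw [Bool.and_eq_true, slabB_iff hL hp hq hz, bandB_iff]
  rfl

theorem offB_iff (o : Option Seg) (v : ℂ) : offB o v = true ↔ ∀ s ∈ o, ori s v ≠ 0 := by
  unfold offB
  rw [elim_true]
  simp only [decide_eq_true_eq]

theorem onB_iff (o : Option Seg) (v : ℂ) : onB o v = true ↔ ∃ s ∈ o, ori s v = 0 := by
  unfold onB
  rw [elim_false]
  simp only [decide_eq_true_eq]

theorem adjB_iff (c d : Cell) : adjB c d = true ↔ ∃ v : ℂ, v ∈ c.q ∧ v ∈ d.p ∧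
    ((c.t = d.t ∧ ∀ t ∈ c.t, ori t v ≠ 0) ∨ (c.b = d.b ∧ ∀ b ∈ c.b, ori b v ≠ 0)) := by
  unfold adjB
  rw [elim_false]
  constructor
  · rintro ⟨v, hv, h⟩
    rw [elim_false] at h
    obtain ⟨w, hw, h⟩ := h
    rw [Bool.and_eq_true, Bool.or_eq_true, Bool.and_eq_true, Bool.and_eq_true, osEq_iff, osEq_iff,
      offB_iff, offB_iff, ptEq_iff] at h
    obtain ⟨rfl, h⟩ := h
    exact ⟨v, hv, hw, h⟩
  · rintro ⟨v, hv, hw, h⟩
    refine ⟨v, hv, ?_⟩
    rw [elim_false]
    refine ⟨v, hw, ?_⟩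
    rw [Bool.and_eq_true, Bool.or_eq_true, Bool.and_eq_true, Bool.and_eq_true, osEq_iff, osEq_iff,
      offB_iff, offB_iff, ptEq_iff]
    exact ⟨rfl, h⟩

theorem trueL_iff (d : Cell) : trueL d = true ↔ ∀ v ∈ d.p, inBand d v := by
  unfold trueL
  rw [elim_true]
  simp only [bandB_iff]

theorem trueR_iff (d : Cell) : trueR d = true ↔ ∀ v ∈ d.q, inBand d v := by
  unfold trueR
  rw [elim_true]
  simp only [bandB_iff]

end SFA
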