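import Pool.Agent.Lib.SFA.InfC
import Pool.Agent.Lib.SFA.TestB

/-!
# SFA.WallTF: walls of the new decomposition and artificial walls

`d = infC c c'` is a piece, `z₀ ∈ reg c ∩ reg c'`; `d.q = minQ c.q c'.q`, `d.b = c'.b`, `d.t = c'.t`.
`q_eq`: (⇐) `d.q = c'.q`: `v ∈ d.q` is in the band of `c'` (`qb`), which is the band of `d`.  (⇒) Suppose `d.q ≠ c'.q`; then `d.q = c.q = some v` and `X v < X q'` for `q' ∈ c'.q` (`minQ`; equal abscissas would give
`v = q'` by `Gen.inj` for `S`: `v`, `q'` are critical for `R`, `R'`).  If `inBand d v` then `v ∈ hreg c'` (`X c'.p < X z₀ < X c.q = X v`) and `v` is critical for `R'` (`IsCrit.mono`): against `no_crit_in_hreg`.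
`falseR` is the contrapositive with the details.  `p_eq`, `falseL`: mirror images.
-/

namespace SFA

open Set Filter Topology

namespace WallTFAux

theorem minQ_cases {eps : ℝ} {u v : Option ℂ}
    (hinj : ∀ a ∈ u, ∀ b ∈ v, X eps a = X eps b → a = b) :
    minQ eps u v = v ∨ ∃ a ∈ u, minQ eps u v = some a ∧ ∀ b ∈ v, X eps a < X eps b := by
  unfold minQ
  rcases u with _ | a
  · exact Or.inl rfl
  rcases v with _ | b
  · exact Or.inr ⟨a, rfl, rfl, fun b hb => by cases hb⟩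
  simp only [Option.elim]
  split_ifs with h
  · exact Or.inl rfl
  · rcases (not_lt.1 h).eq_or_lt with h1 | h1
    · left
      rw [hinj a rfl b rfl h1]
    · refine Or.inr ⟨a, rfl, rfl, fun b' hb' => ?_⟩
      obtain rfl : b = b' := Option.some.inj hb'
      exact h1

theorem maxP_cases {eps : ℝ} {u v : Option ℂ}
    (hinj : ∀ a ∈ u, ∀ b ∈ v, X eps a = X eps b → a = b) :
    maxP eps u v = v ∨ ∃ a ∈ u, maxP eps u v = some a ∧ ∀ b ∈ v, X eps b < X eps a := by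
  unfold maxP
  rcases u with _ | a
  · exact Or.inl rfl
  rcases v with _ | b
  · exact Or.inr ⟨a, rfl, rfl, fun b hb => by cases hb⟩
  simp only [Option.elim]
  split_ifs with h
  · exact Or.inl rfl
  · rcases (not_lt.1 h).eq_or_lt with h1 | h1
    · left
      rw [hinj a rfl b rfl h1.symm]
    · refine Or.inr ⟨a, rfl, rfl, fun b' hb' => ?_⟩
      obtain rfl : b = b' := Option.some.inj hb'
      exact h1

/-- the right wall of the piece is that of the new cell, or that of the old cell and farther left -/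
theorem q_cases {eps : ℝ} {S R R' : Finset Seg} {x : ℂ} (hG : Gen eps S x) (hR : R ⊆ R')
    (hR' : R' ⊆ S) {c c' d : Cell} (h : IsP eps R R' c c' d) :
    d.q = c'.q ∨ ∃ v, v ∈ d.q ∧ v ∈ c.q ∧ IsCrit R v ∧ ¬ inBand d v ∧
      (∀ p ∈ c'.p, X eps p < X eps v) ∧ (∀ q ∈ c'.q, X eps v < X eps q) := by
  obtain ⟨vc, vc', ⟨z, hz, hz'⟩, rfl⟩ := h
  have hinj : ∀ a ∈ c.q, ∀ b ∈ c'.q, X eps a = X eps b → a = b := fun a ha b hb =>
    hG.inj a b (((vc.defd.qC a ha).mono hR).mono hR') ((vc'.defd.qC b hb).mono hR')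
  rcases minQ_cases hinj with h1 | ⟨a, ha, h1, h2⟩
  · exact Or.inl h1
  · have hp : ∀ p ∈ c'.p, X eps p < X eps a := fun p hp =>
      (hz'.1.1 p hp).trans (hz.1.2 a ha)
    refine Or.inr ⟨a, h1, ha, vc.defd.qC a ha, ?_, hp, h2⟩
    intro hb
    exact no_crit_in_hreg (hG.mono hR') vc' ((vc.defd.qC a ha).mono hR) ⟨⟨hp, h2⟩, hb⟩

/-- the same for the left wall -/
theorem p_cases {eps : ℝ} {S R R' : Finset Seg} {x : ℂ} (hG : Gen eps S x) (hR : R ⊆ R')
    (hR' : R' ⊆ S) {c c' d : Cell} (h : IsP eps R R' c c' d) :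
    d.p = c'.p ∨ ∃ v, v ∈ d.p ∧ v ∈ c.p ∧ IsCrit R v ∧ ¬ inBand d v ∧
      (∀ p ∈ c'.p, X eps p < X eps v) ∧ (∀ q ∈ c'.q, X eps v < X eps q) := by
  obtain ⟨vc, vc', ⟨z, hz, hz'⟩, rfl⟩ := h
  have hinj : ∀ a ∈ c.p, ∀ b ∈ c'.p, X eps a = X eps b → a = b := fun a ha b hb =>
    hG.inj a b (((vc.defd.pC a ha).mono hR).mono hR') ((vc'.defd.pC b hb).mono hR')
  rcases maxP_cases hinj with h1 | ⟨a, ha, h1, h2⟩
  · exact Or.inl h1
  · have hq : ∀ q ∈ c'.q, X eps a < X eps q := fun q hq =>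
      (hz.1.1 a ha).trans (hz'.1.2 q hq)
    refine Or.inr ⟨a, h1, ha, vc.defd.pC a ha, ?_, h2, hq⟩
    intro hb
    exact no_crit_in_hreg (hG.mono hR') vc' ((vc.defd.pC a ha).mono hR) ⟨⟨h2, hq⟩, hb⟩

end WallTFAux

open WallTFAux

theorem IsP.q_eq {eps : ℝ} {S R R' : Finset Seg} {x : ℂ} (hG : Gen eps S x) (hR : R ⊆ R')
    (hR' : R' ⊆ S) {c c' d : Cell} (h : IsP eps R R' c c' d) : trueR d = true ↔ d.q = c'.q := by
  rw [trueR_iff]
  constructor
  · intro hb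
    rcases q_cases hG hR hR' h with h1 | ⟨v, h1, -, -, h2, -⟩
    · exact h1
    · exact absurd (hb v h1) h2
  · intro he v hv
    obtain ⟨-, vc', -, rfl⟩ := h
    rw [he] at hv
    exact vc'.shape.qb v hv

theorem IsP.p_eq {eps : ℝ} {S R R' : Finset Seg} {x : ℂ} (hG : Gen eps S x) (hR : R ⊆ R')
    (hR' : R' ⊆ S) {c c' d : Cell} (h : IsP eps R R' c c' d) : trueL d = true ↔ d.p = c'.p := by
  rw [trueL_iff]
  constructor
  · intro hb
    rcases p_cases hG hR hR' h with h1 | ⟨v, h1, -, -, h2, -⟩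
    · exact h1
    · exact absurd (hb v h1) h2
  · intro he v hv
    obtain ⟨-, vc', -, rfl⟩ := h
    rw [he] at hv
    exact vc'.shape.pb v hv

theorem IsP.falseR {eps : ℝ} {S R R' : Finset Seg} {x : ℂ} (hG : Gen eps S x) (hR : R ⊆ R')
    (hR' : R' ⊆ S) {c c' d : Cell} (h : IsP eps R R' c c' d) (hf : trueR d = false) :
    ∃ v, v ∈ d.q ∧ v ∈ c.q ∧ IsCrit R v ∧ ¬ inBand d v ∧ (∀ p ∈ c'.p, X eps p < X eps v) ∧
      (∀ q ∈ c'.q, X eps v < X eps q) := by
  rcases q_cases hG hR hR' h with h1 | h1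
  · rw [(h.q_eq hG hR hR').2 h1] at hf
    cases hf
  · exact h1

theorem IsP.falseL {eps : ℝ} {S R R' : Finset Seg} {x : ℂ} (hG : Gen eps S x) (hR : R ⊆ R')
    (hR' : R' ⊆ S) {c c' d : Cell} (h : IsP eps R R' c c' d) (hf : trueL d = false) :
    ∃ v, v ∈ d.p ∧ v ∈ c.p ∧ IsCrit R v ∧ ¬ inBand d v ∧ (∀ p ∈ c'.p, X eps p < X eps v) ∧
      (∀ q ∈ c'.q, X eps v < X eps q) := by
  rcases p_cases hG hR hR' h with h1 | h1
  · rw [(h.p_eq hG hR hR').2 h1] at hf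
    cases hf
  · exact h1

end SFA
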