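import Pool.Agent.Lib.SFA.RDoor
import Pool.Agent.Lib.SFA.WallTF

/-!
# SFA.FSucc: the piece behind an artificial right wall

`v` from `IsP.falseR`.  `exists_reg_at` for `c'` and `a = X v` gives `w ∈ reg c'`, `X w = X v`; `w ≠ v` (`OpenBand c' w`, `¬ inBand d v`, bands of `c'` and `d` equal).
`OpenBand c w` by `nest_open` (`InX c (X v)`: `v ∈ c.q`, `X c.p < X v` by `hc.shape.lt`; `InX c' (X v)`).  `right_door` (for `R`) gives `c2` with `adj c c2`, `v ∈ c2.p` and the right half ball at `w` in `reg c2`; `reg c'` is an open neighbourhood of `w`, so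
`reg c2 ∩ reg c'` is not empty (take a point `w + δ`, `δ > 0` small: `X (w + δ) = X w + δ`).  `d2 = infC c2 c'`: `d2.p = maxP (some v) c'.p = some v` (`X c'.p < X v`).  `trueL d2 = false`: `¬ inBand d2 v`.
`adjB_iff`: `d.b = d2.b = c'.b`, `d.t = d2.t = c'.t`, `v ∈ d.q`, `v ∈ d2.p`, and `¬ inBand d v` gives a `b ∈ d.b` with `ori b v < 0` or a `t ∈ d.t` with `0 < ori t v`.
-/

namespace SFA

open Set Filter Topology

theorem IsP.succF {eps : ℝ} {S R R' : Finset Seg} {x : ℂ} (hG : Gen eps S x) (hR : R ⊆ R')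
    (hR' : R' ⊆ S) {c c' d : Cell} (h : IsP eps R R' c c' d) (hf : trueR d = false) :
    ∃ c2 d2, adj c c2 ∧ IsP eps R R' c2 c' d2 ∧ adjB d d2 = true ∧ trueL d2 = false ∧
      d2.p = d.q := by
  classical
  obtain ⟨v, hvd, hvc, hcrit, hnb, hp', hq'⟩ := h.falseR hG hR hR' hf
  have hc := h.vc
  have hc' := h.vc'
  have hdb : d.b = c'.b := by rw [h.eq]; rfl
  have hdt : d.t = c'.t := by rw [h.eq]; rfl
  obtain ⟨w, hw, hwX⟩ := exists_reg_at (c := c') hc'.shape.shape0
    (fun b hb => hG.inc b (hR' (hc'.defd.bR b hb)))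
    (fun t ht' => hG.inc t (hR' (hc'.defd.tR t ht'))) hp' hq'
  have hwO : OpenBand c' w := hw.2
  have hwv : w ≠ v := by
    intro hwv
    apply hnb
    rw [← hwv]
    refine ⟨fun b hb => ?_, fun t ht' => ?_⟩
    · rw [hdb] at hb
      exact (hwO.1 b hb).le
    · rw [hdt] at ht'
      exact (hwO.2 t ht').le
  have hI1 : InX eps c (X eps w) := by
    rw [hwX]
    refine ⟨fun p hp => (hc.shape.lt p hp v hvc).le, fun q hq => ?_⟩
    rw [Option.mem_unique hq hvc]
  have hI2 : InX eps c' (X eps w) := by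
    rw [hwX]
    exact ⟨fun p hp => (hp' p hp).le, fun q hq => (hq' q hq).le⟩
  have ho : OpenBand c w := nest_open hG hR hR' hc hc' h.ne hI1 hI2 hwO
  obtain ⟨-, c2, hc2, hadj, hvp, r, hr, hball⟩ :=
    right_door (hG.mono (hR.trans hR')) hc hvc hwX hwv ho
  have hne : (reg eps c2 ∩ reg eps c').Nonempty := by
    obtain ⟨r', hr', hball'⟩ := Metric.isOpen_iff.1 (isOpen_reg eps c') w hw
    have hm : 0 < min r r' := lt_min hr hr'
    have hd : dist (w + ((min r r' / 2 : ℝ) : ℂ)) w = min r r' / 2 := by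
      rw [dist_eq_norm, add_sub_cancel_left, Complex.norm_real, Real.norm_of_nonneg (by linarith)]
    refine ⟨w + ((min r r' / 2 : ℝ) : ℂ), hball _ ?_ ?_, hball' ?_⟩
    · rw [Metric.mem_ball, hd]
      linarith [min_le_left r r']
    · rw [X_add]
      have : X eps ((min r r' / 2 : ℝ) : ℂ) = min r r' / 2 := by
        simp only [X, Complex.ofReal_re, Complex.ofReal_im, mul_zero, add_zero]
      rw [this]
      linarith
    · rw [Metric.mem_ball, hd]
      linarith [min_le_right r r']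
  have hd2p : (infC eps c2 c').p = some v := by
    have hvp' : c2.p = some v := hvp
    have h1 : (infC eps c2 c').p = maxP eps c2.p c'.p := rfl
    rw [h1, hvp']
    unfold maxP
    rcases hcp : c'.p with _ | p
    · rfl
    · have h2 : ¬ X eps v < X eps p := not_lt.2 (hp' p hcp).le
      simp [h2]
  refine ⟨c2, infC eps c2 c', hadj, ⟨hc2, hc', hne, rfl⟩, ?_, ?_, ?_⟩
  · rw [adjB_iff]
    refine ⟨v, hvd, hd2p, ?_⟩
    by_cases hb : ∀ b ∈ d.b, ori b v ≠ 0
    · exact Or.inr ⟨hdb, hb⟩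
    · left
      refine ⟨hdt, fun t ht' ht0 => hnb ⟨fun b hb' => ?_, fun t' ht'' => ?_⟩⟩
      · push Not at hb
        obtain ⟨b1, hb1, hb0⟩ := hb
        rw [Option.mem_unique hb' hb1, hb0]
      · rw [Option.mem_unique ht'' ht', ht0]
  · rw [Bool.eq_false_iff]
    intro ht'
    rw [trueL_iff] at ht'
    have h1 := ht' v hd2p
    apply hnb
    refine ⟨fun b hb => h1.1 b ?_, fun t ht'' => h1.2 t ?_⟩
    · rw [hdb] at hb
      exact hb
    · rw [hdt] at ht''
      exact ht''
  · rw [hd2p]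
    exact (show d.q = some v from hvd).symm

end SFA
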