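import Pool.Agent.Lib.SFA.RDoor
import Pool.Agent.Lib.SFA.WallTF
import Pool.Agent.Lib.SFA.AdjFace

/-!
# SFA.FSuccT: the piece of a right neighbour behind a wall of the new decomposition

`v ∈ c1'.q`, `v ∈ c2'.p`, `d1.q = c1'.q` (`q_eq`).  As in the proof of `door` choose `w`, `X w = X v`, strictly between `v` and the common top (or bottom), so that `OpenBand c1' w`, `OpenBand c2' w`, `w ≠ v`.  `InX c1 (X v)`, `InX c1' (X v)` (`d1.q = minQ c1.q c1'.q`, `X c1.p < X z₀ < X v`),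
so `OpenBand c1 w` by `nest_open`.  For small `δ > 0` the point `w + δ` (`X (w + δ) = X w + δ`) is in `reg c2'`.
(a) `X v < X q` for `q ∈ c1.q`: `w` is in the slab of `c1`, `w ∈ reg c1`, `w + δ ∈ reg c1 ∩ reg c2'`: take `c2 = c1`, `d2 = infC c1 c2'`, `d2.p = maxP c1.p (some v) = some v` (`X c1.p < X v`).
(b) otherwise `c1.q = some q`, `X q = X v`, `q = v` by `Gen.inj` (critical for `R'`).  `right_door` for `R`, `c1`: `c2` with `adj c1 c2`, `v ∈ c2.p`, `w + δ ∈ reg c2 ∩ reg c2'`.  `d2 = infC c2 c2'`, `d2.p = some v`.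
`adjB_iff`: `v ∈ d1.q`, `v ∈ d2.p`, same top `c1'.t = c2'.t` with `ori t v < 0` (or same bottom).  `trueL d2`: `d2.p = c2'.p` (`p_eq`).
-/

namespace SFA

open Set Filter Topology

namespace FSuccTAux

/-- a point on the common wall, in the open bands of both cells -/
theorem wall_pt {eps : ℝ} {R : Finset Seg} {x : ℂ} (hG : Gen eps R x) {c c' : Cell}
    (hc : Valid eps R c) (hc' : Valid eps R c') {v : ℂ} (hv : v ∈ c.q) (hv' : v ∈ c'.p)
    (h : (c.t = c'.t ∧ ∀ t ∈ c.t, ori t v < 0) ∨ (c.b = c'.b ∧ ∀ b ∈ c.b, 0 < ori b v)) :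
    ∃ w : ℂ, X eps w = X eps v ∧ w ≠ v ∧ OpenBand c w ∧ OpenBand c' w := by
  rcases h with ⟨htt, htv⟩ | ⟨hbb, hbv⟩
  · obtain ⟨y, hy1, hy2⟩ : ∃ y : ℝ, v.im < y ∧ ∀ t ∈ c.t, y < ht eps t (X eps v) := by
      rcases ht0 : c.t with _ | t
      · exact ⟨v.im + 1, by linarith, by simp⟩
      · have h1 : v.im < ht eps t (X eps v) :=
          (ori_neg_iff (hG.inc t (hc.defd.tR t (by simp [ht0]))) v).1 (htv t (by simp [ht0]))
        obtain ⟨y, h2, h3⟩ := exists_between h1
        refine ⟨y, h2, ?_⟩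
        intro t' ht'
        simp at ht'
        subst ht'
        exact h3
    have ht1 : ∀ t ∈ c.t, ori t (pt eps (X eps v) y) < 0 := by
      intro t ht'
      rw [ori_neg_iff (hG.inc t (hc.defd.tR t ht'))]
      simpa using hy2 t ht'
    refine ⟨pt eps (X eps v) y, by simp, ?_, ⟨?_, ht1⟩, ⟨?_, ?_⟩⟩
    · intro h
      have := congrArg Complex.im h
      simp at this
      linarith
    · intro b hb
      have h1 := (hc.shape.qb v hv).1 b hb
      rw [ori_nonneg_iff (hG.inc b (hc.defd.bR b hb))] at h1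
      rw [ori_pos_iff (hG.inc b (hc.defd.bR b hb))]
      simp only [X_pt, pt_im]
      linarith
    · intro b hb
      have h1 := (hc'.shape.pb v hv').1 b hb
      rw [ori_nonneg_iff (hG.inc b (hc'.defd.bR b hb))] at h1
      rw [ori_pos_iff (hG.inc b (hc'.defd.bR b hb))]
      simp only [X_pt, pt_im]
      linarith
    · intro t ht'
      rw [← htt] at ht'
      exact ht1 t ht'
  · obtain ⟨y, hy1, hy2⟩ : ∃ y : ℝ, y < v.im ∧ ∀ b ∈ c.b, ht eps b (X eps v) < y := by
      rcases hb0 : c.b with _ | b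
      · exact ⟨v.im - 1, by linarith, by simp⟩
      · have h1 : ht eps b (X eps v) < v.im :=
          (ori_pos_iff (hG.inc b (hc.defd.bR b (by simp [hb0]))) v).1 (hbv b (by simp [hb0]))
        obtain ⟨y, h2, h3⟩ := exists_between h1
        refine ⟨y, h3, ?_⟩
        intro t' ht'
        simp at ht'
        subst ht'
        exact h2
    have hb1 : ∀ b ∈ c.b, 0 < ori b (pt eps (X eps v) y) := by
      intro t ht'
      rw [ori_pos_iff (hG.inc t (hc.defd.bR t ht'))]
      simpa using hy2 t ht'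
    refine ⟨pt eps (X eps v) y, by simp, ?_, ⟨hb1, ?_⟩, ⟨?_, ?_⟩⟩
    · intro h
      have := congrArg Complex.im h
      simp at this
      linarith
    · intro t ht'
      have h1 := (hc.shape.qb v hv).2 t ht'
      rw [ori_nonpos_iff (hG.inc t (hc.defd.tR t ht'))] at h1
      rw [ori_neg_iff (hG.inc t (hc.defd.tR t ht'))]
      simp only [X_pt, pt_im]
      linarith
    · intro b hb
      rw [← hbb] at hb
      exact hb1 b hb
    · intro t ht'
      have h1 := (hc'.shape.pb v hv').2 t ht'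
      rw [ori_nonpos_iff (hG.inc t (hc'.defd.tR t ht'))] at h1
      rw [ori_neg_iff (hG.inc t (hc'.defd.tR t ht'))]
      simp only [X_pt, pt_im]
      linarith

theorem cont_h (eps : ℝ) (w : ℂ) : Continuous (fun xi : ℝ => pt eps xi w.im) :=
  (continuous_pt eps).comp (continuous_id.prodMk continuous_const)

/-- points slightly to the right of a point of the left wall are in the region -/
theorem right_reg {eps : ℝ} {R : Finset Seg} {c : Cell} (hc : Valid eps R c) {v w : ℂ}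
    (hv : v ∈ c.p) (hX : X eps w = X eps v) (ho : OpenBand c w) :
    ∀ᶠ xi in 𝓝[>] (X eps w), pt eps xi w.im ∈ reg eps c := by
  have hw : pt eps (X eps w) w.im = w := pt_eta eps w
  have hcont := cont_h eps w
  have e2 : ∀ᶠ xi in 𝓝[>] (X eps w), X eps w < xi := self_mem_nhdsWithin
  have e3 : ∀ᶠ xi in 𝓝[>] (X eps w), ∀ q ∈ c.q, xi < X eps q :=
    RDoorAux.ev_opt fun q hq => mem_nhdsWithin_of_mem_nhds
      (Iio_mem_nhds (by rw [hX]; exact hc.shape.lt v hv q hq))
  have e4 : ∀ᶠ xi in 𝓝[>] (X eps w), ∀ b ∈ c.b, 0 < ori b (pt eps xi w.im) :=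
    RDoorAux.ev_opt fun b hb => mem_nhdsWithin_of_mem_nhds
      ((((continuous_ori b).comp hcont).tendsto (X eps w)).eventually (lt_mem_nhds (by
        simp only [Function.comp_apply]
        rw [hw]
        exact ho.1 b hb)))
  have e5 : ∀ᶠ xi in 𝓝[>] (X eps w), ∀ t ∈ c.t, ori t (pt eps xi w.im) < 0 :=
    RDoorAux.ev_opt fun t htt => mem_nhdsWithin_of_mem_nhds
      ((((continuous_ori t).comp hcont).tendsto (X eps w)).eventually (gt_mem_nhds (by
        simp only [Function.comp_apply]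
        rw [hw]
        exact ho.2 t htt)))
  filter_upwards [e2, e3, e4, e5] with xi f2 f3 f4 f5
  refine ⟨⟨fun p hp => ?_, fun q hq => ?_⟩, f4, f5⟩
  · rw [X_pt, Option.mem_unique hp hv, ← hX]
    exact f2
  · rw [X_pt]
    exact f3 q hq

theorem maxP_of_lt {eps : ℝ} {u : Option ℂ} {v : ℂ} (h : ∀ a ∈ u, X eps a < X eps v ∨ a = v) :
    maxP eps u (some v) = some v := by
  unfold maxP
  rcases u with _ | a
  · rfl
  · simp only [Option.elim]
    rcases h a rfl with h1 | h1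
    · rw [if_pos h1]
    · rw [h1]; simp

end FSuccTAux

open FSuccTAux

theorem IsP.succT {eps : ℝ} {S R R' : Finset Seg} {x : ℂ} (hG : Gen eps S x) (hR : R ⊆ R')
    (hR' : R' ⊆ S) {c1 c1' d1 c2' : Cell} (h1 : IsP eps R R' c1 c1' d1)
    (ht' : trueR d1 = true) (h2 : Valid eps R' c2') (ha : adj c1' c2') :
    ∃ c2 d2, (c2 = c1 ∨ adj c1 c2) ∧ IsP eps R R' c2 c2' d2 ∧ adjB d1 d2 = true ∧
      trueL d2 = true := by
  have hq := (h1.q_eq hG hR hR').1 ht'
  have hreq := h1.reg_eq hG hR hR'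
  obtain ⟨vc, vc', hne, heq⟩ := id h1
  obtain ⟨v, hv, hv', hadj⟩ := ha
  obtain ⟨w, hXw, hwv, ho1, ho2⟩ := wall_pt (hG.mono hR') vc' h2 hv hv' hadj
  obtain ⟨z0, hz0, hz0'⟩ := id hne
  have hz0v : X eps z0 < X eps v := hz0'.1.2 v hv
  have hvq : v ∈ d1.q := by rw [hq]; exact hv
  have hInX : InX eps d1 (X eps v) := by
    have hz0d : z0 ∈ reg eps d1 := by rw [hreq]; exact ⟨hz0, hz0'⟩
    refine ⟨fun p hp => ((hz0d.1.1 p hp).trans hz0v).le, fun q hq' => ?_⟩
    rw [Option.mem_unique hq' hvq]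
  rw [heq, InX_inf] at hInX
  have hoc : OpenBand c1 w := nest_open hG hR hR' vc vc' hne (by rw [hXw]; exact hInX.1)
    (by rw [hXw]; exact hInX.2) ho1
  have hcS : IsCrit S v := (vc'.defd.qC v hv).mono hR'
  have key : ∃ c2, (c2 = c1 ∨ adj c1 c2) ∧ Valid eps R c2 ∧
      (∀ᶠ xi in 𝓝[>] (X eps w), pt eps xi w.im ∈ reg eps c2) ∧
      ∀ a ∈ c2.p, X eps a < X eps v ∨ a = v := by
    by_cases hb : ∀ q ∈ c1.q, X eps v < X eps q
    · refine ⟨c1, Or.inl rfl, vc, ?_, fun a ha => Or.inl ((hz0.1.1 a ha).trans hz0v)⟩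
      have hw1 : w ∈ reg eps c1 := by
        refine ⟨⟨fun p hp => ?_, fun q hq' => ?_⟩, hoc.1, hoc.2⟩
        · rw [hXw]; exact (hz0.1.1 p hp).trans hz0v
        · rw [hXw]; exact hb q hq'
      apply mem_nhdsWithin_of_mem_nhds
      apply (cont_h eps w).continuousAt.preimage_mem_nhds
      rw [pt_eta eps w]
      exact (isOpen_reg eps c1).mem_nhds hw1
    · push Not at hb
      obtain ⟨q, hq1, hq2⟩ := hb
      have hq3 := hInX.1.2 q hq1
      have hqv : q = v := hG.inj q v (((vc.defd.qC q hq1).mono hR).mono hR') hcS (le_antisymm hq2 hq3)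
      rw [hqv] at hq1
      obtain ⟨_, c2, g1, g2, g3, r, hr, g4⟩ :=
        right_door (hG.mono (hR.trans hR')) vc hq1 hXw hwv hoc
      refine ⟨c2, Or.inr g2, g1, ?_, fun a ha => Or.inr (Option.mem_unique ha g3)⟩
      have e1 : ∀ᶠ xi in 𝓝[>] (X eps w), pt eps xi w.im ∈ Metric.ball w r := by
        apply mem_nhdsWithin_of_mem_nhds
        apply (cont_h eps w).continuousAt.preimage_mem_nhds
        rw [pt_eta eps w]
        exact Metric.ball_mem_nhds w hr
      have e2 : ∀ᶠ xi in 𝓝[>] (X eps w), X eps w < xi := self_mem_nhdsWithin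
      filter_upwards [e1, e2] with xi f1 f2
      exact g4 _ f1 (by rw [X_pt]; exact f2)
  obtain ⟨c2, k1, k2, k3, k4⟩ := key
  obtain ⟨xi, m1, m2⟩ := (k3.and (right_reg h2 hv' hXw ho2)).exists
  have hP : IsP eps R R' c2 c2' (infC eps c2 c2') := ⟨k2, h2, ⟨_, m1, m2⟩, rfl⟩
  have hp : (infC eps c2 c2').p = c2'.p := by
    have h3 : c2'.p = some v := hv'
    change maxP eps c2.p c2'.p = c2'.p
    rw [h3]
    exact maxP_of_lt k4
  refine ⟨c2, infC eps c2 c2', k1, hP, ?_, (hP.p_eq hG hR hR').2 hp⟩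
  rw [adjB_iff]
  refine ⟨v, hvq, by rw [hp]; exact hv', ?_⟩
  rw [heq]
  rcases hadj with ⟨g1, g2⟩ | ⟨g1, g2⟩
  · exact Or.inl ⟨g1, fun t htt => (g2 t htt).ne⟩
  · exact Or.inr ⟨g1, fun t htt => (g2 t htt).ne'⟩

end SFA
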