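import Pool.Agent.Lib.SFA.RG1
import Pool.Agent.Lib.SFA.RAlg
import Pool.Agent.Lib.P7m.Top2

/-!
# SFA.Fin1: the two pure parts of the randomised algorithm and their costs
-/

namespace SFA

open P7m Classical

/-- Deterministic part: reading and preprocessing the input; the number of random bits for each
piece and the total number of random bits. -/
noncomputable def part1 (a : ℕ × List ℝ) : (ℕ × (List Seg × ℂ)) × ℕ :=
  ((lvl (2 * a.1), g1 a), (g1 a).1.length * lvl (2 * a.1))

/-- Randomised part. -/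
noncomputable def part2 (p : (ℕ × (List Seg × ℂ)) × List Bool) : List (ℕ ⊕ ℝ) :=
  encOut (algL p.1.1 p.1.2.1 p.1.2.2 p.2)

theorem rc_mul : RC (fun q : ℕ × ℕ => q.1 * q.2) (fun q => q.1) := by
  have hit := RC.iterate (f := fun (q : ℕ × ℕ) s => s + q.2) (b := fun _ : ℕ × ℕ => 0)
    (n := fun q : ℕ × ℕ => q.1) (RC.fst RC.id) (RC.const_nat 0)
    (RC.nadd (RC.snd RC.id) (RC.snd (RC.fst RC.id)))
  refine (hit.of_le (fun q => ?_)).congr (fun q => ?_)
  · have h2 := iterCost_le_const (fun s => s + q.2) (fun _ => 0) 0 q.1 0 (fun _ => le_refl _)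
    simp only [Nat.zero_add, Nat.one_mul] at h2 ⊢
    exact h2
  · have h3 : ∀ k : ℕ, (fun s => s + q.2)^[k] 0 = k * q.2 := by
      intro k
      induction k with
      | zero => simp
      | succ k ih => rw [Function.iterate_succ_apply', ih]; ring
    exact (h3 q.1).symm

theorem parseSegs_length (n : ℕ) : ∀ l : List ℝ, (parseSegs n l).length = n := by
  induction n with
  | zero => intro l; rfl
  | succ n ih => intro l; simp [parseSegs, ih]

theorem rc_part1 : RC part1 (fun a => a.1 * Nat.clog 2 a.1 + a.1) := by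
  have hv : RC (fun q : ℕ × (List Seg × ℂ) => lvl (2 * q.1)) (fun q => q.1) := by
    refine (RC.comp (g := fun N : ℕ => lvl N) rc_lvl (RC.nmulConst 2 (RC.fst RC.id))).mono 2
      (fun q => ?_)
    omega
  have hl : RC (fun q : ℕ × (List Seg × ℂ) => q.2.1.length) (fun q => q.2.1.length) :=
    (RC.length (RC.fst (RC.snd RC.id))).of_le (fun q => by simp)
  have hm : RC (fun q : ℕ × (List Seg × ℂ) => q.2.1.length * lvl (2 * q.1))
      (fun q => q.2.1.length + q.1) := by
    refine (RC.comp (g := fun q : ℕ × ℕ => q.1 * q.2) rc_mul (RC.pair hl hv)).mono 3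
      (fun q => ?_)
    omega
  have h2 : RC (fun q : ℕ × (List Seg × ℂ) =>
      ((lvl (2 * q.1), q.2), q.2.1.length * lvl (2 * q.1))) (fun q => q.2.1.length + q.1) := by
    refine (RC.pair (RC.pair hv (RC.snd RC.id)) hm).mono 3 (fun q => ?_)
    omega
  refine (RC.comp (g := fun q : ℕ × (List Seg × ℂ) =>
    ((lvl (2 * q.1), q.2), q.2.1.length * lvl (2 * q.1))) h2
    (RC.pair (RC.fst RC.id) rc_g1)).mono 4 (fun a => ?_)
  have h3 : (g1 a).1.length ≤ 2 * a.1 := by
    have := pre_length_le (parseSegs a.1 a.2)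
    rwa [parseSegs_length] at this
  have h4 : 0 + (a.1 * Nat.clog 2 a.1 + a.1) + ((g1 a).1.length + a.1) ≤
      4 * (a.1 * Nat.clog 2 a.1 + a.1 + 1) := by omega
  exact h4

theorem rc_part2 : RC part2 (fun p => algCost p.1.1 p.1.2.1 p.1.2.2 p.2) := by
  have h : RC (fun p : (ℕ × (List Seg × ℂ)) × List Bool => (p.1.1, p.1.2, p.2))
      (fun _ => 0) :=
    (RC.pair (RC.fst (RC.fst RC.id)) (RC.pair (RC.snd (RC.fst RC.id)) (RC.snd RC.id))).of_le
      (fun _ => by simp)
  have h2 := RC.comp (g := fun a : ℕ × (List Seg × ℂ) × List Bool =>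
    encOut (algL a.1 a.2.1.1 a.2.1.2 a.2.2)) rc_algL h
  exact h2.of_le (fun p => by simp)

end SFA
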