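import Pool.Agent.Lib.SFA.NoCrit
import Pool.Agent.Lib.SFA.AdjFace

/-!
# SFA.Weak: the axioms of random sampling (L7)

`K = {s in S : confl eps c s}`.
* `inFace_iff`: for `R` a subset of `S`: `c` is in `TF eps R x` iff `Shape eps c`, `Defd R c`, no element
  of `R` conflicts with `c`, and `reg c` is contained in `face R x` (unfold).
* `inFace_mono`: `R'` subset of `R`, `Defd R' c`, `c in TF eps R x` implies `c in TF eps R' x`
  (`face_anti`).
* `defd_mono`.
* `defd_small`: `Defd R c` has a witness subset of at most 6 segments: bottom, top (at most one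
  each), for each wall point: one segment if it is an endpoint, two if it is on two segments
  (`IsCrit` needs only these).  Take `D` = the union of these at most `1+1+2+2` segments
  (`Option.toFinset`), `D subset R`, `Defd D c`.
* `confl_not_defd`: if `c` is in `TF`-shape (`Shape`) and `s` is in the small witness set then `s` does
  not conflict... (not needed: `emp` for `R` gives it).
-/

namespace SFA

open Set Filter Topology

namespace WeakAux

theorem crit_mono {R R' : Finset Seg} (h : R ⊆ R') {v : ℂ} (hv : IsCrit R v) : IsCrit R' v := by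
  rcases hv with ⟨s, hs, h1⟩ | ⟨s, hs, t, ht, h1, h2, h3⟩
  · exact Or.inl ⟨s, h hs, h1⟩
  · exact Or.inr ⟨s, h hs, t, h ht, h1, h2, h3⟩

theorem crit_small {R : Finset Seg} {v : ℂ} (hv : IsCrit R v) :
    ∃ D ⊆ R, D.card ≤ 2 ∧ IsCrit D v := by
  classical
  rcases hv with ⟨s, hs, h1⟩ | ⟨s, hs, t, ht, h1, h2, h3⟩
  · refine ⟨{s}, Finset.singleton_subset_iff.2 hs, by simp, Or.inl ⟨s, by simp, h1⟩⟩
  · refine ⟨{s, t}, ?_, Finset.card_le_two, Or.inr ⟨s, by simp, t, by simp, h1, h2, h3⟩⟩
    intro u hu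
    rw [Finset.mem_insert, Finset.mem_singleton] at hu
    rcases hu with rfl | rfl
    · exact hs
    · exact ht

theorem opt_small {R : Finset Seg} (o : Option ℂ) (h : ∀ p ∈ o, IsCrit R p) :
    ∃ D ⊆ R, D.card ≤ 2 ∧ ∀ p ∈ o, IsCrit D p := by
  cases o with
  | none => exact ⟨∅, Finset.empty_subset _, by simp, fun p hp => by simp at hp⟩
  | some q =>
    obtain ⟨D, h1, h2, h3⟩ := crit_small (h q rfl)
    refine ⟨D, h1, h2, ?_⟩
    intro p hp
    rw [Option.mem_some_iff] at hp
    exact hp ▸ h3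

theorem opt_seg {R : Finset Seg} (o : Option Seg) (h : ∀ b ∈ o, b ∈ R) :
    ∃ D ⊆ R, D.card ≤ 1 ∧ ∀ b ∈ o, b ∈ D := by
  cases o with
  | none => exact ⟨∅, Finset.empty_subset _, by simp, fun p hp => by simp at hp⟩
  | some q =>
    refine ⟨{q}, Finset.singleton_subset_iff.2 (h q rfl), by simp, ?_⟩
    intro p hp
    rw [Option.mem_some_iff] at hp
    exact Finset.mem_singleton.2 hp.symm

end WeakAux

open WeakAux

theorem defd_mono {R R' : Finset Seg} (h : R ⊆ R') {c : Cell} (hc : Defd R c) :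
    Defd R' c :=
  ⟨fun b hb => h (hc.bR b hb), fun t ht => h (hc.tR t ht), fun p hp => crit_mono h (hc.pC p hp),
    fun q hq => crit_mono h (hc.qC q hq)⟩

theorem inFace_mono {eps : ℝ} {R R' : Finset Seg} {x : ℂ} (h : R' ⊆ R) {c : Cell}
    (hc : InFace eps R x c) (hd : Defd R' c) : InFace eps R' x c := by
  refine ⟨⟨hc.1.shape, hd, fun s hs => hc.1.emp s (h hs)⟩, hc.2.trans ?_⟩
  refine connectedComponentIn_mono x ?_
  rw [Set.compl_subset_compl]
  exact Set.biUnion_subset_biUnion_left h

theorem defd_small {R : Finset Seg} {c : Cell} (hc : Defd R c) :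
    ∃ D ⊆ R, D.card ≤ 6 ∧ Defd D c := by
  classical
  obtain ⟨A, a1, a2, a3⟩ := opt_seg c.b hc.bR
  obtain ⟨B, b1, b2, b3⟩ := opt_seg c.t hc.tR
  obtain ⟨P, p1, p2, p3⟩ := opt_small c.p hc.pC
  obtain ⟨Q, q1, q2, q3⟩ := opt_small c.q hc.qC
  refine ⟨(A ∪ B) ∪ (P ∪ Q), Finset.union_subset (Finset.union_subset a1 b1)
    (Finset.union_subset p1 q1), ?_, ?_⟩
  · have h1 := Finset.card_union_le (A ∪ B) (P ∪ Q)
    have h2 := Finset.card_union_le A B
    have h3 := Finset.card_union_le P Q
    omega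
  · refine ⟨fun b hb => ?_, fun t ht => ?_, fun p hp => ?_, fun q hq => ?_⟩
    · exact Finset.mem_union_left _ (Finset.mem_union_left _ (a3 b hb))
    · exact Finset.mem_union_left _ (Finset.mem_union_right _ (b3 t ht))
    · exact crit_mono (Finset.subset_union_left.trans Finset.subset_union_right) (p3 p hp)
    · exact crit_mono (Finset.subset_union_right.trans Finset.subset_union_right) (q3 q hq)

end SFA
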