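import Pool.Agent.Lib.SFA.PDefs
import Pool.Agent.Lib.SFA.CardTF
import Pool.Agent.Lib.SFA.DartFE
import Pool.Agent.Lib.SFA.Weak
import Pool.Agent.Lib.P7b.ThmLP

/-!
# SFA.PGeo: the trapezoids of the face satisfy the axioms of random sampling

`mem_TFf`: `finite_TF`.  `TFf_disj`: `Valid.emp`.  `TFf_small`: `defd_small`, `inFace_mono`, `defd_mono`
(`Gen.mono`).  `card_TFf`: `Set.ncard_eq_toFinset_card`, `card_TF`, `darts_ncard_le`.
`TFf_bound`: `P7b.thmA_lp` (`gen_lp hG`, `hG.xfree`, `P7b.un = U` definitionally).  `card_TFf_empty`: the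
only cell of the empty family is the whole plane (`b`, `t`, `p`, `q` are `none` by `Defd ∅ c`).
`kn_sub`: `K c ∩ R'` is the filter of `R'` if `R' ⊆ S`.
-/

namespace SFA

theorem mem_TFf {eps : ℝ} {R : Finset Seg} {x : ℂ} (hG : Gen eps R x) (c : Cell) :
    c ∈ TFf eps R x ↔ c ∈ TF eps R x := by
  unfold TFf
  rw [dif_pos (finite_TF hG), Set.Finite.mem_toFinset]

open Classical in
theorem TFf_disj {eps : ℝ} {S R : Finset Seg} {x : ℂ} (hG : Gen eps S x) (hR : R ⊆ S) {c : Cell}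
    (hc : c ∈ TFf eps R x) : Disjoint (S.filter (confl eps c)) R := by
  have h := (mem_TFf (hG.mono hR) c).1 hc
  rw [Finset.disjoint_left]
  intro s hs hsR
  exact h.1.emp s hsR (Finset.mem_filter.1 hs).2

theorem TFf_small {eps : ℝ} {S R : Finset Seg} {x : ℂ} (hG : Gen eps S x) (hR : R ⊆ S) {c : Cell}
    (hc : c ∈ TFf eps R x) :
    ∃ D ⊆ R, D.card ≤ 6 ∧ ∀ Q, D ⊆ Q → Q ⊆ R → c ∈ TFf eps Q x := by
  have h := (mem_TFf (hG.mono hR) c).1 hc
  obtain ⟨D, h1, h2, h3⟩ := defd_small h.1.defd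
  refine ⟨D, h1, h2, fun Q hDQ hQR => ?_⟩
  exact (mem_TFf (hG.mono (hQR.trans hR)) c).2 (inFace_mono hQR h (defd_mono hDQ h3))

theorem card_TFf {eps : ℝ} {R : Finset Seg} {x : ℂ} (hG : Gen eps R x) :
    (TFf eps R x).card ≤ 4 * P7b.faceSize R x + 1 := by
  have h1 := card_TF hG
  have h2 := darts_ncard_le hG
  have h3 : (TFf eps R x).card = (TF eps R x).ncard := by
    rw [Set.ncard_eq_toFinset_card _ (finite_TF hG)]
    unfold TFf
    rw [dif_pos (finite_TF hG)]
  omega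

theorem card_TFf_empty (eps : ℝ) (x : ℂ) : (TFf eps ∅ x).card ≤ 1 := by
  unfold TFf
  split_ifs with h
  · have key : ∀ c ∈ TF eps ∅ x, c = ⟨none, none, none, none⟩ := by
      intro c hc
      have hd := hc.1.defd
      have hcr : ∀ v : ℂ, ¬ IsCrit ∅ v := by
        rintro v (⟨s, hs, _⟩ | ⟨s, hs, _⟩)
        · simp at hs
        · simp at hs
      obtain ⟨b, t, p, q⟩ := c
      cases b with
      | some b => exact absurd (hd.bR b rfl) (by simp)
      | none =>
        cases t with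
        | some t => exact absurd (hd.tR t rfl) (by simp)
        | none =>
          cases p with
          | some p => exact absurd (hd.pC p rfl) (hcr p)
          | none =>
            cases q with
            | some q => exact absurd (hd.qC q rfl) (hcr q)
            | none => rfl
    rw [Finset.card_le_one]
    intro a ha b hb
    rw [Set.Finite.mem_toFinset] at ha hb
    rw [key a ha, key b hb]
  · simp

open Classical in
theorem TFf_bound {eps : ℝ} {S : Finset Seg} {x : ℂ} (hG : Gen eps S x) :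
    ∃ X : Seg → Finset Seg, (∀ s ∈ S, X s ⊆ S ∧ s ∉ X s) ∧ ∀ R ⊆ S, ∀ w : ℕ, 1 ≤ w →
      ((TFf eps R x).card : ℝ) ≤ 4 * (2240 * (R.card : ℝ) +
        640 * ((R.card : ℝ) / w * Real.log R.card) + 320 * (1 + Real.log w) *
        (R.filter (fun s => 1 ≤ (R ∩ X s).card ∧ (R ∩ X s).card ≤ w)).card) + 1 := by
  obtain ⟨X, h1, h2⟩ := P7b.thmA_lp (gen_lp hG) (x := x) hG.xfree
  refine ⟨X, h1, fun R hR w hw => ?_⟩
  have h3 := h2 R hR w hw
  have h4 : ((TFf eps R x).card : ℝ) ≤ 4 * (P7b.faceSize R x : ℝ) + 1 := by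
    exact_mod_cast card_TFf (hG.mono hR)
  linarith

open Classical in
theorem kn_sub {eps : ℝ} {S R' : Finset Seg} (h : R' ⊆ S) (c : Cell) :
    (S.filter (confl eps c) ∩ R').card = kn eps R' c := by
  unfold kn
  congr 1
  ext s
  rw [Finset.mem_inter, Finset.mem_filter, Finset.mem_filter]
  exact ⟨fun hs => ⟨hs.2, hs.1.2⟩, fun hs => ⟨⟨h hs.1, hs.2⟩, hs.1⟩⟩

end SFA
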