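import Pool.Agent.Lib.SFA.PDefs

/-!
# SFA.PMom: elementary inequalities

`pow_le_exp`: `(1 + m)^e * (16/17)^m` tends to `0`
(`tendsto_pow_const_mul_const_pow_of_abs_lt_one` for `m + 1`, or
`summable_pow_mul_geometric_of_norm_lt_one`), hence is bounded; take `C` = max of the bound and `1`.
`one_add_le`: Bernoulli `one_add_mul_le_pow`: `(1 + p/8)^k ≥ 1 + k p/8`, and
`(8/p) (1 + k p / 8) = 8/p + k ≥ 1 + k`.
`ratio_le`: `(1 + p/8)^2 = 1 + p/4 + p^2/64 ≤ 1 + p/2 ≤ (1 - p/2)/(1 - p)`.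
`exp_le_two`: `(1 + p/16)^N ≤ exp (p N / 16) ≤ exp (1/16) ≤ 2` (`Real.add_one_le_exp`,
`Real.exp_one_lt_d9`, ...).
-/

namespace SFA

theorem pow_le_exp (e : ℕ) : ∃ C : ℝ, 1 ≤ C ∧ ∀ m : ℕ, (1 + (m : ℝ)) ^ e ≤ C * (17 / 16) ^ m := by
  have h1 : Filter.Tendsto (fun n : ℕ => (n : ℝ) ^ e * (16 / 17 : ℝ) ^ n) Filter.atTop (nhds 0) :=
    tendsto_pow_const_mul_const_pow_of_abs_lt_one e (by rw [abs_of_pos] <;> norm_num)
  obtain ⟨C, hC⟩ := h1.bddAbove_range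
  refine ⟨max 1 (C * (17 / 16)), le_max_left _ _, fun m => ?_⟩
  have h2 : ((m + 1 : ℕ) : ℝ) ^ e * (16 / 17 : ℝ) ^ (m + 1) ≤ C :=
    hC (Set.mem_range_self (m + 1))
  have h3 : (16 / 17 : ℝ) ^ (m + 1) * (17 / 16 : ℝ) ^ (m + 1) = 1 := by
    rw [← mul_pow]; norm_num
  have h4 : (1 + (m : ℝ)) ^ e ≤ C * (17 / 16) ^ (m + 1) := by
    calc (1 + (m : ℝ)) ^ e = ((m + 1 : ℕ) : ℝ) ^ e * ((16 / 17 : ℝ) ^ (m + 1) *
          (17 / 16 : ℝ) ^ (m + 1)) := by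
          rw [h3, mul_one]; push_cast; ring
      _ = (((m + 1 : ℕ) : ℝ) ^ e * (16 / 17 : ℝ) ^ (m + 1)) * (17 / 16 : ℝ) ^ (m + 1) := by ring
      _ ≤ C * (17 / 16) ^ (m + 1) := by
          exact mul_le_mul_of_nonneg_right h2 (by positivity)
  calc (1 + (m : ℝ)) ^ e ≤ C * (17 / 16) ^ (m + 1) := h4
    _ = (C * (17 / 16)) * (17 / 16) ^ m := by ring
    _ ≤ max 1 (C * (17 / 16)) * (17 / 16) ^ m :=
        mul_le_mul_of_nonneg_right (le_max_right _ _) (by positivity)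

theorem one_add_le {p : ℝ} (hp : 0 < p) (hp1 : p ≤ 1) (k : ℕ) :
    1 + (k : ℝ) ≤ 8 / p * (1 + p / 8) ^ k := by
  have h1 : 1 + (k : ℝ) * (p / 8) ≤ (1 + p / 8) ^ k :=
    one_add_mul_le_pow (by linarith) k
  have h2 : 8 / p * (1 + (k : ℝ) * (p / 8)) = 8 / p + k := by
    field_simp
  have h3 : 1 ≤ 8 / p := by
    rw [le_div_iff₀ hp]; linarith
  calc 1 + (k : ℝ) ≤ 8 / p + k := by linarith
    _ = 8 / p * (1 + (k : ℝ) * (p / 8)) := h2.symm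
    _ ≤ 8 / p * (1 + p / 8) ^ k := mul_le_mul_of_nonneg_left h1 (by positivity)

theorem ratio_le {p : ℝ} (hp : 0 < p) (hp1 : p ≤ 1 / 2) :
    (1 + p / 8) * (1 + p / 8) ≤ (1 - p / 2) / (1 - p) := by
  rw [le_div_iff₀ (by linarith)]
  nlinarith [mul_pos hp hp, mul_pos (mul_pos hp hp) hp]

theorem pow_le_two {p : ℝ} (hp : 0 ≤ p) (N : ℕ) (h : p * N ≤ 1) : (1 + p / 16) ^ N ≤ 2 := by
  have h1 : (1 + p / 16) ^ N ≤ (Real.exp (p / 16)) ^ N :=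
    pow_le_pow_left₀ (by linarith) (by linarith [Real.add_one_le_exp (p / 16)]) N
  have h2 : (Real.exp (p / 16)) ^ N = Real.exp (N * (p / 16)) := (Real.exp_nat_mul _ _).symm
  have h3 : Real.exp (N * (p / 16)) ≤ Real.exp (1 / 16) := by
    apply Real.exp_le_exp.2
    linarith
  have h4 : Real.exp (1 / 16) ≤ 2 := by
    have h5 : Real.exp (1 / 16) ^ 16 ≤ (2 : ℝ) ^ 16 := by
      rw [← Real.exp_nat_mul]
      have h6 : Real.exp (((16 : ℕ) : ℝ) * (1 / 16)) = Real.exp 1 := by norm_num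
      rw [h6]
      have := Real.exp_one_lt_d9
      norm_num
      linarith
    exact le_of_pow_le_pow_left₀ (by norm_num) (by norm_num) h5
  linarith [h1, h2 ▸ h3]

end SFA
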