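import Pool.Agent.Lib.SFA.PCS
import Pool.Agent.Lib.SFA.PMom

/-!
# SFA.PRound: the expected cost of one round, abstractly

`lam = 17/16`, `N = S.card`.
`round_bound`: by `EB2_swap` (with `a = b = p`) the left side is
`∑ Q ∈ S.powerset, p ^ Q.card * ∑ c ∈ T Q, (1 + |K c|) * ∑ T' ∈ (S \ Q).powerset, p ^ T'.card *
  (1 - 2p) ^ (|S \ Q| - |T'|) * (1 + |K c ∩ (Q ∪ T')|) ^ e`.
Since `K c` is disjoint from `Q`, `K c ∩ (Q ∪ T') = K c ∩ T'`; `(1 + m)^e ≤ Ce lam^m`; the inner sum is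
`≤ Ce * ∑ T' ∈ A.powerset, p ^ |T'| (1 - 2p) ^ (|A| - |T'|) lam ^ |K c ∩ T'|`, `A = S \ Q`, `K c ⊆ A`, and this is
`Ce * (1 - 2p + lam p) ^ |K c| * (1 - p) ^ (|A| - |K c|)` (write `T' = T1 ∪ T2` or use
`Finset.prod_add` for the functions `fun s => p * (if s ∈ K c then lam else 1)` and `fun _ => 1 - 2p`; this is
the lemma `sum_lam` below).  Since `1 - 2p + lam p = (1 - p) + p/16 ≤ (1 - p)(1 + p/8)` (`p ≤ 1/2`), it is
`≤ Ce (1 - p) ^ |A| (1 + p/8) ^ |K c|`.  With `one_add_le` and `ratio_le`,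
`(1 + k) (1 + p/8)^k ≤ (8/p) ((1 + p/8)^2)^k ≤ (8/p) ((1 - p/2)/(1 - p))^k`.  So the left side is
`≤ (8 Ce / p) EB p S (fun R => ∑ c ∈ T R, ((1 - p/2)/(1-p)) ^ (K c).card)`, and
`clarkson_shor` gives the claim.
`round_zero`: in `EB2_swap` with `a = 0` only `Q = ∅` contributes (`0 ^ Q.card`), for the cells `c ∈ T ∅`:
`(1 + |K c|) ≤ 1 + N` and by `sum_lam` with `b = p`: the inner sum is
`≤ Ce (1 - p + lam p) ^ |K c| * 1 ^ (..) = Ce (1 + p/16) ^ |K c| ≤ 2 Ce` (`pow_le_two`, `|K c| ≤ N`).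
-/

namespace SFA

variable {α β : Type} [DecidableEq α] [DecidableEq β]

theorem sum_lam (b r lam : ℝ) {A K : Finset α} (hK : K ⊆ A) :
    ∑ T ∈ A.powerset, b ^ T.card * r ^ (A.card - T.card) * lam ^ (K ∩ T).card =
      (b * lam + r) ^ K.card * (b + r) ^ (A.card - K.card) := by
  have h1 := Finset.prod_add (fun i : α => b * (if i ∈ K then lam else 1)) (fun _ : α => r) A
  have h2 : ∏ i ∈ A, (b * (if i ∈ K then lam else 1) + r) =
      (b * lam + r) ^ K.card * (b + r) ^ (A.card - K.card) := by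
    rw [← Finset.prod_sdiff hK]
    have e1 : ∏ x ∈ A \ K, (b * (if x ∈ K then lam else 1) + r) = (b + r) ^ (A.card - K.card) := by
      rw [Finset.prod_congr rfl (g := fun _ => b + r)]
      · rw [Finset.prod_const, Finset.card_sdiff_of_subset hK]
      · intro x hx
        rw [if_neg (Finset.mem_sdiff.1 hx).2, mul_one]
    have e2 : ∏ x ∈ K, (b * (if x ∈ K then lam else 1) + r) = (b * lam + r) ^ K.card := by
      rw [Finset.prod_congr rfl (g := fun _ => b * lam + r)]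
      · rw [Finset.prod_const]
      · intro x hx
        rw [if_pos hx]
    rw [e1, e2, mul_comm]
  rw [← h2, h1]
  refine Finset.sum_congr rfl fun T hT => ?_
  rw [Finset.mem_powerset] at hT
  rw [Finset.prod_mul_distrib, Finset.prod_const, Finset.prod_const,
    Finset.card_sdiff_of_subset hT, Finset.prod_ite, Finset.prod_const, Finset.prod_const_one,
    mul_one]
  have e3 : T.filter (fun x => x ∈ K) = K ∩ T := by
    ext x
    simp [and_comm]
  rw [e3]
  ring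

namespace PRoundAux

/-- the inner sum for one cell -/
theorem inner {A K : Finset α} (hK : K ⊆ A) (e : ℕ) (Ce : ℝ)
    (hCe : ∀ m : ℕ, (1 + (m : ℝ)) ^ e ≤ Ce * (17 / 16) ^ m) {b r : ℝ} (hb : 0 ≤ b) (hr : 0 ≤ r) :
    ∑ T ∈ A.powerset, b ^ T.card * r ^ (A.card - T.card) * (1 + ((K ∩ T).card : ℝ)) ^ e ≤
      Ce * ((b * (17 / 16) + r) ^ K.card * (b + r) ^ (A.card - K.card)) := by
  rw [← sum_lam b r (17 / 16) hK, Finset.mul_sum]
  refine Finset.sum_le_sum fun T _ => ?_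
  have h1 := mul_le_mul_of_nonneg_left (hCe (K ∩ T).card)
    (mul_nonneg (pow_nonneg hb T.card) (pow_nonneg hr (A.card - T.card)))
  refine h1.trans (le_of_eq ?_)
  ring

/-- the numerical estimate for one cell -/
theorem cell_le {p : ℝ} (hp : 0 < p) (hp1 : p ≤ 1 / 2) {k a : ℕ} (hk : k ≤ a) :
    (1 + (k : ℝ)) * ((p * (17 / 16) + (1 - p - p)) ^ k * (p + (1 - p - p)) ^ (a - k)) ≤
      8 / p * (((1 - p / 2) / (1 - p)) ^ k * (1 - p) ^ a) := by
  have hq : 0 < 1 - p := by linarith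
  have h0 : 0 ≤ p * (17 / 16) + (1 - p - p) := by linarith
  have h1 : p * (17 / 16) + (1 - p - p) ≤ (1 - p) * (1 + p / 8) := by nlinarith
  have h2 : (p * (17 / 16) + (1 - p - p)) ^ k ≤ ((1 - p) * (1 + p / 8)) ^ k :=
    pow_le_pow_left₀ h0 h1 k
  have h3 := one_add_le hp (by linarith) k
  have h4 : ((1 + p / 8) * (1 + p / 8)) ^ k ≤ ((1 - p / 2) / (1 - p)) ^ k :=
    pow_le_pow_left₀ (by positivity) (ratio_le hp hp1) k
  have h5 : p + (1 - p - p) = 1 - p := by ring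
  rw [h5]
  have h6 : (1 - p) ^ a = (1 - p) ^ k * (1 - p) ^ (a - k) := by
    rw [← pow_add, Nat.add_sub_cancel' hk]
  have h8p : (0 : ℝ) ≤ 8 / p := by positivity
  calc (1 + (k : ℝ)) * ((p * (17 / 16) + (1 - p - p)) ^ k * (1 - p) ^ (a - k))
      ≤ (8 / p * (1 + p / 8) ^ k) * (((1 - p) * (1 + p / 8)) ^ k * (1 - p) ^ (a - k)) := by
        refine mul_le_mul h3 (mul_le_mul_of_nonneg_right h2 (pow_nonneg hq.le _)) ?_ ?_
        · exact mul_nonneg (pow_nonneg h0 _) (pow_nonneg hq.le _)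
        · positivity
    _ = 8 / p * (((1 + p / 8) * (1 + p / 8)) ^ k * (1 - p) ^ a) := by
        rw [h6, mul_pow, mul_pow]
        ring
    _ ≤ 8 / p * (((1 - p / 2) / (1 - p)) ^ k * (1 - p) ^ a) :=
        mul_le_mul_of_nonneg_left (mul_le_mul_of_nonneg_right h4 (pow_nonneg hq.le _)) h8p

omit [DecidableEq β] in
/-- exchange of the sums over the cells and the random sets -/
theorem swap_sum {A Q : Finset α} (b r : ℝ) (C : Finset β) (K : β → Finset α) (e : ℕ) (w : ℝ)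
    (hd : ∀ c ∈ C, Disjoint (K c) Q) :
    ∑ T' ∈ A.powerset, w * b ^ T'.card * r ^ (A.card - T'.card) *
        (∑ c ∈ C, (1 + ((K c).card : ℝ)) * (1 + ((K c ∩ (Q ∪ T')).card : ℝ)) ^ e) =
      w * ∑ c ∈ C, (1 + ((K c).card : ℝ)) *
        ∑ T' ∈ A.powerset, b ^ T'.card * r ^ (A.card - T'.card) *
          (1 + ((K c ∩ T').card : ℝ)) ^ e := by
  have h1 : ∀ T' : Finset α, w * b ^ T'.card * r ^ (A.card - T'.card) *
        (∑ c ∈ C, (1 + ((K c).card : ℝ)) * (1 + ((K c ∩ (Q ∪ T')).card : ℝ)) ^ e) =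
      ∑ c ∈ C, w * ((1 + ((K c).card : ℝ)) * (b ^ T'.card * r ^ (A.card - T'.card) *
          (1 + ((K c ∩ T').card : ℝ)) ^ e)) := by
    intro T'
    rw [Finset.mul_sum]
    refine Finset.sum_congr rfl fun c hc => ?_
    have h2 : K c ∩ (Q ∪ T') = K c ∩ T' := by
      rw [Finset.inter_union_distrib_left, Finset.disjoint_iff_inter_eq_empty.1 (hd c hc),
        Finset.empty_union]
    rw [h2]
    ring
  rw [Finset.sum_congr rfl fun T' _ => h1 T', Finset.sum_comm, Finset.mul_sum]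
  refine Finset.sum_congr rfl fun c _ => ?_
  rw [Finset.mul_sum, Finset.mul_sum]

end PRoundAux

open PRoundAux

theorem round_bound (S : Finset α) (T : Finset α → Finset β) (K : β → Finset α)
    (hK : ∀ c, K c ⊆ S) (h1 : ∀ R ⊆ S, ∀ c ∈ T R, Disjoint (K c) R)
    (h2 : ∀ R ⊆ S, ∀ c ∈ T R, ∃ D ⊆ R, D.card ≤ 6 ∧ ∀ Q, D ⊆ Q → Q ⊆ R → c ∈ T Q)
    (e : ℕ) (Ce : ℝ) (hC : 1 ≤ Ce) (hCe : ∀ m : ℕ, (1 + (m : ℝ)) ^ e ≤ Ce * (17 / 16) ^ m)
    {p : ℝ} (hp : 0 < p) (hp1 : p ≤ 1 / 2) :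
    EB2 p p S (fun R R' => ∑ c ∈ T R, (1 + ((K c).card : ℝ)) * (1 + ((K c ∩ R').card : ℝ)) ^ e) ≤
      512 * Ce / p * EB (p / 2) S (fun Q => ((T Q).card : ℝ)) := by
  have hr : 0 ≤ 1 - p - p := by linarith
  have hq : 0 ≤ 1 - p := by linarith
  have hCe0 : 0 ≤ Ce := by linarith
  have h3 : EB2 p p S (fun R R' => ∑ c ∈ T R, (1 + ((K c).card : ℝ)) *
      (1 + ((K c ∩ R').card : ℝ)) ^ e) ≤
      8 * Ce / p * EB p S (fun R => ∑ c ∈ T R, ((1 - p / 2) / (1 - p)) ^ (K c).card) := by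
    rw [EB2_swap]
    unfold EB
    rw [Finset.mul_sum]
    refine Finset.sum_le_sum fun Q hQ => ?_
    rw [Finset.mem_powerset] at hQ
    rw [swap_sum p (1 - p - p) (T Q) K e (p ^ Q.card) (h1 Q hQ)]
    have hA : (S \ Q).card = S.card - Q.card := Finset.card_sdiff_of_subset hQ
    have h4 : ∀ c ∈ T Q, (1 + ((K c).card : ℝ)) *
        (∑ T' ∈ (S \ Q).powerset, p ^ T'.card * (1 - p - p) ^ ((S \ Q).card - T'.card) *
          (1 + ((K c ∩ T').card : ℝ)) ^ e) ≤
        8 * Ce / p * ((1 - p) ^ (S.card - Q.card) * ((1 - p / 2) / (1 - p)) ^ (K c).card) := by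
      intro c hc
      have hKA : K c ⊆ S \ Q := by
        intro x hx
        exact Finset.mem_sdiff.2 ⟨hK c hx, fun hxQ => Finset.disjoint_left.1 (h1 Q hQ c hc) hx hxQ⟩
      have h5 := inner hKA e Ce hCe hp.le hr
      have h6 := cell_le hp hp1 (Finset.card_le_card hKA)
      calc (1 + ((K c).card : ℝ)) *
          (∑ T' ∈ (S \ Q).powerset, p ^ T'.card * (1 - p - p) ^ ((S \ Q).card - T'.card) *
            (1 + ((K c ∩ T').card : ℝ)) ^ e)
          ≤ (1 + ((K c).card : ℝ)) * (Ce * ((p * (17 / 16) + (1 - p - p)) ^ (K c).card *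
            (p + (1 - p - p)) ^ ((S \ Q).card - (K c).card))) :=
            mul_le_mul_of_nonneg_left h5 (by positivity)
        _ = Ce * ((1 + ((K c).card : ℝ)) * ((p * (17 / 16) + (1 - p - p)) ^ (K c).card *
            (p + (1 - p - p)) ^ ((S \ Q).card - (K c).card))) := by ring
        _ ≤ Ce * (8 / p * (((1 - p / 2) / (1 - p)) ^ (K c).card * (1 - p) ^ (S \ Q).card)) :=
            mul_le_mul_of_nonneg_left h6 hCe0
        _ = 8 * Ce / p * ((1 - p) ^ (S.card - Q.card) *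
            ((1 - p / 2) / (1 - p)) ^ (K c).card) := by
            rw [hA]
            ring
    calc p ^ Q.card * ∑ c ∈ T Q, (1 + ((K c).card : ℝ)) *
          (∑ T' ∈ (S \ Q).powerset, p ^ T'.card * (1 - p - p) ^ ((S \ Q).card - T'.card) *
            (1 + ((K c ∩ T').card : ℝ)) ^ e)
        ≤ p ^ Q.card * ∑ c ∈ T Q, 8 * Ce / p * ((1 - p) ^ (S.card - Q.card) *
            ((1 - p / 2) / (1 - p)) ^ (K c).card) :=
          mul_le_mul_of_nonneg_left (Finset.sum_le_sum h4) (pow_nonneg hp.le _)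
      _ = 8 * Ce / p * (p ^ Q.card * (1 - p) ^ (S.card - Q.card) *
            ∑ c ∈ T Q, ((1 - p / 2) / (1 - p)) ^ (K c).card) := by
          rw [← Finset.mul_sum, ← Finset.mul_sum]
          ring
  have h7 := clarkson_shor S T K hK h1 h2 hp hp1
  have h8 : 0 ≤ 8 * Ce / p := by positivity
  refine h3.trans ((mul_le_mul_of_nonneg_left h7 h8).trans (le_of_eq ?_))
  ring

theorem round_zero (S : Finset α) (T : Finset α → Finset β) (K : β → Finset α)
    (hK : ∀ c, K c ⊆ S)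
    (e : ℕ) (Ce : ℝ) (hC : 1 ≤ Ce) (hCe : ∀ m : ℕ, (1 + (m : ℝ)) ^ e ≤ Ce * (17 / 16) ^ m)
    {p : ℝ} (hp : 0 < p) (hp1 : p ≤ 1) (hpS : p * S.card ≤ 1) :
    EB2 0 p S (fun R R' => ∑ c ∈ T R, (1 + ((K c).card : ℝ)) * (1 + ((K c ∩ R').card : ℝ)) ^ e) ≤
      2 * Ce * (1 + (S.card : ℝ)) * ((T ∅).card : ℝ) := by
  have hr : 0 ≤ 1 - 0 - p := by linarith
  have hCe0 : 0 ≤ Ce := by linarith
  rw [EB2_swap]
  rw [Finset.sum_eq_single (∅ : Finset α)]
  · rw [swap_sum p (1 - 0 - p) (T ∅) K e (0 ^ (∅ : Finset α).card)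
      (fun c _ => Finset.disjoint_empty_right _)]
    rw [Finset.card_empty, pow_zero, one_mul, Finset.sdiff_empty]
    have h4 : ∀ c ∈ T ∅, (1 + ((K c).card : ℝ)) *
        (∑ T' ∈ S.powerset, p ^ T'.card * (1 - 0 - p) ^ (S.card - T'.card) *
          (1 + ((K c ∩ T').card : ℝ)) ^ e) ≤ 2 * Ce * (1 + (S.card : ℝ)) := by
      intro c _
      have h5 := inner (hK c) e Ce hCe hp.le hr
      have hcard : (K c).card ≤ S.card := Finset.card_le_card (hK c)
      have hcard' : ((K c).card : ℝ) ≤ (S.card : ℝ) := by exact_mod_cast hcard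
      have h6 : (p * (17 / 16) + (1 - 0 - p)) ^ (K c).card ≤ 2 := by
        have h7 := pow_le_two hp.le (K c).card
          ((mul_le_mul_of_nonneg_left hcard' hp.le).trans hpS)
        have h8 : p * (17 / 16) + (1 - 0 - p) = 1 + p / 16 := by ring
        rw [h8]
        exact h7
      have h9 : p + (1 - 0 - p) = 1 := by ring
      rw [h9, one_pow, mul_one] at h5
      calc (1 + ((K c).card : ℝ)) *
          (∑ T' ∈ S.powerset, p ^ T'.card * (1 - 0 - p) ^ (S.card - T'.card) *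
            (1 + ((K c ∩ T').card : ℝ)) ^ e)
          ≤ (1 + (S.card : ℝ)) * (Ce * 2) := by
            refine mul_le_mul (by linarith) (h5.trans (mul_le_mul_of_nonneg_left h6 hCe0)) ?_
              (by positivity)
            exact Finset.sum_nonneg fun T' _ => mul_nonneg (mul_nonneg (pow_nonneg hp.le _)
              (pow_nonneg hr _)) (by positivity)
        _ = 2 * Ce * (1 + (S.card : ℝ)) := by ring
    refine (Finset.sum_le_sum h4).trans (le_of_eq ?_)
    rw [Finset.sum_const, nsmul_eq_mul]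
    ring
  · intro Q _ hQ
    refine Finset.sum_eq_zero fun T' _ => ?_
    have : Q.card ≠ 0 := fun h => hQ (Finset.card_eq_zero.1 h)
    rw [zero_pow this]
    ring
  · intro h
    exact absurd (Finset.empty_mem_powerset S) h

end SFA
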