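import Pool.Agent.Lib.SFA.PBin

/-!
# SFA.PSum: the sum over the scales of the expected complexity

`N = S.card`, `w = L + 1`.  `N ≤ 2^L` gives `log N ≤ L log 2 ≤ w`, so for `R ⊆ S` (`log R.card ≤ log N`,
also for `R = ∅` where both factors vanish):
`(R.card / w) log R.card ≤ R.card`, hence
`t R ≤ 11520 * R.card + 1280 * (1 + log w) * light R + 1` with
`light R = ∑ s ∈ S, if s ∈ R then (if 1 ≤ (R ∩ X s).card ∧ (R ∩ X s).card ≤ w then 1 else 0) else 0`
(`Finset.card_filter`, `R ⊆ S`).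
`EB_mono`, `EB_add`, `EB_mul_left`, `EB_card`, `EB_sum`, `EB_mem` (for `g R = if 1 ≤ R.card ∧ R.card ≤ w ...`)
with `p = 1/2^j`: `2^j EB p S t ≤ 11520 N + 1280 (1 + log w) ∑ s ∈ S, EB p (X s) g + 2^j`.
Sum over `j < L + 2`, `sum_window`, `∑ 2^j ≤ 2^(L+2) = 4 2^L`, `N ≤ 2^L`:
`≤ 11520 N (L + 2) + 1280 (1 + log w) N (clog 2 w + 6) + 4 2^L`.
Finally `log_mul_clog`: `(1 + log w) (clog 2 w + 6) ≤ 20 w` with `w = L + 1`, and `L + 2 ≤ 2 (L + 1)`:
total `≤ (23040 + 25600 + 4) 2^L (L + 1)`.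
`log_mul_clog`: `1 + log w ≤ 2 sqrt w` (`log w = 2 log (sqrt w) ≤ 2 (sqrt w - 1)`), and
`clog 2 w ≤ log w / log 2 + 1` (`2^(clog 2 w - 1) < w` for `w ≥ 2`, `Nat.pow_pred_clog_lt_self`), so
`clog 2 w + 6 ≤ (2 sqrt w - 2) / log 2 + 7 ≤ 10 sqrt w` (`log 2 ≥ 0.69`,
`2 / 0.69 < 3`: `(2 sqrt w - 2)/log 2 ≤ 3 (sqrt w - 1)` and `3 sqrt w + 4 ≤ 10 sqrt w`).
-/

namespace SFA

variable {α : Type} [DecidableEq α]

theorem log_mul_clog (w : ℕ) (hw : 1 ≤ w) :
    (1 + Real.log w) * ((Nat.clog 2 w : ℝ) + 6) ≤ 20 * w := by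
  have hw1 : (1 : ℝ) ≤ (w : ℝ) := by exact_mod_cast hw
  have hw0 : (0 : ℝ) < (w : ℝ) := by linarith
  set s := Real.sqrt (w : ℝ) with hs
  have hs1 : 1 ≤ s := by
    rw [hs]
    exact Real.one_le_sqrt.mpr hw1
  have hss : s * s = (w : ℝ) := Real.mul_self_sqrt hw0.le
  have hlog : Real.log w = 2 * Real.log s := by
    rw [← hss, Real.log_mul (by positivity) (by positivity)]
    ring
  have hls : Real.log s ≤ s - 1 := Real.log_le_sub_one_of_pos (by positivity)
  have hls0 : 0 ≤ Real.log s := Real.log_nonneg hs1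
  have hl2 : (0.69 : ℝ) < Real.log 2 := by
    have := Real.log_two_gt_d9
    linarith
  have hcl : (Nat.clog 2 w : ℝ) ≤ 3 * (s - 1) + 1 := by
    rcases Nat.lt_or_ge w 2 with h2 | h2
    · have : Nat.clog 2 w = 0 := Nat.clog_of_right_le_one (by omega) 2
      rw [this]
      push_cast
      linarith
    · have hlt : 2 ^ (Nat.clog 2 w).pred < w := Nat.pow_pred_clog_lt_self (by norm_num) (by omega)
      have hpos : 0 < Nat.clog 2 w := Nat.clog_pos (by norm_num) h2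
      obtain ⟨k, hk⟩ : ∃ k, Nat.clog 2 w = k + 1 := ⟨Nat.clog 2 w - 1, by omega⟩
      rw [hk] at hlt ⊢
      simp only [Nat.pred_succ, Nat.succ_eq_add_one] at hlt
      have hlt' : (2 : ℝ) ^ k < (w : ℝ) := by exact_mod_cast hlt
      have hll : (k : ℝ) * Real.log 2 ≤ Real.log w := by
        rw [← Real.log_pow]
        exact Real.log_le_log (by positivity) hlt'.le
      push_cast
      have h3 : (k : ℝ) * 0.69 ≤ 2 * (s - 1) := by
        have hk0 : (0 : ℝ) ≤ (k : ℝ) := Nat.cast_nonneg k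
        nlinarith
      linarith
  have h1 : 1 + Real.log w ≤ 2 * s - 1 := by rw [hlog]; linarith
  have h2 : (Nat.clog 2 w : ℝ) + 6 ≤ 3 * s + 4 := by linarith
  have h0 : 0 ≤ 1 + Real.log w := by rw [hlog]; linarith
  have h3 : 0 ≤ (Nat.clog 2 w : ℝ) + 6 := by positivity
  calc (1 + Real.log w) * ((Nat.clog 2 w : ℝ) + 6) ≤ (2 * s - 1) * (3 * s + 4) := by
        apply mul_le_mul h1 h2 h3
        linarith
    _ ≤ 20 * w := by
        rw [← hss]
        nlinarith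

theorem sum_scales (S : Finset α) (X : α → Finset α) (hX : ∀ s ∈ S, X s ⊆ S ∧ s ∉ X s)
    (t : Finset α → ℝ) (L : ℕ) (hL : S.card ≤ 2 ^ L)
    (ht : ∀ R ⊆ S, ∀ w : ℕ, 1 ≤ w → t R ≤ 4 * (2240 * (R.card : ℝ) +
      640 * ((R.card : ℝ) / w * Real.log R.card) + 320 * (1 + Real.log w) *
      (R.filter (fun s => 1 ≤ (R ∩ X s).card ∧ (R ∩ X s).card ≤ w)).card) + 1) :
    ∑ j ∈ Finset.range (L + 2), 2 ^ j * EB (1 / 2 ^ j) S t ≤ 50000 * (2 ^ L * (L + 1)) := by
  classical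
  set w : ℕ := L + 1 with hw
  have hw1 : 1 ≤ w := by omega
  set K : ℝ := 1 + Real.log w with hK
  have hwR : (1 : ℝ) ≤ (w : ℝ) := by exact_mod_cast hw1
  have hK0 : 0 ≤ K := by
    have := Real.log_nonneg hwR
    rw [hK]; linarith
  set g : Finset α → ℝ := fun Q => if 1 ≤ Q.card ∧ Q.card ≤ w then (1 : ℝ) else 0 with hg
  -- pointwise bound
  have hpt : ∀ R ⊆ S, t R ≤ 11520 * (R.card : ℝ) +
      (1280 * K) * (∑ s ∈ S, (if s ∈ R then g (R ∩ X s) else 0)) + 1 * 1 := by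
    intro R hR
    have h1 := ht R hR w hw1
    have hlight : ((R.filter (fun s => 1 ≤ (R ∩ X s).card ∧ (R ∩ X s).card ≤ w)).card : ℝ)
        = ∑ s ∈ S, (if s ∈ R then g (R ∩ X s) else 0) := by
      have hSR : S.filter (fun s => s ∈ R) = R := by
        ext a
        simp only [Finset.mem_filter]
        exact ⟨fun h => h.2, fun h => ⟨hR h, h⟩⟩
      have h5 : ∑ s ∈ S, (if s ∈ R then g (R ∩ X s) else 0) = ∑ s ∈ R, g (R ∩ X s) := by
        rw [← Finset.sum_filter, hSR]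
      rw [h5, Finset.card_filter, Nat.cast_sum]
      apply Finset.sum_congr rfl
      intro s _
      rw [hg]
      simp only
      split_ifs <;> simp
    have hlogb : (R.card : ℝ) / w * Real.log R.card ≤ (R.card : ℝ) := by
      rcases Nat.eq_zero_or_pos R.card with h0 | hpos
      · rw [h0]; simp
      · have hRc : (1 : ℝ) ≤ (R.card : ℝ) := by exact_mod_cast hpos
        have hle : R.card ≤ 2 ^ L := (Finset.card_le_card hR).trans hL
        have hleR : (R.card : ℝ) ≤ 2 ^ L := by exact_mod_cast hle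
        have hl : Real.log R.card ≤ (w : ℝ) := by
          calc Real.log R.card ≤ Real.log ((2 : ℝ) ^ L) := Real.log_le_log (by linarith) hleR
            _ = L * Real.log 2 := by rw [Real.log_pow]
            _ ≤ L * 1 := by
                apply mul_le_mul_of_nonneg_left _ (Nat.cast_nonneg L)
                have := Real.log_two_lt_d9
                linarith
            _ ≤ (w : ℝ) := by rw [hw]; push_cast; linarith
        calc (R.card : ℝ) / w * Real.log R.card ≤ (R.card : ℝ) / w * w := by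
              apply mul_le_mul_of_nonneg_left hl
              positivity
          _ = (R.card : ℝ) := by field_simp
    rw [hlight] at h1
    nlinarith [h1, hlogb]
  -- expectation bound at one scale
  have hEB : ∀ j : ℕ, 2 ^ j * EB (1 / 2 ^ j) S t ≤ 11520 * (S.card : ℝ) +
      (1280 * K) * (∑ s ∈ S, EB (1 / 2 ^ j) (X s) g) + 2 ^ j := by
    intro j
    have hp0 : (0 : ℝ) ≤ 1 / 2 ^ j := by positivity
    have hp1 : (1 : ℝ) / 2 ^ j ≤ 1 := by
      rw [div_le_one (by positivity)]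
      exact one_le_pow₀ (by norm_num)
    have h1 := EB_mono hp0 hp1 hpt
    rw [EB_add, EB_add, EB_mul_left, EB_mul_left, EB_mul_left, EB_card, EB_one, EB_sum] at h1
    have h2 : ∑ s ∈ S, EB (1 / 2 ^ j) S (fun R => if s ∈ R then g (R ∩ X s) else 0)
        = (1 / 2 ^ j) * ∑ s ∈ S, EB (1 / 2 ^ j) (X s) g := by
      rw [Finset.mul_sum]
      apply Finset.sum_congr rfl
      intro s hs
      exact EB_mem (1 / 2 ^ j) (hX s hs).1 hs (hX s hs).2 g
    rw [h2] at h1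
    have h2j : (0 : ℝ) < 2 ^ j := by positivity
    calc 2 ^ j * EB (1 / 2 ^ j) S t ≤ 2 ^ j * (11520 * (1 / 2 ^ j * (S.card : ℝ)) +
          (1280 * K) * ((1 / 2 ^ j) * ∑ s ∈ S, EB (1 / 2 ^ j) (X s) g) + 1 * 1) :=
          mul_le_mul_of_nonneg_left h1 h2j.le
      _ = 11520 * (S.card : ℝ) + (1280 * K) * (∑ s ∈ S, EB (1 / 2 ^ j) (X s) g) + 2 ^ j := by
          field_simp
  have hwin : ∑ j ∈ Finset.range (L + 2), ∑ s ∈ S, EB (1 / 2 ^ j) (X s) g ≤
      (S.card : ℝ) * ((Nat.clog 2 w : ℝ) + 6) := by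
    rw [Finset.sum_comm]
    calc ∑ s ∈ S, ∑ j ∈ Finset.range (L + 2), EB (1 / 2 ^ j) (X s) g
        ≤ ∑ s ∈ S, ((Nat.clog 2 w : ℝ) + 6) :=
          Finset.sum_le_sum (fun s _ => sum_window (X s) w (L + 2) hw1)
      _ = (S.card : ℝ) * ((Nat.clog 2 w : ℝ) + 6) := by
          rw [Finset.sum_const, nsmul_eq_mul]
  have hgeo : ∑ j ∈ Finset.range (L + 2), (2 : ℝ) ^ j ≤ 4 * (2 : ℝ) ^ L := by
    have h1 : ∑ j ∈ Finset.range (L + 2), (2 : ℝ) ^ j = 2 ^ (L + 2) - 1 := by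
      rw [geom_sum_eq (by norm_num)]
      norm_num
    rw [h1, pow_add]
    linarith
  have hlc := log_mul_clog w hw1
  have hNr : (S.card : ℝ) ≤ 2 ^ L := by exact_mod_cast hL
  calc ∑ j ∈ Finset.range (L + 2), 2 ^ j * EB (1 / 2 ^ j) S t
      ≤ ∑ j ∈ Finset.range (L + 2), (11520 * (S.card : ℝ) +
        (1280 * K) * (∑ s ∈ S, EB (1 / 2 ^ j) (X s) g) + 2 ^ j) :=
        Finset.sum_le_sum (fun j _ => hEB j)
    _ = (L + 2) * (11520 * (S.card : ℝ)) + (1280 * K) *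
        (∑ j ∈ Finset.range (L + 2), ∑ s ∈ S, EB (1 / 2 ^ j) (X s) g) +
        ∑ j ∈ Finset.range (L + 2), (2 : ℝ) ^ j := by
        have hms : ∑ j ∈ Finset.range (L + 2), (1280 * K) * (∑ s ∈ S, EB (1 / 2 ^ j) (X s) g) =
            (1280 * K) * ∑ j ∈ Finset.range (L + 2), ∑ s ∈ S, EB (1 / 2 ^ j) (X s) g :=
          (Finset.mul_sum _ _ _).symm
        rw [Finset.sum_add_distrib, Finset.sum_add_distrib, hms, Finset.sum_const,
          Finset.card_range, nsmul_eq_mul]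
        push_cast
        rfl
    _ ≤ (L + 2) * (11520 * (S.card : ℝ)) + (1280 * K) *
        ((S.card : ℝ) * ((Nat.clog 2 w : ℝ) + 6)) + 4 * (2 : ℝ) ^ L := by
        have := mul_le_mul_of_nonneg_left hwin (by positivity : (0 : ℝ) ≤ 1280 * K)
        linarith
    _ = (L + 2) * (11520 * (S.card : ℝ)) + 1280 * (S.card : ℝ) *
        (K * ((Nat.clog 2 w : ℝ) + 6)) + 4 * (2 : ℝ) ^ L := by ring
    _ ≤ (L + 2) * (11520 * (S.card : ℝ)) + 1280 * (S.card : ℝ) *
        (20 * w) + 4 * (2 : ℝ) ^ L := by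
        have := mul_le_mul_of_nonneg_left hlc (by positivity : (0 : ℝ) ≤ 1280 * (S.card : ℝ))
        linarith
    _ ≤ 50000 * (2 ^ L * (L + 1)) := by
        have hwc : (w : ℝ) = (L : ℝ) + 1 := by rw [hw]; push_cast; ring
        rw [hwc]
        have hL0 : (0 : ℝ) ≤ (L : ℝ) := Nat.cast_nonneg L
        have h1 := mul_le_mul_of_nonneg_right hNr (by linarith : (0 : ℝ) ≤ (L : ℝ) + 2)
        have h2 := mul_le_mul_of_nonneg_right hNr (by linarith : (0 : ℝ) ≤ (L : ℝ) + 1)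
        have h3 : (0 : ℝ) ≤ 2 ^ L * L := by positivity
        nlinarith

end SFA
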