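import Pool.Agent.Lib.SFA.PTrans
import Pool.Agent.Lib.SFA.PSum
import Pool.Agent.Lib.SFA.PRound
import Pool.Agent.Lib.SFA.PGeo
import Pool.Agent.Lib.SFA.TestB

/-!
# SFA.PMain: the expected cost of all rounds is `O(N log N)`
-/

namespace SFA

open Classical

namespace PMainAux

theorem EB_nonneg {α : Type} {p : ℝ} (hp : 0 ≤ p) (hp1 : p ≤ 1) (S : Finset α) {f : Finset α → ℝ}
    (h : ∀ R ⊆ S, 0 ≤ f R) : 0 ≤ EB p S f := by
  unfold EB
  refine Finset.sum_nonneg fun R hR => ?_
  have h1 : 0 ≤ 1 - p := by linarith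
  have h2 := h R (Finset.mem_powerset.1 hR)
  positivity

theorem sum_refl {h : ℕ → ℝ} (h0 : ∀ j, 0 ≤ h j) (L : ℕ) :
    ∑ k ∈ Finset.range L, h (L + 1 - k) ≤ ∑ j ∈ Finset.range (L + 2), h j := by
  rw [← Finset.sum_range_reflect h (L + 2)]
  have e : ∀ k, L + 2 - 1 - k = L + 1 - k := fun k => by omega
  simp only [e]
  exact Finset.sum_le_sum_of_subset_of_nonneg
    (Finset.range_mono (by omega)) (fun _ _ _ => h0 _)

/-- one round -/
theorem one_round (e : ℕ) {Ce : ℝ} (hC : 1 ≤ Ce)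
    (hCe : ∀ m : ℕ, (1 + (m : ℝ)) ^ e ≤ Ce * (17 / 16) ^ m) {S : Finset Seg} {x : ℂ} {eps : ℝ}
    (hG : Gen eps S x) {p : ℝ} (hp : 0 < p) (hp1 : p ≤ 1 / 2) :
    EB2 p p S (fun R R' => rc e eps S R R' x) ≤
      512 * Ce / p * EB (p / 2) S (fun Q => ((TFf eps Q x).card : ℝ)) := by
  have key := round_bound (α := Seg) (β := Cell) S (fun R => TFf eps R x)
    (fun c => S.filter (confl eps c)) (fun c => Finset.filter_subset _ _)
    (fun R hR c hc => TFf_disj hG hR hc) (fun R hR c hc => TFf_small hG hR hc) e Ce hC hCe hp hp1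
  refine le_trans (EB2_mono hp.le hp.le (by linarith) ?_) key
  intro R' hR' R hR
  refine le_of_eq ?_
  unfold rc
  refine Finset.sum_congr rfl fun c _ => ?_
  rw [kn_sub hR' c]
  rfl

theorem first_round (e : ℕ) {Ce : ℝ} (hC : 1 ≤ Ce)
    (hCe : ∀ m : ℕ, (1 + (m : ℝ)) ^ e ≤ Ce * (17 / 16) ^ m) {S : Finset Seg} {x : ℂ} {eps : ℝ}
    {p : ℝ} (hp : 0 < p) (hp1 : p ≤ 1) (hpS : p * S.card ≤ 1) :
    EB2 0 p S (fun R R' => rc e eps S R R' x) ≤ 2 * Ce * (1 + (S.card : ℝ)) := by
  have key := round_zero (α := Seg) (β := Cell) S (fun R => TFf eps R x)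
    (fun c => S.filter (confl eps c)) (fun c => Finset.filter_subset _ _) e Ce hC hCe hp hp1 hpS
  refine le_trans (EB2_mono le_rfl hp.le (by linarith) ?_) (key.trans ?_)
  · intro R' hR' R hR
    refine le_of_eq ?_
    unfold rc
    refine Finset.sum_congr rfl fun c _ => ?_
    rw [kn_sub hR' c]
    rfl
  · have h1 : ((TFf eps ∅ x).card : ℝ) ≤ 1 := by exact_mod_cast card_TFf_empty eps x
    have h2 : 0 ≤ 2 * Ce * (1 + (S.card : ℝ)) := by positivity
    nlinarith

end PMainAux

open PMainAux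

/-- Expected cost of the randomised incremental construction. -/
theorem expected_cost (e : ℕ) : ∃ C : ℝ, 0 < C ∧ ∀ (S : List Seg) (x : ℂ) (eps : ℝ) (L : ℕ),
    S.Nodup → Gen eps S.toFinset x → S.length ≤ 2 ^ L →
    avg (S.length * L) (fun w => ∑ i ∈ Finset.range (L + 1),
      rc e eps S.toFinset (lev S.toFinset (lvR L S w) i)
        (lev S.toFinset (lvR L S w) (i + 1)) x) ≤
      C * (2 ^ L * (L + 1)) := by
  obtain ⟨Ce, hC, hCe⟩ := pow_le_exp e
  refine ⟨12800004 * Ce, by positivity, ?_⟩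
  intro S x eps L hnd hG hNL
  set N := S.length with hN
  set SF := S.toFinset with hSF
  have hcard : SF.card = N := List.toFinset_card_of_nodup hnd
  have hNL' : (N : ℝ) ≤ 2 ^ L := by exact_mod_cast hNL
  rw [avg_sum]
  have e1 : ∀ i ∈ Finset.range (L + 1), avg (N * L) (fun w =>
      rc e eps SF (lev SF (lvR L S w) i) (lev SF (lvR L S w) (i + 1)) x) =
      EB2 (pa L i) (pb L i) SF (fun R R' => rc e eps SF R R' x) := by
    intro i hi
    exact avg_lev L i (by have := Finset.mem_range.1 hi; omega) S hnd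
      (fun R R' => rc e eps SF R R' x)
  rw [Finset.sum_congr rfl e1, Finset.sum_range_succ']
  -- the first round
  have r0 : EB2 (pa L 0) (pb L 0) SF (fun R R' => rc e eps SF R R' x) ≤
      2 * Ce * (1 + (N : ℝ)) := by
    have hpos : (0 : ℝ) < 2 ^ L := by positivity
    have h1 : (1 : ℝ) / 2 ^ L * SF.card ≤ 1 := by
      rw [hcard, one_div, inv_mul_le_iff₀ hpos, mul_one]
      exact hNL'
    have h2 : (1 : ℝ) / 2 ^ L ≤ 1 := by
      rw [div_le_one hpos]
      exact one_le_pow₀ (by norm_num)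
    have := first_round (x := x) (eps := eps) e hC hCe (S := SF) (p := 1 / 2 ^ L) (by positivity)
      h2 h1
    rw [hcard] at this
    simpa [pa, pb] using this
  -- the other rounds
  obtain ⟨Xs, hXs, hB⟩ := TFf_bound hG
  have hsum := sum_scales SF Xs hXs (fun Q => ((TFf eps Q x).card : ℝ)) L
    (by rw [hcard]; exact hNL) hB
  have hnn : ∀ j : ℕ, 0 ≤ (2 : ℝ) ^ j * EB (1 / 2 ^ j) SF (fun Q => ((TFf eps Q x).card : ℝ)) := by
    intro j
    have h2 : (1 : ℝ) / 2 ^ j ≤ 1 := by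
      rw [div_le_one (by positivity)]
      exact one_le_pow₀ (by norm_num)
    exact mul_nonneg (by positivity) (EB_nonneg (by positivity) h2 SF (fun _ _ => by positivity))
  have r1 : ∑ k ∈ Finset.range L, EB2 (pa L (k + 1)) (pb L (k + 1)) SF
      (fun R R' => rc e eps SF R R' x) ≤
      256 * Ce * (50000 * (2 ^ L * (L + 1))) := by
    have h1 : ∀ k ∈ Finset.range L, EB2 (pa L (k + 1)) (pb L (k + 1)) SF
        (fun R R' => rc e eps SF R R' x) ≤ 256 * Ce * (2 ^ (L + 1 - k) *
          EB (1 / 2 ^ (L + 1 - k)) SF (fun Q => ((TFf eps Q x).card : ℝ))) := by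
      intro k hk
      have hk' := Finset.mem_range.1 hk
      have e2 : L + 1 - (k + 1) = L - k := by omega
      have e3 : L + 1 - k = (L - k) + 1 := by omega
      have ha : pa L (k + 1) = 1 / 2 ^ (L - k) := by simp [pa, e2]
      have hb : pb L (k + 1) = 1 / 2 ^ (L - k) := by simp [pb, e2]
      rw [ha, hb, e3]
      have h3 : (2 : ℝ) ≤ 2 ^ (L - k) := by
        calc (2 : ℝ) = 2 ^ 1 := by norm_num
          _ ≤ 2 ^ (L - k) := pow_le_pow_right₀ (by norm_num) (by omega)
      have hp1 : (1 : ℝ) / 2 ^ (L - k) ≤ 1 / 2 := one_div_le_one_div_of_le (by norm_num) h3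
      have := one_round e hC hCe hG (p := 1 / 2 ^ (L - k)) (by positivity) hp1
      refine this.trans (le_of_eq ?_)
      have e4 : (1 : ℝ) / 2 ^ (L - k) / 2 = 1 / 2 ^ (L - k + 1) := by
        rw [pow_succ]; field_simp
      rw [e4, pow_succ]
      field_simp
      ring
    refine (Finset.sum_le_sum h1).trans ?_
    rw [← Finset.mul_sum]
    refine mul_le_mul_of_nonneg_left ?_ (by positivity)
    exact (sum_refl hnn L).trans hsum
  have hL0 : (0 : ℝ) ≤ L := Nat.cast_nonneg L
  have h2L : (1 : ℝ) ≤ 2 ^ L := one_le_pow₀ (by norm_num)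
  have hfin : (1 + (N : ℝ)) ≤ 2 * (2 ^ L * (L + 1)) := by nlinarith
  have h4 : 2 * Ce * (1 + (N : ℝ)) ≤ 2 * Ce * (2 * (2 ^ L * (L + 1))) :=
    mul_le_mul_of_nonneg_left hfin (by positivity)
  calc _ ≤ 256 * Ce * (50000 * (2 ^ L * (L + 1))) + 2 * Ce * (2 * (2 ^ L * (L + 1))) := by
        linarith
    _ = 12800004 * Ce * (2 ^ L * (L + 1)) := by ring

/-! ### The same with the definitions of the algorithm -/

theorem lvOf_eq {L : ℕ} {T : List Seg} (hT : T.Nodup) (w : List Bool) {s : Seg} (hs : s ∈ T) :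
    lvOf L T w s = lvR L T w s := by
  unfold lvOf
  rw [assign_eq L T hT w]
  have h : ∀ (l : List Seg), s ∈ l →
      ((l.map (fun s => (s, lvR L T w s))).find? (fun k => sgEq k.1 s)) =
        some (s, lvR L T w s) := by
    intro l hl
    induction l with
    | nil => simp at hl
    | cons a l ih =>
      rw [List.map_cons, List.find?_cons]
      by_cases ha : a = s
      · subst ha
        have : sgEq a a = true := (sgEq_iff a a).2 rfl
        simp [this]
      · have h1 : sgEq a s = false := by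
          rw [Bool.eq_false_iff]
          exact fun h => ha ((sgEq_iff a s).1 h)
        simp only [h1]
        exact ih ((List.mem_cons.1 hl).resolve_left (fun h => ha h.symm))
  rw [h T hs]
  rfl

theorem lev_lvOf {L : ℕ} {T : List Seg} (hT : T.Nodup) (w : List Bool) (i : ℕ) :
    lev T.toFinset (lvOf L T w) i = lev T.toFinset (lvR L T w) i := by
  unfold lev
  refine Finset.filter_congr fun s hs => ?_
  rw [lvOf_eq hT w (List.mem_toFinset.1 hs)]

theorem stepSum_le {e : ℕ} {eps : ℝ} {L : ℕ} {T : List Seg} (hT : T.Nodup) {x : ℂ}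
    (hG : Gen eps T.toFinset x) (w : List Bool) (i : ℕ) :
    (stepSum e eps T.toFinset (lvOf L T w) x i : ℝ) ≤
      rc e eps T.toFinset (lev T.toFinset (lvR L T w) i)
        (lev T.toFinset (lvR L T w) (i + 1)) x := by
  have hfin : (TF eps (lev T.toFinset (lvR L T w) i) x).Finite :=
    finite_TF (hG.mono (lev_subset _ _ _))
  unfold stepSum rc TFf
  rw [lev_lvOf hT w i, dif_pos hfin, finsum_mem_eq_finite_toFinset_sum _ hfin]
  push_cast
  refine Finset.sum_le_sum fun c _ => ?_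
  have h1 : cN eps T.toFinset (lvOf L T w) i c ≤
      kn eps (lev T.toFinset (lvR L T w) (i + 1)) c := by
    unfold cN kn
    refine Finset.card_le_card fun s hs => ?_
    obtain ⟨hs1, hs2, hs3⟩ := Finset.mem_filter.1 hs
    refine Finset.mem_filter.2 ⟨?_, hs3⟩
    refine Finset.mem_filter.2 ⟨hs1, ?_⟩
    rw [← lvOf_eq hT w (List.mem_toFinset.1 hs1), hs2]
    exact Nat.lt_succ_self i
  have h2 : cK eps T.toFinset c = kn eps T.toFinset c := rfl
  rw [h2, mul_comm]
  have h3 : (cN eps T.toFinset (lvOf L T w) i c : ℝ) ≤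
      kn eps (lev T.toFinset (lvR L T w) (i + 1)) c := by exact_mod_cast h1
  have h4 : ((cN eps T.toFinset (lvOf L T w) i c : ℝ) + 1) ^ e ≤
      (1 + (kn eps (lev T.toFinset (lvR L T w) (i + 1)) c : ℝ)) ^ e :=
    pow_le_pow_left₀ (by positivity) (by linarith) e
  have h5 : (0 : ℝ) ≤ (kn eps T.toFinset c : ℝ) + 1 := by positivity
  calc ((kn eps T.toFinset c : ℝ) + 1) * ((cN eps T.toFinset (lvOf L T w) i c : ℝ) + 1) ^ e
      ≤ ((kn eps T.toFinset c : ℝ) + 1) *
        (1 + (kn eps (lev T.toFinset (lvR L T w) (i + 1)) c : ℝ)) ^ e :=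
        mul_le_mul_of_nonneg_left h4 h5
    _ = _ := by rw [add_comm (kn eps T.toFinset c : ℝ) 1]

theorem lvR_append (L : ℕ) (T : List Seg) (u v : List Bool) (h : T.length * L ≤ u.length) :
    lvR L T (u ++ v) = lvR L T u := by
  induction T generalizing u with
  | nil => rfl
  | cons s t ih =>
    have h1 : (s :: t).length * L = L + t.length * L := by rw [List.length_cons]; ring
    have h2 : L ≤ u.length := by omega
    rw [lvR, lvR, List.take_append_of_le_length h2, List.drop_append_of_le_length h2, ih]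
    rw [List.length_drop]
    omega

/-- FINAL theorem of package P. -/
theorem avg_bound (e : ℕ) : ∃ C : ℝ, ∀ (T : List Seg) (x : ℂ) (eps : ℝ) (L M : ℕ), T.Nodup →
    Gen eps T.toFinset x → T.length ≤ 2 ^ L → 1 ≤ L → T.length * L ≤ M →
    (∑ u : Fin M → Bool, ∑ i ∈ Finset.range (L + 1),
      (stepSum e eps T.toFinset (lvOf L T (List.ofFn u)) x i : ℝ)) ≤
        C * 2 ^ M * (2 ^ L * (L + 1)) := by
  obtain ⟨C, hC0, hC⟩ := expected_cost e
  refine ⟨C, fun T x eps L M hT hG hN _ hM => ?_⟩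
  set F : List Bool → ℝ := fun w => ∑ i ∈ Finset.range (L + 1),
      rc e eps T.toFinset (lev T.toFinset (lvR L T w) i)
        (lev T.toFinset (lvR L T w) (i + 1)) x with hF
  have h1 : (∑ u : Fin M → Bool, ∑ i ∈ Finset.range (L + 1),
      (stepSum e eps T.toFinset (lvOf L T (List.ofFn u)) x i : ℝ)) ≤
      ∑ u : Fin M → Bool, F (List.ofFn u) :=
    Finset.sum_le_sum fun u _ => Finset.sum_le_sum fun i _ => stepSum_le hT hG _ i
  have h2 : ∑ u : Fin M → Bool, F (List.ofFn u) = 2 ^ M * avg M F := by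
    rw [avg_eq]
    field_simp
  have h3 : avg M F = avg (T.length * L) F := by
    obtain ⟨k, rfl⟩ := Nat.exists_eq_add_of_le hM
    rw [avg_append]
    refine avg_congr fun u hu => ?_
    have : (fun v => F (u ++ v)) = fun _ => F u := by
      funext v
      simp only [hF]
      rw [lvR_append L T u v (le_of_eq hu.symm)]
    rw [this, avg_const]
  have h4 := hC T x eps L hT hG hN
  calc _ ≤ 2 ^ M * avg (T.length * L) F := by rw [← h3, ← h2]; exact h1
    _ ≤ 2 ^ M * (C * (2 ^ L * (L + 1))) := mul_le_mul_of_nonneg_left h4 (by positivity)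
    _ = _ := by ring

/-- the size of the final decomposition -/
theorem card_TF_le {T : Finset Seg} {x : ℂ} {eps : ℝ} (hG : Gen eps T x) (L : ℕ)
    (hN : T.card ≤ 2 ^ L) : ((TF eps T x).ncard : ℝ) ≤ 13000 * (2 ^ L * (L + 1)) := by
  obtain ⟨Xs, hXs, hB⟩ := TFf_bound hG
  have h1 := hB T subset_rfl (L + 1) (by omega)
  have hfin := finite_TF hG
  have h2 : (TFf eps T x).card = (TF eps T x).ncard := by
    rw [Set.ncard_eq_toFinset_card _ hfin, TFf, dif_pos hfin]
  rw [h2] at h1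
  have hNr : (T.card : ℝ) ≤ 2 ^ L := by exact_mod_cast hN
  have hL0 : (0 : ℝ) ≤ L := Nat.cast_nonneg L
  have h2L : (1 : ℝ) ≤ 2 ^ L := one_le_pow₀ (by norm_num)
  have hlog : Real.log ((L + 1 : ℕ) : ℝ) ≤ L := by
    have := Real.log_le_sub_one_of_pos (x := ((L + 1 : ℕ) : ℝ)) (by positivity)
    push_cast at this ⊢
    linarith
  have hlog0 : 0 ≤ Real.log ((L + 1 : ℕ) : ℝ) := Real.log_nonneg (by push_cast; linarith)
  have hlight : ((T.filter (fun s => 1 ≤ (T ∩ Xs s).card ∧ (T ∩ Xs s).card ≤ L + 1)).card : ℝ) ≤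
      2 ^ L := by
    refine le_trans ?_ hNr
    exact_mod_cast Finset.card_filter_le _ _
  have hA : (T.card : ℝ) / ((L + 1 : ℕ) : ℝ) * Real.log T.card ≤ 2 ^ L := by
    rcases Nat.eq_zero_or_pos T.card with h0 | h0
    · rw [h0]; simp
    · have h0' : (0 : ℝ) < T.card := by exact_mod_cast h0
      have h3 : Real.log T.card ≤ L := by
        calc Real.log T.card ≤ Real.log (2 ^ L) := Real.log_le_log h0' hNr
          _ = L * Real.log 2 := Real.log_pow _ _
          _ ≤ L * 1 := mul_le_mul_of_nonneg_left (by have := Real.log_two_lt_d9; linarith) hL0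
          _ = L := mul_one _
      have h4 : (T.card : ℝ) / ((L + 1 : ℕ) : ℝ) * Real.log T.card ≤
          (T.card : ℝ) / ((L + 1 : ℕ) : ℝ) * ((L + 1 : ℕ) : ℝ) := by
        refine mul_le_mul_of_nonneg_left ?_ (by positivity)
        push_cast; linarith
      rw [div_mul_cancel₀ _ (by positivity)] at h4
      linarith
  have hB2 : 320 * (1 + Real.log ((L + 1 : ℕ) : ℝ)) *
      ((T.filter (fun s => 1 ≤ (T ∩ Xs s).card ∧ (T ∩ Xs s).card ≤ L + 1)).card : ℝ) ≤
      320 * (1 + L) * 2 ^ L := by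
    refine mul_le_mul (by linarith) hlight (Nat.cast_nonneg _) (by positivity)
  have h5 : (0 : ℝ) ≤ 2 ^ L * L := by positivity
  nlinarith

/-- the members of `assign` -/
theorem mem_assign_lvOf {L : ℕ} {T : List Seg} (hT : T.Nodup) (w : List Bool) (s : Seg) (l : ℕ) :
    (s, l) ∈ assign L T w ↔ s ∈ T ∧ l = lvOf L T w s := by
  rw [assign_eq L T hT w, List.mem_map]
  constructor
  · rintro ⟨a, ha, h⟩
    obtain ⟨rfl, rfl⟩ := Prod.mk.inj h
    exact ⟨ha, (lvOf_eq hT w ha).symm⟩
  · rintro ⟨h1, h2⟩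
    exact ⟨s, h1, by rw [h2, lvOf_eq hT w h1]⟩

end SFA
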