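import Pool.Agent.Lib.SFA.BAlg
import Pool.Agent.Lib.SFA.PMain

/-!
# SFA.PFin: the average cost of the algorithm
-/

namespace SFA

open Classical

theorem avg_algCost : ∃ C : ℝ, 0 < C ∧ ∀ (T : List Seg) (x : ℂ) (eps : ℝ) (L : ℕ), T.Nodup →
    Gen eps T.toFinset x → LexOK eps T.toFinset x → T.length ≤ 2 ^ L → 1 ≤ L →
    (∑ b : Fin (T.length * L) → Bool,
      ((algCost L T x (List.ofFn b) + (finalRecs L T x (List.ofFn b)).length : ℕ) : ℝ)) ≤
    C * 2 ^ (T.length * L) * (2 ^ L * (L + 1)) := by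
  obtain ⟨C, hC⟩ := avg_bound 12
  refine ⟨130002 + 7000 * |C|, by positivity, fun T x eps L hT hG hL hN h1 => ?_⟩
  have h2 := hC T x eps L (T.length * L) hT hG hN h1 le_rfl
  have hcard : ((TF eps T.toFinset x).ncard : ℝ) ≤ 13000 * (2 ^ L * (L + 1)) :=
    card_TF_le hG L ((List.toFinset_card_le T).trans hN)
  have hNr : (T.length : ℝ) ≤ 2 ^ L := by exact_mod_cast hN
  have hL0 : (0 : ℝ) ≤ L := Nat.cast_nonneg L
  have h2L : (1 : ℝ) ≤ 2 ^ L := one_le_pow₀ (by norm_num)
  have h3 : ∀ b : Fin (T.length * L) → Bool,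
      ((algCost L T x (List.ofFn b) + (finalRecs L T x (List.ofFn b)).length : ℕ) : ℝ) ≤
      130002 * (2 ^ L * (L + 1)) + 7000 * ∑ i ∈ Finset.range (L + 1),
        (stepSum 12 eps T.toFinset (lvOf L T (List.ofFn b)) x i : ℝ) := by
    intro b
    have h4 := algCost_le hT hG hL L (List.ofFn b)
    have h5 := finalRecs_length hT hG hL L (List.ofFn b)
    rw [h5]
    have h6 : ((List.range (L + 1)).map
        (fun i => stepSum 12 eps T.toFinset (lvOf L T (List.ofFn b)) x i)).sum =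
        ∑ i ∈ Finset.range (L + 1), stepSum 12 eps T.toFinset (lvOf L T (List.ofFn b)) x i := by
      rw [← List.sum_toFinset _ List.nodup_range, List.toFinset_range]
    rw [h6] at h4
    have h7 : ((algCost L T x (List.ofFn b) : ℕ) : ℝ) ≤ (T.length : ℝ) * (L + 1) + (L + 1) +
        7000 * ∑ i ∈ Finset.range (L + 1),
          (stepSum 12 eps T.toFinset (lvOf L T (List.ofFn b)) x i : ℝ) +
        9 * ((TF eps T.toFinset x).ncard : ℝ) := by
      exact_mod_cast h4
    push_cast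
    nlinarith [mul_le_mul_of_nonneg_right hNr (by linarith : (0 : ℝ) ≤ L + 1),
      mul_le_mul_of_nonneg_right h2L (by linarith : (0 : ℝ) ≤ L + 1)]
  refine (Finset.sum_le_sum (fun b _ => h3 b)).trans ?_
  rw [Finset.sum_add_distrib, Finset.sum_const, ← Finset.mul_sum]
  have h8 : ((Finset.univ : Finset (Fin (T.length * L) → Bool)).card : ℝ) =
      2 ^ (T.length * L) := by
    rw [Finset.card_univ, Fintype.card_fun, Fintype.card_bool, Fintype.card_fin]
    push_cast
    rfl
  rw [nsmul_eq_mul, h8]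
  have h9 : C * 2 ^ (T.length * L) * (2 ^ L * ((L : ℝ) + 1)) ≤
      |C| * 2 ^ (T.length * L) * (2 ^ L * ((L : ℝ) + 1)) := by
    have : (0 : ℝ) ≤ 2 ^ (T.length * L) * (2 ^ L * ((L : ℝ) + 1)) := by positivity
    nlinarith [mul_le_mul_of_nonneg_right (le_abs_self C) this]
  nlinarith [h2, h9]

end SFA
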