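import Pool.Agent.Lib.SFA.OSide

/-!
# SFA.OTopo: boundary walks give the boundary of the face (package O)

`T` an `LP` family, `L` a list of cyclic lists satisfying `ne`, `sides`, `once`, `turn` of
`IsBoundary`.  Consecutive pairs of a list correspond to darts with left face `face T x`, the
darts of a list are one orbit of `nxtL`.
-/

namespace SFA

namespace OTopoAux

/-- cyclic access -/
def at' (l : List ℂ) (hl : 0 < l.length) (i : ℕ) : ℂ := l[i % l.length]'(Nat.mod_lt _ hl)

theorem at_mem {l : List ℂ} (hl : 0 < l.length) (i : ℕ) : at' l hl i ∈ l :=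
  List.getElem_mem _

theorem exists_at {l : List ℂ} (hl : 0 < l.length) {p : ℂ} (hp : p ∈ l) :
    ∃ i, at' l hl i = p := by
  obtain ⟨i, hi, rfl⟩ := List.mem_iff_getElem.1 hp
  exact ⟨i, by simp only [at', Nat.mod_eq_of_lt hi]⟩

theorem at_add_mul {l : List ℂ} (hl : 0 < l.length) (i k : ℕ) :
    at' l hl (i + l.length * k) = at' l hl i := by
  simp only [at', Nat.add_mul_mod_self_left]

theorem pair_mem {l : List ℂ} (hl : 0 < l.length) (i : ℕ) :
    (at' l hl i, at' l hl (i + 1)) ∈ cyc l := by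
  have hi : i % l.length < l.length := Nat.mod_lt _ hl
  have h1 : i % l.length < (cyc l).length := by
    simp [cyc, hi]
  have h2 : (cyc l)[i % l.length] = (at' l hl i, at' l hl (i + 1)) := by
    simp only [cyc, List.getElem_zip, List.getElem_rotate, at', Nat.mod_add_mod]
  rw [← h2]
  exact List.getElem_mem _

theorem triple_mem {l : List ℂ} (hl : 0 < l.length) (i : ℕ) :
    (at' l hl i, at' l hl (i + 1), at' l hl (i + 2)) ∈ cyc3 l := by
  have hi : i % l.length < l.length := Nat.mod_lt _ hl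
  have h1 : i % l.length < (cyc3 l).length := by
    simp [cyc3, hi]
  have h2 : (cyc3 l)[i % l.length] = (at' l hl i, at' l hl (i + 1), at' l hl (i + 2)) := by
    simp only [cyc3, List.getElem_zip, List.getElem_rotate, at', Nat.mod_add_mod]
  rw [← h2]
  exact List.getElem_mem _

open P7b in
/-- the darts of a cyclic list -/
theorem exists_darts {T : Finset Seg} (hT : P7b.LP T) {x : ℂ} (hx : x ∉ U T) {l : List ℂ}
    (hl : 0 < l.length) (sides : ∀ a ∈ cyc l, IsSide T (face T x) a.1 a.2)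
    (turn : ∀ a ∈ cyc3 l, Joined T a.1 a.2.1 a.2.2) :
    ∃ d : ℕ → Drt T, (∀ i, (d i).og = at' l hl i) ∧ (∀ i, (d i).hd = at' l hl (i + 1)) ∧
      (∀ i, lreg T (d i).og (d i).hd = P7b.face T x) ∧
      (∀ i k, (nxtL hT)^[k] (d i) = d (i + k)) ∧ (∀ i k, d (i + l.length * k) = d i) := by
  have h1 : ∀ i, ∃ d : Drt T, d.og = at' l hl i ∧ d.hd = at' l hl (i + 1) ∧
      lreg T d.og d.hd = P7b.face T x := fun i =>
    (side_iff hT hx).1 (sides _ (pair_mem hl i))
  choose d hd using h1
  have hn : ∀ i, nxtL hT (d i) = d (i + 1) := by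
    intro i
    have ho : (d (i + 1)).og = (d i).hd := by rw [(hd (i + 1)).1, (hd i).2.1]
    refine isNxt_uniq hT (nxtL_spec hT (d i)) (isNxt_of_joined hT ho ?_)
    have h2 := turn _ (triple_mem hl i)
    unfold Joined at h2
    simp only at h2
    rw [← (hd i).1, ← (hd i).2.1] at h2
    have h3 : at' l hl (i + 2) = (d (i + 1)).hd := ((hd (i + 1)).2.1).symm
    rw [h3] at h2
    rw [ho]
    exact h2
  refine ⟨d, fun i => (hd i).1, fun i => (hd i).2.1, fun i => (hd i).2.2, ?_, ?_⟩
  · intro i k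
    induction k with
    | zero => rfl
    | succ k ih => rw [Function.iterate_succ_apply', ih, hn]; rfl
  · intro i k
    refine Drt.pair_inj hT ?_ ?_
    · rw [(hd _).1, (hd _).1, at_add_mul]
    · rw [(hd _).2.1, (hd _).2.1]
      have : i + l.length * k + 1 = (i + 1) + l.length * k := by ring
      rw [this, at_add_mul]

end OTopoAux

open OTopoAux in
theorem isBoundary_of_walks {T : Finset Seg} (hT : P7b.LP T) {x : ℂ} (hx : x ∉ U T)
    {L : List (List ℂ)} (ne : ∀ l ∈ L, l ≠ [])
    (sides : ∀ p q, (p, q) ∈ L.flatMap cyc ↔ IsSide T (face T x) p q)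
    (once : (L.flatMap cyc).Nodup)
    (turn : ∀ l ∈ L, ∀ a ∈ cyc3 l, Joined T a.1 a.2.1 a.2.2) : IsBoundary T x L := by
  have hlen : ∀ l ∈ L, 0 < l.length := fun l hl => List.length_pos_iff.2 (ne l hl)
  have hdarts : ∀ l (hl : l ∈ L), ∃ d : ℕ → P7b.Drt T, (∀ i, (d i).og = at' l (hlen l hl) i) ∧
      (∀ i, (d i).hd = at' l (hlen l hl) (i + 1)) ∧
      (∀ i, P7b.lreg T (d i).og (d i).hd = P7b.face T x) ∧
      (∀ i k, (P7b.nxtL hT)^[k] (d i) = d (i + k)) ∧ (∀ i k, d (i + l.length * k) = d i) := by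
    intro l hl
    refine exists_darts hT hx (hlen l hl) (fun a ha => ?_) (turn l hl)
    exact (sides a.1 a.2).1 (List.mem_flatMap.2 ⟨l, hl, ha⟩)
  refine ⟨ne, sides, once, turn, ?_, ?_, ?_⟩
  · -- same component
    intro l hl p hp q hq
    obtain ⟨d, h1, h2, h3, h4, h5⟩ := hdarts l hl
    obtain ⟨i, rfl⟩ := exists_at (hlen l hl) hp
    obtain ⟨j, rfl⟩ := exists_at (hlen l hl) hq
    have h6 := (P7b.same_component_iff hT hx (h3 i) (h3 j)).1
      ⟨j + (l.length - 1) * i, by
        rw [h4]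
        have h7 : i + (j + (l.length - 1) * i) = j + l.length * i := by
          have h8 : l.length = (l.length - 1) + 1 := by have := hlen l hl; omega
          conv_rhs => rw [h8]
          ring
        rw [h7, h5]⟩
    rw [h1, h1] at h6
    exact h6
  · -- different components
    have h0 := (List.nodup_flatMap.1 once).2
    refine h0.imp_of_mem ?_
    intro l m hl hm hdis p hp q hq hcon
    obtain ⟨d, h1, h2, h3, h4, h5⟩ := hdarts l hl
    obtain ⟨e, k1, k2, k3, k4, k5⟩ := hdarts m hm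
    obtain ⟨i, rfl⟩ := exists_at (hlen l hl) hp
    obtain ⟨j, rfl⟩ := exists_at (hlen m hm) hq
    rw [← h1 i, ← k1 j] at hcon
    obtain ⟨k, hk⟩ := (P7b.same_component_iff hT hx (h3 i) (k3 j)).2 hcon
    rw [h4] at hk
    have g1 := pair_mem (hlen l hl) (i + k)
    have g2 := pair_mem (hlen m hm) j
    rw [← h1, ← h2, ← hk, k1, k2] at g1
    exact hdis g1 g2
  · -- cover
    intro z hz
    have h1 := P7b.frontier_face hT hx
    have hz' : z ∈ frontier (P7b.face T x) := hz
    rw [h1, Set.mem_iUnion₂] at hz'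
    obtain ⟨d, hd, hzd⟩ := hz'
    exact ⟨(d.og, d.hd), (sides _ _).2 ((side_iff hT hx).2 ⟨d, rfl, rfl, hd⟩), hzd⟩

end SFA
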