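import Pool.Agent.Lib.SFA.WalkB
import Pool.Agent.Lib.SFA.InvStep
import Pool.Agent.Lib.SFA.Eps
import Pool.Agent.Lib.SFA.OTopo

/-!
# SFA.WalkC: the algorithm computes the boundary of the face

`finv_of_inv`: if all levels are `< i` then `lev S lv i = S` and the invariant is `FInv`.
-/

namespace SFA

theorem finv_of_inv {eps : ℝ} {S : Finset Seg} {x : ℂ} {lv : Seg → ℕ} {i : ℕ}
    {recs : List Rec} (hlv : ∀ s ∈ S, lv s < i) (h : Inv eps S lv x i recs) :
    FInv eps S x recs := by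
  have hS : lev S lv i = S := by
    ext s
    simp only [lev, Finset.mem_filter, and_iff_left_iff_imp]
    exact fun hs => hlv s hs
  exact ⟨h.nodup, fun c => by rw [h.mem c, hS]; rfl, h.nb, h.nbnd⟩

/-- Correctness of the pure algorithm on preprocessed input, for all levels. -/
theorem walks_boundary {S : Finset Seg} {x : ℂ} (hlex : ∀ s ∈ S, lexlt s.1 s.2)
    (hone : ∀ s ∈ S, ∀ t ∈ S, s ≠ t → (carrier s ∩ carrier t).Subsingleton) (hx : x ∉ U S)
    {lv : Seg → ℕ} {L : ℕ} (hlv : ∀ s ∈ S, lv s ≤ L) {inp : List (Seg × ℕ)} (hnd : inp.Nodup)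
    (hinp : ∀ s l, (s, l) ∈ inp ↔ s ∈ S ∧ l = lv s) :
    IsBoundary S x (walks (rounds L x inp)) := by
  obtain ⟨eps, -, hG, hL⟩ := exists_eps hlex hone hx
  have hI := inv_recsAt hG hL hnd hinp (L + 1)
  rw [← rounds_eq] at hI
  have hF := finv_of_inv (fun s hs => Nat.lt_succ_of_le (hlv s hs)) hI
  have hne : ∀ s ∈ S, s.1 ≠ s.2 := by
    intro s hs h
    have := hG.inc s hs
    rw [h] at this
    exact lt_irrefl _ this
  have hLP : P7b.LP S := ⟨hne, hone⟩
  obtain ⟨h1, h2, h3, h4⟩ := walks_spec hG hF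
  exact isBoundary_of_walks hLP hx h1 h2 h3 h4

end SFA
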