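import Pool.Agent.Lib.SFA.Fin1
import Pool.Agent.Lib.SFA.PFin
import Pool.Agent.Lib.SFA.WalkC
import Pool.Agent.Lib.P7m.Coin

/-!
# SFA.Fin2: the single face of `n` segments in expected time `O(n log n)` on a real RAM
-/

namespace SFA

open P7m Classical MeasureTheory ENNReal

/-- The input tape: the coordinates of the endpoints of the segments, then those of `x`
(then zeros). -/
noncomputable def tape (S : List Seg) (x : ℂ) (i : ℕ) : ℝ := (realsOf S x).getD i 0

theorem tape_range (S : List Seg) (x : ℂ) :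
    (List.range (4 * S.length + 2)).map (tape S x) = realsOf S x := by
  rw [← realsOf_length S x]
  apply List.ext_getElem
  · simp
  · intro i h1 h2
    simp [tape, List.getD_eq_getElem?_getD, h2]

theorem alg_correct (S : List Seg) (hS : ∀ s ∈ S, s.1 ≠ s.2) (x : ℂ) (hx : x ∉ U S.toFinset)
    (L : ℕ) (w : List Bool) : IsBoundary S.toFinset x (algL L (pre S) x w) := by
  obtain ⟨-, h2, h3, h4, h5, h6⟩ := pre_spec S hS
  refine isBoundary_congr h5.symm h6.symm ?_
  refine walks_boundary (lv := lvOf L (pre S) w) (L := L)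
    (fun s hs => h3 s (List.mem_toFinset.1 hs))
    (fun s hs t ht => h4 s (List.mem_toFinset.1 hs) t (List.mem_toFinset.1 ht))
    (by rw [h5]; exact hx) (fun s hs => lvOf_le h2 (List.mem_toFinset.1 hs))
    (inp := assign L (pre S) w) (assign_nodup h2) (fun s l => ?_)
  rw [mem_assign h2, List.mem_toFinset]

/-- arithmetic of the final bound -/
theorem final_arith {n : ℕ} (hn : 2 ≤ n) :
    (2 : ℝ) ^ lvl (2 * n) * ((lvl (2 * n) : ℝ) + 1) ≤ 40 * (n * Real.log n) := by
  have hlog2 : (0.69 : ℝ) < Real.log 2 := by linarith [Real.log_two_gt_d9]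
  have hn1 : (2 : ℝ) ≤ n := by exact_mod_cast hn
  have h1 : 2 ^ lvl (2 * n) ≤ 4 * n := by
    have h := Nat.pow_pred_clog_lt_self (b := 2) (by norm_num) (x := 2 * n) (by omega)
    have h2 : 0 < Nat.clog 2 (2 * n) := Nat.clog_pos (by norm_num) (by omega)
    have h3 : 2 ^ Nat.clog 2 (2 * n) = 2 * 2 ^ (Nat.clog 2 (2 * n)).pred := by
      obtain ⟨k, hk⟩ := Nat.exists_eq_succ_of_ne_zero h2.ne'
      rw [hk, Nat.pred_succ, pow_succ]; ring
    show 2 ^ Nat.clog 2 (2 * n) ≤ 4 * n
    omega
  have h2 : (2 : ℝ) ^ lvl (2 * n) ≤ 4 * n := by exact_mod_cast h1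
  have h3 : (lvl (2 * n) : ℝ) * Real.log 2 ≤ Real.log 4 + Real.log n := by
    rw [← Real.log_pow, ← Real.log_mul (by norm_num) (by linarith)]
    exact Real.log_le_log (by positivity) h2
  have h4 : Real.log 4 = 2 * Real.log 2 := by
    rw [show (4 : ℝ) = 2 ^ 2 by norm_num, Real.log_pow]; norm_num
  have h5 : Real.log 2 ≤ Real.log n := Real.log_le_log (by norm_num) hn1
  have h6 : (lvl (2 * n) : ℝ) + 1 ≤ 10 * Real.log n := by
    have : ((lvl (2 * n) : ℝ) + 1) * 0.69 ≤ 10 * Real.log n * 0.69 := by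
      nlinarith [Nat.cast_nonneg (α := ℝ) (lvl (2 * n))]
    linarith
  have h7 : (0 : ℝ) ≤ (lvl (2 * n) : ℝ) + 1 := by positivity
  calc (2 : ℝ) ^ lvl (2 * n) * ((lvl (2 * n) : ℝ) + 1)
      ≤ 4 * n * ((lvl (2 * n) : ℝ) + 1) := mul_le_mul_of_nonneg_right h2 h7
    _ ≤ 4 * n * (10 * Real.log n) := mul_le_mul_of_nonneg_left h6 (by positivity)
    _ = 40 * (n * Real.log n) := by ring

theorem single_face : ∃ (Q : List Instr) (C : ℝ), ∀ S : List Seg, (∀ s ∈ S, s.1 ≠ s.2) →
    ∀ x : ℂ, x ∉ U S.toFinset →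
    (∀ w : ℕ → Bool, ∃ (t : ℕ) (W : List (List ℂ)),
      Halted Q (run Q (tape S x) w t (Cfg.init S.length)) ∧
      (run Q (tape S x) w t (Cfg.init S.length)).out = encOut W ∧
      IsBoundary S.toFinset x W) ∧
    (2 ≤ S.length → ∫⁻ w, (haltTime Q (tape S x) w S.length : ℝ≥0∞) ∂coins ≤
      ENNReal.ofReal (C * (S.length * Real.log S.length))) := by
  obtain ⟨Q, C, hQ⟩ := ram_top part1 part2 _ _ rc_part1 rc_part2
  obtain ⟨C2, hC2, hav⟩ := avg_algCost
  refine ⟨Q, C * ((6 + 24 * C2) * 40), fun S hS x hx => ?_⟩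
  set n := S.length with hn
  set T := pre S with hT
  have hg : g1 (n, realsOf S x) = (T, x) := by
    obtain ⟨h1, h2⟩ := parse_spec S x
    unfold g1
    rw [hn, h1, h2]
  have hp : part1 (n, realsOf S x) = ((lvl (2 * n), (T, x)), T.length * lvl (2 * n)) := by
    unfold part1
    rw [hg]
  have hmain : ∀ w : ℕ → Bool, ∃ t : ℕ,
      t ≤ C * (n + (n * Nat.clog 2 n + n) +
        algCost (lvl (2 * n)) T x ((List.range (T.length * lvl (2 * n))).map w) +
        T.length * lvl (2 * n) + (encOut (algL (lvl (2 * n)) T x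
          ((List.range (T.length * lvl (2 * n))).map w))).length + 1) ∧
      Halted Q (run Q (tape S x) w t (Cfg.init n)) ∧
      (run Q (tape S x) w t (Cfg.init n)).out =
        encOut (algL (lvl (2 * n)) T x ((List.range (T.length * lvl (2 * n))).map w)) := by
    intro w
    obtain ⟨t, h1, h2, h3, -⟩ := hQ (tape S x) w n (realsOf S x) (lvl (2 * n), (T, x))
      (T.length * lvl (2 * n)) _ (tape_range S x).symm hp rfl
    exact ⟨t, h1, h2, h3⟩
  refine ⟨fun w => ?_, fun h2n => ?_⟩
  · obtain ⟨t, -, h2, h3⟩ := hmain w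
    exact ⟨t, _, h2, h3, alg_correct S hS x hx _ _⟩
  · obtain ⟨hpl, hnd, hlex, hone, hU, -⟩ := pre_spec S hS
    obtain ⟨eps, -, hG, hL⟩ := exists_eps (S := T.toFinset) (x := x)
      (fun s hs => hlex s (List.mem_toFinset.1 hs))
      (fun s hs t ht => hone s (List.mem_toFinset.1 hs) t (List.mem_toFinset.1 ht))
      (by rw [hT, hU]; exact hx)
    have hTn : T.length ≤ 2 * n := hpl
    have hcl : 2 * n ≤ 2 ^ lvl (2 * n) := Nat.le_pow_clog (by norm_num) _
    have hl1 : 1 ≤ lvl (2 * n) := Nat.clog_pos (by norm_num) (by omega)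
    have havg := hav T x eps (lvl (2 * n)) hnd hG hL (hTn.trans hcl) hl1
    set L := lvl (2 * n) with hLdef
    set M := T.length * L with hM
    refine expected_haltTime_le' Q (tape S x) n M (fun B => C * (n + (n * Nat.clog 2 n + n) +
        algCost L T x B + M + (1 + 24 * (finalRecs L T x B).length) + 1)) (fun w => ?_) _ ?_
    · obtain ⟨t, h1, h2, -⟩ := hmain w
      refine (haltTime_le h2).trans (h1.trans (Nat.mul_le_mul_left _ ?_))
      have := out_length_le L T x ((List.range M).map w)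
      omega
    · have hfar := final_arith h2n
      rw [← hLdef] at hfar
      set A : ℝ := (2 : ℝ) ^ L * ((L : ℝ) + 1) with hA
      have hnr : (2 : ℝ) ≤ n := by exact_mod_cast h2n
      have hclr : 2 * (n : ℝ) ≤ 2 ^ L := by exact_mod_cast hcl
      have hTr : (T.length : ℝ) ≤ 2 * n := by exact_mod_cast hTn
      have hL1r : (1 : ℝ) ≤ L := by exact_mod_cast hl1
      have hclog : (Nat.clog 2 n : ℝ) ≤ L := by
        have : Nat.clog 2 n ≤ lvl (2 * n) := Nat.clog_mono_right 2 (by omega)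
        exact_mod_cast this
      have hnA : (n : ℝ) ≤ A := by rw [hA]; nlinarith
      have hnL : (n : ℝ) * L ≤ A := by rw [hA]; nlinarith
      have hnc : (n : ℝ) * (Nat.clog 2 n : ℝ) ≤ A :=
        (mul_le_mul_of_nonneg_left hclog (by linarith)).trans hnL
      have hMr : (M : ℝ) ≤ 2 * A := by
        rw [hM]; push_cast
        nlinarith
      have h2A : (2 : ℝ) ≤ A := hnr.trans hnA
      have hb : ∀ b : Fin M → Bool, ((C * (n + (n * Nat.clog 2 n + n) +
          algCost L T x (List.ofFn b) + M + (1 + 24 * (finalRecs L T x (List.ofFn b)).length) +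
            1) : ℕ) : ℝ) ≤ C * (6 * A) + C * 24 * ((algCost L T x (List.ofFn b) +
              (finalRecs L T x (List.ofFn b)).length : ℕ) : ℝ) := by
        intro b
        push_cast
        rw [mul_assoc (C : ℝ) 24, ← mul_add]
        refine mul_le_mul_of_nonneg_left ?_ (Nat.cast_nonneg _)
        have h0 : (0 : ℝ) ≤ (algCost L T x (List.ofFn b) : ℝ) := Nat.cast_nonneg _
        have h00 : (0 : ℝ) ≤ ((finalRecs L T x (List.ofFn b)).length : ℝ) := Nat.cast_nonneg _
        linarith
      refine (Finset.sum_le_sum (fun b _ => hb b)).trans ?_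
      rw [Finset.sum_add_distrib, Finset.sum_const, ← Finset.mul_sum]
      have h8 : ((Finset.univ : Finset (Fin M → Bool)).card : ℝ) = 2 ^ M := by
        rw [Finset.card_univ, Fintype.card_fun, Fintype.card_bool, Fintype.card_fin]
        push_cast
        rfl
      rw [nsmul_eq_mul, h8]
      have hC0 : (0 : ℝ) ≤ C := Nat.cast_nonneg _
      have h9 := mul_le_mul_of_nonneg_left havg (by positivity : (0 : ℝ) ≤ C * 24)
      have h10 : (0 : ℝ) ≤ 2 ^ M * (C * (6 + 24 * C2)) := by positivity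
      have h11 := mul_le_mul_of_nonneg_left hfar h10
      calc (2 : ℝ) ^ M * (C * (6 * A)) + C * 24 * ∑ b : Fin M → Bool,
            ((algCost L T x (List.ofFn b) + (finalRecs L T x (List.ofFn b)).length : ℕ) : ℝ)
          ≤ 2 ^ M * (C * (6 * A)) + C * 24 * (C2 * 2 ^ M * A) := by linarith
        _ = 2 ^ M * (C * (6 + 24 * C2)) * A := by ring
        _ ≤ 2 ^ M * (C * (6 + 24 * C2)) * (40 * (n * Real.log n)) := h11
        _ = C * ((6 + 24 * C2) * 40) * (n * Real.log n) * 2 ^ M := by ring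

end SFA
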