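import Pool.Agent.Lib.SFA.Basic
import Pool.Agent.Lib.SFA.Alg

/-!
# SFA.G2Defs: definitions for the correctness of the rounds (package G2, owner helper1)
-/

namespace SFA

/-- The shape of a candidate trapezoid, without the conditions on the walls. -/
structure Shape0 (eps : ℝ) (c : Cell) : Prop where
  bs : ∀ b ∈ c.b, spans eps c b
  ts : ∀ t ∈ c.t, spans eps c t
  lt : ∀ p ∈ c.p, ∀ q ∈ c.q, X eps p < X eps q
  bt : ∀ b ∈ c.b, ∀ t ∈ c.t, ∀ z ∈ carrier b, inSlab eps c z → ori t z < 0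

theorem Shape.shape0 {eps : ℝ} {c : Cell} (h : Shape eps c) : Shape0 eps c :=
  ⟨h.bs, h.ts, h.lt, h.bt⟩

/-- `d` is a piece of `c` with respect to the new segments `N` (semantic form of `isPc`). -/
structure PieceOK (eps : ℝ) (c : Cell) (N : Finset Seg) (d : Cell) : Prop where
  sh0 : Shape0 eps d
  bN : d.b = c.b ∨ ∃ b ∈ d.b, b ∈ N ∧ confl eps ⟨c.b, c.t, d.p, d.q⟩ b
  tN : d.t = c.t ∨ ∃ t ∈ d.t, t ∈ N ∧ confl eps ⟨c.b, c.t, d.p, d.q⟩ t
  empN : ∀ s ∈ N, ¬ confl eps d s
  empb : ∀ b ∈ c.b, ¬ confl eps d b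
  empt : ∀ t ∈ c.t, ¬ confl eps d t
  pN : d.p = c.p ∨ ∃ p ∈ d.p, inBand d p ∧ p ∈ hreg eps c ∧
    IsCrit (N ∪ (c.b.toFinset ∪ c.t.toFinset)) p
  qN : d.q = c.q ∨ ∃ q ∈ d.q, inBand d q ∧ q ∈ hreg eps c ∧
    IsCrit (N ∪ (c.b.toFinset ∪ c.t.toFinset)) q

open Classical in
/-- the left wall of the intersection of two cells -/
noncomputable def maxP (eps : ℝ) (u v : Option ℂ) : Option ℂ :=
  u.elim v (fun a => v.elim (some a) (fun b => if X eps a < X eps b then some b else some a))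

open Classical in
/-- the right wall of the intersection of two cells -/
noncomputable def minQ (eps : ℝ) (u v : Option ℂ) : Option ℂ :=
  u.elim v (fun a => v.elim (some a) (fun b => if X eps b < X eps a then some b else some a))

/-- the intersection of the cell `c` of `R` with the cell `c'` of a larger set `R'` -/
noncomputable def infC (eps : ℝ) (c c' : Cell) : Cell :=
  ⟨c'.b, c'.t, maxP eps c.p c'.p, minQ eps c.q c'.q⟩

/-- `d` is the piece `c ∩ c'` -/
structure IsP (eps : ℝ) (R R' : Finset Seg) (c c' d : Cell) : Prop where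
  vc : Valid eps R c
  vc' : Valid eps R' c'
  ne : (reg eps c ∩ reg eps c').Nonempty
  eq : d = infC eps c c'

open Classical in
/-- the segments of level less than `i` -/
noncomputable def lev (S : Finset Seg) (lv : Seg → ℕ) (i : ℕ) : Finset Seg :=
  S.filter (fun s => lv s < i)

theorem lev_subset (S : Finset Seg) (lv : Seg → ℕ) (i : ℕ) : lev S lv i ⊆ S :=
  Finset.filter_subset _ _

theorem lev_mono (S : Finset Seg) (lv : Seg → ℕ) {i j : ℕ} (h : i ≤ j) :
    lev S lv i ⊆ lev S lv j := by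
  intro s hs
  simp only [lev, Finset.mem_filter] at hs ⊢
  exact ⟨hs.1, by omega⟩

/-- The invariant of the rounds: before round `i` the list describes the trapezoids of the face of
`x` in the arrangement of the segments of level `< i`. -/
structure Inv (eps : ℝ) (S : Finset Seg) (lv : Seg → ℕ) (x : ℂ) (i : ℕ) (recs : List Rec) :
    Prop where
  nodup : (recs.map Rec.c).Nodup
  mem : ∀ c, c ∈ recs.map Rec.c ↔ c ∈ TF eps (lev S lv i) x
  K : ∀ r ∈ recs, ∀ s l, (s, l) ∈ r.K ↔ s ∈ S ∧ l = lv s ∧ i ≤ lv s ∧ confl eps r.c s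
  Knd : ∀ r ∈ recs, r.K.Nodup
  nb : ∀ r ∈ recs, ∀ j, j ∈ r.nb ↔ ∃ h : j < recs.length, adj r.c (recs[j]).c
  nbnd : ∀ r ∈ recs, r.nb.Nodup

end SFA
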