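import Pool.Agent.Lib.SFA.Nest

/-!
# SFA.InfC: the region of the intersection of two cells, points of a region over a given abscissa

`inSlab_inf`: case distinction on the four options, `maxP`, `minQ`.
`InX_inf`: the same for the closed slabs.
`reg_inf`: `z ∈ reg (infC c c')` iff `inSlab c z`, `inSlab c' z`, `OpenBand c' z`; the latter two mean `z ∈ reg c'`; then `z ∈ reg c` by `nest_open`.
`hreg_inf`, `hreg_inf_left`: the same with `nest_band`.
`exists_reg_at`: for a cell with `Shape0` (bottom and top directed to the right) and an abscissa `a` strictly between the walls there is a point of the region with abscissa `a`: height strictly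
between `ht b a` and `ht t a` (`bt` at the point `pt eps a (ht b a)` of `b`), or below / above the only one, or 0.
`exists_gen_reg`: moreover `a` can be chosen strictly between any two given abscissas `a₁ < a₂` of the closed slab and outside a finite set `F`.
`IsP.reg_eq`, `IsP.ne'`: for pieces.  `IsP.unique`: `reg d = reg c ∩ reg c'` is not empty, `valid_unique`.
-/

namespace SFA

open Set Filter Topology

namespace InfCAux

theorem maxP_iff (eps : ℝ) (u v : Option ℂ) (P : ℝ → Prop)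
    (hP : ∀ r s, r ≤ s → P s → P r) :
    (∀ p ∈ maxP eps u v, P (X eps p)) ↔ (∀ p ∈ u, P (X eps p)) ∧ (∀ p ∈ v, P (X eps p)) := by
  rcases u with _ | a <;> rcases v with _ | b
  · simp [maxP]
  · simp [maxP]
  · simp [maxP]
  · by_cases h : X eps a < X eps b
    · simp [maxP, h]
      exact fun hb => hP _ _ h.le hb
    · simp [maxP, h]
      exact fun ha => hP _ _ (not_lt.mp h) ha

theorem minQ_iff (eps : ℝ) (u v : Option ℂ) (P : ℝ → Prop)
    (hP : ∀ r s, r ≤ s → P r → P s) :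
    (∀ p ∈ minQ eps u v, P (X eps p)) ↔ (∀ p ∈ u, P (X eps p)) ∧ (∀ p ∈ v, P (X eps p)) := by
  rcases u with _ | a <;> rcases v with _ | b
  · simp [minQ]
  · simp [minQ]
  · simp [minQ]
  · by_cases h : X eps b < X eps a
    · simp [minQ, h]
      exact fun hb => hP _ _ h.le hb
    · simp [minQ, h]
      exact fun ha => hP _ _ (not_lt.mp h) ha

theorem inX_of_inSlab {eps : ℝ} {c : Cell} {z : ℂ} (h : inSlab eps c z) : InX eps c (X eps z) :=
  ⟨fun p hp => (h.1 p hp).le, fun q hq => (h.2 q hq).le⟩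

end InfCAux

open InfCAux

theorem inSlab_inf (eps : ℝ) (c c' : Cell) (z : ℂ) :
    inSlab eps (infC eps c c') z ↔ inSlab eps c z ∧ inSlab eps c' z := by
  unfold inSlab
  have h1 := maxP_iff eps c.p c'.p (fun r => r < X eps z) (fun r s h h' => lt_of_le_of_lt h h')
  have h2 := minQ_iff eps c.q c'.q (fun r => X eps z < r) (fun r s h h' => lt_of_lt_of_le h' h)
  have e1 : (infC eps c c').p = maxP eps c.p c'.p := rfl
  have e2 : (infC eps c c').q = minQ eps c.q c'.q := rfl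
  rw [e1, e2, h1, h2]
  tauto

theorem InX_inf (eps : ℝ) (c c' : Cell) (a : ℝ) :
    InX eps (infC eps c c') a ↔ InX eps c a ∧ InX eps c' a := by
  unfold InX
  have h1 := maxP_iff eps c.p c'.p (fun r => r ≤ a) (fun r s h h' => le_trans h h')
  have h2 := minQ_iff eps c.q c'.q (fun r => a ≤ r) (fun r s h h' => le_trans h' h)
  have e1 : (infC eps c c').p = maxP eps c.p c'.p := rfl
  have e2 : (infC eps c c').q = minQ eps c.q c'.q := rfl
  rw [e1, e2, h1, h2]
  tauto

theorem reg_inf {eps : ℝ} {S R R' : Finset Seg} {x : ℂ} (hG : Gen eps S x) (hR : R ⊆ R')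
    (hR' : R' ⊆ S) {c c' : Cell} (hc : Valid eps R c) (hc' : Valid eps R' c')
    (hne : (reg eps c ∩ reg eps c').Nonempty) :
    reg eps (infC eps c c') = reg eps c ∩ reg eps c' := by
  ext z
  constructor
  · rintro ⟨h1, h2, h3⟩
    rw [inSlab_inf] at h1
    have hO : OpenBand c' z := ⟨h2, h3⟩
    have hO' := nest_open hG hR hR' hc hc' hne (inX_of_inSlab h1.1) (inX_of_inSlab h1.2) hO
    exact ⟨⟨h1.1, hO'.1, hO'.2⟩, ⟨h1.2, h2, h3⟩⟩
  · rintro ⟨⟨h1, _, _⟩, ⟨h4, h5, h6⟩⟩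
    exact ⟨(inSlab_inf eps c c' z).mpr ⟨h1, h4⟩, h5, h6⟩

theorem hreg_inf {eps : ℝ} (c c' : Cell) (z : ℂ) :
    z ∈ hreg eps (infC eps c c') ↔ inSlab eps c z ∧ z ∈ hreg eps c' := by
  constructor
  · rintro ⟨h1, h2⟩
    rw [inSlab_inf] at h1
    exact ⟨h1.1, h1.2, h2⟩
  · rintro ⟨h1, h2, h3⟩
    exact ⟨(inSlab_inf eps c c' z).mpr ⟨h1, h2⟩, h3⟩

theorem hreg_inf_left {eps : ℝ} {S R R' : Finset Seg} {x : ℂ} (hG : Gen eps S x) (hR : R ⊆ R')
    (hR' : R' ⊆ S) {c c' : Cell} (hc : Valid eps R c) (hc' : Valid eps R' c')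
    (hne : (reg eps c ∩ reg eps c').Nonempty) :
    hreg eps (infC eps c c') ⊆ hreg eps c := by
  intro z hz
  rw [hreg_inf] at hz
  obtain ⟨h1, h2, h3⟩ := hz
  exact ⟨h1, nest_band hG hR hR' hc hc' hne (inX_of_inSlab h1) (inX_of_inSlab h2) h3⟩

theorem exists_reg_at {eps : ℝ} {c : Cell} (h0 : Shape0 eps c)
    (hb : ∀ b ∈ c.b, X eps b.1 < X eps b.2) (ht' : ∀ t ∈ c.t, X eps t.1 < X eps t.2) {a : ℝ}
    (h1 : ∀ p ∈ c.p, X eps p < a) (h2 : ∀ q ∈ c.q, a < X eps q) :
    ∃ z ∈ reg eps c, X eps z = a := by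
  have hy : ∃ y : ℝ, (∀ b ∈ c.b, ht eps b a < y) ∧ (∀ t ∈ c.t, y < ht eps t a) := by
    rcases hb' : c.b with _ | b <;> rcases ht'' : c.t with _ | t
    · exact ⟨0, fun p h => by simp at h, fun q h => by simp at h⟩
    · refine ⟨ht eps t a - 1, fun p h => by simp at h, fun q' h => ?_⟩
      obtain rfl : t = q' := Option.some.inj h
      linarith
    · refine ⟨ht eps b a + 1, fun p' h => ?_, fun q' h => by simp at h⟩
      obtain rfl : b = p' := Option.some.inj h
      linarith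
    · have hbi := hb b hb'
      have hti := ht' t ht''
      obtain ⟨⟨p, hp, h3⟩, ⟨q, hq, h4⟩⟩ := h0.bs b hb'
      have hw : pt eps a (ht eps b a) ∈ carrier b :=
        pt_mem_carrier hbi (h3.trans (h1 p hp).le) ((h2 q hq).le.trans h4)
      have hws : inSlab eps c (pt eps a (ht eps b a)) := by
        unfold inSlab
        rw [X_pt]
        exact ⟨h1, h2⟩
      have h5 := h0.bt b hb' t ht'' _ hw hws
      rw [ori_neg_iff hti, X_pt, pt_im] at h5
      refine ⟨(ht eps b a + ht eps t a) / 2, fun p' h => ?_, fun q' h => ?_⟩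
      · obtain rfl : b = p' := Option.some.inj h
        linarith
      · obtain rfl : t = q' := Option.some.inj h
        linarith
  obtain ⟨y, hy1, hy2⟩ := hy
  refine ⟨pt eps a y, ⟨?_, ?_, ?_⟩, X_pt _ _ _⟩
  · unfold inSlab
    rw [X_pt]
    exact ⟨h1, h2⟩
  · intro b hb1
    rw [ori_pos_iff (hb b hb1), X_pt, pt_im]
    exact hy1 b hb1
  · intro t ht1
    rw [ori_neg_iff (ht' t ht1), X_pt, pt_im]
    exact hy2 t ht1

theorem exists_gen_reg {eps : ℝ} {c : Cell} (h0 : Shape0 eps c)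
    (hb : ∀ b ∈ c.b, X eps b.1 < X eps b.2) (ht' : ∀ t ∈ c.t, X eps t.1 < X eps t.2)
    {a₁ a₂ : ℝ} (h12 : a₁ < a₂) (h1 : InX eps c a₁) (h2 : InX eps c a₂) {F : Set ℝ}
    (hF : F.Finite) : ∃ z ∈ reg eps c, a₁ < X eps z ∧ X eps z < a₂ ∧ X eps z ∉ F := by
  obtain ⟨a, ⟨ha1, ha2⟩, haF⟩ := ((Set.Ioo_infinite h12).sdiff hF).nonempty
  obtain ⟨z, hz, hza⟩ := exists_reg_at h0 hb ht' (a := a)
    (fun p hp => (h1.1 p hp).trans_lt ha1) (fun q hq => ha2.trans_le (h2.2 q hq))
  exact ⟨z, hz, by rw [hza]; exact ha1, by rw [hza]; exact ha2, by rw [hza]; exact haF⟩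

theorem IsP.reg_eq {eps : ℝ} {S R R' : Finset Seg} {x : ℂ} (hG : Gen eps S x) (hR : R ⊆ R')
    (hR' : R' ⊆ S) {c c' d : Cell} (h : IsP eps R R' c c' d) :
    reg eps d = reg eps c ∩ reg eps c' := by
  rw [h.eq]
  exact reg_inf hG hR hR' h.vc h.vc' h.ne

theorem IsP.unique {eps : ℝ} {S R R' : Finset Seg} {x : ℂ} (hG : Gen eps S x) (hR : R ⊆ R')
    (hR' : R' ⊆ S) {c c1 c2 d : Cell} (h1 : IsP eps R R' c c1 d) (h2 : IsP eps R R' c c2 d) :
    c1 = c2 := by
  obtain ⟨z, hz⟩ := h1.ne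
  have e1 := h1.reg_eq hG hR hR'
  have e2 := h2.reg_eq hG hR hR'
  have hz2 : z ∈ reg eps c ∩ reg eps c2 := by
    rw [← e2, e1]
    exact hz
  exact valid_unique (hG.mono hR') h1.vc' h2.vc' hz.2 hz2.2

end SFA
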