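import Pool.Agent.Lib.SFA.InfC

/-!
# SFA.PcInfA: an intersection of cells is a piece

`d = infC c c'`, `z₀ ∈ reg c ∩ reg c'`, `N = {s ∈ R' | confl c s}`.
* `sh0`: `b' ∈ c'.b` spans the slab of `c'` (so `c'.p`, `c'.q` are `some`, and then `d.p`, `d.q` too) and `X b'.1 ≤ X c'.p ≤ X d.p`, `X d.q ≤ X c'.q ≤ X b'.2`; `lt`: `X d.p < X z₀ < X d.q`
  (`inSlab_inf`); `bt` from `c'` (`inSlab_inf`).
* `bN`: if `c'.b ≠ c.b` then `c'.b = some b'` (if `c'.b = none` then `c.b = some b` and `nest_b` gives an element of `c'.b`), and `b' ∉ c.b`.  The point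
  `y = pt eps (X z₀) (ht b' (X z₀))` of `b'` is strictly below `z₀`, so strictly below `c.t`, and above `c.b` by `nest_b`; so `y` is in `hreg c` and in `hreg ⟨c.b, c.t, d.p, d.q⟩`.
  `b' ∉ c.t` (the top of `c` is strictly above `z₀`).  So `b'` conflicts with both; `b' ∈ R'`, so `b' ∈ N`.  `tN`: same.
* `empN`, `empb`, `empt`: `s ∈ R'` (`R ⊆ R'`), a conflict with `d` is a conflict with `c'` (`hreg_inf`, `d.b = c'.b`, `d.t = c'.t`): against `emp`.
* `pN`: if `d.p = maxP c.p c'.p ≠ c.p` then `c'.p = some p`, `d.p = some p` and `X p₀ < X p` for `p₀ ∈ c.p`.  `inBand c' p` (`pb`).  `p ∈ hreg c`: slab `X p < X z₀ < X c.q`; band by `nest_band`.  `p` is critical for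
  `R'`; every `s ∈ R'` containing `p ∈ hreg c` is `c.b`, `c.t` or conflicts with `c`, i.e. is in `N ∪ {c.b, c.t}`; so `p` is critical for `N ∪ {b, t}`.  `qN`: same.
-/

namespace SFA

open Set Filter Topology

private theorem maxP_ge {eps : ℝ} {u v : Option ℂ} {b : ℂ} (hb : b ∈ v) :
    ∃ p ∈ maxP eps u v, X eps b ≤ X eps p := by
  have hv : v = some b := hb
  subst hv
  rcases u with _ | a
  · exact ⟨b, by simp [maxP], le_rfl⟩
  · by_cases h : X eps a < X eps b
    · exact ⟨b, by simp [maxP, h], le_rfl⟩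
    · exact ⟨a, by simp [maxP, h], not_lt.1 h⟩

private theorem minQ_le {eps : ℝ} {u v : Option ℂ} {b : ℂ} (hb : b ∈ v) :
    ∃ q ∈ minQ eps u v, X eps q ≤ X eps b := by
  have hv : v = some b := hb
  subst hv
  rcases u with _ | a
  · exact ⟨b, by simp [minQ], le_rfl⟩
  · by_cases h : X eps b < X eps a
    · exact ⟨b, by simp [minQ, h], le_rfl⟩
    · exact ⟨a, by simp [minQ, h], not_lt.1 h⟩

private theorem maxP_cases (eps : ℝ) (u v : Option ℂ) :
    maxP eps u v = u ∨ ∃ p ∈ maxP eps u v, p ∈ v ∧ ∀ a ∈ u, X eps a < X eps p := by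
  rcases u with _ | a <;> rcases v with _ | b
  · left; simp [maxP]
  · right; exact ⟨b, by simp [maxP], by simp, by simp⟩
  · left; simp [maxP]
  · by_cases h : X eps a < X eps b
    · right; exact ⟨b, by simp [maxP, h], by simp, by simpa using h⟩
    · left; simp [maxP, h]

private theorem minQ_cases (eps : ℝ) (u v : Option ℂ) :
    minQ eps u v = u ∨ ∃ q ∈ minQ eps u v, q ∈ v ∧ ∀ a ∈ u, X eps q < X eps a := by
  rcases u with _ | a <;> rcases v with _ | b
  · left; simp [minQ]
  · right; exact ⟨b, by simp [minQ], by simp, by simp⟩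
  · left; simp [minQ]
  · by_cases h : X eps b < X eps a
    · right; exact ⟨b, by simp [minQ, h], by simp, by simpa using h⟩
    · left; simp [minQ, h]

private theorem mem_unique {α : Type*} {o : Option α} {a b : α} (ha : a ∈ o) (hb : b ∈ o) :
    a = b := by
  have h1 : o = some a := ha
  have h2 : o = some b := hb
  rw [h1] at h2
  exact Option.some.inj h2

private theorem crit_of_hreg {eps : ℝ} {R' : Finset Seg} {c : Cell} {N : Finset Seg}
    (hN : ∀ s, s ∈ N ↔ s ∈ R' ∧ confl eps c s) {p : ℂ} (hp : p ∈ hreg eps c)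
    (hcrit : IsCrit R' p) : IsCrit (N ∪ (c.b.toFinset ∪ c.t.toFinset)) p := by
  have key : ∀ s ∈ R', p ∈ carrier s → s ∈ N ∪ (c.b.toFinset ∪ c.t.toFinset) := by
    intro s hs hps
    rw [Finset.mem_union, Finset.mem_union, Option.mem_toFinset, Option.mem_toFinset]
    by_cases h1 : s ∈ c.b
    · exact Or.inr (Or.inl h1)
    · by_cases h2 : s ∈ c.t
      · exact Or.inr (Or.inr h2)
      · exact Or.inl ((hN s).2 ⟨hs, h1, h2, p, hps, hp⟩)
  rcases hcrit with ⟨s, hs, h | h⟩ | ⟨s, hs, t, ht', hst, h1, h2⟩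
  · exact Or.inl ⟨s, key s hs (h ▸ left_mem_carrier s), Or.inl h⟩
  · exact Or.inl ⟨s, key s hs (h ▸ right_mem_carrier s), Or.inr h⟩
  · exact Or.inr ⟨s, key s hs h1, t, key t ht' h2, hst, h1, h2⟩

theorem pieceOK_of_isP {eps : ℝ} {S R R' : Finset Seg} {x : ℂ} (hG : Gen eps S x) (hR : R ⊆ R')
    (hR' : R' ⊆ S) {c c' d : Cell} (h : IsP eps R R' c c' d) {N : Finset Seg}
    (hN : ∀ s, s ∈ N ↔ s ∈ R' ∧ confl eps c s) : PieceOK eps c N d := by
  obtain ⟨hc, hc', hne, rfl⟩ := h
  obtain ⟨z, hz, hz'⟩ := hne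
  have hne' : (reg eps c ∩ reg eps c').Nonempty := ⟨z, hz, hz'⟩
  have hslab : inSlab eps (infC eps c c') z := (inSlab_inf eps c c' z).2 ⟨hz.1, hz'.1⟩
  have hX1 : InX eps c (X eps z) := ⟨fun p hp => (hz.1.1 p hp).le, fun q hq => (hz.1.2 q hq).le⟩
  have hX2 : InX eps c' (X eps z) :=
    ⟨fun p hp => (hz'.1.1 p hp).le, fun q hq => (hz'.1.2 q hq).le⟩
  have incb : ∀ b ∈ c.b, X eps b.1 < X eps b.2 :=
    fun b hb => hG.inc b (hR' (hR (hc.defd.bR b hb)))
  have inct : ∀ b ∈ c.t, X eps b.1 < X eps b.2 :=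
    fun b hb => hG.inc b (hR' (hR (hc.defd.tR b hb)))
  have incb' : ∀ b ∈ c'.b, X eps b.1 < X eps b.2 :=
    fun b hb => hG.inc b (hR' (hc'.defd.bR b hb))
  have inct' : ∀ b ∈ c'.t, X eps b.1 < X eps b.2 :=
    fun b hb => hG.inc b (hR' (hc'.defd.tR b hb))
  have hemp : ∀ s ∈ R', ¬ confl eps (infC eps c c') s := by
    rintro s hs ⟨h1, h2, y, hy1, hy2⟩
    exact hc'.emp s hs ⟨h1, h2, y, hy1, ((hreg_inf c c' y).1 hy2).2⟩
  refine ⟨⟨?_, ?_, ?_, ?_⟩, ?_, ?_, ?_, ?_, ?_, ?_, ?_⟩
  · -- bs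
    intro b hb
    obtain ⟨⟨p, hp, hp'⟩, ⟨q, hq, hq'⟩⟩ := hc'.shape.bs b hb
    obtain ⟨p1, hp1, hp2⟩ := maxP_ge (eps := eps) (u := c.p) hp
    obtain ⟨q1, hq1, hq2⟩ := minQ_le (eps := eps) (u := c.q) hq
    exact ⟨⟨p1, hp1, hp'.trans hp2⟩, ⟨q1, hq1, hq2.trans hq'⟩⟩
  · intro b hb
    obtain ⟨⟨p, hp, hp'⟩, ⟨q, hq, hq'⟩⟩ := hc'.shape.ts b hb
    obtain ⟨p1, hp1, hp2⟩ := maxP_ge (eps := eps) (u := c.p) hp
    obtain ⟨q1, hq1, hq2⟩ := minQ_le (eps := eps) (u := c.q) hq
    exact ⟨⟨p1, hp1, hp'.trans hp2⟩, ⟨q1, hq1, hq2.trans hq'⟩⟩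
  · intro p hp q hq
    exact (hslab.1 p hp).trans (hslab.2 q hq)
  · intro b hb t ht' y hy hsl
    exact hc'.shape.bt b hb t ht' y hy ((inSlab_inf eps c c' y).1 hsl).2
  · -- bN
    by_cases hbb : c'.b = c.b
    · exact Or.inl hbb
    · right
      obtain ⟨b', hb'⟩ : ∃ b', b' ∈ c'.b := by
        rcases h0 : c'.b with _ | b'
        · exfalso
          rcases h1 : c.b with _ | b
          · exact hbb (by rw [h0, h1])
          · obtain ⟨b', hb', _⟩ := nest_b hG hR hR' hc hc' hne' b (by simp [h1])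
            rw [h0] at hb'
            simp at hb'
        · exact ⟨b', by simp⟩
      have hnb : b' ∉ c.b := by
        intro h1
        exact hbb ((show c'.b = some b' from hb').trans (show c.b = some b' from h1).symm)
      have hpos : 0 < ori b' z := hz'.2.1 b' hb'
      have hnt : b' ∉ c.t := by
        intro h1
        have := hz.2.2 b' h1
        linarith
      have hlt : ht eps b' (X eps z) < z.im := (ori_pos_iff (incb' b' hb') z).1 hpos
      obtain ⟨⟨p, hp, hp'⟩, ⟨q, hq, hq'⟩⟩ := hc'.shape.bs b' hb'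
      have hcar : pt eps (X eps z) (ht eps b' (X eps z)) ∈ carrier b' :=
        pt_mem_carrier (incb' b' hb') (hp'.trans (hz'.1.1 p hp).le)
          ((hz'.1.2 q hq).le.trans hq')
      have hband : inBand c (pt eps (X eps z) (ht eps b' (X eps z))) := by
        constructor
        · intro b hb
          obtain ⟨b'', hb'', hle⟩ := nest_b hG hR hR' hc hc' hne' b hb
          have : b'' = b' := mem_unique hb'' hb'
          subst this
          rw [ori_nonneg_iff (incb b hb)]
          simpa using hle _ hX1 hX2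
        · intro t ht'
          have h1 := (ori_neg_iff (inct t ht') z).1 (hz.2.2 t ht')
          rw [ori_nonpos_iff (inct t ht')]
          simp only [X_pt, pt_im]
          linarith
      refine ⟨b', hb', (hN b').2 ⟨hc'.defd.bR b' hb', hnb, hnt, _, hcar, ?_, hband⟩,
        hnb, hnt, _, hcar, ?_, hband⟩
      · exact ⟨fun p hp => by rw [X_pt]; exact hz.1.1 p hp,
          fun q hq => by rw [X_pt]; exact hz.1.2 q hq⟩
      · exact ⟨fun p hp => by rw [X_pt]; exact hslab.1 p hp,
          fun q hq => by rw [X_pt]; exact hslab.2 q hq⟩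
  · -- tN
    by_cases hbb : c'.t = c.t
    · exact Or.inl hbb
    · right
      obtain ⟨t', ht'⟩ : ∃ t', t' ∈ c'.t := by
        rcases h0 : c'.t with _ | t'
        · exfalso
          rcases h1 : c.t with _ | t
          · exact hbb (by rw [h0, h1])
          · obtain ⟨t', ht', _⟩ := nest_t hG hR hR' hc hc' hne' t (by simp [h1])
            rw [h0] at ht'
            simp at ht'
        · exact ⟨t', by simp⟩
      have hnt : t' ∉ c.t := by
        intro h1
        exact hbb ((show c'.t = some t' from ht').trans (show c.t = some t' from h1).symm)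
      have hneg : ori t' z < 0 := hz'.2.2 t' ht'
      have hnb : t' ∉ c.b := by
        intro h1
        have := hz.2.1 t' h1
        linarith
      have hlt : z.im < ht eps t' (X eps z) := (ori_neg_iff (inct' t' ht') z).1 hneg
      obtain ⟨⟨p, hp, hp'⟩, ⟨q, hq, hq'⟩⟩ := hc'.shape.ts t' ht'
      have hcar : pt eps (X eps z) (ht eps t' (X eps z)) ∈ carrier t' :=
        pt_mem_carrier (inct' t' ht') (hp'.trans (hz'.1.1 p hp).le)
          ((hz'.1.2 q hq).le.trans hq')
      have hband : inBand c (pt eps (X eps z) (ht eps t' (X eps z))) := by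
        constructor
        · intro b hb
          have h1 := (ori_pos_iff (incb b hb) z).1 (hz.2.1 b hb)
          rw [ori_nonneg_iff (incb b hb)]
          simp only [X_pt, pt_im]
          linarith
        · intro t ht1
          obtain ⟨t'', ht'', hle⟩ := nest_t hG hR hR' hc hc' hne' t ht1
          have : t'' = t' := mem_unique ht'' ht'
          subst this
          rw [ori_nonpos_iff (inct t ht1)]
          simpa using hle _ hX1 hX2
      refine ⟨t', ht', (hN t').2 ⟨hc'.defd.tR t' ht', hnb, hnt, _, hcar, ?_, hband⟩,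
        hnb, hnt, _, hcar, ?_, hband⟩
      · exact ⟨fun p hp => by rw [X_pt]; exact hz.1.1 p hp,
          fun q hq => by rw [X_pt]; exact hz.1.2 q hq⟩
      · exact ⟨fun p hp => by rw [X_pt]; exact hslab.1 p hp,
          fun q hq => by rw [X_pt]; exact hslab.2 q hq⟩
  · exact fun s hs => hemp s ((hN s).1 hs).1
  · exact fun b hb => hemp b (hR (hc.defd.bR b hb))
  · exact fun t ht' => hemp t (hR (hc.defd.tR t ht'))
  · -- pN
    rcases maxP_cases eps c.p c'.p with h0 | ⟨p, hp, hp', hlt⟩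
    · exact Or.inl h0
    · right
      have hpz : X eps p < X eps z := hz'.1.1 p hp'
      have hb' : inBand c' p := hc'.shape.pb p hp'
      have hsl : inSlab eps c p := ⟨hlt, fun q hq => hpz.trans (hz.1.2 q hq)⟩
      have hband : inBand c p := by
        refine nest_band hG hR hR' hc hc' hne' ⟨fun a ha => (hsl.1 a ha).le,
          fun q hq => (hsl.2 q hq).le⟩ ⟨?_, ?_⟩ hb'
        · intro a ha
          rw [mem_unique ha hp']
        · intro q hq
          exact (hc'.shape.lt p hp' q hq).le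
      exact ⟨p, hp, hb', ⟨hsl, hband⟩, crit_of_hreg hN ⟨hsl, hband⟩ (hc'.defd.pC p hp')⟩
  · -- qN
    rcases minQ_cases eps c.q c'.q with h0 | ⟨q, hq, hq', hlt⟩
    · exact Or.inl h0
    · right
      have hqz : X eps z < X eps q := hz'.1.2 q hq'
      have hb' : inBand c' q := hc'.shape.qb q hq'
      have hsl : inSlab eps c q := ⟨fun p hp => (hz.1.1 p hp).trans hqz, hlt⟩
      have hband : inBand c q := by
        refine nest_band hG hR hR' hc hc' hne' ⟨fun a ha => (hsl.1 a ha).le,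
          fun q hq => (hsl.2 q hq).le⟩ ⟨?_, ?_⟩ hb'
        · intro p hp
          exact (hc'.shape.lt p hp q hq').le
        · intro a ha
          rw [mem_unique ha hq']
      exact ⟨q, hq, hb', ⟨hsl, hband⟩, crit_of_hreg hN ⟨hsl, hband⟩ (hc'.defd.qC q hq')⟩

end SFA
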