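import Pool.Agent.Lib.SFA.ChainG
import Pool.Agent.Lib.SFA.ConflS
import Pool.Agent.Lib.SFA.PcInfA

/-!
# SFA.MergeK: the conflict list of a merged cell

`(s, l') ∈ mergeK l` iff `(s, l')` is in the list of the first piece, or in the list of a piece number `j ≥ 1` and `s` does not conflict with the piece number `j - 1` (`conflB_iff`: the piece number `j - 1` has `Shape0` and `Defd S`: it is `infC c c'`, from `Valid R' c'` and `Valid R c`).
Membership: if `s` conflicts with some piece take the first one (`Nat.find` or `List.find`).  `confl_chain` gives the statement for `c'`.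
Nodup: the lists of the single pieces are Nodup; if the same `(s, l')` came from the pieces `i < k` then `s` conflicts with both, `1 ≤ k`, and not with `k - 1`: contradiction to `confl_convex` (or to `i = k - 1`).  (`List.nodup_append`, `List.nodup_flatMap`, `List.zip`.)
-/

namespace SFA

open Set Filter Topology

namespace MergeKAux

/-- the segments that are new in the second of two consecutive pieces -/
noncomputable def fn (a : Pc × Pc) : List (Seg × ℕ) :=
  a.2.2.filter (fun k => !(conflB a.1.1 k.1))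

noncomputable def gn (l : List Pc) : List (Seg × ℕ) := (l.zip l.tail).flatMap fn

theorem mergeK_eq (l : List Pc) : mergeK l = (l.headD pc0).2 ++ gn l := rfl

theorem gn_one (a : Pc) : gn [a] = [] := by simp [gn]

theorem gn_cons (a b : Pc) (t : List Pc) : gn (a :: b :: t) = fn (a, b) ++ gn (b :: t) := by
  simp [gn]

theorem maxP_mem (eps : ℝ) (u v : Option ℂ) {p : ℂ} (hp : p ∈ maxP eps u v) : p ∈ u ∨ p ∈ v := by
  rcases u with _ | a <;> rcases v with _ | b
  · simp [maxP] at hp
  · simp [maxP] at hp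
    exact Or.inr (by simp [hp])
  · simp [maxP] at hp
    exact Or.inl (by simp [hp])
  · by_cases h : X eps a < X eps b
    · simp [maxP, h] at hp
      exact Or.inr (by simp [hp])
    · simp [maxP, h] at hp
      exact Or.inl (by simp [hp])

theorem minQ_mem (eps : ℝ) (u v : Option ℂ) {p : ℂ} (hp : p ∈ minQ eps u v) : p ∈ u ∨ p ∈ v := by
  rcases u with _ | a <;> rcases v with _ | b
  · simp [minQ] at hp
  · simp [minQ] at hp
    exact Or.inr (by simp [hp])
  · simp [minQ] at hp
    exact Or.inl (by simp [hp])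
  · by_cases h : X eps b < X eps a
    · simp [minQ, h] at hp
      exact Or.inr (by simp [hp])
    · simp [minQ, h] at hp
      exact Or.inl (by simp [hp])

theorem defd_inf {eps : ℝ} {S R R' : Finset Seg} (hR : R ⊆ R') (hR' : R' ⊆ S) {c c' d : Cell}
    (h : IsP eps R R' c c' d) : Defd S d := by
  obtain ⟨hc, hc', -, rfl⟩ := h
  refine ⟨fun b hb => hR' (hc'.defd.bR b hb), fun t ht1 => hR' (hc'.defd.tR t ht1),
    fun p hp => ?_, fun q hq => ?_⟩
  · rcases maxP_mem eps c.p c'.p hp with h | h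
    · exact (hc.defd.pC p h).mono (hR.trans hR')
    · exact (hc'.defd.pC p h).mono hR'
  · rcases minQ_mem eps c.q c'.q hq with h | h
    · exact (hc.defd.qC q h).mono (hR.trans hR')
    · exact (hc'.defd.qC q h).mono hR'

theorem conf_iff {eps : ℝ} {S R R' : Finset Seg} {x : ℂ} (hG : Gen eps S x)
    (hL : LexOK eps S x) (hR : R ⊆ R') (hR' : R' ⊆ S) {c c' d : Cell} (h : IsP eps R R' c c' d)
    {s : Seg} (hs : s ∈ S) : conflB d s = true ↔ confl eps d s := by
  classical
  refine conflB_iff hG hL ?_ (defd_inf hR hR' h) hs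
  exact (pieceOK_of_isP hG hR hR' h (N := R'.filter (fun s => confl eps c s))
    (fun s => Finset.mem_filter)).sh0

variable {eps : ℝ} {S : Finset Seg} {lv : Seg → ℕ} {i : ℕ}

theorem mem_fn (hS : Prop) {a b : Pc} {s : Seg} {l' : ℕ}
    (hb : (s, l') ∈ b.2 → hS) (hc : hS → (conflB a.1 s = true ↔ confl eps a.1 s)) :
    (s, l') ∈ fn (a, b) ↔ (s, l') ∈ b.2 ∧ ¬ confl eps a.1 s := by
  unfold fn
  rw [List.mem_filter]
  constructor
  · rintro ⟨h1, h2⟩
    refine ⟨h1, fun h3 => ?_⟩
    rw [(hc (hb h1)).2 h3] at h2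
    simp at h2
  · rintro ⟨h1, h2⟩
    refine ⟨h1, ?_⟩
    have h3 : conflB a.1 s = false := by
      rw [← Bool.not_eq_true]
      exact fun h4 => h2 ((hc (hb h1)).1 h4)
    simp [h3]

theorem mem_aux {l : List Pc} (hne : l ≠ [])
    (hcf : ∀ a ∈ l, ∀ s ∈ S, (conflB a.1 s = true ↔ confl eps a.1 s))
    (hK : ∀ a ∈ l, ∀ s l', (s, l') ∈ a.2 ↔ s ∈ S ∧ l' = lv s ∧ i + 1 ≤ lv s ∧ confl eps a.1 s)
    (s : Seg) (l' : ℕ) :
    (s, l') ∈ mergeK l ↔ s ∈ S ∧ l' = lv s ∧ i + 1 ≤ lv s ∧ ∃ a ∈ l, confl eps a.1 s := by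
  rw [mergeK_eq, List.mem_append]
  induction l with
  | nil => exact absurd rfl hne
  | cons a t ih =>
    rcases t with _ | ⟨b, t⟩
    · rw [gn_one]
      have h1 := hK a (by simp) s l'
      simp only [List.headD_cons, List.not_mem_nil, or_false, List.mem_singleton,
        exists_eq_left, h1]
    · have h1 := hK a (by simp) s l'
      have h2 := hK b (by simp) s l'
      have ih' := ih (by simp) (fun a' ha' => hcf a' (List.mem_cons_of_mem _ ha'))
        (fun a' ha' => hK a' (List.mem_cons_of_mem _ ha'))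
      rw [gn_cons, List.mem_append, mem_fn (s ∈ S) (fun h => (h2.1 h).1) (hcf a (by simp) s)]
      simp only [List.headD_cons] at ih' ⊢
      constructor
      · rintro (h | ⟨h, -⟩ | h)
        · obtain ⟨h3, h4, h5, h6⟩ := h1.1 h
          exact ⟨h3, h4, h5, a, by simp, h6⟩
        · obtain ⟨h3, h4, h5, h6⟩ := h2.1 h
          exact ⟨h3, h4, h5, b, by simp, h6⟩
        · obtain ⟨h3, h4, h5, a', h6, h7⟩ := ih'.1 (Or.inr h)
          exact ⟨h3, h4, h5, a', List.mem_cons_of_mem _ h6, h7⟩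
      · rintro ⟨h3, h4, h5, a', h6, h7⟩
        by_cases hca : confl eps a.1 s
        · exact Or.inl (h1.2 ⟨h3, h4, h5, hca⟩)
        · rcases List.mem_cons.1 h6 with rfl | h6
          · exact absurd h7 hca
          · rcases ih'.2 ⟨h3, h4, h5, a', h6, h7⟩ with h | h
            · exact Or.inr (Or.inl ⟨h, hca⟩)
            · exact Or.inr (Or.inr h)

/-- an element of `gn l` comes from a piece, and does not conflict with the piece before -/
theorem exists_of_mem_gn {l : List Pc}
    (hcf : ∀ a ∈ l, ∀ s ∈ S, (conflB a.1 s = true ↔ confl eps a.1 s))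
    (hK : ∀ a ∈ l, ∀ s l', (s, l') ∈ a.2 ↔ s ∈ S ∧ l' = lv s ∧ i + 1 ≤ lv s ∧ confl eps a.1 s)
    {s : Seg} {l' : ℕ} (h : (s, l') ∈ gn l) :
    ∃ (j : ℕ) (hj : j + 1 < l.length), (s, l') ∈ (l[j + 1]).2 ∧ ¬ confl eps (l[j]).1 s := by
  induction l with
  | nil => simp [gn] at h
  | cons a t ih =>
    rcases t with _ | ⟨b, t⟩
    · rw [gn_one] at h
      simp at h
    · rw [gn_cons, List.mem_append] at h
      rcases h with h | h
      · rw [mem_fn (s ∈ S) (fun h => ((hK b (by simp) s l').1 h).1) (hcf a (by simp) s)] at h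
        exact ⟨0, by simp, h.1, h.2⟩
      · obtain ⟨j, hj, h1, h2⟩ := ih (fun a' ha' => hcf a' (List.mem_cons_of_mem _ ha'))
          (fun a' ha' => hK a' (List.mem_cons_of_mem _ ha')) h
        exact ⟨j + 1, by simpa using hj, h1, h2⟩

theorem nodup_aux {l : List Pc} (hne : l ≠ [])
    (hcf : ∀ a ∈ l, ∀ s ∈ S, (conflB a.1 s = true ↔ confl eps a.1 s))
    (hK : ∀ a ∈ l, ∀ s l', (s, l') ∈ a.2 ↔ s ∈ S ∧ l' = lv s ∧ i + 1 ≤ lv s ∧ confl eps a.1 s)
    (hnd : ∀ a ∈ l, a.2.Nodup)
    (hcv : ∀ s ∈ S, i + 1 ≤ lv s → ∀ (u v w : ℕ) (_ : u < v) (_ : v < w) (_ : w < l.length),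
      confl eps (l[u]).1 s → confl eps (l[w]).1 s → confl eps (l[v]).1 s) :
    (mergeK l).Nodup := by
  rw [mergeK_eq]
  induction l with
  | nil => exact absurd rfl hne
  | cons a t ih =>
    rcases t with _ | ⟨b, t⟩
    · rw [gn_one, List.append_nil]
      exact hnd a (by simp)
    · have ih' := ih (by simp) (fun a' ha' => hcf a' (List.mem_cons_of_mem _ ha'))
        (fun a' ha' => hK a' (List.mem_cons_of_mem _ ha'))
        (fun a' ha' => hnd a' (List.mem_cons_of_mem _ ha'))
        (fun s hs hlv u v w huv hvw hw h1 h2 =>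
          hcv s hs hlv (u + 1) (v + 1) (w + 1) (by omega) (by omega) (by simpa using hw) h1 h2)
      simp only [List.headD_cons] at ih' ⊢
      rw [List.nodup_append'] at ih' ⊢
      obtain ⟨h1, h2, h3⟩ := ih'
      have hfn : ∀ k, k ∈ fn (a, b) → k ∈ b.2 := fun k hk => (List.mem_filter.1 hk).1
      refine ⟨hnd a (by simp), ?_, ?_⟩
      · rw [gn_cons, List.nodup_append']
        exact ⟨h1.filter _, h2, fun k hk hk' => h3 (hfn k hk) hk'⟩
      · intro k hk hk'
        obtain ⟨s, l'⟩ := k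
        obtain ⟨h4, h5, h6, h7⟩ := (hK a (by simp) s l').1 hk
        rw [gn_cons, List.mem_append] at hk'
        rcases hk' with h | h
        · rw [mem_fn (s ∈ S) (fun _ => h4) (hcf a (by simp) s)] at h
          exact h.2 h7
        · obtain ⟨j, hj, h8, h9⟩ := exists_of_mem_gn
            (fun a' ha' => hcf a' (List.mem_cons_of_mem _ ha'))
            (fun a' ha' => hK a' (List.mem_cons_of_mem _ ha')) h
          have h10 := ((hK _ (List.mem_cons_of_mem _ (List.getElem_mem hj)) s l').1 h8).2.2.2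
          exact h9 (hcv s h4 h6 0 (j + 1) (j + 2) (by omega) (by omega) (by simpa using hj) h7 h10)

end MergeKAux

open MergeKAux

theorem mem_mergeK {eps : ℝ} {S : Finset Seg} {x : ℂ} (hG : Gen eps S x) (hL : LexOK eps S x)
    {lv : Seg → ℕ} {i : ℕ} {c' : Cell} {l : List Pc}
    (h : PChain eps (lev S lv i) (lev S lv (i + 1)) c' l)
    (hK : ∀ a ∈ l, ∀ s l', (s, l') ∈ a.2 ↔ s ∈ S ∧ l' = lv s ∧ i + 1 ≤ lv s ∧ confl eps a.1 s)
    (s : Seg) (l' : ℕ) :
    (s, l') ∈ mergeK l ↔ s ∈ S ∧ l' = lv s ∧ i + 1 ≤ lv s ∧ confl eps c' s := by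
  have hR : lev S lv i ⊆ lev S lv (i + 1) := lev_mono S lv (Nat.le_succ i)
  have hR' : lev S lv (i + 1) ⊆ S := lev_subset S lv (i + 1)
  rw [mem_aux h.ne (fun a ha s hs => ?_) hK]
  · refine and_congr_right fun h1 => and_congr_right fun _ => and_congr_right fun h3 => ?_
    refine (confl_chain hG hR hR' h h1 fun h4 => ?_).symm
    simp only [lev, Finset.mem_filter] at h4
    omega
  · obtain ⟨c, hc⟩ := h.isP a ha
    exact conf_iff hG hL hR hR' hc hs

theorem nodup_mergeK {eps : ℝ} {S : Finset Seg} {x : ℂ} (hG : Gen eps S x) (hL : LexOK eps S x)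
    {lv : Seg → ℕ} {i : ℕ} {c' : Cell} {l : List Pc}
    (h : PChain eps (lev S lv i) (lev S lv (i + 1)) c' l)
    (hK : ∀ a ∈ l, ∀ s l', (s, l') ∈ a.2 ↔ s ∈ S ∧ l' = lv s ∧ i + 1 ≤ lv s ∧ confl eps a.1 s)
    (hnd : ∀ a ∈ l, a.2.Nodup) : (mergeK l).Nodup := by
  have hR : lev S lv i ⊆ lev S lv (i + 1) := lev_mono S lv (Nat.le_succ i)
  have hR' : lev S lv (i + 1) ⊆ S := lev_subset S lv (i + 1)
  refine nodup_aux h.ne (fun a ha s hs => ?_) hK hnd fun s hs h3 u v w huv hvw hw h1 h2 => ?_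
  · obtain ⟨c, hc⟩ := h.isP a ha
    exact conf_iff hG hL hR hR' hc hs
  · refine confl_convex hG hR hR' h hs (fun h4 => ?_) huv hvw hw h1 h2
    simp only [lev, Finset.mem_filter] at h4
    omega

end SFA
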