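import Pool.Agent.Lib.SFA.G2Defs
import Pool.Agent.Lib.SFA.NoCrit
import Pool.Agent.Lib.SFA.Uniq
import Pool.Agent.Lib.SFA.Ivt

/-!
# SFA.Nest: a cell of a larger set of segments is inside the cells it meets

`R ⊆ R' ⊆ S`, `c` valid for `R`, `c'` valid for `R'`, `z` in both regions.
`nest_b`: let `b ∈ c.b`, so `b ∈ R'`.  If `b ∈ c'.b` take `b' = b`.  Otherwise let `y = pt eps (X z) (ht b (X z))`: on `carrier b` (`spans`, `pt_mem_carrier`), strictly below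
`z`, hence `ori t' y < 0` for `t' ∈ c'.t` (`ori_neg_iff`), and `b ∉ c'.t` (the top of `c'` is strictly above `z`).  If `c'.b = none`, or `c'.b = some b'` with
`ht b' (X z) ≤ ht b (X z)`, then `y ∈ hreg c'` and `b` conflicts with `c'`: against `emp`.  So `c'.b = some b'`, `ht b (X z) < ht b' (X z)`.  Let `a` be in both closed slabs and suppose
`ht b' a < ht b a`.  `cross_ht` between `a` and `X z`: there is an abscissa `e` between, different from both (strict inequalities there), with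
`w = pt eps e (ht b e)` on both.  `e` is in the open slabs of both; `w ∈ hreg c'` (`ori b' w = 0`, `ori t' w < 0` by `bt`), so `b` conflicts with `c'` (`b ∉ c'.b`, `b ∉ c'.t`): contradiction.
`nest_t`: upside down.
`nest_open`, `nest_band`: from `nest_b`, `nest_t` and `ori_pos_iff` etc.
-/

namespace SFA

open Set Filter Topology

/-- `a` is in the closed slab of `c` -/
def InX (eps : ℝ) (c : Cell) (a : ℝ) : Prop :=
  (∀ p ∈ c.p, X eps p ≤ a) ∧ (∀ q ∈ c.q, a ≤ X eps q)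

/-- strictly between bottom and top -/
def OpenBand (c : Cell) (z : ℂ) : Prop := (∀ b ∈ c.b, 0 < ori b z) ∧ (∀ t ∈ c.t, ori t z < 0)

namespace NestAux

/-- two segments that change their vertical order strictly between two abscissas -/
theorem cross_strict {eps : ℝ} {s t : Seg} (hs : X eps s.1 < X eps s.2)
    (ht' : X eps t.1 < X eps t.2) {u v : ℝ} (hsu : X eps s.1 ≤ u) (hsu' : u ≤ X eps s.2)
    (hsv : X eps s.1 ≤ v) (hsv' : v ≤ X eps s.2) (htu : X eps t.1 ≤ u) (htu' : u ≤ X eps t.2)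
    (htv : X eps t.1 ≤ v) (htv' : v ≤ X eps t.2) (h1 : ht eps s u < ht eps t u)
    (h2 : ht eps t v < ht eps s v) :
    ∃ e, (u < e ∧ e < v ∨ v < e ∧ e < u) ∧ pt eps e (ht eps s e) ∈ carrier s ∧
      pt eps e (ht eps s e) ∈ carrier t := by
  rcases le_total u v with h | h
  · obtain ⟨e, h3, h4, h5, h6, h7⟩ := cross_ht hs ht' h hsu hsv' htu htv' h1.le h2.le
    refine ⟨e, Or.inl ⟨lt_of_le_of_ne h3 ?_, lt_of_le_of_ne h4 ?_⟩, h6, h7⟩
    · rintro rfl
      exact h1.ne h5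
    · rintro rfl
      exact h2.ne' h5
  · obtain ⟨e, h3, h4, h5, h6, h7⟩ := cross_ht ht' hs h htv htu' hsv hsu' h2.le h1.le
    refine ⟨e, Or.inr ⟨lt_of_le_of_ne h3 ?_, lt_of_le_of_ne h4 ?_⟩, ?_, ?_⟩
    · rintro rfl
      exact h2.ne h5
    · rintro rfl
      exact h1.ne' h5
    · rw [← h5]; exact h7
    · rw [← h5]; exact h6

/-- a segment that spans the slab of `c` is over all abscissas of the closed slab -/
theorem ovr {eps : ℝ} {c : Cell} {s : Seg} (h : spans eps c s) {a : ℝ} (ha : InX eps c a) :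
    X eps s.1 ≤ a ∧ a ≤ X eps s.2 := by
  obtain ⟨⟨p, hp, h1⟩, ⟨q, hq, h2⟩⟩ := h
  exact ⟨h1.trans (ha.1 p hp), (ha.2 q hq).trans h2⟩

theorem inX_of {eps : ℝ} {c : Cell} {z : ℂ} (h : inSlab eps c z) : InX eps c (X eps z) :=
  ⟨fun p hp => (h.1 p hp).le, fun q hq => (h.2 q hq).le⟩

theorem slab_pt {eps : ℝ} {c : Cell} {e y : ℝ} (h1 : ∀ p ∈ c.p, X eps p < e)
    (h2 : ∀ q ∈ c.q, e < X eps q) : inSlab eps c (pt eps e y) := by
  unfold inSlab
  rw [X_pt]
  exact ⟨h1, h2⟩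

/-- an abscissa strictly between one of the closed slab and one of the open slab -/
theorem slab_between {eps : ℝ} {c : Cell} {a : ℝ} {z : ℂ} {e : ℝ} (ha : InX eps c a)
    (hz : inSlab eps c z) (he : a < e ∧ e < X eps z ∨ X eps z < e ∧ e < a) :
    (∀ p ∈ c.p, X eps p < e) ∧ ∀ q ∈ c.q, e < X eps q := by
  rcases he with ⟨h1, h2⟩ | ⟨h1, h2⟩
  · exact ⟨fun p hp => (ha.1 p hp).trans_lt h1, fun q hq => h2.trans (hz.2 q hq)⟩
  · exact ⟨fun p hp => (hz.1 p hp).trans h1, fun q hq => h2.trans_le (ha.2 q hq)⟩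

end NestAux

open NestAux

theorem nest_b {eps : ℝ} {S R R' : Finset Seg} {x : ℂ} (hG : Gen eps S x) (hR : R ⊆ R')
    (hR' : R' ⊆ S) {c c' : Cell} (hc : Valid eps R c) (hc' : Valid eps R' c')
    (hne : (reg eps c ∩ reg eps c').Nonempty) :
    ∀ b ∈ c.b, ∃ b' ∈ c'.b, ∀ a, InX eps c a → InX eps c' a → ht eps b a ≤ ht eps b' a := by
  intro b hb
  obtain ⟨z, ⟨hz1, hz2, hz3⟩, ⟨hz1', hz2', hz3'⟩⟩ := hne
  have hbR : b ∈ R' := hR (hc.defd.bR b hb)
  have hinc : ∀ s ∈ R', X eps s.1 < X eps s.2 := fun s hs => hG.inc s (hR' hs)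
  by_cases hbb : b ∈ c'.b
  · exact ⟨b, hbb, fun a _ _ => le_rfl⟩
  have hbz := (ori_pos_iff (hinc b hbR) z).1 (hz2 b hb)
  have hbt : b ∉ c'.t := fun h => by
    have h1 := hz3' b h
    have h2 := hz2 b hb
    linarith
  have hob := ovr (hc.shape.bs b hb) (inX_of hz1)
  have hyb : pt eps (X eps z) (ht eps b (X eps z)) ∈ carrier b :=
    pt_mem_carrier (hinc b hbR) hob.1 hob.2
  have hex : ∃ b' ∈ c'.b, ht eps b (X eps z) < ht eps b' (X eps z) := by
    by_contra hcon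
    push Not at hcon
    refine hc'.emp b hbR ⟨hbb, hbt, _, hyb, slab_pt hz1'.1 hz1'.2, ?_, ?_⟩
    · intro b' hb'
      rw [ori_nonneg_iff (hinc b' (hc'.defd.bR b' hb')), X_pt, pt_im]
      exact hcon b' hb'
    · intro t' ht1
      have h1 := (ori_neg_iff (hinc t' (hc'.defd.tR t' ht1)) z).1 (hz3' t' ht1)
      rw [ori_nonpos_iff (hinc t' (hc'.defd.tR t' ht1)), X_pt, pt_im]
      exact (hbz.trans h1).le
  obtain ⟨b', hb', hlt⟩ := hex
  have hbR' := hc'.defd.bR b' hb'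
  refine ⟨b', hb', fun a ha ha' => ?_⟩
  by_contra hcon
  push Not at hcon
  have ho1 := ovr (hc.shape.bs b hb) ha
  have ho2 := ovr (hc'.shape.bs b' hb') ha'
  have ho3 := ovr (hc'.shape.bs b' hb') (inX_of hz1')
  obtain ⟨e, he, h1, h2⟩ := cross_strict (hinc b' hbR') (hinc b hbR) ho2.1 ho2.2 ho3.1 ho3.2
    ho1.1 ho1.2 hob.1 hob.2 hcon hlt
  obtain ⟨h3, h4⟩ := slab_between ha' hz1' he
  refine hc'.emp b hbR ⟨hbb, hbt, _, h2, slab_pt h3 h4, ?_, ?_⟩
  · intro b'' hb''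
    obtain rfl : b' = b'' := Option.mem_unique hb' hb''
    exact ((mem_carrier_iff (hinc b' hbR') _).1 h1).2.2.ge
  · intro t' ht1
    exact (hc'.shape.bt b' hb' t' ht1 _ h1 (slab_pt h3 h4)).le

theorem nest_t {eps : ℝ} {S R R' : Finset Seg} {x : ℂ} (hG : Gen eps S x) (hR : R ⊆ R')
    (hR' : R' ⊆ S) {c c' : Cell} (hc : Valid eps R c) (hc' : Valid eps R' c')
    (hne : (reg eps c ∩ reg eps c').Nonempty) :
    ∀ t ∈ c.t, ∃ t' ∈ c'.t, ∀ a, InX eps c a → InX eps c' a → ht eps t' a ≤ ht eps t a := by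
  intro b hb
  obtain ⟨z, ⟨hz1, hz2, hz3⟩, ⟨hz1', hz2', hz3'⟩⟩ := hne
  have hbR : b ∈ R' := hR (hc.defd.tR b hb)
  have hinc : ∀ s ∈ R', X eps s.1 < X eps s.2 := fun s hs => hG.inc s (hR' hs)
  by_cases hbb : b ∈ c'.t
  · exact ⟨b, hbb, fun a _ _ => le_rfl⟩
  have hbz := (ori_neg_iff (hinc b hbR) z).1 (hz3 b hb)
  have hbt : b ∉ c'.b := fun h => by
    have h1 := hz2' b h
    have h2 := hz3 b hb
    linarith
  have hob := ovr (hc.shape.ts b hb) (inX_of hz1)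
  have hyb : pt eps (X eps z) (ht eps b (X eps z)) ∈ carrier b :=
    pt_mem_carrier (hinc b hbR) hob.1 hob.2
  have hex : ∃ b' ∈ c'.t, ht eps b' (X eps z) < ht eps b (X eps z) := by
    by_contra hcon
    push Not at hcon
    refine hc'.emp b hbR ⟨hbt, hbb, _, hyb, slab_pt hz1'.1 hz1'.2, ?_, ?_⟩
    · intro t' ht1
      have h1 := (ori_pos_iff (hinc t' (hc'.defd.bR t' ht1)) z).1 (hz2' t' ht1)
      rw [ori_nonneg_iff (hinc t' (hc'.defd.bR t' ht1)), X_pt, pt_im]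
      exact (h1.trans hbz).le
    · intro b' hb'
      rw [ori_nonpos_iff (hinc b' (hc'.defd.tR b' hb')), X_pt, pt_im]
      exact hcon b' hb'
  obtain ⟨b', hb', hlt⟩ := hex
  have hbR' := hc'.defd.tR b' hb'
  refine ⟨b', hb', fun a ha ha' => ?_⟩
  by_contra hcon
  push Not at hcon
  have ho1 := ovr (hc.shape.ts b hb) ha
  have ho2 := ovr (hc'.shape.ts b' hb') ha'
  have ho3 := ovr (hc'.shape.ts b' hb') (inX_of hz1')
  obtain ⟨e, he, h1, h2⟩ := cross_strict (hinc b hbR) (hinc b' hbR') ho1.1 ho1.2 hob.1 hob.2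
    ho2.1 ho2.2 ho3.1 ho3.2 hcon hlt
  obtain ⟨h3, h4⟩ := slab_between ha' hz1' he
  refine hc'.emp b hbR ⟨hbt, hbb, _, h1, slab_pt h3 h4, ?_, ?_⟩
  · intro t' ht1
    exact (shape_tb hc'.shape (fun s hs => hinc s (hc'.defd.bR s hs))
      (fun s hs => hinc s (hc'.defd.tR s hs)) b' hb' t' ht1 _ h2 (slab_pt h3 h4)).le
  · intro b'' hb''
    obtain rfl : b' = b'' := Option.mem_unique hb' hb''
    exact ((mem_carrier_iff (hinc b' hbR') _).1 h2).2.2.le

theorem nest_open {eps : ℝ} {S R R' : Finset Seg} {x : ℂ} (hG : Gen eps S x) (hR : R ⊆ R')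
    (hR' : R' ⊆ S) {c c' : Cell} (hc : Valid eps R c) (hc' : Valid eps R' c')
    (hne : (reg eps c ∩ reg eps c').Nonempty) {z : ℂ} (h1 : InX eps c (X eps z))
    (h2 : InX eps c' (X eps z)) (h : OpenBand c' z) : OpenBand c z := by
  have hinc : ∀ s ∈ R', X eps s.1 < X eps s.2 := fun s hs => hG.inc s (hR' hs)
  refine ⟨fun b hb => ?_, fun t ht1 => ?_⟩
  · obtain ⟨b', hb', h3⟩ := nest_b hG hR hR' hc hc' hne b hb
    have h4 := (ori_pos_iff (hinc b' (hc'.defd.bR b' hb')) z).1 (h.1 b' hb')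
    exact (ori_pos_iff (hinc b (hR (hc.defd.bR b hb))) z).2 ((h3 _ h1 h2).trans_lt h4)
  · obtain ⟨t', ht2, h3⟩ := nest_t hG hR hR' hc hc' hne t ht1
    have h4 := (ori_neg_iff (hinc t' (hc'.defd.tR t' ht2)) z).1 (h.2 t' ht2)
    exact (ori_neg_iff (hinc t (hR (hc.defd.tR t ht1))) z).2 (h4.trans_le (h3 _ h1 h2))

theorem nest_band {eps : ℝ} {S R R' : Finset Seg} {x : ℂ} (hG : Gen eps S x) (hR : R ⊆ R')
    (hR' : R' ⊆ S) {c c' : Cell} (hc : Valid eps R c) (hc' : Valid eps R' c')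
    (hne : (reg eps c ∩ reg eps c').Nonempty) {z : ℂ} (h1 : InX eps c (X eps z))
    (h2 : InX eps c' (X eps z)) (h : inBand c' z) : inBand c z := by
  have hinc : ∀ s ∈ R', X eps s.1 < X eps s.2 := fun s hs => hG.inc s (hR' hs)
  refine ⟨fun b hb => ?_, fun t ht1 => ?_⟩
  · obtain ⟨b', hb', h3⟩ := nest_b hG hR hR' hc hc' hne b hb
    have h4 := (ori_nonneg_iff (hinc b' (hc'.defd.bR b' hb')) z).1 (h.1 b' hb')
    exact (ori_nonneg_iff (hinc b (hR (hc.defd.bR b hb))) z).2 ((h3 _ h1 h2).trans h4)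
  · obtain ⟨t', ht2, h3⟩ := nest_t hG hR hR' hc hc' hne t ht1
    have h4 := (ori_nonpos_iff (hinc t' (hc'.defd.tR t' ht2)) z).1 (h.2 t' ht2)
    exact (ori_nonpos_iff (hinc t (hR (hc.defd.tR t ht1))) z).2 (h4.trans (h3 _ h1 h2))

end SFA
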