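import Pool.Agent.Lib.SFA.Alg

/-!
# SFA.NumL: consecutive numbering of a list of lists

All by induction on `ls` generalizing `g` (`numberL g (l :: ls) = ((l.zipIdx g).map swap) :: numberL (g + l.length) ls`);
`(l.zipIdx g)[k] = (l[k], g + k)`.
-/

namespace SFA

theorem numberL_length {α : Type} (g : ℕ) (ls : List (List α)) :
    (numberL g ls).length = ls.length := by
  induction ls generalizing g with
  | nil => rfl
  | cons l ls ih => simp [numberL, ih]

theorem numberL_getD_length {α : Type} (g : ℕ) (ls : List (List α)) (i : ℕ) :
    ((numberL g ls).getD i []).length = (ls.getD i []).length := by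
  induction ls generalizing g i with
  | nil => simp [numberL]
  | cons l ls ih =>
    cases i with
    | zero => simp [numberL]
    | succ i => simpa [numberL] using ih (g + l.length) i

theorem numberL_flatten_snd {α : Type} (g : ℕ) (ls : List (List α)) :
    (numberL g ls).flatten.map Prod.snd = ls.flatten := by
  induction ls generalizing g with
  | nil => simp [numberL]
  | cons l ls ih =>
    rw [numberL, List.flatten_cons, List.map_append, ih, List.flatten_cons, List.map_map]
    congr 1
    exact List.zipIdx_map_fst g l

theorem numberL_flatten_fst {α : Type} (g : ℕ) (ls : List (List α)) :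
    (numberL g ls).flatten.map Prod.fst = List.range' g ls.flatten.length := by
  induction ls generalizing g with
  | nil => simp [numberL]
  | cons l ls ih =>
    rw [numberL, List.flatten_cons, List.map_append, ih, List.flatten_cons, List.map_map,
      List.length_append, ← List.range'_append_1]
    congr 1
    exact List.zipIdx_map_snd g l

/-- the second components of the `i`-th list are the `i`-th list -/
theorem numberL_getD_snd {α : Type} (g : ℕ) (ls : List (List α)) (i : ℕ) :
    ((numberL g ls).getD i []).map Prod.snd = ls.getD i [] := by
  induction ls generalizing g i with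
  | nil => simp [numberL]
  | cons l ls ih =>
    cases i with
    | zero =>
      rw [numberL, List.getD_cons_zero, List.getD_cons_zero, List.map_map]
      exact List.zipIdx_map_fst g l
    | succ i =>
      rw [numberL, List.getD_cons_succ, List.getD_cons_succ]
      exact ih (g + l.length) i

/-- a numbered element is the element of the flattened list with this number -/
theorem mem_numberL {α : Type} {g : ℕ} {ls : List (List α)} {i j : ℕ} {a : α}
    (h : (j, a) ∈ (numberL g ls).getD i []) :
    g ≤ j ∧ j < g + ls.flatten.length ∧ ls.flatten[j - g]? = some a ∧ i < ls.length := by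
  induction ls generalizing g i with
  | nil => simp [numberL] at h
  | cons l ls ih =>
    cases i with
    | zero =>
      rw [numberL, List.getD_cons_zero] at h
      obtain ⟨p, hp, hpe⟩ := List.mem_map.1 h
      have h1 : p = (a, j) := by
        rw [Prod.mk.injEq] at hpe
        exact Prod.ext hpe.2 hpe.1
      rw [h1, List.mem_zipIdx_iff_le_and_getElem?_sub] at hp
      obtain ⟨h2, h3⟩ := hp
      have h2' : g ≤ j := h2
      have h3' : l[j - g]? = some a := h3
      have h4 : j - g < l.length := by
        by_contra hc
        rw [List.getElem?_eq_none (by omega)] at h3'
        exact absurd h3' (by simp)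
      rw [List.flatten_cons, List.length_append]
      refine ⟨h2', by omega, ?_, by simp⟩
      rw [List.getElem?_append_left h4]
      exact h3'
    | succ i =>
      rw [numberL, List.getD_cons_succ] at h
      obtain ⟨h1, h2, h3, h4⟩ := ih h
      rw [List.flatten_cons, List.length_append]
      refine ⟨by omega, by omega, ?_, by rw [List.length_cons]; omega⟩
      rw [List.getElem?_append_right (by omega)]
      rw [show j - g - l.length = j - (g + l.length) by omega]
      exact h3

/-- every number below the total length occurs -/
theorem numberL_own {α : Type} (g : ℕ) (ls : List (List α)) {j : ℕ} (h1 : g ≤ j)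
    (h2 : j < g + ls.flatten.length) :
    ∃ i < ls.length, ∃ a, (j, a) ∈ (numberL g ls).getD i [] := by
  induction ls generalizing g with
  | nil =>
    rw [List.flatten_nil, List.length_nil] at h2
    omega
  | cons l ls ih =>
    by_cases hj : j < g + l.length
    · have h3 : j - g < l.length := by omega
      refine ⟨0, by simp, l[j - g], ?_⟩
      rw [numberL, List.getD_cons_zero]
      refine List.mem_map.2 ⟨(l[j - g], j), ?_, rfl⟩
      rw [List.mem_zipIdx_iff_le_and_getElem?_sub]
      exact ⟨h1, List.getElem?_eq_getElem h3⟩
    · rw [List.flatten_cons, List.length_append] at h2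
      obtain ⟨i, hi, a, ha⟩ := ih (g + l.length) (by omega) (by omega)
      refine ⟨i + 1, by rw [List.length_cons]; omega, a, ?_⟩
      rw [numberL, List.getD_cons_succ]
      exact ha

/-- the same number does not occur in two of the lists -/
theorem numberL_uniq {α : Type} {g : ℕ} {ls : List (List α)} {i i' j : ℕ} {a a' : α}
    (h : (j, a) ∈ (numberL g ls).getD i []) (h' : (j, a') ∈ (numberL g ls).getD i' []) :
    i = i' ∧ a = a' := by
  have hi : i = i' := by
    induction ls generalizing g i i' with
    | nil => simp [numberL] at h
    | cons l ls ih =>
      have key : ∀ b : α, (j, b) ∈ (numberL g (l :: ls)).getD 0 [] → j < g + l.length := by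
        intro b hb
        rw [numberL, List.getD_cons_zero] at hb
        obtain ⟨p, hp, hpe⟩ := List.mem_map.1 hb
        have h1 : p = (b, j) := by
          rw [Prod.mk.injEq] at hpe
          exact Prod.ext hpe.2 hpe.1
        rw [h1, List.mem_zipIdx_iff_le_and_getElem?_sub] at hp
        obtain ⟨h2, h3⟩ := hp
        have h3' : l[j - g]? = some b := h3
        by_contra hc
        rw [List.getElem?_eq_none (by omega)] at h3'
        exact absurd h3' (by simp)
      cases i with
      | zero =>
        cases i' with
        | zero => rfl
        | succ i' =>
          exfalso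
          have h1 := key a h
          rw [numberL, List.getD_cons_succ] at h'
          have h2 := (mem_numberL h').1
          omega
      | succ i =>
        cases i' with
        | zero =>
          exfalso
          have h1 := key a' h'
          rw [numberL, List.getD_cons_succ] at h
          have h2 := (mem_numberL h).1
          omega
        | succ i' =>
          rw [numberL, List.getD_cons_succ] at h h'
          rw [ih h h']
  refine ⟨hi, ?_⟩
  have h1 := (mem_numberL h).2.2.1
  have h2 := (mem_numberL h').2.2.1
  rw [h1] at h2
  exact Option.some.inj h2

theorem numberL_nodup {α : Type} (g : ℕ) (ls : List (List α)) (i : ℕ) :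
    (((numberL g ls).getD i []).map Prod.fst).Nodup := by
  induction ls generalizing g i with
  | nil => simp [numberL]
  | cons l ls ih =>
    cases i with
    | zero =>
      rw [numberL, List.getD_cons_zero, List.map_map]
      have h1 : (l.zipIdx g).map (Prod.fst ∘ fun p : α × ℕ => (p.2, p.1)) =
          List.range' g l.length := List.zipIdx_map_snd g l
      rw [h1]
      exact List.nodup_range'
    | succ i =>
      rw [numberL, List.getD_cons_succ]
      exact ih (g + l.length) i

/-- the lists of different cells have disjoint numbers, and all numbers in a list of lists of numbered lists with different indices are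
different -/
theorem numberL_gather_nodup {α : Type} (g : ℕ) (ls : List (List α)) (is : List ℕ)
    (h : is.Nodup) :
    ((is.map (fun i => (numberL g ls).getD i [])).flatten.map Prod.fst).Nodup := by
  induction is with
  | nil => simp
  | cons i t ih =>
    obtain ⟨h1, h2⟩ := List.nodup_cons.1 h
    rw [List.map_cons, List.flatten_cons, List.map_append, List.nodup_append]
    refine ⟨numberL_nodup g ls i, ih h2, ?_⟩
    intro x hx y hy hxy
    subst hxy
    obtain ⟨⟨x1, a⟩, hp, rfl⟩ := List.mem_map.1 hx
    obtain ⟨⟨y1, a'⟩, hq, hqe⟩ := List.mem_map.1 hy
    have hqe' : y1 = x1 := hqe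
    subst hqe'
    obtain ⟨l, hl, hql⟩ := List.mem_flatten.1 hq
    obtain ⟨i', hi', rfl⟩ := List.mem_map.1 hl
    have h3 := (numberL_uniq hp hql).1
    exact h1 (h3 ▸ hi')

end SFA
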