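import Pool.Agent.Lib.SFA.Nest
import Pool.Agent.Lib.SFA.Alg

/-!
# SFA.NxDef: the successor relation on the sides of cells (definitions only)

A side is a pair `(k, c)`: `(true, c)` = the top of `c`, walked to the left; `(false, c)` = the bottom of `c`, walked to the right.
-/

namespace SFA

/-- the segment of a side -/
def sseg (k : Bool × Cell) : Option Seg := if k.1 then k.2.t else k.2.b

/-- the wall where the side starts -/
def sbeg (k : Bool × Cell) : Option ℂ := if k.1 then k.2.q else k.2.p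

/-- the wall where the side ends -/
def sfin (k : Bool × Cell) : Option ℂ := if k.1 then k.2.p else k.2.q

/-- the side starts at the vertex `v` of its segment -/
def Em (k : Bool × Cell) (v : ℂ) : Prop := ∃ s ∈ sseg k, v ∈ sbeg k ∧ ori s v = 0

/-- the side ends at the vertex `v` of its segment -/
def Fin' (k : Bool × Cell) (v : ℂ) : Prop := ∃ s ∈ sseg k, v ∈ sfin k ∧ ori s v = 0

/-- the next side on the boundary walk; all cells satisfy `V` -/
inductive Nx (V : Cell → Prop) : Bool × Cell → Bool × Cell → Prop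
  | b1 {c r : Cell} {b : Seg} {v : ℂ} (hc : V c) (hb : b ∈ c.b) (hv : v ∈ c.q)
      (h : 0 < ori b v) (hVr : V r) (ha : adj c r) (hr : r.b = c.b) : Nx V (false, c) (false, r)
  | b2 {c : Cell} {b t : Seg} {v : ℂ} (hc : V c) (hb : b ∈ c.b) (hv : v ∈ c.q)
      (h : ori b v = 0) (ht : t ∈ c.t) (h' : ori t v = 0) : Nx V (false, c) (true, c)
  | b3 {c r : Cell} {b b' : Seg} {v : ℂ} (hc : V c) (hb : b ∈ c.b) (hv : v ∈ c.q)
      (h : ori b v = 0) (ht : ∀ t ∈ c.t, ori t v < 0) (hVr : V r) (ha : adj c r)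
      (hr : r.t = c.t) (hb' : b' ∈ r.b) (h' : ori b' v = 0) : Nx V (false, c) (false, r)
  | b4 {c r l : Cell} {b t : Seg} {v : ℂ} (hc : V c) (hb : b ∈ c.b) (hv : v ∈ c.q)
      (h : ori b v = 0) (ht : ∀ t ∈ c.t, ori t v < 0) (hVr : V r) (ha : adj c r)
      (hr : r.t = c.t) (hb' : ∀ b' ∈ r.b, 0 < ori b' v) (hVl : V l) (hl : adj l r)
      (hlb : l.b = r.b) (htl : t ∈ l.t) (h' : ori t v = 0) : Nx V (false, c) (true, l)
  | t1 {c l : Cell} {t : Seg} {v : ℂ} (hc : V c) (ht : t ∈ c.t) (hv : v ∈ c.p)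
      (h : ori t v < 0) (hVl : V l) (ha : adj l c) (hl : l.t = c.t) : Nx V (true, c) (true, l)
  | t2 {c : Cell} {b t : Seg} {v : ℂ} (hc : V c) (ht : t ∈ c.t) (hv : v ∈ c.p)
      (h : ori t v = 0) (hb : b ∈ c.b) (h' : ori b v = 0) : Nx V (true, c) (false, c)
  | t3 {c l : Cell} {t t' : Seg} {v : ℂ} (hc : V c) (ht : t ∈ c.t) (hv : v ∈ c.p)
      (h : ori t v = 0) (hb : ∀ b ∈ c.b, 0 < ori b v) (hVl : V l) (ha : adj l c)
      (hl : l.b = c.b) (ht' : t' ∈ l.t) (h' : ori t' v = 0) : Nx V (true, c) (true, l)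
  | t4 {c l r : Cell} {b t : Seg} {v : ℂ} (hc : V c) (ht : t ∈ c.t) (hv : v ∈ c.p)
      (h : ori t v = 0) (hb : ∀ b ∈ c.b, 0 < ori b v) (hVl : V l) (ha : adj l c)
      (hl : l.b = c.b) (ht' : ∀ t' ∈ l.t, ori t' v < 0) (hVr : V r) (hr : adj l r)
      (hrt : r.t = l.t) (hbr : b ∈ r.b) (h' : ori b v = 0) : Nx V (true, c) (false, r)

theorem Nx.fst {V : Cell → Prop} {k k' : Bool × Cell} (h : Nx V k k') : V k.2 := by
  cases h <;> assumption

theorem Nx.snd {V : Cell → Prop} {k k' : Bool × Cell} (h : Nx V k k') : V k'.2 := by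
  cases h <;> assumption

/-- The final list: the cells of the face of `x` with their right neighbours. -/
structure FInv (eps : ℝ) (S : Finset Seg) (x : ℂ) (recs : List Rec) : Prop where
  nodup : (recs.map Rec.c).Nodup
  mem : ∀ c, c ∈ recs.map Rec.c ↔ InFace eps S x c
  nb : ∀ r ∈ recs, ∀ j, j ∈ r.nb ↔ ∃ h : j < recs.length, adj r.c (recs[j]).c
  nbnd : ∀ r ∈ recs, r.nb.Nodup

/-- the default record -/
def rec0 : Rec := ⟨⟨none, none, none, none⟩, [], []⟩

/-- the side with number `k` -/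
def sideAt (recs : List Rec) (k : ℕ) : Bool × Cell :=
  (decide (k % 2 = 0), (recs.getD (k / 2) rec0).c)

end SFA
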