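import Pool.Agent.Lib.SFA.RDoor
import Pool.Agent.Lib.SFA.Deg2
import Pool.Agent.Lib.SFA.AdjFace

/-!
# SFA.ODoor: neighbours of a valid cell through its walls; tips

`left_door`: mirror image of `right_door` (RDoor.lean; same proof with left and right exchanged: `v ∈ c.p`, the points of a segment slightly to the right of the wall are in `reg c`).
`nb_top_right`: `w` with `X w = X v`, `w.im` strictly between `v.im` and `ht t (X v)` (`t ∈ c.t`; if there is no top `w.im = v.im + 1`): `OpenBand c w` (`v` is in the band of `c`, `qb`).  `right_door`: `r`, `adj c r`, `v ∈ r.p`.  The adjacency is either 'same top' or 'same bottom, `v` strictly above it'; in both cases `wall_top` applies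
to `c`, `r` and `w`: for `r` one needs `OpenBand r w`: `w` is in the closure of the right half ball, `v` in the band of `r`, `w ∉ U R` ... (use `half_right`/`wall_top` as in RDoor: the cell obtained there has the same top as `c` because `v.im < w.im`).  So `r.t = c.t`.
`nb_bot_right`: `w` below `v`.  Left versions: mirror images.
`tip_left`: `v ∈ r.p` is strictly between bottom and top of `r`.  `v` is critical, so `v ∈ carrier s` for some `s ∈ R`; `s ∉ r.b, r.t` (`ori ≠ 0`).  If `X v < X s.2` the points of `s` slightly to the right of `v` are in `reg r`: conflict.  So `s.2 = v`, `X s.1 < X v`.  Let `c` be valid with `v ∈ c.q`, `c.t = r.t` and suppose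
no `b ∈ c.b` passes through `v`; then `OpenBand c v` (`qb`), and the points of `s` slightly to the left of `v` are in `reg c`, and `s ∉ c.b, c.t`: conflict.  Same with bottoms.  `tip_right`: mirror image.
-/

namespace SFA

open Set Filter Topology

namespace ODoorAux

open RDoorAux

/-- no segment passes through a point of the left wall in the open band -/
theorem free_wall_left {eps : ℝ} {R : Finset Seg} {x : ℂ} (hG : Gen eps R x) {c : Cell}
    (hc : Valid eps R c) {v y : ℂ} (hv : v ∈ c.p) (hX : X eps y = X eps v) (hyv : y ≠ v)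
    (ho : OpenBand c y) : y ∉ U R := by
  intro hy
  obtain ⟨s, hs, hys⟩ := mem_U.1 hy
  have hinc := hG.inc s hs
  have hm := (mem_carrier_iff' hinc y).1 hys
  have hcrit : IsCrit R v := hc.defd.pC v hv
  have h1 : X eps v < X eps s.2 := by
    rw [← hX]
    refine lt_of_le_of_ne hm.2.1 fun h => ?_
    have h2 : s.2.im = ht eps s (X eps s.2) := (ori_zero_iff hinc s.2).1 (ori_right s)
    have h3 : y = s.2 := ext_X (eps := eps) h (by rw [hm.2.2, h2, h])
    exact hyv (hG.inj y v (h3 ▸ IsCrit.right hs) hcrit hX)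
  refine WallTopAux.push_right hc hG.inc hs hv (by rw [← hX]; exact hm.1) h1 ?_ ?_
  · intro b hb
    have h2 := (ori_pos_iff (hG.inc b (hc.defd.bR b hb)) y).1 (ho.1 b hb)
    rw [hm.2.2, hX] at h2
    exact h2
  · intro t htt
    have h2 := (ori_neg_iff (hG.inc t (hc.defd.tR t htt)) y).1 (ho.2 t htt)
    rw [hm.2.2, hX] at h2
    exact h2

/-- visibility along a wall -/
theorem vis_of_free {eps : ℝ} {R : Finset Seg} {c : Cell} {v w : ℂ} (hX : X eps w = X eps v)
    (hwv : w ≠ v) (hband : inBand c v) (ho : OpenBand c w)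
    (hfree : ∀ y : ℂ, X eps y = X eps v → y ≠ v → OpenBand c y → y ∉ U R) : Vis eps R w v := by
  have him : v.im ≠ w.im := fun h => hwv (ext_X hX h.symm)
  refine ⟨hX.symm, ?_⟩
  rw [Set.disjoint_left]
  rintro y ⟨a, b, ha, hb, hab, rfl⟩
  refine hfree _ ?_ ?_ ⟨?_, ?_⟩
  · rw [X_comb eps hab, hX, ← add_mul, hab, one_mul]
  · intro h
    have h1 := congrArg Complex.im h
    rw [im_comb] at h1
    have h2 : a * (w.im - v.im) = 0 := by
      have h3 : b = 1 - a := by linarith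
      rw [h3] at h1
      linarith
    rcases mul_eq_zero.1 h2 with h3 | h3
    · exact absurd h3 ha.ne'
    · exact him (by linarith)
  · intro b' hb'
    rw [ori_comb b' hab]
    have h1 := mul_pos ha (ho.1 b' hb')
    have h2 := mul_nonneg hb.le (hband.1 b' hb')
    linarith
  · intro t' ht'
    rw [ori_comb t' hab]
    have h1 := mul_neg_of_pos_of_neg ha (ho.2 t' ht')
    have h2 := mul_nonpos_of_nonneg_of_nonpos hb.le (hband.2 t' ht')
    linarith

/-- a strong form of `right_door` -/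
theorem door_r {eps : ℝ} {R : Finset Seg} {x : ℂ} (hG : Gen eps R x) {c : Cell}
    (hc : Valid eps R c) {v w : ℂ} (hv : v ∈ c.q) (hX : X eps w = X eps v) (hwv : w ≠ v)
    (ho : OpenBand c w) :
    ∃ c2, Valid eps R c2 ∧ adj c c2 ∧ v ∈ c2.p ∧ OpenBand c2 w := by
  have hwU : w ∉ U R := free_wall hG hc hv hX hwv ho
  have hcrit : IsCrit R v := hc.defd.qC v hv
  have him : v.im ≠ w.im := fun h => hwv (ext_X hX h.symm)
  have hvis : Vis eps R w v := vis_of_free hX hwv (hc.shape.qb v hv) ho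
    fun y hy hyv hoy => free_wall hG hc hv hy hyv hoy
  obtain ⟨c2, hc2, hv2, hq2, hb2, ht2, r', hr', hr2⟩ := half_right hG hwU hcrit hvis
  refine ⟨c2, hc2, ⟨v, hv, hv2, ?_⟩, hv2, hb2, ht2⟩
  rcases lt_or_gt_of_ne him with h | h
  · exact Or.inl (wall_top hG hc hc2 hv hv2 hX h ho.1 ho.2 hb2 ht2)
  · exact Or.inr (wall_bot hG hc hc2 hv hv2 hX h ho.1 ho.2 hb2 ht2)

/-- the cell to the left of a wall -/
theorem door_l {eps : ℝ} {R : Finset Seg} {x : ℂ} (hG : Gen eps R x) {c : Cell}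
    (hc : Valid eps R c) {v w : ℂ} (hv : v ∈ c.p) (hX : X eps w = X eps v) (hwv : w ≠ v)
    (ho : OpenBand c w) :
    w ∉ U R ∧ ∃ c2, Valid eps R c2 ∧ adj c2 c ∧ v ∈ c2.q ∧ OpenBand c2 w ∧
      ∃ r > 0, ∀ y ∈ Metric.ball w r, X eps y < X eps w → y ∈ reg eps c2 := by
  have hwU : w ∉ U R := free_wall_left hG hc hv hX hwv ho
  refine ⟨hwU, ?_⟩
  have hcrit : IsCrit R v := hc.defd.pC v hv
  have him : v.im ≠ w.im := fun h => hwv (ext_X hX h.symm)
  have hvis : Vis eps R w v := vis_of_free hX hwv (hc.shape.pb v hv) ho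
    fun y hy hyv hoy => free_wall_left hG hc hv hy hyv hoy
  obtain ⟨c2, hc2, hv2, hp2, hb2, ht2, r', hr', hr2⟩ := half_left hG hwU hcrit hvis
  refine ⟨c2, hc2, ⟨v, hv2, hv, ?_⟩, hv2, ⟨hb2, ht2⟩, r', hr', hr2⟩
  rcases lt_or_gt_of_ne him with h | h
  · exact Or.inl (wall_top hG hc2 hc hv2 hv hX h hb2 ht2 ho.1 ho.2)
  · exact Or.inr (wall_bot hG hc2 hc hv2 hv hX h hb2 ht2 ho.1 ho.2)

theorem ne_of_im {v y : ℂ} (h : v.im < y.im) : y ≠ v := fun e => by
  rw [e] at h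
  exact lt_irrefl _ h

theorem ne_of_im' {v y : ℂ} (h : y.im < v.im) : y ≠ v := fun e => by
  rw [e] at h
  exact lt_irrefl _ h

/-- heights at a point of a segment inside the open band -/
theorem hts_of_open {eps : ℝ} {R : Finset Seg} {x : ℂ} (hG : Gen eps R x) {c : Cell}
    (hc : Valid eps R c) {v : ℂ} (ho : OpenBand c v) {s : Seg} (hs : s ∈ R)
    (hvs : v ∈ carrier s) :
    (∀ b ∈ c.b, ht eps b (X eps v) < ht eps s (X eps v)) ∧
      ∀ t ∈ c.t, ht eps s (X eps v) < ht eps t (X eps v) := by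
  have hm := ((mem_carrier_iff' (hG.inc s hs) v).1 hvs).2.2
  constructor
  · intro b hb
    have h2 := (ori_pos_iff (hG.inc b (hc.defd.bR b hb)) v).1 (ho.1 b hb)
    rw [← hm]
    exact h2
  · intro t htt
    have h2 := (ori_neg_iff (hG.inc t (hc.defd.tR t htt)) v).1 (ho.2 t htt)
    rw [← hm]
    exact h2

end ODoorAux

open ODoorAux

theorem left_door {eps : ℝ} {R : Finset Seg} {x : ℂ} (hG : Gen eps R x) {c : Cell}
    (hc : Valid eps R c) {v w : ℂ} (hv : v ∈ c.p) (hX : X eps w = X eps v) (hwv : w ≠ v)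
    (ho : OpenBand c w) :
    w ∉ U R ∧ ∃ c2, Valid eps R c2 ∧ adj c2 c ∧ v ∈ c2.q ∧
      ∃ r > 0, ∀ y ∈ Metric.ball w r, X eps y < X eps w → y ∈ reg eps c2 := by
  obtain ⟨h1, c2, h2, h3, h4, _, h5⟩ := door_l hG hc hv hX hwv ho
  exact ⟨h1, c2, h2, h3, h4, h5⟩

theorem nb_top_right {eps : ℝ} {R : Finset Seg} {x : ℂ} (hG : Gen eps R x) {c : Cell}
    (hc : Valid eps R c) {v : ℂ} (hv : v ∈ c.q) (h : ∀ t ∈ c.t, ori t v < 0) :
    ∃ r, Valid eps R r ∧ adj c r ∧ v ∈ r.p ∧ r.t = c.t := by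
  obtain ⟨y, hy1, hy2, hy3⟩ := Deg2Aux.above hG c.t hc.defd.tR h
  have ho : OpenBand c y := ⟨Deg2Aux.bot_of_above hG hc (hc.shape.qb v hv) hy1 hy2, hy3⟩
  obtain ⟨r, hr, ha, hvr, hor⟩ := door_r hG hc hv hy1 (ne_of_im hy2) ho
  exact ⟨r, hr, ha, hvr, (wall_top hG hc hr hv hvr hy1 hy2 ho.1 ho.2 hor.1 hor.2).1.symm⟩

theorem nb_bot_right {eps : ℝ} {R : Finset Seg} {x : ℂ} (hG : Gen eps R x) {c : Cell}
    (hc : Valid eps R c) {v : ℂ} (hv : v ∈ c.q) (h : ∀ b ∈ c.b, 0 < ori b v) :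
    ∃ r, Valid eps R r ∧ adj c r ∧ v ∈ r.p ∧ r.b = c.b := by
  obtain ⟨y, hy1, hy2, hy3⟩ := Deg2Aux.below hG c.b hc.defd.bR h
  have ho : OpenBand c y := ⟨hy3, Deg2Aux.top_of_below hG hc (hc.shape.qb v hv) hy1 hy2⟩
  obtain ⟨r, hr, ha, hvr, hor⟩ := door_r hG hc hv hy1 (ne_of_im' hy2) ho
  exact ⟨r, hr, ha, hvr, (wall_bot hG hc hr hv hvr hy1 hy2 ho.1 ho.2 hor.1 hor.2).1.symm⟩

theorem nb_top_left {eps : ℝ} {R : Finset Seg} {x : ℂ} (hG : Gen eps R x) {c : Cell}
    (hc : Valid eps R c) {v : ℂ} (hv : v ∈ c.p) (h : ∀ t ∈ c.t, ori t v < 0) :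
    ∃ l, Valid eps R l ∧ adj l c ∧ v ∈ l.q ∧ l.t = c.t := by
  obtain ⟨y, hy1, hy2, hy3⟩ := Deg2Aux.above hG c.t hc.defd.tR h
  have ho : OpenBand c y := ⟨Deg2Aux.bot_of_above hG hc (hc.shape.pb v hv) hy1 hy2, hy3⟩
  obtain ⟨_, l, hl, ha, hvl, hol, _⟩ := door_l hG hc hv hy1 (ne_of_im hy2) ho
  exact ⟨l, hl, ha, hvl, (wall_top hG hl hc hvl hv hy1 hy2 hol.1 hol.2 ho.1 ho.2).1⟩

theorem nb_bot_left {eps : ℝ} {R : Finset Seg} {x : ℂ} (hG : Gen eps R x) {c : Cell}
    (hc : Valid eps R c) {v : ℂ} (hv : v ∈ c.p) (h : ∀ b ∈ c.b, 0 < ori b v) :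
    ∃ l, Valid eps R l ∧ adj l c ∧ v ∈ l.q ∧ l.b = c.b := by
  obtain ⟨y, hy1, hy2, hy3⟩ := Deg2Aux.below hG c.b hc.defd.bR h
  have ho : OpenBand c y := ⟨hy3, Deg2Aux.top_of_below hG hc (hc.shape.pb v hv) hy1 hy2⟩
  obtain ⟨_, l, hl, ha, hvl, hol, _⟩ := door_l hG hc hv hy1 (ne_of_im' hy2) ho
  exact ⟨l, hl, ha, hvl, (wall_bot hG hl hc hvl hv hy1 hy2 hol.1 hol.2 ho.1 ho.2).1⟩

theorem tip_left {eps : ℝ} {R : Finset Seg} {x : ℂ} (hG : Gen eps R x) {r c : Cell}
    (hr : Valid eps R r) (hc : Valid eps R c) {v : ℂ} (hv : v ∈ r.p) (ho : OpenBand r v)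
    (hvq : v ∈ c.q) :
    (c.t = r.t → ∃ b ∈ c.b, ori b v = 0) ∧ (c.b = r.b → ∃ t ∈ c.t, ori t v = 0) := by
  have hcrit : IsCrit R v := hr.defd.pC v hv
  obtain ⟨s, hs, hvs⟩ := mem_U.1 hcrit.mem_U
  have hm := (mem_carrier_iff' (hG.inc s hs) v).1 hvs
  have h0 : ¬ X eps v < X eps s.2 := fun h => by
    obtain ⟨h1, h2⟩ := hts_of_open hG hr ho hs hvs
    exact WallTopAux.push_right hr hG.inc hs hv hm.1 h h1 h2
  have h3 : X eps s.1 < X eps v := (hG.inc s hs).trans_le (not_lt.1 h0)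
  have key : OpenBand c v → False := fun hoc => by
    obtain ⟨h1, h2⟩ := hts_of_open hG hc hoc hs hvs
    exact WallTopAux.push_left hc hG.inc hs hvq h3 hm.2.1 h1 h2
  have hq := hc.shape.qb v hvq
  constructor
  · intro ht0
    by_contra hcon
    push Not at hcon
    exact key ⟨fun b hb => lt_of_le_of_ne (hq.1 b hb) (hcon b hb).symm, fun t htt =>
      ho.2 t (by rw [← ht0]; exact htt)⟩
  · intro hb0
    by_contra hcon
    push Not at hcon
    exact key ⟨fun b hb => ho.1 b (by rw [← hb0]; exact hb), fun t htt =>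
      lt_of_le_of_ne (hq.2 t htt) (hcon t htt)⟩

theorem tip_right {eps : ℝ} {R : Finset Seg} {x : ℂ} (hG : Gen eps R x) {l c : Cell}
    (hl : Valid eps R l) (hc : Valid eps R c) {v : ℂ} (hv : v ∈ l.q) (ho : OpenBand l v)
    (hvp : v ∈ c.p) :
    (c.t = l.t → ∃ b ∈ c.b, ori b v = 0) ∧ (c.b = l.b → ∃ t ∈ c.t, ori t v = 0) := by
  have hcrit : IsCrit R v := hl.defd.qC v hv
  obtain ⟨s, hs, hvs⟩ := mem_U.1 hcrit.mem_U
  have hm := (mem_carrier_iff' (hG.inc s hs) v).1 hvs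
  have h0 : ¬ X eps s.1 < X eps v := fun h => by
    obtain ⟨h1, h2⟩ := hts_of_open hG hl ho hs hvs
    exact WallTopAux.push_left hl hG.inc hs hv h hm.2.1 h1 h2
  have h3 : X eps v < X eps s.2 := (not_lt.1 h0).trans_lt (hG.inc s hs)
  have key : OpenBand c v → False := fun hoc => by
    obtain ⟨h1, h2⟩ := hts_of_open hG hc hoc hs hvs
    exact WallTopAux.push_right hc hG.inc hs hvp hm.1 h3 h1 h2
  have hq := hc.shape.pb v hvp
  constructor
  · intro ht0
    by_contra hcon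
    push Not at hcon
    exact key ⟨fun b hb => lt_of_le_of_ne (hq.1 b hb) (hcon b hb).symm, fun t htt =>
      ho.2 t (by rw [← ht0]; exact htt)⟩
  · intro hb0
    by_contra hcon
    push Not at hcon
    exact key ⟨fun b hb => ho.1 b (by rw [← hb0]; exact hb), fun t htt =>
      lt_of_le_of_ne (hq.2 t htt) (hcon t htt)⟩

end SFA
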