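import Pool.Agent.Lib.SFA.NxDef
import Pool.Agent.Lib.SFA.ODoor

/-!
# SFA.NxEx: every side of a cell of the face has exactly one successor

Existence.  Bottom side of `c`: `b ∈ c.b`, so `c.q = some v` (`spans`), `0 ≤ ori b v` (`qb`).  `0 < ori b v`: `nb_bot_right` (b1).  `ori b v = 0`: if some `t ∈ c.t` has `ori t v = 0`: (b2).  Otherwise `ori t v < 0` for `t ∈ c.t` (`qb`): `nb_top_right` gives `r`; if some `b' ∈ r.b` has `ori b' v = 0`: (b3).  Otherwise `0 < ori b' v`
for `b' ∈ r.b` (`pb`), `nb_bot_left` for `r` gives `l` with `adj l r`, `v ∈ l.q`, `l.b = r.b`: (b4); the side `(true, l)` exists by `tip_left` (`OpenBand r v`).  Top side: mirror image.  The new cell is valid and in the face (`adj_same_face`).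
Uniqueness: the walls, bottom and top of `c` are functions of `c`; in `adj c r` the wall point is the same `v`; `same_bottom_right`, `same_top_right`, `same_bottom_left`, `same_top_left` of Deg2.
`nx_fin`: a step that is not straight (`b1`, `t1`) turns at the vertex: `Fin' k v` and `Em k' v`.  In `b3` etc. `v ∈ r.p` because `adj c r` and `v ∈ c.q`.  `b2`: `sbeg (true, c) = c.q`.  In `b4`: `v ∈ l.q`.  In `b1`: `v' ∈ r.p` is `v`, `0 < ori b v`, so no `Em`.
-/

namespace SFA

namespace NxExAux

theorem adj_p {c r : Cell} {v : ℂ} (ha : adj c r) (hv : v ∈ c.q) : v ∈ r.p := by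
  obtain ⟨w, h1, h2, _⟩ := ha
  rwa [Option.mem_unique hv h1]

theorem adj_q {l r : Cell} {v : ℂ} (ha : adj l r) (hv : v ∈ r.p) : v ∈ l.q := by
  obtain ⟨w, h1, h2, _⟩ := ha
  rwa [Option.mem_unique hv h2]

theorem ne_none {o : Option Seg} {s : Seg} (h : s ∈ o) : o ≠ none := by
  rintro rfl
  exact absurd h (by simp)

end NxExAux

open NxExAux

theorem nx_exists {eps : ℝ} {R : Finset Seg} {x : ℂ} (hG : Gen eps R x) {k : Bool × Cell}
    (hk : InFace eps R x k.2) (hs : sseg k ≠ none) :
    ∃ k', Nx (InFace eps R x) k k' ∧ sseg k' ≠ none := by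
  obtain ⟨kb, c⟩ := k
  have hF : InFace eps R x c := hk
  have hV : Valid eps R c := hF.1
  cases kb with
  | false =>
    have hs' : c.b ≠ none := hs
    obtain ⟨b, hb0⟩ := Option.ne_none_iff_exists'.1 hs'
    have hb : b ∈ c.b := hb0
    obtain ⟨_, v, hv, _⟩ := hV.shape.bs b hb
    have h0 : 0 ≤ ori b v := (hV.shape.qb v hv).1 b hb
    rcases h0.lt_or_eq with h | h
    · obtain ⟨r, hVr, ha, hvr, hrb⟩ := nb_bot_right hG hV hv (fun b' hb' => by
        rw [Option.mem_unique hb' hb]; exact h)
      refine ⟨(false, r), Nx.b1 hF hb hv h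
        ⟨hVr, adj_same_face hG hV hVr (Or.inl ha) hF.2⟩ ha hrb, ?_⟩
      show r.b ≠ none
      rw [hrb]; exact hs'
    · have h' : ori b v = 0 := h.symm
      by_cases hT : ∃ t ∈ c.t, ori t v = 0
      · obtain ⟨t, ht, ht0⟩ := hT
        exact ⟨(true, c), Nx.b2 hF hb hv h' ht ht0, ne_none ht⟩
      · have hT' : ∀ t ∈ c.t, ori t v < 0 := fun t ht =>
          lt_of_le_of_ne ((hV.shape.qb v hv).2 t ht) (fun e => hT ⟨t, ht, e⟩)
        obtain ⟨r, hVr, ha, hvr, hrt⟩ := nb_top_right hG hV hv hT'
        have hFr : InFace eps R x r := ⟨hVr, adj_same_face hG hV hVr (Or.inl ha) hF.2⟩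
        by_cases hB : ∃ b' ∈ r.b, ori b' v = 0
        · obtain ⟨b', hb', hb0'⟩ := hB
          exact ⟨(false, r), Nx.b3 hF hb hv h' hT' hFr ha hrt hb' hb0', ne_none hb'⟩
        · have hB' : ∀ b' ∈ r.b, 0 < ori b' v := fun b' hb' =>
            lt_of_le_of_ne ((hVr.shape.pb v hvr).1 b' hb') (fun e => hB ⟨b', hb', e.symm⟩)
          obtain ⟨l, hVl, hal, hvl, hlb⟩ := nb_bot_left hG hVr hvr hB'
          have ho : OpenBand r v := ⟨hB', fun t ht => hT' t (hrt ▸ ht)⟩
          obtain ⟨t, ht, ht0⟩ := (tip_left hG hVr hVl hvr ho hvl).2 hlb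
          have hFl : InFace eps R x l := ⟨hVl, adj_same_face hG hVr hVl (Or.inr hal) hFr.2⟩
          exact ⟨(true, l), Nx.b4 hF hb hv h' hT' hFr ha hrt hB' hFl hal hlb ht ht0, ne_none ht⟩
  | true =>
    have hs' : c.t ≠ none := hs
    obtain ⟨t, ht0⟩ := Option.ne_none_iff_exists'.1 hs'
    have ht : t ∈ c.t := ht0
    obtain ⟨⟨v, hv, _⟩, _⟩ := hV.shape.ts t ht
    have h0 : ori t v ≤ 0 := (hV.shape.pb v hv).2 t ht
    rcases h0.lt_or_eq with h | h'
    · obtain ⟨l, hVl, ha, hvl, hlt⟩ := nb_top_left hG hV hv (fun t' ht' => by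
        rw [Option.mem_unique ht' ht]; exact h)
      refine ⟨(true, l), Nx.t1 hF ht hv h
        ⟨hVl, adj_same_face hG hV hVl (Or.inr ha) hF.2⟩ ha hlt, ?_⟩
      show l.t ≠ none
      rw [hlt]; exact hs'
    · by_cases hB : ∃ b ∈ c.b, ori b v = 0
      · obtain ⟨b, hb, hb0⟩ := hB
        exact ⟨(false, c), Nx.t2 hF ht hv h' hb hb0, ne_none hb⟩
      · have hB' : ∀ b ∈ c.b, 0 < ori b v := fun b hb =>
          lt_of_le_of_ne ((hV.shape.pb v hv).1 b hb) (fun e => hB ⟨b, hb, e.symm⟩)
        obtain ⟨l, hVl, ha, hvl, hlb⟩ := nb_bot_left hG hV hv hB'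
        have hFl : InFace eps R x l := ⟨hVl, adj_same_face hG hV hVl (Or.inr ha) hF.2⟩
        by_cases hT : ∃ t' ∈ l.t, ori t' v = 0
        · obtain ⟨t', ht', ht0'⟩ := hT
          exact ⟨(true, l), Nx.t3 hF ht hv h' hB' hFl ha hlb ht' ht0', ne_none ht'⟩
        · have hT' : ∀ t' ∈ l.t, ori t' v < 0 := fun t' ht' =>
            lt_of_le_of_ne ((hVl.shape.qb v hvl).2 t' ht') (fun e => hT ⟨t', ht', e⟩)
          obtain ⟨r, hVr, har, hvr, hrt⟩ := nb_top_right hG hVl hvl hT'
          have ho : OpenBand l v := ⟨fun b hb => hB' b (hlb ▸ hb), hT'⟩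
          obtain ⟨b, hb, hb0⟩ := (tip_right hG hVl hVr hvl ho hvr).1 hrt
          have hFr : InFace eps R x r := ⟨hVr, adj_same_face hG hVl hVr (Or.inl har) hFl.2⟩
          exact ⟨(false, r), Nx.t4 hF ht hv h' hB' hFl ha hlb hT' hFr har hrt hb hb0, ne_none hb⟩

theorem nx_unique {eps : ℝ} {R : Finset Seg} {x : ℂ} (hG : Gen eps R x) {k k1 k2 : Bool × Cell}
    (h1 : Nx (InFace eps R x) k k1) (h2 : Nx (InFace eps R x) k k2) : k1 = k2 := by
  cases h1 with
  | b1 hc hb hv h hVr ha hr =>
    cases h2 with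
    | b1 hc' hb' hv' h' hVr' ha' hr' =>
      have e := Option.mem_unique hv hv'
      subst e
      have e := Option.mem_unique hb hb'
      subst e
      have := same_bottom_right hG hVr.1 hVr'.1 (adj_p ha hv) (adj_p ha' hv') (hr.trans hr'.symm)
        (fun b0 hb0 => by
          rw [hr] at hb0
          rw [Option.mem_unique hb0 hb]; exact h)
      rw [this]
    | b2 hc' hb' hv' h' ht' h'' =>
      have e := Option.mem_unique hv hv'
      subst e
      have e := Option.mem_unique hb hb'
      subst e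
      exact absurd h' h.ne'
    | b3 hc' hb' hv' h' ht' hVr' ha' hr' hb'' h'' =>
      have e := Option.mem_unique hv hv'
      subst e
      have e := Option.mem_unique hb hb'
      subst e
      exact absurd h' h.ne'
    | b4 hc' hb' hv' h' ht' hVr' ha' hr' hb'' hVl' hl' hlb' htl' h'' =>
      have e := Option.mem_unique hv hv'
      subst e
      have e := Option.mem_unique hb hb'
      subst e
      exact absurd h' h.ne'
  | b2 hc hb hv h ht h0 =>
    cases h2 with
    | b1 hc' hb' hv' h' hVr' ha' hr' =>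
      have e := Option.mem_unique hv hv'
      subst e
      have e := Option.mem_unique hb hb'
      subst e
      exact absurd h h'.ne'
    | b2 hc' hb' hv' h' ht' h'' => rfl
    | b3 hc' hb' hv' h' ht' hVr' ha' hr' hb'' h'' =>
      have e := Option.mem_unique hv hv'
      subst e
      exact absurd h0 (ht' _ ht).ne
    | b4 hc' hb' hv' h' ht' hVr' ha' hr' hb'' hVl' hl' hlb' htl' h'' =>
      have e := Option.mem_unique hv hv'
      subst e
      exact absurd h0 (ht' _ ht).ne
  | b3 hc hb hv h ht hVr ha hr hb1 h0 =>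
    cases h2 with
    | b1 hc' hb' hv' h' hVr' ha' hr' =>
      have e := Option.mem_unique hv hv'
      subst e
      have e := Option.mem_unique hb hb'
      subst e
      exact absurd h h'.ne'
    | b2 hc' hb' hv' h' ht' h'' =>
      have e := Option.mem_unique hv hv'
      subst e
      exact absurd h'' (ht _ ht').ne
    | b3 hc' hb' hv' h' ht' hVr' ha' hr' hb'' h'' =>
      have e := Option.mem_unique hv hv'
      subst e
      have := same_top_right hG hVr.1 hVr'.1 (adj_p ha hv) (adj_p ha' hv') (hr.trans hr'.symm)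
        (fun t0 ht0 => by
          rw [hr] at ht0
          exact ht t0 ht0)
      rw [this]
    | b4 hc' hb' hv' h' ht' hVr' ha' hr' hb'' hVl' hl' hlb' htl' h'' =>
      have e := Option.mem_unique hv hv'
      subst e
      have := same_top_right hG hVr.1 hVr'.1 (adj_p ha hv) (adj_p ha' hv') (hr.trans hr'.symm)
        (fun t0 ht0 => by
          rw [hr] at ht0
          exact ht t0 ht0)
      subst this
      exact absurd h0 (hb'' _ hb1).ne'
  | b4 hc hb hv h ht hVr ha hr hb1 hVl hl hlb htl h0 =>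
    cases h2 with
    | b1 hc' hb' hv' h' hVr' ha' hr' =>
      have e := Option.mem_unique hv hv'
      subst e
      have e := Option.mem_unique hb hb'
      subst e
      exact absurd h h'.ne'
    | b2 hc' hb' hv' h' ht' h'' =>
      have e := Option.mem_unique hv hv'
      subst e
      exact absurd h'' (ht _ ht').ne
    | b3 hc' hb' hv' h' ht' hVr' ha' hr' hb'' h'' =>
      have e := Option.mem_unique hv hv'
      subst e
      have := same_top_right hG hVr.1 hVr'.1 (adj_p ha hv) (adj_p ha' hv') (hr.trans hr'.symm)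
        (fun t0 ht0 => by
          rw [hr] at ht0
          exact ht t0 ht0)
      subst this
      exact absurd h'' (hb1 _ hb'').ne'
    | b4 hc' hb' hv' h' ht' hVr' ha' hr' hb'' hVl' hl' hlb' htl' h'' =>
      have e := Option.mem_unique hv hv'
      subst e
      have := same_top_right hG hVr.1 hVr'.1 (adj_p ha hv) (adj_p ha' hv') (hr.trans hr'.symm)
        (fun t0 ht0 => by
          rw [hr] at ht0
          exact ht t0 ht0)
      subst this
      have := same_bottom_left hG hVl.1 hVl'.1 (adj_q hl (adj_p ha hv)) (adj_q hl' (adj_p ha hv))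
        (hlb.trans hlb'.symm) (fun b0 hb0 => by
          rw [hlb] at hb0
          exact hb1 b0 hb0)
      rw [this]
  | t1 hc ht hv h hVl ha hl =>
    cases h2 with
    | t1 hc' ht' hv' h' hVl' ha' hl' =>
      have e := Option.mem_unique hv hv'
      subst e
      have e := Option.mem_unique ht ht'
      subst e
      have := same_top_left hG hVl.1 hVl'.1 (adj_q ha hv) (adj_q ha' hv') (hl.trans hl'.symm)
        (fun t0 ht0 => by
          rw [hl] at ht0
          rw [Option.mem_unique ht0 ht]; exact h)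
      rw [this]
    | t2 hc' ht' hv' h' hb' h'' =>
      have e := Option.mem_unique hv hv'
      subst e
      have e := Option.mem_unique ht ht'
      subst e
      exact absurd h' h.ne
    | t3 hc' ht' hv' h' hb' hVl' ha' hl' ht'' h'' =>
      have e := Option.mem_unique hv hv'
      subst e
      have e := Option.mem_unique ht ht'
      subst e
      exact absurd h' h.ne
    | t4 hc' ht' hv' h' hb' hVl' ha' hl' ht'' hVr' hr' hrt' hbr' h'' =>
      have e := Option.mem_unique hv hv'
      subst e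
      have e := Option.mem_unique ht ht'
      subst e
      exact absurd h' h.ne
  | t2 hc ht hv h hb h0 =>
    cases h2 with
    | t1 hc' ht' hv' h' hVl' ha' hl' =>
      have e := Option.mem_unique hv hv'
      subst e
      have e := Option.mem_unique ht ht'
      subst e
      exact absurd h h'.ne
    | t2 hc' ht' hv' h' hb' h'' => rfl
    | t3 hc' ht' hv' h' hb' hVl' ha' hl' ht'' h'' =>
      have e := Option.mem_unique hv hv'
      subst e
      exact absurd h0 (hb' _ hb).ne'
    | t4 hc' ht' hv' h' hb' hVl' ha' hl' ht'' hVr' hr' hrt' hbr' h'' =>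
      have e := Option.mem_unique hv hv'
      subst e
      exact absurd h0 (hb' _ hb).ne'
  | t3 hc ht hv h hb hVl ha hl ht1 h0 =>
    cases h2 with
    | t1 hc' ht' hv' h' hVl' ha' hl' =>
      have e := Option.mem_unique hv hv'
      subst e
      have e := Option.mem_unique ht ht'
      subst e
      exact absurd h h'.ne
    | t2 hc' ht' hv' h' hb' h'' =>
      have e := Option.mem_unique hv hv'
      subst e
      exact absurd h'' (hb _ hb').ne'
    | t3 hc' ht' hv' h' hb' hVl' ha' hl' ht'' h'' =>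
      have e := Option.mem_unique hv hv'
      subst e
      have := same_bottom_left hG hVl.1 hVl'.1 (adj_q ha hv) (adj_q ha' hv') (hl.trans hl'.symm)
        (fun b0 hb0 => by
          rw [hl] at hb0
          exact hb b0 hb0)
      rw [this]
    | t4 hc' ht' hv' h' hb' hVl' ha' hl' ht'' hVr' hr' hrt' hbr' h'' =>
      have e := Option.mem_unique hv hv'
      subst e
      have := same_bottom_left hG hVl.1 hVl'.1 (adj_q ha hv) (adj_q ha' hv') (hl.trans hl'.symm)
        (fun b0 hb0 => by
          rw [hl] at hb0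
          exact hb b0 hb0)
      subst this
      exact absurd h0 (ht'' _ ht1).ne
  | t4 hc ht hv h hb hVl ha hl ht1 hVr hr hrt hbr h0 =>
    cases h2 with
    | t1 hc' ht' hv' h' hVl' ha' hl' =>
      have e := Option.mem_unique hv hv'
      subst e
      have e := Option.mem_unique ht ht'
      subst e
      exact absurd h h'.ne
    | t2 hc' ht' hv' h' hb' h'' =>
      have e := Option.mem_unique hv hv'
      subst e
      exact absurd h'' (hb _ hb').ne'
    | t3 hc' ht' hv' h' hb' hVl' ha' hl' ht'' h'' =>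
      have e := Option.mem_unique hv hv'
      subst e
      have := same_bottom_left hG hVl.1 hVl'.1 (adj_q ha hv) (adj_q ha' hv') (hl.trans hl'.symm)
        (fun b0 hb0 => by
          rw [hl] at hb0
          exact hb b0 hb0)
      subst this
      exact absurd h'' (ht1 _ ht'').ne
    | t4 hc' ht' hv' h' hb' hVl' ha' hl' ht'' hVr' hr' hrt' hbr' h'' =>
      have e := Option.mem_unique hv hv'
      subst e
      have := same_bottom_left hG hVl.1 hVl'.1 (adj_q ha hv) (adj_q ha' hv') (hl.trans hl'.symm)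
        (fun b0 hb0 => by
          rw [hl] at hb0
          exact hb b0 hb0)
      subst this
      have := same_top_right hG hVr.1 hVr'.1 (adj_p hr (adj_q ha hv)) (adj_p hr' (adj_q ha hv))
        (hrt.trans hrt'.symm) (fun t0 ht0 => by
          rw [hrt] at ht0
          exact ht1 t0 ht0)
      rw [this]

/-- a step is a turn at a vertex or straight (then the next side does not start at a vertex) -/
theorem nx_cases {eps : ℝ} {R : Finset Seg} {x : ℂ} (hG : Gen eps R x) {k k' : Bool × Cell}
    (h : Nx (InFace eps R x) k k') :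
    (∃ v, Fin' k v ∧ Em k' v) ∨
      ((¬ ∃ v, Em k' v) ∧ k.1 = k'.1 ∧ sseg k = sseg k' ∧
        ∃ v, v ∈ sfin k ∧ v ∈ sbeg k' ∧ ∃ s ∈ sseg k, ori s v ≠ 0) := by
  cases h with
  | @b1 c r b v hc hb hv h hVr ha hr =>
    refine Or.inr ⟨?_, rfl, hr.symm, v, hv, adj_p ha hv, b, hb, h.ne'⟩
    rintro ⟨v', s, hs, hv', h'⟩
    have hs1 : s ∈ r.b := hs
    have hv1 : v' ∈ r.p := hv'
    rw [hr] at hs1
    have e := Option.mem_unique hs1 hb
    subst e
    have e := Option.mem_unique hv1 (adj_p ha hv)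
    subst e
    exact h.ne' h'
  | @b2 c b t v hc hb hv h ht h' =>
    exact Or.inl ⟨v, ⟨b, hb, hv, h⟩, ⟨t, ht, hv, h'⟩⟩
  | @b3 c r b b' v hc hb hv h ht hVr ha hr hb' h' =>
    exact Or.inl ⟨v, ⟨b, hb, hv, h⟩, ⟨b', hb', adj_p ha hv, h'⟩⟩
  | @b4 c r l b t v hc hb hv h ht hVr ha hr hb' hVl hl hlb htl h' =>
    exact Or.inl ⟨v, ⟨b, hb, hv, h⟩, ⟨t, htl, adj_q hl (adj_p ha hv), h'⟩⟩
  | @t1 c l t v hc ht hv h hVl ha hl =>
    refine Or.inr ⟨?_, rfl, hl.symm, v, hv, adj_q ha hv, t, ht, h.ne⟩
    rintro ⟨v', s, hs, hv', h'⟩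
    have hs1 : s ∈ l.t := hs
    have hv1 : v' ∈ l.q := hv'
    rw [hl] at hs1
    have e := Option.mem_unique hs1 ht
    subst e
    have e := Option.mem_unique hv1 (adj_q ha hv)
    subst e
    exact h.ne h'
  | @t2 c b t v hc ht hv h hb h' =>
    exact Or.inl ⟨v, ⟨t, ht, hv, h⟩, ⟨b, hb, hv, h'⟩⟩
  | @t3 c l t t' v hc ht hv h hb hVl ha hl ht' h' =>
    exact Or.inl ⟨v, ⟨t, ht, hv, h⟩, ⟨t', ht', adj_q ha hv, h'⟩⟩
  | @t4 c l r b t v hc ht hv h hb hVl ha hl ht' hVr hr hrt hbr h' =>
    exact Or.inl ⟨v, ⟨t, ht, hv, h⟩, ⟨b, hbr, adj_p hr (adj_q ha hv), h'⟩⟩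

end SFA
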