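import Pool.Agent.Lib.SFA.NxEx

/-!
# SFA.NxInj: the successor relation is injective

Let `Nx k1 k`, `Nx k2 k`, `k = (false, c)`, `b ∈ c.b`, `v ∈ c.p` the left wall (the same in both).  The rules ending in a bottom side: `b1`, `b3`, `t2`, `t4`.
* `b1` (from the left neighbour `l` with the same bottom): `0 < ori b v`; the other three have `ori b v = 0` (it is a hypothesis of the rule).  Two `b1` steps: `same_bottom_left`.
* `t2`: comes from `(true, c)`, and `ori t v = 0` for `t ∈ c.t`; in `b3` and `t4` the top of `c` is strictly above `v` (`c.t = l.t`).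
* `b3`: from `(false, l)`, `l` the left neighbour with the same top, `ori b'' v = 0` for the bottom `b''` of `l`; `t4`: from `(true, r')`, `r'` the right neighbour with the same bottom of the left neighbour `l` of `c` with the same top, where the bottom of `l` is strictly below `v`.  `l` is unique (`same_top_left`), so the two
  rules exclude each other, and in each the origin is unique (`same_bottom_right` for `r'`).
`k = (true, c)`: mirror image (`t1`, `t3`, `b2`, `b4`).
-/

namespace SFA

namespace NxInjAux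

theorem adj_p {c r : Cell} {v : ℂ} (ha : adj c r) (hv : v ∈ c.q) : v ∈ r.p := by
  obtain ⟨w, h1, h2, _⟩ := ha
  rwa [Option.mem_unique hv h1]

theorem adj_q {l r : Cell} {v : ℂ} (ha : adj l r) (hv : v ∈ r.p) : v ∈ l.q := by
  obtain ⟨w, h1, h2, _⟩ := ha
  rwa [Option.mem_unique hv h2]

end NxInjAux

open NxInjAux

theorem nx_inj {eps : ℝ} {R : Finset Seg} {x : ℂ} (hG : Gen eps R x) {k1 k2 k : Bool × Cell}
    (h1 : Nx (InFace eps R x) k1 k) (h2 : Nx (InFace eps R x) k2 k) : k1 = k2 := by
  cases h1 with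
  | @b1 c r b v hc hb hv h hVr ha hr =>
    have hvr : v ∈ r.p := adj_p ha hv
    have hbr : b ∈ r.b := hr ▸ hb
    cases h2 with
    | @b1 c' _ b' v' hc' hb' hv' h' hVr' ha' hr' =>
      have e := Option.mem_unique hvr (adj_p ha' hv')
      subst e
      have := same_bottom_left hG hc.1 hc'.1 hv hv' (hr.symm.trans hr')
        (fun b0 hb0 => by rw [Option.mem_unique hb0 hb]; exact h)
      rw [this]
    | @b3 c' _ b' b1' v' hc' hb' hv' h' ht' hVr' ha' hr' hb1' h1' =>
      have e := Option.mem_unique hvr (adj_p ha' hv')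
      subst e
      rw [Option.mem_unique hb1' hbr] at h1'
      exact absurd h1' h.ne'
    | @t2 _ b' t' v' hc' ht' hv' h' hb' h1' =>
      have e := Option.mem_unique hvr hv'
      subst e
      rw [Option.mem_unique hb' hbr] at h1'
      exact absurd h1' h.ne'
    | @t4 c' l' _ b' t' v' hc' ht' hv' h' hb' hVl' ha' hl' ht1' hVr' hr' hrt' hbr' h1' =>
      have e := Option.mem_unique hvr (adj_p hr' (adj_q ha' hv'))
      subst e
      rw [Option.mem_unique hbr' hbr] at h1'
      exact absurd h1' h.ne'
  | @b3 c r b b1 v hc hb hv h ht hVr ha hr hb1 h1 =>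
    have hvr : v ∈ r.p := adj_p ha hv
    have htr : ∀ t ∈ r.t, ori t v < 0 := fun t h => ht t (hr ▸ h)
    cases h2 with
    | @b1 c' _ b' v' hc' hb' hv' h' hVr' ha' hr' =>
      have e := Option.mem_unique hvr (adj_p ha' hv')
      subst e
      have hbr' : b' ∈ r.b := hr' ▸ hb'
      rw [Option.mem_unique hb1 hbr'] at h1
      exact absurd h1 h'.ne'
    | @b3 c' _ b' b1' v' hc' hb' hv' h' ht' hVr' ha' hr' hb1' h1' =>
      have e := Option.mem_unique hvr (adj_p ha' hv')
      subst e
      have := same_top_left hG hc.1 hc'.1 hv hv' (hr.symm.trans hr') ht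
      rw [this]
    | @t2 _ b' t' v' hc' ht' hv' h' hb' h1' =>
      have e := Option.mem_unique hvr hv'
      subst e
      exact absurd h' (htr _ ht').ne
    | @t4 c' l' _ b' t' v' hc' ht' hv' h' hb' hVl' ha' hl' ht1' hVr' hr' hrt' hbr' h1' =>
      have e := Option.mem_unique hvr (adj_p hr' (adj_q ha' hv'))
      subst e
      have := same_top_left hG hc.1 hVl'.1 hv (adj_q ha' hv') (hr.symm.trans hrt') ht
      subst this
      exact absurd h (hb' b (hl' ▸ hb)).ne'
  | @t2 r b t v hc ht hv h hb h1 =>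
    cases h2 with
    | @b1 c' _ b' v' hc' hb' hv' h' hVr' ha' hr' =>
      have e := Option.mem_unique hv (adj_p ha' hv')
      subst e
      have hbr' : b' ∈ r.b := hr' ▸ hb'
      rw [Option.mem_unique hb hbr'] at h1
      exact absurd h1 h'.ne'
    | @b3 c' _ b' b1' v' hc' hb' hv' h' ht' hVr' ha' hr' hb1' h1' =>
      have e := Option.mem_unique hv (adj_p ha' hv')
      subst e
      exact absurd h (ht' t (hr' ▸ ht)).ne
    | @t2 _ b' t' v' hc' ht' hv' h' hb' h1' => rfl
    | @t4 c' l' _ b' t' v' hc' ht' hv' h' hb' hVl' ha' hl' ht1' hVr' hr' hrt' hbr' h1' =>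
      have e := Option.mem_unique hv (adj_p hr' (adj_q ha' hv'))
      subst e
      exact absurd h (ht1' t (hrt' ▸ ht)).ne
  | @t4 c l r b t v hc ht hv h hb hVl ha hl ht1 hVr hr hrt hbr h1 =>
    have hvr : v ∈ r.p := adj_p hr (adj_q ha hv)
    cases h2 with
    | @b1 c' _ b' v' hc' hb' hv' h' hVr' ha' hr' =>
      have e := Option.mem_unique hvr (adj_p ha' hv')
      subst e
      have hbr' : b' ∈ r.b := hr' ▸ hb'
      rw [Option.mem_unique hbr hbr'] at h1
      exact absurd h1 h'.ne'
    | @b3 c' _ b' b1' v' hc' hb' hv' h' ht' hVr' ha' hr' hb1' h1' =>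
      have e := Option.mem_unique hvr (adj_p ha' hv')
      subst e
      have := same_top_left hG hc'.1 hVl.1 hv' (adj_q ha hv) (hr'.symm.trans hrt) ht'
      subst this
      exact absurd h' (hb b' (hl ▸ hb')).ne'
    | @t2 _ b' t' v' hc' ht' hv' h' hb' h1' =>
      have e := Option.mem_unique hvr hv'
      subst e
      exact absurd h' (ht1 t' (hrt ▸ ht')).ne
    | @t4 c' l' _ b' t' v' hc' ht' hv' h' hb' hVl' ha' hl' ht1' hVr' hr' hrt' hbr' h1' =>
      have e := Option.mem_unique hvr (adj_p hr' (adj_q ha' hv'))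
      subst e
      have := same_top_left hG hVl.1 hVl'.1 (adj_q ha hv) (adj_q ha' hv') (hrt.symm.trans hrt') ht1
      subst this
      have := same_bottom_right hG hc.1 hc'.1 hv hv' (hl.symm.trans hl') hb
      rw [this]
  | @t1 c l t v hc ht hv h hVl ha hl =>
    have hvl : v ∈ l.q := adj_q ha hv
    have htl : t ∈ l.t := hl ▸ ht
    cases h2 with
    | @t1 c' _ t' v' hc' ht' hv' h' hVl' ha' hl' =>
      have e := Option.mem_unique hvl (adj_q ha' hv')
      subst e
      have := same_top_right hG hc.1 hc'.1 hv hv' (hl.symm.trans hl')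
        (fun b0 hb0 => by rw [Option.mem_unique hb0 ht]; exact h)
      rw [this]
    | @t3 c' _ t' t1' v' hc' ht' hv' h' hb' hVl' ha' hl' ht1' h1' =>
      have e := Option.mem_unique hvl (adj_q ha' hv')
      subst e
      rw [Option.mem_unique ht1' htl] at h1'
      exact absurd h1' h.ne
    | @b2 _ b' t' v' hc' hb' hv' h' ht' h1' =>
      have e := Option.mem_unique hvl hv'
      subst e
      rw [Option.mem_unique ht' htl] at h1'
      exact absurd h1' h.ne
    | @b4 c' r' _ b' t' v' hc' hb' hv' h' ht' hVr' ha' hr' hb1' hVl' hl' hlb' htl' h1' =>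
      have e := Option.mem_unique hvl (adj_q hl' (adj_p ha' hv'))
      subst e
      rw [Option.mem_unique htl' htl] at h1'
      exact absurd h1' h.ne
  | @t3 c l t t1 v hc ht hv h hb hVl ha hl ht1 h1 =>
    have hvl : v ∈ l.q := adj_q ha hv
    have hbl : ∀ b ∈ l.b, 0 < ori b v := fun b h => hb b (hl ▸ h)
    cases h2 with
    | @t1 c' _ t' v' hc' ht' hv' h' hVl' ha' hl' =>
      have e := Option.mem_unique hvl (adj_q ha' hv')
      subst e
      have htl' : t' ∈ l.t := hl' ▸ ht'
      rw [Option.mem_unique ht1 htl'] at h1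
      exact absurd h1 h'.ne
    | @t3 c' _ t' t1' v' hc' ht' hv' h' hb' hVl' ha' hl' ht1' h1' =>
      have e := Option.mem_unique hvl (adj_q ha' hv')
      subst e
      have := same_bottom_right hG hc.1 hc'.1 hv hv' (hl.symm.trans hl') hb
      rw [this]
    | @b2 _ b' t' v' hc' hb' hv' h' ht' h1' =>
      have e := Option.mem_unique hvl hv'
      subst e
      exact absurd h' (hbl b' hb').ne'
    | @b4 c' r' _ b' t' v' hc' hb' hv' h' ht' hVr' ha' hr' hb1' hVl' hl' hlb' htl' h1' =>
      have e := Option.mem_unique hvl (adj_q hl' (adj_p ha' hv'))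
      subst e
      have := same_bottom_right hG hc.1 hVr'.1 hv (adj_p ha' hv') (hl.symm.trans hlb') hb
      subst this
      exact absurd h (ht' t (hr' ▸ ht)).ne
  | @b2 l b t v hc hb hv h ht h1 =>
    cases h2 with
    | @t1 c' _ t' v' hc' ht' hv' h' hVl' ha' hl' =>
      have e := Option.mem_unique hv (adj_q ha' hv')
      subst e
      have htl' : t' ∈ l.t := hl' ▸ ht'
      rw [Option.mem_unique ht htl'] at h1
      exact absurd h1 h'.ne
    | @t3 c' _ t' t1' v' hc' ht' hv' h' hb' hVl' ha' hl' ht1' h1' =>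
      have e := Option.mem_unique hv (adj_q ha' hv')
      subst e
      exact absurd h (hb' b (hl' ▸ hb)).ne'
    | @b2 _ b' t' v' hc' hb' hv' h' ht' h1' => rfl
    | @b4 c' r' _ b' t' v' hc' hb' hv' h' ht' hVr' ha' hr' hb1' hVl' hl' hlb' htl' h1' =>
      have e := Option.mem_unique hv (adj_q hl' (adj_p ha' hv'))
      subst e
      exact absurd h (hb1' b (hlb' ▸ hb)).ne'
  | @b4 c r l b t v hc hb hv h ht hVr ha hr hb1 hVl hl hlb htl h1 =>
    have hvl : v ∈ l.q := adj_q hl (adj_p ha hv)
    cases h2 with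
    | @t1 c' _ t' v' hc' ht' hv' h' hVl' ha' hl' =>
      have e := Option.mem_unique hvl (adj_q ha' hv')
      subst e
      have htl' : t' ∈ l.t := hl' ▸ ht'
      rw [Option.mem_unique htl htl'] at h1
      exact absurd h1 h'.ne
    | @t3 c' _ t' t1' v' hc' ht' hv' h' hb' hVl' ha' hl' ht1' h1' =>
      have e := Option.mem_unique hvl (adj_q ha' hv')
      subst e
      have := same_bottom_right hG hc'.1 hVr.1 hv' (adj_p ha hv) (hl'.symm.trans hlb) hb'
      subst this
      exact absurd h' (ht t' (hr ▸ ht')).ne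
    | @b2 _ b' t' v' hc' hb' hv' h' ht' h1' =>
      have e := Option.mem_unique hvl hv'
      subst e
      exact absurd h' (hb1 b' (hlb ▸ hb')).ne'
    | @b4 c' r' _ b' t' v' hc' hb' hv' h' ht' hVr' ha' hr' hb1' hVl' hl' hlb' htl' h1' =>
      have e := Option.mem_unique hvl (adj_q hl' (adj_p ha' hv'))
      subst e
      have := same_bottom_right hG hVr.1 hVr'.1 (adj_p ha hv) (adj_p ha' hv')
        (hlb.symm.trans hlb') hb1
      subst this
      have := same_top_left hG hc.1 hc'.1 hv hv' (hr.symm.trans hr') ht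
      rw [this]

end SFA
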