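import Pool.Agent.Lib.SFA.NxDef
import Pool.Agent.Lib.SFA.TestB
import Pool.Agent.Lib.SFA.ScatL
import Pool.Agent.Lib.SFA.Deg2
import Pool.Agent.Lib.SFA.AdjFace

/-!
# SFA.NxList: the lists `sideNext`, `sideStart` compute the successor relation and the starting vertices

`n = recs.length`.  `leftNb_spec`: `mem_bucketL`; Nodup because the pairs `(j, r)` are different.
`locs_getD`: entry `i < n`: `⟨i, c_i, [(j, c_j) : j ∈ leftNb[i]], [(j, c_j) : j ∈ nb_i]⟩`.  So `sideNext[2 i] = topNext loc_i [loc_j : j ∈ leftNb[i]]`, `sideNext[2 i + 1] = botNext loc_i [loc_j : j ∈ nb_i]`.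
`sideNext_spec` (⇒): `topNext a Ls = some k'`: follow the definition: `offB`, `onB` (`offB_iff`, `onB_iff`), `find?` gives an element of the list with the property (`List.find?_some`, `List.mem_of_find?_eq_some`), which is a cell adjacent to `c` (`FInv.nb`): the rules `t1, t2, t3, t4` (in `t4` the value is `2 r + 1` for a right neighbour `r` of `l` with
the same top).  Signs: `ori t v ≤ 0`, `0 ≤ ori b v` for walls of valid cells (`pb`, `qb`), so `≠ 0` gives strict signs; `v ∈ l.q` for `adj l c`, `v ∈ c.p`.  In `t4` (`b4`) the vertex `v` is on the bottom of `r` by `tip_right` (`tip_left`) of ODoor.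
(⇐): the rules give the value: `find?` returns the same cell because neighbours with the same top (bottom) are unique (`same_top_left` etc.), and equal cells have equal indices (`FInv.nodup`).  Existence of an element with the property: `List.find?_isSome`.
`sideStart_spec`: direct.
-/

namespace SFA

namespace NxListAux

theorem flatMap2_getElem? {A B : Type} (l : List A) (f g : A → B) (k : ℕ) :
    (l.flatMap (fun a => [f a, g a]))[k]? =
      (l[k / 2]?).map (fun a => if k % 2 = 0 then f a else g a) := by
  induction l generalizing k with
  | nil => simp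
  | cons x t ih =>
    rw [List.flatMap_cons]
    match k with
    | 0 => simp
    | 1 => simp
    | k + 2 =>
      have e1 : (k + 2) / 2 = k / 2 + 1 := by omega
      have e2 : (k + 2) % 2 = k % 2 := by omega
      rw [e1, e2]
      simp only [List.cons_append, List.nil_append, List.getElem?_cons_succ]
      exact ih k

theorem flatMap2_length {A B : Type} (l : List A) (f g : A → B) :
    (l.flatMap (fun a => [f a, g a])).length = 2 * l.length := by
  induction l with
  | nil => simp
  | cons x t ih =>
    rw [List.flatMap_cons, List.length_append, ih]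
    simp only [List.length_cons, List.length_nil]
    omega

theorem leftNb_length (recs : List Rec) : (leftNb recs).length = recs.length := by
  unfold leftNb
  rw [bucketL_length]

theorem gather2_length {α : Type} (d : α) (l : List α) (iss : List (List ℕ)) :
    (gather2 d l iss).length = iss.length := by
  simp [gather2]

theorem locs_length (recs : List Rec) : (locs recs).length = recs.length := by
  unfold locs
  simp [gather2_length, leftNb_length]

theorem start_aux (o : Option Seg) (w : Option ℂ) (v : ℂ) :
    (o.elim none (fun t => w.elim none (fun v => if ori t v = 0 then some v else none))) =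
      some v ↔ ∃ s ∈ o, v ∈ w ∧ ori s v = 0 := by
  cases o with
  | none => simp
  | some t =>
    cases w with
    | none => simp
    | some u =>
      simp only [Option.elim_some, Option.mem_def, Option.some.injEq, exists_eq_left']
      constructor
      · intro h
        split_ifs at h with h1
        have h2 : u = v := by simpa using h
        subst h2
        exact ⟨rfl, h1⟩
      · rintro ⟨rfl, h1⟩
        rw [if_pos h1]

end NxListAux

open NxListAux

theorem leftNb_spec {eps : ℝ} {S : Finset Seg} {x : ℂ} {recs : List Rec}
    (h : FInv eps S x recs) {i : ℕ} (hi : i < recs.length) (j : ℕ) :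
    j ∈ (leftNb recs).getD i [] ↔
      j < recs.length ∧ adj (recs.getD j rec0).c (recs.getD i rec0).c := by
  unfold leftNb
  rw [mem_bucketL hi, List.mem_flatMap]
  constructor
  · rintro ⟨⟨r, j'⟩, hr, hm⟩
    rw [List.mem_map] at hm
    obtain ⟨i', hi', he⟩ := hm
    rw [Prod.mk.injEq] at he
    obtain ⟨rfl, rfl⟩ := he
    have h1 := List.mk_mem_zipIdx_iff_getElem?.1 hr
    obtain ⟨h2, h3⟩ := List.getElem?_eq_some_iff.1 h1
    have h4 : r ∈ recs := h3 ▸ List.getElem_mem h2
    obtain ⟨h5, h6⟩ := (h.nb r h4 i').1 hi'
    refine ⟨h2, ?_⟩
    rw [List.getD_eq_getElem _ _ h2, List.getD_eq_getElem _ _ hi, h3]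
    exact h6
  · rintro ⟨hj, ha⟩
    rw [List.getD_eq_getElem _ _ hj, List.getD_eq_getElem _ _ hi] at ha
    refine ⟨(recs[j], j), List.mk_mem_zipIdx_iff_getElem?.2 (List.getElem?_eq_getElem hj), ?_⟩
    rw [List.mem_map]
    exact ⟨i, (h.nb _ (List.getElem_mem hj) i).2 ⟨hi, ha⟩, rfl⟩

theorem sideNext_length (recs : List Rec) : (sideNext recs).length = 2 * recs.length := by
  unfold sideNext
  simp only
  rw [flatMap2_length]
  simp [gather2_length, leftNb_length, locs_length]

theorem sideStart_length (recs : List Rec) : (sideStart recs).length = 2 * recs.length := by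
  unfold sideStart
  rw [flatMap2_length]

theorem sideStart_spec (recs : List Rec) {k : ℕ} (hk : k < 2 * recs.length) (v : ℂ) :
    (sideStart recs).getD k none = some v ↔ Em (sideAt recs k) v := by
  have hk2 : k / 2 < recs.length := by omega
  unfold sideStart
  rw [List.getD_eq_getElem?_getD, flatMap2_getElem?, List.getElem?_eq_getElem hk2, Option.map_some,
    Option.getD_some]
  unfold sideAt Em
  rw [List.getD_eq_getElem _ _ hk2]
  by_cases h0 : k % 2 = 0
  · rw [if_pos h0]
    simp only [sseg, sbeg, h0, decide_true, if_true]
    exact start_aux _ _ v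
  · rw [if_neg h0]
    simp only [sseg, sbeg, h0, decide_false, Bool.false_eq_true, if_false]
    exact start_aux _ _ v

end SFA
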