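import Pool.Agent.Lib.SFA.NxList
import Pool.Agent.Lib.SFA.NxEx

/-!
# SFA.NxList2: `sideNext` computes the successor relation

See the header of NxList.lean for the proof.
-/

namespace SFA

namespace NxList2Aux

/-- the cell number `j` -/
def cc (recs : List Rec) (j : ℕ) : Cell := (recs.getD j rec0).c

theorem flat2 {α β : Type} (f g : α → β) : ∀ (l : List α) (i : ℕ),
    (l.flatMap (fun a => [f a, g a]))[2 * i]? = l[i]?.map f ∧
      (l.flatMap (fun a => [f a, g a]))[2 * i + 1]? = l[i]?.map g
  | [], i => by simp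
  | a :: l, 0 => by simp
  | a :: l, i + 1 => by
    have h := flat2 f g l i
    have e1 : 2 * (i + 1) = 2 * i + 1 + 1 := by ring
    rw [e1]
    simpa using h

theorem zip_get {α β : Type} {l : List α} {m : List β} {i : ℕ} {a : α} {b : β}
    (h1 : l[i]? = some a) (h2 : m[i]? = some b) : (l.zip m)[i]? = some (a, b) := by
  rw [List.getElem?_zip_eq_some]
  exact ⟨h1, h2⟩

theorem gather2_get {α : Type} (d : α) (l : List α) (iss : List (List ℕ)) (i : ℕ)
    (hi : i < iss.length) :
    (gather2 d l iss)[i]? = some ((iss.getD i []).map (fun j => l.getD j d)) := by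
  unfold gather2
  rw [List.getElem?_map, List.getD_eq_getElem?_getD, List.getElem?_eq_getElem hi]
  rfl

theorem sideAt_even (recs : List Rec) (j : ℕ) : sideAt recs (2 * j) = (true, cc recs j) := by
  unfold sideAt cc
  rw [Nat.mul_mod_right, Nat.mul_div_cancel_left _ (by norm_num)]
  simp

theorem sideAt_odd (recs : List Rec) (j : ℕ) : sideAt recs (2 * j + 1) = (false, cc recs j) := by
  unfold sideAt cc
  have h1 : (2 * j + 1) % 2 = 1 := by omega
  have h2 : (2 * j + 1) / 2 = j := by omega
  rw [h1, h2]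
  simp

/-- a good `Loc` -/
structure LocOK (recs : List Rec) (i : ℕ) (a : Loc) : Prop where
  hi : i < recs.length
  ai : a.i = i
  ac : a.c = cc recs i
  L : ∀ e, e ∈ a.L ↔ ∃ j, j < recs.length ∧ adj (cc recs j) a.c ∧ e = (j, cc recs j)
  R : ∀ e, e ∈ a.R ↔ ∃ j, j < recs.length ∧ adj a.c (cc recs j) ∧ e = (j, cc recs j)

theorem leftNb_length (recs : List Rec) : (leftNb recs).length = recs.length := by
  unfold leftNb
  exact bucketL_length _ _

theorem mem_nb {eps : ℝ} {S : Finset Seg} {x : ℂ} {recs : List Rec}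
    (h : FInv eps S x recs) {i : ℕ} (hi : i < recs.length) (j : ℕ) :
    j ∈ (recs.map Rec.nb).getD i [] ↔
      j < recs.length ∧ adj (cc recs i) (cc recs j) := by
  have h1 : (recs.map Rec.nb).getD i [] = recs[i].nb := by
    rw [List.getD_eq_getElem?_getD, List.getElem?_map, List.getElem?_eq_getElem hi]
    rfl
  have h2 : cc recs i = recs[i].c := by
    unfold cc
    rw [List.getD_eq_getElem?_getD, List.getElem?_eq_getElem hi]
    rfl
  rw [h1, h.nb _ (List.getElem_mem hi), h2]
  constructor
  · rintro ⟨hj, ha⟩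
    refine ⟨hj, ?_⟩
    have h3 : cc recs j = recs[j].c := by
      unfold cc
      rw [List.getD_eq_getElem?_getD, List.getElem?_eq_getElem hj]
      rfl
    rw [h3]
    exact ha
  · rintro ⟨hj, ha⟩
    refine ⟨hj, ?_⟩
    have h3 : cc recs j = recs[j].c := by
      unfold cc
      rw [List.getD_eq_getElem?_getD, List.getElem?_eq_getElem hj]
      rfl
    rw [h3] at ha
    exact ha

theorem C_get (recs : List Rec) {j : ℕ} (hj : j < recs.length) :
    (recs.zipIdx.map (fun r => (r.2, r.1.c))).getD j (0, ⟨none, none, none, none⟩) =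
      (j, cc recs j) := by
  unfold cc
  rw [List.getD_eq_getElem?_getD, List.getElem?_map, List.getElem?_zipIdx,
    List.getD_eq_getElem?_getD, List.getElem?_eq_getElem hj]
  simp

theorem locs_get {eps : ℝ} {S : Finset Seg} {x : ℂ} {recs : List Rec}
    (h : FInv eps S x recs) {i : ℕ} (hi : i < recs.length) :
    LocOK recs i ((locs recs).getD i loc0) := by
  have e : (locs recs)[i]? = some ⟨i, cc recs i,
      ((leftNb recs).getD i []).map (fun j => (recs.zipIdx.map
        (fun r => (r.2, r.1.c))).getD j (0, ⟨none, none, none, none⟩)),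
      ((recs.map Rec.nb).getD i []).map (fun j => (recs.zipIdx.map
        (fun r => (r.2, r.1.c))).getD j (0, ⟨none, none, none, none⟩))⟩ := by
    unfold locs
    have hC : (recs.zipIdx.map (fun r => (r.2, r.1.c)))[i]? = some (i, cc recs i) := by
      unfold cc
      rw [List.getElem?_map, List.getElem?_zipIdx,
        List.getD_eq_getElem?_getD, List.getElem?_eq_getElem hi]
      simp
    rw [List.getElem?_map]
    rw [zip_get hC (zip_get
      (gather2_get _ _ _ i (by rw [leftNb_length]; exact hi))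
        (gather2_get _ _ (recs.map Rec.nb) i (by rw [List.length_map]; exact hi)))]
    rfl
  rw [List.getD_eq_getElem?_getD, e]
  refine ⟨hi, rfl, rfl, ?_, ?_⟩
  · intro e
    simp only [Option.getD_some, List.mem_map]
    constructor
    · rintro ⟨j, hj, rfl⟩
      obtain ⟨h1, h2⟩ := (leftNb_spec h hi j).1 hj
      exact ⟨j, h1, h2, C_get recs h1⟩
    · rintro ⟨j, h1, h2, rfl⟩
      exact ⟨j, (leftNb_spec h hi j).2 ⟨h1, h2⟩, C_get recs h1⟩
  · intro e
    simp only [Option.getD_some, List.mem_map]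
    constructor
    · rintro ⟨j, hj, rfl⟩
      obtain ⟨h1, h2⟩ := (mem_nb h hi j).1 hj
      exact ⟨j, h1, h2, C_get recs h1⟩
    · rintro ⟨j, h1, h2, rfl⟩
      exact ⟨j, (mem_nb h hi j).2 ⟨h1, h2⟩, C_get recs h1⟩

theorem locs_length (recs : List Rec) : (locs recs).length = recs.length := by
  unfold locs gather2
  simp [leftNb_length]

/-- the entries of `sideNext` -/
theorem sideNext_get {eps : ℝ} {S : Finset Seg} {x : ℂ} {recs : List Rec}
    (h : FInv eps S x recs) {i : ℕ} (hi : i < recs.length) :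
    ∃ (a : Loc) (Ls Rs : List Loc), LocOK recs i a ∧
      (∀ l ∈ Ls, ∃ j, LocOK recs j l ∧ adj l.c a.c) ∧
      (∀ j < recs.length, adj (cc recs j) a.c → ∃ l ∈ Ls, l.c = cc recs j) ∧
      (∀ l ∈ Rs, ∃ j, LocOK recs j l ∧ adj a.c l.c) ∧
      (∀ j < recs.length, adj a.c (cc recs j) → ∃ l ∈ Rs, l.c = cc recs j) ∧
      (sideNext recs).getD (2 * i) none = topNext a Ls ∧
      (sideNext recs).getD (2 * i + 1) none = botNext a Rs := by
  have ha := locs_get h hi
  refine ⟨(locs recs).getD i loc0,
    ((leftNb recs).getD i []).map (fun j => (locs recs).getD j loc0),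
    ((recs.map Rec.nb).getD i []).map (fun j => (locs recs).getD j loc0), ha, ?_, ?_, ?_, ?_, ?_⟩
  · intro l hl
    obtain ⟨j, hj, rfl⟩ := List.mem_map.1 hl
    obtain ⟨h1, h2⟩ := (leftNb_spec h hi j).1 hj
    have hj' := locs_get h h1
    refine ⟨j, hj', ?_⟩
    rw [hj'.ac, ha.ac]
    exact h2
  · intro j hj hadj
    rw [ha.ac] at hadj
    refine ⟨_, List.mem_map.2 ⟨j, (leftNb_spec h hi j).2 ⟨hj, hadj⟩, rfl⟩, ?_⟩
    exact (locs_get h hj).ac
  · intro l hl
    obtain ⟨j, hj, rfl⟩ := List.mem_map.1 hl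
    obtain ⟨h1, h2⟩ := (mem_nb h hi j).1 hj
    have hj' := locs_get h h1
    refine ⟨j, hj', ?_⟩
    rw [hj'.ac, ha.ac]
    exact h2
  · intro j hj hadj
    rw [ha.ac] at hadj
    refine ⟨_, List.mem_map.2 ⟨j, (mem_nb h hi j).2 ⟨hj, hadj⟩, rfl⟩, ?_⟩
    exact (locs_get h hj).ac
  · have hA : (locs recs)[i]? = some ((locs recs).getD i loc0) := by
      rw [List.getD_eq_getElem?_getD, List.getElem?_eq_getElem (by rw [locs_length]; exact hi)]
      rfl
    have hz := zip_get hA (zip_get
      (gather2_get loc0 (locs recs) (leftNb recs) i (by rw [leftNb_length]; exact hi))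
        (gather2_get loc0 (locs recs) (recs.map Rec.nb) i (by rw [List.length_map]; exact hi)))
    have hf := flat2 (fun a : Loc × List Loc × List Loc => topNext a.1 a.2.1)
      (fun a : Loc × List Loc × List Loc => botNext a.1 a.2.2)
      ((locs recs).zip ((gather2 loc0 (locs recs) (leftNb recs)).zip
        (gather2 loc0 (locs recs) (recs.map Rec.nb)))) i
    rw [hz] at hf
    have key : sideNext recs = List.flatMap
      (fun a : Loc × List Loc × List Loc => [topNext a.1 a.2.1, botNext a.1 a.2.2])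
      ((locs recs).zip ((gather2 loc0 (locs recs) (leftNb recs)).zip
        (gather2 loc0 (locs recs) (recs.map Rec.nb)))) := rfl
    rw [key]
    constructor
    · rw [List.getD_eq_getElem?_getD, hf.1]; rfl
    · rw [List.getD_eq_getElem?_getD, hf.2]; rfl

/-! ### soundness -/

theorem cc_inFace {eps : ℝ} {S : Finset Seg} {x : ℂ} {recs : List Rec}
    (h : FInv eps S x recs) {i : ℕ} (hi : i < recs.length) : InFace eps S x (cc recs i) := by
  refine (h.mem _).1 ?_
  unfold cc
  rw [List.getD_eq_getElem?_getD, List.getElem?_eq_getElem hi]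
  exact List.mem_map.2 ⟨_, List.getElem_mem hi, rfl⟩

theorem wall_eq {c d : Cell} {v : ℂ} (hv : v ∈ c.q) (h : adj c d) : v ∈ d.p := by
  obtain ⟨w, hw1, hw2, _⟩ := h
  have : v = w := Option.mem_unique hv hw1
  rw [this]
  exact hw2

theorem wall_eq' {c d : Cell} {v : ℂ} (hv : v ∈ d.p) (h : adj c d) : v ∈ c.q := by
  obtain ⟨w, hw1, hw2, _⟩ := h
  have : v = w := Option.mem_unique hv hw2
  rw [this]
  exact hw1

/-- not on a top of the band: strictly below -/
theorem below_of_not_on {c : Cell} {v : ℂ} (hb : inBand c v) (hn : ¬ onB c.t v = true) :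
    ∀ t ∈ c.t, ori t v < 0 := by
  intro t ht
  refine lt_of_le_of_ne (hb.2 t ht) ?_
  intro h0
  exact hn ((onB_iff _ _).2 ⟨t, ht, h0⟩)

theorem above_of_not_on {c : Cell} {v : ℂ} (hb : inBand c v) (hn : ¬ onB c.b v = true) :
    ∀ b ∈ c.b, 0 < ori b v := by
  intro t ht
  refine lt_of_le_of_ne (hb.1 t ht) ?_
  intro h0
  exact hn ((onB_iff _ _).2 ⟨t, ht, h0.symm⟩)

theorem topNext_sound {eps : ℝ} {S : Finset Seg} {x : ℂ} (hG : Gen eps S x) {recs : List Rec}
    (h : FInv eps S x recs) {i : ℕ} {a : Loc} {Ls : List Loc} (ha : LocOK recs i a)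
    (hLs : ∀ l ∈ Ls, ∃ j, LocOK recs j l ∧ adj l.c a.c) {k' : ℕ}
    (hk : topNext a Ls = some k') :
    k' < 2 * recs.length ∧ Nx (InFace eps S x) (true, a.c) (sideAt recs k') := by
  have hca : InFace eps S x a.c := by rw [ha.ac]; exact cc_inFace h ha.hi
  unfold topNext at hk
  cases hct : a.c.t with
  | none => rw [hct] at hk; simp at hk
  | some t =>
  cases hcp : a.c.p with
  | none => rw [hct, hcp] at hk; simp at hk
  | some v =>
  have htm : t ∈ a.c.t := by rw [hct]; rfl
  have hvm : v ∈ a.c.p := by rw [hcp]; rfl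
  have hband := hca.1.shape.pb v hvm
  rw [hct, hcp] at hk
  simp only [Option.elim_some] at hk
  split_ifs at hk with h1 h2
  · -- t1
    obtain ⟨l, hl, rfl⟩ := Option.map_eq_some_iff.1 hk
    have hl1 := List.mem_of_find?_eq_some hl
    have hl2 := List.find?_some hl
    rw [osEq_iff] at hl2
    obtain ⟨j, hj, hadj⟩ := hLs l hl1
    have h4 : ori t v ≠ 0 := (offB_iff _ _).1 h1 t rfl
    rw [hj.ai, sideAt_even, ← hj.ac]
    refine ⟨by have := hj.hi; omega, ?_⟩
    exact Nx.t1 hca htm hvm (lt_of_le_of_ne (hband.2 t htm) h4)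
      (by rw [hj.ac]; exact cc_inFace h hj.hi) hadj (by rw [hl2, hct])
  · -- t2
    have hk' := Option.some.inj hk
    subst hk'
    have h4 : ori t v = 0 := by
      by_contra h5
      exact h1 ((offB_iff _ _).2 (by
        intro s hs
        have : t = s := Option.some.inj hs
        rw [← this]
        exact h5))
    obtain ⟨b, hb, hbv⟩ := (onB_iff _ _).1 h2
    rw [ha.ai, sideAt_odd, ← ha.ac]
    refine ⟨by have := ha.hi; omega, ?_⟩
    exact Nx.t2 hca htm hvm h4 hb hbv
  · -- t3, t4
    have h4 : ori t v = 0 := by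
      by_contra h5
      exact h1 ((offB_iff _ _).2 (by
        intro s hs
        have : t = s := Option.some.inj hs
        rw [← this]
        exact h5))
    have hb0 := above_of_not_on hband h2
    cases hf : Ls.find? (fun l => osEq l.c.b a.c.b) with
    | none => rw [hf] at hk; simp at hk
    | some l =>
    rw [hf] at hk
    simp only [Option.elim_some] at hk
    have hl1 := List.mem_of_find?_eq_some hf
    have hl2 := List.find?_some hf
    rw [osEq_iff] at hl2
    obtain ⟨j, hj, hadj⟩ := hLs l hl1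
    have hcl : InFace eps S x l.c := by rw [hj.ac]; exact cc_inFace h hj.hi
    have hvq : v ∈ l.c.q := wall_eq' hvm hadj
    split_ifs at hk with h3
    · have hk' := Option.some.inj hk
      subst hk'
      obtain ⟨t', ht', htv'⟩ := (onB_iff _ _).1 h3
      rw [hj.ai, sideAt_even, ← hj.ac]
      refine ⟨by have := hj.hi; omega, ?_⟩
      exact Nx.t3 hca htm hvm h4 hb0 hcl hadj hl2 ht' htv'
    · obtain ⟨r, hr, rfl⟩ := Option.map_eq_some_iff.1 hk
      have hr1 := List.mem_of_find?_eq_some hr
      have hr2 := List.find?_some hr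
      rw [osEq_iff] at hr2
      obtain ⟨m, hm, hadj2, rfl⟩ := (hj.R r).1 hr1
      have hcr : InFace eps S x (cc recs m) := cc_inFace h hm
      have hband2 := hcl.1.shape.qb v hvq
      have ht0 := below_of_not_on hband2 h3
      have hb1 : ∀ b ∈ l.c.b, 0 < ori b v := by rw [hl2]; exact hb0
      obtain ⟨b, hb, hbv⟩ := (tip_right hG hcl.1 hcr.1 hvq ⟨hb1, ht0⟩ (wall_eq hvq hadj2)).1 hr2
      dsimp only
      rw [sideAt_odd]
      refine ⟨by omega, ?_⟩
      exact Nx.t4 hca htm hvm h4 hb0 hcl hadj hl2 ht0 hcr hadj2 hr2 hb hbv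

theorem botNext_sound {eps : ℝ} {S : Finset Seg} {x : ℂ} (hG : Gen eps S x) {recs : List Rec}
    (h : FInv eps S x recs) {i : ℕ} {a : Loc} {Rs : List Loc} (ha : LocOK recs i a)
    (hRs : ∀ l ∈ Rs, ∃ j, LocOK recs j l ∧ adj a.c l.c) {k' : ℕ}
    (hk : botNext a Rs = some k') :
    k' < 2 * recs.length ∧ Nx (InFace eps S x) (false, a.c) (sideAt recs k') := by
  have hca : InFace eps S x a.c := by rw [ha.ac]; exact cc_inFace h ha.hi
  unfold botNext at hk
  cases hct : a.c.b with
  | none => rw [hct] at hk; simp at hk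
  | some b =>
  cases hcp : a.c.q with
  | none => rw [hct, hcp] at hk; simp at hk
  | some v =>
  have hbm : b ∈ a.c.b := by rw [hct]; rfl
  have hvm : v ∈ a.c.q := by rw [hcp]; rfl
  have hband := hca.1.shape.qb v hvm
  rw [hct, hcp] at hk
  simp only [Option.elim_some] at hk
  split_ifs at hk with h1 h2
  · -- b1
    obtain ⟨l, hl, rfl⟩ := Option.map_eq_some_iff.1 hk
    have hl1 := List.mem_of_find?_eq_some hl
    have hl2 := List.find?_some hl
    rw [osEq_iff] at hl2
    obtain ⟨j, hj, hadj⟩ := hRs l hl1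
    have h4 : ori b v ≠ 0 := (offB_iff _ _).1 h1 b rfl
    rw [hj.ai, sideAt_odd, ← hj.ac]
    refine ⟨by have := hj.hi; omega, ?_⟩
    exact Nx.b1 hca hbm hvm (lt_of_le_of_ne (hband.1 b hbm) (Ne.symm h4))
      (by rw [hj.ac]; exact cc_inFace h hj.hi) hadj (by rw [hl2, hct])
  · -- b2
    have hk' := Option.some.inj hk
    subst hk'
    have h4 : ori b v = 0 := by
      by_contra h5
      exact h1 ((offB_iff _ _).2 (by
        intro s hs
        have : b = s := Option.some.inj hs
        rw [← this]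
        exact h5))
    obtain ⟨t, ht, htv⟩ := (onB_iff _ _).1 h2
    rw [ha.ai, sideAt_even, ← ha.ac]
    refine ⟨by have := ha.hi; omega, ?_⟩
    exact Nx.b2 hca hbm hvm h4 ht htv
  · -- b3, b4
    have h4 : ori b v = 0 := by
      by_contra h5
      exact h1 ((offB_iff _ _).2 (by
        intro s hs
        have : b = s := Option.some.inj hs
        rw [← this]
        exact h5))
    have ht0 := below_of_not_on hband h2
    cases hf : Rs.find? (fun r => osEq r.c.t a.c.t) with
    | none => rw [hf] at hk; simp at hk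
    | some r =>
    rw [hf] at hk
    simp only [Option.elim_some] at hk
    have hr1 := List.mem_of_find?_eq_some hf
    have hr2 := List.find?_some hf
    rw [osEq_iff] at hr2
    obtain ⟨j, hj, hadj⟩ := hRs r hr1
    have hcr : InFace eps S x r.c := by rw [hj.ac]; exact cc_inFace h hj.hi
    have hvp : v ∈ r.c.p := wall_eq hvm hadj
    split_ifs at hk with h3
    · have hk' := Option.some.inj hk
      subst hk'
      obtain ⟨b', hb', hbv'⟩ := (onB_iff _ _).1 h3
      rw [hj.ai, sideAt_odd, ← hj.ac]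
      refine ⟨by have := hj.hi; omega, ?_⟩
      exact Nx.b3 hca hbm hvm h4 ht0 hcr hadj hr2 hb' hbv'
    · obtain ⟨l, hl, rfl⟩ := Option.map_eq_some_iff.1 hk
      have hl1 := List.mem_of_find?_eq_some hl
      have hl2 := List.find?_some hl
      rw [osEq_iff] at hl2
      obtain ⟨m, hm, hadj2, rfl⟩ := (hj.L l).1 hl1
      have hcl : InFace eps S x (cc recs m) := cc_inFace h hm
      have hband2 := hcr.1.shape.pb v hvp
      have hb0 := above_of_not_on hband2 h3
      have ht1 : ∀ t ∈ r.c.t, ori t v < 0 := by rw [hr2]; exact ht0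
      obtain ⟨t, ht, htv⟩ := (tip_left hG hcr.1 hcl.1 hvp ⟨hb0, ht1⟩ (wall_eq' hvp hadj2)).2 hl2
      dsimp only
      rw [sideAt_even]
      refine ⟨by omega, ?_⟩
      exact Nx.b4 hca hbm hvm h4 ht0 hcr hadj hr2 hb0 hcl hadj2 hl2 ht htv

/-! ### completeness -/

theorem exists_cc {eps : ℝ} {S : Finset Seg} {x : ℂ} {recs : List Rec}
    (h : FInv eps S x recs) {c : Cell} (hc : InFace eps S x c) :
    ∃ m, m < recs.length ∧ cc recs m = c := by
  have h1 := (h.mem c).2 hc
  obtain ⟨m, hm, he⟩ := List.getElem_of_mem h1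
  rw [List.length_map] at hm
  refine ⟨m, hm, ?_⟩
  unfold cc
  rw [List.getD_eq_getElem?_getD, List.getElem?_eq_getElem hm]
  rw [← he, List.getElem_map]
  rfl

theorem topNext_isSome {eps : ℝ} {S : Finset Seg} {x : ℂ} (hG : Gen eps S x) {recs : List Rec}
    (h : FInv eps S x recs) {a : Loc} {Ls : List Loc}
    (hLs : ∀ l ∈ Ls, ∃ j, LocOK recs j l ∧ adj l.c a.c)
    (hLs' : ∀ j < recs.length, adj (cc recs j) a.c → ∃ l ∈ Ls, l.c = cc recs j)
    {s : Bool × Cell} (hN : Nx (InFace eps S x) (true, a.c) s) :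
    ∃ k', topNext a Ls = some k' := by
  have hget : ∀ l : Cell, InFace eps S x l → adj l a.c → ∃ y ∈ Ls, y.c = l := by
    intro l hl hadj
    obtain ⟨m, hm, rfl⟩ := exists_cc h hl
    exact hLs' m hm hadj
  unfold topNext
  cases hN with
  | @t1 _ l t v hc ht hv hor hVl hadj hl =>
    have ht' : a.c.t = some t := ht
    have hv' : a.c.p = some v := hv
    obtain ⟨y, hy, hyc⟩ := hget l hVl hadj
    have hoff : offB (some t) v = true := (offB_iff _ _).2 (by
      intro s hs
      have : t = s := Option.some.inj hs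
      rw [← this]
      exact ne_of_lt hor)
    have hsome : (Ls.find? (fun l => osEq l.c.t (some t))).isSome = true :=
      List.find?_isSome.2 ⟨y, hy, by rw [osEq_iff, hyc, hl, ht']⟩
    obtain ⟨z, hz⟩ := Option.isSome_iff_exists.1 hsome
    refine ⟨2 * z.i, ?_⟩
    rw [ht', hv']
    simp only [Option.elim_some]
    rw [if_pos hoff, hz]
    rfl
  | @t2 _ b t v hc ht hv hor hb hb' =>
    have ht' : a.c.t = some t := ht
    have hv' : a.c.p = some v := hv
    have hoff : ¬ offB (some t) v = true := by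
      intro h0
      exact (offB_iff _ _).1 h0 t rfl hor
    have hon : onB a.c.b v = true := (onB_iff _ _).2 ⟨b, hb, hb'⟩
    refine ⟨2 * a.i + 1, ?_⟩
    rw [ht', hv']
    simp only [Option.elim_some]
    rw [if_neg hoff, if_pos hon]
  | @t3 _ l t t' v hc ht hv hor hb0 hVl hadj hl ht2 hor' =>
    have ht' : a.c.t = some t := ht
    have hv' : a.c.p = some v := hv
    have hoff : ¬ offB (some t) v = true := by
      intro h0
      exact (offB_iff _ _).1 h0 t rfl hor
    have hon : ¬ onB a.c.b v = true := by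
      intro h0
      obtain ⟨b, hb, hb'⟩ := (onB_iff _ _).1 h0
      exact absurd hb' (ne_of_gt (hb0 b hb))
    obtain ⟨y, hy, hyc⟩ := hget l hVl hadj
    have hsome : (Ls.find? (fun l => osEq l.c.b a.c.b)).isSome = true :=
      List.find?_isSome.2 ⟨y, hy, by rw [osEq_iff, hyc, hl]⟩
    obtain ⟨z, hz⟩ := Option.isSome_iff_exists.1 hsome
    have hz1 := List.mem_of_find?_eq_some hz
    have hz2 := List.find?_some hz
    rw [osEq_iff] at hz2
    obtain ⟨j, hj, hadjz⟩ := hLs z hz1
    have hcz : InFace eps S x z.c := by rw [hj.ac]; exact cc_inFace h hj.hi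
    have hlz : z.c = l := same_bottom_left hG hcz.1 hVl.1 (wall_eq' hv hadjz) (wall_eq' hv hadj)
      (by rw [hz2, hl]) (by rw [hz2]; exact hb0)
    have hon2 : onB z.c.t v = true := (onB_iff _ _).2 ⟨t', by rw [hlz]; exact ht2, hor'⟩
    refine ⟨2 * z.i, ?_⟩
    rw [ht', hv']
    simp only [Option.elim_some]
    rw [if_neg hoff, if_neg hon, hz]
    simp only [Option.elim_some]
    rw [if_pos hon2]
  | @t4 _ l r b t v hc ht hv hor hb0 hVl hadj hl ht0 hVr hadj2 hrt hbr hor' =>
    have ht' : a.c.t = some t := ht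
    have hv' : a.c.p = some v := hv
    have hoff : ¬ offB (some t) v = true := by
      intro h0
      exact (offB_iff _ _).1 h0 t rfl hor
    have hon : ¬ onB a.c.b v = true := by
      intro h0
      obtain ⟨b, hb, hb'⟩ := (onB_iff _ _).1 h0
      exact absurd hb' (ne_of_gt (hb0 b hb))
    obtain ⟨y, hy, hyc⟩ := hget l hVl hadj
    have hsome : (Ls.find? (fun l => osEq l.c.b a.c.b)).isSome = true :=
      List.find?_isSome.2 ⟨y, hy, by rw [osEq_iff, hyc, hl]⟩
    obtain ⟨z, hz⟩ := Option.isSome_iff_exists.1 hsome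
    have hz1 := List.mem_of_find?_eq_some hz
    have hz2 := List.find?_some hz
    rw [osEq_iff] at hz2
    obtain ⟨j, hj, hadjz⟩ := hLs z hz1
    have hcz : InFace eps S x z.c := by rw [hj.ac]; exact cc_inFace h hj.hi
    have hlz : z.c = l := same_bottom_left hG hcz.1 hVl.1 (wall_eq' hv hadjz) (wall_eq' hv hadj)
      (by rw [hz2, hl]) (by rw [hz2]; exact hb0)
    have hon2 : ¬ onB z.c.t v = true := by
      intro h0
      obtain ⟨t', ht2, ht3⟩ := (onB_iff _ _).1 h0
      rw [hlz] at ht2
      exact absurd ht3 (ne_of_lt (ht0 t' ht2))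
    obtain ⟨m, hm, hmr⟩ := exists_cc h hVr
    have hmem : (m, cc recs m) ∈ z.R := (hj.R _).2 ⟨m, hm, by rw [hlz, hmr]; exact hadj2, rfl⟩
    have hsome2 : (z.R.find? (fun r => osEq r.2.t z.c.t)).isSome = true :=
      List.find?_isSome.2 ⟨_, hmem, by rw [osEq_iff, hlz]; dsimp only; rw [hmr, hrt]⟩
    obtain ⟨w, hw⟩ := Option.isSome_iff_exists.1 hsome2
    refine ⟨2 * w.1 + 1, ?_⟩
    rw [ht', hv']
    simp only [Option.elim_some]
    rw [if_neg hoff, if_neg hon, hz]
    simp only [Option.elim_some]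
    rw [if_neg hon2, hw]
    rfl

theorem botNext_isSome {eps : ℝ} {S : Finset Seg} {x : ℂ} (hG : Gen eps S x) {recs : List Rec}
    (h : FInv eps S x recs) {a : Loc} {Rs : List Loc}
    (hRs : ∀ l ∈ Rs, ∃ j, LocOK recs j l ∧ adj a.c l.c)
    (hRs' : ∀ j < recs.length, adj a.c (cc recs j) → ∃ l ∈ Rs, l.c = cc recs j)
    {s : Bool × Cell} (hN : Nx (InFace eps S x) (false, a.c) s) :
    ∃ k', botNext a Rs = some k' := by
  have hget : ∀ l : Cell, InFace eps S x l → adj a.c l → ∃ y ∈ Rs, y.c = l := by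
    intro l hl hadj
    obtain ⟨m, hm, rfl⟩ := exists_cc h hl
    exact hRs' m hm hadj
  unfold botNext
  cases hN with
  | @b1 _ r b v hc hb hv hor hVr hadj hr =>
    have hb' : a.c.b = some b := hb
    have hv' : a.c.q = some v := hv
    obtain ⟨y, hy, hyc⟩ := hget r hVr hadj
    have hoff : offB (some b) v = true := (offB_iff _ _).2 (by
      intro s hs
      have : b = s := Option.some.inj hs
      rw [← this]
      exact ne_of_gt hor)
    have hsome : (Rs.find? (fun r => osEq r.c.b (some b))).isSome = true :=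
      List.find?_isSome.2 ⟨y, hy, by rw [osEq_iff, hyc, hr, hb']⟩
    obtain ⟨z, hz⟩ := Option.isSome_iff_exists.1 hsome
    refine ⟨2 * z.i + 1, ?_⟩
    rw [hb', hv']
    simp only [Option.elim_some]
    rw [if_pos hoff, hz]
    rfl
  | @b2 _ b t v hc hb hv hor ht ht' =>
    have hb' : a.c.b = some b := hb
    have hv' : a.c.q = some v := hv
    have hoff : ¬ offB (some b) v = true := by
      intro h0
      exact (offB_iff _ _).1 h0 b rfl hor
    have hon : onB a.c.t v = true := (onB_iff _ _).2 ⟨t, ht, ht'⟩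
    refine ⟨2 * a.i, ?_⟩
    rw [hb', hv']
    simp only [Option.elim_some]
    rw [if_neg hoff, if_pos hon]
  | @b3 _ r b b' v hc hb hv hor ht0 hVr hadj hr hb2 hor' =>
    have hb' : a.c.b = some b := hb
    have hv' : a.c.q = some v := hv
    have hoff : ¬ offB (some b) v = true := by
      intro h0
      exact (offB_iff _ _).1 h0 b rfl hor
    have hon : ¬ onB a.c.t v = true := by
      intro h0
      obtain ⟨t, ht, ht'⟩ := (onB_iff _ _).1 h0
      exact absurd ht' (ne_of_lt (ht0 t ht))
    obtain ⟨y, hy, hyc⟩ := hget r hVr hadj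
    have hsome : (Rs.find? (fun r => osEq r.c.t a.c.t)).isSome = true :=
      List.find?_isSome.2 ⟨y, hy, by rw [osEq_iff, hyc, hr]⟩
    obtain ⟨z, hz⟩ := Option.isSome_iff_exists.1 hsome
    have hz1 := List.mem_of_find?_eq_some hz
    have hz2 := List.find?_some hz
    rw [osEq_iff] at hz2
    obtain ⟨j, hj, hadjz⟩ := hRs z hz1
    have hcz : InFace eps S x z.c := by rw [hj.ac]; exact cc_inFace h hj.hi
    have hlz : z.c = r := same_top_right hG hcz.1 hVr.1 (wall_eq hv hadjz) (wall_eq hv hadj)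
      (by rw [hz2, hr]) (by rw [hz2]; exact ht0)
    have hon2 : onB z.c.b v = true := (onB_iff _ _).2 ⟨b', by rw [hlz]; exact hb2, hor'⟩
    refine ⟨2 * z.i + 1, ?_⟩
    rw [hb', hv']
    simp only [Option.elim_some]
    rw [if_neg hoff, if_neg hon, hz]
    simp only [Option.elim_some]
    rw [if_pos hon2]
  | @b4 _ r l b t v hc hb hv hor ht0 hVr hadj hr hb0 hVl hadj2 hlb htl hor' =>
    have hb' : a.c.b = some b := hb
    have hv' : a.c.q = some v := hv
    have hoff : ¬ offB (some b) v = true := by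
      intro h0
      exact (offB_iff _ _).1 h0 b rfl hor
    have hon : ¬ onB a.c.t v = true := by
      intro h0
      obtain ⟨t, ht, ht'⟩ := (onB_iff _ _).1 h0
      exact absurd ht' (ne_of_lt (ht0 t ht))
    obtain ⟨y, hy, hyc⟩ := hget r hVr hadj
    have hsome : (Rs.find? (fun r => osEq r.c.t a.c.t)).isSome = true :=
      List.find?_isSome.2 ⟨y, hy, by rw [osEq_iff, hyc, hr]⟩
    obtain ⟨z, hz⟩ := Option.isSome_iff_exists.1 hsome
    have hz1 := List.mem_of_find?_eq_some hz
    have hz2 := List.find?_some hz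
    rw [osEq_iff] at hz2
    obtain ⟨j, hj, hadjz⟩ := hRs z hz1
    have hcz : InFace eps S x z.c := by rw [hj.ac]; exact cc_inFace h hj.hi
    have hlz : z.c = r := same_top_right hG hcz.1 hVr.1 (wall_eq hv hadjz) (wall_eq hv hadj)
      (by rw [hz2, hr]) (by rw [hz2]; exact ht0)
    have hon2 : ¬ onB z.c.b v = true := by
      intro h0
      obtain ⟨b', hb2, hb3⟩ := (onB_iff _ _).1 h0
      rw [hlz] at hb2
      exact absurd hb3 (ne_of_gt (hb0 b' hb2))
    obtain ⟨m, hm, hml⟩ := exists_cc h hVl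
    have hmem : (m, cc recs m) ∈ z.L := (hj.L _).2 ⟨m, hm, by rw [hlz, hml]; exact hadj2, rfl⟩
    have hsome2 : (z.L.find? (fun l => osEq l.2.b z.c.b)).isSome = true :=
      List.find?_isSome.2 ⟨_, hmem, by rw [osEq_iff, hlz]; dsimp only; rw [hml, hlb]⟩
    obtain ⟨w, hw⟩ := Option.isSome_iff_exists.1 hsome2
    refine ⟨2 * w.1, ?_⟩
    rw [hb', hv']
    simp only [Option.elim_some]
    rw [if_neg hoff, if_neg hon, hz]
    simp only [Option.elim_some]
    rw [if_neg hon2, hw]
    rfl

theorem sound {eps : ℝ} {S : Finset Seg} {x : ℂ} (hG : Gen eps S x) {recs : List Rec}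
    (h : FInv eps S x recs) {k : ℕ} (hk : k < 2 * recs.length) {k' : ℕ}
    (hs : (sideNext recs).getD k none = some k') :
    k' < 2 * recs.length ∧ Nx (InFace eps S x) (sideAt recs k) (sideAt recs k') := by
  have hi : k / 2 < recs.length := by omega
  obtain ⟨a, Ls, Rs, ha, hL, hL', hR, hR', h1, h2⟩ := sideNext_get h hi
  rcases Nat.even_or_odd' k with ⟨m, rfl | rfl⟩
  · have hm : 2 * m / 2 = m := by omega
    rw [hm] at h1 ha
    rw [h1] at hs
    have := topNext_sound hG h ha hL hs
    rw [sideAt_even, ← ha.ac]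
    exact this
  · have hm : (2 * m + 1) / 2 = m := by omega
    rw [hm] at h2 ha
    rw [h2] at hs
    have := botNext_sound hG h ha hR hs
    rw [sideAt_odd, ← ha.ac]
    exact this

theorem complete {eps : ℝ} {S : Finset Seg} {x : ℂ} (hG : Gen eps S x) {recs : List Rec}
    (h : FInv eps S x recs) {k : ℕ} (hk : k < 2 * recs.length) {s : Bool × Cell}
    (hN : Nx (InFace eps S x) (sideAt recs k) s) :
    ∃ k', (sideNext recs).getD k none = some k' := by
  have hi : k / 2 < recs.length := by omega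
  obtain ⟨a, Ls, Rs, ha, hL, hL', hR, hR', h1, h2⟩ := sideNext_get h hi
  rcases Nat.even_or_odd' k with ⟨m, rfl | rfl⟩
  · have hm : 2 * m / 2 = m := by omega
    rw [hm] at h1 ha
    rw [h1]
    rw [sideAt_even, ← ha.ac] at hN
    exact topNext_isSome hG h hL hL' hN
  · have hm : (2 * m + 1) / 2 = m := by omega
    rw [hm] at h2 ha
    rw [h2]
    rw [sideAt_odd, ← ha.ac] at hN
    exact botNext_isSome hG h hR hR' hN

theorem cc_inj {eps : ℝ} {S : Finset Seg} {x : ℂ} {recs : List Rec}
    (h : FInv eps S x recs) {i j : ℕ} (hi : i < recs.length) (hj : j < recs.length)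
    (he : cc recs i = cc recs j) : i = j := by
  have h1 : ∀ m (hm : m < recs.length), cc recs m = (recs.map Rec.c)[m]'(by
      rw [List.length_map]; exact hm) := by
    intro m hm
    unfold cc
    rw [List.getD_eq_getElem?_getD, List.getElem?_eq_getElem hm, List.getElem_map]
    rfl
  rw [h1 i hi, h1 j hj] at he
  exact (List.Nodup.getElem_inj_iff h.nodup).1 he

theorem sideAt_inj {eps : ℝ} {S : Finset Seg} {x : ℂ} {recs : List Rec}
    (h : FInv eps S x recs) {i j : ℕ} (hi : i < 2 * recs.length) (hj : j < 2 * recs.length)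
    (he : sideAt recs i = sideAt recs j) : i = j := by
  have h1 := congrArg Prod.fst he
  have h2 := congrArg Prod.snd he
  have h3 : i / 2 = j / 2 := cc_inj h (by omega) (by omega) h2
  have h4 : decide (i % 2 = 0) = decide (j % 2 = 0) := h1
  have h5 : i % 2 = 0 ↔ j % 2 = 0 := by
    constructor
    · intro h6
      rw [decide_eq_true h6] at h4
      exact of_decide_eq_true h4.symm
    · intro h6
      rw [decide_eq_true h6] at h4
      exact of_decide_eq_true h4
  omega

end NxList2Aux

open NxList2Aux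

theorem sideNext_spec {eps : ℝ} {S : Finset Seg} {x : ℂ} (hG : Gen eps S x) {recs : List Rec}
    (h : FInv eps S x recs) {k : ℕ} (hk : k < 2 * recs.length) (k' : ℕ) :
    (sideNext recs).getD k none = some k' ↔
      k' < 2 * recs.length ∧ Nx (InFace eps S x) (sideAt recs k) (sideAt recs k') := by
  constructor
  · intro hs
    exact sound hG h hk hs
  · rintro ⟨hk', hN⟩
    obtain ⟨k2, hk2⟩ := complete hG h hk hN
    obtain ⟨hk3, hN2⟩ := sound hG h hk hk2
    have he := nx_unique hG hN2 hN
    rw [hk2, sideAt_inj h hk3 hk' he]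

theorem sideNext_isSome {eps : ℝ} {S : Finset Seg} {x : ℂ} (hG : Gen eps S x) {recs : List Rec}
    (h : FInv eps S x recs) (k : ℕ) :
    ((sideNext recs).getD k none).isSome = true ↔
      k < 2 * recs.length ∧ sseg (sideAt recs k) ≠ none := by
  constructor
  · intro hs
    obtain ⟨k', hk'⟩ := Option.isSome_iff_exists.1 hs
    have hk : k < 2 * recs.length := by
      by_contra hcon
      rw [List.getD_eq_default _ _ (by rw [sideNext_length]; omega)] at hk'
      exact absurd hk' (by simp)
    refine ⟨hk, ?_⟩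
    obtain ⟨_, hN⟩ := sound hG h hk hk'
    have key : ∀ s s' : Bool × Cell, Nx (InFace eps S x) s s' → sseg s ≠ none := by
      intro s s' hN hne
      unfold sseg at hne
      cases hN <;> simp_all
    exact key _ _ hN
  · rintro ⟨hk, hne⟩
    have hf : InFace eps S x (sideAt recs k).2 := cc_inFace (i := k / 2) h (by omega)
    obtain ⟨s, hN, _⟩ := nx_exists hG hf hne
    obtain ⟨k2, hk2⟩ := complete hG h hk hN
    rw [hk2]
    rfl

end SFA
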