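import Pool.Agent.Lib.SFA.Defs

/-!
# SFA.ODefs: the boundary of a face of an arbitrary arrangement of segments (package O, owner helper8)

Output specification.  `S` is an arbitrary finite set of segments (concurrent, touching, overlapping segments allowed).
-/

namespace SFA

open Complex

/-- The vertices of the arrangement of an arbitrary finite set of segments: the endpoints, and the points common to two
non-parallel segments. -/
def Vert (S : Finset Seg) : Set ℂ :=
  {v | (∃ s ∈ S, v = s.1 ∨ v = s.2) ∨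
    ∃ s ∈ S, ∃ t ∈ S, cross (s.2 - s.1) (t.2 - t.1) ≠ 0 ∧ v ∈ carrier s ∧ v ∈ carrier t}

/-- `[p, q]` is an edge of the arrangement directed from `p` to `q`: `p`, `q` are two vertices, the segment between them is covered
by the segments of `S` and contains no other vertex. -/
structure IsDEdge (S : Finset Seg) (p q : ℂ) : Prop where
  ne : p ≠ q
  pV : p ∈ Vert S
  qV : q ∈ Vert S
  sub : segment ℝ p q ⊆ U S
  free : Disjoint (openSegment ℝ p q) (Vert S)

/-- the point `p + t (q - p)` moved to the left (seen from `p` to `q`) by `ε |q - p|` -/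
noncomputable def lpt (p q : ℂ) (t ε : ℝ) : ℂ := p + (t : ℂ) * (q - p) + (ε : ℂ) * (I * (q - p))

/-- `(p, q)` is a directed edge with the face `f` on its left. -/
def IsSide (S : Finset Seg) (f : Set ℂ) (p q : ℂ) : Prop :=
  IsDEdge S p q ∧ ∃ ε₀ > 0, ∀ ε : ℝ, 0 < ε → ε < ε₀ → lpt p q (1 / 2) ε ∈ f

/-- The left sides of the consecutive edges `(p, v)` and `(v, q)` are connected inside every small disc around `v` without
crossing a segment: `(v, q)` follows `(p, v)` on the boundary walk. -/
def Joined (S : Finset Seg) (p v q : ℂ) : Prop :=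
  ∀ r > 0, ∃ K : Set ℂ, IsPreconnected K ∧ K ⊆ Metric.ball v r ∧ (∀ z ∈ K, z ∉ U S) ∧
    (∃ t < (1 : ℝ), ∀ t', t < t' → t' < 1 → ∃ ε₀ > 0, ∀ ε, 0 < ε → ε < ε₀ → lpt p v t' ε ∈ K) ∧
    (∃ t > (0 : ℝ), ∀ t', 0 < t' → t' < t → ∃ ε₀ > 0, ∀ ε, 0 < ε → ε < ε₀ → lpt v q t' ε ∈ K)

/-- cyclically consecutive pairs of a list -/
def cyc {α : Type} (l : List α) : List (α × α) := l.zip (l.rotate 1)

/-- cyclically consecutive triples of a list -/
def cyc3 {α : Type} (l : List α) : List (α × α × α) := l.zip ((l.rotate 1).zip (l.rotate 2))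

/-- `L` describes the boundary of the face of `x` in the arrangement of `S`: a list of cyclic lists of vertices; the cyclically
consecutive pairs are the directed edges with the face on the left, each exactly once; consecutive edges follow each other on the
boundary walk; there is exactly one cyclic list for each connected component of the frontier of the face. -/
structure IsBoundary (S : Finset Seg) (x : ℂ) (L : List (List ℂ)) : Prop where
  ne : ∀ l ∈ L, l ≠ []
  sides : ∀ p q, (p, q) ∈ L.flatMap cyc ↔ IsSide S (face S x) p q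
  once : (L.flatMap cyc).Nodup
  turn : ∀ l ∈ L, ∀ a ∈ cyc3 l, Joined S a.1 a.2.1 a.2.2
  same : ∀ l ∈ L, ∀ p ∈ l, ∀ q ∈ l, q ∈ connectedComponentIn (frontier (face S x)) p
  diff : L.Pairwise (fun l m => ∀ p ∈ l, ∀ q ∈ m,
    q ∉ connectedComponentIn (frontier (face S x)) p)
  cover : ∀ z ∈ frontier (face S x), ∃ a ∈ L.flatMap cyc, z ∈ segment ℝ a.1 a.2

/-- The specification only depends on the union and the vertices. -/
theorem isBoundary_congr {S T : Finset Seg} (hU : U S = U T) (hV : Vert S = Vert T) {x : ℂ}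
    {L : List (List ℂ)} (h : IsBoundary T x L) : IsBoundary S x L := by
  have hf : face S x = face T x := by unfold face; rw [hU]
  have hd : ∀ p q, IsDEdge S p q ↔ IsDEdge T p q := fun p q =>
    ⟨fun e => ⟨e.ne, hV ▸ e.pV, hV ▸ e.qV, hU ▸ e.sub, hV ▸ e.free⟩,
      fun e => ⟨e.ne, hV.symm ▸ e.pV, hV.symm ▸ e.qV, hU.symm ▸ e.sub, hV.symm ▸ e.free⟩⟩
  refine ⟨h.ne, fun p q => ?_, h.once, fun l hl a ha => ?_, ?_, ?_, ?_⟩
  · rw [h.sides p q, hf]
    unfold IsSide
    rw [hd]
  · have := h.turn l hl a ha
    unfold Joined at this ⊢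
    rw [hU]
    exact this
  · rw [hf]; exact h.same
  · rw [hf]; exact h.diff
  · rw [hf]; exact h.cover

end SFA
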