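import Pool.Agent.Lib.SFA.OPDefs
import Pool.Agent.Lib.P7m.Sort

/-!
# SFA.OPCost (package O, owner helper8): the preprocessing is computed with cost O(n log n).

`P7m.RC f c` = some program computes f with cost O(c + 1) (P7m/Defs.lean; closure lemmas in P7m/Base, Arith, Fold, Lists, Sort;
look at the proofs in P7m/Lists.lean for the style: `RC.fst (RC.snd RC.id)` etc. for projections, `RC.cond` for `if (b : Bool)`,
`RC.ite` for decidable propositions (with `RC.rlt`), `RC.optionElim` for `Option.elim`, `.of_le`, `.mono K`, `.congr`).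
Plan: rc_lexB, rc_ptEq, rc_keyEq, rc_lexc, rc_evLe (all cost 0 for arguments of cost 0: sums of zeros, `.of_le` with simp),
rc_dirS, rc_keyS, rc_evS (`RC.cons`, `RC.nil`), rc_evNext, rc_emitB, rc_scanStep.
rc_scan: `RC.snd (RC.foldl ...)` with constant cost of the steps: `foldCost_le_const`.
rc_pre: `RC.flatMap` (cost (map (0 + 2 + 1)).sum = 3 n), `RC.msort` on the list of length 2 n (cost
(0 + 1) * (2 n * clog 2 (2 n) + 2 n)), then `RC.comp` with rc_scan (length of msort = 2 n by `msort_perm`); clog 2 (2 n) <= clog 2 n + 1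
(`Nat.clog` : for n >= 1, 2 n <= 2 ^ (clog 2 n + 1); for n = 0 trivial); `.mono 20`.
-/

namespace SFA

open P7m

namespace OPCostAux

variable {A B C D : Type} [Enc A] [Enc B] [Enc C] [Enc D]

/-- computed with constant cost -/
abbrev Z (f : A → B) : Prop := RC f (fun _ => 0)

theorem zfst {f : A → B × C} (h : Z f) : Z (fun a => (f a).1) := RC.fst h
theorem zsnd {f : A → B × C} (h : Z f) : Z (fun a => (f a).2) := RC.snd h
theorem zpair {f : A → B} {g : A → C} (hf : Z f) (hg : Z g) : Z (fun a => (f a, g a)) :=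
  (RC.pair hf hg).of_le (fun _ => le_refl _)
theorem zand {f g : A → Bool} (hf : Z f) (hg : Z g) : Z (fun a => f a && g a) :=
  (RC.and hf hg).of_le (fun _ => le_refl _)
theorem zor {f g : A → Bool} (hf : Z f) (hg : Z g) : Z (fun a => f a || g a) :=
  (RC.or hf hg).of_le (fun _ => le_refl _)
theorem znot {f : A → Bool} (hf : Z f) : Z (fun a => !(f a)) := RC.not hf
theorem zcons {f : A → B} {g : A → List B} (hf : Z f) (hg : Z g) : Z (fun a => f a :: g a) :=
  (RC.cons hf hg).of_le (fun _ => le_refl _)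
theorem zcond {p : A → Bool} {f g : A → B} (hp : Z p) (hf : Z f) (hg : Z g) :
    Z (fun a => if p a then f a else g a) :=
  (RC.cond hp hf hg).of_le (fun a => by simp)
theorem zite {p : A → Prop} [∀ a, Decidable (p a)] {f g : A → B}
    (hp : Z (fun a => decide (p a))) (hf : Z f) (hg : Z g) :
    Z (fun a => if p a then f a else g a) :=
  (RC.ite hp hf hg).of_le (fun a => by simp)
theorem zelim {o : A → Option B} {n : A → C} {s : A → B → C} (ho : Z o) (hn : Z n)
    (hs : Z (fun p : A × B => s p.1 p.2)) : Z (fun a => (o a).elim (n a) (s a)) :=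
  (RC.optionElim ho hn hs).of_le (fun a => by cases o a <;> simp)
theorem zrlt {f g : A → ℝ} [∀ a, Decidable (f a < g a)] (hf : Z f) (hg : Z g) :
    Z (fun a => decide (f a < g a)) := (RC.rlt hf hg).of_le (fun _ => le_refl _)
theorem zrle {f g : A → ℝ} [∀ a, Decidable (f a ≤ g a)] (hf : Z f) (hg : Z g) :
    Z (fun a => decide (f a ≤ g a)) := (RC.rle hf hg).of_le (fun _ => le_refl _)
theorem zreq {f g : A → ℝ} [∀ a, Decidable (f a = g a)] (hf : Z f) (hg : Z g) :
    Z (fun a => decide (f a = g a)) := (RC.req hf hg).of_le (fun _ => le_refl _)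
theorem zsub {f g : A → ℝ} (hf : Z f) (hg : Z g) : Z (fun a => f a - g a) :=
  (RC.rsub hf hg).of_le (fun _ => le_refl _)
theorem zmul {f g : A → ℝ} (hf : Z f) (hg : Z g) : Z (fun a => f a * g a) :=
  (RC.rmul hf hg).of_le (fun _ => le_refl _)
theorem zdiv {f g : A → ℝ} (hf : Z f) (hg : Z g) : Z (fun a => f a / g a) :=
  (RC.rdiv hf hg).of_le (fun _ => le_refl _)
theorem zsome {f : A → B} (hf : Z f) : Z (fun a => some (f a)) := RC.some hf

theorem zlexB {f g : A → ℂ} (hf : Z f) (hg : Z g) : Z (fun a => lexB (f a) (g a)) := by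
  unfold lexB
  exact zor (zrlt (RC.re hf) (RC.re hg))
    (zand (zreq (RC.re hf) (RC.re hg)) (zrlt (RC.im hf) (RC.im hg)))

theorem zptEq {f g : A → ℂ} (hf : Z f) (hg : Z g) : Z (fun a => ptEq (f a) (g a)) := by
  unfold ptEq
  exact zand (zreq (RC.re hf) (RC.re hg)) (zreq (RC.im hf) (RC.im hg))

theorem zkeyEq {f g : A → Key} (hf : Z f) (hg : Z g) : Z (fun a => keyEq (f a) (g a)) := by
  unfold keyEq
  exact zand (zreq (zfst hf) (zfst hg))
    (zand (zreq (zfst (zsnd hf)) (zfst (zsnd hg))) (zreq (zsnd (zsnd hf)) (zsnd (zsnd hg))))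

theorem zlexc {f g : A → ℝ} {r : A → Bool} (hf : Z f) (hg : Z g) (hr : Z r) :
    Z (fun a => lexc (f a) (g a) (r a)) := by
  unfold lexc
  exact zor (zrlt hf hg) (zand (zreq hf hg) hr)

theorem zevLe {f g : A → Ev} (hf : Z f) (hg : Z g) : Z (fun a => evLe (f a) (g a)) := by
  unfold evLe
  exact zlexc (zfst (zfst hf)) (zfst (zfst hg))
    (zlexc (zfst (zsnd (zfst hf))) (zfst (zsnd (zfst hg)))
      (zlexc (zsnd (zsnd (zfst hf))) (zsnd (zsnd (zfst hg)))
        (zlexc (RC.re (zfst (zsnd hf))) (RC.re (zfst (zsnd hg)))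
          (zrle (RC.im (zfst (zsnd hf))) (RC.im (zfst (zsnd hg)))))))

theorem zdirS {f : A → Seg} (hf : Z f) : Z (fun a => dirS (f a)) := by
  unfold dirS
  exact zcond (zlexB (zfst hf) (zsnd hf)) hf (zpair (zsnd hf) (zfst hf))

theorem zkeyS {f : A → Seg} (hf : Z f) : Z (fun a => keyS (f a)) := by
  unfold keyS
  have h1 : Z (fun a => (f a).1.re) := RC.re (zfst hf)
  have h2 : Z (fun a => (f a).2.re) := RC.re (zsnd hf)
  have h3 : Z (fun a => (f a).1.im) := RC.im (zfst hf)
  have h4 : Z (fun a => (f a).2.im) := RC.im (zsnd hf)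
  have h5 : Z (fun a => ((f a).2.im - (f a).1.im) / ((f a).2.re - (f a).1.re)) :=
    zdiv (zsub h4 h3) (zsub h2 h1)
  exact zite (zrlt h1 h2) (zpair RC.const_zero (zpair h5 (zsub h3 (zmul h5 h1))))
    (zpair RC.const_one (zpair h1 RC.const_zero))

theorem zevS {f : A → Seg} (hf : Z f) : Z (fun a => evS (f a)) := by
  unfold evS
  have hd := zdirS hf
  have hk := zkeyS hd
  exact zcons (zpair hk (zpair (zfst hd) (zsnd hd)))
    (zcons (zpair hk (zpair (zsnd hd) (zsnd hd))) RC.nil)

theorem zlexMax {f g : A → ℂ} (hf : Z f) (hg : Z g) : Z (fun a => lexMax (f a) (g a)) := by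
  unfold lexMax
  exact zcond (zlexB hf hg) hg hf

theorem zevNext {f g : A → Ev} (hf : Z f) (hg : Z g) : Z (fun a => evNext (f a) (g a)) := by
  unfold evNext
  exact zpair (zfst hg) (zpair (zfst (zsnd hg))
    (zcond (zkeyEq (zfst hf) (zfst hg)) (zlexMax (zsnd (zsnd hf)) (zsnd (zsnd hg)))
      (zsnd (zsnd hg))))

theorem zemitB {f g : A → Ev} (hf : Z f) (hg : Z g) : Z (fun a => emitB (f a) (g a)) := by
  unfold emitB
  exact zand (zkeyEq (zfst hf) (zfst hg))
    (zand (znot (zptEq (zfst (zsnd hf)) (zfst (zsnd hg))))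
      (zlexB (zfst (zsnd hf)) (zsnd (zsnd hf))))

theorem zscanStep {f : A → Option Ev × List Seg} {g : A → Ev} (hf : Z f) (hg : Z g) :
    Z (fun a => scanStep (f a) (g a)) := by
  unfold scanStep
  have hf' : Z (fun p : A × Ev => f p.1) := RC.comp0 hf (RC.fst RC.id)
  have hg' : Z (fun p : A × Ev => g p.1) := RC.comp0 hg (RC.fst RC.id)
  have ha : Z (fun p : A × Ev => p.2) := RC.snd RC.id
  exact zelim (s := fun a b => (some (evNext b (g a)),
      if emitB b (g a) then (b.2.1, (g a).2.1) :: (f a).2 else (f a).2))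
    (zfst hf) (zpair (zsome hg) (zsnd hf))
    (zpair (zsome (zevNext ha hg')) (zcond (zemitB ha hg')
      (zcons (zpair (zfst (zsnd ha)) (zfst (zsnd hg'))) (zsnd hf')) (zsnd hf')))

theorem clog_two_mul (n : ℕ) : Nat.clog 2 (2 * n) ≤ Nat.clog 2 n + 1 := by
  rw [Nat.clog_le_iff_le_pow (by norm_num), pow_succ]
  have := Nat.le_pow_clog (b := 2) (by norm_num) n
  omega

theorem length_flatMap_evS (l : List Seg) : (l.flatMap evS).length = 2 * l.length := by
  induction l with
  | nil => rfl
  | cons x t ih =>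
    rw [List.flatMap_cons, List.length_append, ih, List.length_cons]
    simp only [evS, List.length_cons, List.length_nil]
    omega

theorem sum_evS (l : List Seg) : (l.map (fun x => 0 + (evS x).length + 1)).sum = 3 * l.length := by
  induction l with
  | nil => rfl
  | cons x t ih =>
    rw [List.map_cons, List.sum_cons, ih, List.length_cons]
    simp only [evS, List.length_cons, List.length_nil]
    omega

end OPCostAux

open OPCostAux

theorem rc_scan : RC (fun l : List Ev => scan l) (fun l => l.length) := by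
  unfold scan
  have h := RC.snd (RC.foldl (f := fun (_ : List Ev) s e => scanStep s e)
    (l := fun l : List Ev => l) (b := fun _ => ((none : Option Ev), ([] : List Seg)))
    (cf := fun _ => 0) RC.id (RC.pair RC.none RC.nil)
    (zscanStep (RC.fst (RC.snd RC.id)) (RC.snd (RC.snd RC.id))))
  refine h.of_le (fun l => ?_)
  have h1 := foldCost_le_const (fun s e => scanStep s e) (fun _ _ => 0) 0 l
    ((none : Option Ev), ([] : List Seg)) (fun _ _ _ => le_refl _)
  simpa using h1

theorem rc_evS : RC (fun s : Seg => evS s) (fun _ => 0) := zevS RC.id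

theorem rc_evLe : RC (fun p : Ev × Ev => evLe p.1 p.2) (fun _ => 0) :=
  zevLe (RC.fst RC.id) (RC.snd RC.id)

theorem rc_pre : RC (fun l : List Seg => scan (P7m.msort evLe (l.flatMap evS)))
    (fun l => l.length * Nat.clog 2 l.length + l.length) := by
  have h1 : RC (fun l : List Seg => l.flatMap evS) (fun l => 3 * l.length) := by
    have h := RC.flatMap (f := fun (_ : List Seg) (s : Seg) => evS s)
      (l := fun l : List Seg => l) (cf := fun _ => 0) RC.id
      (RC.comp0 (g := fun s : Seg => evS s) rc_evS (RC.snd RC.id))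
    refine h.of_le (fun l => ?_)
    have := sum_evS l
    simp only [zero_add] at this ⊢
    exact this.le
  have h2 := RC.msort (le := fun (_ : List Seg) a b => evLe a b)
    (cle := fun _ => 0) h1
    (RC.comp0 (g := fun p : Ev × Ev => evLe p.1 p.2) rc_evLe (RC.snd RC.id))
  have h3 := RC.comp rc_scan h2
  refine h3.mono 20 (fun l => ?_)
  have e1 := (P7m.msort_perm evLe (l.flatMap evS)).length_eq
  have e2 := length_flatMap_evS l
  have e3 := clog_two_mul l.length
  have e4 : 2 * l.length * Nat.clog 2 (2 * l.length) ≤ 2 * l.length * (Nat.clog 2 l.length + 1) :=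
    Nat.mul_le_mul_left _ e3
  have e5 : 2 * l.length * (Nat.clog 2 l.length + 1) =
      2 * (l.length * Nat.clog 2 l.length) + 2 * l.length := by ring
  show 3 * l.length + (0 + 1) * ((l.flatMap evS).length * Nat.clog 2 (l.flatMap evS).length +
      (l.flatMap evS).length) + (P7m.msort evLe (l.flatMap evS)).length ≤ _
  rw [e1, e2]
  omega

end SFA
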