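import Pool.Agent.Lib.SFA.ODefs
import Pool.Agent.Lib.SFA.Alg

/-!
# SFA.OPDefs: preprocessing of an arbitrary list of segments (package O, owner helper8)

Every segment is directed lexicographically; the line through it gets a key (three real numbers); each segment gives two events
(key, event point, right end): its left end with its right end, and its right end with itself.  The events are sorted by (key,
event point); one pass over the sorted list emits the piece between two consecutive different event points of the same line if a
segment which started before reaches farther than the first of them.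
-/

namespace SFA

open Classical

noncomputable section

/-- key of a line: `(0, slope, intercept)` or, for a vertical line, `(1, abscissa, 0)` -/
abbrev Key := ℝ × ℝ × ℝ

/-- event: key of the line, event point, right end -/
abbrev Ev := Key × ℂ × ℂ

/-- the segment directed lexicographically -/
def dirS (s : Seg) : Seg := if lexB s.1 s.2 then s else (s.2, s.1)

/-- the key of the line of a segment which is directed lexicographically -/
def keyS (s : Seg) : Key :=
  if s.1.re < s.2.re then
    (0, (s.2.im - s.1.im) / (s.2.re - s.1.re),
      s.1.im - (s.2.im - s.1.im) / (s.2.re - s.1.re) * s.1.re)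
  else (1, s.1.re, 0)

/-- the two events of a segment -/
def evS (s : Seg) : List Ev :=
  [(keyS (dirS s), (dirS s).1, (dirS s).2), (keyS (dirS s), (dirS s).2, (dirS s).2)]

/-- equality of keys -/
def keyEq (a b : Key) : Bool :=
  decide (a.1 = b.1) && (decide (a.2.1 = b.2.1) && decide (a.2.2 = b.2.2))

/-- lexicographic comparison, one level -/
def lexc (x y : ℝ) (r : Bool) : Bool := decide (x < y) || (decide (x = y) && r)

/-- comparison of events: lexicographic in the key and the event point -/
def evLe (a b : Ev) : Bool :=
  lexc a.1.1 b.1.1 (lexc a.1.2.1 b.1.2.1 (lexc a.1.2.2 b.1.2.2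
    (lexc a.2.1.re b.2.1.re (decide (a.2.1.im ≤ b.2.1.im)))))

/-- the lexicographically larger point -/
def lexMax (u v : ℂ) : ℂ := if lexB u v then v else u

/-- the event `b` after `a`: its third component becomes the farthest right end reached on the line -/
def evNext (a b : Ev) : Ev := (b.1, b.2.1, if keyEq a.1 b.1 then lexMax a.2.2 b.2.2 else b.2.2)

/-- is there a piece between `a` and `b`? -/
def emitB (a b : Ev) : Bool := keyEq a.1 b.1 && (!(ptEq a.2.1 b.2.1) && lexB a.2.1 a.2.2)

/-- one step of the pass: state = (last event, output) -/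
def scanStep (st : Option Ev × List Seg) (e : Ev) : Option Ev × List Seg :=
  st.1.elim (some e, st.2)
    (fun a => (some (evNext a e), if emitB a e then (a.2.1, e.2.1) :: st.2 else st.2))

/-- the pass over the sorted list of events -/
def scan (l : List Ev) : List Seg := (l.foldl scanStep (none, [])).2

/-- the pass over the sorted list of events, recursively (for the proofs) -/
def scanR : Ev → List Ev → List Seg
  | _, [] => []
  | a, b :: t =>
    if emitB a b then (a.2.1, b.2.1) :: scanR (evNext a b) t else scanR (evNext a b) t

/-- `z` lies on the line with key `k` -/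
def onL (k : Key) (z : ℂ) : Prop :=
  (k.1 = 0 ∧ z.im = k.2.1 * z.re + k.2.2) ∨ (k.1 = 1 ∧ k.2.2 = 0 ∧ z.re = k.2.1)

/-- `(p, q)` is a piece on the line with key `k` of the list of events `L` -/
structure Piece (L : List Ev) (k : Key) (p q : ℂ) : Prop where
  lt : lexlt p q
  hp : ∃ e ∈ L, e.1 = k ∧ e.2.1 = p
  hq : ∃ e ∈ L, e.1 = k ∧ e.2.1 = q
  free : ∀ e ∈ L, e.1 = k → ¬ (lexlt p e.2.1 ∧ lexlt e.2.1 q)
  cov : ∃ e ∈ L, e.1 = k ∧ ¬ lexlt p e.2.1 ∧ lexlt p e.2.2

/-- the endpoints of the segments of `S` on the line with key `k` -/
def EP (S : Finset Seg) (k : Key) : Set ℂ :=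
  {z | ∃ s ∈ S, keyS (dirS s) = k ∧ (z = s.1 ∨ z = s.2)}

/-- `(p, q)` is a piece of `S` on the line with key `k` -/
structure IsPiece (S : Finset Seg) (k : Key) (p q : ℂ) : Prop where
  lt : lexlt p q
  hp : p ∈ EP S k
  hq : q ∈ EP S k
  free : ∀ z ∈ EP S k, ¬ (lexlt p z ∧ lexlt z q)
  cov : ∃ s ∈ S, keyS (dirS s) = k ∧ ¬ lexlt p (dirS s).1 ∧ lexlt p (dirS s).2

end

end SFA
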