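import Pool.Agent.Lib.SFA.OPLine
import Pool.Agent.Lib.SFA.Basic

/-!
# SFA.OPGeo (package O, owner helper8): the pieces of a finite set of segments.

Throughout `hS : ∀ s ∈ S, s.1 ≠ s.2`.  Write k s for keyS (dirS s); d = dirS s is directed, d.1, d.2 are the two ends of s in
lexicographic order; carrier d = carrier s (`carrier_dirS`).  By `onL_key` all points of EP S k are on the line k.

`finite_EP`: EP S k is contained in the finite union over s in S of {s.1, s.2}.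

`piece_sub`: (p, q) a piece on k, s from `cov` (key k, not p < d.1, p < d.2).  Then d.2 in EP S k is not strictly between p and q,
so not d.2 < q (`free`).  Hence d.1 <= p < q <= d.2, all on the line k, and every z in [p, q] satisfies onL k z (`onL_seg`),
not z < p, not q < z (`lex_of_mem_seg`), so not z < d.1, not d.2 < z (`lex_of_not_of`, `lex_of_of_not`), hence z in [d.1, d.2]
by `mem_seg_of_lex`.

`piece_left` (z a point with d.1 <= z < d.2 in the order, d = dirS s, z on the line k, F = points of EP S k which are greater than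
z: finite and contains d.2; q = its minimum; G = points of EP S k which are not greater than z: finite and contains d.1; p = its
maximum.  Then (p, q) is a piece on k: lt: not z < p, z < q; free: a point e of EP with p < e < q is either > z (contradiction
with q minimal) or not > z (contradiction with p maximal); cov: s, as not p < d.1 (maximality, d.1 in G) and p < d.2 (not z < p
and z < d.2).  And not z < p, not q < z.)
`piece_right`: the same for a point with d.1 < z <= d.2: G = points of EP less than z (contains d.1), p = max; F = points of EP not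
less than z (contains d.2), q = min.  cov: s: not p < d.1, p < z and not d.2 < z give p < d.2.

`U_pieces`: z in U S: z in carrier s = [d.1, d.2], z on the line k s.  If z < d.2 use piece_left, otherwise z = d.2 > d.1 and use
piece_right; z in [p, q] by mem_seg_of_lex.  Conversely piece_sub.

`Vert_pieces`: endpoints of pieces are endpoints of S (EP).  An endpoint v of s is d.1 or d.2.  v = d.1: piece_left with z = d.1
gives a piece (p, q) with not d.1 < p and not p < d.1 [p is the maximum of G, d.1 in G; the statement of piece_left gives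
that for all e in EP S k, not z < e implies not p < e], so p = d.1.  Same on the right.  Common points of non parallel segments: v on s and
t with nonzero cross product: v lies on a piece (p, q) on the line k s and on a piece (p', q') on the line k t (as in U_pieces);
d.2 - d.1 = r (q - p), d'.2 - d'.1 = r' (q' - p') (`real_mul`) so cross (q-p) (q'-p') <> 0 (`cross_real_mul`).  Note dirS s may be
reversed: cross (s.2 - s.1) (t.2 - t.1) = +- cross of the directed ones; simplest: apply real_mul with a = p, b = q and the points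
s.1, s.2.  Conversely a common point of two non parallel pieces lies on the segments s, t from cov (piece_sub), and q - p =
r (s.2 - s.1) so cross (s.2-s.1) (t.2-t.1) <> 0.

`lp_pieces`: two different pieces (p, q) on k and (p', q') on k'.  If they share two different points z <> w, then k = k'
(`key_unique`).  By symmetry let z < w (lex_total).  Then not z < p, not q < w, not z < p', not q' < w, so p < q' and p' < q (from
p <= z < w <= q').  p' is not strictly between p and q, and p' < q, so not p < p'; in the same way not p' < p; so p = p'.  q is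
not strictly between p' = p and q' and p < q, so not q < q'; in the same way not q' < q; so q = q'.
-/

namespace SFA

namespace OPGeoAux

theorem lex_ne {u v : ℂ} (h : lexlt u v) : u ≠ v := by
  rintro rfl
  exact lex_irrefl _ h

theorem lex_asymm {u v : ℂ} (h : lexlt u v) : ¬ lexlt v u :=
  fun h' => lex_irrefl _ (lex_trans h h')

theorem mem1 {S : Finset Seg} {s : Seg} (hs : s ∈ S) : (dirS s).1 ∈ EP S (keyS (dirS s)) := by
  refine ⟨s, hs, rfl, ?_⟩
  rcases dirS_eq s with h | h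
  · rw [h]
    exact Or.inl rfl
  · rw [h]
    exact Or.inr rfl

theorem mem2 {S : Finset Seg} {s : Seg} (hs : s ∈ S) : (dirS s).2 ∈ EP S (keyS (dirS s)) := by
  refine ⟨s, hs, rfl, ?_⟩
  rcases dirS_eq s with h | h
  · rw [h]
    exact Or.inr rfl
  · rw [h]
    exact Or.inl rfl

theorem end_cases (s : Seg) {v : ℂ} (h : v = s.1 ∨ v = s.2) :
    v = (dirS s).1 ∨ v = (dirS s).2 := by
  rcases dirS_eq s with h' | h'
  · rw [h']
    exact h
  · rw [h']
    exact h.symm

end OPGeoAux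

open OPGeoAux

theorem finite_EP (S : Finset Seg) (k : Key) : (EP S k).Finite := by
  have h : (⋃ s ∈ S, ({s.1, s.2} : Set ℂ)).Finite :=
    S.finite_toSet.biUnion (fun s _ => Set.toFinite _)
  apply h.subset
  rintro z ⟨s, hs, _, hz⟩
  simp only [Set.mem_iUnion]
  exact ⟨s, hs, hz⟩

theorem onL_EP {S : Finset Seg} (hS : ∀ s ∈ S, s.1 ≠ s.2) {k : Key} {z : ℂ} (hz : z ∈ EP S k) :
    onL k z := by
  obtain ⟨s, hs, rfl, hz⟩ := hz
  have h := onL_key (hS s hs)
  rcases hz with rfl | rfl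
  · exact h.1
  · exact h.2

theorem piece_sub {S : Finset Seg} (hS : ∀ s ∈ S, s.1 ≠ s.2) {k : Key} {p q : ℂ}
    (h : IsPiece S k p q) :
    ∃ s ∈ S, keyS (dirS s) = k ∧ segment ℝ p q ⊆ carrier s := by
  obtain ⟨s, hs, rfl, h1, h2⟩ := h.cov
  refine ⟨s, hs, rfl, fun z hz => ?_⟩
  have h3 : ¬ lexlt (dirS s).2 q := fun h' => h.free _ (mem2 hs) ⟨h2, h'⟩
  obtain ⟨h4, h5⟩ := lex_of_mem_seg h.lt hz
  rw [← carrier_dirS]
  apply mem_seg_of_lex (onL_EP hS (mem1 hs)) (onL_EP hS (mem2 hs))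
    (onL_seg (onL_EP hS h.hp) (onL_EP hS h.hq) hz)
  · intro h'
    exact h4 (lex_of_of_not h' h1)
  · intro h'
    exact h3 (lex_of_of_not h' h5)

theorem piece_left {S : Finset Seg} (hS : ∀ s ∈ S, s.1 ≠ s.2) {s : Seg} (hs : s ∈ S) {z : ℂ}
    (h1 : ¬ lexlt z (dirS s).1) (h2 : lexlt z (dirS s).2) :
    ∃ p q : ℂ, IsPiece S (keyS (dirS s)) p q ∧ ¬ lexlt z p ∧ lexlt z q ∧
      ∀ e ∈ EP S (keyS (dirS s)), ¬ lexlt z e → ¬ lexlt p e := by
  obtain ⟨q, hq, hq'⟩ := exists_lex_min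
    (F := {e | e ∈ EP S (keyS (dirS s)) ∧ lexlt z e})
    ((finite_EP S _).subset (fun e he => he.1)) ⟨_, mem2 hs, h2⟩
  obtain ⟨p, hp, hp'⟩ := exists_lex_max
    (F := {e | e ∈ EP S (keyS (dirS s)) ∧ ¬ lexlt z e})
    ((finite_EP S _).subset (fun e he => he.1)) ⟨_, mem1 hs, h1⟩
  refine ⟨p, q, ⟨lex_of_not_of hp.2 hq.2, hp.1, hq.1, ?_, ?_⟩, hp.2, hq.2,
    fun e he he' => hp' e ⟨he, he'⟩⟩
  · rintro e he ⟨h3, h4⟩
    by_cases h5 : lexlt z e
    · exact hq' e ⟨he, h5⟩ h4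
    · exact hp' e ⟨he, h5⟩ h3
  · exact ⟨s, hs, rfl, hp' _ ⟨mem1 hs, h1⟩, lex_of_not_of hp.2 h2⟩

theorem piece_right {S : Finset Seg} (hS : ∀ s ∈ S, s.1 ≠ s.2) {s : Seg} (hs : s ∈ S) {z : ℂ}
    (h1 : lexlt (dirS s).1 z) (h2 : ¬ lexlt (dirS s).2 z) :
    ∃ p q : ℂ, IsPiece S (keyS (dirS s)) p q ∧ lexlt p z ∧ ¬ lexlt q z ∧
      ∀ e ∈ EP S (keyS (dirS s)), ¬ lexlt e z → ¬ lexlt e q := by
  obtain ⟨q, hq, hq'⟩ := exists_lex_min
    (F := {e | e ∈ EP S (keyS (dirS s)) ∧ ¬ lexlt e z})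
    ((finite_EP S _).subset (fun e he => he.1)) ⟨_, mem2 hs, h2⟩
  obtain ⟨p, hp, hp'⟩ := exists_lex_max
    (F := {e | e ∈ EP S (keyS (dirS s)) ∧ lexlt e z})
    ((finite_EP S _).subset (fun e he => he.1)) ⟨_, mem1 hs, h1⟩
  refine ⟨p, q, ⟨lex_of_of_not hp.2 hq.2, hp.1, hq.1, ?_, ?_⟩, hp.2, hq.2,
    fun e he he' => hq' e ⟨he, he'⟩⟩
  · rintro e he ⟨h3, h4⟩
    by_cases h5 : lexlt e z
    · exact hp' e ⟨he, h5⟩ h3
    · exact hq' e ⟨he, h5⟩ h4
  · exact ⟨s, hs, rfl, hp' _ ⟨mem1 hs, h1⟩, lex_of_of_not hp.2 h2⟩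

/-- every point of a segment lies on a piece of the same line -/
theorem exists_piece {S : Finset Seg} (hS : ∀ s ∈ S, s.1 ≠ s.2) {s : Seg} (hs : s ∈ S) {z : ℂ}
    (hz : z ∈ carrier s) :
    ∃ p q : ℂ, IsPiece S (keyS (dirS s)) p q ∧ z ∈ segment ℝ p q := by
  have hd := dirS_lt (hS s hs)
  rw [← carrier_dirS] at hz
  have hz' : z ∈ segment ℝ (dirS s).1 (dirS s).2 := hz
  obtain ⟨h1, h2⟩ := lex_of_mem_seg hd hz'
  have hzL : onL (keyS (dirS s)) z :=
    onL_seg (onL_EP hS (mem1 hs)) (onL_EP hS (mem2 hs)) hz'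
  by_cases h3 : lexlt z (dirS s).2
  · obtain ⟨p, q, hpq, h4, h5, _⟩ := piece_left hS hs h1 h3
    exact ⟨p, q, hpq, mem_seg_of_lex (onL_EP hS hpq.hp) (onL_EP hS hpq.hq) hzL h4 (lex_asymm h5)⟩
  · have h4 : z = (dirS s).2 := lex_antisymm h3 h2
    obtain ⟨p, q, hpq, h5, h6, _⟩ := piece_right hS hs (z := z) (by rw [h4]; exact hd) h2
    exact ⟨p, q, hpq, mem_seg_of_lex (onL_EP hS hpq.hp) (onL_EP hS hpq.hq) hzL (lex_asymm h5) h6⟩

theorem U_pieces {S T : Finset Seg} (hS : ∀ s ∈ S, s.1 ≠ s.2)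
    (hT : ∀ p q, (p, q) ∈ T ↔ ∃ k, IsPiece S k p q) : U T = U S := by
  ext z
  rw [mem_U, mem_U]
  constructor
  · rintro ⟨⟨p, q⟩, hpq, hz⟩
    obtain ⟨k, hk⟩ := (hT p q).1 hpq
    obtain ⟨s, hs, _, hsub⟩ := piece_sub hS hk
    exact ⟨s, hs, hsub hz⟩
  · rintro ⟨s, hs, hz⟩
    obtain ⟨p, q, hpq, hz'⟩ := exists_piece hS hs hz
    exact ⟨(p, q), (hT p q).2 ⟨_, hpq⟩, hz'⟩

theorem Vert_pieces {S T : Finset Seg} (hS : ∀ s ∈ S, s.1 ≠ s.2)
    (hT : ∀ p q, (p, q) ∈ T ↔ ∃ k, IsPiece S k p q) : Vert T = Vert S := by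
  ext v
  constructor
  · rintro (⟨⟨p, q⟩, hpq, hv⟩ | ⟨⟨p, q⟩, hpq, ⟨p', q'⟩, hpq', hc, hv, hv'⟩)
    · obtain ⟨k, hk⟩ := (hT p q).1 hpq
      left
      rcases hv with rfl | rfl
      · obtain ⟨s, hs, _, h⟩ := hk.hp
        exact ⟨s, hs, h⟩
      · obtain ⟨s, hs, _, h⟩ := hk.hq
        exact ⟨s, hs, h⟩
    · obtain ⟨k, hk⟩ := (hT p q).1 hpq
      obtain ⟨k', hk'⟩ := (hT p' q').1 hpq'
      obtain ⟨s, hs, rfl, hsub⟩ := piece_sub hS hk
      obtain ⟨t, ht, rfl, hsub'⟩ := piece_sub hS hk'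
      right
      refine ⟨s, hs, t, ht, ?_, hsub hv, hsub' hv'⟩
      have hs1 := onL_key (hS s hs)
      have ht1 := onL_key (hS t ht)
      obtain ⟨r, hr⟩ := real_mul (hS s hs) hs1.1 hs1.2 (onL_EP hS hk.hp) (onL_EP hS hk.hq)
      obtain ⟨r', hr'⟩ := real_mul (hS t ht) ht1.1 ht1.2 (onL_EP hS hk'.hp) (onL_EP hS hk'.hq)
      intro h0
      apply hc
      show cross (q - p) (q' - p') = 0
      rw [hr, hr', cross_real_mul, h0, mul_zero]
  · rintro (⟨s, hs, hv⟩ | ⟨s, hs, t, ht, hc, hv, hv'⟩)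
    · left
      have hd := dirS_lt (hS s hs)
      rcases end_cases s hv with h | h
      · obtain ⟨p, q, hpq, h4, _, h6⟩ := piece_left hS hs (lex_irrefl _) hd
        refine ⟨(p, q), (hT p q).2 ⟨_, hpq⟩, Or.inl ?_⟩
        rw [h]
        exact lex_antisymm h4 (h6 _ (mem1 hs) (lex_irrefl _))
      · obtain ⟨p, q, hpq, _, h5, h6⟩ := piece_right hS hs hd (lex_irrefl _)
        refine ⟨(p, q), (hT p q).2 ⟨_, hpq⟩, Or.inr ?_⟩
        rw [h]
        exact lex_antisymm (h6 _ (mem2 hs) (lex_irrefl _)) h5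
    · right
      obtain ⟨p, q, hpq, hz⟩ := exists_piece hS hs hv
      obtain ⟨p', q', hpq', hz'⟩ := exists_piece hS ht hv'
      refine ⟨(p, q), (hT p q).2 ⟨_, hpq⟩, (p', q'), (hT p' q').2 ⟨_, hpq'⟩, ?_, hz, hz'⟩
      have hs1 := onL_key (hS s hs)
      have ht1 := onL_key (hS t ht)
      obtain ⟨r, hr⟩ := real_mul (lex_ne hpq.lt) (onL_EP hS hpq.hp) (onL_EP hS hpq.hq) hs1.1 hs1.2
      obtain ⟨r', hr'⟩ := real_mul (lex_ne hpq'.lt) (onL_EP hS hpq'.hp) (onL_EP hS hpq'.hq)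
        ht1.1 ht1.2
      intro h0
      apply hc
      have h0' : cross (q - p) (q' - p') = 0 := h0
      rw [hr, hr', cross_real_mul, h0', mul_zero]

namespace OPGeoAux

theorem lp {S : Finset Seg} (hS : ∀ s ∈ S, s.1 ≠ s.2) {k k' : Key} {p q p' q' z w : ℂ}
    (h : IsPiece S k p q) (h' : IsPiece S k' p' q') (hz : z ∈ segment ℝ p q)
    (hz' : z ∈ segment ℝ p' q') (hw : w ∈ segment ℝ p q) (hw' : w ∈ segment ℝ p' q')
    (hzw : lexlt z w) : (p, q) = (p', q') := by
  have hkz := onL_seg (onL_EP hS h.hp) (onL_EP hS h.hq) hz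
  have hkw := onL_seg (onL_EP hS h.hp) (onL_EP hS h.hq) hw
  have hkz' := onL_seg (onL_EP hS h'.hp) (onL_EP hS h'.hq) hz'
  have hkw' := onL_seg (onL_EP hS h'.hp) (onL_EP hS h'.hq) hw'
  have hk : k = k' := key_unique (lex_ne hzw) hkz hkw hkz' hkw'
  subst hk
  obtain ⟨a1, _⟩ := lex_of_mem_seg h.lt hz
  obtain ⟨_, b1⟩ := lex_of_mem_seg h.lt hw
  obtain ⟨a2, _⟩ := lex_of_mem_seg h'.lt hz'
  obtain ⟨_, b2⟩ := lex_of_mem_seg h'.lt hw'
  -- p ≤ z < w ≤ q' and p' ≤ z < w ≤ q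
  have c1 : lexlt p q' := lex_of_of_not (lex_of_not_of a1 hzw) b2
  have c2 : lexlt p' q := lex_of_of_not (lex_of_not_of a2 hzw) b1
  have d1 : ¬ lexlt p p' := fun e => h.free _ h'.hp ⟨e, c2⟩
  have d2 : ¬ lexlt p' p := fun e => h'.free _ h.hp ⟨e, c1⟩
  have e1 : p = p' := lex_antisymm d1 d2
  subst e1
  have d3 : ¬ lexlt q q' := fun e => h'.free _ h.hq ⟨h.lt, e⟩
  have d4 : ¬ lexlt q' q := fun e => h.free _ h'.hq ⟨h'.lt, e⟩
  rw [lex_antisymm d3 d4]

end OPGeoAux

theorem lp_pieces {S : Finset Seg} (hS : ∀ s ∈ S, s.1 ≠ s.2) {k k' : Key} {p q p' q' : ℂ}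
    (h : IsPiece S k p q) (h' : IsPiece S k' p' q') (hne : (p, q) ≠ (p', q')) :
    (segment ℝ p q ∩ segment ℝ p' q').Subsingleton := by
  rintro z ⟨hz, hz'⟩ w ⟨hw, hw'⟩
  rcases lex_total z w with h1 | h1 | h1
  · exact absurd (OPGeoAux.lp hS h h' hz hz' hw hw' h1) hne
  · exact h1
  · exact absurd (OPGeoAux.lp hS h h' hw hw' hz hz' h1) hne

end SFA
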