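import Pool.Agent.Lib.SFA.OPDefs
import Pool.Agent.Lib.SFA.TestB

/-!
# SFA.OPLine (package O, owner helper8): lexicographic order, keys and lines.

All proofs are elementary algebra.  Notation: lexlt is the strict lexicographic order of points (re, then im).

`exists_lex_min`, `exists_lex_max`: the map z |-> toLex (z.re, z.im) into the linear order `ℝ ×ₗ ℝ` is injective and
lexlt u v iff toLex (u.re, u.im) < toLex (v.re, v.im) (`Prod.Lex.toLex_lt_toLex`); a finite nonempty set has a minimal image
(`Set.exists_min_image F (fun z => toLex (z.re, z.im)) hF hne`).  `lex_trans`, `lex_total`, `lex_irrefl`: cases and linarith.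

`onL_key`: dirS s is directed (lexlt (dirS s).1 (dirS s).2 as s.1 <> s.2); if its first real part is smaller, the key is
(0, m, c) with m = dy/dx, c = y1 - m x1, and both ends satisfy y = m x + c (field_simp); otherwise both real parts agree (lexlt)
and the key is (1, x, 0).

`key_unique`: k and k' are both of the form (0, m, c) or (1, a, 0).  Two different points z, w on the line k: if k.1 = 0 then
z.re <> w.re (else z = w) and m = (w.im - z.im)/(w.re - z.re), c = z.im - m z.re; if k.1 = 1 then z.re = w.re = k.2.1.  So the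
first components agree and then the rest (from m (w.re - z.re) = m' (w.re - z.re)).

`mem_seg_of_lex`: p = q: then z = p.  If k.1 = 0: p.re <= z.re <= q.re (from the two negated lexlt: not lexlt z p gives
p.re <= z.re), p.re < q.re, t = (z.re - p.re)/(q.re - p.re), z = (1-t) p + t q.  (If p.re = q.re then p = q by onL.)  If k.1 = 1:
all real parts agree, p.im <= z.im <= q.im, t = (z.im - p.im)/(q.im - p.im) if p.im < q.im, else z = p.
The hypothesis hpq (not lexlt q p) follows from the other two; it is not needed.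

`lex_of_mem_seg`: z = (1-t) p + t q with 0 <= t <= 1 and lexlt p q: z.re = p.re + t (q.re - p.re) etc.

`real_mul`: if k.1 = 0 then b - a = (b.re - a.re)(1 + m i) with b.re <> a.re, q - p = (q.re - p.re)(1 + m i):
r = (q.re - p.re)/(b.re - a.re).  If k.1 = 1 both are purely imaginary: r = (q.im - p.im)/(b.im - a.im).
-/

namespace SFA

theorem lex_irrefl (u : ℂ) : ¬ lexlt u u := by
  rintro (h | ⟨_, h⟩)
  · exact lt_irrefl _ h
  · exact lt_irrefl _ h

theorem lex_trans {u v w : ℂ} (h : lexlt u v) (h' : lexlt v w) : lexlt u w := by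
  rcases h with h | ⟨h1, h2⟩ <;> rcases h' with h' | ⟨h1', h2'⟩
  · exact Or.inl (h.trans h')
  · exact Or.inl (h1' ▸ h)
  · exact Or.inl (h1 ▸ h')
  · exact Or.inr ⟨h1.trans h1', h2.trans h2'⟩

theorem lex_total (u v : ℂ) : lexlt u v ∨ u = v ∨ lexlt v u := by
  rcases lt_trichotomy u.re v.re with h | h | h
  · exact Or.inl (Or.inl h)
  · rcases lt_trichotomy u.im v.im with h' | h' | h'
    · exact Or.inl (Or.inr ⟨h, h'⟩)
    · exact Or.inr (Or.inl (Complex.ext h h'))
    · exact Or.inr (Or.inr (Or.inr ⟨h.symm, h'⟩))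
  · exact Or.inr (Or.inr (Or.inl h))

/-- not `v < u` and `v < w` give `u < w` -/
theorem lex_of_not_of {u v w : ℂ} (h : ¬ lexlt v u) (h' : lexlt v w) : lexlt u w := by
  rcases lex_total u v with h1 | h1 | h1
  · exact lex_trans h1 h'
  · rw [h1]; exact h'
  · exact (h h1).elim

/-- `u < v` and not `w < v` give `u < w` -/
theorem lex_of_of_not {u v w : ℂ} (h : lexlt u v) (h' : ¬ lexlt w v) : lexlt u w := by
  rcases lex_total v w with h1 | h1 | h1
  · exact lex_trans h h1
  · rw [← h1]; exact h
  · exact (h' h1).elim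

theorem lex_antisymm {u v : ℂ} (h : ¬ lexlt u v) (h' : ¬ lexlt v u) : u = v := by
  rcases lex_total u v with h1 | h1 | h1
  · exact (h h1).elim
  · exact h1
  · exact (h' h1).elim

theorem exists_lex_min {F : Set ℂ} (hF : F.Finite) (hne : F.Nonempty) :
    ∃ m ∈ F, ∀ z ∈ F, ¬ lexlt z m := by
  obtain ⟨m, hm, hmin⟩ := Set.exists_min_image F (fun z : ℂ => toLex (z.re, z.im)) hF hne
  refine ⟨m, hm, fun z hz hlt => ?_⟩
  have h1 := hmin z hz
  have h2 : toLex (z.re, z.im) < toLex (m.re, m.im) := Prod.Lex.toLex_lt_toLex.2 hlt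
  exact absurd h2 (not_lt.2 h1)

theorem exists_lex_max {F : Set ℂ} (hF : F.Finite) (hne : F.Nonempty) :
    ∃ m ∈ F, ∀ z ∈ F, ¬ lexlt m z := by
  obtain ⟨m, hm, hmax⟩ := Set.exists_max_image F (fun z : ℂ => toLex (z.re, z.im)) hF hne
  refine ⟨m, hm, fun z hz hlt => ?_⟩
  have h1 := hmax z hz
  have h2 : toLex (m.re, m.im) < toLex (z.re, z.im) := Prod.Lex.toLex_lt_toLex.2 hlt
  exact absurd h2 (not_lt.2 h1)

theorem dirS_eq (s : Seg) : dirS s = s ∨ dirS s = (s.2, s.1) := by
  unfold dirS
  split_ifs
  · exact Or.inl rfl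
  · exact Or.inr rfl

theorem dirS_lt {s : Seg} (h : s.1 ≠ s.2) : lexlt (dirS s).1 (dirS s).2 := by
  unfold dirS
  split_ifs with h1
  · exact (lexB_iff _ _).1 h1
  · rcases lex_total s.1 s.2 with h2 | h2 | h2
    · exact (h1 ((lexB_iff _ _).2 h2)).elim
    · exact (h h2).elim
    · exact h2

theorem carrier_dirS (s : Seg) : carrier (dirS s) = carrier s := by
  rcases dirS_eq s with h | h
  · rw [h]
  · rw [h]
    unfold carrier
    exact segment_symm ℝ _ _

theorem onL_key {s : Seg} (h : s.1 ≠ s.2) :
    onL (keyS (dirS s)) s.1 ∧ onL (keyS (dirS s)) s.2 := by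
  have key : ∀ d : Seg, lexlt d.1 d.2 → onL (keyS d) d.1 ∧ onL (keyS d) d.2 := by
    intro d hd
    unfold keyS
    split_ifs with h1
    · have h2 : d.2.re - d.1.re ≠ 0 := by linarith
      refine ⟨Or.inl ⟨rfl, by ring⟩, Or.inl ⟨rfl, ?_⟩⟩
      have h3 : (d.2.im - d.1.im) / (d.2.re - d.1.re) * (d.2.re - d.1.re) = d.2.im - d.1.im :=
        div_mul_cancel₀ _ h2
      change d.2.im = (d.2.im - d.1.im) / (d.2.re - d.1.re) * d.2.re +
        (d.1.im - (d.2.im - d.1.im) / (d.2.re - d.1.re) * d.1.re)
      linarith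
    · refine ⟨Or.inr ⟨rfl, rfl, rfl⟩, Or.inr ⟨rfl, rfl, ?_⟩⟩
      rcases hd with h2 | ⟨h2, _⟩
      · exact (h1 h2).elim
      · exact h2.symm
  have h1 := key (dirS s) (dirS_lt h)
  rcases dirS_eq s with h2 | h2
  · rw [h2] at h1 ⊢; exact h1
  · rw [h2] at h1 ⊢; exact ⟨h1.2, h1.1⟩

theorem key_unique {k k' : Key} {z w : ℂ} (hzw : z ≠ w) (h1 : onL k z) (h2 : onL k w)
    (h3 : onL k' z) (h4 : onL k' w) : k = k' := by
  rcases h1 with ⟨a1, a2⟩ | ⟨a1, a2, a3⟩
  · rcases h2 with ⟨_, b2⟩ | ⟨b1, _, _⟩
    · have hne : z.re - w.re ≠ 0 := by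
        intro h0
        have h0' : z.re = w.re := by linarith
        exact hzw (Complex.ext h0' (by rw [a2, b2, h0']))
      rcases h3 with ⟨c1, c2⟩ | ⟨c1, c2, c3⟩
      · rcases h4 with ⟨_, d2⟩ | ⟨d1, _, _⟩
        · have e1 : k.2.1 = k'.2.1 := by
            have : k.2.1 * (z.re - w.re) = k'.2.1 * (z.re - w.re) := by linarith
            exact mul_right_cancel₀ hne this
          have e2 : k.2.2 = k'.2.2 := by
            rw [e1] at a2; linarith
          exact Prod.ext (a1.trans c1.symm) (Prod.ext e1 e2)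
        · rw [c1] at d1; norm_num at d1
      · rcases h4 with ⟨d1, _⟩ | ⟨_, _, d3⟩
        · rw [c1] at d1; norm_num at d1
        · exact (hne (by rw [c3, d3]; ring)).elim
    · rw [a1] at b1; norm_num at b1
  · rcases h2 with ⟨b1, _⟩ | ⟨_, _, b3⟩
    · rw [a1] at b1; norm_num at b1
    · rcases h3 with ⟨c1, c2⟩ | ⟨c1, c2, c3⟩
      · rcases h4 with ⟨_, d2⟩ | ⟨d1, _, _⟩
        · exact (hzw (Complex.ext (a3.trans b3.symm) (by rw [c2, d2, a3, b3]))).elim
        · rw [c1] at d1; norm_num at d1
      · exact Prod.ext (a1.trans c1.symm) (Prod.ext (a3.symm.trans c3) (a2.trans c2.symm))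

theorem onL_seg {k : Key} {p q z : ℂ} (hp : onL k p) (hq : onL k q) (hz : z ∈ segment ℝ p q) :
    onL k z := by
  obtain ⟨a, b, _, _, hab, rfl⟩ := hz
  have hb : b = 1 - a := by linarith
  subst hb
  have e1 : (a • p + (1 - a) • q).re = a * p.re + (1 - a) * q.re := by simp
  have e2 : (a • p + (1 - a) • q).im = a * p.im + (1 - a) * q.im := by simp
  rcases hp with ⟨p1, p2⟩ | ⟨p1, p2, p3⟩
  · rcases hq with ⟨_, q2⟩ | ⟨q1, _, _⟩
    · refine Or.inl ⟨p1, ?_⟩
      rw [e1, e2, p2, q2]; ring
    · rw [p1] at q1; norm_num at q1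
  · rcases hq with ⟨q1, _⟩ | ⟨_, _, q3⟩
    · rw [p1] at q1; norm_num at q1
    · refine Or.inr ⟨p1, p2, ?_⟩
      rw [e1, p3, q3]; ring

theorem mem_seg_of_lex {k : Key} {p q z : ℂ} (hp : onL k p) (hq : onL k q) (hz : onL k z)
    (h1 : ¬ lexlt z p) (h2 : ¬ lexlt q z) : z ∈ segment ℝ p q := by
  have z1 : p.re ≤ z.re := by
    by_contra hc
    exact h1 (Or.inl (not_le.1 hc))
  have z2 : z.re = p.re → p.im ≤ z.im := by
    intro he
    by_contra hc
    exact h1 (Or.inr ⟨he, not_le.1 hc⟩)
  have z3 : z.re ≤ q.re := by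
    by_contra hc
    exact h2 (Or.inl (not_le.1 hc))
  have z4 : q.re = z.re → z.im ≤ q.im := by
    intro he
    by_contra hc
    exact h2 (Or.inr ⟨he, not_le.1 hc⟩)
  rcases hp with ⟨p1, p2⟩ | ⟨p1, p2, p3⟩
  · rcases hq with ⟨_, q2⟩ | ⟨q1, _, _⟩
    · rcases hz with ⟨_, w2⟩ | ⟨w1, _, _⟩
      · rcases eq_or_lt_of_le (z1.trans z3) with h3 | h3
        · have h4 : z.re = p.re := by linarith
          have h5 : z = p := Complex.ext h4 (by rw [w2, p2, h4])
          rw [h5]; exact left_mem_segment ℝ _ _
        · have h4 : (0 : ℝ) < q.re - p.re := by linarith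
          have h5 : (z.re - p.re) / (q.re - p.re) * (q.re - p.re) = z.re - p.re :=
            div_mul_cancel₀ _ h4.ne'
          refine ⟨1 - (z.re - p.re) / (q.re - p.re), (z.re - p.re) / (q.re - p.re), ?_,
            div_nonneg (by linarith) h4.le, by ring, ?_⟩
          · have : (z.re - p.re) / (q.re - p.re) ≤ 1 := by rw [div_le_one h4]; linarith
            linarith
          · generalize (z.re - p.re) / (q.re - p.re) = t at h5
            apply Complex.ext
            · simp only [Complex.add_re, Complex.real_smul, Complex.mul_re, Complex.ofReal_re,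
                Complex.ofReal_im, zero_mul, sub_zero]
              linarith
            · simp only [Complex.add_im, Complex.real_smul, Complex.mul_im, Complex.ofReal_re,
                Complex.ofReal_im, zero_mul, add_zero]
              rw [p2, q2, w2]
              have h6 : k.2.1 * (t * (q.re - p.re)) = k.2.1 * (z.re - p.re) := by rw [h5]
              linarith
      · rw [p1] at w1; norm_num at w1
    · rw [p1] at q1; norm_num at q1
  · rcases hq with ⟨q1, _⟩ | ⟨_, _, q3⟩
    · rw [p1] at q1; norm_num at q1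
    · rcases hz with ⟨w1, _⟩ | ⟨_, _, w3⟩
      · rw [p1] at w1; norm_num at w1
      · have z5 := z2 (by rw [w3, p3])
        have z6 := z4 (by rw [w3, q3])
        rcases eq_or_lt_of_le (z5.trans z6) with h3 | h3
        · have h5 : z = p := Complex.ext (by rw [w3, p3]) (by linarith)
          rw [h5]; exact left_mem_segment ℝ _ _
        · have h4 : (0 : ℝ) < q.im - p.im := by linarith
          have h5 : (z.im - p.im) / (q.im - p.im) * (q.im - p.im) = z.im - p.im :=
            div_mul_cancel₀ _ h4.ne'
          refine ⟨1 - (z.im - p.im) / (q.im - p.im), (z.im - p.im) / (q.im - p.im), ?_,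
            div_nonneg (by linarith) h4.le, by ring, ?_⟩
          · have : (z.im - p.im) / (q.im - p.im) ≤ 1 := by rw [div_le_one h4]; linarith
            linarith
          · generalize (z.im - p.im) / (q.im - p.im) = t at h5
            apply Complex.ext
            · simp only [Complex.add_re, Complex.real_smul, Complex.mul_re, Complex.ofReal_re,
                Complex.ofReal_im, zero_mul, sub_zero]
              rw [p3, q3, w3]; ring
            · simp only [Complex.add_im, Complex.real_smul, Complex.mul_im, Complex.ofReal_re,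
                Complex.ofReal_im, zero_mul, add_zero]
              linarith

theorem lex_of_mem_seg {p q z : ℂ} (hpq : lexlt p q) (hz : z ∈ segment ℝ p q) :
    ¬ lexlt z p ∧ ¬ lexlt q z := by
  obtain ⟨a, b, ha, hb, hab, rfl⟩ := hz
  have e1 : (a • p + b • q).re = a * p.re + b * q.re := by simp
  have e2 : (a • p + b • q).im = a * p.im + b * q.im := by simp
  have hle : p.re ≤ q.re := by
    rcases hpq with h | ⟨h, _⟩
    · exact h.le
    · exact h.le
  constructor
  · rintro (h | ⟨h, h'⟩)
    · rw [e1] at h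
      have ha' : a = 1 - b := by linarith
      subst ha'
      nlinarith [mul_nonneg hb (sub_nonneg.2 hle)]
    · rw [e1] at h
      rw [e2] at h'
      have ha' : a = 1 - b := by linarith
      subst ha'
      have h3 : b * (q.re - p.re) = 0 := by linarith
      rcases mul_eq_zero.1 h3 with h4 | h4
      · rw [h4] at h'; linarith
      · rcases hpq with h5 | ⟨_, h5⟩
        · linarith
        · nlinarith [mul_nonneg hb (sub_nonneg.2 h5.le)]
  · rintro (h | ⟨h, h'⟩)
    · rw [e1] at h
      have hb' : b = 1 - a := by linarith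
      subst hb'
      nlinarith [mul_nonneg ha (sub_nonneg.2 hle)]
    · rw [e1] at h
      rw [e2] at h'
      have hb' : b = 1 - a := by linarith
      subst hb'
      have h3 : a * (q.re - p.re) = 0 := by linarith
      rcases mul_eq_zero.1 h3 with h4 | h4
      · rw [h4] at h'; linarith
      · rcases hpq with h5 | ⟨_, h5⟩
        · linarith
        · nlinarith [mul_nonneg ha (sub_nonneg.2 h5.le)]

theorem real_mul {k : Key} {a b p q : ℂ} (hab : a ≠ b) (ha : onL k a) (hb : onL k b)
    (hp : onL k p) (hq : onL k q) : ∃ r : ℝ, q - p = (r : ℂ) * (b - a) := by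
  rcases ha with ⟨a1, a2⟩ | ⟨a1, a2, a3⟩
  · rcases hb with ⟨_, b2⟩ | ⟨b1, _, _⟩
    · rcases hp with ⟨_, p2⟩ | ⟨p1, _, _⟩
      · rcases hq with ⟨_, q2⟩ | ⟨q1, _, _⟩
        · have hne : b.re - a.re ≠ 0 := by
            intro h0
            have h0' : a.re = b.re := by linarith
            exact hab (Complex.ext h0' (by rw [a2, b2, h0']))
          have h5 : (q.re - p.re) / (b.re - a.re) * (b.re - a.re) = q.re - p.re :=
            div_mul_cancel₀ _ hne
          refine ⟨(q.re - p.re) / (b.re - a.re), ?_⟩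
          generalize (q.re - p.re) / (b.re - a.re) = t at h5
          apply Complex.ext
          · simp only [Complex.sub_re, Complex.mul_re, Complex.ofReal_re, Complex.ofReal_im,
              zero_mul, sub_zero]
            linarith
          · simp only [Complex.sub_im, Complex.mul_im, Complex.ofReal_re, Complex.ofReal_im,
              zero_mul, add_zero]
            rw [a2, b2, p2, q2]
            have h6 : k.2.1 * (t * (b.re - a.re)) = k.2.1 * (q.re - p.re) := by rw [h5]
            linarith
        · rw [a1] at q1; norm_num at q1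
      · rw [a1] at p1; norm_num at p1
    · rw [a1] at b1; norm_num at b1
  · rcases hb with ⟨b1, _⟩ | ⟨_, _, b3⟩
    · rw [a1] at b1; norm_num at b1
    · rcases hp with ⟨p1, _⟩ | ⟨_, _, p3⟩
      · rw [a1] at p1; norm_num at p1
      · rcases hq with ⟨q1, _⟩ | ⟨_, _, q3⟩
        · rw [a1] at q1; norm_num at q1
        · have hne : b.im - a.im ≠ 0 := by
            intro h0
            exact hab (Complex.ext (by rw [a3, b3]) (by linarith))
          have h5 : (q.im - p.im) / (b.im - a.im) * (b.im - a.im) = q.im - p.im :=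
            div_mul_cancel₀ _ hne
          refine ⟨(q.im - p.im) / (b.im - a.im), ?_⟩
          generalize (q.im - p.im) / (b.im - a.im) = t at h5
          apply Complex.ext
          · simp only [Complex.sub_re, Complex.mul_re, Complex.ofReal_re, Complex.ofReal_im,
              zero_mul, sub_zero]
            rw [a3, b3, p3, q3]; ring
          · simp only [Complex.sub_im, Complex.mul_im, Complex.ofReal_re, Complex.ofReal_im,
              zero_mul, add_zero]
            linarith

/-- the cross product vanishes for the directions of two segments of the same line -/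
theorem cross_zero_of_key {k : Key} {a b p q : ℂ} (ha : onL k a) (hb : onL k b)
    (hp : onL k p) (hq : onL k q) : cross (b - a) (q - p) = 0 := by
  unfold cross
  simp only [Complex.sub_re, Complex.sub_im]
  rcases ha with ⟨a1, a2⟩ | ⟨a1, a2, a3⟩
  · rcases hb with ⟨_, b2⟩ | ⟨b1, _, _⟩
    · rcases hp with ⟨_, p2⟩ | ⟨p1, _, _⟩
      · rcases hq with ⟨_, q2⟩ | ⟨q1, _, _⟩
        · rw [a2, b2, p2, q2]; ring
        · rw [a1] at q1; norm_num at q1
      · rw [a1] at p1; norm_num at p1
    · rw [a1] at b1; norm_num at b1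
  · rcases hb with ⟨b1, _⟩ | ⟨_, _, b3⟩
    · rw [a1] at b1; norm_num at b1
    · rcases hp with ⟨p1, _⟩ | ⟨_, _, p3⟩
      · rw [a1] at p1; norm_num at p1
      · rcases hq with ⟨q1, _⟩ | ⟨_, _, q3⟩
        · rw [a1] at q1; norm_num at q1
        · rw [a3, b3, p3, q3]; ring

theorem cross_real_mul (r r' : ℝ) (u v : ℂ) :
    cross ((r : ℂ) * u) ((r' : ℂ) * v) = r * r' * cross u v := by
  unfold cross
  simp only [Complex.mul_re, Complex.mul_im, Complex.ofReal_re, Complex.ofReal_im]
  ring

end SFA
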