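import Pool.Agent.Lib.SFA.OPLine

/-!
# SFA.OPScan (package O, owner helper8): the pass over the sorted list of events.

`keyEq_iff`, `ptEq_iff`: unfold (Prod.ext, Complex.ext).

`evLe_iff`: evLe a b = true iff toLex (a.1.1, toLex (a.1.2.1, toLex (a.1.2.2, toLex (a.2.1.re, a.2.1.im)))) <= the same for b in the
linear order `ℝ ×ₗ ℝ ×ₗ ℝ ×ₗ ℝ ×ₗ ℝ` (`Prod.Lex.toLex_le_toLex`, simp [evLe, lexc]); then evLe_trans and evLe_total follow.  (Or
directly by cases.)
`evLe_key`: evLe a b, evLe b c, a.1 = c.1 give b.1 = a.1 (antisymmetry of the lexicographic order on the keys).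
`evLe_pt`: evLe a b and a.1 = b.1 give not lexlt b.2.1 a.2.1.

`scan_eq`: by induction on t: foldl scanStep (some a, out) t = (some _, (scanR a t).reverse ++ out); then scan (a :: t) =
(scanR a t).reverse.

`mem_scanR` by induction on t generalizing a.  t = []: no piece (hp and hq give the event a twice, so p = q, but lexlt p q).
t = b :: t'.  Let a' = evNext a b = (b.1, b.2.1, _).  The list a' :: t' is sorted (evLe only uses the key and the event point, which
for a' are those of b).  It suffices to show
(*)  (exists k, Piece (a :: b :: t') k p q) <-> (emitB a b and p = a.2.1 and q = b.2.1) or (exists k, Piece (a' :: t') k p q).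
Case a.1 <> b.1: keyEq false, a' = b (as an event (b.1, b.2.1, b.2.2)), emitB false.  A piece of a :: b :: t' has key k <> a.1: else
hp, hq are realized by events with key a.1; all later events have key <> a.1 (evLe_key: a <= b <= e with e.1 = a.1 gives b.1 = a.1),
so both are the event a and p = q.  So a plays no role in the conditions for k <> a.1, and k = a.1 is impossible for a' :: t' too.
Case a.1 = b.1, a.2.1 = b.2.1: a' = (b.1, b.2.1, lexMax a.2.2 b.2.2), emitB false (ptEq).  The event points with a given key are the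
same for both lists, and (not lexlt p b.2.1 and lexlt p (lexMax r r')) iff (not lexlt p b.2.1 and (lexlt p r or lexlt p r')).
Case a.1 = b.1 = k0, a.2.1 <> b.2.1: then lexlt a.2.1 b.2.1 (evLe_pt, lex_total), and all events of b :: t' with key k0 have points
not less than b.2.1.  For keys k <> k0 the events a, b, a' play no role.  For k = k0:
 (->) Let (p, q) be a piece.  If p = a.2.1: b.2.1 is an event point > p, so not b.2.1 < q (free), and q is the point of an event: not
 of a (p < q), so not q < b.2.1, so q = b.2.1; the event from cov has point not > p = a.2.1, so it is a itself (the others have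
 points >= b.2.1 > a.2.1), so lexlt a.2.1 a.2.2, so emitB a b.  If p <> a.2.1: then p is the point of an event of b :: t', p >= b.2.1,
 q > p also (not a: a.2.1 < b.2.1 <= p < q); free restricted; cov: the event a is replaced by a' (b.2.1 <= p, lexlt p (lexMax ..)),
 the event b by a'.  So it is a piece of a' :: t'.
 (<-) emitB a b: (a.2.1, b.2.1) is a piece: lt, hp (a), hq (b), free (a is not > a.2.1; the others are not < b.2.1), cov (a).
 A piece (p, q) of a' :: t': p, q >= b.2.1; free: the additional event a is not > p, b has the same point as a'; cov: a' is replaced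
 by a or b.
`scanR_lt`: every element of scanR is a piece, so lexlt.
`scanR_nodup` by induction: with onL for all events; a' = evNext a b has the key and the point of b.  If emitB a b and
(a.2.1, b.2.1) in scanR a' t': by mem_scanR there are k and events e1, e2 of a' :: t' with key k and points a.2.1, b.2.1; by
`key_unique` (a.2.1 <> b.2.1, both on the line a.1 = b.1) k = b.1; but e1 has key b.1 and is after b, so its point a.2.1 is not
less than b.2.1: contradiction with lexlt a.2.1 b.2.1.
-/

namespace SFA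

/-- points in the lexicographic order -/
private noncomputable def Pp (z : ℂ) : ℝ ×ₗ ℝ := toLex (z.re, z.im)

/-- keys in the lexicographic order -/
private noncomputable def Kk (k : Key) : ℝ ×ₗ ℝ ×ₗ ℝ := toLex (k.1, toLex (k.2.1, k.2.2))

private theorem lexlt_iff (u v : ℂ) : lexlt u v ↔ Pp u < Pp v := by
  unfold lexlt Pp
  rw [Prod.Lex.toLex_lt_toLex]

private theorem Pp_inj {u v : ℂ} (h : Pp u = Pp v) : u = v := by
  unfold Pp at h
  have h' := toLex_inj.1 h
  rw [Prod.mk.injEq] at h'
  exact Complex.ext h'.1 h'.2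

private theorem Kk_inj {u v : Key} (h : Kk u = Kk v) : u = v := by
  unfold Kk at h
  have h' := toLex_inj.1 h
  rw [Prod.mk.injEq] at h'
  have h'' := toLex_inj.1 h'.2
  rw [Prod.mk.injEq] at h''
  exact Prod.ext h'.1 (Prod.ext h''.1 h''.2)

private theorem lexc_iff (x y : ℝ) (r : Bool) :
    lexc x y r = true ↔ x < y ∨ (x = y ∧ r = true) := by
  simp [lexc]

private theorem evLe_iff (a b : Ev) :
    evLe a b = true ↔ Kk a.1 < Kk b.1 ∨ (a.1 = b.1 ∧ Pp a.2.1 ≤ Pp b.2.1) := by
  unfold evLe Kk Pp
  rw [lexc_iff, lexc_iff, lexc_iff, lexc_iff, Prod.Lex.toLex_lt_toLex, Prod.Lex.toLex_lt_toLex,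
    Prod.Lex.toLex_le_toLex, decide_eq_true_eq, Prod.ext_iff, Prod.ext_iff]
  tauto

private theorem lexB_iff' (u v : ℂ) : lexB u v = true ↔ Pp u < Pp v := by
  rw [← lexlt_iff]
  unfold lexB lexlt
  rw [Bool.or_eq_true, Bool.and_eq_true, decide_eq_true_eq, decide_eq_true_eq, decide_eq_true_eq]

private theorem lt_lexMax_iff (p u v : ℂ) : Pp p < Pp (lexMax u v) ↔ Pp p < Pp u ∨ Pp p < Pp v := by
  unfold lexMax
  split_ifs with h
  · rw [lexB_iff'] at h
    exact ⟨Or.inr, fun h' => h'.elim (fun h1 => h1.trans h) id⟩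
  · rw [lexB_iff', not_lt] at h
    exact ⟨Or.inl, fun h' => h'.elim id (fun h1 => h1.trans_le h)⟩

theorem keyEq_iff (a b : Key) : keyEq a b = true ↔ a = b := by
  unfold keyEq
  rw [Bool.and_eq_true, Bool.and_eq_true, decide_eq_true_eq, decide_eq_true_eq,
    decide_eq_true_eq, Prod.ext_iff, Prod.ext_iff]

theorem ptEq_iff' (a b : ℂ) : ptEq a b = true ↔ a = b := by
  unfold ptEq
  rw [Bool.and_eq_true, decide_eq_true_eq, decide_eq_true_eq, Complex.ext_iff]

theorem evLe_trans (a b c : Ev) (h1 : evLe a b = true) (h2 : evLe b c = true) :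
    evLe a c = true := by
  rw [evLe_iff] at h1 h2 ⊢
  rcases h1 with h1 | ⟨h1, h1'⟩
  · rcases h2 with h2 | ⟨h2, h2'⟩
    · exact Or.inl (h1.trans h2)
    · exact Or.inl (h2 ▸ h1)
  · rcases h2 with h2 | ⟨h2, h2'⟩
    · exact Or.inl (h1 ▸ h2)
    · exact Or.inr ⟨h1.trans h2, h1'.trans h2'⟩

theorem evLe_total (a b : Ev) : (evLe a b || evLe b a) = true := by
  rw [Bool.or_eq_true, evLe_iff, evLe_iff]
  rcases lt_trichotomy (Kk a.1) (Kk b.1) with h | h | h
  · exact Or.inl (Or.inl h)
  · rcases le_total (Pp a.2.1) (Pp b.2.1) with h' | h'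
    · exact Or.inl (Or.inr ⟨Kk_inj h, h'⟩)
    · exact Or.inr (Or.inr ⟨(Kk_inj h).symm, h'⟩)
  · exact Or.inr (Or.inl h)

theorem evLe_key {a b c : Ev} (h1 : evLe a b = true) (h2 : evLe b c = true) (h : a.1 = c.1) :
    b.1 = a.1 := by
  rw [evLe_iff] at h1 h2
  rcases h1 with h1 | ⟨h1, h1'⟩
  · exfalso
    rcases h2 with h2 | ⟨h2, h2'⟩
    · have := h1.trans h2
      rw [h] at this
      exact lt_irrefl _ this
    · rw [h, h2] at h1
      exact lt_irrefl _ h1
  · exact h1.symm

theorem evLe_pt {a b : Ev} (h1 : evLe a b = true) (h : a.1 = b.1) : ¬ lexlt b.2.1 a.2.1 := by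
  rw [evLe_iff] at h1
  rw [lexlt_iff, not_lt]
  rcases h1 with h1 | ⟨h1, h1'⟩
  · rw [h] at h1
    exact absurd h1 (lt_irrefl _)
  · exact h1'

theorem scan_nil : scan [] = [] := by
  rfl

private theorem foldl_scan (t : List Ev) : ∀ (a : Ev) (out : List Seg),
    (t.foldl scanStep (some a, out)).2 = (scanR a t).reverse ++ out := by
  induction t with
  | nil => intro a out; simp [scanR]
  | cons b t ih =>
    intro a out
    have h1 : scanStep (some a, out) b =
        (some (evNext a b), if emitB a b then (a.2.1, b.2.1) :: out else out) := rfl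
    rw [List.foldl_cons, h1, ih]
    by_cases h : emitB a b = true
    · simp [scanR, h]
    · simp [scanR, h]

theorem scan_eq (a : Ev) (t : List Ev) : scan (a :: t) = (scanR a t).reverse := by
  have h1 : scan (a :: t) = (t.foldl scanStep (some a, [])).2 := rfl
  rw [h1, foldl_scan, List.append_nil]

private theorem piece_cons (a : Ev) (L : List Ev) (k : Key) (p q : ℂ) :
    Piece (a :: L) k p q ↔ Pp p < Pp q ∧
      ((a.1 = k ∧ a.2.1 = p) ∨ ∃ e ∈ L, e.1 = k ∧ e.2.1 = p) ∧
      ((a.1 = k ∧ a.2.1 = q) ∨ ∃ e ∈ L, e.1 = k ∧ e.2.1 = q) ∧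
      ((a.1 = k → ¬ (Pp p < Pp a.2.1 ∧ Pp a.2.1 < Pp q)) ∧
        ∀ e ∈ L, e.1 = k → ¬ (Pp p < Pp e.2.1 ∧ Pp e.2.1 < Pp q)) ∧
      ((a.1 = k ∧ Pp a.2.1 ≤ Pp p ∧ Pp p < Pp a.2.2) ∨
        ∃ e ∈ L, e.1 = k ∧ Pp e.2.1 ≤ Pp p ∧ Pp p < Pp e.2.2) := by
  constructor
  · rintro ⟨h1, h2, h3, h4, h5⟩
    simp only [lexlt_iff, not_lt] at h1 h4 h5
    simp only [List.exists_mem_cons_iff, List.forall_mem_cons]
      at h2 h3 h4 h5
    exact ⟨h1, h2, h3, h4, h5⟩
  · rintro ⟨h1, h2, h3, h4, h5⟩
    refine ⟨?_, ?_, ?_, ?_, ?_⟩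
    · rw [lexlt_iff]; exact h1
    · simpa only [List.exists_mem_cons_iff] using h2
    · simpa only [List.exists_mem_cons_iff] using h3
    · simpa only [List.forall_mem_cons, lexlt_iff] using h4
    · simpa only [List.exists_mem_cons_iff, lexlt_iff, not_lt]
        using h5

private theorem evNext_eq_of_ne {a b : Ev} (h : a.1 ≠ b.1) : evNext a b = b := by
  have h1 : keyEq a.1 b.1 = false := by
    rw [← Bool.not_eq_true, keyEq_iff]; exact h
  unfold evNext
  rw [h1]
  rfl

private theorem evNext_eq_of_eq {a b : Ev} (h : a.1 = b.1) :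
    evNext a b = (b.1, b.2.1, lexMax a.2.2 b.2.2) := by
  have h1 : keyEq a.1 b.1 = true := by rw [keyEq_iff]; exact h
  unfold evNext
  rw [h1]
  rfl

private theorem emitB_iff (a b : Ev) :
    emitB a b = true ↔ a.1 = b.1 ∧ a.2.1 ≠ b.2.1 ∧ Pp a.2.1 < Pp a.2.2 := by
  unfold emitB
  rw [Bool.and_eq_true, Bool.and_eq_true, keyEq_iff, lexB_iff', Bool.not_eq_true',
    ← Bool.not_eq_true, ptEq_iff']

private theorem sorted_next {a b : Ev} {t : List Ev}
    (hsort : (a :: b :: t).Pairwise (fun x y => evLe x y = true)) :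
    (evNext a b :: t).Pairwise (fun x y => evLe x y = true) := by
  have h1 := (List.pairwise_cons.1 hsort).2
  have h2 := List.pairwise_cons.1 h1
  refine List.pairwise_cons.2 ⟨fun e he => ?_, h2.2⟩
  exact h2.1 e he

private theorem step_same {a b : Ev} {t : List Ev} (hk : a.1 = b.1) (hp : a.2.1 = b.2.1)
    (k : Key) (p q : ℂ) : Piece (a :: b :: t) k p q ↔
      Piece ((b.1, b.2.1, lexMax a.2.2 b.2.2) :: t) k p q := by
  rw [piece_cons, piece_cons]
  simp only [List.exists_mem_cons_iff, List.forall_mem_cons,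
    lt_lexMax_iff, hk, hp]
  constructor
  · rintro ⟨h1, h2, h3, ⟨h4a, h4b, h4⟩, h5⟩
    refine ⟨h1, ?_, ?_, ⟨h4b, h4⟩, ?_⟩
    · rcases h2 with h2 | h2 | h2
      · exact Or.inl h2
      · exact Or.inl h2
      · exact Or.inr h2
    · rcases h3 with h3 | h3 | h3
      · exact Or.inl h3
      · exact Or.inl h3
      · exact Or.inr h3
    · rcases h5 with ⟨h5a, h5b, h5c⟩ | ⟨h5a, h5b, h5c⟩ | h5
      · exact Or.inl ⟨h5a, h5b, Or.inl h5c⟩
      · exact Or.inl ⟨h5a, h5b, Or.inr h5c⟩
      · exact Or.inr h5
  · rintro ⟨h1, h2, h3, ⟨h4b, h4⟩, h5⟩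
    refine ⟨h1, Or.inr h2, Or.inr h3, ⟨h4b, h4b, h4⟩, ?_⟩
    rcases h5 with ⟨h5a, h5b, h5c | h5c⟩ | h5
    · exact Or.inl ⟨h5a, h5b, h5c⟩
    · exact Or.inr (Or.inl ⟨h5a, h5b, h5c⟩)
    · exact Or.inr (Or.inr h5)

private theorem step_eq {a b : Ev} {t : List Ev}
    (hsort : (a :: b :: t).Pairwise (fun x y => evLe x y = true)) (p q : ℂ) :
    (∃ k, Piece (a :: b :: t) k p q) ↔
      (emitB a b = true ∧ p = a.2.1 ∧ q = b.2.1) ∨ ∃ k, Piece (evNext a b :: t) k p q := by
  have s1 := List.pairwise_cons.1 hsort
  have s2 := List.pairwise_cons.1 s1.2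
  have hab : evLe a b = true := s1.1 b List.mem_cons_self
  by_cases hk : a.1 = b.1
  · have hle : Pp a.2.1 ≤ Pp b.2.1 := by
      have := evLe_pt hab hk
      rwa [lexlt_iff, not_lt] at this
    have hlt : ∀ e ∈ t, e.1 = b.1 → Pp b.2.1 ≤ Pp e.2.1 := by
      intro e he hke
      have := evLe_pt (s2.1 e he) hke.symm
      rwa [lexlt_iff, not_lt] at this
    rw [evNext_eq_of_eq hk]
    by_cases hp : a.2.1 = b.2.1
    · have he : ¬ (emitB a b = true) := by
        rw [emitB_iff]; exact fun h => h.2.1 hp
      have key : ∀ k, Piece (a :: b :: t) k p q ↔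
          Piece ((b.1, b.2.1, lexMax a.2.2 b.2.2) :: t) k p q := by
        intro k
        exact step_same hk hp k p q
      simp only [key, he, Bool.false_eq_true, false_and, false_or]
    · have hlt' : Pp a.2.1 < Pp b.2.1 := lt_of_le_of_ne hle (fun h => hp (Pp_inj h))
      have hem : emitB a b = true ↔ Pp a.2.1 < Pp a.2.2 := by
        rw [emitB_iff]; exact ⟨fun h => h.2.2, fun h => ⟨hk, hp, h⟩⟩
      rw [hem]
      constructor
      · rintro ⟨k, hP⟩
        rw [piece_cons] at hP
        simp only [List.exists_mem_cons_iff, List.forall_mem_cons,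
          hk] at hP
        obtain ⟨h1, h2, h3, ⟨h4a, h4b, h4⟩, h5⟩ := hP
        by_cases hkb : b.1 = k
        · by_cases hpa : a.2.1 = p
          · -- the first piece
            left
            subst hpa
            have hq1 : Pp b.2.1 ≤ Pp q := by
              rcases h3 with ⟨_, h3⟩ | ⟨_, h3⟩ | ⟨e, he, hek, heq⟩
              · rw [h3] at h1; exact absurd h1 (lt_irrefl _)
              · rw [h3]
              · rw [← heq]; exact hlt e he (hek.trans hkb.symm)
            have hq2 : Pp q ≤ Pp b.2.1 := by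
              by_contra hcon
              exact h4b hkb ⟨hlt', not_le.1 hcon⟩
            refine ⟨?_, rfl, Pp_inj (le_antisymm hq2 hq1)⟩
            rcases h5 with ⟨_, _, h5⟩ | ⟨_, h5, _⟩ | ⟨e, he, hek, h5, _⟩
            · exact h5
            · exact absurd h5 (not_le.2 hlt')
            · exact absurd ((hlt e he (hek.trans hkb.symm)).trans h5) (not_le.2 hlt')
          · right
            refine ⟨k, ?_⟩
            have hbp : Pp b.2.1 ≤ Pp p := by
              rcases h2 with ⟨_, h2⟩ | ⟨_, h2⟩ | ⟨e, he, hek, heq⟩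
              · exact absurd h2 hpa
              · rw [h2]
              · rw [← heq]; exact hlt e he (hek.trans hkb.symm)
            rw [piece_cons]
            simp only [lt_lexMax_iff]
            refine ⟨h1, ?_, ?_, ⟨h4b, h4⟩, ?_⟩
            · rcases h2 with ⟨_, h2⟩ | h2 | h2
              · exact absurd h2 hpa
              · exact Or.inl h2
              · exact Or.inr h2
            · rcases h3 with ⟨_, h3⟩ | h3 | h3
              · exfalso
                rw [← h3] at h1
                exact absurd (h1.trans (hlt'.trans_le hbp)) (lt_irrefl _)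
              · exact Or.inl h3
              · exact Or.inr h3
            · rcases h5 with ⟨_, h5a, h5b⟩ | ⟨_, h5a, h5b⟩ | h5
              · exact Or.inl ⟨hkb, hbp, Or.inl h5b⟩
              · exact Or.inl ⟨hkb, hbp, Or.inr h5b⟩
              · exact Or.inr h5
        · right
          refine ⟨k, ?_⟩
          rw [piece_cons]
          simp only [hkb, false_and, false_or, false_imp_iff, true_and] at h2 h3 h5 ⊢
          exact ⟨h1, h2, h3, h4, h5⟩
      · rintro (⟨h, rfl, rfl⟩ | ⟨k, hP⟩)
        · refine ⟨b.1, ?_⟩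
          rw [piece_cons]
          simp only [List.exists_mem_cons_iff, List.forall_mem_cons,
            hk]
          refine ⟨hlt', Or.inl ⟨trivial, trivial⟩, Or.inr (Or.inl ⟨trivial, trivial⟩),
            ⟨fun _ h' => lt_irrefl _ h'.1, fun _ h' => lt_irrefl _ h'.2, fun e he hek h' => ?_⟩,
            Or.inl ⟨trivial, le_rfl, h⟩⟩
          exact absurd h'.2 (not_lt.2 (hlt e he hek))
        · refine ⟨k, ?_⟩
          rw [piece_cons] at hP ⊢
          simp only [lt_lexMax_iff] at hP
          simp only [List.exists_mem_cons_iff, List.forall_mem_cons,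
            hk]
          obtain ⟨h1, h2, h3, ⟨h4b, h4⟩, h5⟩ := hP
          by_cases hkb : b.1 = k
          · have hbp : Pp b.2.1 ≤ Pp p := by
              rcases h2 with ⟨_, h2⟩ | ⟨e, he, hek, heq⟩
              · rw [h2]
              · rw [← heq]; exact hlt e he (hek.trans hkb.symm)
            refine ⟨h1, Or.inr h2, Or.inr h3,
              ⟨fun _ h' => absurd h'.1 (not_lt.2 (hlt'.le.trans hbp)), h4b, h4⟩, ?_⟩
            rcases h5 with ⟨_, h5a, h5b | h5b⟩ | h5
            · exact Or.inl ⟨hkb, hlt'.le.trans hbp, h5b⟩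
            · exact Or.inr (Or.inl ⟨hkb, hbp, h5b⟩)
            · exact Or.inr (Or.inr h5)
          · simp only [hkb, false_and, false_or, false_imp_iff, true_and] at h2 h3 h5 ⊢
            exact ⟨h1, h2, h3, h4, h5⟩
  · have he : ¬ (emitB a b = true) := by
      rw [emitB_iff]; exact fun h => hk h.1
    have hno : ∀ e ∈ b :: t, e.1 ≠ a.1 := by
      intro e he' heq
      rcases List.mem_cons.1 he' with rfl | he'
      · exact hk heq.symm
      · exact hk (evLe_key hab (s2.1 e he') heq.symm).symm
    rw [evNext_eq_of_ne hk]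
    simp only [he, Bool.false_eq_true, false_and, false_or]
    constructor
    · rintro ⟨k, hP⟩
      refine ⟨k, ?_⟩
      by_cases hka : a.1 = k
      · exfalso
        obtain ⟨e, he', hek, hep⟩ := hP.hp
        obtain ⟨f, hf', hfk, hfq⟩ := hP.hq
        have e1 : e = a := by
          rcases List.mem_cons.1 he' with h | h
          · exact h
          · exact absurd (hek.trans hka.symm) (hno e h)
        have e2 : f = a := by
          rcases List.mem_cons.1 hf' with h | h
          · exact h
          · exact absurd (hfk.trans hka.symm) (hno f h)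
        have h1 := hP.lt
        rw [← hep, ← hfq, e1, e2, lexlt_iff] at h1
        exact lt_irrefl _ h1
      · rw [piece_cons] at hP
        obtain ⟨h1, h2, h3, ⟨h4a, h4⟩, h5⟩ := hP
        simp only [hka, false_and, false_or] at h2 h3 h5
        refine ⟨?_, h2, h3, ?_, ?_⟩
        · rw [lexlt_iff]; exact h1
        · simpa only [lexlt_iff] using h4
        · simpa only [lexlt_iff, not_lt] using h5
    · rintro ⟨k, hP⟩
      refine ⟨k, ?_⟩
      obtain ⟨e, he', hek, hep⟩ := hP.hp
      have hka : a.1 ≠ k := fun h => hno e he' (hek.trans h.symm)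
      refine ⟨hP.lt, ?_, ?_, ?_, ?_⟩
      · exact ⟨e, List.mem_cons_of_mem _ he', hek, hep⟩
      · obtain ⟨f, hf', hfk, hfq⟩ := hP.hq
        exact ⟨f, List.mem_cons_of_mem _ hf', hfk, hfq⟩
      · intro f hf' hfk
        rcases List.mem_cons.1 hf' with h | h
        · rw [h] at hfk; exact absurd hfk hka
        · exact hP.free f h hfk
      · obtain ⟨f, hf', hfk, hfq⟩ := hP.cov
        exact ⟨f, List.mem_cons_of_mem _ hf', hfk, hfq⟩

theorem mem_scanR (a : Ev) (t : List Ev)
    (hsort : (a :: t).Pairwise (fun x y => evLe x y = true)) (p q : ℂ) :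
    (p, q) ∈ scanR a t ↔ ∃ k, Piece (a :: t) k p q := by
  induction t generalizing a with
  | nil =>
    simp only [scanR, List.not_mem_nil, false_iff, not_exists]
    intro k hP
    obtain ⟨e, he', hek, hep⟩ := hP.hp
    obtain ⟨f, hf', hfk, hfq⟩ := hP.hq
    have h1 := hP.lt
    rw [← hep, ← hfq, List.mem_singleton.1 he', List.mem_singleton.1 hf', lexlt_iff] at h1
    exact lt_irrefl _ h1
  | cons b t ih =>
    rw [step_eq hsort, ← ih (evNext a b) (sorted_next hsort)]
    by_cases h : emitB a b = true
    · have h1 : scanR a (b :: t) = (a.2.1, b.2.1) :: scanR (evNext a b) t := by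
        simp [scanR, h]
      rw [h1, List.mem_cons, Prod.mk.injEq]
      simp only [h, true_and]
    · have h1 : scanR a (b :: t) = scanR (evNext a b) t := by
        simp [scanR, h]
      rw [h1]
      simp only [h, Bool.false_eq_true, false_and, false_or]

theorem scanR_length (a : Ev) (t : List Ev) : (scanR a t).length ≤ t.length := by
  induction t generalizing a with
  | nil => simp [scanR]
  | cons b t ih =>
    have h1 := ih (evNext a b)
    by_cases h : emitB a b = true
    · simp only [scanR, h, if_true, List.length_cons]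
      omega
    · simp only [scanR, h, List.length_cons]
      simp only [Bool.false_eq_true, if_false]
      omega

theorem scanR_nodup (a : Ev) (t : List Ev)
    (hsort : (a :: t).Pairwise (fun x y => evLe x y = true))
    (hon : ∀ e ∈ a :: t, onL e.1 e.2.1) : (scanR a t).Nodup := by
  induction t generalizing a with
  | nil => simp [scanR]
  | cons b t ih =>
    have hb : onL b.1 b.2.1 := hon b (List.mem_cons_of_mem _ List.mem_cons_self)
    have hon' : ∀ e ∈ evNext a b :: t, onL e.1 e.2.1 := by
      intro e he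
      rcases List.mem_cons.1 he with rfl | he
      · exact hb
      · exact hon e (List.mem_cons_of_mem _ (List.mem_cons_of_mem _ he))
    have h1 := ih (evNext a b) (sorted_next hsort) hon'
    by_cases h : emitB a b = true
    · have h2 : scanR a (b :: t) = (a.2.1, b.2.1) :: scanR (evNext a b) t := by
        simp [scanR, h]
      rw [h2, List.nodup_cons]
      refine ⟨fun hm => ?_, h1⟩
      rw [mem_scanR _ _ (sorted_next hsort)] at hm
      obtain ⟨k, hP⟩ := hm
      obtain ⟨hk, hne, -⟩ := (emitB_iff a b).1 h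
      obtain ⟨e, he', hek, hep⟩ := hP.hp
      obtain ⟨f, hf', hfk, hfq⟩ := hP.hq
      have o1 : onL k a.2.1 := by rw [← hek, ← hep]; exact hon' e he'
      have o2 : onL k b.2.1 := by rw [← hfk, ← hfq]; exact hon' f hf'
      have o3 : onL b.1 a.2.1 := by rw [← hk]; exact hon a List.mem_cons_self
      have hkb : k = b.1 := key_unique hne o1 o2 o3 hb
      have s1 := List.pairwise_cons.1 hsort
      have s2 := List.pairwise_cons.1 s1.2
      have hle : Pp a.2.1 ≤ Pp b.2.1 := by
        have := evLe_pt (s1.1 b List.mem_cons_self) hk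
        rwa [lexlt_iff, not_lt] at this
      have hlt' : Pp a.2.1 < Pp b.2.1 := lt_of_le_of_ne hle (fun h => hne (Pp_inj h))
      rcases List.mem_cons.1 he' with rfl | he'
      · exact hne hep.symm
      · have := evLe_pt (s2.1 e he') (hkb.symm.trans hek.symm)
        rw [lexlt_iff, hep] at this
        exact this hlt'
    · have h2 : scanR a (b :: t) = scanR (evNext a b) t := by
        simp [scanR, h]
      rw [h2]
      exact h1

/-- summary -/
theorem scan_spec (l : List Ev) (hsort : l.Pairwise (fun x y => evLe x y = true))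
    (hon : ∀ e ∈ l, onL e.1 e.2.1) :
    (∀ p q, (p, q) ∈ scan l ↔ ∃ k, Piece l k p q) ∧ (scan l).length ≤ l.length ∧
      (scan l).Nodup := by
  cases l with
  | nil =>
    rw [scan_nil]
    refine ⟨fun p q => ?_, le_rfl, List.nodup_nil⟩
    simp only [List.not_mem_nil, false_iff, not_exists]
    intro k hP
    obtain ⟨e, he', hek, hep⟩ := hP.hp
    exact absurd he' List.not_mem_nil
  | cons a t =>
    rw [scan_eq]
    refine ⟨fun p q => ?_, ?_, ?_⟩
    · rw [List.mem_reverse]
      exact mem_scanR a t hsort p q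
    · rw [List.length_reverse, List.length_cons]
      exact (scanR_length a t).trans (Nat.le_succ _)
    · rw [List.nodup_reverse]
      exact scanR_nodup a t hsort hon

end SFA
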