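import Pool.Agent.Lib.SFA.OPGeo
import Pool.Agent.Lib.SFA.OPScan
import Pool.Agent.Lib.SFA.OPCost

/-!
# SFA.OPre (package O, owner helper8): preprocessing of the input, summary
-/

namespace SFA

noncomputable section

/-- Preprocessing: the pieces of an arbitrary list of segments. -/
def pre (l : List Seg) : List Seg := scan (P7m.msort evLe (l.flatMap evS))

open Classical in
theorem pre_piece (l : List Seg) (k : Key) (p q : ℂ) :
    Piece (P7m.msort evLe (l.flatMap evS)) k p q ↔ IsPiece l.toFinset k p q := by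
  have hmem : ∀ e : Ev, e ∈ P7m.msort evLe (l.flatMap evS) ↔ ∃ s ∈ l, e ∈ evS s := fun e => by
    rw [(P7m.msort_perm evLe (l.flatMap evS)).mem_iff, List.mem_flatMap]
  have hdir : ∀ (s : Seg) (z : ℂ), (z = (dirS s).1 ∨ z = (dirS s).2) ↔ (z = s.1 ∨ z = s.2) := by
    intro s z
    rcases dirS_eq s with h | h
    · rw [h]
    · rw [h]; exact Or.comm
  have hEP : ∀ z : ℂ, z ∈ EP l.toFinset k ↔
      ∃ e ∈ P7m.msort evLe (l.flatMap evS), e.1 = k ∧ e.2.1 = z := by
    intro z
    constructor
    · rintro ⟨s, hs, hk, hz⟩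
      rw [← hdir] at hz
      rw [List.mem_toFinset] at hs
      rcases hz with hz | hz
      · exact ⟨(keyS (dirS s), (dirS s).1, (dirS s).2), (hmem _).2 ⟨s, hs, by simp [evS]⟩, hk,
          hz.symm⟩
      · exact ⟨(keyS (dirS s), (dirS s).2, (dirS s).2), (hmem _).2 ⟨s, hs, by simp [evS]⟩, hk,
          hz.symm⟩
    · rintro ⟨e, he, hk, hz⟩
      obtain ⟨s, hs, he⟩ := (hmem e).1 he
      simp only [evS, List.mem_cons, List.not_mem_nil, or_false] at he
      refine ⟨s, List.mem_toFinset.2 hs, ?_, ?_⟩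
      · rcases he with he | he <;> rw [← hk, he]
      · rw [← hdir]
        rcases he with he | he
        · left; rw [← hz, he]
        · right; rw [← hz, he]
  constructor
  · rintro ⟨h1, h2, h3, h4, h5⟩
    refine ⟨h1, (hEP p).2 h2, (hEP q).2 h3, ?_, ?_⟩
    · intro z hz
      obtain ⟨e, he, hk, rfl⟩ := (hEP z).1 hz
      exact h4 e he hk
    · obtain ⟨e, he, hk, h6, h7⟩ := h5
      obtain ⟨s, hs, he⟩ := (hmem e).1 he
      simp only [evS, List.mem_cons, List.not_mem_nil, or_false] at he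
      rcases he with he | he
      · subst he
        exact ⟨s, List.mem_toFinset.2 hs, hk, h6, h7⟩
      · subst he
        exact absurd h7 h6
  · rintro ⟨h1, h2, h3, h4, h5⟩
    refine ⟨h1, (hEP p).1 h2, (hEP q).1 h3, ?_, ?_⟩
    · intro e he hk
      exact h4 e.2.1 ((hEP e.2.1).2 ⟨e, he, hk, rfl⟩)
    · obtain ⟨s, hs, hk, h6, h7⟩ := h5
      rw [List.mem_toFinset] at hs
      exact ⟨(keyS (dirS s), (dirS s).1, (dirS s).2), (hmem _).2 ⟨s, hs, by simp [evS]⟩, hk,
        h6, h7⟩

open Classical in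
theorem pre_scan (l : List Seg) (h : ∀ s ∈ l, s.1 ≠ s.2) :
    (∀ p q, (p, q) ∈ pre l ↔ ∃ k, IsPiece l.toFinset k p q) ∧
      (pre l).length ≤ 2 * l.length ∧ (pre l).Nodup := by
  have hs := scan_spec (P7m.msort evLe (l.flatMap evS))
    (P7m.msort_sorted evLe evLe_trans evLe_total _) (by
      intro e he
      rw [(P7m.msort_perm evLe (l.flatMap evS)).mem_iff, List.mem_flatMap] at he
      obtain ⟨s, hs, he⟩ := he
      have h1 := onL_key (h s hs)
      simp only [evS, List.mem_cons, List.not_mem_nil, or_false] at he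
      rcases he with he | he
      · subst he
        rcases dirS_eq s with h2 | h2
        · simp only [h2] at h1 ⊢
          exact h1.1
        · simp only [h2] at h1 ⊢
          exact h1.2
      · subst he
        rcases dirS_eq s with h2 | h2
        · simp only [h2] at h1 ⊢
          exact h1.2
        · simp only [h2] at h1 ⊢
          exact h1.1)
  refine ⟨fun p q => ?_, ?_, hs.2.2⟩
  · rw [pre, hs.1 p q]
    simp only [pre_piece]
  · refine hs.2.1.trans ?_
    rw [(P7m.msort_perm evLe (l.flatMap evS)).length_eq, List.length_flatMap]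
    simp [evS, mul_comm]

open Classical in
/-- The preprocessing: at most `2 n` pieces, all different, directed lexicographically, any two different pieces share at most
one point, same union, same vertices. -/
theorem pre_spec (l : List Seg) (h : ∀ s ∈ l, s.1 ≠ s.2) :
    (pre l).length ≤ 2 * l.length ∧ (pre l).Nodup ∧ (∀ s ∈ pre l, lexlt s.1 s.2) ∧
    (∀ s ∈ pre l, ∀ t ∈ pre l, s ≠ t → (carrier s ∩ carrier t).Subsingleton) ∧
    U (pre l).toFinset = U l.toFinset ∧ Vert (pre l).toFinset = Vert l.toFinset := by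
  obtain ⟨h1, h2, h3⟩ := pre_scan l h
  have hS : ∀ s ∈ l.toFinset, s.1 ≠ s.2 := fun s hs => h s (List.mem_toFinset.1 hs)
  have hT : ∀ p q, (p, q) ∈ (pre l).toFinset ↔ ∃ k, IsPiece l.toFinset k p q := fun p q => by
    rw [List.mem_toFinset]; exact h1 p q
  refine ⟨h2, h3, ?_, ?_, U_pieces hS hT, Vert_pieces hS hT⟩
  · rintro ⟨p, q⟩ hs
    obtain ⟨k, hk⟩ := (h1 p q).1 hs
    exact hk.lt
  · rintro ⟨p, q⟩ hs ⟨p', q'⟩ ht hne
    obtain ⟨k, hk⟩ := (h1 p q).1 hs
    obtain ⟨k', hk'⟩ := (h1 p' q').1 ht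
    exact lp_pieces hS hk hk' hne

theorem rc_pre' : P7m.RC (fun l : List Seg => pre l)
    (fun l => l.length * Nat.clog 2 l.length + l.length) := rc_pre

end

end SFA
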