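import Pool.Agent.Lib.SFA.ODefs
import Pool.Agent.Lib.P7d.Front

/-!
# SFA.OSide: sides of a face and darts (package O)

`P7b.Sg`, `P7b.car`, `P7b.un`, `P7b.face`, `P7b.lq` are definitionally equal to `SFA.Seg`, `SFA.carrier`, `SFA.U`, `SFA.face`, `SFA.lpt`.

* `vert_eq`: for an `LP` family the vertices are `P7b.Vx`: if two different segments share a point and are parallel then they are collinear and share only one point, which is an
  endpoint of one of them (if it were interior to both they would overlap).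
* `side_iff`: (←) `Drt.disjL`, `segment_sub`, `lreg_eq_face_iff` with `t = 1/2`.  (→) the midpoint `m` of `[p, q]` is in `un T` and not a vertex: `exists_dartL` gives a dart `d` with `m` in its open edge; `openSegment p q` is preconnected, inside `un T \ Vx T`, and the open edge of
  `d` is relatively closed and open in `un T \ Vx T` (`edge_ballL`: near a point of an open edge `un T` is inside the open edge; closed: `closure (openSegment) = segment`, whose ends are vertices); so `openSegment p q ⊆ openSegment d.og d.hd`; taking closures `p, q ∈ segment d.og d.hd`, and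
  `p, q ∈ Vx T`, so `{p, q} = {d.og, d.hd}` (`p ≠ q`); replace `d` by `rvL d` if necessary (`hd_rvL`).
-/

namespace SFA

open P7b in
theorem OSideAux.parallel {T : Finset Seg} (hT : LP T) {s t : Seg} (hs : s ∈ T) (ht : t ∈ T)
    (hst : s ≠ t) (hc : cross (s.2 - s.1) (t.2 - t.1) = 0) {v : ℂ} (h1 : v ∈ car s)
    (h2 : v ∈ car t) (hv1 : v ≠ s.1) (hv2 : v ≠ s.2) (hv3 : v ≠ t.1) (hv4 : v ≠ t.2) : False := by
  have hu : s.2 - s.1 ≠ 0 := sub_ne_zero.2 (hT.ne s hs).symm
  have hw : t.2 - t.1 ≠ 0 := sub_ne_zero.2 (hT.ne t ht).symm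
  have h1' := h1
  have h2' := h2
  unfold car at h1' h2'
  rw [segment_eq_image'] at h1' h2'
  obtain ⟨a, ⟨ha0, ha1⟩, hva⟩ := h1'
  obtain ⟨b, ⟨hb0, hb1⟩, hvb⟩ := h2'
  simp only [Complex.real_smul] at hva hvb
  have ha0' : 0 < a := by
    refine lt_of_le_of_ne ha0 fun h => hv1 ?_
    rw [← hva, ← h]
    simp
  have ha1' : a < 1 := by
    refine lt_of_le_of_ne ha1 fun h => hv2 ?_
    rw [← hva, h]
    simp
  have hb0' : 0 < b := by
    refine lt_of_le_of_ne hb0 fun h => hv3 ?_
    rw [← hvb, ← h]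
    simp
  have hb1' : b < 1 := by
    refine lt_of_le_of_ne hb1 fun h => hv4 ?_
    rw [← hvb, h]
    simp
  -- the ratio is real
  obtain ⟨k, hk⟩ : ∃ k : ℝ, t.2 - t.1 = (k : ℂ) * (s.2 - s.1) := by
    refine ⟨((t.2 - t.1) / (s.2 - s.1)).re, ?_⟩
    have him : ((t.2 - t.1) / (s.2 - s.1)).im = 0 := by
      rw [Complex.div_im]
      unfold cross at hc
      have hn : Complex.normSq (s.2 - s.1) ≠ 0 := by
        rw [Ne, Complex.normSq_eq_zero]
        exact hu
      field_simp
      linarith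
    have h3 : (t.2 - t.1) / (s.2 - s.1) = ((((t.2 - t.1) / (s.2 - s.1)).re : ℝ) : ℂ) :=
      Complex.ext rfl (by rw [him]; simp)
    rw [← h3, div_mul_cancel₀ _ hu]
  have hk0 : k ≠ 0 := by
    rintro rfl
    apply hw
    rw [hk]
    simp
  have hkc : (k : ℂ) ≠ 0 := by exact_mod_cast hk0
  have hka : 0 < |k| := abs_pos.2 hk0
  set δ : ℝ := min (1 - a) (|k| * min b (1 - b)) with hδ
  have hb' : 0 < min b (1 - b) := lt_min hb0' (by linarith)
  have hδ0 : 0 < δ := lt_min (by linarith) (by positivity)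
  have hδ1 : δ ≤ 1 - a := min_le_left _ _
  have hδ2 : δ ≤ |k| * min b (1 - b) := min_le_right _ _
  have hδ3 : |δ / k| ≤ min b (1 - b) := by
    rw [abs_div, abs_of_pos hδ0, div_le_iff₀ hka]
    linarith
  have hδ4 := abs_le.1 hδ3
  have hδ5 := min_le_left b (1 - b)
  have hδ6 := min_le_right b (1 - b)
  have hz1 : v + (δ : ℂ) * (s.2 - s.1) ∈ car s := by
    unfold car
    rw [segment_eq_image']
    refine ⟨a + δ, ⟨by linarith, by linarith⟩, ?_⟩
    simp only [Complex.real_smul]
    rw [← hva]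
    push_cast
    ring
  have hz2 : v + (δ : ℂ) * (s.2 - s.1) ∈ car t := by
    unfold car
    rw [segment_eq_image']
    refine ⟨b + δ / k, ⟨by linarith [hδ4.1], by linarith [hδ4.2]⟩, ?_⟩
    simp only [Complex.real_smul]
    rw [← hvb, hk]
    push_cast
    field_simp
    ring
  have h3 := hT.sub s hs t ht hst ⟨h1, h2⟩ ⟨hz1, hz2⟩
  have h4 : (δ : ℂ) * (s.2 - s.1) = 0 := by
    have h5 : v + (δ : ℂ) * (s.2 - s.1) = v + 0 := by rw [add_zero]; exact h3.symm
    exact add_left_cancel h5
  rcases mul_eq_zero.1 h4 with h5 | h5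
  · exact hδ0.ne' (by exact_mod_cast h5)
  · exact hu h5

open P7b in
theorem vert_eq {T : Finset Seg} (hT : LP T) : Vert T = Vx T := by
  ext v
  constructor
  · rintro (hv | ⟨s, hs, t, ht, hc, h1, h2⟩)
    · exact Or.inl hv
    · refine Or.inr ⟨s, hs, t, ht, ?_, h1, h2⟩
      rintro rfl
      apply hc
      unfold cross
      ring
  · rintro (hv | ⟨s, hs, t, ht, hst, h1, h2⟩)
    · exact Or.inl hv
    · by_cases hc : cross (s.2 - s.1) (t.2 - t.1) = 0
      · left
        by_contra hcon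
        have hv1 : v ≠ s.1 := fun h => hcon ⟨s, hs, Or.inl h⟩
        have hv2 : v ≠ s.2 := fun h => hcon ⟨s, hs, Or.inr h⟩
        have hv3 : v ≠ t.1 := fun h => hcon ⟨t, ht, Or.inl h⟩
        have hv4 : v ≠ t.2 := fun h => hcon ⟨t, ht, Or.inr h⟩
        exact OSideAux.parallel hT hs ht hst hc h1 h2 hv1 hv2 hv3 hv4
      · exact Or.inr ⟨s, hs, t, ht, hc, h1, h2⟩

open P7b in
theorem side_iff {T : Finset Seg} (hT : LP T) {x : ℂ} (hx : x ∉ U T) {p q : ℂ} :
    IsSide T (face T x) p q ↔ ∃ d : Drt T, d.og = p ∧ d.hd = q ∧ lreg T d.og d.hd = P7b.face T x := by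
  have hVe := vert_eq hT
  constructor
  · rintro ⟨hE, ε₀, e0, he⟩
    have hpv : p ∈ Vx T := hVe ▸ hE.pV
    have hqv : q ∈ Vx T := hVe ▸ hE.qV
    have hfree : Disjoint (openSegment ℝ p q) (Vx T) := hVe ▸ hE.free
    have hsub : segment ℝ p q ⊆ un T := hE.sub
    have hm : lq p q (1 / 2) 0 ∈ openSegment ℝ p q := lq_zero_mem (by norm_num) (by norm_num)
    obtain ⟨d, hd⟩ := exists_dartL hT (hsub (openSegment_subset_segment ℝ p q hm))
      (Set.disjoint_left.1 hfree hm)
    -- the open segment is inside the closed edge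
    have hA : openSegment ℝ p q ⊆ segment ℝ d.og d.hd := by
      have hopen : ∀ z ∈ openSegment ℝ d.og d.hd, ∃ ε > 0, ∀ w, dist w z < ε →
          w ∈ un T → w ∈ openSegment ℝ d.og d.hd := by
        intro z hz
        obtain ⟨ε, hε, h1⟩ := edge_ballL hT d.mem (d.og_carL hT) (d.hd_carL hT) (d.og_ne_hdL hT)
          (d.disjL hT) hz
        exact ⟨ε, hε, fun w hw => (h1 w hw).1⟩
      have hcl : IsClosed (segment ℝ d.og d.hd) := isClosed_car ((d.og, d.hd) : Sg)
      by_contra hcon
      rw [Set.not_subset] at hcon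
      obtain ⟨w, hwA, hwd⟩ := hcon
      have hU : IsOpen {z : ℂ | ∃ y ∈ openSegment ℝ d.og d.hd, ∃ ε > 0,
          (∀ w, dist w y < ε → w ∈ un T → w ∈ openSegment ℝ d.og d.hd) ∧ dist z y < ε} := by
        have : {z : ℂ | ∃ y ∈ openSegment ℝ d.og d.hd, ∃ ε > 0,
          (∀ w, dist w y < ε → w ∈ un T → w ∈ openSegment ℝ d.og d.hd) ∧ dist z y < ε} =
          ⋃ y ∈ openSegment ℝ d.og d.hd, ⋃ ε ∈ {ε : ℝ | 0 < ε ∧
          (∀ w, dist w y < ε → w ∈ un T → w ∈ openSegment ℝ d.og d.hd)}, Metric.ball y ε := by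
          ext z
          simp only [Set.mem_setOf_eq, Set.mem_iUnion, Metric.mem_ball, exists_prop]
          constructor
          · rintro ⟨y, hy, ε, hε, h1, h2⟩
            exact ⟨y, hy, ε, ⟨hε, h1⟩, h2⟩
          · rintro ⟨y, hy, ε, ⟨hε, h1⟩, h2⟩
            exact ⟨y, hy, ε, hε, h1, h2⟩
        rw [this]
        exact isOpen_biUnion fun y _ => isOpen_biUnion fun ε _ => Metric.isOpen_ball
      have hV : IsOpen (segment ℝ d.og d.hd)ᶜ := hcl.isOpen_compl
      obtain ⟨z, hzA, ⟨y, hy, ε, hε, h1, h2⟩, hz2⟩ := (convex_openSegment p q).isPreconnected _ _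
        hU hV (by
          intro z hz
          by_cases hzs : z ∈ segment ℝ d.og d.hd
          · left
            have hzv : z ∉ Vx T := Set.disjoint_left.1 hfree hz
            have hzo : z ∈ openSegment ℝ d.og d.hd := by
              refine mem_openSegment_of_ne_left_right ?_ ?_ hzs
              · intro hh
                exact hzv (hh ▸ d.og_vxL hT)
              · intro hh
                exact hzv (hh ▸ (hT.mem_VF.1 (d.hd_memL hT)).1)
            obtain ⟨ε, hε, h1⟩ := hopen z hzo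
            exact ⟨z, hzo, ε, hε, h1, by simpa using hε⟩
          · right
            exact hzs)
        ⟨_, hm, by
          obtain ⟨ε, hε, h1⟩ := hopen _ hd
          exact ⟨_, hd, ε, hε, h1, by simpa using hε⟩⟩
        ⟨w, hwA, hwd⟩
      exact hz2 (openSegment_subset_segment ℝ _ _
        (h1 z h2 (hsub (openSegment_subset_segment ℝ p q hzA))))
    have hS : segment ℝ p q ⊆ segment ℝ d.og d.hd := by
      rw [← closure_openSegment]
      exact closure_minimal hA (isClosed_car ((d.og, d.hd) : Sg))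
    have hend : ∀ z ∈ segment ℝ d.og d.hd, z ∈ Vx T → z = d.og ∨ z = d.hd := by
      intro z hz hzv
      by_contra hcon
      push_neg at hcon
      exact Set.disjoint_left.1 (d.disjL hT)
        (mem_openSegment_of_ne_left_right (Ne.symm hcon.1) (Ne.symm hcon.2) hz) hzv
    have hp := hend p (hS (left_mem_segment ℝ p q)) hpv
    have hq := hend q (hS (right_mem_segment ℝ p q)) hqv
    have hex : ∃ e : Drt T, e.og = p ∧ e.hd = q := by
      rcases hp with hp | hp
      · rcases hq with hq | hq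
        · exact absurd (hp.trans hq.symm) hE.ne
        · exact ⟨d, hp.symm, hq.symm⟩
      · rcases hq with hq | hq
        · exact ⟨d.rvL hT, hp.symm, (Drt.hd_rvL hT d).trans hq.symm⟩
        · exact absurd (hp.trans hq.symm) hE.ne
    obtain ⟨e, he1, he2⟩ := hex
    refine ⟨e, he1, he2, ?_⟩
    refine (lreg_eq_face_iff hT e hx (t := 1 / 2) (by norm_num) (by norm_num)).2 ⟨ε₀, e0, ?_⟩
    intro ε h1 h2
    rw [he1, he2]
    exact he ε h1 h2
  · rintro ⟨d, rfl, rfl, hl⟩
    obtain ⟨ε₀, e0, h1⟩ := (lreg_eq_face_iff hT d hx (t := 1 / 2) (by norm_num) (by norm_num)).1 hl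
    refine ⟨⟨d.og_ne_hdL hT, ?_, ?_, ?_, ?_⟩, ε₀, e0, h1⟩
    · rw [hVe]
      exact d.og_vxL hT
    · rw [hVe]
      exact (hT.mem_VF.1 (d.hd_memL hT)).1
    · intro z hz
      exact Set.mem_biUnion d.mem (segment_sub (d.og_carL hT) (d.hd_carL hT) hz)
    · rw [hVe]
      exact d.disjL hT

end SFA
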