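import Pool.Agent.Lib.SFA.PDefs

/-!
# SFA.PAvg: elementary properties of the average `avg`

All by induction on `m` from the two equations of `avg` (generalize `f`, `g`); in `avg_congr` and
`avg_mono` the functions `f ∘ (true :: ·)` satisfy the hypothesis for `m`.
`avg_append`: induction on `a` (`Nat.succ_add`); `avg_eq`: induction on `m`, with
`Fin.consEquiv`/`Fin.cons` (`(Fin.consEquiv (fun _ => Bool)).sum_comp`, `Fintype.sum_prod_type`,
`Fintype.sum_bool`, `List.ofFn_succ`).
-/

namespace SFA

theorem avg_congr {m : ℕ} {f g : List Bool → ℝ}
    (h : ∀ w : List Bool, w.length = m → f w = g w) : avg m f = avg m g := by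
  induction m generalizing f g with
  | zero => exact h [] rfl
  | succ m ih =>
    simp only [avg]
    rw [ih (fun w hw => h (true :: w) (by simp [hw])),
      ih (fun w hw => h (false :: w) (by simp [hw]))]

theorem avg_mono {m : ℕ} {f g : List Bool → ℝ}
    (h : ∀ w : List Bool, w.length = m → f w ≤ g w) : avg m f ≤ avg m g := by
  induction m generalizing f g with
  | zero => exact h [] rfl
  | succ m ih =>
    simp only [avg]
    have h1 := ih (f := fun w => f (true :: w)) (g := fun w => g (true :: w))
      (fun w hw => h (true :: w) (by simp [hw]))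
    have h2 := ih (f := fun w => f (false :: w)) (g := fun w => g (false :: w))
      (fun w hw => h (false :: w) (by simp [hw]))
    linarith

theorem avg_const (m : ℕ) (c : ℝ) : avg m (fun _ => c) = c := by
  induction m with
  | zero => rfl
  | succ m ih =>
    simp only [avg]
    rw [ih]
    ring

theorem avg_mul_left (m : ℕ) (c : ℝ) (f : List Bool → ℝ) :
    avg m (fun w => c * f w) = c * avg m f := by
  induction m generalizing f with
  | zero => rfl
  | succ m ih =>
    simp only [avg]
    rw [ih (fun w => f (true :: w)), ih (fun w => f (false :: w))]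
    ring

theorem avg_fadd (m : ℕ) (f g : List Bool → ℝ) :
    avg m (fun w => f w + g w) = avg m f + avg m g := by
  induction m generalizing f g with
  | zero => rfl
  | succ m ih =>
    simp only [avg]
    rw [ih (fun w => f (true :: w)) (fun w => g (true :: w)),
      ih (fun w => f (false :: w)) (fun w => g (false :: w))]
    ring

theorem avg_sum {ι : Type*} (s : Finset ι) (m : ℕ) (f : ι → List Bool → ℝ) :
    avg m (fun w => ∑ i ∈ s, f i w) = ∑ i ∈ s, avg m (f i) := by
  induction m generalizing f with
  | zero => rfl
  | succ m ih =>
    simp only [avg]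
    rw [ih (fun i w => f i (true :: w)), ih (fun i w => f i (false :: w)),
      ← Finset.sum_add_distrib, Finset.sum_div]

theorem avg_append (a b : ℕ) (f : List Bool → ℝ) :
    avg (a + b) f = avg a (fun u => avg b (fun v => f (u ++ v))) := by
  induction a generalizing f with
  | zero => simp [avg]
  | succ a ih =>
    rw [Nat.succ_add]
    simp only [avg]
    rw [ih (fun w => f (true :: w)), ih (fun w => f (false :: w))]
    rfl

theorem avg_eq (m : ℕ) (f : List Bool → ℝ) :
    avg m f = (∑ w : Fin m → Bool, f (List.ofFn w)) / 2 ^ m := by
  induction m generalizing f with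
  | zero => simp [avg]
  | succ m ih =>
    simp only [avg]
    rw [ih (fun w => f (true :: w)), ih (fun w => f (false :: w)),
      ← (Fin.consEquiv (fun _ => Bool)).sum_comp, Fintype.sum_prod_type, Fintype.sum_bool]
    simp only [Fin.consEquiv_apply, List.ofFn_succ, Fin.cons_zero, Fin.cons_succ]
    rw [pow_succ]
    ring

/-- the first `m` members of an infinite bit sequence -/
theorem avg_eq_range (m : ℕ) (f : List Bool → ℝ) :
    avg m f = (∑ w : Fin m → Bool, f ((List.range m).map
      (fun i => if h : i < m then w ⟨i, h⟩ else false))) / 2 ^ m := by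
  rw [avg_eq]
  congr 1
  refine Finset.sum_congr rfl (fun w _ => ?_)
  congr 1
  apply List.ext_getElem
  · simp
  · intro i h1 h2
    have h3 : i < m := by simpa using h1
    simp [h3]

end SFA
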