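import Pool.Agent.Lib.SFA.PDefs

/-!
# SFA.PMin: a sum over the scales (pure analysis)

If `m = 0` all terms are `≤ 0` (`h2`).  Otherwise let `j0` be the least `j` with `m / 2^j ≤ 1`
(`m < 2^m`).  Terms with `j ≥ j0`: `f j ≤ m / 2^j ≤ 1 / 2^(j - j0)`, sum `≤ 2`.
Terms with `j < j0`, `j = j0 - 1 - i`: `m / 2^j = (m / 2^(j0 - 1)) 2^i > 2^i`, so by `h3`
`f j ≤ 2^w exp(-2^i / 2) = exp(w log 2 - 2^i / 2)`.  Put `k = Nat.clog 2 w + 2`, so
`2^k ≥ 4 w`; for `i = k + t`: `2^i / 2 ≥ 2 w 2^t`, hence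
`w log 2 - 2^i/2 ≤ w (1 - 2 * 2^t) ≤ -2^t` (`log 2 ≤ 1`, `w ≥ 1`) and
`exp(-2^t) ≤ 1 / 2^t` (`Real.add_one_le_exp`), sum `≤ 2`.
For the at most `k` indices `i < k`: `f j ≤ 1`.  Total `≤ 2 + k + 2 = Nat.clog 2 w + 6`.
(The terms need not be nonnegative: first replace `f` by an upper bound `g j = 1 / 2^(j - j0)` for `j ≥ j0`,
`g j = 1` for `i < k`, `g j = 1 / 2^(i - k)` otherwise.)
-/

namespace SFA

namespace PMinAux

/-- the upper bound of one term -/
noncomputable def gb (e k j : ℕ) : ℝ :=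
  if e + 1 ≤ j then (1 / 2) ^ (j - (e + 1)) else if e - j < k then 1 else (1 / 2) ^ (e - j - k)

theorem gb_nonneg (e k j : ℕ) : 0 ≤ gb e k j := by
  unfold gb
  split_ifs <;> positivity

theorem sum_gb (e k J : ℕ) : ∑ j ∈ Finset.range J, gb e k j ≤ (k : ℝ) + 4 := by
  have h1 : ∑ j ∈ Finset.range J, gb e k j ≤ ∑ j ∈ Finset.range (e + 1 + J), gb e k j := by
    refine Finset.sum_le_sum_of_subset_of_nonneg ?_ fun j _ _ => gb_nonneg e k j
    intro j hj
    rw [Finset.mem_range] at hj ⊢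
    omega
  rw [Finset.sum_range_add] at h1
  have h2 : ∑ j ∈ Finset.range J, gb e k (e + 1 + j) ≤ 2 := by
    refine le_trans (le_of_eq (Finset.sum_congr rfl fun j _ => ?_)) (sum_geometric_two_le J)
    unfold gb
    rw [if_pos (by omega)]
    congr 1
    omega
  have h3 : ∑ j ∈ Finset.range (e + 1), gb e k j =
      ∑ i ∈ Finset.range (e + 1), if i < k then (1 : ℝ) else (1 / 2) ^ (i - k) := by
    rw [← Finset.sum_range_reflect]
    refine Finset.sum_congr rfl fun i hi => ?_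
    rw [Finset.mem_range] at hi
    unfold gb
    have e1 : e - (e + 1 - 1 - i) = i := by omega
    rw [if_neg (by omega), e1]
  have h4 : (∑ i ∈ Finset.range (e + 1), if i < k then (1 : ℝ) else (1 / 2) ^ (i - k)) ≤
      ∑ i ∈ Finset.range (k + (e + 1)), if i < k then (1 : ℝ) else (1 / 2) ^ (i - k) := by
    refine Finset.sum_le_sum_of_subset_of_nonneg ?_ fun i _ _ => ?_
    · intro j hj
      rw [Finset.mem_range] at hj ⊢
      omega
    · split_ifs <;> positivity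
  rw [Finset.sum_range_add _ k (e + 1)] at h4
  have h5 : (∑ i ∈ Finset.range k, if i < k then (1 : ℝ) else (1 / 2) ^ (i - k)) = k := by
    rw [Finset.sum_congr rfl fun i hi => if_pos (Finset.mem_range.1 hi)]
    simp
  have h6 : (∑ i ∈ Finset.range (e + 1), if k + i < k then (1 : ℝ) else (1 / 2) ^ (k + i - k)) ≤
      2 := by
    refine le_trans (le_of_eq (Finset.sum_congr rfl fun i _ => ?_)) (sum_geometric_two_le (e + 1))
    rw [if_neg (by omega), Nat.add_sub_cancel_left]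
  linarith

theorem exp_bound (w t : ℕ) (hw : 1 ≤ w) :
    (2 : ℝ) ^ w * Real.exp (-(2 * (w : ℝ) * 2 ^ t)) ≤ (1 / 2) ^ t := by
  have hw' : (1 : ℝ) ≤ w := by exact_mod_cast hw
  have h2t : (1 : ℝ) ≤ 2 ^ t := one_le_pow₀ (by norm_num)
  have h1 : (2 : ℝ) ^ w ≤ Real.exp w := by
    have h : (2 : ℝ) ≤ Real.exp 1 := by
      have := Real.add_one_le_exp (1 : ℝ)
      linarith
    calc (2 : ℝ) ^ w ≤ (Real.exp 1) ^ w := pow_le_pow_left₀ (by norm_num) h w
      _ = Real.exp w := by rw [← Real.exp_nat_mul, mul_one]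
  have h3 : (2 : ℝ) ^ w * Real.exp (-(2 * (w : ℝ) * 2 ^ t)) ≤ Real.exp (-(2 ^ t)) := by
    calc (2 : ℝ) ^ w * Real.exp (-(2 * (w : ℝ) * 2 ^ t))
        ≤ Real.exp w * Real.exp (-(2 * (w : ℝ) * 2 ^ t)) :=
          mul_le_mul_of_nonneg_right h1 (Real.exp_pos _).le
      _ = Real.exp (w - 2 * (w : ℝ) * 2 ^ t) := by rw [← Real.exp_add]; ring_nf
      _ ≤ Real.exp (-(2 ^ t)) := by
          refine Real.exp_le_exp.2 ?_
          nlinarith
  refine h3.trans ?_
  rw [Real.exp_neg, one_div, inv_pow]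
  refine inv_anti₀ (by positivity) ?_
  have := Real.add_one_le_exp ((2 : ℝ) ^ t)
  linarith

end PMinAux

open PMinAux

theorem sum_min (m w J : ℕ) (hw : 1 ≤ w) (f : ℕ → ℝ) (h1 : ∀ j, f j ≤ 1)
    (h2 : ∀ j, f j ≤ (m : ℝ) / 2 ^ j)
    (h3 : ∀ j, f j ≤ 2 ^ w * Real.exp (-((m : ℝ) / 2 ^ (j + 1)))) :
    ∑ j ∈ Finset.range J, f j ≤ (Nat.clog 2 w : ℝ) + 6 := by
  rcases Nat.eq_zero_or_pos m with rfl | hm
  · have h0 : ∑ j ∈ Finset.range J, f j ≤ 0 := by
      refine Finset.sum_nonpos fun j _ => (h2 j).trans (le_of_eq ?_)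
      simp
    have : (0 : ℝ) ≤ Nat.clog 2 w := Nat.cast_nonneg _
    linarith
  set e := Nat.log 2 m with he
  have hm1 : (2 : ℝ) ^ e ≤ m := by
    exact_mod_cast Nat.pow_log_le_self 2 hm.ne'
  have hm2 : (m : ℝ) < 2 ^ (e + 1) := by
    exact_mod_cast Nat.lt_pow_succ_log_self (by norm_num) m
  set k := Nat.clog 2 w + 2 with hk
  have hkw : (4 * w : ℝ) ≤ 2 ^ k := by
    have h := Nat.le_pow_clog (b := 2) (by norm_num) w
    have h' : (w : ℝ) ≤ 2 ^ Nat.clog 2 w := by exact_mod_cast h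
    rw [hk, pow_add]
    linarith
  have hfg : ∀ j, f j ≤ gb e k j := by
    intro j
    unfold gb
    split_ifs with hj hjk
    · refine (h2 j).trans ?_
      rw [div_le_iff₀ (by positivity)]
      refine hm2.le.trans (le_of_eq ?_)
      have e1 : j = (e + 1) + (j - (e + 1)) := by omega
      conv_rhs => rw [e1, pow_add, Nat.add_sub_cancel_left]
      rw [mul_comm, mul_assoc, ← mul_pow]
      norm_num
    · exact h1 j
    · refine (h3 j).trans ?_
      refine le_trans ?_ (exp_bound w (e - j - k) hw)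
      refine mul_le_mul_of_nonneg_left (Real.exp_le_exp.2 (neg_le_neg ?_)) (by positivity)
      rw [le_div_iff₀ (by positivity)]
      refine le_trans ?_ hm1
      have e1 : e = (e - j - k) + k + j := by omega
      conv_rhs => rw [e1, pow_add, pow_add]
      have h5 : (0 : ℝ) < 2 ^ (e - j - k) := by positivity
      have h6 : (0 : ℝ) < 2 ^ j := by positivity
      calc 2 * (w : ℝ) * 2 ^ (e - j - k) * 2 ^ (j + 1)
          = (2 ^ (e - j - k) * 2 ^ j) * (4 * w) := by ring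
        _ ≤ (2 ^ (e - j - k) * 2 ^ j) * 2 ^ k :=
            mul_le_mul_of_nonneg_left hkw (by positivity)
        _ = 2 ^ (e - j - k) * 2 ^ k * 2 ^ j := by ring
  refine (Finset.sum_le_sum fun j _ => hfg j).trans ((sum_gb e k J).trans (le_of_eq ?_))
  rw [hk]
  push_cast
  ring

end SFA
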