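import Pool.Agent.Lib.SFA.PEB
import Pool.Agent.Lib.SFA.PMin

/-!
# SFA.PBin: the expected number of scales at which a random sample has between `1` and `w` elements

`sum_min` for `m = X.card`, `f j = EB (1/2^j) X (fun R => if 1 ≤ R.card ∧ R.card ≤ w then 1 else 0)`, `p = 1/2^j`:
* `f j ≤ 1`: `EB_mono`, `EB_one`;
* indicator `≤ R.card`, `EB_card`: `f j ≤ p * m`;
* indicator `≤ 2^w (1/2)^(R.card)`, `EB_mul_left`, `EB_pow` with `t = 1/2` and `X = S` (`R ∩ X = R` for `R ⊆ X`,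
  by `EB_mono`): `f j ≤ 2^w (1 - p + p/2)^m = 2^w (1 - p/2)^m ≤ 2^w exp(-p m / 2)`
  (`Real.one_sub_le_exp_neg`, `Real.exp_nat_mul`).
-/

namespace SFA

variable {α : Type} [DecidableEq α]

theorem sum_window (X : Finset α) (w J : ℕ) (hw : 1 ≤ w) :
    ∑ j ∈ Finset.range J,
      EB (1 / 2 ^ j) X (fun R => if 1 ≤ R.card ∧ R.card ≤ w then (1 : ℝ) else 0) ≤
      (Nat.clog 2 w : ℝ) + 6 := by
  have hp0 : ∀ j : ℕ, (0 : ℝ) ≤ 1 / 2 ^ j := fun j => by positivity
  have hp1 : ∀ j : ℕ, (1 : ℝ) / 2 ^ j ≤ 1 := fun j => by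
    rw [div_le_one (by positivity)]
    exact one_le_pow₀ (by norm_num)
  refine sum_min X.card w J hw _ (fun j => ?_) (fun j => ?_) (fun j => ?_)
  · have h : EB (1 / 2 ^ j) X (fun _ : Finset α => (1 : ℝ)) = 1 := EB_one (α := α) _ X
    refine le_trans ?_ h.le
    refine EB_mono (hp0 j) (hp1 j) fun R _ => ?_
    split_ifs <;> norm_num
  · have h : (X.card : ℝ) / 2 ^ j = EB (1 / 2 ^ j) X (fun R => (R.card : ℝ)) := by
      rw [EB_card]
      ring
    rw [h]
    refine EB_mono (hp0 j) (hp1 j) fun R _ => ?_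
    split_ifs with hR
    · exact_mod_cast hR.1
    · positivity
  · have h1 : EB (1 / 2 ^ j) X (fun R => if 1 ≤ R.card ∧ R.card ≤ w then (1 : ℝ) else 0) ≤
        EB (1 / 2 ^ j) X (fun R => 2 ^ w * (1 / 2 : ℝ) ^ (R ∩ X).card) := by
      refine EB_mono (hp0 j) (hp1 j) fun R hRX => ?_
      rw [Finset.inter_eq_left.2 hRX]
      split_ifs with hR
      · have h2 : (2 : ℝ) ^ w = 2 ^ (w - R.card) * 2 ^ R.card := by
          rw [← pow_add, Nat.sub_add_cancel hR.2]
        rw [h2, mul_assoc, ← mul_pow]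
        norm_num
        exact one_le_pow₀ (by norm_num)
      · positivity
    refine h1.trans ?_
    rw [EB_mul_left, EB_pow, Finset.inter_self]
    refine mul_le_mul_of_nonneg_left ?_ (by positivity)
    have h3 : (1 : ℝ) - 1 / 2 ^ j + 1 / 2 ^ j * (1 / 2) = 1 - 1 / 2 ^ (j + 1) := by
      rw [pow_succ]
      ring
    rw [h3]
    have h4 : Real.exp (-((X.card : ℝ) / 2 ^ (j + 1))) =
        Real.exp (-(1 / 2 ^ (j + 1))) ^ X.card := by
      rw [← Real.exp_nat_mul]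
      congr 1
      ring
    rw [h4]
    refine pow_le_pow_left₀ ?_ (Real.one_sub_le_exp_neg _) _
    rw [sub_nonneg]
    exact hp1 (j + 1)

end SFA
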