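import Pool.Agent.Lib.SFA.PEB

/-!
# SFA.PCS: the lemma of Clarkson and Shor with exponential moments

`a = p/2`, `q = 1 - p` (so `1 - a - a = q`, `1 - a = 1 - p/2`), `ρ = (1 - p/2)/(1 - p) ≥ 0`, `N = S.card`.
(1) For `R ⊆ S`, `c ∈ T R`, `D` from `h2`: the sets `Q` with `D ⊆ Q ⊆ R` are `2^(R.card - D.card)`
many (`Finset.Icc D R`, `Finset.card_Icc_finset`), all of them satisfy `c ∈ T Q`, so
`p ^ R.card ≤ 64 * ∑ Q ∈ R.powerset, if c ∈ T Q then a ^ Q.card * a ^ (R.card - Q.card) else 0`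
(every summand with `D ⊆ Q` equals `a ^ R.card = p ^ R.card / 2 ^ R.card`, and
`2 ^ D.card ≤ 64`).
(2) Hence `EB p S (∑ c ∈ T R, ρ ^ (K c).card) ≤ 64 * EB2 a a S (fun Q R => ∑ c ∈ T R ∩ T Q, ρ ^ (K c).card)`.
(3) In `EB2_swap`: `∑ c ∈ T R ∩ T Q, ... ≤ ∑ c ∈ T Q, if Disjoint (K c) R then ρ ^ (K c).card else 0`
(by `h1`), exchange the sums: for `Q ⊆ S`, `c ∈ T Q` (so `K c` is disjoint from `Q`), with
`A = S \ Q`, `K c ⊆ A`:
`∑ T' ∈ A.powerset, if Disjoint (K c) (Q ∪ T') then a ^ T'.card * q ^ (A.card - T'.card) else 0`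
`= q ^ (K c).card * ∑ T' ∈ (A \ K c).powerset, a ^ T'.card * q ^ ((A \ K c).card - T'.card)`
`= q ^ (K c).card * (a + q) ^ (A.card - (K c).card)` (`Finset.sum_pow_mul_eq_add_pow`), and
`a + q = 1 - p/2`, so multiplied with `ρ ^ (K c).card` this is `(1 - p/2) ^ A.card` and the sum over `Q`
is `64 * EB (p/2) S (fun Q => (T Q).card)`.
-/

namespace SFA

variable {α β : Type} [DecidableEq α] [DecidableEq β]

namespace PCSAux

/-- step (1): many subsets -/
theorem many (T : Finset α → Finset β) {R : Finset α} {c : β} {D : Finset α} (hDR : D ⊆ R)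
    (hD6 : D.card ≤ 6) (hD : ∀ Q, D ⊆ Q → Q ⊆ R → c ∈ T Q) {p : ℝ} (hp : 0 < p) :
    p ^ R.card ≤ 64 * ∑ Q ∈ R.powerset,
      if c ∈ T Q then (p / 2) ^ Q.card * (p / 2) ^ (R.card - Q.card) else 0 := by
  have ha : 0 < p / 2 := by linarith
  have h1 : ∑ Q ∈ Finset.Icc D R, (p / 2) ^ R.card ≤ ∑ Q ∈ R.powerset,
      if c ∈ T Q then (p / 2) ^ Q.card * (p / 2) ^ (R.card - Q.card) else 0 := by
    calc ∑ Q ∈ Finset.Icc D R, (p / 2) ^ R.card
        = ∑ Q ∈ Finset.Icc D R,
          if c ∈ T Q then (p / 2) ^ Q.card * (p / 2) ^ (R.card - Q.card) else 0 := by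
          refine Finset.sum_congr rfl fun Q hQ => ?_
          rw [Finset.mem_Icc] at hQ
          rw [if_pos (hD Q hQ.1 hQ.2), ← pow_add, Nat.add_sub_cancel' (Finset.card_le_card hQ.2)]
      _ ≤ ∑ Q ∈ R.powerset,
          if c ∈ T Q then (p / 2) ^ Q.card * (p / 2) ^ (R.card - Q.card) else 0 := by
          refine Finset.sum_le_sum_of_subset_of_nonneg ?_ fun Q _ _ => ?_
          · intro Q hQ
            rw [Finset.mem_Icc] at hQ
            exact Finset.mem_powerset.2 hQ.2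
          · split_ifs
            · positivity
            · exact le_rfl
  rw [Finset.sum_const, Finset.card_Icc_finset hDR, nsmul_eq_mul] at h1
  have hDle : D.card ≤ R.card := Finset.card_le_card hDR
  have h2 : (2 : ℝ) ^ D.card ≤ 64 := by
    calc (2 : ℝ) ^ D.card ≤ 2 ^ 6 := pow_le_pow_right₀ (by norm_num) hD6
      _ = 64 := by norm_num
  calc p ^ R.card = (2 : ℝ) ^ R.card * (p / 2) ^ R.card := by
        rw [← mul_pow]
        congr 1
        ring
    _ = (2 : ℝ) ^ D.card * (2 ^ (R.card - D.card) * (p / 2) ^ R.card) := by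
        rw [← mul_assoc, ← pow_add, Nat.add_sub_cancel' hDle]
    _ ≤ 64 * (2 ^ (R.card - D.card) * (p / 2) ^ R.card) := by
        apply mul_le_mul_of_nonneg_right h2
        positivity
    _ ≤ _ := by
        apply mul_le_mul_of_nonneg_left _ (by norm_num)
        refine le_trans (le_of_eq ?_) h1
        push_cast
        rfl

/-- step (3): one fixed sample and one fixed cell -/
theorem single (A Kc : Finset α) (hKA : Kc ⊆ A) {p : ℝ} (hp1 : p ≤ 1 / 2) :
    ∑ T' ∈ A.powerset, (if Disjoint Kc T' then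
      (p / 2) ^ T'.card * (1 - p) ^ (A.card - T'.card) * ((1 - p / 2) / (1 - p)) ^ Kc.card else 0) =
      (1 - p / 2) ^ A.card := by
  have hq : (1 - p) ≠ 0 := by
    intro h
    linarith
  rw [← Finset.sum_filter]
  have hfil : A.powerset.filter (fun T' => Disjoint Kc T') = (A \ Kc).powerset := by
    ext T'
    rw [Finset.mem_filter, Finset.mem_powerset, Finset.mem_powerset]
    constructor
    · rintro ⟨h1, h2⟩ x hx
      exact Finset.mem_sdiff.2 ⟨h1 hx, fun h => Finset.disjoint_left.1 h2 h hx⟩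
    · intro h
      refine ⟨h.trans Finset.sdiff_subset, ?_⟩
      rw [Finset.disjoint_left]
      intro x hx hx'
      exact (Finset.mem_sdiff.1 (h hx')).2 hx
  rw [hfil]
  have hcard : (A \ Kc).card + Kc.card = A.card := Finset.card_sdiff_add_card_eq_card hKA
  have h1 : ∀ T' ∈ (A \ Kc).powerset,
      (p / 2) ^ T'.card * (1 - p) ^ (A.card - T'.card) * ((1 - p / 2) / (1 - p)) ^ Kc.card =
        (1 - p / 2) ^ Kc.card *
          ((p / 2) ^ T'.card * (1 - p) ^ ((A \ Kc).card - T'.card)) := by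
    intro T' hT'
    have h2 : T'.card ≤ (A \ Kc).card := Finset.card_le_card (Finset.mem_powerset.1 hT')
    have h3 : A.card - T'.card = Kc.card + ((A \ Kc).card - T'.card) := by omega
    have h4 : (1 - p) ^ Kc.card * ((1 - p / 2) / (1 - p)) ^ Kc.card = (1 - p / 2) ^ Kc.card := by
      rw [← mul_pow, mul_div_cancel₀ _ hq]
    rw [h3, pow_add, ← h4]
    ring
  rw [Finset.sum_congr rfl h1, ← Finset.mul_sum, Finset.sum_pow_mul_eq_add_pow]
  have h5 : p / 2 + (1 - p) = 1 - p / 2 := by ring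
  rw [h5, ← pow_add]
  congr 1
  omega

end PCSAux

open PCSAux

theorem clarkson_shor (S : Finset α) (T : Finset α → Finset β) (K : β → Finset α)
    (hK : ∀ c, K c ⊆ S) (h1 : ∀ R ⊆ S, ∀ c ∈ T R, Disjoint (K c) R)
    (h2 : ∀ R ⊆ S, ∀ c ∈ T R, ∃ D ⊆ R, D.card ≤ 6 ∧ ∀ Q, D ⊆ Q → Q ⊆ R → c ∈ T Q)
    {p : ℝ} (hp : 0 < p) (hp1 : p ≤ 1 / 2) :
    EB p S (fun R => ∑ c ∈ T R, ((1 - p / 2) / (1 - p)) ^ (K c).card) ≤
      64 * EB (p / 2) S (fun Q => ((T Q).card : ℝ)) := by
  have hq0 : 0 ≤ 1 - p := by linarith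
  have hρ : 0 ≤ (1 - p / 2) / (1 - p) := div_nonneg (by linarith) hq0
  set ρ := (1 - p / 2) / (1 - p) with hρdef
  have h12 : (1 : ℝ) - p / 2 - p / 2 = 1 - p := by ring
  -- steps (1), (2)
  have step2 : EB p S (fun R => ∑ c ∈ T R, ρ ^ (K c).card) ≤
      64 * EB2 (p / 2) (p / 2) S (fun Q R => ∑ c ∈ T R ∩ T Q, ρ ^ (K c).card) := by
    unfold EB EB2
    rw [Finset.mul_sum]
    refine Finset.sum_le_sum fun R hR => ?_
    rw [Finset.mem_powerset] at hR
    have e1 : ∀ c ∈ T R, p ^ R.card * ρ ^ (K c).card ≤ 64 * ∑ Q ∈ R.powerset,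
        (if c ∈ T Q then (p / 2) ^ Q.card * (p / 2) ^ (R.card - Q.card) else 0) *
          ρ ^ (K c).card := by
      intro c hc
      obtain ⟨D, hDR, hD6, hD⟩ := h2 R hR c hc
      have := many T hDR hD6 hD hp
      rw [← Finset.sum_mul, ← mul_assoc]
      exact mul_le_mul_of_nonneg_right this (pow_nonneg hρ _)
    calc p ^ R.card * (1 - p) ^ (S.card - R.card) * ∑ c ∈ T R, ρ ^ (K c).card
        = (1 - p) ^ (S.card - R.card) * ∑ c ∈ T R, p ^ R.card * ρ ^ (K c).card := by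
          rw [← Finset.mul_sum]
          ring
      _ ≤ (1 - p) ^ (S.card - R.card) * ∑ c ∈ T R, 64 * ∑ Q ∈ R.powerset,
          (if c ∈ T Q then (p / 2) ^ Q.card * (p / 2) ^ (R.card - Q.card) else 0) *
            ρ ^ (K c).card :=
          mul_le_mul_of_nonneg_left (Finset.sum_le_sum e1) (pow_nonneg hq0 _)
      _ = 64 * ∑ Q ∈ R.powerset, (p / 2) ^ Q.card * (p / 2) ^ (R.card - Q.card) *
          (1 - p / 2 - p / 2) ^ (S.card - R.card) * ∑ c ∈ T R ∩ T Q, ρ ^ (K c).card := by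
          rw [h12, ← Finset.mul_sum, Finset.sum_comm, mul_left_comm, Finset.mul_sum]
          congr 1
          refine Finset.sum_congr rfl fun Q _ => ?_
          rw [← Finset.filter_mem_eq_inter, Finset.sum_filter, Finset.mul_sum, Finset.mul_sum]
          refine Finset.sum_congr rfl fun c _ => ?_
          split_ifs
          · ring
          · ring
  refine step2.trans (mul_le_mul_of_nonneg_left ?_ (by norm_num))
  -- step (3)
  rw [EB2_swap]
  unfold EB
  refine Finset.sum_le_sum fun Q hQ => ?_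
  rw [Finset.mem_powerset] at hQ
  rw [h12]
  have hcardQ : (S \ Q).card = S.card - Q.card := Finset.card_sdiff_of_subset hQ
  have e2 : ∀ T' ∈ (S \ Q).powerset,
      (p / 2) ^ Q.card * (p / 2) ^ T'.card * (1 - p) ^ ((S \ Q).card - T'.card) *
        ∑ c ∈ T (Q ∪ T') ∩ T Q, ρ ^ (K c).card ≤
      (p / 2) ^ Q.card * ∑ c ∈ T Q, (if Disjoint (K c) T' then
        (p / 2) ^ T'.card * (1 - p) ^ ((S \ Q).card - T'.card) * ρ ^ (K c).card else 0) := by
    intro T' hT'
    rw [Finset.mem_powerset] at hT'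
    rw [mul_assoc, mul_assoc]
    refine mul_le_mul_of_nonneg_left ?_ (by positivity)
    rw [← mul_assoc, Finset.mul_sum]
    have hsub : T (Q ∪ T') ∩ T Q ⊆ (T Q).filter (fun c => Disjoint (K c) T') := by
      intro c hc
      rw [Finset.mem_inter] at hc
      refine Finset.mem_filter.2 ⟨hc.2, ?_⟩
      have h3 := h1 (Q ∪ T') (Finset.union_subset hQ (hT'.trans Finset.sdiff_subset)) c hc.1
      exact Finset.disjoint_of_subset_right Finset.subset_union_right h3
    rw [← Finset.sum_filter]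
    refine Finset.sum_le_sum_of_subset_of_nonneg hsub fun c _ _ => ?_
    have := pow_nonneg hρ (K c).card
    positivity
  refine (Finset.sum_le_sum e2).trans (le_of_eq ?_)
  rw [← Finset.mul_sum, Finset.sum_comm]
  have e3 : ∀ c ∈ T Q, ∑ T' ∈ (S \ Q).powerset, (if Disjoint (K c) T' then
      (p / 2) ^ T'.card * (1 - p) ^ ((S \ Q).card - T'.card) * ρ ^ (K c).card else 0) =
      (1 - p / 2) ^ (S.card - Q.card) := by
    intro c hc
    have hKA : K c ⊆ S \ Q := by
      intro x hx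
      exact Finset.mem_sdiff.2 ⟨hK c hx, fun h => Finset.disjoint_left.1 (h1 Q hQ c hc) hx h⟩
    rw [single (S \ Q) (K c) hKA hp1, hcardQ]
  rw [Finset.sum_congr rfl e3, Finset.sum_const, nsmul_eq_mul]
  ring

end SFA
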