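import Pool.Agent.Lib.SFA.G2Defs
import Pool.Agent.Lib.SFA.RoundDefs

/-!
# SFA.PDefs: the quantities of the analysis of the expected cost

First part by helper71, second part by helper87 (package P).
-/

namespace SFA

section

open Classical

noncomputable section

/-- number of segments of `S` in conflict with `c` -/
def cK (eps : ℝ) (S : Finset Seg) (c : Cell) : ℕ := (S.filter (fun s => confl eps c s)).card

/-- number of segments of level `i` in conflict with `c` -/
def cN (eps : ℝ) (S : Finset Seg) (lv : Seg → ℕ) (i : ℕ) (c : Cell) : ℕ :=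
  (S.filter (fun s => lv s = i ∧ confl eps c s)).card

/-- cost of round `i`: sum over the trapezoids before the round -/
def stepSum (e : ℕ) (eps : ℝ) (S : Finset Seg) (lv : Seg → ℕ) (x : ℂ) (i : ℕ) : ℕ :=
  ∑ᶠ c ∈ TF eps (lev S lv i) x, (cN eps S lv i c + 1) ^ e * (cK eps S c + 1)

/-- the level of a segment of the list `T` for the random bits `w` -/
def lvOf (L : ℕ) (T : List Seg) (w : List Bool) (s : Seg) : ℕ :=
  (((assign L T w).find? (fun k => sgEq k.1 s)).map Prod.snd).getD 0

end

end

/-! ## Package P -/

/-- average over all bit lists of length `m` -/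
noncomputable def avg : ℕ → (List Bool → ℝ) → ℝ
  | 0, f => f []
  | m + 1, f => (avg m (fun w => f (true :: w)) + avg m (fun w => f (false :: w))) / 2

open Classical in
/-- the level of every segment (only the values at the members of the list matter), defined by
recursion -/
noncomputable def lvR (L : ℕ) : List Seg → List Bool → Seg → ℕ
  | [], _ => fun _ => 0
  | s :: t, w =>
    Function.update (lvR L t (w.drop L)) s (L - ((w.take L).takeWhile (fun b => b)).length)

/-- expectation of `f R`, `R` contains every element of `S` with probability `p` -/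
noncomputable def EB {α : Type} (p : ℝ) (S : Finset α) (f : Finset α → ℝ) : ℝ :=
  ∑ R ∈ S.powerset, p ^ R.card * (1 - p) ^ (S.card - R.card) * f R

/-- expectation of `f Q R`, `Q ⊆ R ⊆ S`, every element of `S` is in `Q` with probability `a` and in
`R` but not in `Q` with probability `b` -/
noncomputable def EB2 {α : Type} (a b : ℝ) (S : Finset α) (f : Finset α → Finset α → ℝ) : ℝ :=
  ∑ R ∈ S.powerset, ∑ Q ∈ R.powerset,
    a ^ Q.card * b ^ (R.card - Q.card) * (1 - a - b) ^ (S.card - R.card) * f Q R

/-- probability that the level is less than `i` -/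
noncomputable def pa (L i : ℕ) : ℝ := if i = 0 then 0 else 1 / 2 ^ (L + 1 - i)

/-- probability that the level is `i` -/
noncomputable def pb (L i : ℕ) : ℝ := if i = 0 then 1 / 2 ^ L else 1 / 2 ^ (L + 1 - i)

open Classical in
/-- number of segments of `A` in conflict with `c` -/
noncomputable def kn (eps : ℝ) (A : Finset Seg) (c : Cell) : ℕ := (A.filter (confl eps c)).card

open Classical in
/-- the cells of the face of `x` as a finite set -/
noncomputable def TFf (eps : ℝ) (R : Finset Seg) (x : ℂ) : Finset Cell :=
  if h : (TF eps R x).Finite then h.toFinset else ∅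

/-- cost of the round which replaces `R` by `R'` -/
noncomputable def rc (e : ℕ) (eps : ℝ) (S R R' : Finset Seg) (x : ℂ) : ℝ :=
  ∑ c ∈ TFf eps R x, (1 + (kn eps S c : ℝ)) * (1 + (kn eps R' c : ℝ)) ^ e

end SFA
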