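import Pool.Agent.Lib.SFA.PEBins

/-!
# SFA.PEB: elementary properties of the expectations `EB`, `EB2`

`EB_mono`, `EB2_mono`, `EB_mul_left`, `EB_add`, `EB_sum`: from the definitions (`Finset.sum_le_sum`
with nonnegative weights, `Finset.mul_sum`, `Finset.sum_comm`).
`EB_one`: `Finset.sum_pow_mul_eq_add_pow p (1-p) S`.
`EB_pow`: induction on `S` (`Finset.induction_on`, `EB_insert`) of the statement
`EB p S (fun R => t ^ (R ∩ X).card) = (1 - p + p * t) ^ (S ∩ X).card`.
`EB_card`: induction on `S` with `EB_insert`, `EB_one` (or `EB_sum`).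
`EB_local`: induction on `S` of `EB p S (fun R => g (R ∩ X)) = EB p (S ∩ X) g` for all `g`: if
`s ∈ X` then `insert s R ∩ X = insert s (R ∩ X)`, use the induction hypothesis for
`g ∘ insert s` and for `g`; if `s ∉ X` then `insert s R ∩ X = R ∩ X`.
`EB_mem`: write `S = insert s (S.erase s)`, `EB_insert`; for `R ⊆ S.erase s` the indicator is
`1` resp. `0`, and `insert s R ∩ X = R ∩ X`, then `EB_local` for `S.erase s` (`X ⊆ S.erase s`).
`EB2_left`: `EB2 a b S (fun Q _ => f Q) = EB a S f`, `EB2_right`: `... (fun _ R => f R) = EB (a+b) S f`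
by induction with `EB2_insert`, `EB_insert`.
`EB2_swap`: `Finset.sum_comm'` and the bijection `R ↔ T = R \ Q` between the `R` with
`Q ⊆ R ⊆ S` and the subsets `T` of `S \ Q`
(`Finset.sum_bij'` or `Finset.sum_nbij'`).
-/

namespace SFA

variable {α : Type} [DecidableEq α]

namespace PEBAux

theorem EB_congr (p : ℝ) {S : Finset α} {f g : Finset α → ℝ} (h : ∀ R ⊆ S, f R = g R) :
    EB p S f = EB p S g := by
  unfold EB
  refine Finset.sum_congr rfl fun R hR => ?_
  rw [h R (Finset.mem_powerset.1 hR)]

theorem EB_zero (p : ℝ) (S : Finset α) : EB p S (fun _ => 0) = 0 := by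
  unfold EB
  exact Finset.sum_eq_zero fun R _ => mul_zero _

end PEBAux

open PEBAux

theorem EB_mono {p : ℝ} (hp : 0 ≤ p) (hp1 : p ≤ 1) {S : Finset α} {f g : Finset α → ℝ}
    (h : ∀ R ⊆ S, f R ≤ g R) : EB p S f ≤ EB p S g := by
  unfold EB
  refine Finset.sum_le_sum fun R hR => ?_
  refine mul_le_mul_of_nonneg_left (h R (Finset.mem_powerset.1 hR)) ?_
  exact mul_nonneg (pow_nonneg hp _) (pow_nonneg (sub_nonneg.2 hp1) _)

theorem EB2_mono {a b : ℝ} (ha : 0 ≤ a) (hb : 0 ≤ b) (hab : a + b ≤ 1) {S : Finset α}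
    {f g : Finset α → Finset α → ℝ} (h : ∀ R ⊆ S, ∀ Q ⊆ R, f Q R ≤ g Q R) :
    EB2 a b S f ≤ EB2 a b S g := by
  unfold EB2
  refine Finset.sum_le_sum fun R hR => Finset.sum_le_sum fun Q hQ => ?_
  refine mul_le_mul_of_nonneg_left
    (h R (Finset.mem_powerset.1 hR) Q (Finset.mem_powerset.1 hQ)) ?_
  exact mul_nonneg (mul_nonneg (pow_nonneg ha _) (pow_nonneg hb _))
    (pow_nonneg (by linarith) _)

theorem EB_mul_left (p : ℝ) (S : Finset α) (c : ℝ) (f : Finset α → ℝ) :
    EB p S (fun R => c * f R) = c * EB p S f := by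
  unfold EB
  rw [Finset.mul_sum]
  refine Finset.sum_congr rfl fun R _ => ?_
  ring

theorem EB_add (p : ℝ) (S : Finset α) (f g : Finset α → ℝ) :
    EB p S (fun R => f R + g R) = EB p S f + EB p S g := by
  unfold EB
  rw [← Finset.sum_add_distrib]
  refine Finset.sum_congr rfl fun R _ => ?_
  ring

theorem EB_sum {ι : Type*} (s : Finset ι) (p : ℝ) (S : Finset α) (f : ι → Finset α → ℝ) :
    EB p S (fun R => ∑ i ∈ s, f i R) = ∑ i ∈ s, EB p S (f i) := by
  unfold EB
  rw [Finset.sum_comm]
  refine Finset.sum_congr rfl fun R _ => ?_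
  rw [Finset.mul_sum]

theorem EB_one (p : ℝ) (S : Finset α) : EB p S (fun _ => 1) = 1 := by
  unfold EB
  simp only [mul_one]
  rw [Finset.sum_pow_mul_eq_add_pow p (1 - p) S, add_sub_cancel, one_pow]

theorem EB_pow (p t : ℝ) (S X : Finset α) :
    EB p S (fun R => t ^ (R ∩ X).card) = (1 - p + p * t) ^ (S ∩ X).card := by
  induction S using Finset.induction_on with
  | empty => rw [EB_empty]; simp
  | insert s S hs ih =>
    rw [EB_insert hs, ih]
    by_cases hX : s ∈ X
    · have h1 : EB p S (fun R => t ^ (insert s R ∩ X).card) =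
          EB p S (fun R => t * t ^ (R ∩ X).card) := by
        refine EB_congr p fun R hR => ?_
        rw [Finset.insert_inter_of_mem hX, Finset.card_insert_of_notMem, pow_succ, mul_comm]
        exact fun h => hs (hR (Finset.mem_inter.1 h).1)
      rw [h1, EB_mul_left, ih, Finset.insert_inter_of_mem hX, Finset.card_insert_of_notMem
        (fun h => hs (Finset.mem_inter.1 h).1), pow_succ]
      ring
    · have h1 : EB p S (fun R => t ^ (insert s R ∩ X).card) =
          EB p S (fun R => t ^ (R ∩ X).card) := by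
        refine EB_congr p fun R hR => ?_
        rw [Finset.insert_inter_of_notMem hX]
      rw [h1, ih, Finset.insert_inter_of_notMem hX]
      ring

theorem EB_card (p : ℝ) (S : Finset α) : EB p S (fun R => (R.card : ℝ)) = p * S.card := by
  induction S using Finset.induction_on with
  | empty => rw [EB_empty]; simp
  | insert s S hs ih =>
    have h1 : EB p S (fun R => ((insert s R).card : ℝ)) =
        EB p S (fun R => (R.card : ℝ) + 1) := by
      refine EB_congr p fun R hR => ?_
      rw [Finset.card_insert_of_notMem fun h => hs (hR h), Nat.cast_add, Nat.cast_one]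
    rw [EB_insert hs, h1, EB_add, EB_one, ih, Finset.card_insert_of_notMem hs, Nat.cast_add,
      Nat.cast_one]
    ring

theorem EB_local (p : ℝ) (S X : Finset α) (g : Finset α → ℝ) :
    EB p S (fun R => g (R ∩ X)) = EB p (S ∩ X) g := by
  induction S using Finset.induction_on generalizing g with
  | empty => rw [EB_empty, Finset.empty_inter, EB_empty]
  | insert s S hs ih =>
    rw [EB_insert hs, ih]
    by_cases hX : s ∈ X
    · rw [Finset.insert_inter_of_mem hX, EB_insert fun h => hs (Finset.mem_inter.1 h).1,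
        ← ih (fun R => g (insert s R))]
      congr 2
      refine EB_congr p fun R hR => ?_
      rw [Finset.insert_inter_of_mem hX]
    · have h1 : EB p S (fun R => g (insert s R ∩ X)) = EB p S (fun R => g (R ∩ X)) := by
        refine EB_congr p fun R hR => ?_
        rw [Finset.insert_inter_of_notMem hX]
      rw [h1, ih, Finset.insert_inter_of_notMem hX]
      ring

theorem EB_mem (p : ℝ) {S X : Finset α} (hX : X ⊆ S) {s : α} (hs : s ∈ S) (hsX : s ∉ X)
    (g : Finset α → ℝ) :
    EB p S (fun R => if s ∈ R then g (R ∩ X) else 0) = p * EB p X g := by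
  have hS : S = insert s (S.erase s) := (Finset.insert_erase hs).symm
  have hn : s ∉ S.erase s := Finset.notMem_erase s S
  rw [hS, EB_insert hn]
  have h1 : EB p (S.erase s) (fun R => if s ∈ insert s R then g (insert s R ∩ X) else 0) =
      EB p (S.erase s) (fun R => g (R ∩ X)) := by
    refine EB_congr p fun R hR => ?_
    rw [if_pos (Finset.mem_insert_self s R), Finset.insert_inter_of_notMem hsX]
  have h2 : EB p (S.erase s) (fun R => if s ∈ R then g (R ∩ X) else 0) = 0 := by
    refine (EB_congr p (g := fun _ => 0) fun R hR => ?_).trans (EB_zero p _)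
    rw [if_neg fun h => hn (hR h)]
  have h3 : S.erase s ∩ X = X := by
    refine Finset.inter_eq_right.2 fun x hx => Finset.mem_erase.2 ⟨?_, hX hx⟩
    rintro rfl
    exact hsX hx
  rw [h1, h2, EB_local, h3]
  ring

theorem EB2_swap (a b : ℝ) (S : Finset α) (f : Finset α → Finset α → ℝ) :
    EB2 a b S f = ∑ Q ∈ S.powerset, ∑ T ∈ (S \ Q).powerset,
      a ^ Q.card * b ^ T.card * (1 - a - b) ^ ((S \ Q).card - T.card) * f Q (Q ∪ T) := by
  unfold EB2
  rw [Finset.sum_sigma', Finset.sum_sigma']
  refine Finset.sum_bij'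
    (i := fun (x : (_ : Finset α) × Finset α) _ => (⟨x.2, x.1 \ x.2⟩ : (_ : Finset α) × Finset α))
    (j := fun (y : (_ : Finset α) × Finset α) _ => (⟨y.1 ∪ y.2, y.1⟩ : (_ : Finset α) × Finset α))
    ?_ ?_ ?_ ?_ ?_
  · rintro ⟨R, Q⟩ h
    simp only [Finset.mem_sigma, Finset.mem_powerset] at h ⊢
    exact ⟨h.2.trans h.1, Finset.sdiff_subset_sdiff h.1 subset_rfl⟩
  · rintro ⟨Q, T⟩ h
    simp only [Finset.mem_sigma, Finset.mem_powerset] at h ⊢
    exact ⟨Finset.union_subset h.1 (h.2.trans Finset.sdiff_subset), Finset.subset_union_left⟩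
  · rintro ⟨R, Q⟩ h
    simp only [Finset.mem_sigma, Finset.mem_powerset] at h
    simp only [Finset.union_sdiff_of_subset h.2]
  · rintro ⟨Q, T⟩ h
    simp only [Finset.mem_sigma, Finset.mem_powerset] at h
    have h1 : (Q ∪ T) \ Q = T := by
      rw [Finset.union_sdiff_left, Finset.sdiff_eq_self_iff_disjoint]
      exact (Finset.disjoint_of_subset_left h.2 Finset.sdiff_disjoint)
    simp only [h1]
  · rintro ⟨R, Q⟩ h
    simp only [Finset.mem_sigma, Finset.mem_powerset] at h
    have h1 : (R \ Q).card = R.card - Q.card := Finset.card_sdiff_of_subset h.2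
    have h2 : (S \ Q).card = S.card - Q.card := Finset.card_sdiff_of_subset (h.2.trans h.1)
    have h3 := Finset.card_le_card h.2
    have h4 := Finset.card_le_card h.1
    have h5 : (S \ Q).card - (R \ Q).card = S.card - R.card := by omega
    simp only [Finset.union_sdiff_of_subset h.2, h5]
    rw [h1]

end SFA
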