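import Pool.Agent.Lib.SFA.PDefs

/-!
# SFA.PEBins: one element at a time

`EB_insert`: `Finset.sum_powerset_insert hs`; `card_insert_of_notMem` for `s` and for subsets `R` of `S`
(`s ∉ R`); exponents: `(S.card + 1) - (R.card + 1)` and `(S.card + 1) - R.card =
(S.card - R.card) + 1` since `R.card ≤ S.card`.
`EB2_insert`: the same for the outer sum; for the sets `insert s R` the inner sum over the subsets
of `insert s R` again by `Finset.sum_powerset_insert` (`s ∉ R`): `Q ⊆ R` gives
`(R.card + 1) - Q.card = (R.card - Q.card) + 1`, `insert s Q` gives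
`(R.card + 1) - (Q.card + 1)`.
`EB_empty`, `EB2_empty`: `simp`.
-/

namespace SFA

variable {α : Type} [DecidableEq α]

theorem EB_empty (p : ℝ) (f : Finset α → ℝ) : EB p ∅ f = f ∅ := by
  simp [EB]

theorem EB2_empty (a b : ℝ) (f : Finset α → Finset α → ℝ) : EB2 a b ∅ f = f ∅ ∅ := by
  simp [EB2]

theorem EB_insert {S : Finset α} {s : α} (hs : s ∉ S) (p : ℝ) (f : Finset α → ℝ) :
    EB p (insert s S) f = p * EB p S (fun R => f (insert s R)) + (1 - p) * EB p S f := by
  unfold EB
  rw [Finset.sum_powerset_insert hs, Finset.mul_sum, Finset.mul_sum, add_comm]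
  congr 1
  · refine Finset.sum_congr rfl fun R hR => ?_
    have hR' : R ⊆ S := Finset.mem_powerset.1 hR
    have hsR : s ∉ R := fun h => hs (hR' h)
    rw [Finset.card_insert_of_notMem hs, Finset.card_insert_of_notMem hsR, Nat.add_sub_add_right,
      pow_succ]
    ring
  · refine Finset.sum_congr rfl fun R hR => ?_
    have hR' : R ⊆ S := Finset.mem_powerset.1 hR
    have hc := Finset.card_le_card hR'
    rw [Finset.card_insert_of_notMem hs, Nat.succ_sub hc, pow_succ]
    ring

theorem EB2_insert {S : Finset α} {s : α} (hs : s ∉ S) (a b : ℝ) (f : Finset α → Finset α → ℝ) :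
    EB2 a b (insert s S) f = a * EB2 a b S (fun Q R => f (insert s Q) (insert s R)) +
      b * EB2 a b S (fun Q R => f Q (insert s R)) + (1 - a - b) * EB2 a b S f := by
  unfold EB2
  rw [Finset.sum_powerset_insert hs, Finset.mul_sum, Finset.mul_sum, Finset.mul_sum,
    ← Finset.sum_add_distrib, ← Finset.sum_add_distrib, ← Finset.sum_add_distrib]
  refine Finset.sum_congr rfl fun R hR => ?_
  have hR' : R ⊆ S := Finset.mem_powerset.1 hR
  have hc := Finset.card_le_card hR'
  have hsR : s ∉ R := fun h => hs (hR' h)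
  rw [Finset.sum_powerset_insert hsR, Finset.mul_sum, Finset.mul_sum, Finset.mul_sum,
    ← Finset.sum_add_distrib, ← Finset.sum_add_distrib, ← Finset.sum_add_distrib,
    ← Finset.sum_add_distrib]
  refine Finset.sum_congr rfl fun Q hQ => ?_
  have hQ' : Q ⊆ R := Finset.mem_powerset.1 hQ
  have hcQ := Finset.card_le_card hQ'
  have hsQ : s ∉ Q := fun h => hsR (hQ' h)
  rw [Finset.card_insert_of_notMem hs, Finset.card_insert_of_notMem hsR,
    Finset.card_insert_of_notMem hsQ, Nat.add_sub_add_right, Nat.add_sub_add_right,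
    Nat.succ_sub hc, Nat.succ_sub hcQ, pow_succ, pow_succ, pow_succ]
  ring

end SFA
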