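import Pool.Agent.Lib.SFA.PAvg

/-!
# SFA.PLev: the law of one level

`avg_lead`: the probability that a word of length `L` has at least `k` leading ones is `1/2^k`:
induction on `L` generalizing `k`; `k = 0`: `avg_const`; `k + 1`: words starting with `false` give
`0`, words starting with `true` give the case `(L, k)`.
`avg_level`: for a word `w` of length `L` let `t` be the number of leading ones, `t ≤ L`
(`List.length_takeWhile_le`).  If `i = 0`: the level `L - t` is `< 0` never, and `< 1` iff
`L ≤ t`.  If `1 ≤ i ≤ L`: `L - t < i` iff `L + 1 - i ≤ t`, and `L - t < i + 1` iff `L - i ≤ t`.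
So the integrand is `z + (y - z) 1[L - i ≤ t] + (x - y) 1[L + 1 - i ≤ t]` (the last term only for
`1 ≤ i`), use `avg_congr`, `avg_fadd`, `avg_mul_left`, `avg_lead` (and
`1 / 2 ^ (L - i) = 2 / 2 ^ (L + 1 - i)`).
-/

namespace SFA

theorem avg_lead (L k : ℕ) (h : k ≤ L) :
    avg L (fun w => if k ≤ (w.takeWhile (fun b => b)).length then 1 else 0) = 1 / 2 ^ k := by
  induction L generalizing k with
  | zero =>
    obtain rfl : k = 0 := Nat.le_zero.1 h
    simp [avg]
  | succ L ih =>
    rcases k with _ | k
    · have h1 : (fun w : List Bool => if 0 ≤ (w.takeWhile (fun b => b)).length then (1 : ℝ) else 0)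
          = fun _ => 1 := by
        funext w
        simp
      rw [h1, avg_const]
      norm_num
    · have h1 : (fun w : List Bool =>
          if k + 1 ≤ ((true :: w).takeWhile (fun b => b)).length then (1 : ℝ) else 0)
          = fun w => if k ≤ (w.takeWhile (fun b => b)).length then (1 : ℝ) else 0 := by
        funext w
        simp
      have h2 : (fun w : List Bool =>
          if k + 1 ≤ ((false :: w).takeWhile (fun b => b)).length then (1 : ℝ) else 0)
          = fun _ => 0 := by
        funext w
        simp
      rw [avg, h1, h2, avg_const, ih k (by omega), pow_succ]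
      ring

theorem avg_level (L i : ℕ) (h : i ≤ L) (x y z : ℝ) :
    avg L (fun w => if L - (w.takeWhile (fun b => b)).length < i then x else
      if L - (w.takeWhile (fun b => b)).length < i + 1 then y else z) =
    pa L i * x + pb L i * y + (1 - pa L i - pb L i) * z := by
  rcases Nat.eq_zero_or_pos i with rfl | hi
  · have h1 : ∀ w : List Bool, w.length = L →
        (if L - (w.takeWhile (fun b => b)).length < 0 then x else
          if L - (w.takeWhile (fun b => b)).length < 0 + 1 then y else z) =
        z + (y - z) * (if L ≤ (w.takeWhile (fun b => b)).length then 1 else 0) := by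
      intro w hw
      rw [if_neg (by omega)]
      by_cases hc : L ≤ (w.takeWhile (fun b => b)).length
      · rw [if_pos (by omega), if_pos hc]
        ring
      · rw [if_neg (by omega), if_neg hc]
        ring
    rw [avg_congr h1, avg_fadd, avg_const, avg_mul_left, avg_lead L L le_rfl]
    simp only [pa, pb, if_true]
    ring
  · have h1 : ∀ w : List Bool, w.length = L →
        (if L - (w.takeWhile (fun b => b)).length < i then x else
          if L - (w.takeWhile (fun b => b)).length < i + 1 then y else z) =
        (z + (y - z) * (if L - i ≤ (w.takeWhile (fun b => b)).length then 1 else 0)) +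
          (x - y) * (if L + 1 - i ≤ (w.takeWhile (fun b => b)).length then 1 else 0) := by
      intro w hw
      by_cases hc : L + 1 - i ≤ (w.takeWhile (fun b => b)).length
      · rw [if_pos (by omega), if_pos (by omega), if_pos hc]
        ring
      · rw [if_neg (by omega), if_neg hc]
        by_cases hd : L - i ≤ (w.takeWhile (fun b => b)).length
        · rw [if_pos (by omega), if_pos hd]
          ring
        · rw [if_neg (by omega), if_neg hd]
          ring
    rw [avg_congr h1, avg_fadd, avg_fadd, avg_const, avg_mul_left, avg_mul_left,
      avg_lead L (L - i) (by omega), avg_lead L (L + 1 - i) (by omega)]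
    have h2 : L + 1 - i = (L - i) + 1 := by omega
    have hi' : i ≠ 0 := by omega
    simp only [pa, pb, hi', if_false]
    rw [h2, pow_succ]
    ring

end SFA
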