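import Pool.Agent.Lib.SFA.PSys
import Pool.Agent.Lib.SFA.FSucc
import Pool.Agent.Lib.SFA.FSuccT
import Pool.Agent.Lib.SFA.FAdj
import Pool.Agent.Lib.SFA.FFirst

/-!
# SFA.PS1: the right neighbours of the pieces, in terms of the new cells

`R = lev S lv i ⊆ R' = lev S lv (i+1) ⊆ S`.
`false_succ`: `IsP.succF` gives `c2`, `d2` with `adj (co j) c2`; `c2` is valid and in the face (`adj_same_face`), so `d2 = pcAt P k` with `co k = c2` (`surj`), `k ∈ ra[j]`, `cn k = cn j` (`IsP.unique`), `trueL` false.  Uniqueness: another `k' ∈ ra[j]`: `adj_false` gives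
`cn k' = cn j`, `(pcAt P k').p = (pcAt P j).q = (pcAt P k).p` (`adjB_iff`), so `uniq_first` gives `co k = co k'` and equal pieces, `k = k'` (`inj`).  `ra[j]` is Nodup with exactly one element.
`true_succ`: `adj_true`.  `true_surj`: `IsP.succT`, `surj` (the old cell `c2` is in the face: equal or adjacent to `co j`).  `true_inj`: both pieces have `trueL`, so `p = (cn k).p` (`p_eq`), `uniq_first`, `inj`.
`first_exists`: `exists_first`, `surj`, `IsP.unique`.  `first_unique`: `p_eq`, `uniq_first`, `inj`.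
-/

namespace SFA

namespace PS1Aux

theorem eq_singleton {l : List ℕ} (hn : l.Nodup) {k : ℕ} (hk : k ∈ l) (h : ∀ k' ∈ l, k' = k) :
    l = [k] := by
  cases l with
  | nil => simp at hk
  | cons a t =>
    have ha : a = k := h a (by simp)
    cases t with
    | nil => rw [ha]
    | cons b t =>
      exfalso
      have hb : b = k := h b (by simp)
      rw [List.nodup_cons] at hn
      apply hn.1
      rw [ha, hb]
      simp

theorem levR (S : Finset Seg) (lv : Seg → ℕ) (i : ℕ) : lev S lv i ⊆ lev S lv (i + 1) :=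
  lev_mono S lv (Nat.le_succ i)

theorem adjB_pq {c d : Cell} (h : adjB c d = true) : d.p = c.q := by
  obtain ⟨v, h1, h2, -⟩ := (adjB_iff c d).1 h
  rw [Option.mem_def] at h1 h2
  rw [h1, h2]

/-- two pieces with the same new cell and the same left wall are equal -/
theorem eq_of_p {eps : ℝ} {S : Finset Seg} {lv : Seg → ℕ} {x : ℂ} {i : ℕ} {P : List Pc}
    {ra : List (List ℕ)} {co cn : ℕ → Cell} (hG : Gen eps S x)
    (h : PSys eps S lv x i P ra co cn) {j k : ℕ} (hj : j < P.length) (hk : k < P.length)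
    (he : cn j = cn k) (hp : (pcAt P j).p = (pcAt P k).p) : j = k := by
  have h1 := h.isP j hj
  have h2 := h.isP k hk
  rw [← he] at h2
  obtain ⟨e1, e2⟩ := IsP.uniq_first hG (levR S lv i) (lev_subset S lv (i + 1)) h1 h2 hp
  exact h.inj j hj k hk e1 e2

end PS1Aux

open PS1Aux

theorem PSys.false_succ {eps : ℝ} {S : Finset Seg} {lv : Seg → ℕ} {x : ℂ} {i : ℕ} {P : List Pc}
    {ra : List (List ℕ)} {co cn : ℕ → Cell} (hG : Gen eps S x)
    (h : PSys eps S lv x i P ra co cn) {j : ℕ} (hj : j < P.length)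
    (hf : trueR (pcAt P j) = false) :
    ∃ k < P.length, ra.getD j [] = [k] ∧ cn k = cn j ∧ trueL (pcAt P k) = false ∧
      (pcAt P k).p = (pcAt P j).q := by
  have hR := levR S lv i
  have hR' := lev_subset S lv (i + 1)
  obtain ⟨c2, d2, ha, hP2, hb, hl, hp⟩ := (h.isP j hj).succF hG hR hR' hf
  have hold := h.old j hj
  have hface : InFace eps (lev S lv i) x c2 :=
    ⟨hP2.vc, adj_same_face (hG.mono (hR.trans hR')) hold.1 hP2.vc (Or.inl ha) hold.2⟩
  obtain ⟨k, hk, hk1, hk2⟩ := h.surj c2 (cn j) d2 hface hP2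
  have hcn : cn k = cn j := by
    have h1 := h.isP k hk
    rw [hk1, hk2] at h1
    exact IsP.unique hG hR hR' h1 hP2
  have hmem : k ∈ ra.getD j [] := by
    rw [h.raM j hj]
    refine ⟨hk, Or.inr ?_, ?_⟩
    · rw [hk1]; exact ha
    · rw [hk2]; exact hb
  refine ⟨k, hk, ?_, hcn, ?_, ?_⟩
  · refine eq_singleton (h.raNd j hj) hmem ?_
    intro k' hk'
    obtain ⟨g1, g2, g3⟩ := (h.raM j hj k').1 hk'
    obtain ⟨e1, e2⟩ := (h.isP j hj).adj_false hG hR hR' (h.isP k' g1) g3 hf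
    refine eq_of_p hG h g1 hk (by rw [hcn, e1]) ?_
    rw [adjB_pq g3, hk2, hp]
  · rw [hk2]; exact hl
  · rw [hk2]; exact hp

theorem PSys.true_succ {eps : ℝ} {S : Finset Seg} {lv : Seg → ℕ} {x : ℂ} {i : ℕ} {P : List Pc}
    {ra : List (List ℕ)} {co cn : ℕ → Cell} (hG : Gen eps S x)
    (h : PSys eps S lv x i P ra co cn) {j : ℕ} (hj : j < P.length)
    (ht' : trueR (pcAt P j) = true) {k : ℕ} (hk : k ∈ ra.getD j []) :
    k < P.length ∧ adj (cn j) (cn k) ∧ trueL (pcAt P k) = true := by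
  obtain ⟨g1, g2, g3⟩ := (h.raM j hj k).1 hk
  obtain ⟨e1, e2⟩ := (h.isP j hj).adj_true hG (levR S lv i) (lev_subset S lv (i + 1))
    (h.isP k g1) g3 ht'
  exact ⟨g1, e1, e2⟩

theorem PSys.true_surj {eps : ℝ} {S : Finset Seg} {lv : Seg → ℕ} {x : ℂ} {i : ℕ} {P : List Pc}
    {ra : List (List ℕ)} {co cn : ℕ → Cell} (hG : Gen eps S x)
    (h : PSys eps S lv x i P ra co cn) {j : ℕ} (hj : j < P.length)
    (ht' : trueR (pcAt P j) = true) {c' : Cell} (hc' : Valid eps (lev S lv (i + 1)) c')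
    (ha : adj (cn j) c') : ∃ k ∈ ra.getD j [], cn k = c' := by
  have hR := levR S lv i
  have hR' := lev_subset S lv (i + 1)
  obtain ⟨c2, d2, ho, hP2, hb, hl⟩ := (h.isP j hj).succT hG hR hR' ht' hc' ha
  have hold := h.old j hj
  have hface : InFace eps (lev S lv i) x c2 := by
    rcases ho with rfl | ho
    · exact hold
    · exact ⟨hP2.vc, adj_same_face (hG.mono (hR.trans hR')) hold.1 hP2.vc (Or.inl ho) hold.2⟩
  obtain ⟨k, hk, hk1, hk2⟩ := h.surj c2 c' d2 hface hP2
  refine ⟨k, ?_, ?_⟩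
  · rw [h.raM j hj]
    refine ⟨hk, ?_, ?_⟩
    · rw [hk1]; exact ho
    · rw [hk2]; exact hb
  · have h1 := h.isP k hk
    rw [hk1, hk2] at h1
    exact IsP.unique hG hR hR' h1 hP2

theorem PSys.true_inj {eps : ℝ} {S : Finset Seg} {lv : Seg → ℕ} {x : ℂ} {i : ℕ} {P : List Pc}
    {ra : List (List ℕ)} {co cn : ℕ → Cell} (hG : Gen eps S x)
    (h : PSys eps S lv x i P ra co cn) {j : ℕ} (hj : j < P.length)
    (ht' : trueR (pcAt P j) = true) {k k' : ℕ} (hk : k ∈ ra.getD j []) (hk' : k' ∈ ra.getD j [])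
    (he : cn k = cn k') : k = k' := by
  have hR := levR S lv i
  have hR' := lev_subset S lv (i + 1)
  obtain ⟨g1, g2, g3⟩ := (h.raM j hj k).1 hk
  obtain ⟨g1', g2', g3'⟩ := (h.raM j hj k').1 hk'
  refine eq_of_p hG h g1 g1' he ?_
  rw [adjB_pq g3, adjB_pq g3']

theorem PSys.first_exists {eps : ℝ} {S : Finset Seg} {lv : Seg → ℕ} {x : ℂ} {i : ℕ}
    {P : List Pc} {ra : List (List ℕ)} {co cn : ℕ → Cell} (hG : Gen eps S x)
    (h : PSys eps S lv x i P ra co cn) {c' : Cell} (hc' : InFace eps (lev S lv (i + 1)) x c') :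
    ∃ j < P.length, trueL (pcAt P j) = true ∧ cn j = c' := by
  have hR := levR S lv i
  have hR' := lev_subset S lv (i + 1)
  obtain ⟨c, d, hf, hP, hl⟩ := exists_first hG hR hR' hc'
  obtain ⟨j, hj, hj1, hj2⟩ := h.surj c c' d hf hP
  refine ⟨j, hj, ?_, ?_⟩
  · rw [hj2]; exact hl
  · have h1 := h.isP j hj
    rw [hj1, hj2] at h1
    exact IsP.unique hG hR hR' h1 hP

theorem PSys.first_unique {eps : ℝ} {S : Finset Seg} {lv : Seg → ℕ} {x : ℂ} {i : ℕ}
    {P : List Pc} {ra : List (List ℕ)} {co cn : ℕ → Cell} (hG : Gen eps S x)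
    (h : PSys eps S lv x i P ra co cn) {j k : ℕ} (hj : j < P.length) (hk : k < P.length)
    (hj' : trueL (pcAt P j) = true) (hk' : trueL (pcAt P k) = true) (he : cn j = cn k) :
    j = k := by
  have hR := levR S lv i
  have hR' := lev_subset S lv (i + 1)
  refine eq_of_p hG h hj hk he ?_
  rw [((h.isP j hj).p_eq hG hR hR').1 hj', ((h.isP k hk).p_eq hG hR hR').1 hk', he]

end SFA
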