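import Pool.Agent.Lib.SFA.PS3
import Pool.Agent.Lib.SFA.ScatL
import Pool.Agent.Lib.SFA.Comp

/-!
# SFA.PS2: the visited pieces are the pieces of the new cells in the face

`root_spec`: `exists_root_piece` and `surj` give an index whose piece contains `x`; `regB_iff` (walls of pieces are critical for `S`); `List.findIdx_lt_length`, `List.findIdx_getElem`.  The piece of the root contains `x`; its region is `reg (co) ∩ reg (cn)` (`reg_eq`), so `cn root` is in the face (`reg_subset_face`).
`vis_spec` (⇒): induction on `ReflTransGen`: an edge of `undL ra` (`mem_undL`) is `b ∈ ra[a]` or `a ∈ ra[b]`; if `trueR` of the left piece is false the two pieces have the same new cell (`false_succ`), otherwise adjacent new cells (`true_succ`, `adj_same_face`).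
(⇐): `comp` for `lev S lv (i+1)` and `c0 = cn root`: induction along the path of valid cells: all pieces of the new cell `c'` are reachable.  Step: `c'`, `c''` neighbours, both in the face.  Let `j` be the last piece of the left one of them (`first_exists`, `to_last`), `true_surj`: `k ∈ ra[j]` is a piece of the right one.  All pieces of one new cell are
connected: each with a last piece (`to_last`), `last_unique`.  The graph is symmetric (`mem_undL`).
-/

namespace SFA

namespace PS2Aux

theorem maxP_mem {eps : ℝ} {u w : Option ℂ} {v : ℂ} (h : v ∈ maxP eps u w) : v ∈ u ∨ v ∈ w := by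
  unfold maxP at h
  rcases u with _ | a
  · exact Or.inr h
  · rcases w with _ | b
    · exact Or.inl h
    · have h' : v ∈ (if X eps a < X eps b then some b else some a) := h
      split_ifs at h'
      · exact Or.inr h'
      · exact Or.inl h'

theorem minQ_mem {eps : ℝ} {u w : Option ℂ} {v : ℂ} (h : v ∈ minQ eps u w) : v ∈ u ∨ v ∈ w := by
  unfold minQ at h
  rcases u with _ | a
  · exact Or.inr h
  · rcases w with _ | b
    · exact Or.inl h
    · have h' : v ∈ (if X eps b < X eps a then some b else some a) := h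
      split_ifs at h'
      · exact Or.inr h'
      · exact Or.inl h'

theorem isP_pC {eps : ℝ} {S R R' : Finset Seg} (hR : R ⊆ R') (hR' : R' ⊆ S) {c c' d : Cell}
    (h : IsP eps R R' c c' d) : ∀ p ∈ d.p, IsCrit S p := by
  intro p hp
  rw [h.eq] at hp
  rcases maxP_mem (show p ∈ maxP eps c.p c'.p from hp) with h1 | h1
  · exact ((h.vc.defd.pC p h1).mono hR).mono hR'
  · exact (h.vc'.defd.pC p h1).mono hR'

theorem isP_qC {eps : ℝ} {S R R' : Finset Seg} (hR : R ⊆ R') (hR' : R' ⊆ S) {c c' d : Cell}
    (h : IsP eps R R' c c' d) : ∀ q ∈ d.q, IsCrit S q := by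
  intro q hq
  rw [h.eq] at hq
  rcases minQ_mem (show q ∈ minQ eps c.q c'.q from hq) with h1 | h1
  · exact ((h.vc.defd.qC q h1).mono hR).mono hR'
  · exact (h.vc'.defd.qC q h1).mono hR'

/-- the relation of the search -/
def Und (ra : List (List ℕ)) (a b : ℕ) : Prop := b ∈ (undL ra).getD a []

theorem und_iff {ra : List (List ℕ)} {a b : ℕ} :
    Und ra a b ↔ a < ra.length ∧ (b ∈ ra.getD a [] ∨ (b < ra.length ∧ a ∈ ra.getD b [])) := by
  unfold Und
  by_cases ha : a < ra.length
  · rw [mem_undL ha]
    exact ⟨fun h => ⟨ha, h⟩, fun h => h.2⟩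
  · constructor
    · intro h
      rw [List.getD_eq_default _ _ (by rw [undL_length]; omega)] at h
      exact absurd h (List.not_mem_nil)
    · exact fun h => absurd h.1 ha

end PS2Aux

open PS2Aux

theorem PSys.root_spec {eps : ℝ} {S : Finset Seg} {lv : Seg → ℕ} {x : ℂ} {i : ℕ} {P : List Pc}
    {ra : List (List ℕ)} {co cn : ℕ → Cell} (hG : Gen eps S x) (hL : LexOK eps S x)
    (h : PSys eps S lv x i P ra co cn) :
    P.findIdx (fun d => regB d.1 x) < P.length ∧
      x ∈ reg eps (cn (P.findIdx (fun d => regB d.1 x))) ∧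
      InFace eps (lev S lv (i + 1)) x (cn (P.findIdx (fun d => regB d.1 x))) := by
  have hR : lev S lv i ⊆ lev S lv (i + 1) := lev_mono S lv (Nat.le_succ i)
  have hR' : lev S lv (i + 1) ⊆ S := lev_subset S lv (i + 1)
  have hreg : ∀ j < P.length, (regB (pcAt P j) x = true ↔ x ∈ reg eps (pcAt P j)) := by
    intro j hj
    have hP := h.isP j hj
    exact regB_iff hL (isP_pC hR hR' hP) (isP_qC hR hR' hP) (Or.inr rfl)
  have hget : ∀ j (hj : j < P.length), P[j].1 = pcAt P j := by
    intro j hj
    unfold pcAt
    rw [List.getD_eq_getElem _ _ hj]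
  obtain ⟨c, c', d, hc, -, hP, hx⟩ := exists_root_piece hG hR hR'
  obtain ⟨j, hj, -, hjd⟩ := h.surj c c' d hc hP
  have hlt : P.findIdx (fun d => regB d.1 x) < P.length := by
    apply List.findIdx_lt_length_of_exists
    refine ⟨P[j], List.getElem_mem _, ?_⟩
    show regB P[j].1 x = true
    rw [hget j hj, hreg j hj, hjd]
    exact hx
  have hk := @List.findIdx_getElem _ (fun d : Pc => regB d.1 x) P hlt
  have hk' : x ∈ reg eps (pcAt P (P.findIdx (fun d => regB d.1 x))) := by
    rw [← hreg _ hlt, ← hget _ hlt]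
    exact hk
  have hPk := h.isP _ hlt
  rw [hPk.reg_eq hG hR hR'] at hk'
  have hG' : Gen eps (lev S lv (i + 1)) x := hG.mono hR'
  exact ⟨hlt, hk'.2, hPk.vc', reg_subset_face hG' hPk.vc' hk'.2
    (mem_connectedComponentIn hG'.xfree)⟩

namespace PS2Aux

variable {eps : ℝ} {S : Finset Seg} {lv : Seg → ℕ} {x : ℂ} {i : ℕ} {P : List Pc}
    {ra : List (List ℕ)} {co cn : ℕ → Cell}

theorem edge (hG : Gen eps S x) (h : PSys eps S lv x i P ra co cn) {j k : ℕ}
    (hj : j < P.length) (hk : k ∈ ra.getD j []) :
    k < P.length ∧ (cn k = cn j ∨ adj (cn j) (cn k)) := by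
  cases ht' : trueR (pcAt P j) with
  | false =>
    obtain ⟨k', hk', e1, e2, -, -⟩ := h.false_succ hG hj ht'
    rw [e1, List.mem_singleton] at hk
    subst hk
    exact ⟨hk', Or.inl e2⟩
  | true =>
    obtain ⟨h1, h2, -⟩ := h.true_succ hG hj ht' hk
    exact ⟨h1, Or.inr h2⟩

theorem und_symm (h : PSys eps S lv x i P ra co cn) {a b : ℕ} (hab : Und ra a b) :
    Und ra b a := by
  rw [und_iff] at hab ⊢
  obtain ⟨ha, hab | ⟨hb, hab⟩⟩ := hab
  · have hb : b < P.length := ((h.raM a (by rw [← h.len]; exact ha) b).1 hab).1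
    rw [← h.len] at hb
    exact ⟨hb, Or.inr ⟨ha, hab⟩⟩
  · exact ⟨hb, Or.inl hab⟩

theorem reach_symm (h : PSys eps S lv x i P ra co cn) {a b : ℕ}
    (hab : Relation.ReflTransGen (Und ra) a b) : Relation.ReflTransGen (Und ra) b a := by
  induction hab with
  | refl => exact Relation.ReflTransGen.refl
  | tail _ hst ih => exact Relation.ReflTransGen.head (und_symm h hst) ih

theorem und_of_mem (h : PSys eps S lv x i P ra co cn) {a b : ℕ} (ha : a < P.length)
    (hb : b ∈ ra.getD a []) : Und ra a b := by
  rw [und_iff]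
  exact ⟨by rw [h.len]; exact ha, Or.inl hb⟩

theorem conn (hG : Gen eps S x) (h : PSys eps S lv x i P ra co cn) {j k : ℕ}
    (hj : j < P.length) (hk : k < P.length) (he : cn j = cn k) :
    Relation.ReflTransGen (Und ra) j k := by
  obtain ⟨j1, hj1, ej, tj, rj⟩ := h.to_last hG hj
  obtain ⟨k1, hk1, ek, tk, rk⟩ := h.to_last hG hk
  have : j1 = k1 := h.last_unique hG hj1 hk1 tj tk (by rw [ej, ek, he])
  subst this
  have up : ∀ {a b : ℕ}, Relation.ReflTransGen (fun b c => b < P.length ∧ c ∈ ra.getD b []) a b →
      Relation.ReflTransGen (Und ra) a b := by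
    intro a b hab
    induction hab with
    | refl => exact Relation.ReflTransGen.refl
    | tail _ huv ih => exact ih.tail (und_of_mem h huv.1 huv.2)
  exact (up rj).trans (reach_symm h (up rk))

end PS2Aux

theorem PSys.vis_spec {eps : ℝ} {S : Finset Seg} {lv : Seg → ℕ} {x : ℂ} {i : ℕ} {P : List Pc}
    {ra : List (List ℕ)} {co cn : ℕ → Cell} (hG : Gen eps S x) (hL : LexOK eps S x)
    (h : PSys eps S lv x i P ra co cn) {k : ℕ} (hk : k < P.length) :
    (visL x P ra).getD k false = true ↔ InFace eps (lev S lv (i + 1)) x (cn k) := by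
  have hR' : lev S lv (i + 1) ⊆ S := lev_subset S lv (i + 1)
  have hG' : Gen eps (lev S lv (i + 1)) x := hG.mono hR'
  obtain ⟨hr, hrx, hrf⟩ := h.root_spec hG hL
  unfold visL
  rw [reachB_getD (by rw [undL_length, h.len]; exact hk)]
  generalize P.findIdx (fun d => regB d.1 x) = r at hr hrx hrf ⊢
  change Relation.ReflTransGen (Und ra) r k ↔ _
  constructor
  · intro hrk
    have key : k < P.length ∧ InFace eps (lev S lv (i + 1)) x (cn k) := by
      clear hk
      induction hrk with
      | refl => exact ⟨hr, hrf⟩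
      | @tail a b _ hst ih =>
        obtain ⟨ha, hfa⟩ := ih
        rw [und_iff] at hst
        obtain ⟨-, hst | ⟨hb, hst⟩⟩ := hst
        · obtain ⟨hb, he⟩ := edge hG h ha hst
          refine ⟨hb, ?_⟩
          rcases he with he | he
          · rw [he]; exact hfa
          · exact ⟨(h.isP b hb).vc',
              adj_same_face hG' hfa.1 (h.isP b hb).vc' (Or.inl he) hfa.2⟩
        · rw [h.len] at hb
          obtain ⟨-, he⟩ := edge hG h hb hst
          refine ⟨hb, ?_⟩
          rcases he with he | he
          · rw [← he]; exact hfa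
          · exact ⟨(h.isP b hb).vc',
              adj_same_face hG' hfa.1 (h.isP b hb).vc' (Or.inr he) hfa.2⟩
    exact key.2
  · intro hf
    have hcomp := fun c => comp hG' hrf.1 hrx c
    have key : ∀ c, Relation.ReflTransGen
        (fun a a' => Valid eps (lev S lv (i + 1)) a' ∧ nbr a a') (cn r) c →
        ∀ k < P.length, cn k = c → Relation.ReflTransGen (Und ra) r k := by
      intro c hc
      induction hc with
      | refl => exact fun k hk he => conn hG h hr hk he.symm
      | @tail c' c'' hpath hst ih =>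
        intro k hk he
        have hf' : InFace eps (lev S lv (i + 1)) x c' := (hcomp c').2 hpath
        have hf'' : InFace eps (lev S lv (i + 1)) x c'' := (hcomp c'').2 (hpath.tail hst)
        rcases hst.2 with ha | ha
        · obtain ⟨j0, hj0, -, e0⟩ := h.first_exists hG hf'
          obtain ⟨j, hj, ej, tj, -⟩ := h.to_last hG hj0
          rw [e0] at ej
          obtain ⟨k0, hk0, e1⟩ := h.true_surj hG hj tj hf''.1 (by rw [ej]; exact ha)
          have hk0' : k0 < P.length := (edge hG h hj hk0).1
          exact ((ih j hj ej).tail (und_of_mem h hj hk0)).trans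
            (conn hG h hk0' hk (by rw [e1, he]))
        · obtain ⟨j0, hj0, -, e0⟩ := h.first_exists hG hf''
          obtain ⟨j, hj, ej, tj, -⟩ := h.to_last hG hj0
          rw [e0] at ej
          obtain ⟨k0, hk0, e1⟩ := h.true_surj hG hj tj hf'.1 (by rw [ej]; exact ha)
          have hk0' : k0 < P.length := (edge hG h hj hk0).1
          exact ((ih k0 hk0' e1).tail (und_symm h (und_of_mem h hj hk0))).trans
            (conn hG h hj hk (by rw [ej, he]))
    exact key (cn k) ((hcomp (cn k)).1 hf) k hk rfl

end SFA
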