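import Pool.Agent.Lib.SFA.PS1
import Pool.Agent.Lib.SFA.PathL
import Pool.Agent.Lib.SFA.FLast
import Pool.Agent.Lib.SFA.ChainG

/-!
# SFA.PS3: the chain starting at a piece

`nxtL_getD`: for `a < P.length = ra.length`: unfold `nxtL` (`List.getD`, `zip`).
`chain_spec`: apply `walkN_spec` with `D = {b | b < P.length ∧ cn b = cn a}` and `μ b = (pcAt P b).p` read in `WithBot ℝ` (`none ↦ ⊥`, `some p ↦ X eps p`): for `b ∈ D` with `nxtL[b] = some k`: `trueR` is false, `false_succ` gives `cn k = cn b` and `(pcAt P k).p = (pcAt P b).q = some q` (`IsP.falseR`), and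
`μ b < X q` by `IsP.p_lt_q`.  The last element has `nxtL = none`, so `trueR` (if `trueR` were false `ra` would be `[k]` and `nxtL = some k`).
`to_last`: the last element of the chain; consecutive elements `b, c` satisfy `ra[b] = [c]`; `List.IsChain` gives `ReflTransGen` (`List.relationReflTransGen_of_exists_isChain` or induction).
`pchain`: `PChain` for the list of the pieces of the chain: `isP` from `PSys.isP`; `head`: `walkN_headD` and `p_eq`; `last`: `q_eq`.
-/

namespace SFA

namespace PS3Aux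

theorem headD_of_ne {l : List ℕ} (h : l ≠ []) : ∃ t, l = l.headD 0 :: t := by
  cases l with
  | nil => exact absurd rfl h
  | cons a t => exact ⟨t, rfl⟩

theorem getLastD_mem {l : List ℕ} (h : l ≠ []) : l.getLastD 0 ∈ l := by
  cases l with
  | nil => exact absurd rfl h
  | cons a l =>
    rw [List.getLastD_eq_getLast?, List.getLast?_eq_some_getLast (List.cons_ne_nil a l)]
    exact List.getLast_mem _

theorem reach_last {R : ℕ → ℕ → Prop} : ∀ l : List ℕ, l ≠ [] → l.IsChain R →
    Relation.ReflTransGen R (l.headD 0) (l.getLastD 0)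
  | [], h, _ => absurd rfl h
  | [a], _, _ => Relation.ReflTransGen.refl
  | a :: b :: l, _, hc => by
    rw [List.isChain_cons_cons] at hc
    have h1 := reach_last (b :: l) (List.cons_ne_nil _ _) hc.2
    have h2 : (a :: b :: l).getLastD 0 = (b :: l).getLastD 0 := by simp
    rw [h2]
    exact Relation.ReflTransGen.head hc.1 h1

theorem map_headD {l : List ℕ} (h : l ≠ []) (f : ℕ → Pc) :
    (l.map f).headD pc0 = f (l.headD 0) := by
  cases l with
  | nil => exact absurd rfl h
  | cons a t => rfl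

theorem map_getLastD {l : List ℕ} (h : l ≠ []) (f : ℕ → Pc) :
    (l.map f).getLastD pc0 = f (l.getLastD 0) := by
  have h' : l.map f ≠ [] := by simpa using h
  rw [List.getLastD_eq_getLast?, List.getLastD_eq_getLast?,
    List.getLast?_eq_some_getLast h, List.getLast?_eq_some_getLast h']
  simp [List.getLast_map]

/-- the abscissa of the left wall -/
noncomputable def mu (eps : ℝ) (P : List Pc) (b : ℕ) : WithBot ℝ :=
  (pcAt P b).p.elim ⊥ (fun p => ((X eps p : ℝ) : WithBot ℝ))

end PS3Aux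

open PS3Aux

theorem nxtL_getD {P : List Pc} {ra : List (List ℕ)} (hl : ra.length = P.length) {a : ℕ}
    (ha : a < P.length) :
    (nxtL P ra).getD a none = if trueR (pcAt P a) then none else (ra.getD a []).head? := by
  have ha2 : a < ra.length := by omega
  have e : (P.zip ra)[a]? = some (P[a], ra[a]) := by
    rw [List.getElem?_eq_getElem (by rw [List.length_zip]; omega), List.getElem_zip]
  unfold nxtL pcAt
  rw [List.getD_eq_getElem?_getD, List.getElem?_map, e, List.getD_eq_getElem _ _ ha,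
    List.getD_eq_getElem _ _ ha2]
  rfl

theorem nxtL_length {P : List Pc} {ra : List (List ℕ)} (hl : ra.length = P.length) :
    (nxtL P ra).length = P.length := by
  unfold nxtL
  rw [List.length_map, List.length_zip]
  omega

/-- the chain from `a` -/
noncomputable def chn (P : List Pc) (ra : List (List ℕ)) (a : ℕ) : List ℕ :=
  walkN (nxtL P ra) (nxtL P ra).length a

namespace PS3Aux

/-- one step -/
theorem step {eps : ℝ} {S : Finset Seg} {lv : Seg → ℕ} {x : ℂ} {i : ℕ} {P : List Pc}
    {ra : List (List ℕ)} {co cn : ℕ → Cell} (hG : Gen eps S x)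
    (h : PSys eps S lv x i P ra co cn) {b k : ℕ} (hb : b < P.length)
    (hk : (nxtL P ra).getD b none = some k) :
    trueR (pcAt P b) = false ∧ ra.getD b [] = [k] ∧ k < P.length ∧ cn k = cn b ∧
      (pcAt P b).q = (pcAt P k).p := by
  rw [nxtL_getD h.len hb] at hk
  cases ht' : trueR (pcAt P b) with
  | true =>
    rw [ht'] at hk
    simp at hk
  | false =>
    rw [ht'] at hk
    obtain ⟨k', hk', hra, hcn, -, hp⟩ := h.false_succ hG hb ht'
    rw [hra] at hk
    simp at hk
    subst hk
    exact ⟨rfl, hra, hk', hcn, hp.symm⟩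

theorem stop {eps : ℝ} {S : Finset Seg} {lv : Seg → ℕ} {x : ℂ} {i : ℕ} {P : List Pc}
    {ra : List (List ℕ)} {co cn : ℕ → Cell} (hG : Gen eps S x)
    (h : PSys eps S lv x i P ra co cn) {b : ℕ} (hb : b < P.length)
    (hk : (nxtL P ra).getD b none = none) : trueR (pcAt P b) = true := by
  rw [nxtL_getD h.len hb] at hk
  cases ht' : trueR (pcAt P b) with
  | true => rfl
  | false =>
    rw [ht'] at hk
    obtain ⟨k', hk', hra, hcn, -, hp⟩ := h.false_succ hG hb ht'
    rw [hra] at hk
    simp at hk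

theorem mu_lt {eps : ℝ} {S : Finset Seg} {lv : Seg → ℕ} {x : ℂ} {i : ℕ} {P : List Pc}
    {ra : List (List ℕ)} {co cn : ℕ → Cell} (hG : Gen eps S x)
    (h : PSys eps S lv x i P ra co cn) {b k : ℕ} (hb : b < P.length)
    (ht' : trueR (pcAt P b) = false) (hp : (pcAt P b).q = (pcAt P k).p) :
    mu eps P b < mu eps P k := by
  obtain ⟨v, hv⟩ := ChainGAux.q_of_false ht'
  have hv2 : (pcAt P k).p = some v := hp.symm.trans (Option.mem_def.1 hv)
  unfold mu
  rw [hv2]
  cases hb' : (pcAt P b).p with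
  | none => exact WithBot.bot_lt_coe _
  | some p =>
    simp only [Option.elim]
    exact WithBot.coe_lt_coe.2 ((h.isP b hb).p_lt_q hG (lev_mono S lv (Nat.le_succ i))
      (lev_subset S lv (i + 1)) p hb' v hv)

end PS3Aux

theorem PSys.chain_spec {eps : ℝ} {S : Finset Seg} {lv : Seg → ℕ} {x : ℂ} {i : ℕ} {P : List Pc}
    {ra : List (List ℕ)} {co cn : ℕ → Cell} (hG : Gen eps S x)
    (h : PSys eps S lv x i P ra co cn) {a : ℕ} (ha : a < P.length) :
    (chn P ra a).Nodup ∧ (∀ b ∈ chn P ra a, b < P.length ∧ cn b = cn a) ∧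
      (chn P ra a).IsChain (fun b c => trueR (pcAt P b) = false ∧ ra.getD b [] = [c] ∧
        (pcAt P b).q = (pcAt P c).p) ∧
      trueR (pcAt P ((chn P ra a).getLastD 0)) = true ∧
      (nxtL P ra).getD ((chn P ra a).getLastD 0) none = none := by
  obtain ⟨h1, h2, h3, h4⟩ := walkN_spec (nxtL P ra) (mu eps P)
    {b | b < P.length ∧ cn b = cn a} (fun b hb => by rw [nxtL_length h.len]; exact hb.1)
    (fun b hb k hk => by
      obtain ⟨g1, g2, g3, g4, g5⟩ := step hG h hb.1 (Option.mem_def.1 hk)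
      exact ⟨⟨g3, g4.trans hb.2⟩, mu_lt hG h hb.1 g1 g5⟩) (a := a) ⟨ha, rfl⟩
  have hlast : (chn P ra a).getLastD 0 ∈ chn P ra a := getLastD_mem walkN_ne
  refine ⟨h1, h2, ?_, stop hG h (h2 _ hlast).1 h4, h4⟩
  refine List.IsChain.imp_of_mem_imp ?_ h3
  intro b c hb hc hbc
  obtain ⟨g1, g2, g3, g4, g5⟩ := step hG h (h2 b hb).1 hbc
  exact ⟨g1, g2, g5⟩

/-- Every piece is connected with the last piece of its new cell. -/
theorem PSys.to_last {eps : ℝ} {S : Finset Seg} {lv : Seg → ℕ} {x : ℂ} {i : ℕ} {P : List Pc}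
    {ra : List (List ℕ)} {co cn : ℕ → Cell} (hG : Gen eps S x)
    (h : PSys eps S lv x i P ra co cn) {a : ℕ} (ha : a < P.length) :
    ∃ k < P.length, cn k = cn a ∧ trueR (pcAt P k) = true ∧
      Relation.ReflTransGen (fun b c => b < P.length ∧ c ∈ ra.getD b []) a k := by
  obtain ⟨-, h2, h3, h4, -⟩ := h.chain_spec hG ha
  have hne : chn P ra a ≠ [] := walkN_ne
  have hlast : (chn P ra a).getLastD 0 ∈ chn P ra a := getLastD_mem hne
  have hhead : (chn P ra a).headD 0 = a := walkN_headD
  refine ⟨(chn P ra a).getLastD 0, (h2 _ hlast).1, (h2 _ hlast).2, h4, ?_⟩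
  have h5 : (chn P ra a).IsChain (fun b c => b < P.length ∧ c ∈ ra.getD b []) := by
    refine List.IsChain.imp_of_mem_imp ?_ h3
    intro b c hb hc hbc
    refine ⟨(h2 b hb).1, ?_⟩
    rw [hbc.2.1]
    simp
  have h6 := reach_last _ hne h5
  rw [hhead] at h6
  exact h6

theorem PSys.last_unique {eps : ℝ} {S : Finset Seg} {lv : Seg → ℕ} {x : ℂ} {i : ℕ}
    {P : List Pc} {ra : List (List ℕ)} {co cn : ℕ → Cell} (hG : Gen eps S x)
    (h : PSys eps S lv x i P ra co cn) {j k : ℕ} (hj : j < P.length) (hk : k < P.length)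
    (hj' : trueR (pcAt P j) = true) (hk' : trueR (pcAt P k) = true) (he : cn j = cn k) :
    j = k := by
  have hR := lev_mono S lv (Nat.le_succ i)
  have hR' := lev_subset S lv (i + 1)
  have e1 := ((h.isP j hj).q_eq hG hR hR').1 hj'
  have e2 := ((h.isP k hk).q_eq hG hR hR').1 hk'
  have h2 := h.isP k hk
  rw [← he] at h2
  obtain ⟨g1, g2⟩ := (h.isP j hj).uniq_last hG hR hR' h2 (by rw [e1, e2, he])
  exact h.inj j hj k hk g1 g2

theorem PSys.pchain {eps : ℝ} {S : Finset Seg} {lv : Seg → ℕ} {x : ℂ} {i : ℕ} {P : List Pc}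
    {ra : List (List ℕ)} {co cn : ℕ → Cell} (hG : Gen eps S x)
    (h : PSys eps S lv x i P ra co cn) {a : ℕ} (ha : a < P.length)
    (ha' : trueL (pcAt P a) = true) :
    PChain eps (lev S lv i) (lev S lv (i + 1)) (cn a)
      ((chn P ra a).map (fun j => P.getD j pc0)) := by
  have hR := lev_mono S lv (Nat.le_succ i)
  have hR' := lev_subset S lv (i + 1)
  obtain ⟨-, h2, h3, h4, -⟩ := h.chain_spec hG ha
  have hne : chn P ra a ≠ [] := walkN_ne
  have hlast : (chn P ra a).getLastD 0 ∈ chn P ra a := getLastD_mem hne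
  have hhead : (chn P ra a).headD 0 = a := walkN_headD
  refine ⟨by simpa using hne, ?_, ?_, ?_, ?_⟩
  · intro e he
    obtain ⟨j, hj, rfl⟩ := List.mem_map.1 he
    have h5 := h.isP j (h2 j hj).1
    rw [(h2 j hj).2] at h5
    exact ⟨co j, h5⟩
  · rw [map_headD hne, hhead]
    exact ((h.isP a ha).p_eq hG hR hR').1 ha'
  · rw [map_getLastD hne]
    have h5 := ((h.isP _ (h2 _ hlast).1).q_eq hG hR hR').1 h4
    rw [(h2 _ hlast).2] at h5
    exact h5
  · rw [List.isChain_map]
    exact h3.imp (fun b c hbc => ⟨hbc.2.2, hbc.1⟩)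

end SFA
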