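import Pool.Agent.Lib.SFA.PS2
import Pool.Agent.Lib.SFA.MergeK

/-!
# SFA.PS4: the starting pieces, the chains, the new list

`mem_startL`: unfold (`zip`, `zipIdx`, `filter`): `a ∈ startL ↔ a < P.length ∧ vis[a] ∧ trueL`; with `vis_spec`.
`chL_eq`: `pathsM_eq`: the flattened list of all chains is Nodup (each is Nodup by `chain_spec`; chains of different starts `a ≠ b` are disjoint: a common element `j` has `cn j = cn a = cn b`, so `a = b` by `first_unique`), all entries are `< P.length = nxtL.length`, so its length is `≤ nxtL.length`.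
`finishR_eq`: unfold `finishR`, `nbsL`, `gather`, `gather2`; `zip` of two maps of the same list is a map.
-/

namespace SFA

theorem PSys.mem_startL {eps : ℝ} {S : Finset Seg} {lv : Seg → ℕ} {x : ℂ} {i : ℕ} {P : List Pc}
    {ra : List (List ℕ)} {co cn : ℕ → Cell} (hG : Gen eps S x) (hL : LexOK eps S x)
    (h : PSys eps S lv x i P ra co cn) (a : ℕ) :
    a ∈ startL x P ra ↔ a < P.length ∧ InFace eps (lev S lv (i + 1)) x (cn a) ∧
      trueL (pcAt P a) = true := by
  have hvl : (visL x P ra).length = P.length := by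
    unfold visL
    rw [reachB_length, undL_length, h.len]
  unfold startL
  rw [List.mem_map]
  constructor
  · rintro ⟨y, hy, rfl⟩
    rw [List.mem_filter, List.mem_zipIdx_iff_getElem?, List.getElem?_zip_eq_some,
      Bool.and_eq_true] at hy
    obtain ⟨⟨hy1, hy2⟩, hy3, hy4⟩ := hy
    have hlt : y.2 < P.length := by
      by_contra hcon
      rw [List.getElem?_eq_none (not_lt.1 hcon)] at hy1
      exact absurd hy1 (by simp)
    refine ⟨hlt, ?_, ?_⟩
    · rw [← PSys.vis_spec hG hL h hlt, List.getD_eq_getElem?_getD, hy2]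
      exact hy3
    · unfold pcAt
      rw [List.getD_eq_getElem?_getD, hy1]
      exact hy4
  · rintro ⟨h1, h2, h3⟩
    rw [← PSys.vis_spec hG hL h h1] at h2
    refine ⟨((P[a], (visL x P ra)[a]'(by rw [hvl]; exact h1)), a), ?_, rfl⟩
    rw [List.mem_filter, List.mem_zipIdx_iff_getElem?, List.getElem?_zip_eq_some,
      Bool.and_eq_true]
    refine ⟨⟨List.getElem?_eq_getElem _, List.getElem?_eq_getElem _⟩, ?_, ?_⟩
    · rw [List.getD_eq_getElem _ _ (by rw [hvl]; exact h1)] at h2
      exact h2
    · unfold pcAt at h3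
      rw [List.getD_eq_getElem _ _ h1] at h3
      exact h3

theorem nodup_startL (x : ℂ) (P : List Pc) (ra : List (List ℕ)) : (startL x P ra).Nodup := by
  unfold startL
  have h1 : (List.map Prod.snd ((P.zip (visL x P ra)).zipIdx)).Nodup := by
    rw [List.zipIdx_map_snd]
    exact List.nodup_range' _
  exact h1.sublist (List.Sublist.map _ List.filter_sublist)

theorem PSys.chL_eq {eps : ℝ} {S : Finset Seg} {lv : Seg → ℕ} {x : ℂ} {i : ℕ} {P : List Pc}
    {ra : List (List ℕ)} {co cn : ℕ → Cell} (hG : Gen eps S x) (hL : LexOK eps S x)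
    (h : PSys eps S lv x i P ra co cn) :
    chL x P ra = (startL x P ra).map (chn P ra) ∧
      ((startL x P ra).map (chn P ra)).flatten.length ≤ P.length := by
  have hlen : (nxtL P ra).length = P.length := nxtL_length h.len
  have hs : ∀ a ∈ startL x P ra, a < P.length ∧ InFace eps (lev S lv (i + 1)) x (cn a) ∧
      trueL (pcAt P a) = true := fun a ha => (PSys.mem_startL hG hL h a).1 ha
  have hnd : ((startL x P ra).map (chn P ra)).flatten.Nodup := by
    rw [List.nodup_flatten]
    refine ⟨?_, ?_⟩
    · intro l hl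
      rw [List.mem_map] at hl
      obtain ⟨a, ha, rfl⟩ := hl
      exact (PSys.chain_spec hG h (hs a ha).1).1
    · rw [List.pairwise_map]
      refine List.Pairwise.imp_of_mem ?_ (nodup_startL x P ra)
      intro a b ha hb hab j hj1 hj2
      apply hab
      have e1 := ((PSys.chain_spec hG h (hs a ha).1).2.1 j hj1).2
      have e2 := ((PSys.chain_spec hG h (hs b hb).1).2.1 j hj2).2
      exact PSys.first_unique hG h (hs a ha).1 (hs b hb).1 (hs a ha).2.2 (hs b hb).2.2
        (e1.symm.trans e2)
  have hle : ((startL x P ra).map (chn P ra)).flatten.length ≤ P.length := by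
    have hsub : ((startL x P ra).map (chn P ra)).flatten ⊆ List.range P.length := by
      intro j hj
      rw [List.mem_flatten] at hj
      obtain ⟨l, hl, hjl⟩ := hj
      rw [List.mem_map] at hl
      obtain ⟨a, ha, rfl⟩ := hl
      rw [List.mem_range]
      exact ((PSys.chain_spec hG h (hs a ha).1).2.1 j hjl).1
    have := (hnd.subperm hsub).length_le
    rwa [List.length_range] at this
  refine ⟨?_, hle⟩
  unfold chL
  rw [pathsM_eq]
  · rfl
  · exact hle.trans hlen.ge
  · intro a ha
    exact (PSys.chain_spec hG h (hs a ha).1).2.2.2.2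

theorem PSys.finishR_eq {eps : ℝ} {S : Finset Seg} {lv : Seg → ℕ} {x : ℂ} {i : ℕ} {P : List Pc}
    {ra : List (List ℕ)} {co cn : ℕ → Cell} (hG : Gen eps S x) (hL : LexOK eps S x)
    (h : PSys eps S lv x i P ra co cn) :
    finishR x P ra = (startL x P ra).map (fun a =>
      ⟨cn a, mergeK ((chn P ra a).map (fun j => P.getD j pc0)),
        (ra.getD ((chn P ra a).getLastD 0) []).map (fun k => (idxL x P ra).getD k 0)⟩) := by
  have hs : ∀ a ∈ startL x P ra, a < P.length ∧ InFace eps (lev S lv (i + 1)) x (cn a) ∧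
      trueL (pcAt P a) = true := fun a ha => (PSys.mem_startL hG hL h a).1 ha
  unfold finishR nbsL gather gather2
  rw [(PSys.chL_eq hG hL h).1]
  simp only [List.map_map]
  rw [List.zip_map', List.map_map]
  apply List.map_congr_left
  intro a ha
  have h1 := mergeC_eq (PSys.pchain hG h (hs a ha).1 (hs a ha).2.2)
  simp only [Function.comp_apply]
  rw [h1]

end SFA
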