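import Pool.Agent.Lib.SFA.G2Defs

/-!
# SFA.PSys: one round in two parts (definitions only)

`round i x recs = finishR x (roundP i recs) (roundRa i recs)`: the list of all pieces, the lists of right neighbours of the pieces,
and the rest (search, chains, merging).
-/

namespace SFA

open Classical

noncomputable section

/-- all pieces, numbered, one list for every cell -/
def roundPL (i : ℕ) (recs : List Rec) : List (List (ℕ × Pc)) := numberL 0 (recs.map (splitR i))

/-- all pieces -/
def roundP (i : ℕ) (recs : List Rec) : List Pc := (roundPL i recs).flatten.map Prod.snd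

/-- the right neighbours of all pieces -/
def roundRa (i : ℕ) (recs : List Rec) : List (List ℕ) :=
  (((roundPL i recs).zip (gather2 [] (roundPL i recs) (recs.map Rec.nb))).map
    (fun a => raR a.1 a.2)).flatten

/-- the visited pieces -/
def visL (x : ℂ) (P : List Pc) (ra : List (List ℕ)) : List Bool :=
  reachB (undL ra) (P.findIdx (fun d => regB d.1 x))

/-- the first pieces of the new cells -/
def startL (x : ℂ) (P : List Pc) (ra : List (List ℕ)) : List ℕ :=
  ((P.zip (visL x P ra)).zipIdx.filter (fun a => a.1.2 && trueL a.1.1.1)).map Prod.snd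

/-- the next piece of the same new cell -/
def nxtL (P : List Pc) (ra : List (List ℕ)) : List (Option ℕ) :=
  (P.zip ra).map (fun a => if trueR a.1.1 then none else a.2.head?)

/-- the chains -/
def chL (x : ℂ) (P : List Pc) (ra : List (List ℕ)) : List (List ℕ) :=
  pathsM (nxtL P ra) (startL x P ra)

/-- the new index of a first piece -/
def idxL (x : ℂ) (P : List Pc) (ra : List (List ℕ)) : List ℕ :=
  scatter 0 P.length ((startL x P ra).zipIdx)

/-- the right neighbours of the new cells -/
def nbsL (x : ℂ) (P : List Pc) (ra : List (List ℕ)) : List (List ℕ) :=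
  gather2 0 (idxL x P ra) (gather [] ra ((chL x P ra).map (fun l => l.getLastD 0)))

/-- the second part of a round -/
def finishR (x : ℂ) (P : List Pc) (ra : List (List ℕ)) : List Rec :=
  ((gather2 pc0 P (chL x P ra)).zip (nbsL x P ra)).map (fun a => ⟨mergeC a.1, mergeK a.1, a.2⟩)

theorem round_eq (i : ℕ) (x : ℂ) (recs : List Rec) :
    round i x recs = finishR x (roundP i recs) (roundRa i recs) := by
  simp only [round, finishR, roundP, roundRa, roundPL, chL, nbsL, idxL, startL, nxtL, visL]

/-- the piece number `j` -/
def pcAt (P : List Pc) (j : ℕ) : Cell := (P.getD j pc0).1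

end

/-- The lists `P` of all pieces and `ra` of their right neighbours; piece `j` is a piece of the old cell `co j` and of the new
cell `cn j`. -/
structure PSys (eps : ℝ) (S : Finset Seg) (lv : Seg → ℕ) (x : ℂ) (i : ℕ) (P : List Pc)
    (ra : List (List ℕ)) (co cn : ℕ → Cell) : Prop where
  len : ra.length = P.length
  isP : ∀ j < P.length, IsP eps (lev S lv i) (lev S lv (i + 1)) (co j) (cn j) (pcAt P j)
  old : ∀ j < P.length, InFace eps (lev S lv i) x (co j)
  surj : ∀ c c' d, InFace eps (lev S lv i) x c →
    IsP eps (lev S lv i) (lev S lv (i + 1)) c c' d → ∃ j < P.length, co j = c ∧ pcAt P j = d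
  inj : ∀ j < P.length, ∀ k < P.length, co j = co k → pcAt P j = pcAt P k → j = k
  K : ∀ j < P.length, ∀ s l, (s, l) ∈ (P.getD j pc0).2 ↔
    s ∈ S ∧ l = lv s ∧ i + 1 ≤ lv s ∧ confl eps (pcAt P j) s
  Knd : ∀ j < P.length, (P.getD j pc0).2.Nodup
  raM : ∀ j < P.length, ∀ k, k ∈ ra.getD j [] ↔
    k < P.length ∧ (co k = co j ∨ adj (co j) (co k)) ∧ adjB (pcAt P j) (pcAt P k) = true
  raNd : ∀ j < P.length, (ra.getD j []).Nodup

end SFA
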