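import Pool.Agent.Lib.SFA.PLev
import Pool.Agent.Lib.SFA.PEBins

/-!
# SFA.PTrans: from random bits to random subsets

`assign_eq`: induction on `S` (`S.Nodup`): for `s :: t` the function is updated at `s ∉ t` only, so the
values on `t` are those of the tail (`Function.update_of_ne`).
`lvR_le`: induction, `L - _ ≤ L`.
`lev_all`: `lvR ≤ L < L + 1`.
`lev_zero`: nothing has level `< 0`.
`lev_cons`: for `s ∉ t`: `lev (insert s t) (Function.update lv s l) i = if l < i then insert s (lev t lv i) else
lev t lv i`.
`avg_lev`: induction on `S`, generalizing `f`.  For `s :: t`: `(t.length + 1) * L = L + t.length * L`,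
`avg_append`; for `|u| = L`: `(u ++ v).take L = u`, `(u ++ v).drop L = v` (`avg_congr`), so with
`l(u) = L - (u.takeWhile id).length` and `lev_cons` for `i` and `i + 1` the integrand is, according to
`l(u) < i`, `l(u) = i`, `i < l(u)`: `f (insert s Q) (insert s R)`, `f Q (insert s R)`, `f Q R` with
`Q = lev t (lvR L t v) i`, `R = lev t (lvR L t v) (i+1)`.  So
`avg (t.length * L) (...)` is, by the induction hypothesis for these three functions, one of the three numbers
`x, y, z` = the three values of `EB2 (pa L i) (pb L i) t.toFinset ...`, then `avg_level` and `EB2_insert`.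
-/

namespace SFA

open Classical

theorem assign_eq (L : ℕ) (S : List Seg) (hS : S.Nodup) (w : List Bool) :
    assign L S w = S.map (fun s => (s, lvR L S w s)) := by
  induction S generalizing w with
  | nil => rfl
  | cons s t ih =>
    have hs : s ∉ t := (List.nodup_cons.1 hS).1
    rw [assign, List.map_cons, ih (List.nodup_cons.1 hS).2]
    congr 1
    · rw [lvR, Function.update_self]
    · apply List.map_congr_left
      intro a ha
      have hne : a ≠ s := by
        rintro rfl
        exact hs ha
      rw [lvR, Function.update_of_ne hne]

theorem lvR_le (L : ℕ) (S : List Seg) (w : List Bool) (s : Seg) : lvR L S w s ≤ L := by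
  induction S generalizing w with
  | nil => exact Nat.zero_le _
  | cons a t ih =>
    rw [lvR]
    by_cases h : s = a
    · subst h
      rw [Function.update_self]
      exact Nat.sub_le _ _
    · rw [Function.update_of_ne h]
      exact ih _

theorem lev_all (L : ℕ) (S : List Seg) (w : List Bool) :
    lev S.toFinset (lvR L S w) (L + 1) = S.toFinset := by
  unfold lev
  apply Finset.filter_true_of_mem
  intro s _
  exact Nat.lt_succ_of_le (lvR_le L S w s)

theorem lev_zero (S : Finset Seg) (lv : Seg → ℕ) : lev S lv 0 = ∅ := by
  unfold lev
  apply Finset.filter_false_of_mem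
  intro s _
  exact Nat.not_lt_zero _

theorem lev_insert {t : Finset Seg} {s : Seg} (hs : s ∉ t) (lv : Seg → ℕ) (l i : ℕ) :
    lev (insert s t) (Function.update lv s l) i =
      if l < i then insert s (lev t lv i) else lev t lv i := by
  have h : ∀ a ∈ t, (Function.update lv s l a < i ↔ lv a < i) := by
    intro a ha
    have hne : a ≠ s := by
      rintro rfl
      exact hs ha
    rw [Function.update_of_ne hne]
  unfold lev
  rw [Finset.filter_insert, Function.update_self, Finset.filter_congr h]

theorem avg_lev (L i : ℕ) (hi : i ≤ L) (S : List Seg) (hS : S.Nodup)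
    (f : Finset Seg → Finset Seg → ℝ) :
    avg (S.length * L) (fun w => f (lev S.toFinset (lvR L S w) i)
      (lev S.toFinset (lvR L S w) (i + 1))) = EB2 (pa L i) (pb L i) S.toFinset f := by
  induction S generalizing f with
  | nil =>
    have h0 : ([] : List Seg).length * L = 0 := by simp
    rw [h0, avg, List.toFinset_nil, EB2_empty]
    simp [lev]
  | cons s t ih =>
    have hs : s ∉ t := (List.nodup_cons.1 hS).1
    have hs' : s ∉ t.toFinset := by rwa [List.mem_toFinset]
    have ht := ih (List.nodup_cons.1 hS).2
    have hlen : (s :: t).length * L = L + t.length * L := by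
      rw [List.length_cons]
      ring
    rw [hlen, avg_append, List.toFinset_cons, EB2_insert hs', ← ht, ← ht, ← ht,
      ← avg_level L i hi]
    apply avg_congr
    intro u hu
    have htake : ∀ v : List Bool, (u ++ v).take L = u := by
      intro v
      rw [← hu]
      exact List.take_left
    have hdrop : ∀ v : List Bool, (u ++ v).drop L = v := by
      intro v
      rw [← hu]
      exact List.drop_left
    have hlv : ∀ v : List Bool, lvR L (s :: t) (u ++ v) = Function.update (lvR L t v) s
        (L - (u.takeWhile (fun b => b)).length) := by
      intro v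
      rw [lvR, htake, hdrop]
    simp only [hlv, lev_insert hs']
    by_cases h1 : L - (u.takeWhile (fun b => b)).length < i
    · have h2 : L - (u.takeWhile (fun b => b)).length < i + 1 := Nat.lt_succ_of_lt h1
      simp only [h1, h2, if_true]
    · by_cases h2 : L - (u.takeWhile (fun b => b)).length < i + 1
      · simp only [h1, h2, if_true, if_false]
      · simp only [h1, h2, if_false]

end SFA
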