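import Pool.Agent.Lib.SFA.InfC
import Pool.Agent.Lib.SFA.ExistV

/-!
# SFA.PcInfB: a piece is an intersection of cells

`d` satisfies `PieceOK eps c N d`, `c` valid for `R`, `N = {s ∈ R' | confl c s}`.  `d.b`, `d.t` are in `R'` (in `c.b ⊆ R ⊆ R'` or in `N`).
1. `X c.p ≤ X d.p`, `X d.q ≤ X c.q` (`pN`, `qN`: equal or in the slab).  So the slab of `d` is inside the slab of `c`.
2. Heights: for `b ∈ c.b` there is `b' ∈ d.b` with `ht b a ≤ ht b' a` for all `a` in the open slab of `d`.  If `d.b = c.b` clear.  Else `b' ∈ N` has a point `y ∈ hreg ⟨c.b, c.t, d.p, d.q⟩`: `ht b (X y) ≤ ht b' (X y)`.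
  If `ht b' a < ht b a`, `cross_ht` gives a common point `w` of `b`, `b'` with abscissa between `a` and `X y`, so in the slab of `d`; `w ∈ hreg d` (`ori b' w = 0`, `bt`), `b ≠ b'` (`b' ∉ c.b`, since `b'` conflicts
  with `c`), `b ∉ d.t` (`bt` at `w` would give `ori b w < 0`): so `b` conflicts with `d`, against `empb`.  Same for the tops.  Hence `reg d ⊆ reg c`, `hreg d ⊆ hreg c`.
3. `reg d` is disjoint from `U R'`: `z ∈ reg d ∩ carrier s`, `s ∈ R'`: `s ∉ d.b, d.t` (`ori ≠ 0`), so `s` conflicts with `d`.  `z ∈ reg c`, so `s ∉ c.b, c.t` and `s` conflicts with `c`: `s ∈ N`, against `empN`.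
4. No critical point `v` of `R'` is in `hreg d`: every `s ∈ R'` through `v` is `d.b` or `d.t` (otherwise it conflicts with `d`; it is `c.b` or `c.t`: against `empb`, `empt`; or else it conflicts with `c` as `v ∈ hreg c`: `s ∈ N`, against
  `empN`).  An endpoint of `d.b` or `d.t` is not in the open slab (`spans`); a common point of `d.b ≠ d.t` contradicts `bt` (`d.b = d.t = some s` also contradicts `bt`, at a point of `s` in the slab).
5. `exists_gen_reg`: `z ∈ reg d` with abscissa different from all critical abscissas of `R'` (if `d.p` or `d.q` is `none` use suitable `a₁ < a₂`), `exists_valid'` for `R'` gives `c'`, `z ∈ reg c'`; `z ∈ reg c`.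
6. `c'.b = d.b`: let `b₁ ∈ d.b`, `b₁ ∉ c'.b`.  The point `y₁` of `b₁` over `X z` is below `z`, `b₁ ∉ c'.t`; as `b₁` does not conflict with `c'`, `c'.b = some b₂` and `ht b₁ < ht b₂` at `X z`; the point of `b₂` over `X z` is strictly between
  `b₁` and `z`: in `reg d ∩ U R'`, against 3.  If `d.b = none` and `c'.b = some b₂`: same contradiction.  Same for tops.
7. `d.p = maxP c.p c'.p`: (a) if `p' ∈ c'.p` then `X p' ≤ X d.p`: otherwise (also if `d.p = none`) `p'` is in the slab of `d` (`X p' < X z`), in the band of `c'` = band of `d` (`pb`), critical for `R'`: against 4.  (b) If `d.p = c.p`: then `maxP c.p c'.p = c.p` by (a).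
  (c) Otherwise `p ∈ d.p`, `inBand d p`, `p ∈ hreg c` (so `X c.p < X p`), critical for `N ∪ {b, t} ⊆ R'`.  `X p < X z`.  If `c'.p = none` or `X c'.p < X p` then `p ∈ hreg c'`, against `no_crit_in_hreg`.  So by (a) `X p = X c'.p`, `c'.p = some p` by `Gen.inj`, and
  `maxP c.p c'.p = some p`.  Same for `q`.
-/

namespace SFA

open Set Filter Topology

namespace PcInfBAux

/-- the open slab, for abscissas -/
def Sl (eps : ℝ) (c : Cell) (a : ℝ) : Prop :=
  (∀ p ∈ c.p, X eps p < a) ∧ (∀ q ∈ c.q, a < X eps q)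

theorem Sl.btw {eps : ℝ} {c : Cell} {a y e : ℝ} (ha : Sl eps c a) (hy : Sl eps c y)
    (he : (a ≤ e ∧ e ≤ y) ∨ (y ≤ e ∧ e ≤ a)) : Sl eps c e := by
  refine ⟨fun p hp => ?_, fun q hq => ?_⟩
  · have h1 := ha.1 p hp
    have h2 := hy.1 p hp
    rcases he with he | he <;> linarith
  · have h1 := ha.2 q hq
    have h2 := hy.2 q hq
    rcases he with he | he <;> linarith

theorem spans_Sl {eps : ℝ} {c : Cell} {s : Seg} (h : spans eps c s) {a : ℝ} (ha : Sl eps c a) :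
    X eps s.1 < a ∧ a < X eps s.2 := by
  obtain ⟨⟨p, hp, h1⟩, ⟨q, hq, h2⟩⟩ := h
  exact ⟨h1.trans_lt (ha.1 p hp), (ha.2 q hq).trans_le h2⟩

theorem cross_any {eps : ℝ} {s t : Seg} (is : X eps s.1 < X eps s.2) (it : X eps t.1 < X eps t.2)
    {a y : ℝ} (sa : X eps s.1 < a ∧ a < X eps s.2) (sy : X eps s.1 < y ∧ y < X eps s.2)
    (ta : X eps t.1 < a ∧ a < X eps t.2) (ty : X eps t.1 < y ∧ y < X eps t.2)
    (h1 : ht eps s a ≤ ht eps t a) (h2 : ht eps t y ≤ ht eps s y) :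
    ∃ w, ((a ≤ X eps w ∧ X eps w ≤ y) ∨ (y ≤ X eps w ∧ X eps w ≤ a)) ∧ w ∈ carrier s ∧
      w ∈ carrier t := by
  rcases le_total a y with h | h
  · obtain ⟨c, c1, c2, _, c4, c5⟩ := cross_ht is it h sa.1.le sy.2.le ta.1.le ty.2.le h1 h2
    exact ⟨_, Or.inl (by rw [X_pt]; exact ⟨c1, c2⟩), c4, c5⟩
  · obtain ⟨c, c1, c2, _, c4, c5⟩ := cross_ht it is h ty.1.le ta.2.le sy.1.le sa.2.le h2 h1
    exact ⟨_, Or.inr (by rw [X_pt]; exact ⟨c1, c2⟩), c5, c4⟩

theorem tb0 {eps : ℝ} {c : Cell} (hc : Shape0 eps c)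
    (hinc : ∀ b ∈ c.b, X eps b.1 < X eps b.2) (hinc' : ∀ t ∈ c.t, X eps t.1 < X eps t.2) :
    ∀ t ∈ c.t, ∀ b ∈ c.b, ∀ z ∈ carrier t, inSlab eps c z → 0 < ori b z := by
  intro t ht' b hb z hz hsl
  have hsp := spans_Sl (hc.bs b hb) (a := X eps z) hsl
  have hw : pt eps (X eps z) (ht eps b (X eps z)) ∈ carrier b :=
    pt_mem_carrier (hinc b hb) hsp.1.le hsp.2.le
  have hws : inSlab eps c (pt eps (X eps z) (ht eps b (X eps z))) := by
    unfold inSlab
    rw [X_pt]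
    exact hsl
  have h5 := hc.bt b hb t ht' _ hw hws
  rw [ori_neg_iff (hinc' t ht'), X_pt, pt_im] at h5
  rw [ori_pos_iff (hinc b hb)]
  have h6 := ((mem_carrier_iff' (hinc' t ht') z).1 hz).2.2
  rw [h6]
  exact h5

/-- The hypotheses. -/
structure Hyp (eps : ℝ) (S R R' : Finset Seg) (x : ℂ) (c d : Cell) (N : Finset Seg) : Prop where
  hG : Gen eps S x
  hR : R ⊆ R'
  hR' : R' ⊆ S
  hc : Valid eps R c
  hN : ∀ s, s ∈ N ↔ s ∈ R' ∧ confl eps c s
  h : PieceOK eps c N d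

variable {eps : ℝ} {S R R' : Finset Seg} {x : ℂ} {c d : Cell} {N : Finset Seg}

theorem Hyp.dbR (H : Hyp eps S R R' x c d N) : ∀ b ∈ d.b, b ∈ R' := by
  intro b hb
  rcases H.h.bN with h1 | ⟨b0, h1, h2, _⟩
  · rw [h1] at hb
    exact H.hR (H.hc.defd.bR b hb)
  · rw [Option.mem_unique hb h1]
    exact ((H.hN b0).1 h2).1

theorem Hyp.dtR (H : Hyp eps S R R' x c d N) : ∀ b ∈ d.t, b ∈ R' := by
  intro b hb
  rcases H.h.tN with h1 | ⟨b0, h1, h2, _⟩
  · rw [h1] at hb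
    exact H.hR (H.hc.defd.tR b hb)
  · rw [Option.mem_unique hb h1]
    exact ((H.hN b0).1 h2).1

theorem Hyp.inc (H : Hyp eps S R R' x c d N) : ∀ s ∈ R', X eps s.1 < X eps s.2 :=
  fun s hs => H.hG.inc s (H.hR' hs)

theorem Hyp.slab (H : Hyp eps S R R' x c d N) {a : ℝ} (ha : Sl eps d a) : Sl eps c a := by
  constructor
  · intro p hp
    rcases H.h.pN with h1 | ⟨p0, h1, _, h2, _⟩
    · rw [← h1] at hp
      exact ha.1 p hp
    · exact (h2.1.1 p hp).trans (ha.1 p0 h1)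
  · intro q hq
    rcases H.h.qN with h1 | ⟨q0, h1, _, h2, _⟩
    · rw [← h1] at hq
      exact ha.2 q hq
    · exact (ha.2 q0 h1).trans (h2.1.2 q hq)

theorem Hyp.hb (H : Hyp eps S R R' x c d N) : ∀ b ∈ c.b, ∃ b' ∈ d.b, ∀ a, Sl eps d a →
    ht eps b a ≤ ht eps b' a := by
  intro b hb
  rcases H.h.bN with h1 | ⟨b', h1, h2, h3⟩
  · exact ⟨b, h1 ▸ hb, fun a _ => le_rfl⟩
  · refine ⟨b', h1, fun a ha => ?_⟩
    by_contra hlt
    push Not at hlt
    obtain ⟨n1, n2, y, hy, hys, hyb⟩ := h3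
    have ib : X eps b.1 < X eps b.2 := H.inc b (H.hR (H.hc.defd.bR b hb))
    have ib' : X eps b'.1 < X eps b'.2 := H.inc b' (H.dbR b' h1)
    have hyd : Sl eps d (X eps y) := hys
    have e1 : y.im = ht eps b' (X eps y) := ((mem_carrier_iff' ib' y).1 hy).2.2
    have e2 : ht eps b (X eps y) ≤ ht eps b' (X eps y) := by
      rw [← e1]
      exact (ori_nonneg_iff ib y).1 (hyb.1 b hb)
    obtain ⟨w, hw1, hw2, hw3⟩ := cross_any ib' ib
      (spans_Sl (H.h.sh0.bs b' h1) ha) (spans_Sl (H.h.sh0.bs b' h1) hyd)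
      (spans_Sl (H.hc.shape.bs b hb) (H.slab ha)) (spans_Sl (H.hc.shape.bs b hb) (H.slab hyd))
      hlt.le e2
    have hwd : Sl eps d (X eps w) := ha.btw hyd hw1
    have o1 : ori b' w = 0 := ((mem_carrier_iff ib' w).1 hw2).2.2
    have o2 : ori b w = 0 := ((mem_carrier_iff ib w).1 hw3).2.2
    refine H.h.empb b hb ⟨?_, ?_, w, hw3, hwd, ?_, ?_⟩
    · intro h4
      rw [Option.mem_unique h4 h1] at hb
      exact n1 hb
    · intro h4
      have := H.h.sh0.bt b' h1 b h4 w hw2 hwd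
      linarith
    · intro b'' h4
      rw [Option.mem_unique h4 h1, o1]
    · intro t h4
      exact (H.h.sh0.bt b' h1 t h4 w hw2 hwd).le

theorem Hyp.ht' (H : Hyp eps S R R' x c d N) : ∀ t ∈ c.t, ∃ t' ∈ d.t, ∀ a, Sl eps d a →
    ht eps t' a ≤ ht eps t a := by
  intro t htc
  rcases H.h.tN with h1 | ⟨t', h1, h2, h3⟩
  · exact ⟨t, h1 ▸ htc, fun a _ => le_rfl⟩
  · refine ⟨t', h1, fun a ha => ?_⟩
    by_contra hlt
    push Not at hlt
    obtain ⟨n1, n2, y, hy, hys, hyb⟩ := h3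
    have it : X eps t.1 < X eps t.2 := H.inc t (H.hR (H.hc.defd.tR t htc))
    have it' : X eps t'.1 < X eps t'.2 := H.inc t' (H.dtR t' h1)
    have hyd : Sl eps d (X eps y) := hys
    have e1 : y.im = ht eps t' (X eps y) := ((mem_carrier_iff' it' y).1 hy).2.2
    have e2 : ht eps t' (X eps y) ≤ ht eps t (X eps y) := by
      rw [← e1]
      exact (ori_nonpos_iff it y).1 (hyb.2 t htc)
    obtain ⟨w, hw1, hw2, hw3⟩ := cross_any it it'
      (spans_Sl (H.hc.shape.ts t htc) (H.slab ha)) (spans_Sl (H.hc.shape.ts t htc) (H.slab hyd))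
      (spans_Sl (H.h.sh0.ts t' h1) ha) (spans_Sl (H.h.sh0.ts t' h1) hyd)
      hlt.le e2
    have hwd : Sl eps d (X eps w) := ha.btw hyd hw1
    have o1 : ori t' w = 0 := ((mem_carrier_iff it' w).1 hw3).2.2
    refine H.h.empt t htc ⟨?_, ?_, w, hw2, hwd, ?_, ?_⟩
    · intro h4
      have := H.h.sh0.bt t h4 t' h1 w hw2 hwd
      linarith
    · intro h4
      rw [Option.mem_unique h4 h1] at htc
      exact n2 htc
    · intro b h4
      exact (tb0 H.h.sh0 (fun b hb => H.inc b (H.dbR b hb)) (fun t ht0 => H.inc t (H.dtR t ht0))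
        t' h1 b h4 w hw3 hwd).le
    · intro t'' h4
      rw [Option.mem_unique h4 h1, o1]

theorem Hyp.reg_sub (H : Hyp eps S R R' x c d N) {z : ℂ} (hz : z ∈ reg eps d) :
    z ∈ reg eps c := by
  refine ⟨H.slab hz.1, fun b hb => ?_, fun t htc => ?_⟩
  · obtain ⟨b', h1, h2⟩ := H.hb b hb
    rw [ori_pos_iff (H.inc b (H.hR (H.hc.defd.bR b hb)))]
    exact (h2 (X eps z) hz.1).trans_lt ((ori_pos_iff (H.inc b' (H.dbR b' h1)) z).1 (hz.2.1 b' h1))
  · obtain ⟨t', h1, h2⟩ := H.ht' t htc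
    rw [ori_neg_iff (H.inc t (H.hR (H.hc.defd.tR t htc)))]
    exact ((ori_neg_iff (H.inc t' (H.dtR t' h1)) z).1 (hz.2.2 t' h1)).trans_le
      (h2 (X eps z) hz.1)

theorem Hyp.hreg_sub (H : Hyp eps S R R' x c d N) {z : ℂ} (hz : z ∈ hreg eps d) :
    z ∈ hreg eps c := by
  refine ⟨H.slab hz.1, fun b hb => ?_, fun t htc => ?_⟩
  · obtain ⟨b', h1, h2⟩ := H.hb b hb
    rw [ori_nonneg_iff (H.inc b (H.hR (H.hc.defd.bR b hb)))]
    exact (h2 (X eps z) hz.1).trans
      ((ori_nonneg_iff (H.inc b' (H.dbR b' h1)) z).1 (hz.2.1 b' h1))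
  · obtain ⟨t', h1, h2⟩ := H.ht' t htc
    rw [ori_nonpos_iff (H.inc t (H.hR (H.hc.defd.tR t htc)))]
    exact ((ori_nonpos_iff (H.inc t' (H.dtR t' h1)) z).1 (hz.2.2 t' h1)).trans
      (h2 (X eps z) hz.1)

/-- a segment of `R'` through a point of `hreg d` is bottom or top of `d` -/
theorem Hyp.mem_bt (H : Hyp eps S R R' x c d N) {s : Seg} (hs : s ∈ R') {v : ℂ}
    (hv : v ∈ carrier s) (hh : v ∈ hreg eps d) : s ∈ d.b ∨ s ∈ d.t := by
  by_contra hcon
  push Not at hcon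
  have hcf : confl eps d s := ⟨hcon.1, hcon.2, v, hv, hh⟩
  by_cases h1 : s ∈ c.b
  · exact H.h.empb s h1 hcf
  by_cases h2 : s ∈ c.t
  · exact H.h.empt s h2 hcf
  exact H.h.empN s ((H.hN s).2 ⟨hs, h1, h2, v, hv, H.hreg_sub hh⟩) hcf

theorem Hyp.reg_disj (H : Hyp eps S R R' x c d N) {z : ℂ} (hz : z ∈ reg eps d) :
    z ∉ U R' := by
  intro hU
  obtain ⟨s, hs, hzs⟩ := mem_U.1 hU
  have h0 := ((mem_carrier_iff (H.inc s hs) z).1 hzs).2.2
  rcases H.mem_bt hs hzs (reg_subset_hreg eps d hz) with h | h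
  · have h1 := hz.2.1 s h
    linarith
  · have h1 := hz.2.2 s h
    linarith

theorem Hyp.no_crit (H : Hyp eps S R R' x c d N) {v : ℂ} (hv : IsCrit R' v) :
    v ∉ hreg eps d := by
  intro hh
  rcases hv with ⟨s, hs, h1⟩ | ⟨s, hs, t, ht', hst, h1, h2⟩
  · have hvs : v ∈ carrier s := by
      rcases h1 with rfl | rfl
      · exact left_mem_carrier s
      · exact right_mem_carrier s
    have hsp : spans eps d s := by
      rcases H.mem_bt hs hvs hh with h | h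
      · exact H.h.sh0.bs s h
      · exact H.h.sh0.ts s h
    obtain ⟨h3, h4⟩ := spans_Sl hsp (a := X eps v) hh.1
    rcases h1 with rfl | rfl
    · exact lt_irrefl _ h3
    · exact lt_irrefl _ h4
  · rcases H.mem_bt hs h1 hh with h | h <;> rcases H.mem_bt ht' h2 hh with h' | h'
    · exact hst (Option.mem_unique h h')
    · have h3 := H.h.sh0.bt s h t h' v h1 hh.1
      have h4 := ((mem_carrier_iff (H.inc t ht') v).1 h2).2.2
      linarith
    · have h3 := H.h.sh0.bt t h' s h v h2 hh.1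
      have h4 := ((mem_carrier_iff (H.inc s hs) v).1 h1).2.2
      linarith
    · exact hst (Option.mem_unique h h')

theorem Hyp.exists_pt (H : Hyp eps S R R' x c d N) :
    ∃ z ∈ reg eps d, ∀ v, IsCrit R' v → X eps v ≠ X eps z := by
  have hab : ∃ a₁ a₂ : ℝ, a₁ < a₂ ∧ InX eps d a₁ ∧ InX eps d a₂ := by
    have hlt := H.h.sh0.lt
    rcases hp : d.p with _ | p <;> rcases hq : d.q with _ | q
    · refine ⟨0, 1, by norm_num, ⟨?_, ?_⟩, ⟨?_, ?_⟩⟩ <;> simp [hp, hq]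
    · refine ⟨X eps q - 1, X eps q, by linarith, ⟨?_, ?_⟩, ⟨?_, ?_⟩⟩ <;> simp [hp, hq]
    · refine ⟨X eps p, X eps p + 1, by linarith, ⟨?_, ?_⟩, ⟨?_, ?_⟩⟩ <;> simp [hp, hq]
    · have h1 := hlt p hp q hq
      refine ⟨X eps p, X eps q, h1, ⟨?_, ?_⟩, ⟨?_, ?_⟩⟩ <;> simp [hp, hq, h1.le]
  obtain ⟨a₁, a₂, h12, i1, i2⟩ := hab
  obtain ⟨z, hz, _, _, hF⟩ := exists_gen_reg H.h.sh0 (fun b hb => H.inc b (H.dbR b hb))
    (fun t ht0 => H.inc t (H.dtR t ht0)) h12 i1 i2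
    ((finite_crit (H.hG.mono H.hR')).image (X eps))
  exact ⟨z, hz, fun v hv he => hF ⟨v, hv, he⟩⟩

/-- `c'` is the cell of `R'` of a point `z` of the region of `d`. -/
structure At (eps : ℝ) (R' : Finset Seg) (d c' : Cell) (z : ℂ) : Prop where
  v : Valid eps R' c'
  zd : z ∈ reg eps d
  zc : z ∈ reg eps c'

variable {c' : Cell} {z : ℂ}

theorem low_pt {s : Seg} (is : X eps s.1 < X eps s.2) (hs : X eps s.1 < X eps z ∧ X eps z < X eps s.2)
    : pt eps (X eps z) (ht eps s (X eps z)) ∈ carrier s :=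
  pt_mem_carrier is hs.1.le hs.2.le

/-- a point over the abscissa of `z` on the bottom of `c'` strictly above the bottom of `d` -/
theorem Hyp.no_b (H : Hyp eps S R R' x c d N) (A : At eps R' d c' z) {b2 : Seg}
    (h2 : b2 ∈ c'.b) (hb : ∀ b ∈ d.b, ht eps b (X eps z) < ht eps b2 (X eps z)) : False := by
  have hb2 : b2 ∈ R' := A.v.defd.bR b2 h2
  have ib := H.inc b2 hb2
  have hm := low_pt ib (spans_Sl (A.v.shape.bs b2 h2) (a := X eps z) A.zc.1)
  have hlt : ht eps b2 (X eps z) < z.im := (ori_pos_iff ib z).1 (A.zc.2.1 b2 h2)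
  refine H.reg_disj (z := pt eps (X eps z) (ht eps b2 (X eps z))) ⟨?_, ?_, ?_⟩
    (mem_U.2 ⟨b2, hb2, hm⟩)
  · unfold inSlab
    rw [X_pt]
    exact A.zd.1
  · intro b hb'
    rw [ori_pos_iff (H.inc b (H.dbR b hb')), X_pt, pt_im]
    exact hb b hb'
  · intro t ht0
    rw [ori_neg_iff (H.inc t (H.dtR t ht0)), X_pt, pt_im]
    exact hlt.trans ((ori_neg_iff (H.inc t (H.dtR t ht0)) z).1 (A.zd.2.2 t ht0))

theorem Hyp.no_t (H : Hyp eps S R R' x c d N) (A : At eps R' d c' z) {t2 : Seg}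
    (h2 : t2 ∈ c'.t) (hb : ∀ t ∈ d.t, ht eps t2 (X eps z) < ht eps t (X eps z)) : False := by
  have hb2 : t2 ∈ R' := A.v.defd.tR t2 h2
  have ib := H.inc t2 hb2
  have hm := low_pt ib (spans_Sl (A.v.shape.ts t2 h2) (a := X eps z) A.zc.1)
  have hlt : z.im < ht eps t2 (X eps z) := (ori_neg_iff ib z).1 (A.zc.2.2 t2 h2)
  refine H.reg_disj (z := pt eps (X eps z) (ht eps t2 (X eps z))) ⟨?_, ?_, ?_⟩
    (mem_U.2 ⟨t2, hb2, hm⟩)
  · unfold inSlab
    rw [X_pt]
    exact A.zd.1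
  · intro b hb'
    rw [ori_pos_iff (H.inc b (H.dbR b hb')), X_pt, pt_im]
    exact ((ori_pos_iff (H.inc b (H.dbR b hb')) z).1 (A.zd.2.1 b hb')).trans hlt
  · intro t ht0
    rw [ori_neg_iff (H.inc t (H.dtR t ht0)), X_pt, pt_im]
    exact hb t ht0

theorem Hyp.db_sub (H : Hyp eps S R R' x c d N) (A : At eps R' d c' z) {b1 : Seg}
    (h1 : b1 ∈ d.b) : b1 ∈ c'.b := by
  by_contra hn
  have hb1 : b1 ∈ R' := H.dbR b1 h1
  have ib := H.inc b1 hb1
  have hm := low_pt ib (spans_Sl (H.h.sh0.bs b1 h1) (a := X eps z) A.zd.1)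
  have hlt : ht eps b1 (X eps z) < z.im := (ori_pos_iff ib z).1 (A.zd.2.1 b1 h1)
  have hnt : b1 ∉ c'.t := by
    intro h3
    have h4 := A.zc.2.2 b1 h3
    have h5 := A.zd.2.1 b1 h1
    linarith
  have hex : ∃ b2 ∈ c'.b, ht eps b1 (X eps z) < ht eps b2 (X eps z) := by
    by_contra hcon
    push Not at hcon
    refine A.v.emp b1 hb1 ⟨hn, hnt, _, hm, ?_, ?_, ?_⟩
    · unfold inSlab
      rw [X_pt]
      exact A.zc.1
    · intro b hb'
      rw [ori_nonneg_iff (H.inc b (A.v.defd.bR b hb')), X_pt, pt_im]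
      exact hcon b hb'
    · intro t ht0
      rw [ori_nonpos_iff (H.inc t (A.v.defd.tR t ht0)), X_pt, pt_im]
      exact (hlt.trans ((ori_neg_iff (H.inc t (A.v.defd.tR t ht0)) z).1 (A.zc.2.2 t ht0))).le
  obtain ⟨b2, h2, h3⟩ := hex
  exact H.no_b A h2 fun b hb' => by rw [Option.mem_unique hb' h1]; exact h3

theorem Hyp.dt_sub (H : Hyp eps S R R' x c d N) (A : At eps R' d c' z) {t1 : Seg}
    (h1 : t1 ∈ d.t) : t1 ∈ c'.t := by
  by_contra hn
  have hb1 : t1 ∈ R' := H.dtR t1 h1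
  have ib := H.inc t1 hb1
  have hm := low_pt ib (spans_Sl (H.h.sh0.ts t1 h1) (a := X eps z) A.zd.1)
  have hlt : z.im < ht eps t1 (X eps z) := (ori_neg_iff ib z).1 (A.zd.2.2 t1 h1)
  have hnt : t1 ∉ c'.b := by
    intro h3
    have h4 := A.zc.2.1 t1 h3
    have h5 := A.zd.2.2 t1 h1
    linarith
  have hex : ∃ t2 ∈ c'.t, ht eps t2 (X eps z) < ht eps t1 (X eps z) := by
    by_contra hcon
    push Not at hcon
    refine A.v.emp t1 hb1 ⟨hnt, hn, _, hm, ?_, ?_, ?_⟩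
    · unfold inSlab
      rw [X_pt]
      exact A.zc.1
    · intro b hb'
      rw [ori_nonneg_iff (H.inc b (A.v.defd.bR b hb')), X_pt, pt_im]
      exact (((ori_pos_iff (H.inc b (A.v.defd.bR b hb')) z).1 (A.zc.2.1 b hb')).trans hlt).le
    · intro t ht0
      rw [ori_nonpos_iff (H.inc t (A.v.defd.tR t ht0)), X_pt, pt_im]
      exact hcon t ht0
  obtain ⟨t2, h2, h3⟩ := hex
  exact H.no_t A h2 fun t ht0 => by rw [Option.mem_unique ht0 h1]; exact h3

theorem Hyp.b_eq (H : Hyp eps S R R' x c d N) (A : At eps R' d c' z) : d.b = c'.b := by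
  refine Option.ext fun b => ⟨fun h1 => H.db_sub A h1, fun h1 => ?_⟩
  by_contra hn
  refine H.no_b A h1 fun b' hb' => ?_
  have h2 := H.db_sub A hb'
  rw [Option.mem_unique h2 h1] at hb'
  exact absurd hb' hn

theorem Hyp.t_eq (H : Hyp eps S R R' x c d N) (A : At eps R' d c' z) : d.t = c'.t := by
  refine Option.ext fun b => ⟨fun h1 => H.dt_sub A h1, fun h1 => ?_⟩
  by_contra hn
  refine H.no_t A h1 fun b' hb' => ?_
  have h2 := H.dt_sub A hb'
  rw [Option.mem_unique h2 h1] at hb'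
  exact absurd hb' hn

theorem Hyp.band (H : Hyp eps S R R' x c d N) (A : At eps R' d c' z) (w : ℂ) :
    inBand d w ↔ inBand c' w := by
  unfold inBand
  rw [H.b_eq A, H.t_eq A]

theorem Hyp.critR (H : Hyp eps S R R' x c d N) {p : ℂ}
    (hp : IsCrit (N ∪ (c.b.toFinset ∪ c.t.toFinset)) p) : IsCrit R' p := by
  refine hp.mono fun s hs => ?_
  rw [Finset.mem_union, Finset.mem_union, Option.mem_toFinset, Option.mem_toFinset] at hs
  rcases hs with hs | hs | hs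
  · exact ((H.hN s).1 hs).1
  · exact H.hR (H.hc.defd.bR s hs)
  · exact H.hR (H.hc.defd.tR s hs)

theorem Hyp.p_le (H : Hyp eps S R R' x c d N) (A : At eps R' d c' z) {p' : ℂ}
    (hp' : p' ∈ c'.p) : ∃ p ∈ d.p, X eps p' ≤ X eps p := by
  by_contra hcon
  push Not at hcon
  refine H.no_crit (A.v.defd.pC p' hp') ⟨⟨hcon, fun q hq => ?_⟩, ?_⟩
  · exact (A.zc.1.1 p' hp').trans (A.zd.1.2 q hq)
  · exact (H.band A p').2 (A.v.shape.pb p' hp')

theorem Hyp.q_le (H : Hyp eps S R R' x c d N) (A : At eps R' d c' z) {q' : ℂ}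
    (hq' : q' ∈ c'.q) : ∃ q ∈ d.q, X eps q ≤ X eps q' := by
  by_contra hcon
  push Not at hcon
  refine H.no_crit (A.v.defd.qC q' hq') ⟨⟨fun p hp => ?_, hcon⟩, ?_⟩
  · exact (A.zd.1.1 p hp).trans (A.zc.1.2 q' hq')
  · exact (H.band A q').2 (A.v.shape.qb q' hq')

theorem Hyp.p_eq (H : Hyp eps S R R' x c d N) (A : At eps R' d c' z) :
    d.p = maxP eps c.p c'.p := by
  rcases H.h.pN with h1 | ⟨p, h1, h2, h3, h4⟩
  · rcases hc' : c'.p with _ | p'
    · rw [h1]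
      unfold maxP
      cases c.p <;> simp
    · obtain ⟨p, hp, hle⟩ := H.p_le A (p' := p') hc'
      rw [h1] at hp
      rw [h1]
      rw [Option.mem_def] at hp
      rw [hp]
      unfold maxP
      simp [not_lt.2 hle]
  · have hcR := H.critR h4
    have hex : ∃ p' ∈ c'.p, X eps p ≤ X eps p' := by
      by_contra hcon
      push Not at hcon
      refine no_crit_in_hreg (H.hG.mono H.hR') A.v hcR ⟨⟨hcon, fun q hq => ?_⟩, ?_⟩
      · exact (A.zd.1.1 p h1).trans (A.zc.1.2 q hq)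
      · exact (H.band A p).1 h2
    obtain ⟨p', hp', hle⟩ := hex
    obtain ⟨p'', hp'', hle'⟩ := H.p_le A hp'
    rw [Option.mem_unique hp'' h1] at hle'
    have he : p' = p := (H.hG.mono H.hR').inj p' p (A.v.defd.pC p' hp') hcR (le_antisymm hle' hle)
    rw [he] at hp'
    rw [Option.mem_def] at h1 hp'
    rw [h1, hp']
    rcases hcp : c.p with _ | a
    · unfold maxP
      simp
    · have := h3.1.1 a hcp
      unfold maxP
      simp [this]

theorem Hyp.q_eq (H : Hyp eps S R R' x c d N) (A : At eps R' d c' z) :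
    d.q = minQ eps c.q c'.q := by
  rcases H.h.qN with h1 | ⟨q, h1, h2, h3, h4⟩
  · rcases hc' : c'.q with _ | q'
    · rw [h1]
      unfold minQ
      cases c.q <;> simp
    · obtain ⟨q, hq, hle⟩ := H.q_le A (q' := q') hc'
      rw [h1] at hq
      rw [h1]
      rw [Option.mem_def] at hq
      rw [hq]
      unfold minQ
      simp [not_lt.2 hle]
  · have hcR := H.critR h4
    have hex : ∃ q' ∈ c'.q, X eps q' ≤ X eps q := by
      by_contra hcon
      push Not at hcon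
      refine no_crit_in_hreg (H.hG.mono H.hR') A.v hcR ⟨⟨fun p hp => ?_, hcon⟩, ?_⟩
      · exact (A.zc.1.1 p hp).trans (A.zd.1.2 q h1)
      · exact (H.band A q).1 h2
    obtain ⟨q', hq', hle⟩ := hex
    obtain ⟨q'', hq'', hle'⟩ := H.q_le A hq'
    rw [Option.mem_unique hq'' h1] at hle'
    have he : q' = q := (H.hG.mono H.hR').inj q' q (A.v.defd.qC q' hq') hcR (le_antisymm hle hle')
    rw [he] at hq'
    rw [Option.mem_def] at h1 hq'
    rw [h1, hq']
    rcases hcq : c.q with _ | a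
    · unfold minQ
      simp
    · have := h3.1.2 a hcq
      unfold minQ
      simp [this]

end PcInfBAux

open PcInfBAux

theorem isP_of_pieceOK {eps : ℝ} {S R R' : Finset Seg} {x : ℂ} (hG : Gen eps S x) (hR : R ⊆ R')
    (hR' : R' ⊆ S) {c d : Cell} (hc : Valid eps R c) {N : Finset Seg}
    (hN : ∀ s, s ∈ N ↔ s ∈ R' ∧ confl eps c s) (h : PieceOK eps c N d) :
    ∃ c', IsP eps R R' c c' d := by
  have H : Hyp eps S R R' x c d N := ⟨hG, hR, hR', hc, hN, h⟩
  obtain ⟨z, hz, hv⟩ := H.exists_pt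
  obtain ⟨c', h1, h2⟩ := exists_valid' (hG.mono hR') (H.reg_disj hz) hv
  have A : At eps R' d c' z := ⟨h1, hz, h2⟩
  refine ⟨c', hc, h1, ⟨z, H.reg_sub hz, h2⟩, ?_⟩
  have e1 := H.b_eq A
  have e2 := H.t_eq A
  have e3 := H.p_eq A
  have e4 := H.q_eq A
  cases d
  simp only at e1 e2 e3 e4
  subst e1 e2 e3 e4
  rfl

end SFA
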