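import Pool.Agent.Lib.SFA.CritS
import Pool.Agent.Lib.SFA.ConflS

/-!
# SFA.PcTest: generate and test = `PieceOK`

`isPc_iff` (for candidates `d`: `d.b ∈ {c.b} ∪ N` etc., hence `Defd S d`, and `d.p` is `c.p` or in the slab of `c`, so `X c.p ≤ X d.p`, `X d.q ≤ X c.q`):
go through the conjunction from left to right.
1. `lexB p q` is `Shape0.lt` (`lexB_X`).  2. `spanB d b = true ↔ spans eps d b` (`lexB_X`: `!lexB p s.1` is `X s.1 ≤ X p`).
3. For `b ∈ d.b`, `t ∈ d.t`: `b ≠ t`, `above t b (loPt d b)` and not `hitB d b (some t)` iff `∀ z ∈ carrier b, inSlab d z → ori t z < 0`.  Here `loPt d b` has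
  abscissa `X d.p` (as `X b.1 ≤ X d.p`; it is `p` or `b.1`).  (⇒) no common point in the slab, `above_spec` with `a' = X d.q`: `ht b < ht t` on the slab; `z ∈ carrier b` has `z.im = ht b (X z)`.
  (⇐) `b ≠ t` (take any point of `b` in the slab: `ori b z = 0`), no hit since a common point has `ori t z = 0`; `above_spec` again.
4. Now `Shape0 eps d` and `Defd S d` hold, so `conflB_iff` applies to `d`, and to `⟨c.b, c.t, d.p, d.q⟩` (`Shape0`: spans and `bt` are inherited because its slab is a part of the slab of `c`).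
5. the conditions on `d.p`, `d.q`: `opEq_iff`, `bandB_iff`.
`mem_pieces`: `List.mem_filter`, the candidates; `mem_critL`, `mem_dedupB`; in `(⇒)` a `p ≠ c.p` comes from the list of critical points.  In `(⇐)` from `PieceOK`: `d.b = c.b` or `b ∈ N`.
`pieces_nodup`: `candL` is Nodup when `c.b :: N.map some` (`N` Nodup, `some s ≠ c.b`), `c.t :: ...`, `c.p :: C.map some` (`C` Nodup; the elements of `C` are in the slab, so `≠ p`) are Nodup: use
`List.nodup_flatMap` or show it via `List.Nodup.product`-like arguments; `Cell.mk` injective.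
-/

namespace SFA

namespace PcT

private theorem optT {α : Type*} {o : Option α} {f : α → Bool} {P : α → Prop}
    (h : ∀ a ∈ o, (f a = true ↔ P a)) : o.elim true f = true ↔ ∀ a ∈ o, P a := by
  cases o with
  | none => simp
  | some a =>
    have h1 := h a rfl
    constructor
    · intro h2 a' ha'
      cases ha'
      exact h1.1 h2
    · intro h2
      exact h1.2 (h2 a rfl)

private theorem optF {α : Type*} {o : Option α} {f : α → Bool} {P : α → Prop}
    (h : ∀ a ∈ o, (f a = true ↔ P a)) : o.elim false f = true ↔ ∃ a ∈ o, P a := by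
  cases o with
  | none => simp
  | some a =>
    have h1 := h a rfl
    constructor
    · intro h2
      exact ⟨a, rfl, h1.1 h2⟩
    · rintro ⟨a', ha', h2⟩
      cases ha'
      exact h1.2 h2

/-- Candidates. -/
private structure Cand (eps : ℝ) (c : Cell) (N : List Seg) (d : Cell) : Prop where
  b : d.b = c.b ∨ ∃ b ∈ d.b, b ∈ N
  t : d.t = c.t ∨ ∃ t ∈ d.t, t ∈ N
  p : d.p = c.p ∨ ∃ p ∈ d.p, p ∈ hreg eps c ∧
    IsCrit (N.toFinset ∪ (c.b.toFinset ∪ c.t.toFinset)) p
  q : d.q = c.q ∨ ∃ q ∈ d.q, q ∈ hreg eps c ∧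
    IsCrit (N.toFinset ∪ (c.b.toFinset ∪ c.t.toFinset)) q

private theorem mem_opt {α : Type*} {o : Option α} {u : Option α} {l : List α} :
    o ∈ u :: l.map some ↔ o = u ∨ ∃ a ∈ o, a ∈ l := by
  rw [List.mem_cons, List.mem_map]
  constructor
  · rintro (h | ⟨a, ha, h⟩)
    · exact Or.inl h
    · exact Or.inr ⟨a, h.symm, ha⟩
  · rintro (h | ⟨a, ha, h⟩)
    · exact Or.inl h
    · exact Or.inr ⟨a, h, ha.symm⟩

private theorem mem_candL {c : Cell} {N : List Seg} {C : List ℂ} {d : Cell} :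
    d ∈ candL c N C ↔ (d.b = c.b ∨ ∃ b ∈ d.b, b ∈ N) ∧ (d.t = c.t ∨ ∃ t ∈ d.t, t ∈ N) ∧
      (d.p = c.p ∨ ∃ p ∈ d.p, p ∈ C) ∧ (d.q = c.q ∨ ∃ q ∈ d.q, q ∈ C) := by
  rw [← mem_opt, ← mem_opt, ← mem_opt, ← mem_opt]
  constructor
  · intro h
    rw [candL, List.mem_flatMap] at h
    obtain ⟨b, hb, h⟩ := h
    rw [List.mem_flatMap] at h
    obtain ⟨t, ht', h⟩ := h
    rw [List.mem_flatMap] at h
    obtain ⟨p, hp, h⟩ := h
    rw [List.mem_map] at h
    obtain ⟨q, hq, rfl⟩ := h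
    exact ⟨hb, ht', hp, hq⟩
  · rintro ⟨hb, ht', hp, hq⟩
    rw [candL, List.mem_flatMap]
    refine ⟨_, hb, ?_⟩
    rw [List.mem_flatMap]
    refine ⟨_, ht', ?_⟩
    rw [List.mem_flatMap]
    refine ⟨_, hp, ?_⟩
    rw [List.mem_map]
    exact ⟨_, hq, rfl⟩

private theorem cand_iff {eps : ℝ} {S : Finset Seg} {x : ℂ} (hG : Gen eps S x)
    (hL : LexOK eps S x) {c : Cell} (hc : Shape eps c) (hd : Defd S c) {N : List Seg}
    (hN : ∀ s ∈ N, s ∈ S) (d : Cell) :
    d ∈ candL c N (dedupB ptEq (critL c N)) ↔ Cand eps c N d := by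
  have h : ∀ v, v ∈ dedupB ptEq (critL c N) ↔ v ∈ hreg eps c ∧
      IsCrit (N.toFinset ∪ (c.b.toFinset ∪ c.t.toFinset)) v := by
    intro v
    rw [mem_dedupB ptEq_iff, mem_critL hG hL hc.shape0 hd hN]
  rw [mem_candL]
  simp only [h]
  constructor
  · rintro ⟨h1, h2, h3, h4⟩
    exact ⟨h1, h2, h3, h4⟩
  · rintro ⟨h1, h2, h3, h4⟩
    exact ⟨h1, h2, h3, h4⟩

private theorem sub_S {S : Finset Seg} {c : Cell} (hd : Defd S c) {N : List Seg}
    (hN : ∀ s ∈ N, s ∈ S) : N.toFinset ∪ (c.b.toFinset ∪ c.t.toFinset) ⊆ S := by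
  intro s hs
  rw [Finset.mem_union, Finset.mem_union, List.mem_toFinset, Option.mem_toFinset,
    Option.mem_toFinset] at hs
  rcases hs with h | h | h
  · exact hN s h
  · exact hd.bR s h
  · exact hd.tR s h

private theorem Cand.defd {eps : ℝ} {S : Finset Seg} {c : Cell} (hd : Defd S c) {N : List Seg}
    (hN : ∀ s ∈ N, s ∈ S) {d : Cell} (h : Cand eps c N d) : Defd S d where
  bR := by
    intro s hs
    rcases h.b with h1 | ⟨b, hb, h1⟩
    · rw [h1] at hs; exact hd.bR s hs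
    · rw [Option.mem_unique hs hb]; exact hN b h1
  tR := by
    intro s hs
    rcases h.t with h1 | ⟨b, hb, h1⟩
    · rw [h1] at hs; exact hd.tR s hs
    · rw [Option.mem_unique hs hb]; exact hN b h1
  pC := by
    intro s hs
    rcases h.p with h1 | ⟨b, hb, h1, h2⟩
    · rw [h1] at hs; exact hd.pC s hs
    · rw [Option.mem_unique hs hb]; exact h2.mono (sub_S hd hN)
  qC := by
    intro s hs
    rcases h.q with h1 | ⟨b, hb, h1, h2⟩
    · rw [h1] at hs; exact hd.qC s hs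
    · rw [Option.mem_unique hs hb]; exact h2.mono (sub_S hd hN)

private theorem Cand.hp {eps : ℝ} {c : Cell} {N : List Seg} {d : Cell} (h : Cand eps c N d) :
    ∀ p' ∈ c.p, ∃ p ∈ d.p, X eps p' ≤ X eps p := by
  intro p' hp'
  rcases h.p with h1 | ⟨p, hp, h1, h2⟩
  · exact ⟨p', by rw [h1]; exact hp', le_refl _⟩
  · exact ⟨p, hp, (h1.1.1 p' hp').le⟩

private theorem Cand.hq {eps : ℝ} {c : Cell} {N : List Seg} {d : Cell} (h : Cand eps c N d) :
    ∀ q' ∈ c.q, ∃ q ∈ d.q, X eps q ≤ X eps q' := by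
  intro p' hp'
  rcases h.q with h1 | ⟨p, hp, h1, h2⟩
  · exact ⟨p', by rw [h1]; exact hp', le_refl _⟩
  · exact ⟨p, hp, (h1.1.2 p' hp').le⟩

private theorem Cand.slab {eps : ℝ} {c : Cell} {N : List Seg} {d : Cell} (h : Cand eps c N d)
    {z : ℂ} (hz : inSlab eps d z) : inSlab eps c z := by
  refine ⟨?_, ?_⟩
  · intro p' hp'
    obtain ⟨p, hp, h1⟩ := h.hp p' hp'
    linarith [hz.1 p hp]
  · intro p' hp'
    obtain ⟨p, hp, h1⟩ := h.hq p' hp'
    linarith [hz.2 p hp]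

private theorem Cand.spans {eps : ℝ} {c : Cell} {N : List Seg} {d : Cell} (h : Cand eps c N d)
    {s : Seg} (hs : SFA.spans eps c s) : SFA.spans eps ⟨c.b, c.t, d.p, d.q⟩ s := by
  obtain ⟨⟨p', hp', h1⟩, ⟨q', hq', h2⟩⟩ := hs
  obtain ⟨p, hp, h3⟩ := h.hp p' hp'
  obtain ⟨q, hq, h4⟩ := h.hq q' hq'
  exact ⟨⟨p, hp, by linarith⟩, ⟨q, hq, by linarith⟩⟩

private theorem Cand.sh0 {eps : ℝ} {c : Cell} (hc : Shape eps c) {N : List Seg} {d : Cell}
    (h : Cand eps c N d) (hlt : ∀ p ∈ d.p, ∀ q ∈ d.q, X eps p < X eps q) :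
    Shape0 eps ⟨c.b, c.t, d.p, d.q⟩ where
  bs := fun b hb => h.spans (hc.bs b hb)
  ts := fun b hb => h.spans (hc.ts b hb)
  lt := hlt
  bt := fun b hb t ht' z hz hz' => hc.bt b hb t ht' z hz (h.slab (d := d) ⟨hz'.1, hz'.2⟩)

private theorem Cand.defd' {eps : ℝ} {S : Finset Seg} {c : Cell} (hd : Defd S c) {N : List Seg}
    (hN : ∀ s ∈ N, s ∈ S) {d : Cell} (h : Cand eps c N d) :
    Defd S ⟨c.b, c.t, d.p, d.q⟩ :=
  ⟨hd.bR, hd.tR, (h.defd hd hN).pC, (h.defd hd hN).qC⟩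

private theorem not_iff' {b : Bool} {P : Prop} (h : b = true ↔ P) : (!b) = true ↔ ¬ P := by
  rw [← h]; cases b <;> simp

private theorem spanB_iff {eps : ℝ} {S : Finset Seg} {x : ℂ} (hL : LexOK eps S x) {d : Cell}
    (hd : Defd S d) {s : Seg} (hs : s ∈ S) : spanB d s = true ↔ SFA.spans eps d s := by
  unfold spanB SFA.spans
  rw [Bool.and_eq_true]
  refine and_congr (optF ?_) (optF ?_)
  · intro p hp
    rw [not_iff' (lexB_X hL (Or.inl (hd.pC p hp)) (Or.inl (IsCrit.left hs))), not_lt]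
  · intro p hp
    rw [not_iff' (lexB_X hL (Or.inl (IsCrit.right hs)) (Or.inl (hd.qC p hp))), not_lt]

private theorem T1 {eps : ℝ} {S : Finset Seg} {x : ℂ} (hL : LexOK eps S x) {d : Cell}
    (hd : Defd S d) : (d.p.elim true (fun p => d.q.elim true (fun q => lexB p q))) = true ↔
      ∀ p ∈ d.p, ∀ q ∈ d.q, X eps p < X eps q := by
  refine optT (fun p hp => optT (fun q hq => ?_))
  exact lexB_X hL (Or.inl (hd.pC p hp)) (Or.inl (hd.qC q hq))

private theorem hitB_iff {eps : ℝ} {S : Finset Seg} {x : ℂ} (hG : Gen eps S x)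
    (hL : LexOK eps S x) {d : Cell} (hd : Defd S d) {s t : Seg} (hs : s ∈ S) (ht' : t ∈ S)
    (hst : s ≠ t) : hitB d s (some t) = true ↔
      ∃ u, u ∈ carrier s ∧ u ∈ carrier t ∧ inSlab eps d u := by
  have h1 : hitB d s (some t) = (meet s t).elim false (fun u => slabB d u) := rfl
  rw [h1, optF (P := fun u => slabB d u = true) (fun _ _ => Iff.rfl)]
  constructor
  · rintro ⟨u, hu, h2⟩
    have h3 := (meet_iff_S hG hs ht' hst u).1 hu
    refine ⟨u, h3.1, h3.2, ?_⟩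
    exact (slabB_iff hL hd.pC hd.qC (Or.inl (IsCrit.inter hs ht' hst h3.1 h3.2))).1 h2
  · rintro ⟨u, h2, h3, h4⟩
    refine ⟨u, (meet_iff_S hG hs ht' hst u).2 ⟨h2, h3⟩, ?_⟩
    exact (slabB_iff hL hd.pC hd.qC (Or.inl (IsCrit.inter hs ht' hst h2 h3))).2 h4

private theorem T3 {eps : ℝ} {S : Finset Seg} {x : ℂ} (hG : Gen eps S x)
    (hL : LexOK eps S x) {d : Cell} (hd : Defd S d)
    (hlt : ∀ p ∈ d.p, ∀ q ∈ d.q, X eps p < X eps q) {b t : Seg} (hb : b ∈ S) (ht' : t ∈ S)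
    (hbs : SFA.spans eps d b) (hts : SFA.spans eps d t) :
    (!(sgEq b t) && above t b (loPt d b) && !(hitB d b (some t))) = true ↔
      ∀ z ∈ carrier b, inSlab eps d z → ori t z < 0 := by
  obtain ⟨⟨p, hp, h1⟩, ⟨q, hq, h2⟩⟩ := hbs
  obtain ⟨⟨p1, hp1, h3⟩, ⟨q1, hq1, h4⟩⟩ := hts
  obtain rfl := Option.mem_unique hp hp1
  obtain rfl := Option.mem_unique hq hq1
  have hpq := hlt p hp q hq
  have hbi := hG.inc b hb
  have hti := hG.inc t ht'
  -- the left end
  have hlo : X eps (loPt d b) = X eps p ∧ IsCrit S (loPt d b) := by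
    have h5 : loPt d b = if lexB b.1 p then p else b.1 := by
      unfold loPt
      rw [Option.mem_def] at hp
      rw [hp]; rfl
    rw [h5]
    have h6 := lexB_X hL (Or.inl (IsCrit.left hb)) (Or.inl (hd.pC p hp))
    by_cases h7 : lexB b.1 p = true
    · rw [if_pos h7]
      exact ⟨rfl, hd.pC p hp⟩
    · rw [if_neg h7]
      rw [h6, not_lt] at h7
      exact ⟨le_antisymm h1 h7, IsCrit.left hb⟩
  have hslab : ∀ z : ℂ, inSlab eps d z ↔ X eps p < X eps z ∧ X eps z < X eps q := by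
    intro z
    constructor
    · intro h; exact ⟨h.1 p hp, h.2 q hq⟩
    · intro h
      exact ⟨fun p' hp' => by rw [Option.mem_unique hp' hp]; exact h.1,
        fun q' hq' => by rw [Option.mem_unique hq' hq]; exact h.2⟩
  set m : ℝ := (X eps p + X eps q) / 2 with hm
  have hm1 : X eps p < m := by rw [hm]; linarith
  have hm2 : m < X eps q := by rw [hm]; linarith
  have hmb : pt eps m (ht eps b m) ∈ carrier b :=
    pt_mem_carrier hbi (by linarith) (by linarith)
  have hms : inSlab eps d (pt eps m (ht eps b m)) := by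
    rw [hslab, X_pt]; exact ⟨hm1, hm2⟩
  rw [Bool.and_eq_true, Bool.and_eq_true, not_iff' (sgEq_iff b t)]
  constructor
  · rintro ⟨⟨hne, hab⟩, hh⟩
    rw [not_iff' (hitB_iff hG hL hd hb ht' hne)] at hh
    have hsp := above_spec hG hL ht' hb (Ne.symm hne) (Or.inl hlo.2) (a' := X eps q)
      (by rw [hlo.1]; exact hpq) (by rw [hlo.1]; exact h3) h4 (by rw [hlo.1]; exact h1) h2
      (by
        intro w hw1 hw2 hw3
        rw [hlo.1] at hw3
        exact hh ⟨w, hw2, hw1, (hslab w).2 hw3⟩)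
    rcases hsp with ⟨_, h5⟩ | ⟨h5, _⟩
    · intro z hz hz'
      rw [hslab] at hz'
      have h6 := h5 (X eps z) (by rw [hlo.1]; exact hz'.1) hz'.2
      rw [ori_neg_iff hti]
      rw [((mem_carrier_iff' hbi z).1 hz).2.2]
      exact h6
    · rw [h5] at hab
      exact absurd hab (by simp)
  · intro hall
    have hmt := hall _ hmb hms
    have hne : b ≠ t := by
      rintro rfl
      rw [ori_pt_ht hbi] at hmt
      exact lt_irrefl _ hmt
    have hh : ¬ ∃ u, u ∈ carrier b ∧ u ∈ carrier t ∧ inSlab eps d u := by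
      rintro ⟨u, hu1, hu2, hu3⟩
      have h5 := hall u hu1 hu3
      have h6 := ((mem_carrier_iff hti u).1 hu2).2.2
      linarith
    refine ⟨⟨hne, ?_⟩, ?_⟩
    · have hsp := above_spec hG hL ht' hb (Ne.symm hne) (Or.inl hlo.2) (a' := X eps q)
        (by rw [hlo.1]; exact hpq) (by rw [hlo.1]; exact h3) h4 (by rw [hlo.1]; exact h1) h2
        (by
          intro w hw1 hw2 hw3
          rw [hlo.1] at hw3
          exact hh ⟨w, hw2, hw1, (hslab w).2 hw3⟩)
      rcases hsp with ⟨h5, _⟩ | ⟨_, h5⟩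
      · exact h5
      · exfalso
        have h6 := h5 m (by rw [hlo.1]; exact hm1) hm2
        rw [ori_neg_iff hti, X_pt, pt_im] at hmt
        linarith
    · rw [not_iff' (hitB_iff hG hL hd hb ht' hne)]
      exact hh

end PcT

open PcT in
private theorem isPc_iff {eps : ℝ} {S : Finset Seg} {x : ℂ} (hG : Gen eps S x)
    (hL : LexOK eps S x) {c : Cell} (hc : Shape eps c) (hd : Defd S c) {N : List Seg}
    (hN : ∀ s ∈ N, s ∈ S) (d : Cell) (h : Cand eps c N d) :
    isPc c N d = true ↔ PieceOK eps c N.toFinset d := by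
  have hdd := h.defd hd hN
  -- the tests in terms of `Shape0`
  have hbs : (d.b.elim true (fun b => spanB d b)) = true ↔ ∀ b ∈ d.b, spans eps d b :=
    optT (fun b hb => spanB_iff hL hdd (hdd.bR b hb))
  have hts : (d.t.elim true (fun b => spanB d b)) = true ↔ ∀ b ∈ d.t, spans eps d b :=
    optT (fun b hb => spanB_iff hL hdd (hdd.tR b hb))
  unfold isPc
  simp only [Bool.and_eq_true, Bool.or_eq_true]
  rw [T1 hL hdd, hbs, hts]
  constructor
  · rintro ⟨⟨⟨⟨⟨⟨⟨⟨⟨⟨h1, h2⟩, h3⟩, h4⟩, h5⟩, h6⟩, h7⟩, h8⟩, h9⟩, h10⟩, h11⟩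
    have h4' : ∀ b ∈ d.b, ∀ t ∈ d.t, ∀ z ∈ carrier b, inSlab eps d z → ori t z < 0 := by
      refine (optT (fun b hb => optT (fun t ht' => ?_))).1 h4
      exact T3 hG hL hdd h1 (hdd.bR b hb) (hdd.tR t ht') (h2 b hb) (h3 t ht')
    have hsh : Shape0 eps d := ⟨h2, h3, h1, h4'⟩
    have hsh' := h.sh0 hc h1
    have hdd' := h.defd' hd hN
    refine ⟨hsh, ?_, ?_, ?_, ?_, ?_, ?_, ?_⟩
    · rcases h.b with hb | ⟨b, hb, hbN⟩
      · exact Or.inl hb
      · rcases h5 with h5 | h5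
        · exact Or.inl ((osEq_iff _ _).1 h5)
        · right
          obtain ⟨b', hb', h5'⟩ := (optF (fun b' hb' =>
            conflB_iff hG hL hsh' hdd' (hdd.bR b' hb'))).1 h5
          obtain rfl := Option.mem_unique hb hb'
          exact ⟨b, hb, List.mem_toFinset.2 hbN, h5'⟩
    · rcases h.t with hb | ⟨b, hb, hbN⟩
      · exact Or.inl hb
      · rcases h6 with h5 | h5
        · exact Or.inl ((osEq_iff _ _).1 h5)
        · right
          obtain ⟨b', hb', h5'⟩ := (optF (fun b' hb' =>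
            conflB_iff hG hL hsh' hdd' (hdd.tR b' hb'))).1 h5
          obtain rfl := Option.mem_unique hb hb'
          exact ⟨b, hb, List.mem_toFinset.2 hbN, h5'⟩
    · intro s hs
      rw [List.mem_toFinset] at hs
      rw [List.all_eq_true] at h7
      exact (not_iff' (conflB_iff hG hL hsh hdd (hN s hs))).1 (h7 s hs)
    · exact (optT (fun b hb => not_iff' (conflB_iff hG hL hsh hdd (hd.bR b hb)))).1 h8
    · exact (optT (fun b hb => not_iff' (conflB_iff hG hL hsh hdd (hd.tR b hb)))).1 h9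
    · rcases h.p with hb | ⟨p, hp, hp1, hp2⟩
      · exact Or.inl hb
      · rcases h10 with h5 | h5
        · exact Or.inl ((opEq_iff _ _).1 h5)
        · right
          obtain ⟨p', hp', h5'⟩ := (optF (fun p' _ => bandB_iff d p')).1 h5
          obtain rfl := Option.mem_unique hp hp'
          exact ⟨p, hp, h5', hp1, hp2⟩
    · rcases h.q with hb | ⟨p, hp, hp1, hp2⟩
      · exact Or.inl hb
      · rcases h11 with h5 | h5
        · exact Or.inl ((opEq_iff _ _).1 h5)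
        · right
          obtain ⟨p', hp', h5'⟩ := (optF (fun p' _ => bandB_iff d p')).1 h5
          obtain rfl := Option.mem_unique hp hp'
          exact ⟨p, hp, h5', hp1, hp2⟩
  · rintro ⟨hsh, h5, h6, h7, h8, h9, h10, h11⟩
    have hsh' := h.sh0 hc hsh.lt
    have hdd' := h.defd' hd hN
    refine ⟨⟨⟨⟨⟨⟨⟨⟨⟨⟨hsh.lt, hsh.bs⟩, hsh.ts⟩, ?_⟩, ?_⟩, ?_⟩, ?_⟩, ?_⟩, ?_⟩, ?_⟩, ?_⟩
    · refine (optT (fun b hb => optT (fun t ht' => ?_))).2 hsh.bt
      exact T3 hG hL hdd hsh.lt (hdd.bR b hb) (hdd.tR t ht') (hsh.bs b hb) (hsh.ts t ht')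
    · rcases h5 with h5 | ⟨b, hb, _, h5⟩
      · exact Or.inl ((osEq_iff _ _).2 h5)
      · exact Or.inr ((optF (fun b' hb' =>
            conflB_iff hG hL hsh' hdd' (hdd.bR b' hb'))).2 ⟨b, hb, h5⟩)
    · rcases h6 with h5 | ⟨b, hb, _, h5⟩
      · exact Or.inl ((osEq_iff _ _).2 h5)
      · exact Or.inr ((optF (fun b' hb' =>
            conflB_iff hG hL hsh' hdd' (hdd.tR b' hb'))).2 ⟨b, hb, h5⟩)
    · rw [List.all_eq_true]
      intro s hs
      exact (not_iff' (conflB_iff hG hL hsh hdd (hN s hs))).2 (h7 s (List.mem_toFinset.2 hs))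
    · exact (optT (fun b hb => not_iff' (conflB_iff hG hL hsh hdd (hd.bR b hb)))).2 h8
    · exact (optT (fun b hb => not_iff' (conflB_iff hG hL hsh hdd (hd.tR b hb)))).2 h9
    · rcases h10 with h5 | ⟨p, hp, h5, _, _⟩
      · exact Or.inl ((opEq_iff _ _).2 h5)
      · exact Or.inr ((optF (fun p' _ => bandB_iff d p')).2 ⟨p, hp, h5⟩)
    · rcases h11 with h5 | ⟨p, hp, h5, _, _⟩
      · exact Or.inl ((opEq_iff _ _).2 h5)
      · exact Or.inr ((optF (fun p' _ => bandB_iff d p')).2 ⟨p, hp, h5⟩)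

theorem mem_pieces {eps : ℝ} {S : Finset Seg} {x : ℂ} (hG : Gen eps S x) (hL : LexOK eps S x)
    {c : Cell} (hc : Shape eps c) (hd : Defd S c) {N : List Seg} (hN : ∀ s ∈ N, s ∈ S) (d : Cell) :
    d ∈ pieces c N ↔ PieceOK eps c N.toFinset d := by
  unfold pieces
  rw [List.mem_filter, PcT.cand_iff hG hL hc hd hN]
  constructor
  · rintro ⟨h1, h2⟩
    exact (isPc_iff hG hL hc hd hN d h1).1 h2
  · intro h
    have h1 : PcT.Cand eps c N d := by
      refine ⟨?_, ?_, ?_, ?_⟩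
      · rcases h.bN with h1 | ⟨b, hb, h1, _⟩
        · exact Or.inl h1
        · exact Or.inr ⟨b, hb, List.mem_toFinset.1 h1⟩
      · rcases h.tN with h1 | ⟨b, hb, h1, _⟩
        · exact Or.inl h1
        · exact Or.inr ⟨b, hb, List.mem_toFinset.1 h1⟩
      · rcases h.pN with h1 | ⟨b, hb, _, h1⟩
        · exact Or.inl h1
        · exact Or.inr ⟨b, hb, h1⟩
      · rcases h.qN with h1 | ⟨b, hb, _, h1⟩
        · exact Or.inl h1
        · exact Or.inr ⟨b, hb, h1⟩
    exact ⟨h1, (isPc_iff hG hL hc hd hN d h1).2 h⟩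

theorem pieces_nodup {eps : ℝ} {S : Finset Seg} {x : ℂ} (hG : Gen eps S x) (hL : LexOK eps S x)
    {c : Cell} (hc : Shape eps c) (hd : Defd S c) {N : List Seg} (hN : ∀ s ∈ N, s ∈ S)
    (hb : ∀ s ∈ N, s ∉ c.b ∧ s ∉ c.t) (hnd : N.Nodup) : (pieces c N).Nodup := by
  have hC : ∀ v, v ∈ dedupB ptEq (critL c N) → v ∈ hreg eps c := by
    intro v hv
    rw [mem_dedupB ptEq_iff, mem_critL hG hL hc.shape0 hd hN] at hv
    exact hv.1
  have hCn : (dedupB ptEq (critL c N)).Nodup := nodup_dedupB ptEq_iff _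
  have hcons : ∀ {α : Type} {u : Option α} {l : List α}, l.Nodup → (∀ a ∈ l, a ∉ u) →
      (u :: l.map some).Nodup := by
    intro α u l hl h
    rw [List.nodup_cons]
    refine ⟨?_, hl.map (Option.some_injective α)⟩
    intro hm
    obtain ⟨a, ha, rfl⟩ := List.mem_map.1 hm
    exact h a ha rfl
  have hbn : (c.b :: N.map some).Nodup := hcons hnd (fun a ha => (hb a ha).1)
  have htn : (c.t :: N.map some).Nodup := hcons hnd (fun a ha => (hb a ha).2)
  have hpn : (c.p :: (dedupB ptEq (critL c N)).map some).Nodup :=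
    hcons hCn (fun a ha ha' => lt_irrefl _ ((hC a ha).1.1 a ha'))
  have hqn : (c.q :: (dedupB ptEq (critL c N)).map some).Nodup :=
    hcons hCn (fun a ha ha' => lt_irrefl _ ((hC a ha).1.2 a ha'))
  unfold pieces
  refine List.Nodup.filter _ ?_
  unfold candL
  rw [List.nodup_flatMap]
  refine ⟨fun b _ => ?_, hbn.imp ?_⟩
  · rw [List.nodup_flatMap]
    refine ⟨fun t _ => ?_, htn.imp ?_⟩
    · rw [List.nodup_flatMap]
      refine ⟨fun p _ => ?_, hpn.imp ?_⟩
      · refine hqn.map ?_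
        intro q q' h
        exact congrArg Cell.q h
      · intro p p' hpp d hd1 hd2
        obtain ⟨q, _, rfl⟩ := List.mem_map.1 hd1
        obtain ⟨q', _, h⟩ := List.mem_map.1 hd2
        exact hpp (congrArg Cell.p h).symm
    · intro t t' htt d hd1 hd2
      obtain ⟨p, _, hd1⟩ := List.mem_flatMap.1 hd1
      obtain ⟨q, _, rfl⟩ := List.mem_map.1 hd1
      obtain ⟨p', _, hd2⟩ := List.mem_flatMap.1 hd2
      obtain ⟨q', _, h⟩ := List.mem_map.1 hd2
      exact htt (congrArg Cell.t h).symm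
  · intro b b' hbb d hd1 hd2
    obtain ⟨t, _, hd1⟩ := List.mem_flatMap.1 hd1
    obtain ⟨p, _, hd1⟩ := List.mem_flatMap.1 hd1
    obtain ⟨q, _, rfl⟩ := List.mem_map.1 hd1
    obtain ⟨t', _, hd2⟩ := List.mem_flatMap.1 hd2
    obtain ⟨p', _, hd2⟩ := List.mem_flatMap.1 hd2
    obtain ⟨q', _, h⟩ := List.mem_map.1 hd2
    exact hbb (congrArg Cell.b h).symm

end SFA
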