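import Pool.Agent.Lib.SFA.RTest

/-!
# SFA.RCrit: the list of critical points of a cell

`critL c N` = (endpoints of `N`) ++ (common points of `s in N` and `t` in bottom, top, `N`), filtered.
`RC.filter (RC.append (RC.flatMap ..) (RC.flatMap .. (RC.flatMap ..)))` with the constant time tests
`CT.hregB`, `CT.sgEq`, `CT.meet` of RTest; `Option.toList o = o.elim [] (fun a => [a])`
(`RC.optionElim`).  The inner list has `N.length + 2` elements at most, each contributes at most one
point: total cost `C (N.length + 1)^2`, total length at most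
`2 N.length + N.length (N.length + 2) <= 4 (N.length + 1)^2`.
-/

namespace SFA

open P7m Classical

namespace RCritAux

theorem length_flatMap_le {α β : Type} (l : List α) (f : α → List β) (k : ℕ)
    (h : ∀ x ∈ l, (f x).length ≤ k) : (l.flatMap f).length ≤ l.length * k := by
  induction l with
  | nil => simp
  | cons x t ih =>
    rw [List.flatMap_cons, List.length_append, List.length_cons]
    have h1 := h x (List.mem_cons.2 (Or.inl rfl))
    have h2 := ih (fun y hy => h y (List.mem_cons_of_mem _ hy))
    nlinarith

theorem sum_map_le {α : Type} (l : List α) (f : α → ℕ) (k : ℕ)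
    (h : ∀ x ∈ l, f x ≤ k) : (l.map f).sum ≤ l.length * k := by
  induction l with
  | nil => simp
  | cons x t ih =>
    rw [List.map_cons, List.sum_cons, List.length_cons]
    have h1 := h x (List.mem_cons.2 (Or.inl rfl))
    have h2 := ih (fun y hy => h y (List.mem_cons_of_mem _ hy))
    nlinarith

theorem toList_length {α : Type} (o : Option α) : o.toList.length ≤ 1 := by
  cases o <;> simp

noncomputable section

/-- the endpoints -/
def ends (N : List Seg) : List ℂ := N.flatMap (fun s => [s.1, s.2])

/-- the possible partners of a segment -/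
def parts (c : Cell) (N : List Seg) : List Seg := c.b.toList ++ c.t.toList ++ N

/-- the point of one pair -/
def one (s t : Seg) : List ℂ := if sgEq s t then [] else (meet s t).toList

/-- the points on one segment -/
def inn (c : Cell) (N : List Seg) (s : Seg) : List ℂ := (parts c N).flatMap (one s)

/-- all points before filtering -/
def all (c : Cell) (N : List Seg) : List ℂ := ends N ++ N.flatMap (inn c N)

theorem critL_eq (c : Cell) (N : List Seg) : critL c N = (all c N).filter (hregB c) := rfl

theorem one_length (s t : Seg) : (one s t).length ≤ 1 := by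
  unfold one
  split_ifs
  · simp
  · exact toList_length _

theorem parts_length (c : Cell) (N : List Seg) : (parts c N).length ≤ N.length + 2 := by
  unfold parts
  rw [List.length_append, List.length_append]
  have h1 := toList_length c.b
  have h2 := toList_length c.t
  omega

theorem inn_length (c : Cell) (N : List Seg) (s : Seg) : (inn c N s).length ≤ N.length + 2 := by
  unfold inn
  have h1 := length_flatMap_le (parts c N) (one s) 1 (fun t _ => one_length s t)
  have h2 := parts_length c N
  omega

theorem ends_length (N : List Seg) : (ends N).length ≤ N.length * 2 :=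
  length_flatMap_le N _ 2 (fun s _ => le_refl _)

theorem all_length (c : Cell) (N : List Seg) :
    (all c N).length ≤ N.length * 2 + N.length * (N.length + 2) := by
  unfold all
  rw [List.length_append]
  have h1 := ends_length N
  have h2 := length_flatMap_le N (inn c N) (N.length + 2) (fun s _ => inn_length c N s)
  omega

variable {A : Type} [Enc A]

theorem CT_toList {B : Type} [Enc B] {o : A → Option B} (h : CT o) :
    CT (fun a => (o a).toList) := by
  have h1 : CT (fun a => (o a).elim ([] : List B) (fun b => [b])) :=
    CT.elim h RC.nil (RC.singleton (RC.snd RC.id))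
  exact RC.congr h1 (fun a => by cases o a <;> rfl)

theorem rc_ends : RC (fun a : Cell × List Seg => ends a.2) (fun a => a.2.length) := by
  have h1 : RC (fun p : (Cell × List Seg) × Seg => [p.2.1, p.2.2]) (fun _ => 0) :=
    (RC.cons (RC.fst (RC.snd RC.id)) (RC.singleton (RC.snd (RC.snd RC.id)))).of_le
      (fun _ => le_refl _)
  have h2 := RC.flatMap (l := fun a : Cell × List Seg => a.2)
    (f := fun _ (s : Seg) => [s.1, s.2]) (RC.snd RC.id) h1
  refine (h2.mono 3 (fun a => ?_)).congr (fun a => rfl)
  have h3 := sum_map_le a.2 (fun x : Seg => 0 + [x.1, x.2].length + 1) 3 (fun x _ => le_refl _)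
  change 0 + (a.2.map (fun x : Seg => 0 + [x.1, x.2].length + 1)).sum ≤ 3 * (a.2.length + 1)
  omega

theorem rc_one : CT (fun q : ((Cell × List Seg) × Seg) × Seg => one q.1.2 q.2) := by
  unfold one
  exact CT.cond (CT.sgEq (CT.snd (CT.fst CT.id)) (CT.snd CT.id)) RC.nil
    (CT_toList (CT.meet (CT.snd (CT.fst CT.id)) (CT.snd CT.id)))

theorem rc_parts : RC (fun p : (Cell × List Seg) × Seg => parts p.1.1 p.1.2) (fun _ => 0) := by
  have hb : RC (fun p : (Cell × List Seg) × Seg => p.1.1.b.toList) (fun _ => 0) :=
    CT_toList (CT.cellb (CT.fst (CT.fst CT.id)))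
  have ht : RC (fun p : (Cell × List Seg) × Seg => p.1.1.t.toList) (fun _ => 0) :=
    CT_toList (CT.cellt (CT.fst (CT.fst CT.id)))
  have h1 := RC.append (RC.append hb ht) (RC.snd (RC.fst (RC.id (A := (Cell × List Seg) × Seg))))
  refine (h1.mono 3 (fun p => ?_)).congr (fun p => rfl)
  have e1 := toList_length p.1.1.b
  have e2 := toList_length p.1.1.t
  change (0 + 0 + p.1.1.b.toList.length) + 0 + (p.1.1.b.toList ++ p.1.1.t.toList).length ≤
    3 * (0 + 1)
  rw [List.length_append]
  omega

theorem rc_inn : RC (fun p : (Cell × List Seg) × Seg => inn p.1.1 p.1.2 p.2)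
    (fun p => p.1.2.length) := by
  have h1 := RC.flatMap (f := fun (p : (Cell × List Seg) × Seg) t => one p.2 t) rc_parts rc_one
  refine (h1.mono 4 (fun p => ?_)).congr (fun p => rfl)
  have h2 := sum_map_le (parts p.1.1 p.1.2) (fun t => 0 + (one p.2 t).length + 1) 2
    (fun t _ => by have := one_length p.2 t; omega)
  have h3 := parts_length p.1.1 p.1.2
  change 0 + ((parts p.1.1 p.1.2).map (fun t => 0 + (one p.2 t).length + 1)).sum ≤
    4 * (p.1.2.length + 1)
  omega

theorem rc_all : RC (fun a : Cell × List Seg => all a.1 a.2)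
    (fun a => (a.2.length + 1) ^ 2) := by
  have h1 := RC.flatMap (l := fun a : Cell × List Seg => a.2)
    (f := fun (a : Cell × List Seg) s => inn a.1 a.2 s) (RC.snd RC.id) rc_inn
  have h2 := RC.append rc_ends h1
  refine (h2.mono 10 (fun a => ?_)).congr (fun a => rfl)
  have h3 := sum_map_le a.2 (fun s => a.2.length + (inn a.1 a.2 s).length + 1)
    (2 * a.2.length + 3) (fun s _ => by have := inn_length a.1 a.2 s; omega)
  have h4 := ends_length a.2
  change a.2.length + (0 + (a.2.map (fun s => a.2.length + (inn a.1 a.2 s).length + 1)).sum) +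
    (ends a.2).length ≤ 10 * ((a.2.length + 1) ^ 2 + 1)
  nlinarith

end

end RCritAux

open RCritAux

theorem critL_length_le (c : Cell) (N : List Seg) :
    (critL c N).length ≤ 4 * (N.length + 1) ^ 2 := by
  rw [critL_eq]
  have h1 := List.length_filter_le (hregB c) (RCritAux.all c N)
  have h2 := all_length c N
  nlinarith

theorem rc_critL : RC (fun a : Cell × List Seg => critL a.1 a.2)
    (fun a => (a.2.length + 1) ^ 2) := by
  have h0 : RC (fun q : (Cell × List Seg) × ℂ => hregB q.1.1 q.2) (fun _ => 0) :=
    CT.hregB (CT.fst (CT.fst CT.id)) (CT.snd CT.id)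
  have h1 := RC.filter (p := fun (a : Cell × List Seg) z => hregB a.1 z) rc_all h0
  refine (h1.mono 4 (fun a => ?_)).congr (fun a => rfl)
  have h2 := sum_map_le (RCritAux.all a.1 a.2) (fun _ => 0 + 1) 1 (fun _ _ => le_refl _)
  have h3 := all_length a.1 a.2
  change (a.2.length + 1) ^ 2 + ((RCritAux.all a.1 a.2).map (fun _ => 0 + 1)).sum ≤
    4 * ((a.2.length + 1) ^ 2 + 1)
  nlinarith

end SFA
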