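import Pool.Agent.Lib.SFA.RTest

/-!
# SFA.RDedup: removing repetitions costs the square of the length

`dedupB e l` is a `foldr`; `List.foldl_reverse` turns it into a `foldl` over `l.reverse`:
`RC.foldl (RC.reverse hl) RC.nil ...` with step `fun acc a => if acc.any (e a) then acc else a :: acc`
(`RC.any`, `RC.cond`, `RC.cons`, `CT.ptEq`; the test costs `(acc.length + 1) * const`).
Invariant for the cost along the fold (`foldCost_le_inv` or an induction): the accumulator is never
longer than the processed part, so every step costs at most `C (l.length + 1)`.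
-/

namespace SFA

open P7m Classical

namespace RDedupAux

noncomputable def dStep (acc : List ℂ) (a : ℂ) : List ℂ :=
  if acc.any (fun b => ptEq a b) then acc else a :: acc

theorem dedup_eq (l : List ℂ) : dedupB ptEq l = l.reverse.foldl dStep [] := by
  rw [List.foldl_reverse]
  rfl

theorem dStep_length_le (acc : List ℂ) (a : ℂ) : (dStep acc a).length ≤ acc.length + 1 := by
  unfold dStep
  split
  · omega
  · simp

theorem rc_dStep {A : Type} [Enc A] :
    RC (fun p : A × List ℂ × ℂ => dStep p.2.1 p.2.2) (fun p => p.2.1.length) := by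
  have h1 : RC (fun p : A × List ℂ × ℂ => p.2.1) (fun _ => 0) := RC.fst (RC.snd RC.id)
  have h2 : RC (fun p : A × List ℂ × ℂ => p.2.2) (fun _ => 0) := RC.snd (RC.snd RC.id)
  have h3 : RC (fun q : (A × List ℂ × ℂ) × ℂ => ptEq q.1.2.2 q.2) (fun _ => 0) :=
    CT.ptEq (u := fun q : (A × List ℂ × ℂ) × ℂ => q.1.2.2) (v := fun q => q.2)
      (CT.snd (CT.snd (CT.fst CT.id))) (CT.snd CT.id)
  have h4 := RC.any (p := fun (p : A × List ℂ × ℂ) (b : ℂ) => ptEq p.2.2 b) h1 h3
  refine (RC.cond h4 h1 (RC.cons h2 h1)).of_le (fun p => ?_)
  have e : ∀ t : List ℂ, (t.map (fun _ => 0 + 1)).sum = t.length := by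
    intro t
    induction t with
    | nil => rfl
    | cons x t ih => rw [List.map_cons, List.sum_cons, ih, List.length_cons]; omega
  rw [e]
  split <;> simp

theorem cost_le (l : List ℂ) (s : List ℂ) :
    foldCost dStep (fun s _ => s.length) l s ≤ (s.length + l.length + 1) * l.length := by
  induction l generalizing s with
  | nil => simp
  | cons x t ih =>
    simp only [foldCost_cons, List.length_cons]
    have h1 := ih (dStep s x)
    have h2 := dStep_length_le s x
    have h3 : ((dStep s x).length + t.length + 1) * t.length ≤
        (s.length + 1 + t.length + 1) * t.length := Nat.mul_le_mul_right _ (by omega)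
    nlinarith

end RDedupAux

open RDedupAux

theorem dedupB_length_le {α : Type} (e : α → α → Bool) (l : List α) :
    (dedupB e l).length ≤ l.length := by
  induction l with
  | nil => simp [dedupB]
  | cons x t ih =>
    unfold dedupB at ih ⊢
    rw [List.foldr_cons]
    split
    · rw [List.length_cons]; omega
    · rw [List.length_cons, List.length_cons]; omega

theorem RC.dedupPt {A : Type} [Enc A] {l : A → List ℂ} {cl : A → ℕ} (hl : RC l cl) :
    RC (fun a => dedupB ptEq (l a)) (fun a => cl a + (l a).length ^ 2) := by
  have h := RC.foldl (f := fun _ (s : List ℂ) (x : ℂ) => dStep s x) (RC.reverse hl)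
    (RC.nil (B := ℂ)) (rc_dStep (A := A))
  refine (h.mono 3 (fun a => ?_)).congr (fun a => ?_)
  · have h1 := cost_le (l a).reverse []
    have e : (fun (s : List ℂ) (x : ℂ) => dStep s x) = dStep := rfl
    simp only [e] at h1 ⊢
    simp only [List.length_nil, List.length_reverse, zero_add, add_zero] at h1 ⊢
    have h3 : (l a).length ≤ (l a).length ^ 2 := Nat.le_self_pow (by norm_num) _
    nlinarith
  · exact dedup_eq (l a)

end SFA
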