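import Pool.Agent.Lib.SFA.Nest
import Pool.Agent.Lib.SFA.LocStr

/-!
# SFA.RDoor: through the right wall of a cell

`c` valid for `R`, `v ∈ c.q`, `w` a point with `X w = X v`, strictly between bottom and top of `c` (`OpenBand c w`), `w ≠ v`, in the open slab on the left side.
* `w ∉ U R`: suppose `w ∈ carrier s`, `s ∈ R`; `s ∉ c.b, c.t` (`ori ≠ 0`); `w` is not critical (`Gen.inj`: `w = v`), so `X s.1 < X w`; the points of `s` slightly to the left of `w` are in the open slab of `c`
  and in its band (continuity): `s` conflicts with `c`.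
* `Vis eps R w v`: let `y ∈ openSegment w v`, `y ∈ carrier s`, `s ∈ R`: `X y = X v`, `y ≠ v`, and `OpenBand c y` (`ori_comb`: `w` strict, `v` weak by `qb`): the same argument with `y` instead of `w`.
* `half_left`, `half_right` (or `local_structure`: the first alternative is impossible because `v` would be in `hreg` of the cell ...; it is easier to use `half_left`, `half_right`, `wall_top`, `wall_bot` directly) give `cL` with
  `v ∈ cL.q` and the left half ball at `w` in `reg cL`, `c2` with `v ∈ c2.p` and the right half ball in `reg c2`.  The points slightly to the left of `w` are in `reg c` too, so `cL = c` (`valid_unique`).  `adj c c2` by `wall_top`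
  (if `v.im < w.im`) or `wall_bot` (if `w.im < v.im`; not equal by `ext_X`).
-/

namespace SFA

open Set Filter Topology

namespace RDoorAux

/-- no segment passes through a point of the right wall in the open band -/
theorem free_wall {eps : ℝ} {R : Finset Seg} {x : ℂ} (hG : Gen eps R x) {c : Cell}
    (hc : Valid eps R c) {v y : ℂ} (hv : v ∈ c.q) (hX : X eps y = X eps v) (hyv : y ≠ v)
    (ho : OpenBand c y) : y ∉ U R := by
  intro hy
  obtain ⟨s, hs, hys⟩ := mem_U.1 hy
  have hinc := hG.inc s hs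
  have hm := (mem_carrier_iff' hinc y).1 hys
  have hcrit : IsCrit R v := hc.defd.qC v hv
  have h1 : X eps s.1 < X eps v := by
    rw [← hX]
    refine lt_of_le_of_ne hm.1 fun h => ?_
    have h2 : s.1.im = ht eps s (X eps s.1) := (ori_zero_iff hinc s.1).1 (ori_left s)
    have h3 : y = s.1 := ext_X (eps := eps) h.symm (by rw [hm.2.2, h2, h])
    exact hyv (hG.inj y v (h3 ▸ IsCrit.left hs) hcrit hX)
  refine WallTopAux.push_left hc hG.inc hs hv h1 (by rw [← hX]; exact hm.2.1) ?_ ?_
  · intro b hb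
    have h2 := (ori_pos_iff (hG.inc b (hc.defd.bR b hb)) y).1 (ho.1 b hb)
    rw [hm.2.2, hX] at h2
    exact h2
  · intro t htt
    have h2 := (ori_neg_iff (hG.inc t (hc.defd.tR t htt)) y).1 (ho.2 t htt)
    rw [hm.2.2, hX] at h2
    exact h2

theorem ev_opt {α : Type*} {F : Filter ℝ} {o : Option α} {P : α → ℝ → Prop}
    (h : ∀ a ∈ o, ∀ᶠ r in F, P a r) : ∀ᶠ r in F, ∀ a ∈ o, P a r := by
  cases o with
  | none => exact Filter.Eventually.of_forall (fun r a ha => by simp at ha)
  | some a =>
    filter_upwards [h a rfl] with r hr a' ha'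
    cases ha'
    exact hr

end RDoorAux

open RDoorAux in
theorem right_door {eps : ℝ} {R : Finset Seg} {x : ℂ} (hG : Gen eps R x) {c : Cell}
    (hc : Valid eps R c) {v w : ℂ} (hv : v ∈ c.q) (hX : X eps w = X eps v) (hwv : w ≠ v)
    (ho : OpenBand c w) :
    w ∉ U R ∧ ∃ c2, Valid eps R c2 ∧ adj c c2 ∧ v ∈ c2.p ∧
      ∃ r > 0, ∀ y ∈ Metric.ball w r, X eps w < X eps y → y ∈ reg eps c2 := by
  have hwU : w ∉ U R := free_wall hG hc hv hX hwv ho
  refine ⟨hwU, ?_⟩
  have hcrit : IsCrit R v := hc.defd.qC v hv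
  have him : v.im ≠ w.im := fun h => hwv (ext_X hX h.symm)
  have hband := hc.shape.qb v hv
  have hvis : Vis eps R w v := by
    refine ⟨hX.symm, ?_⟩
    rw [Set.disjoint_left]
    rintro y ⟨a, b, ha, hb, hab, rfl⟩
    refine free_wall hG hc hv ?_ ?_ ⟨?_, ?_⟩
    · rw [X_comb eps hab, hX, ← add_mul, hab, one_mul]
    · intro h
      have h1 := congrArg Complex.im h
      rw [im_comb] at h1
      have h2 : a * (w.im - v.im) = 0 := by
        have h3 : b = 1 - a := by linarith
        rw [h3] at h1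
        linarith
      rcases mul_eq_zero.1 h2 with h3 | h3
      · exact absurd h3 ha.ne'
      · exact him (by linarith)
    · intro b' hb'
      rw [ori_comb b' hab]
      have h1 := mul_pos ha (ho.1 b' hb')
      have h2 := mul_nonneg hb.le (hband.1 b' hb')
      linarith
    · intro t' ht'
      rw [ori_comb t' hab]
      have h1 := mul_neg_of_pos_of_neg ha (ho.2 t' ht')
      have h2 := mul_nonpos_of_nonneg_of_nonpos hb.le (hband.2 t' ht')
      linarith
  obtain ⟨cL, hcL, hvL, hpL, hbL, htL, r, hr, hrL⟩ := half_left hG hwU hcrit hvis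
  obtain ⟨c2, hc2, hv2, hq2, hb2, ht2, r', hr', hr2⟩ := half_right hG hwU hcrit hvis
  -- `c = cL`
  have hcont : Continuous (fun xi : ℝ => pt eps xi w.im) :=
    (continuous_pt eps).comp (continuous_id.prodMk continuous_const)
  have hw : pt eps (X eps w) w.im = w := pt_eta eps w
  have e1 : ∀ᶠ xi in 𝓝[<] (X eps w), pt eps xi w.im ∈ Metric.ball w r := by
    apply mem_nhdsWithin_of_mem_nhds
    apply hcont.continuousAt.preimage_mem_nhds
    rw [hw]
    exact Metric.ball_mem_nhds w hr
  have e2 : ∀ᶠ xi in 𝓝[<] (X eps w), xi < X eps w := self_mem_nhdsWithin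
  have e3 : ∀ᶠ xi in 𝓝[<] (X eps w), ∀ p ∈ c.p, X eps p < xi :=
    ev_opt fun p hp => mem_nhdsWithin_of_mem_nhds
      (Ioi_mem_nhds (by rw [hX]; exact hc.shape.lt p hp v hv))
  have e4 : ∀ᶠ xi in 𝓝[<] (X eps w), ∀ b ∈ c.b, 0 < ori b (pt eps xi w.im) :=
    ev_opt fun b hb => mem_nhdsWithin_of_mem_nhds
      ((((continuous_ori b).comp hcont).tendsto (X eps w)).eventually (lt_mem_nhds (by
        simp only [Function.comp_apply]
        rw [hw]
        exact ho.1 b hb)))
  have e5 : ∀ᶠ xi in 𝓝[<] (X eps w), ∀ t ∈ c.t, ori t (pt eps xi w.im) < 0 :=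
    ev_opt fun t htt => mem_nhdsWithin_of_mem_nhds
      ((((continuous_ori t).comp hcont).tendsto (X eps w)).eventually (gt_mem_nhds (by
        simp only [Function.comp_apply]
        rw [hw]
        exact ho.2 t htt)))
  obtain ⟨xi, f1, f2, f3, f4, f5⟩ := (e1.and (e2.and (e3.and (e4.and e5)))).exists
  have hreg : pt eps xi w.im ∈ reg eps c := by
    refine ⟨⟨fun p hp => ?_, fun q hq => ?_⟩, f4, f5⟩
    · rw [X_pt]
      exact f3 p hp
    · rw [X_pt, Option.mem_unique hq hv, ← hX]
      exact f2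
  have hregL : pt eps xi w.im ∈ reg eps cL := hrL _ f1 (by rw [X_pt]; exact f2)
  have hcc : c = cL := valid_unique hG hc hcL hreg hregL
  refine ⟨c2, hc2, ⟨v, hv, hv2, ?_⟩, hv2, r', hr', hr2⟩
  rcases lt_or_gt_of_ne him with h | h
  · exact Or.inl (wall_top hG hc hc2 hv hv2 hX h ho.1 ho.2 hb2 ht2)
  · exact Or.inr (wall_bot hG hc hc2 hv hv2 hX h ho.1 ho.2 hb2 ht2)

end SFA
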