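import Pool.Agent.Lib.SFA.Alg
import Pool.Agent.Lib.P7m.Lists

/-!
# SFA.REnc: encodings of cells and records, and their `RC` projections
-/

namespace SFA

open P7m

noncomputable instance : Enc Cell := ⟨fun c => enc (c.b, c.t, c.p, c.q)⟩
noncomputable instance : Enc Rec := ⟨fun r => enc (r.c, r.K, r.nb)⟩
noncomputable instance : Enc Loc := ⟨fun l => enc (l.i, l.c, l.L, l.R)⟩

section

variable {A : Type} [Enc A]

private theorem cell0 : RC (fun c : Cell => (c.b, c.t, c.p, c.q)) (fun _ => 0) :=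
  RC.prim .id 1 (fun _ _ _ _ _ _ => ⟨rfl, le_refl _⟩)

private theorem rec0 : RC (fun r : Rec => (r.c, r.K, r.nb)) (fun _ => 0) :=
  RC.prim .id 1 (fun _ _ _ _ _ _ => ⟨rfl, le_refl _⟩)

private theorem loc00 : RC (fun l : Loc => (l.i, l.c, l.L, l.R)) (fun _ => 0) :=
  RC.prim .id 1 (fun _ _ _ _ _ _ => ⟨rfl, le_refl _⟩)

private theorem cell1 :
    RC (fun a : Option Seg × Option Seg × Option ℂ × Option ℂ => Cell.mk a.1 a.2.1 a.2.2.1 a.2.2.2)
      (fun _ => 0) :=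
  RC.prim .id 1 (fun _ _ _ _ _ _ => ⟨rfl, le_refl _⟩)

private theorem rec1 :
    RC (fun a : Cell × List (Seg × ℕ) × List ℕ => Rec.mk a.1 a.2.1 a.2.2) (fun _ => 0) :=
  RC.prim .id 1 (fun _ _ _ _ _ _ => ⟨rfl, le_refl _⟩)

private theorem loc1 :
    RC (fun a : ℕ × Cell × List (ℕ × Cell) × List (ℕ × Cell) => Loc.mk a.1 a.2.1 a.2.2.1 a.2.2.2)
      (fun _ => 0) :=
  RC.prim .id 1 (fun _ _ _ _ _ _ => ⟨rfl, le_refl _⟩)

theorem RC.cellb {f : A → Cell} {c : A → ℕ} (h : RC f c) : RC (fun a => (f a).b) c :=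
  RC.fst (RC.comp0 cell0 h)

theorem RC.cellt {f : A → Cell} {c : A → ℕ} (h : RC f c) : RC (fun a => (f a).t) c :=
  RC.fst (RC.snd (RC.comp0 cell0 h))

theorem RC.cellp {f : A → Cell} {c : A → ℕ} (h : RC f c) : RC (fun a => (f a).p) c :=
  RC.fst (RC.snd (RC.snd (RC.comp0 cell0 h)))

theorem RC.cellq {f : A → Cell} {c : A → ℕ} (h : RC f c) : RC (fun a => (f a).q) c :=
  RC.snd (RC.snd (RC.snd (RC.comp0 cell0 h)))

theorem RC.cellmk {b t : A → Option Seg} {p q : A → Option ℂ} {cb ct cp cq : A → ℕ}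
    (hb : RC b cb) (ht' : RC t ct) (hp : RC p cp) (hq : RC q cq) :
    RC (fun a => Cell.mk (b a) (t a) (p a) (q a)) (fun a => cb a + (ct a + (cp a + cq a))) :=
  RC.comp0 cell1 (RC.pair hb (RC.pair ht' (RC.pair hp hq)))

theorem RC.recc {f : A → Rec} {c : A → ℕ} (h : RC f c) : RC (fun a => (f a).c) c :=
  RC.fst (RC.comp0 rec0 h)

theorem RC.recK {f : A → Rec} {c : A → ℕ} (h : RC f c) : RC (fun a => (f a).K) c :=
  RC.fst (RC.snd (RC.comp0 rec0 h))

theorem RC.recnb {f : A → Rec} {c : A → ℕ} (h : RC f c) : RC (fun a => (f a).nb) c :=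
  RC.snd (RC.snd (RC.comp0 rec0 h))

theorem RC.recmk {c : A → Cell} {K : A → List (Seg × ℕ)} {nb : A → List ℕ} {cc cK cn : A → ℕ}
    (hc : RC c cc) (hK : RC K cK) (hn : RC nb cn) :
    RC (fun a => Rec.mk (c a) (K a) (nb a)) (fun a => cc a + (cK a + cn a)) :=
  RC.comp0 rec1 (RC.pair hc (RC.pair hK hn))

theorem RC.loci {f : A → Loc} {c : A → ℕ} (h : RC f c) : RC (fun a => (f a).i) c :=
  RC.fst (RC.comp0 loc00 h)

theorem RC.locc {f : A → Loc} {c : A → ℕ} (h : RC f c) : RC (fun a => (f a).c) c :=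
  RC.fst (RC.snd (RC.comp0 loc00 h))

theorem RC.locL {f : A → Loc} {c : A → ℕ} (h : RC f c) : RC (fun a => (f a).L) c :=
  RC.fst (RC.snd (RC.snd (RC.comp0 loc00 h)))

theorem RC.locR {f : A → Loc} {c : A → ℕ} (h : RC f c) : RC (fun a => (f a).R) c :=
  RC.snd (RC.snd (RC.snd (RC.comp0 loc00 h)))

theorem RC.locmk {i : A → ℕ} {c : A → Cell} {L R : A → List (ℕ × Cell)} {ci cc cL cR : A → ℕ}
    (hi : RC i ci) (hc : RC c cc) (hL : RC L cL) (hR : RC R cR) :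
    RC (fun a => Loc.mk (i a) (c a) (L a) (R a)) (fun a => ci a + (cc a + (cL a + cR a))) :=
  RC.comp0 loc1 (RC.pair hi (RC.pair hc (RC.pair hL hR)))

end

end SFA
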