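import Pool.Agent.Lib.SFA.RAssign
import Pool.Agent.Lib.SFA.OPre

/-!
# SFA.RG1: reading and preprocessing the input

`realsOf S x` = the coordinates of the segments, then of `x`.  `parseSegs n l`: fold / iteration with
`n` steps on the state (remaining list, reversed output); `parse_spec` by induction on `S`.
`rc_g1`: `rc_pre` for the preprocessing (`pre l` is the scan of the sorted events).
`pre_length_le`: the scan emits at most one piece for each event, and there are two events for every
segment (`scanStep` adds at most one element; `msort_perm`).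
`rc_lenb`: `b n = 2 n * lvl (2 n)` is computed by adding `lvl (2 n)` to itself `2 n` times
(`RC.iterate` or the sum of a replicated list).
-/

namespace SFA

open P7m Classical

/-- the real numbers on the input tape -/
def realsOf (S : List Seg) (x : ℂ) : List ℝ :=
  S.flatMap (fun s => [s.1.re, s.1.im, s.2.re, s.2.im]) ++ [x.re, x.im]

/-- reading `n` segments -/
def parseSegs : ℕ → List ℝ → List Seg
  | 0, _ => []
  | n + 1, l => (⟨l.getD 0 0, l.getD 1 0⟩, ⟨l.getD 2 0, l.getD 3 0⟩) :: parseSegs n (l.drop 4)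

/-- reading the marked point -/
def parsePt (n : ℕ) (l : List ℝ) : ℂ := ⟨(l.drop (4 * n)).getD 0 0, (l.drop (4 * n)).getD 1 0⟩

theorem parse_spec (S : List Seg) (x : ℂ) :
    parseSegs S.length (realsOf S x) = S ∧ parsePt S.length (realsOf S x) = x := by
  induction S with
  | nil =>
    refine ⟨rfl, ?_⟩
    apply Complex.ext <;> simp [parsePt, realsOf]
  | cons s t ih =>
    have h : realsOf (s :: t) x = s.1.re :: s.1.im :: s.2.re :: s.2.im :: realsOf t x := by
      simp [realsOf]
    rw [h, List.length_cons]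
    refine ⟨?_, ?_⟩
    · have h1 : parseSegs (t.length + 1) (s.1.re :: s.1.im :: s.2.re :: s.2.im :: realsOf t x)
          = (⟨s.1.re, s.1.im⟩, ⟨s.2.re, s.2.im⟩) :: parseSegs t.length (realsOf t x) := rfl
      rw [h1, ih.1]
    · have h2 : parsePt (t.length + 1) (s.1.re :: s.1.im :: s.2.re :: s.2.im :: realsOf t x)
          = parsePt t.length (realsOf t x) := by
        unfold parsePt
        have h3 : 4 * (t.length + 1) = 4 * t.length + 1 + 1 + 1 + 1 := by ring
        rw [h3]
        simp only [List.drop_succ_cons]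
      rw [h2, ih.2]

theorem realsOf_length (S : List Seg) (x : ℂ) : (realsOf S x).length = 4 * S.length + 2 := by
  induction S with
  | nil => rfl
  | cons s t ih =>
    have h : realsOf (s :: t) x = s.1.re :: s.1.im :: s.2.re :: s.2.im :: realsOf t x := by
      simp [realsOf]
    rw [h, List.length_cons, List.length_cons, List.length_cons, List.length_cons, ih,
      List.length_cons]
    ring

/-- preprocessing: pieces and marked point -/
noncomputable def g1 (a : ℕ × List ℝ) : List Seg × ℂ :=
  (pre (parseSegs a.1 a.2), parsePt a.1 a.2)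

theorem RG1Aux.scanR_length (t : List Ev) : ∀ a : Ev, (scanR a t).length ≤ t.length := by
  induction t with
  | nil => intro a; simp [scanR]
  | cons b t ih =>
    intro a
    unfold scanR
    have h := ih (evNext a b)
    split_ifs
    · rw [List.length_cons, List.length_cons]; omega
    · rw [List.length_cons]; omega

theorem RG1Aux.scan_length (l : List Ev) : (scan l).length ≤ l.length := by
  cases l with
  | nil => simp [scan_nil]
  | cons a t =>
    rw [scan_eq, List.length_reverse, List.length_cons]
    have := RG1Aux.scanR_length t a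
    omega

theorem RG1Aux.evS_length (l : List Seg) : (l.flatMap evS).length = 2 * l.length := by
  induction l with
  | nil => rfl
  | cons s t ih =>
    rw [List.flatMap_cons, List.length_append, ih, List.length_cons]
    have : (evS s).length = 2 := rfl
    omega

theorem pre_length_le (l : List Seg) : (pre l).length ≤ 2 * l.length := by
  unfold pre
  refine (RG1Aux.scan_length _).trans ?_
  rw [(P7m.msort_perm evLe (l.flatMap evS)).length_eq, RG1Aux.evS_length]

/-- one step of reading -/
noncomputable def RG1Aux.pstep (p : List ℝ × List Seg) : List ℝ × List Seg :=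
  (p.1.tail.tail.tail.tail,
    ((⟨(p.1.head?).getD 0, (p.1.tail.head?).getD 0⟩,
      ⟨(p.1.tail.tail.head?).getD 0, (p.1.tail.tail.tail.head?).getD 0⟩) : Seg) :: p.2)

theorem RG1Aux.rc_pstep : RC (fun p : List ℝ × List Seg => RG1Aux.pstep p) (fun _ => 0) := by
  have h0 : CT (fun p : List ℝ × List Seg => p.1) := RC.fst RC.id
  have h1 : CT (fun p : List ℝ × List Seg => p.1.tail) := RC.tail h0
  have h2 : CT (fun p : List ℝ × List Seg => p.1.tail.tail) := RC.tail h1
  have h3 : CT (fun p : List ℝ × List Seg => p.1.tail.tail.tail) := RC.tail h2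
  have h4 : CT (fun p : List ℝ × List Seg => p.1.tail.tail.tail.tail) := RC.tail h3
  have g : ∀ f : List ℝ × List Seg → List ℝ, CT f →
      CT (fun p => ((f p).head?).getD (0 : ℝ)) :=
    fun f hf => (RC.getD (RC.head? hf) RC.const_zero).of_le (fun _ => le_refl _)
  have c : ∀ f f' : List ℝ × List Seg → ℝ, CT f → CT f' →
      CT (fun p => (⟨f p, f' p⟩ : ℂ)) :=
    fun f f' hf hf' => (RC.complex hf hf').of_le (fun _ => le_refl _)
  have hs : CT (fun p : List ℝ × List Seg => ((⟨(p.1.head?).getD 0, (p.1.tail.head?).getD 0⟩,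
      ⟨(p.1.tail.tail.head?).getD 0, (p.1.tail.tail.tail.head?).getD 0⟩) : Seg)) :=
    CT.pair (c _ _ (g _ h0) (g _ h1)) (c _ _ (g _ h2) (g _ h3))
  exact CT.pair h4 ((RC.cons hs (RC.snd RC.id)).of_le (fun _ => le_refl _))

theorem RG1Aux.pstep_iter (n : ℕ) : ∀ (l : List ℝ) (acc : List Seg),
    (RG1Aux.pstep^[n] (l, acc)) = (l.drop (4 * n), (parseSegs n l).reverse ++ acc) := by
  induction n with
  | zero => intro l acc; simp [parseSegs]
  | succ n ih =>
    intro l acc
    rw [Function.iterate_succ_apply]
    have h : RG1Aux.pstep (l, acc) = (l.drop 4,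
        ((⟨l.getD 0 0, l.getD 1 0⟩, ⟨l.getD 2 0, l.getD 3 0⟩) : Seg) :: acc) := by
      unfold RG1Aux.pstep
      rcases l with _ | ⟨a, _ | ⟨b, _ | ⟨c, _ | ⟨d, l⟩⟩⟩⟩ <;> simp
    rw [h, ih]
    have h2 : (l.drop 4).drop (4 * n) = l.drop (4 * (n + 1)) := by
      rw [List.drop_drop]
      congr 1
      ring
    rw [h2]
    simp [parseSegs]

theorem RG1Aux.parseSegs_length (n : ℕ) : ∀ l : List ℝ, (parseSegs n l).length = n := by
  induction n with
  | zero => intro l; rfl
  | succ n ih => intro l; simp [parseSegs, ih]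

theorem rc_g1 : RC g1 (fun a => a.1 * Nat.clog 2 a.1 + a.1) := by
  have hit := RC.iterate (f := fun (_ : ℕ × List ℝ) s => RG1Aux.pstep s)
    (b := fun a : ℕ × List ℝ => (a.2, ([] : List Seg)))
    (RC.fst RC.id) (RC.pair (RC.snd RC.id) RC.nil)
    (RC.comp0 (g := RG1Aux.pstep) RG1Aux.rc_pstep (RC.snd RC.id))
  have h1 : RC (fun a : ℕ × List ℝ => RG1Aux.pstep^[a.1] (a.2, ([] : List Seg)))
      (fun a => a.1) := by
    refine hit.of_le (fun a => ?_)
    have h2 := iterCost_le_const (fun s => RG1Aux.pstep s) (fun _ => 0) 0 a.1 (a.2, [])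
      (fun _ => le_refl _)
    simp only [Nat.zero_add, Nat.one_mul] at h2 ⊢
    exact h2
  have h2 : RC (fun a : ℕ × List ℝ => parseSegs a.1 a.2) (fun a => a.1) := by
    refine ((RC.reverse (RC.snd h1)).mono 2 (fun a => ?_)).congr (fun a => ?_)
    · rw [RG1Aux.pstep_iter, List.append_nil, List.length_reverse, RG1Aux.parseSegs_length]
      omega
    · rw [RG1Aux.pstep_iter]; simp
  have h3 : RC (fun a : ℕ × List ℝ => pre (parseSegs a.1 a.2))
      (fun a => a.1 * Nat.clog 2 a.1 + a.1) := by
    refine (RC.comp (g := fun l : List Seg => pre l) rc_pre' h2).mono 2 (fun a => ?_)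
    rw [RG1Aux.parseSegs_length]
    omega
  have h4 : RC (fun a : ℕ × List ℝ => parsePt a.1 a.2) (fun a => a.1) := by
    have hd : RC (fun a : ℕ × List ℝ => a.2.drop (4 * a.1)) (fun a => a.1) :=
      (RC.fst h1).congr (fun a => by rw [RG1Aux.pstep_iter])
    refine ((RC.complex (RC.getD (RC.head? hd) RC.const_zero)
      (RC.getD (RC.head? (RC.tail hd)) RC.const_zero)).mono 2 (fun a => by omega)).congr
      (fun a => ?_)
    unfold parsePt
    rcases a.2.drop (4 * a.1) with _ | ⟨b, _ | ⟨c, l⟩⟩ <;> simp
  exact (RC.pair h3 h4).mono 2 (fun a => by omega)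

theorem rc_lenb : RC (fun n : ℕ => 2 * n * lvl (2 * n)) (fun n => n) := by
  have hn : RC (fun n : ℕ => 2 * n) (fun _ => 0) := RC.nmulConst 2 RC.id
  have hl : RC (fun n : ℕ => lvl (2 * n)) (fun n => n) :=
    (RC.comp (g := fun N : ℕ => lvl N) rc_lvl hn).mono 2 (fun n => by omega)
  have hit := RC.iterate (f := fun (q : ℕ × ℕ) s => s + q.2) (b := fun _ : ℕ × ℕ => 0)
    (n := fun q : ℕ × ℕ => q.1) (RC.fst RC.id) (RC.const_nat 0)
    (RC.nadd (RC.snd RC.id) (RC.snd (RC.fst RC.id)))
  have h1 : RC (fun q : ℕ × ℕ => q.1 * q.2) (fun q => q.1) := by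
    refine (hit.of_le (fun q => ?_)).congr (fun q => ?_)
    · have h2 := iterCost_le_const (fun s => s + q.2) (fun _ => 0) 0 q.1 0 (fun _ => le_refl _)
      simp only [Nat.zero_add, Nat.one_mul] at h2 ⊢
      exact h2
    · have h3 : ∀ k : ℕ, (fun s => s + q.2)^[k] 0 = k * q.2 := by
        intro k
        induction k with
        | zero => simp
        | succ k ih => rw [Function.iterate_succ_apply', ih]; ring
      exact (h3 q.1).symm
  refine ((RC.comp (g := fun q : ℕ × ℕ => q.1 * q.2) h1 (RC.pair hn hl)).mono 3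
    (fun n => ?_)).congr (fun n => rfl)
  dsimp only
  omega

theorem rc_lenl : RC (fun n : ℕ => 4 * n + 2) (fun _ => 0) :=
  (RC.succ (RC.succ (RC.nmulConst 4 RC.id)))

end SFA
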