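import Pool.Agent.Lib.SFA.RTest

/-!
# SFA.RIsPc: the test for pieces costs a constant plus the length of the list `N`

Everything in `isPc c N d` is constant time (`CT.elim`, `CT.lexB`, `CT.spanB`, `CT.sgEq`, `CT.above`,
`CT.loPt`, `CT.hitB`, `CT.conflB`, `CT.osEq`, `CT.opEq`, `CT.bandB`, `CT.cellmk`) except
`N.all (fun s => !(conflB d s))`, for which `RC.all` gives the cost `sum over N of (0 + 1)`.
A constant time fact `CT f` is by definition `RC f (fun _ => 0)`.
-/

namespace SFA

open P7m Classical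

namespace RIsPcAux

variable {A : Type} [Enc A]

theorem a1 {d : A → Cell} (hd : CT d) :
    CT (fun a => (d a).p.elim true (fun p => (d a).q.elim true (fun q => lexB p q))) :=
  CT.elim (s := fun a p => (d a).q.elim true (fun q => lexB p q)) (CT.cellp hd) CT.tt
    (CT.elim (s := fun (r : A × ℂ) q => lexB r.2 q) (CT.cellq (CT.comp hd (CT.fst CT.id))) CT.tt
      (CT.lexB (CT.snd (CT.fst CT.id)) (CT.snd CT.id)))

theorem a2 {d : A → Cell} {o : A → Option Seg} (hd : CT d) (ho : CT o) :
    CT (fun a => (o a).elim true (fun b => spanB (d a) b)) :=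
  CT.elim (s := fun a b => spanB (d a) b) ho CT.tt
    (CT.spanB (CT.comp hd (CT.fst CT.id)) (CT.snd CT.id))

theorem a4 {d : A → Cell} (hd : CT d) :
    CT (fun a => (d a).b.elim true (fun b => (d a).t.elim true (fun t =>
      !(sgEq b t) && above t b (loPt (d a) b) && !(hitB (d a) b (some t))))) := by
  refine CT.elim (s := fun a b => (d a).t.elim true (fun t =>
      !(sgEq b t) && above t b (loPt (d a) b) && !(hitB (d a) b (some t)))) (CT.cellb hd) CT.tt ?_
  have hd1 : CT (fun p : A × Seg => d p.1) := CT.comp hd (CT.fst CT.id)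
  refine CT.elim (s := fun (p : A × Seg) t =>
      !(sgEq p.2 t) && above t p.2 (loPt (d p.1) p.2) && !(hitB (d p.1) p.2 (some t)))
      (CT.cellt hd1) CT.tt ?_
  have hd2 : CT (fun p : (A × Seg) × Seg => d p.1.1) := CT.comp hd (CT.fst (CT.fst CT.id))
  have hb : CT (fun p : (A × Seg) × Seg => p.1.2) := CT.snd (CT.fst CT.id)
  have ht : CT (fun p : (A × Seg) × Seg => p.2) := CT.snd CT.id
  exact CT.and (CT.and (CT.not (CT.sgEq hb ht)) (CT.above ht hb (CT.loPt hd2 hb)))
    (CT.not (CT.hitB hd2 hb (CT.some ht)))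

theorem a5 {d : A → Cell} {o o' : A → Option Seg} (hd : CT d) (ho : CT o) (ho' : CT o') :
    CT (fun a => osEq (o a) (o' a) || (o a).elim false (fun b => conflB (d a) b)) :=
  CT.or (CT.osEq ho ho') (CT.elim (s := fun a b => conflB (d a) b) ho CT.ff
    (CT.conflB (CT.comp hd (CT.fst CT.id)) (CT.snd CT.id)))

theorem a8 {d : A → Cell} {o : A → Option Seg} (hd : CT d) (ho : CT o) :
    CT (fun a => (o a).elim true (fun b => !(conflB (d a) b))) :=
  CT.elim (s := fun a b => !(conflB (d a) b)) ho CT.tt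
    (CT.not (CT.conflB (CT.comp hd (CT.fst CT.id)) (CT.snd CT.id)))

theorem a10 {d : A → Cell} {o o' : A → Option ℂ} (hd : CT d) (ho : CT o) (ho' : CT o') :
    CT (fun a => opEq (o a) (o' a) || (o a).elim false (fun p => bandB (d a) p)) :=
  CT.or (CT.opEq ho ho') (CT.elim (s := fun a p => bandB (d a) p) ho CT.ff
    (CT.bandB (CT.comp hd (CT.fst CT.id)) (CT.snd CT.id)))

end RIsPcAux

open RIsPcAux in
theorem rc_isPc : RC (fun a : (Cell × List Seg) × Cell => isPc a.1.1 a.1.2 a.2)
    (fun a => a.1.2.length) := by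
  have hc : CT (fun a : (Cell × List Seg) × Cell => a.1.1) := CT.fst (CT.fst CT.id)
  have hd : CT (fun a : (Cell × List Seg) × Cell => a.2) := CT.snd CT.id
  have hN : RC (fun a : (Cell × List Seg) × Cell => a.1.2) (fun _ => 0) := RC.snd (RC.fst RC.id)
  have hcd : CT (fun a : (Cell × List Seg) × Cell =>
      (⟨a.1.1.b, a.1.1.t, a.2.p, a.2.q⟩ : Cell)) :=
    CT.cellmk (CT.cellb hc) (CT.cellt hc) (CT.cellp hd) (CT.cellq hd)
  have h7 : RC (fun a : (Cell × List Seg) × Cell => a.1.2.all (fun s => !(conflB a.2 s)))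
      (fun a => 0 + (a.1.2.map (fun _ => 0 + 1)).sum) :=
    RC.all (p := fun (a : (Cell × List Seg) × Cell) s => !(conflB a.2 s)) hN
      (CT.not (CT.conflB (CT.snd (CT.fst CT.id)) (CT.snd CT.id)))
  have h := RC.and (RC.and (RC.and (RC.and (RC.and (CT.and (CT.and (CT.and (CT.and (CT.and
    (a1 hd) (a2 hd (CT.cellb hd))) (a2 hd (CT.cellt hd))) (a4 hd))
    (a5 hcd (CT.cellb hd) (CT.cellb hc))) (a5 hcd (CT.cellt hd) (CT.cellt hc))) h7)
    (a8 hd (CT.cellb hc))) (a8 hd (CT.cellt hc))) (a10 hd (CT.cellp hd) (CT.cellp hc)))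
    (a10 hd (CT.cellq hd) (CT.cellq hc))
  refine (h.of_le (fun a => ?_)).congr (fun a => rfl)
  have e : ∀ l : List Seg, (l.map (fun _ => 0 + 1)).sum = l.length := by
    intro l
    induction l with
    | nil => rfl
    | cons x t ih => simp; omega
  rw [e]
  simp

end SFA
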