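import Pool.Agent.Lib.SFA.RDedup
import Pool.Agent.Lib.SFA.RCrit
import Pool.Agent.Lib.SFA.RIsPc

/-!
# SFA.RPieces: the pieces of a cell

`candL`: four nested `RC.flatMap` / `RC.map` over lists of lengths `N.length+1`, `N.length+1`,
`C.length+1`, `C.length+1` (context style: the context of the inner body is the tuple of the chosen
elements together with the cell and the lists).  Length exactly the product.
`pieces c N` = `(candL c N (dedupB ptEq (critL c N))).filter (isPc c N)`: with
`C.length <= 4 (N.length+1)^2` (`dedupB_length_le`, `critL_length_le`) there are at most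
`(N.length+1)^2 (4 (N.length+1)^2 + 1)^2 <= 25 (N.length+1)^6` candidates, each tested with cost
`C (N.length + 1)` (`rc_isPc`); the other costs are at most `C (N.length+1)^6`.
-/

namespace SFA

open P7m Classical

namespace RPiecesAux

theorem sum_le {B : Type} (l : List B) (g : B → ℕ) (k : ℕ) (h : ∀ x ∈ l, g x ≤ k) :
    (l.map g).sum ≤ l.length * k := by
  induction l with
  | nil => simp
  | cons a t ih =>
    have h1 := h a (by simp)
    have h2 := ih (fun x hx => h x (by simp [hx]))
    simp only [List.map_cons, List.sum_cons, List.length_cons]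
    have e : (t.length + 1) * k = t.length * k + k := by ring
    omega

theorem flat_len {B D : Type} (l : List B) (f : B → List D) (k : ℕ)
    (h : ∀ x, (f x).length = k) : (l.flatMap f).length = l.length * k := by
  induction l with
  | nil => simp
  | cons a t ih =>
    rw [List.flatMap_cons, List.length_append, ih, h a, List.length_cons]
    ring

/-- the innermost list -/
noncomputable def f3 (c : Cell) (C : List ℂ) (b t : Option Seg) (p : Option ℂ) : List Cell :=
  (c.q :: C.map some).map (fun q => Cell.mk b t p q)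

/-- the second list -/
noncomputable def f2 (c : Cell) (C : List ℂ) (b t : Option Seg) : List Cell :=
  (c.p :: C.map some).flatMap (fun p => f3 c C b t p)

/-- the third list -/
noncomputable def f1 (c : Cell) (N : List Seg) (C : List ℂ) (b : Option Seg) : List Cell :=
  (c.t :: N.map some).flatMap (fun t => f2 c C b t)

theorem f3_len (c : Cell) (C : List ℂ) (b t : Option Seg) (p : Option ℂ) :
    (f3 c C b t p).length = C.length + 1 := by
  simp [f3]

theorem f2_len (c : Cell) (C : List ℂ) (b t : Option Seg) :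
    (f2 c C b t).length = (C.length + 1) ^ 2 := by
  unfold f2
  rw [flat_len _ _ (C.length + 1) (fun p => f3_len c C b t p)]
  simp
  ring

theorem f1_len (c : Cell) (N : List Seg) (C : List ℂ) (b : Option Seg) :
    (f1 c N C b).length = (N.length + 1) * (C.length + 1) ^ 2 := by
  unfold f1
  rw [flat_len _ _ ((C.length + 1) ^ 2) (fun t => f2_len c C b t)]
  simp

theorem candL_eq (c : Cell) (N : List Seg) (C : List ℂ) :
    candL c N C = (c.b :: N.map some).flatMap (fun b => f1 c N C b) := rfl

/-- the input -/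
abbrev A0 : Type := Cell × List Seg × List ℂ

theorem rcN {X : Type} [Enc X] {l : X → List Seg} {o : X → Option Seg} (hl : RC l (fun _ => 0))
    (ho : RC o (fun _ => 0)) :
    RC (fun a => o a :: (l a).map some) (fun a => (l a).length) := by
  have h := RC.cons ho (RC.map (f := fun _ (x : Seg) => some x) hl (RC.some (RC.snd RC.id)))
  refine h.of_le (fun a => ?_)
  have := sum_le (l a) (fun _ => 0 + 1) 1 (fun _ _ => le_rfl)
  try simp only at this ⊢
  omega

theorem rcC {X : Type} [Enc X] {l : X → List ℂ} {o : X → Option ℂ} (hl : RC l (fun _ => 0))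
    (ho : RC o (fun _ => 0)) :
    RC (fun a => o a :: (l a).map some) (fun a => (l a).length) := by
  have h := RC.cons ho (RC.map (f := fun _ (x : ℂ) => some x) hl (RC.some (RC.snd RC.id)))
  refine h.of_le (fun a => ?_)
  have := sum_le (l a) (fun _ => 0 + 1) 1 (fun _ _ => le_rfl)
  try simp only at this ⊢
  omega

theorem rc3 : RC (fun p : ((A0 × Option Seg) × Option Seg) × Option ℂ =>
    f3 p.1.1.1.1 p.1.1.1.2.2 p.1.1.2 p.1.2 p.2) (fun p => p.1.1.1.2.2.length) := by
  have hA : RC (fun p : ((A0 × Option Seg) × Option Seg) × Option ℂ => p.1.1.1) (fun _ => 0) :=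
    RC.fst (RC.fst (RC.fst RC.id))
  have h1 := rcC (RC.snd (RC.snd hA)) (RC.cellq (RC.fst hA))
  have h2 : RC (fun p : (((A0 × Option Seg) × Option Seg) × Option ℂ) × Option ℂ =>
      Cell.mk p.1.1.1.2 p.1.1.2 p.1.2 p.2) (fun _ => 0 + (0 + (0 + 0))) :=
    RC.cellmk (RC.snd (RC.fst (RC.fst (RC.fst RC.id)))) (RC.snd (RC.fst (RC.fst RC.id)))
      (RC.snd (RC.fst RC.id)) (RC.snd RC.id)
  have h := RC.map (f := fun (p : ((A0 × Option Seg) × Option Seg) × Option ℂ) (q : Option ℂ) =>
      Cell.mk p.1.1.2 p.1.2 p.2 q) h1 h2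
  refine h.mono 2 (fun a => ?_)
  have := sum_le (a.1.1.1.1.q :: a.1.1.1.2.2.map some) (fun _ : Option ℂ => 0 + (0 + (0 + 0)) + 1) 1
    (fun _ _ => le_rfl)
  simp only [List.length_cons, List.length_map] at this ⊢
  omega

theorem rc2 : RC (fun p : (A0 × Option Seg) × Option Seg =>
    f2 p.1.1.1 p.1.1.2.2 p.1.2 p.2) (fun p => (p.1.1.2.2.length + 1) ^ 2) := by
  have hA : RC (fun p : (A0 × Option Seg) × Option Seg => p.1.1) (fun _ => 0) :=
    RC.fst (RC.fst RC.id)
  have h1 := rcC (RC.snd (RC.snd hA)) (RC.cellp (RC.fst hA))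
  have h := RC.flatMap (f := fun (p : (A0 × Option Seg) × Option Seg) (q : Option ℂ) =>
      f3 p.1.1.1 p.1.1.2.2 p.1.2 p.2 q) h1 rc3
  refine h.mono 4 (fun a => ?_)
  simp only [f3_len]
  have := sum_le (a.1.1.1.p :: a.1.1.2.2.map some)
    (fun _ : Option ℂ => a.1.1.2.2.length + (a.1.1.2.2.length + 1) + 1)
    (a.1.1.2.2.length + (a.1.1.2.2.length + 1) + 1) (fun _ _ => le_rfl)
  simp only [List.length_cons, List.length_map] at this ⊢
  nlinarith

theorem rc1 : RC (fun p : A0 × Option Seg =>
    f1 p.1.1 p.1.2.1 p.1.2.2 p.2)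
      (fun p => (p.1.2.1.length + 1) * (p.1.2.2.length + 1) ^ 2) := by
  have hA : RC (fun p : A0 × Option Seg => p.1) (fun _ => 0) := RC.fst RC.id
  have h1 := rcN (RC.fst (RC.snd hA)) (RC.cellt (RC.fst hA))
  have h := RC.flatMap (f := fun (p : A0 × Option Seg) (q : Option Seg) =>
      f2 p.1.1 p.1.2.2 p.2 q) h1 rc2
  refine h.mono 4 (fun a => ?_)
  simp only [f2_len]
  have := sum_le (a.1.1.t :: a.1.2.1.map some)
    (fun _ : Option Seg => (a.1.2.2.length + 1) ^ 2 + (a.1.2.2.length + 1) ^ 2 + 1)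
    ((a.1.2.2.length + 1) ^ 2 + (a.1.2.2.length + 1) ^ 2 + 1) (fun _ _ => le_rfl)
  simp only [List.length_cons, List.length_map] at this ⊢
  have h1 : 1 ≤ (a.1.2.2.length + 1) ^ 2 := Nat.one_le_pow _ _ (by omega)
  nlinarith

end RPiecesAux

open RPiecesAux

theorem candL_length (c : Cell) (N : List Seg) (C : List ℂ) :
    (candL c N C).length = (N.length + 1) ^ 2 * (C.length + 1) ^ 2 := by
  rw [candL_eq, flat_len _ _ ((N.length + 1) * (C.length + 1) ^ 2) (fun b => f1_len c N C b)]
  simp
  ring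

theorem rc_candL : RC (fun a : Cell × List Seg × List ℂ => candL a.1 a.2.1 a.2.2)
    (fun a => (a.2.1.length + 1) ^ 2 * (a.2.2.length + 1) ^ 2) := by
  have hA : RC (fun p : A0 => p) (fun _ => 0) := RC.id
  have h1 := rcN (RC.fst (RC.snd hA)) (RC.cellb (RC.fst hA))
  have h := RC.flatMap (f := fun (p : A0) (q : Option Seg) =>
      f1 p.1 p.2.1 p.2.2 q) h1 rc1
  refine h.mono 4 (fun a => ?_)
  simp only [f1_len]
  have := sum_le (a.1.b :: a.2.1.map some)
    (fun _ : Option Seg => (a.2.1.length + 1) * (a.2.2.length + 1) ^ 2 +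
      (a.2.1.length + 1) * (a.2.2.length + 1) ^ 2 + 1)
    ((a.2.1.length + 1) * (a.2.2.length + 1) ^ 2 +
      (a.2.1.length + 1) * (a.2.2.length + 1) ^ 2 + 1) (fun _ _ => le_rfl)
  simp only [List.length_cons, List.length_map] at this ⊢
  have h1 : 1 ≤ (a.2.2.length + 1) ^ 2 := Nat.one_le_pow _ _ (by omega)
  have h2 : a.2.1.length + 1 ≤ (a.2.1.length + 1) * (a.2.2.length + 1) ^ 2 :=
    Nat.le_mul_of_pos_right _ (by omega)
  have h3 : (a.2.1.length + 1) * (a.2.2.length + 1) ^ 2 ≤
      (a.2.1.length + 1) ^ 2 * (a.2.2.length + 1) ^ 2 := by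
    apply Nat.mul_le_mul_right
    nlinarith
  nlinarith

namespace RPiecesAux

theorem cand_le (c : Cell) (N : List Seg) :
    (candL c N (dedupB ptEq (critL c N))).length ≤ 25 * (N.length + 1) ^ 6 := by
  rw [candL_length]
  have h1 := dedupB_length_le ptEq (critL c N)
  have h2 := critL_length_le c N
  have h3 : 1 ≤ (N.length + 1) ^ 2 := Nat.one_le_pow _ _ (by omega)
  have h4 : (dedupB ptEq (critL c N)).length + 1 ≤ 5 * (N.length + 1) ^ 2 := by omega
  calc (N.length + 1) ^ 2 * ((dedupB ptEq (critL c N)).length + 1) ^ 2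
      ≤ (N.length + 1) ^ 2 * (5 * (N.length + 1) ^ 2) ^ 2 :=
        Nat.mul_le_mul_left _ (Nat.pow_le_pow_left h4 2)
    _ = 25 * (N.length + 1) ^ 6 := by ring

end RPiecesAux

theorem pieces_length_le (c : Cell) (N : List Seg) :
    (pieces c N).length ≤ 25 * (N.length + 1) ^ 6 := by
  unfold pieces
  exact (List.length_filter_le _ _).trans (cand_le c N)

theorem rc_pieces : RC (fun a : Cell × List Seg => pieces a.1 a.2)
    (fun a => (a.2.length + 1) ^ 7) := by
  have hded := RC.dedupPt rc_critL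
  have hcand := RC.comp (g := fun a : Cell × List Seg × List ℂ => candL a.1 a.2.1 a.2.2) rc_candL
    (RC.pair (RC.fst (RC.id (A := Cell × List Seg))) (RC.pair (RC.snd (RC.id (A := Cell × List Seg)))
      hded))
  have h := RC.filter (p := fun (a : Cell × List Seg) (x : Cell) => isPc a.1 a.2 x) hcand rc_isPc
  refine RC.mono h 100 (fun a => ?_)
  obtain ⟨c, N⟩ := a
  simp only
  have e1 := critL_length_le c N
  have e2 := cand_le c N
  have e3 := sum_le (candL c N (dedupB ptEq (critL c N))) (fun _ => N.length + 1)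
    (N.length + 1) (fun _ _ => le_rfl)
  rw [← candL_length c N (dedupB ptEq (critL c N))]
  have m1 : (critL c N).length ^ 2 ≤ 16 * (N.length + 1) ^ 4 := by
    calc (critL c N).length ^ 2 ≤ (4 * (N.length + 1) ^ 2) ^ 2 := Nat.pow_le_pow_left e1 2
      _ = 16 * (N.length + 1) ^ 4 := by ring
  have m2 : (candL c N (dedupB ptEq (critL c N))).length * (N.length + 1) ≤
      25 * (N.length + 1) ^ 7 := by
    calc _ ≤ 25 * (N.length + 1) ^ 6 * (N.length + 1) := Nat.mul_le_mul_right _ e2
      _ = 25 * (N.length + 1) ^ 7 := by ring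
  have p2 : (N.length + 1) ^ 2 ≤ (N.length + 1) ^ 7 :=
    Nat.pow_le_pow_right (by omega) (by omega)
  have p4 : (N.length + 1) ^ 4 ≤ (N.length + 1) ^ 7 :=
    Nat.pow_le_pow_right (by omega) (by omega)
  have p6 : (N.length + 1) ^ 6 ≤ (N.length + 1) ^ 7 :=
    Nat.pow_le_pow_right (by omega) (by omega)
  try simp only at e3 ⊢
  omega

end SFA
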