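import Pool.Agent.Lib.SFA.RRoundB

/-!
# SFA.RRoundC: cost of a round

`rdIdx`: `rc_scatter` with `rc_rdStarts`, `RC.zipIdx`, cost `<= 2 rdP.length`.
`rdNbs`: `gather [] rdRa (rdCh.map getLastD)` (`rc_gather`, `rc_getLastD`), then `gather2 0 rdIdx ..`
(`rc_gather2`): cost `rdIdx.length + sum over the gathered lists of (length + 1)`, the fourth term of
`roundCost` (`List.getD` of the index).
`gather2 pc0 rdP rdCh` (`rc_gather2`): cost `rdP.length + sum (l.length + 1)`.
Final map: `rc_mergeC`, `rc_mergeK` (fifth term), `RC.recmk`; the lists in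
`gather2 pc0 rdP rdCh` have the same lengths as those of `rdCh`; use `rdCh_sum_le`.
By `round_eq_rd` (rfl) this is `round`.
-/

namespace SFA

open P7m Classical

namespace RRoundCAux

theorem sum_zip_le {X Y : Type} (g : X → ℕ) (l : List X) (r : List Y) :
    ((l.zip r).map (fun a => g a.1)).sum ≤ (l.map g).sum := by
  induction l generalizing r with
  | nil => simp
  | cons x t ih =>
    cases r with
    | nil => simp
    | cons y s =>
      have := ih s
      simp only [List.zip_cons_cons, List.map_cons, List.sum_cons]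
      omega

theorem length_le_sum {X : Type} (l : List (List X)) :
    l.length ≤ (l.map (fun x => x.length + 1)).sum := by
  induction l with
  | nil => simp
  | cons x t ih => simp only [List.length_cons, List.map_cons, List.sum_cons]; omega

theorem sum_succ {X : Type} (g : X → ℕ) (l : List X) :
    (l.map (fun x => g x + 1)).sum = (l.map g).sum + l.length := by
  induction l with
  | nil => rfl
  | cons x t ih =>
    simp only [List.map_cons, List.sum_cons, List.length_cons, ih]
    omega

theorem sum_le {X : Type} (g h : X → ℕ) (K : ℕ) (l : List X) (H : ∀ x, g x ≤ K * h x) :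
    (l.map g).sum ≤ K * (l.map h).sum := by
  induction l with
  | nil => simp
  | cons x t ih =>
    have := H x
    simp only [List.map_cons, List.sum_cons]
    rw [mul_add]
    omega

theorem bounds (i : ℕ) (x : ℂ) (recs : List Rec) :
    cA i recs ≤ roundCost i x recs ∧
    ((rdCh i x recs).map (fun l => l.length + 1)).sum ≤ roundCost i x recs ∧
    ((rdCh i x recs).map (fun l => ((rdRa i recs).getD (l.getLastD 0) []).length)).sum
      ≤ roundCost i x recs ∧
    ((gather2 pc0 (rdP i recs) (rdCh i x recs)).map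
      (fun l => (l.map (fun p => p.2.length + 1)).sum)).sum ≤ roundCost i x recs ∧
    (rdP i recs).length ≤ 25 * roundCost i x recs ∧
    (rdRa i recs).length ≤ 25 * roundCost i x recs ∧
    (rdStarts i x recs).length ≤ 25 * roundCost i x recs ∧
    (rdCh i x recs).length ≤ roundCost i x recs := by
  have h1 : cA i recs ≤ roundCost i x recs := by unfold cA roundCost; omega
  have h2 : ((rdCh i x recs).map (fun l => l.length + 1)).sum ≤ roundCost i x recs := by
    unfold roundCost; omega
  have h3 := rdP_length_le i recs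
  have h4 := rdRa_length i recs
  have h5 := rdStarts_length_le i x recs
  have h6 := length_le_sum (rdCh i x recs)
  refine ⟨h1, h2, by unfold roundCost; omega, by unfold roundCost; omega, by omega, by omega,
    by omega, by omega⟩

abbrev Inp : Type := ℕ × ℂ × List Rec

noncomputable abbrev T (a : Inp) : ℕ := roundCost a.1 a.2.1 a.2.2

theorem rcP : RC (fun a : Inp => rdP a.1 a.2.2) T :=
  (RC.comp rc_rdP (RC.pair (RC.fst RC.id) (RC.snd (RC.snd RC.id)))).of_le (fun a => by
    have := (bounds a.1 a.2.1 a.2.2).1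
    simp only [T]
    omega)

theorem rcRa : RC (fun a : Inp => rdRa a.1 a.2.2) T :=
  (RC.comp rc_rdRa (RC.pair (RC.fst RC.id) (RC.snd (RC.snd RC.id)))).of_le (fun a => by
    have := (bounds a.1 a.2.1 a.2.2).1
    simp only [T]
    omega)

theorem rcCh : RC (fun a : Inp => rdCh a.1 a.2.1 a.2.2) T :=
  rc_rdCh.of_le (fun a => (bounds a.1 a.2.1 a.2.2).1)

theorem rcStarts : RC (fun a : Inp => rdStarts a.1 a.2.1 a.2.2) T :=
  rc_rdStarts.of_le (fun a => (bounds a.1 a.2.1 a.2.2).1)

theorem rcLast : RC (fun a : Inp => (rdCh a.1 a.2.1 a.2.2).map (fun l => l.getLastD 0)) T := by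
  have h := RC.map (f := fun (_ : Inp) (l : List ℕ) => l.getLastD 0) rcCh
    (rc_getLastD (RC.snd RC.id) (RC.const_nat 0))
  refine h.mono 2 (fun a => ?_)
  obtain ⟨_, h2, _⟩ := bounds a.1 a.2.1 a.2.2
  simp only [T, zero_add] at h2 ⊢
  omega

theorem rcG1 : RC (fun a : Inp => gather [] (rdRa a.1 a.2.2)
    ((rdCh a.1 a.2.1 a.2.2).map (fun l => l.getLastD 0))) T := by
  have h := RC.comp (rc_gather (B := List ℕ)) (RC.pair (RC.nil (A := Inp) (B := ℕ))
    (RC.pair rcRa rcLast))
  refine h.mono 30 (fun a => ?_)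
  obtain ⟨_, _, _, _, _, h6, _, h8⟩ := bounds a.1 a.2.1 a.2.2
  simp only [T, zero_add, List.length_map] at *
  omega

theorem rcIdx : RC (fun a : Inp => rdIdx a.1 a.2.1 a.2.2) T := by
  have h := RC.comp (rc_scatter (B := ℕ)) (RC.pair (RC.const_nat (A := Inp) 0)
    (RC.pair (RC.length rcP) (RC.zipIdx rcStarts (RC.const_nat 0))))
  refine h.mono 200 (fun a => ?_)
  obtain ⟨_, _, _, _, h5, _, h7, _⟩ := bounds a.1 a.2.1 a.2.2
  simp only [T, zero_add, add_zero, List.length_zipIdx] at *
  omega

theorem idx_length (i : ℕ) (x : ℂ) (recs : List Rec) :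
    (rdIdx i x recs).length = (rdP i recs).length := by
  simp [rdIdx, scatter]

theorem rcPc0 {A : Type} [Enc A] : RC (fun _ : A => pc0) (fun _ => 0) :=
  (RC.pair (RC.cellmk RC.none RC.none RC.none RC.none) RC.nil).of_le (fun _ => le_refl _)

theorem rcG2 : RC (fun a : Inp => gather2 pc0 (rdP a.1 a.2.2) (rdCh a.1 a.2.1 a.2.2)) T := by
  have h := RC.comp (rc_gather2 (B := Pc)) (RC.pair (rcPc0 (A := Inp)) (RC.pair rcP rcCh))
  refine h.mono 100 (fun a => ?_)
  obtain ⟨_, h2, _, _, h5, _⟩ := bounds a.1 a.2.1 a.2.2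
  simp only [T, zero_add] at *
  omega

end RRoundCAux

open RRoundCAux

theorem rc_rdNbs : RC (fun a : ℕ × ℂ × List Rec => rdNbs a.1 a.2.1 a.2.2)
    (fun a => roundCost a.1 a.2.1 a.2.2) := by
  have h := RC.comp (rc_gather2 (B := ℕ)) (RC.pair (RC.const_nat (A := Inp) 0)
    (RC.pair rcIdx rcG1))
  refine h.mono 100 (fun a => ?_)
  obtain ⟨_, _, h3, _, h5, _, _, h8⟩ := bounds a.1 a.2.1 a.2.2
  have h9 := idx_length a.1 a.2.1 a.2.2
  have h10 : ((gather [] (rdRa a.1 a.2.2) ((rdCh a.1 a.2.1 a.2.2).map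
      (fun l => l.getLastD 0))).map (fun l => l.length + 1)).sum =
      ((rdCh a.1 a.2.1 a.2.2).map
        (fun l => ((rdRa a.1 a.2.2).getD (l.getLastD 0) []).length)).sum +
        (rdCh a.1 a.2.1 a.2.2).length := by
    rw [← sum_succ]
    simp only [gather, List.map_map]
    rfl
  simp only [T, zero_add] at *
  rw [h10, h9]
  omega

theorem rc_round : RC (fun a : ℕ × ℂ × List Rec => round a.1 a.2.1 a.2.2)
    (fun a => roundCost a.1 a.2.1 a.2.2) := by
  have hm : RC (fun p : Inp × (List Pc × List ℕ) => Rec.mk (mergeC p.2.1) (mergeK p.2.1) p.2.2)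
      _ :=
    RC.recmk (RC.comp rc_mergeC (RC.fst (RC.snd RC.id))) (RC.comp rc_mergeK (RC.fst (RC.snd RC.id)))
      (RC.snd (RC.snd RC.id))
  have h := RC.map (f := fun (_ : Inp) (q : List Pc × List ℕ) =>
    Rec.mk (mergeC q.1) (mergeK q.1) q.2) (RC.zip rcG2 rc_rdNbs) hm
  refine (h.mono 10 (fun a => ?_)).congr (fun a => round_eq_rd _ _ _)
  obtain ⟨_, _, _, h4, _, _, _, h8⟩ := bounds a.1 a.2.1 a.2.2
  have h1 : (gather2 pc0 (rdP a.1 a.2.2) (rdCh a.1 a.2.1 a.2.2)).length =
      (rdCh a.1 a.2.1 a.2.2).length := by simp [gather2]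
  have h2 := sum_zip_le (fun l : List Pc => l.length + (l.map (fun p => p.2.length + 1)).sum + 1)
    (gather2 pc0 (rdP a.1 a.2.2) (rdCh a.1 a.2.1 a.2.2)) (rdNbs a.1 a.2.1 a.2.2)
  have h6 := sum_succ (fun l : List Pc => l.length + (l.map (fun p => p.2.length + 1)).sum)
    (gather2 pc0 (rdP a.1 a.2.2) (rdCh a.1 a.2.1 a.2.2))
  have h3 := sum_le (fun l : List Pc => l.length + (l.map (fun p => p.2.length + 1)).sum)
    (fun l : List Pc => (l.map (fun p => p.2.length + 1)).sum) 2
    (gather2 pc0 (rdP a.1 a.2.2) (rdCh a.1 a.2.1 a.2.2)) (fun l => by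
      have : l.length ≤ (l.map (fun p : Pc => p.2.length + 1)).sum := by
        induction l with
        | nil => simp
        | cons x t ih => simp only [List.length_cons, List.map_cons, List.sum_cons]; omega
      show l.length + (l.map (fun p => p.2.length + 1)).sum ≤ _
      omega)
  simp only [T, zero_add, add_zero] at *
  omega

end SFA
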