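import Pool.Agent.Lib.SFA.RRoundC

/-!
# SFA.RRounds: cost of all rounds

`rounds L x inp` is a fold over `List.range (L + 1)`: `RC.foldl` with context `x` and the step
`fun recs i => round i x recs` (`rc_round`).  `foldCost` along the fold is the stated sum: by induction
on the length of the range, `foldCost step c (l ++ [i]) s = foldCost step c l s + c (l.foldl step s) i + 1`
and `List.range_succ`.
-/

namespace SFA

open P7m Classical

/-- the records before round `i` -/
noncomputable def before (i : ℕ) (x : ℂ) (inp : List (Seg × ℕ)) : List Rec :=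
  (List.range i).foldl (fun recs j => round j x recs) (initR inp)

theorem rounds_eq_before (L : ℕ) (x : ℂ) (inp : List (Seg × ℕ)) :
    rounds L x inp = before (L + 1) x inp := rfl

/-- cost of a fold over a list with one more element -/
private theorem foldCost_concat {S X : Type} (step : S → X → S) (c : S → X → ℕ) (l : List X)
    (i : X) (s : S) :
    foldCost step c (l ++ [i]) s = foldCost step c l s + (c (l.foldl step s) i + 1) := by
  induction l generalizing s with
  | nil => simp
  | cons x t ih =>
    rw [List.cons_append, foldCost_cons, ih, foldCost_cons, List.foldl_cons]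
    omega

private theorem foldCost_range {S : Type} (step : S → ℕ → S) (c : S → ℕ → ℕ) (s : S) (n : ℕ) :
    foldCost step c (List.range n) s =
      ((List.range n).map (fun i => c ((List.range i).foldl step s) i + 1)).sum := by
  induction n with
  | zero => simp
  | succ n ih =>
    rw [List.range_succ, foldCost_concat, ih, List.map_append, List.sum_append]
    simp

theorem rc_rounds : RC (fun a : ℕ × ℂ × List (Seg × ℕ) => rounds a.1 a.2.1 a.2.2)
    (fun a => ((List.range (a.1 + 1)).map
      (fun i => roundCost i a.2.1 (before i a.2.1 a.2.2) + 1)).sum) := by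
  have hf : RC (fun p : (ℕ × ℂ × List (Seg × ℕ)) × List Rec × ℕ =>
      round p.2.2 p.1.2.1 p.2.1) (fun p => roundCost p.2.2 p.1.2.1 p.2.1) := by
    have h1 : RC (fun p : (ℕ × ℂ × List (Seg × ℕ)) × List Rec × ℕ => (p.2.2, p.1.2.1, p.2.1))
        (fun _ => 0 + (0 + 0)) :=
      RC.pair (RC.snd (RC.snd RC.id)) (RC.pair (RC.fst (RC.snd (RC.fst RC.id)))
        (RC.fst (RC.snd RC.id)))
    refine (RC.comp (g := fun a : ℕ × ℂ × List Rec => round a.1 a.2.1 a.2.2) rc_round h1).of_le
      (fun p => ?_)
    simp
  have hi : RC (fun a : ℕ × ℂ × List (Seg × ℕ) => initR a.2.2) (fun _ => 0) := by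
    refine (RC.singleton (RC.recmk (RC.cellmk (RC.none (B := Seg)) (RC.none (B := Seg))
      (RC.none (B := ℂ)) (RC.none (B := ℂ))) (RC.snd (RC.snd RC.id)) (RC.nil (B := ℕ)))).of_le
      (fun a => ?_)
    simp
  have h := RC.foldl (f := fun (a : ℕ × ℂ × List (Seg × ℕ)) (recs : List Rec) (i : ℕ) =>
    round i a.2.1 recs) (RC.range (RC.succ (RC.fst RC.id))) hi hf
  refine (h.mono 2 (fun a => ?_)).congr (fun a => rfl)
  simp only
  rw [foldCost_range]
  have h2 : a.1 + 1 ≤ ((List.range (a.1 + 1)).map
      (fun i => roundCost i a.2.1 (before i a.2.1 a.2.2) + 1)).sum := by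
    have : ∀ (l : List ℕ) (c : ℕ → ℕ), l.length ≤ (l.map (fun i => c i + 1)).sum := by
      intro l c
      induction l with
      | nil => simp
      | cons x t ih => simp only [List.length_cons, List.map_cons, List.sum_cons]; omega
    have h3 := this (List.range (a.1 + 1)) (fun i => roundCost i a.2.1 (before i a.2.1 a.2.2))
    rwa [List.length_range] at h3
  have e : ((List.range (a.1 + 1)).map (fun i => roundCost i a.2.1
      ((List.range i).foldl (fun recs i => round i a.2.1 recs) (initR a.2.2)) + 1)).sum =
      ((List.range (a.1 + 1)).map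
      (fun i => roundCost i a.2.1 (before i a.2.1 a.2.2) + 1)).sum := rfl
  rw [e]
  omega

end SFA
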