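import Pool.Agent.Lib.SFA.RPieces
import Pool.Agent.Lib.SFA.RoundDefs

/-!
# SFA.RSplit: splitting one cell

`splitR i r`: two filters of `r.K` (cost `r.K.length + 1`, `RC.neq`), `rc_pieces`, and for each of the
at most `25 (newN i r + 1)^6` pieces a filter of `r.K` with the constant time test `CT.conflB`.
`newN i r` is the length of the filtered list.  Compute the list `r.K.filter (not level i)` once
(context) or again for every piece, both are within the bound.
-/

namespace SFA

open P7m Classical

theorem splitR_length_le (i : ℕ) (r : Rec) :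
    (splitR i r).length ≤ 25 * (newN i r + 1) ^ 6 := by 
  unfold splitR
  rw [List.length_map]
  refine (pieces_length_le _ _).trans ?_
  rw [List.length_map]
  exact le_rfl

theorem splitR_K_le (i : ℕ) (r : Rec) : ∀ p ∈ splitR i r, p.2.length ≤ r.K.length := by 
  intro p hp
  unfold splitR at hp
  rw [List.mem_map] at hp
  obtain ⟨d, _, rfl⟩ := hp
  exact (List.length_filter_le _ _).trans (List.length_filter_le _ _)

theorem rc_splitR : RC (fun a : ℕ × Rec => splitR a.1 a.2)
    (fun a => (newN a.1 a.2 + 1) ^ 7 * (a.2.K.length + 1)) := by 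
  have hK : RC (fun a : ℕ × Rec => a.2.K) (fun _ => 0) := RC.recK (RC.snd RC.id)
  have hF := RC.filter (p := fun (a : ℕ × Rec) (k : Seg × ℕ) => decide (k.2 = a.1)) hK
    (RC.neq (RC.snd (RC.snd RC.id)) (RC.fst (RC.fst RC.id)))
  have hN := RC.map (f := fun (_ : ℕ × Rec) (k : Seg × ℕ) => k.1) hF (RC.fst (RC.snd RC.id))
  have hP := RC.comp (g := fun q : Cell × List Seg => pieces q.1 q.2) rc_pieces
    (RC.pair (RC.recc (RC.snd (RC.id (A := ℕ × Rec)))) hN)
  have hK2 : RC (fun a : (ℕ × Rec) × Cell => a.1.2.K) (fun _ => 0) :=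
    RC.recK (RC.snd (RC.fst RC.id))
  have hF2 := RC.filter (p := fun (a : (ℕ × Rec) × Cell) (k : Seg × ℕ) => !decide (k.2 = a.1.1)) hK2
    (RC.not (RC.neq (RC.snd (RC.snd RC.id)) (RC.fst (RC.fst (RC.fst RC.id)))))
  have hF3 := RC.filter (p := fun (a : (ℕ × Rec) × Cell) (k : Seg × ℕ) => conflB a.2 k.1) hF2
    (CT.conflB (CT.snd (CT.fst CT.id)) (CT.fst (CT.snd CT.id)))
  have hM := RC.map (f := fun (a : ℕ × Rec) (d : Cell) =>
    (d, (a.2.K.filter (fun k => !decide (k.2 = a.1))).filter (fun k => conflB d k.1))) hP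
    (RC.pair (RC.snd RC.id) hF3)
  refine (hM.mono 60 (fun a => ?_)).congr (fun a => rfl)
  obtain ⟨i, r⟩ := a
  have h1 := splitR_length_le i r
  have h2 : (splitR i r).length = (pieces r.c ((r.K.filter (fun k => decide (k.2 = i))).map
      Prod.fst)).length := by
    unfold splitR
    rw [List.length_map]
  rw [h2] at h1
  have h3 : (r.K.filter (fun k => !decide (k.2 = i))).length ≤ r.K.length :=
    List.length_filter_le _ _
  have h4 : (r.K.filter (fun k => decide (k.2 = i))).length = newN i r := rfl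
  have hgoal : 0 + (0 + (List.map (fun _ => 0 + 0 + 1) r.K).sum +
      (List.map (fun _ => 0 + 1) (List.filter (fun k => decide (k.2 = i)) r.K)).sum) +
      (newN i r + 1) ^ 7 +
      (List.map (fun _ => 0 + (0 + (List.map (fun _ => 0 + 0 + 1) r.K).sum +
        (List.map (fun _ => 0 + 1) (List.filter (fun k => !decide (k.2 = i)) r.K)).sum) + 1)
        (pieces r.c ((r.K.filter (fun k => decide (k.2 = i))).map Prod.fst))).sum ≤
      60 * ((newN i r + 1) ^ 7 * (r.K.length + 1) + 1) := ?_
  · refine le_trans (le_of_eq ?_) hgoal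
    simp only [List.length_map, h4]
  rw [List.map_const', List.map_const', List.map_const', List.map_const', List.sum_replicate,
    List.sum_replicate, List.sum_replicate, List.sum_replicate, h4]
  simp only [smul_eq_mul, zero_add, mul_one]
  set P := (pieces r.c ((r.K.filter (fun k => decide (k.2 = i))).map Prod.fst)).length
  set m := newN i r
  set L := r.K.length
  set L' := (r.K.filter (fun k => !decide (k.2 = i))).length
  have hm : (m + 1) ^ 6 ≤ (m + 1) ^ 7 := Nat.pow_le_pow_right (by omega) (by omega)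
  have hm1 : m + 1 ≤ (m + 1) ^ 7 := by
    calc m + 1 = (m + 1) ^ 1 := by ring
      _ ≤ (m + 1) ^ 7 := Nat.pow_le_pow_right (by omega) (by omega)
  have hX : 1 ≤ (m + 1) ^ 7 := Nat.one_le_pow _ _ (by omega)
  have hA : P * (L + L' + 1) ≤ 25 * (m + 1) ^ 7 * (2 * L + 1) :=
    Nat.mul_le_mul (h1.trans (Nat.mul_le_mul_left 25 hm)) (by omega)
  have hB : L ≤ (m + 1) ^ 7 * L := Nat.le_mul_of_pos_left _ (by omega)
  nlinarith [hA, hB, hm1, hX]

end SFA
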