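import Pool.Agent.Lib.SFA.REnc

/-!
# SFA.RTest: the tests of `SFA.Alg` take constant time
-/

namespace SFA

open P7m Classical

noncomputable section

/-- constant time -/
def CT {A B : Type} [Enc A] [Enc B] (f : A → B) : Prop := RC f (fun _ => 0)

variable {A B C D : Type} [Enc A] [Enc B] [Enc C] [Enc D]

theorem CT.comp {f : A → B} {g : B → C} (hg : CT g) (hf : CT f) : CT (fun a => g (f a)) :=
  RC.comp0 hg hf

theorem CT.pair {f : A → B} {g : A → C} (hf : CT f) (hg : CT g) : CT (fun a => (f a, g a)) :=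
  RC.pair hf hg

theorem CT.comp2 {f : A → B} {g : A → C} {h : B → C → D} (hh : CT (fun p : B × C => h p.1 p.2))
    (hf : CT f) (hg : CT g) : CT (fun a => h (f a) (g a)) :=
  CT.comp (g := fun p : B × C => h p.1 p.2) hh (CT.pair hf hg)

theorem CT.comp3 {E : Type} [Enc E] {f : A → B} {g : A → C} {k : A → D} {h : B → C → D → E}
    (hh : CT (fun p : B × C × D => h p.1 p.2.1 p.2.2))
    (hf : CT f) (hg : CT g) (hk : CT k) : CT (fun a => h (f a) (g a) (k a)) :=
  CT.comp (g := fun p : B × C × D => h p.1 p.2.1 p.2.2) hh (CT.pair hf (CT.pair hg hk))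

theorem CT.id : CT (fun a : A => a) := RC.id
theorem CT.fst {f : A → B × C} (hf : CT f) : CT (fun a => (f a).1) := RC.fst hf
theorem CT.snd {f : A → B × C} (hf : CT f) : CT (fun a => (f a).2) := RC.snd hf
theorem CT.re {f : A → ℂ} (hf : CT f) : CT (fun a => (f a).re) := RC.re hf
theorem CT.im {f : A → ℂ} (hf : CT f) : CT (fun a => (f a).im) := RC.im hf
theorem CT.complex {f g : A → ℝ} (hf : CT f) (hg : CT g) : CT (fun a => (⟨f a, g a⟩ : ℂ)) :=
  RC.complex hf hg
theorem CT.radd {f g : A → ℝ} (hf : CT f) (hg : CT g) : CT (fun a => f a + g a) := RC.radd hf hg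
theorem CT.rsub {f g : A → ℝ} (hf : CT f) (hg : CT g) : CT (fun a => f a - g a) := RC.rsub hf hg
theorem CT.rmul {f g : A → ℝ} (hf : CT f) (hg : CT g) : CT (fun a => f a * g a) := RC.rmul hf hg
theorem CT.rdiv {f g : A → ℝ} (hf : CT f) (hg : CT g) : CT (fun a => f a / g a) := RC.rdiv hf hg
theorem CT.zero : CT (fun _ : A => (0 : ℝ)) := RC.const_zero
theorem CT.one : CT (fun _ : A => (1 : ℝ)) := RC.const_one
theorem CT.tt : CT (fun _ : A => true) := RC.const_true
theorem CT.ff : CT (fun _ : A => false) := RC.const_false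
theorem CT.rlt {f g : A → ℝ} [∀ a, Decidable (f a < g a)] (hf : CT f) (hg : CT g) :
    CT (fun a => decide (f a < g a)) := RC.rlt hf hg
theorem CT.rle {f g : A → ℝ} [∀ a, Decidable (f a ≤ g a)] (hf : CT f) (hg : CT g) :
    CT (fun a => decide (f a ≤ g a)) := RC.rle hf hg
theorem CT.req {f g : A → ℝ} [∀ a, Decidable (f a = g a)] (hf : CT f) (hg : CT g) :
    CT (fun a => decide (f a = g a)) := RC.req hf hg
theorem CT.rne {f g : A → ℝ} [∀ a, Decidable (f a ≠ g a)] (hf : CT f) (hg : CT g) :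
    CT (fun a => decide (f a ≠ g a)) := by
  have h : CT (fun a => !(decide (f a = g a))) := RC.not (RC.req hf hg)
  exact RC.congr h (fun a => by simp)
theorem CT.and {f g : A → Bool} (hf : CT f) (hg : CT g) : CT (fun a => f a && g a) :=
  RC.and hf hg
theorem CT.or {f g : A → Bool} (hf : CT f) (hg : CT g) : CT (fun a => f a || g a) :=
  RC.or hf hg
theorem CT.not {f : A → Bool} (hf : CT f) : CT (fun a => !(f a)) := RC.not hf
theorem CT.dand {p q : A → Prop} [∀ a, Decidable (p a)] [∀ a, Decidable (q a)]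
    [∀ a, Decidable (p a ∧ q a)] (h : CT (fun a => decide (p a)))
    (h' : CT (fun a => decide (q a))) : CT (fun a => decide (p a ∧ q a)) :=
  RC.decide_and h h'
theorem CT.none : CT (fun _ : A => (none : Option B)) := RC.none
theorem CT.some {f : A → B} (hf : CT f) : CT (fun a => some (f a)) := RC.some hf
theorem CT.cond {p : A → Bool} {f g : A → B} (hp : CT p) (hf : CT f) (hg : CT g) :
    CT (fun a => if p a then f a else g a) :=
  RC.of_le (RC.cond hp hf hg) (fun a => by simp)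
theorem CT.ite {p : A → Prop} [∀ a, Decidable (p a)] {f g : A → B}
    (hp : CT (fun a => decide (p a))) (hf : CT f) (hg : CT g) :
    CT (fun a => if p a then f a else g a) :=
  RC.of_le (RC.ite hp hf hg) (fun a => by simp)
theorem CT.elim {o : A → Option B} {n : A → C} {s : A → B → C} (ho : CT o) (hn : CT n)
    (hs : CT (fun p : A × B => s p.1 p.2)) : CT (fun a => (o a).elim (n a) (s a)) :=
  RC.of_le (RC.optionElim ho hn hs) (fun a => by cases o a <;> simp)
theorem CT.cellb {f : A → Cell} (h : CT f) : CT (fun a => (f a).b) := RC.cellb h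
theorem CT.cellt {f : A → Cell} (h : CT f) : CT (fun a => (f a).t) := RC.cellt h
theorem CT.cellp {f : A → Cell} (h : CT f) : CT (fun a => (f a).p) := RC.cellp h
theorem CT.cellq {f : A → Cell} (h : CT f) : CT (fun a => (f a).q) := RC.cellq h
theorem CT.cellmk {b t : A → Option Seg} {p q : A → Option ℂ}
    (hb : CT b) (ht' : CT t) (hp : CT p) (hq : CT q) :
    CT (fun a => Cell.mk (b a) (t a) (p a) (q a)) := RC.cellmk hb ht' hp hq
theorem CT.csub {f g : A → ℂ} (hf : CT f) (hg : CT g) : CT (fun a => f a - g a) :=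
  RC.congr (CT.complex (CT.rsub (CT.re hf) (CT.re hg)) (CT.rsub (CT.im hf) (CT.im hg)))
    (fun a => Complex.ext rfl rfl)

theorem CT.cross {f g : A → ℂ} (hf : CT f) (hg : CT g) : CT (fun a => cross (f a) (g a)) :=
  CT.rsub (CT.rmul (CT.re hf) (CT.im hg)) (CT.rmul (CT.im hf) (CT.re hg))

theorem CT.ori {s : A → Seg} {z : A → ℂ} (hs : CT s) (hz : CT z) :
    CT (fun a => ori (s a) (z a)) :=
  CT.cross (CT.csub (CT.snd hs) (CT.fst hs)) (CT.csub hz (CT.fst hs))

theorem CT.lexB {u v : A → ℂ} (hu : CT u) (hv : CT v) : CT (fun a => lexB (u a) (v a)) :=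
  CT.or (CT.rlt (CT.re hu) (CT.re hv))
    (CT.and (CT.req (CT.re hu) (CT.re hv)) (CT.rlt (CT.im hu) (CT.im hv)))

theorem CT.ptEq {u v : A → ℂ} (hu : CT u) (hv : CT v) : CT (fun a => ptEq (u a) (v a)) :=
  CT.and (CT.req (CT.re hu) (CT.re hv)) (CT.req (CT.im hu) (CT.im hv))

theorem CT.sgEq {s t : A → Seg} (hs : CT s) (ht' : CT t) : CT (fun a => sgEq (s a) (t a)) :=
  CT.and (CT.ptEq (CT.fst hs) (CT.fst ht')) (CT.ptEq (CT.snd hs) (CT.snd ht'))

theorem CT.opEq {u v : A → Option ℂ} (hu : CT u) (hv : CT v) :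
    CT (fun a => opEq (u a) (v a)) :=
  CT.elim (s := fun a b => (v a).elim false (fun b' => SFA.ptEq b b')) hu
    (CT.elim (s := fun _ _ => false) hv CT.tt CT.ff)
    (CT.elim (s := fun (p : A × ℂ) b' => SFA.ptEq p.2 b') (CT.comp hv (CT.fst CT.id)) CT.ff
      (CT.ptEq (CT.snd (CT.fst CT.id)) (CT.snd CT.id)))

theorem CT.osEq {u v : A → Option Seg} (hu : CT u) (hv : CT v) :
    CT (fun a => osEq (u a) (v a)) :=
  CT.elim (s := fun a b => (v a).elim false (fun b' => SFA.sgEq b b')) hu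
    (CT.elim (s := fun _ _ => false) hv CT.tt CT.ff)
    (CT.elim (s := fun (p : A × Seg) b' => SFA.sgEq p.2 b') (CT.comp hv (CT.fst CT.id)) CT.ff
      (CT.sgEq (CT.snd (CT.fst CT.id)) (CT.snd CT.id)))

theorem CT.mv {s : A → Seg} {u : A → ℝ} (hs : CT s) (hu : CT u) :
    CT (fun a => mv (s a) (u a)) :=
  CT.complex
    (CT.radd (CT.re (CT.fst hs)) (CT.rmul hu (CT.rsub (CT.re (CT.snd hs)) (CT.re (CT.fst hs)))))
    (CT.radd (CT.im (CT.fst hs)) (CT.rmul hu (CT.rsub (CT.im (CT.snd hs)) (CT.im (CT.fst hs)))))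

private theorem dir {s : A → Seg} (hs : CT s) : CT (fun a => (s a).2 - (s a).1) :=
  CT.csub (CT.snd hs) (CT.fst hs)

theorem CT.meet {s t : A → Seg} (hs : CT s) (ht' : CT t) : CT (fun a => meet (s a) (t a)) := by
  have h1 : CT (fun a => SFA.cross ((s a).2 - (s a).1) ((t a).2 - (t a).1)) :=
    CT.cross (dir hs) (dir ht')
  have h2 : CT (fun a => SFA.cross ((t a).1 - (s a).1) ((t a).2 - (t a).1)) :=
    CT.cross (CT.csub (CT.fst ht') (CT.fst hs)) (dir ht')
  have h3 : CT (fun a => SFA.cross ((t a).1 - (s a).1) ((s a).2 - (s a).1)) :=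
    CT.cross (CT.csub (CT.fst ht') (CT.fst hs)) (dir hs)
  have h4 := CT.rdiv h2 h1
  have h5 := CT.rdiv h3 h1
  unfold SFA.meet
  refine CT.ite (CT.req h1 CT.zero) ?_ ?_
  · exact CT.cond (CT.ptEq (CT.snd hs) (CT.fst ht')) (CT.some (CT.snd hs))
      (CT.cond (CT.ptEq (CT.snd ht') (CT.fst hs)) (CT.some (CT.fst hs)) CT.none)
  · exact CT.ite (CT.dand (CT.rle CT.zero h4) (CT.dand (CT.rle h4 CT.one)
      (CT.dand (CT.rle CT.zero h5) (CT.rle h5 CT.one)))) (CT.some (CT.mv hs h4)) CT.none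

theorem CT.above {s t : A → Seg} {z : A → ℂ} (hs : CT s) (ht' : CT t) (hz : CT z) :
    CT (fun a => above (s a) (t a) (z a)) := by
  unfold SFA.above
  refine CT.elim (s := fun a u => if SFA.lexB (z a) u
      then decide (SFA.cross ((t a).2 - (t a).1) ((s a).2 - (s a).1) < 0)
      else decide (0 < SFA.cross ((t a).2 - (t a).1) ((s a).2 - (s a).1)))
    (CT.meet hs ht') ?_ ?_
  · exact CT.cond (CT.lexB (CT.fst ht') (CT.fst hs))
      (CT.rlt CT.zero (CT.ori ht' (CT.fst hs))) (CT.rlt (CT.ori hs (CT.fst ht')) CT.zero)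
  · have h1 : CT (fun p : A × ℂ => SFA.cross ((t p.1).2 - (t p.1).1) ((s p.1).2 - (s p.1).1)) :=
      CT.comp (g := fun a => SFA.cross ((t a).2 - (t a).1) ((s a).2 - (s a).1))
        (CT.cross (dir ht') (dir hs)) (CT.fst CT.id)
    exact CT.cond (CT.lexB (CT.comp hz (CT.fst CT.id)) (CT.snd CT.id))
      (CT.rlt h1 CT.zero) (CT.rlt CT.zero h1)

theorem CT.afterP {p : A → Option ℂ} {z : A → ℂ} (hp : CT p) (hz : CT z) :
    CT (fun a => afterP (p a) (z a)) :=
  CT.elim (s := fun a b => SFA.lexB b (z a)) hp CT.tt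
    (CT.lexB (CT.snd CT.id) (CT.comp hz (CT.fst CT.id)))

theorem CT.beforeQ {p : A → Option ℂ} {z : A → ℂ} (hp : CT p) (hz : CT z) :
    CT (fun a => beforeQ (p a) (z a)) :=
  CT.elim (s := fun a b => SFA.lexB (z a) b) hp CT.tt
    (CT.lexB (CT.comp hz (CT.fst CT.id)) (CT.snd CT.id))

theorem CT.slabB {c : A → Cell} {z : A → ℂ} (hc : CT c) (hz : CT z) :
    CT (fun a => slabB (c a) (z a)) :=
  CT.and (CT.afterP (CT.cellp hc) hz) (CT.beforeQ (CT.cellq hc) hz)

theorem CT.bandB {c : A → Cell} {z : A → ℂ} (hc : CT c) (hz : CT z) :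
    CT (fun a => bandB (c a) (z a)) :=
  CT.and
    (CT.elim (s := fun a b => decide (0 ≤ SFA.ori b (z a))) (CT.cellb hc) CT.tt
      (CT.rle CT.zero (CT.ori (CT.snd CT.id) (CT.comp hz (CT.fst CT.id)))))
    (CT.elim (s := fun a t => decide (SFA.ori t (z a) ≤ 0)) (CT.cellt hc) CT.tt
      (CT.rle (CT.ori (CT.snd CT.id) (CT.comp hz (CT.fst CT.id))) CT.zero))

theorem CT.openB {c : A → Cell} {z : A → ℂ} (hc : CT c) (hz : CT z) :
    CT (fun a => openB (c a) (z a)) :=
  CT.and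
    (CT.elim (s := fun a b => decide (0 < SFA.ori b (z a))) (CT.cellb hc) CT.tt
      (CT.rlt CT.zero (CT.ori (CT.snd CT.id) (CT.comp hz (CT.fst CT.id)))))
    (CT.elim (s := fun a t => decide (SFA.ori t (z a) < 0)) (CT.cellt hc) CT.tt
      (CT.rlt (CT.ori (CT.snd CT.id) (CT.comp hz (CT.fst CT.id))) CT.zero))

theorem CT.regB {c : A → Cell} {z : A → ℂ} (hc : CT c) (hz : CT z) :
    CT (fun a => regB (c a) (z a)) := CT.and (CT.slabB hc hz) (CT.openB hc hz)

theorem CT.hregB {c : A → Cell} {z : A → ℂ} (hc : CT c) (hz : CT z) :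
    CT (fun a => hregB (c a) (z a)) := CT.and (CT.slabB hc hz) (CT.bandB hc hz)

theorem CT.hitB {c : A → Cell} {s : A → Seg} {e : A → Option Seg} (hc : CT c) (hs : CT s)
    (he : CT e) : CT (fun a => hitB (c a) (s a) (e a)) :=
  CT.elim (s := fun a e => (SFA.meet (s a) e).elim false (fun u => SFA.slabB (c a) u)) he CT.ff
    (CT.elim (s := fun (p : A × Seg) u => SFA.slabB (c p.1) u)
      (CT.meet (CT.comp hs (CT.fst CT.id)) (CT.snd CT.id)) CT.ff
      (CT.slabB (CT.comp hc (CT.fst (CT.fst CT.id))) (CT.snd CT.id)))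

theorem CT.loPt {c : A → Cell} {s : A → Seg} (hc : CT c) (hs : CT s) :
    CT (fun a => loPt (c a) (s a)) :=
  CT.elim (s := fun a p => if SFA.lexB (s a).1 p then p else (s a).1) (CT.cellp hc) (CT.fst hs)
    (CT.cond (CT.lexB (CT.fst (CT.comp hs (CT.fst CT.id))) (CT.snd CT.id)) (CT.snd CT.id)
      (CT.fst (CT.comp hs (CT.fst CT.id))))

theorem CT.conflB {c : A → Cell} {s : A → Seg} (hc : CT c) (hs : CT s) :
    CT (fun a => conflB (c a) (s a)) := by
  unfold SFA.conflB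
  refine CT.and (CT.and (CT.and (CT.and
    (CT.not (CT.osEq (CT.cellb hc) (CT.some hs)))
    (CT.not (CT.osEq (CT.cellt hc) (CT.some hs))))
    (CT.beforeQ (CT.cellq hc) (CT.fst hs))) (CT.afterP (CT.cellp hc) (CT.snd hs))) ?_
  refine CT.or (CT.or (CT.hitB hc hs (CT.cellb hc)) (CT.hitB hc hs (CT.cellt hc))) ?_
  have h1 : CT (fun p : A × Seg => SFA.loPt (c p.1) (s p.1)) :=
    CT.comp (g := fun a => SFA.loPt (c a) (s a)) (CT.loPt hc hs) (CT.fst CT.id)
  exact CT.and
    (CT.elim (s := fun a b => SFA.above (s a) b (SFA.loPt (c a) (s a))) (CT.cellb hc) CT.tt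
      (CT.above (CT.comp hs (CT.fst CT.id)) (CT.snd CT.id) h1))
    (CT.elim (s := fun a t => SFA.above t (s a) (SFA.loPt (c a) (s a))) (CT.cellt hc) CT.tt
      (CT.above (CT.snd CT.id) (CT.comp hs (CT.fst CT.id)) h1))

theorem CT.spanB {c : A → Cell} {s : A → Seg} (hc : CT c) (hs : CT s) :
    CT (fun a => spanB (c a) (s a)) :=
  CT.and
    (CT.elim (s := fun a p => !(SFA.lexB p (s a).1)) (CT.cellp hc) CT.ff
      (CT.not (CT.lexB (CT.snd CT.id) (CT.fst (CT.comp hs (CT.fst CT.id))))))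
    (CT.elim (s := fun a q => !(SFA.lexB (s a).2 q)) (CT.cellq hc) CT.ff
      (CT.not (CT.lexB (CT.snd (CT.comp hs (CT.fst CT.id))) (CT.snd CT.id))))

theorem CT.offB {o : A → Option Seg} {v : A → ℂ} (ho : CT o) (hv : CT v) :
    CT (fun a => offB (o a) (v a)) :=
  CT.elim (s := fun a s => decide (SFA.ori s (v a) ≠ 0)) ho CT.tt
    (CT.rne (CT.ori (CT.snd CT.id) (CT.comp hv (CT.fst CT.id))) CT.zero)

theorem CT.onB {o : A → Option Seg} {v : A → ℂ} (ho : CT o) (hv : CT v) :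
    CT (fun a => onB (o a) (v a)) :=
  CT.elim (s := fun a s => decide (SFA.ori s (v a) = 0)) ho CT.ff
    (CT.req (CT.ori (CT.snd CT.id) (CT.comp hv (CT.fst CT.id))) CT.zero)

theorem CT.adjB {c d : A → Cell} (hc : CT c) (hd : CT d) : CT (fun a => adjB (c a) (d a)) := by
  unfold SFA.adjB
  refine CT.elim (s := fun a v => (d a).p.elim false (fun w => SFA.ptEq v w &&
    ((SFA.osEq (c a).t (d a).t && SFA.offB (c a).t v) ||
      (SFA.osEq (c a).b (d a).b && SFA.offB (c a).b v)))) (CT.cellq hc) CT.ff ?_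
  have hc1 : CT (fun p : A × ℂ => c p.1) := CT.comp hc (CT.fst CT.id)
  have hd1 : CT (fun p : A × ℂ => d p.1) := CT.comp hd (CT.fst CT.id)
  refine CT.elim (s := fun (p : A × ℂ) w => SFA.ptEq p.2 w &&
    ((SFA.osEq (c p.1).t (d p.1).t && SFA.offB (c p.1).t p.2) ||
      (SFA.osEq (c p.1).b (d p.1).b && SFA.offB (c p.1).b p.2))) (CT.cellp hd1) CT.ff ?_
  have hc2 : CT (fun p : (A × ℂ) × ℂ => c p.1.1) := CT.comp hc (CT.fst (CT.fst CT.id))
  have hd2 : CT (fun p : (A × ℂ) × ℂ => d p.1.1) := CT.comp hd (CT.fst (CT.fst CT.id))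
  have hv : CT (fun p : (A × ℂ) × ℂ => p.1.2) := CT.snd (CT.fst CT.id)
  exact CT.and (CT.ptEq hv (CT.snd CT.id)) (CT.or
    (CT.and (CT.osEq (CT.cellt hc2) (CT.cellt hd2)) (CT.offB (CT.cellt hc2) hv))
    (CT.and (CT.osEq (CT.cellb hc2) (CT.cellb hd2)) (CT.offB (CT.cellb hc2) hv)))

theorem CT.trueL {c : A → Cell} (hc : CT c) : CT (fun a => trueL (c a)) :=
  CT.elim (s := fun a v => SFA.bandB (c a) v) (CT.cellp hc) CT.tt
    (CT.bandB (CT.comp hc (CT.fst CT.id)) (CT.snd CT.id))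

theorem CT.trueR {c : A → Cell} (hc : CT c) : CT (fun a => trueR (c a)) :=
  CT.elim (s := fun a v => SFA.bandB (c a) v) (CT.cellq hc) CT.tt
    (CT.bandB (CT.comp hc (CT.fst CT.id)) (CT.snd CT.id))

end

end SFA
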