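import Pool.Agent.Lib.SFA.Basic

/-!
# SFA.RegB: elementary facts about the regions

All four facts are about finitely many (at most four) conditions given by the affine functions
`X eps` and `ori s`, which are continuous (`continuous_X`, `continuous_ori`) and affine on convex
combinations (`X_comb`, `ori_comb`).  The `Option` fields: do `rcases c with <b,t,p,q>` and case on
each option, or note that `{z | forall p in o, X p < X z}` is either everything or one open half plane.
* `isOpen_reg`: finite intersection of open half planes.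
* `convex_reg`, `convex_hreg`: finite intersection of half planes.
* `comb_mem_reg`: `y` satisfies all conditions strictly, `z` satisfies all of them weakly,
  `0 <= l < 1`, so `(1-l) y + l z` satisfies them strictly.
* `closure_le`: each closed half plane containing `reg` contains its closure.
-/

namespace SFA

open Set Filter Topology

namespace RegBAux

theorem isOpen_opt {A : Type*} (o : Option A) (P : A → ℂ → Prop)
    (h : ∀ a, IsOpen {z | P a z}) : IsOpen {z | ∀ a ∈ o, P a z} := by
  cases o with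
  | none => simp
  | some a => simpa using h a

theorem isClosed_opt {A : Type*} (o : Option A) (P : A → ℂ → Prop)
    (h : ∀ a, IsClosed {z | P a z}) : IsClosed {z | ∀ a ∈ o, P a z} := by
  cases o with
  | none => simp
  | some a => simpa using h a

theorem X_c (eps : ℝ) {a b : ℝ} (hab : a + b = 1) (u v : ℂ) :
    X eps (a • u + b • v) = a * X eps u + b * X eps v := X_comb eps hab u v

/-- strict combination, below -/
theorem lt_c {a b m u v : ℝ} (ha : 0 ≤ a) (hb : 0 ≤ b) (hab : a + b = 1) (hu : m < u)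
    (hv : m < v) : m < a * u + b * v := by
  have h1 : m = a * m + b * m := by rw [← add_mul, hab, one_mul]
  rw [h1]
  rcases ha.eq_or_lt with rfl | ha'
  · have hb1 : b = 1 := by linarith
    subst hb1
    linarith
  · nlinarith [mul_lt_mul_of_pos_left hu ha', mul_le_mul_of_nonneg_left hv.le hb]

theorem lt_c' {a b m u v : ℝ} (ha : 0 ≤ a) (hb : 0 ≤ b) (hab : a + b = 1) (hu : u < m)
    (hv : v < m) : a * u + b * v < m := by
  have := lt_c ha hb hab (neg_lt_neg hu) (neg_lt_neg hv)
  linarith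

theorem le_c {a b m u v : ℝ} (ha : 0 ≤ a) (hb : 0 ≤ b) (hab : a + b = 1) (hu : m ≤ u)
    (hv : m ≤ v) : m ≤ a * u + b * v := by
  have h1 : m = a * m + b * m := by rw [← add_mul, hab, one_mul]
  rw [h1]
  nlinarith [mul_le_mul_of_nonneg_left hu ha, mul_le_mul_of_nonneg_left hv hb]

theorem le_c' {a b m u v : ℝ} (ha : 0 ≤ a) (hb : 0 ≤ b) (hab : a + b = 1) (hu : u ≤ m)
    (hv : v ≤ m) : a * u + b * v ≤ m := by
  have := le_c ha hb hab (neg_le_neg hu) (neg_le_neg hv)
  linarith

/-- one strict, one weak -/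
theorem ltle_c {a b m u v : ℝ} (ha : 0 < a) (hb : 0 ≤ b) (hab : a + b = 1) (hu : m < u)
    (hv : m ≤ v) : m < a * u + b * v := by
  have h1 : m = a * m + b * m := by rw [← add_mul, hab, one_mul]
  rw [h1]
  nlinarith [mul_lt_mul_of_pos_left hu ha, mul_le_mul_of_nonneg_left hv hb]

theorem ltle_c' {a b m u v : ℝ} (ha : 0 < a) (hb : 0 ≤ b) (hab : a + b = 1) (hu : u < m)
    (hv : v ≤ m) : a * u + b * v < m := by
  have := ltle_c ha hb hab (neg_lt_neg hu) (neg_le_neg hv)
  linarith

end RegBAux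

open RegBAux

theorem isOpen_reg (eps : ℝ) (c : Cell) : IsOpen (reg eps c) := by
  have h1 := isOpen_opt c.p (fun p z => X eps p < X eps z)
    (fun p => isOpen_lt continuous_const (continuous_X eps))
  have h2 := isOpen_opt c.q (fun q z => X eps z < X eps q)
    (fun q => isOpen_lt (continuous_X eps) continuous_const)
  have h3 := isOpen_opt c.b (fun b z => 0 < ori b z)
    (fun b => isOpen_lt continuous_const (continuous_ori b))
  have h4 := isOpen_opt c.t (fun t z => ori t z < 0)
    (fun t => isOpen_lt (continuous_ori t) continuous_const)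
  exact (h1.inter h2).inter (h3.inter h4)

theorem convex_reg (eps : ℝ) (c : Cell) : Convex ℝ (reg eps c) := by
  intro y hy z hz a b ha hb hab
  obtain ⟨⟨y1, y2⟩, y3, y4⟩ := hy
  obtain ⟨⟨z1, z2⟩, z3, z4⟩ := hz
  refine ⟨⟨fun p hp => ?_, fun q hq => ?_⟩, fun s hs => ?_, fun t ht' => ?_⟩
  · rw [X_comb eps hab]; exact lt_c ha hb hab (y1 p hp) (z1 p hp)
  · rw [X_comb eps hab]; exact lt_c' ha hb hab (y2 q hq) (z2 q hq)
  · rw [ori_comb s hab]; exact lt_c ha hb hab (y3 s hs) (z3 s hs)
  · rw [ori_comb t hab]; exact lt_c' ha hb hab (y4 t ht') (z4 t ht')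

theorem convex_hreg (eps : ℝ) (c : Cell) : Convex ℝ (hreg eps c) := by
  intro y hy z hz a b ha hb hab
  obtain ⟨⟨y1, y2⟩, y3, y4⟩ := hy
  obtain ⟨⟨z1, z2⟩, z3, z4⟩ := hz
  refine ⟨⟨fun p hp => ?_, fun q hq => ?_⟩, fun s hs => ?_, fun t ht' => ?_⟩
  · rw [X_comb eps hab]; exact lt_c ha hb hab (y1 p hp) (z1 p hp)
  · rw [X_comb eps hab]; exact lt_c' ha hb hab (y2 q hq) (z2 q hq)
  · rw [ori_comb s hab]; exact le_c ha hb hab (y3 s hs) (z3 s hs)
  · rw [ori_comb t hab]; exact le_c' ha hb hab (y4 t ht') (z4 t ht')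

theorem reg_subset_hreg (eps : ℝ) (c : Cell) : reg eps c ⊆ hreg eps c := by
  rintro z ⟨h1, h2, h3⟩
  exact ⟨h1, fun b hb => (h2 b hb).le, fun t ht' => (h3 t ht').le⟩

/-- The conditions of the closed trapezoid. -/
def InCl (eps : ℝ) (c : Cell) (z : ℂ) : Prop :=
  (∀ p ∈ c.p, X eps p ≤ X eps z) ∧ (∀ q ∈ c.q, X eps z ≤ X eps q) ∧
    (∀ b ∈ c.b, 0 ≤ ori b z) ∧ (∀ t ∈ c.t, ori t z ≤ 0)

theorem comb_mem_reg {eps : ℝ} {c : Cell} {y z : ℂ} (hy : y ∈ reg eps c) (hz : InCl eps c z)
    {l : ℝ} (h0 : 0 ≤ l) (h1 : l < 1) : (1 - l) • y + l • z ∈ reg eps c := by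
  obtain ⟨⟨y1, y2⟩, y3, y4⟩ := hy
  obtain ⟨z1, z2, z3, z4⟩ := hz
  have ha : 0 < 1 - l := by linarith
  have hab : 1 - l + l = 1 := by ring
  refine ⟨⟨fun p hp => ?_, fun q hq => ?_⟩, fun s hs => ?_, fun t ht' => ?_⟩
  · rw [X_comb eps hab]; exact ltle_c ha h0 hab (y1 p hp) (z1 p hp)
  · rw [X_comb eps hab]; exact ltle_c' ha h0 hab (y2 q hq) (z2 q hq)
  · rw [ori_comb s hab]; exact ltle_c ha h0 hab (y3 s hs) (z3 s hs)
  · rw [ori_comb t hab]; exact ltle_c' ha h0 hab (y4 t ht') (z4 t ht')

theorem closure_le {eps : ℝ} {c : Cell} {z : ℂ} (hz : z ∈ closure (reg eps c)) :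
    InCl eps c z := by
  have hcl : IsClosed {z | InCl eps c z} := by
    have h1 := isClosed_opt c.p (fun p z => X eps p ≤ X eps z)
      (fun p => isClosed_le continuous_const (continuous_X eps))
    have h2 := isClosed_opt c.q (fun q z => X eps z ≤ X eps q)
      (fun q => isClosed_le (continuous_X eps) continuous_const)
    have h3 := isClosed_opt c.b (fun b z => 0 ≤ ori b z)
      (fun b => isClosed_le continuous_const (continuous_ori b))
    have h4 := isClosed_opt c.t (fun t z => ori t z ≤ 0)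
      (fun t => isClosed_le (continuous_ori t) continuous_const)
    exact h1.inter (h2.inter (h3.inter h4))
  have hsub : reg eps c ⊆ {z | InCl eps c z} := by
    rintro w ⟨⟨w1, w2⟩, w3, w4⟩
    exact ⟨fun p hp => (w1 p hp).le, fun q hq => (w2 q hq).le, fun b hb => (w3 b hb).le,
      fun t ht' => (w4 t ht').le⟩
  exact closure_minimal hsub hcl hz

end SFA
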