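import Pool.Agent.Lib.SFA.PSys
import Pool.Agent.Lib.SFA.NumL
import Pool.Agent.Lib.SFA.PcTest
import Pool.Agent.Lib.SFA.PcInfA
import Pool.Agent.Lib.SFA.PcInfB

/-!
# SFA.RoundS: the first part of a round computes the system of all pieces

`splitR_spec`: let `r` be a record with `InFace eps (lev S lv i) x r.c` and the conflict list of the invariant.  `N = (r.K.filter (level = i)).map fst`; `s ∈ N ↔ s ∈ lev S lv (i+1) ∧ confl r.c s` (if `lv s < i` then `s ∈ lev S lv i` does not conflict with the valid cell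
`r.c`); `N` is Nodup (`K` is Nodup and `l = lv s`).  `mem_pieces` (`Valid` gives `Shape`; `Defd` is monotone), `pieceOK_of_isP`, `isP_of_pieceOK`: the first components of `splitR i r` are exactly the `d` with `IsP ... r.c c' d` for some `c'`; Nodup by `pieces_nodup`
(`N` is disjoint from `r.c.b, r.c.t` by `confl`).
The second component: `(s, l) ∈ r.K`, `l ≠ i`, `conflB d s` (`conflB_iff`; `Shape0 d` from `PieceOK.sh0`, `Defd S d`): `s ∈ S`, `l = lv s`, `i + 1 ≤ lv s`, `confl d s`; conversely a conflict with `d` is a conflict with `r.c`: `hreg_inf_left`, and `s ∉ r.c.b, r.c.t` because these have level `< i`.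
-/

namespace SFA

private theorem rs_mem_lev {S : Finset Seg} {lv : Seg → ℕ} {i : ℕ} {s : Seg} :
    s ∈ lev S lv i ↔ s ∈ S ∧ lv s < i := by
  simp [lev]

private theorem rs_defd {S R : Finset Seg} (h : R ⊆ S) {c : Cell} (hd : Defd R c) : Defd S c :=
  ⟨fun b hb => h (hd.bR b hb), fun t ht' => h (hd.tR t ht'), fun p hp => (hd.pC p hp).mono h,
    fun q hq => (hd.qC q hq).mono h⟩

private theorem rs_defd_piece {eps : ℝ} {S : Finset Seg} {c : Cell} (hd : Defd S c)
    {N : Finset Seg} (hN : ∀ s ∈ N, s ∈ S) {d : Cell} (h : PieceOK eps c N d) : Defd S d := by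
  have hsub : N ∪ (c.b.toFinset ∪ c.t.toFinset) ⊆ S := by
    intro s hs
    rw [Finset.mem_union, Finset.mem_union, Option.mem_toFinset, Option.mem_toFinset] at hs
    rcases hs with h | h | h
    · exact hN s h
    · exact hd.bR s h
    · exact hd.tR s h
  refine ⟨?_, ?_, ?_, ?_⟩
  · intro s hs
    rcases h.bN with h1 | ⟨b, hb, h1, _⟩
    · rw [h1] at hs; exact hd.bR s hs
    · rw [Option.mem_unique hs hb]; exact hN b h1
  · intro s hs
    rcases h.tN with h1 | ⟨b, hb, h1, _⟩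
    · rw [h1] at hs; exact hd.tR s hs
    · rw [Option.mem_unique hs hb]; exact hN b h1
  · intro s hs
    rcases h.pN with h1 | ⟨b, hb, _, _, h1⟩
    · rw [h1] at hs; exact hd.pC s hs
    · rw [Option.mem_unique hs hb]; exact h1.mono hsub
  · intro s hs
    rcases h.qN with h1 | ⟨b, hb, _, _, h1⟩
    · rw [h1] at hs; exact hd.qC s hs
    · rw [Option.mem_unique hs hb]; exact h1.mono hsub

theorem splitR_spec {eps : ℝ} {S : Finset Seg} {x : ℂ} (hG : Gen eps S x) (hL : LexOK eps S x)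
    {lv : Seg → ℕ} {i : ℕ} {r : Rec} (hc : Valid eps (lev S lv i) r.c)
    (hK : ∀ s l, (s, l) ∈ r.K ↔ s ∈ S ∧ l = lv s ∧ i ≤ lv s ∧ confl eps r.c s)
    (hnd : r.K.Nodup) :
    (∀ d, d ∈ (splitR i r).map Prod.fst ↔
      ∃ c', IsP eps (lev S lv i) (lev S lv (i + 1)) r.c c' d) ∧
    ((splitR i r).map Prod.fst).Nodup ∧
    (∀ a ∈ splitR i r, a.2.Nodup ∧ ∀ s l, (s, l) ∈ a.2 ↔
      s ∈ S ∧ l = lv s ∧ i + 1 ≤ lv s ∧ confl eps a.1 s) := by
  have hR : lev S lv i ⊆ lev S lv (i + 1) := lev_mono S lv (Nat.le_succ i)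
  have hR' : lev S lv (i + 1) ⊆ S := lev_subset S lv (i + 1)
  have hd : Defd S r.c := rs_defd (lev_subset S lv i) hc.defd
  have hmemN : ∀ s, s ∈ (r.K.filter (fun k => decide (k.2 = i))).map Prod.fst ↔
      s ∈ lev S lv (i + 1) ∧ confl eps r.c s := by
    intro s
    rw [List.mem_map]
    constructor
    · rintro ⟨⟨s', l⟩, h1, rfl⟩
      rw [List.mem_filter, decide_eq_true_eq] at h1
      obtain ⟨h1, h2⟩ := h1
      obtain ⟨h3, h4, h5, h6⟩ := (hK s' l).1 h1
      dsimp only at h2 ⊢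
      refine ⟨rs_mem_lev.2 ⟨h3, by omega⟩, h6⟩
    · rintro ⟨h1, h2⟩
      obtain ⟨h3, h4⟩ := rs_mem_lev.1 h1
      have h5 : ¬ lv s < i := fun h => hc.emp s (rs_mem_lev.2 ⟨h3, h⟩) h2
      refine ⟨(s, i), ?_, rfl⟩
      rw [List.mem_filter, decide_eq_true_eq]
      exact ⟨(hK s i).2 ⟨h3, by omega, by omega, h2⟩, rfl⟩
  have hNS : ∀ s ∈ (r.K.filter (fun k => decide (k.2 = i))).map Prod.fst, s ∈ S :=
    fun s hs => hR' ((hmemN s).1 hs).1
  have hNnd : ((r.K.filter (fun k => decide (k.2 = i))).map Prod.fst).Nodup := by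
    refine List.Nodup.map_on ?_ (hnd.filter _)
    rintro ⟨s, l⟩ h1 ⟨s', l'⟩ h2 h3
    rw [List.mem_filter, decide_eq_true_eq] at h1 h2
    have h4 := h1.2
    have h5 := h2.2
    dsimp only at h3 h4 h5
    rw [h3, h4, h5]
  set N := (r.K.filter (fun k => decide (k.2 = i))).map Prod.fst with hNdef
  have hNF : ∀ s, s ∈ N.toFinset ↔ s ∈ lev S lv (i + 1) ∧ confl eps r.c s := by
    intro s
    rw [List.mem_toFinset, hmemN]
  have hmp : ∀ d, d ∈ pieces r.c N ↔ PieceOK eps r.c N.toFinset d :=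
    fun d => mem_pieces hG hL hc.shape hd hNS d
  have hsplit : splitR i r = (pieces r.c N).map (fun d => (d,
      (r.K.filter (fun k => !decide (k.2 = i))).filter (fun k => conflB d k.1))) := rfl
  have hfst : (splitR i r).map Prod.fst = pieces r.c N := by
    rw [hsplit, List.map_map]
    exact List.map_id _
  have hisP : ∀ d, PieceOK eps r.c N.toFinset d ↔
      ∃ c', IsP eps (lev S lv i) (lev S lv (i + 1)) r.c c' d := by
    intro d
    constructor
    · intro h
      exact isP_of_pieceOK hG hR hR' hc hNF h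
    · rintro ⟨c', h⟩
      exact pieceOK_of_isP hG hR hR' h hNF
  refine ⟨?_, ?_, ?_⟩
  · intro d
    rw [hfst, hmp, hisP]
  · rw [hfst]
    exact pieces_nodup hG hL hc.shape hd hNS
      (fun s hs => ⟨((hmemN s).1 hs).2.1, ((hmemN s).1 hs).2.2.1⟩) hNnd
  · intro a ha
    rw [hsplit, List.mem_map] at ha
    obtain ⟨d, hdp, rfl⟩ := ha
    have hP := (hmp d).1 hdp
    have hdd : Defd S d := rs_defd_piece hd (fun s hs => hNS s (List.mem_toFinset.1 hs)) hP
    refine ⟨(hnd.filter _).filter _, ?_⟩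
    intro s l
    dsimp only
    rw [List.mem_filter, List.mem_filter, hK]
    constructor
    · rintro ⟨⟨⟨h1, h2, h3, h4⟩, h5⟩, h6⟩
      have h7 : ¬ l = i := by simpa using h5
      refine ⟨h1, h2, by omega, ?_⟩
      exact (conflB_iff hG hL hP.sh0 hdd h1).1 h6
    · rintro ⟨h1, h2, h3, h4⟩
      refine ⟨⟨⟨h1, h2, by omega, ?_⟩, ?_⟩, ?_⟩
      · obtain ⟨c', hI⟩ := (hisP d).1 hP
        obtain ⟨_, _, z, hz1, hz2⟩ := h4
        refine ⟨?_, ?_, z, hz1, ?_⟩
        · intro hb
          have := (rs_mem_lev.1 (hc.defd.bR s hb)).2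
          omega
        · intro hb
          have := (rs_mem_lev.1 (hc.defd.tR s hb)).2
          omega
        · rw [hI.eq] at hz2
          exact hreg_inf_left hG hR hR' hI.vc hI.vc' hI.ne hz2
      · have h7 : ¬ l = i := by omega
        simpa using h7
      · exact (conflB_iff hG hL hP.sh0 hdd h1).2 h4

end SFA
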