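import Pool.Agent.Lib.SFA.SideC
import Pool.Agent.Lib.SFA.ODefs
import Pool.Agent.Lib.SFA.NoCrit

/-!
# SFA.SideDart: `IsSide` (ODefs) and `IsDart` (DartDef) agree

`vert_iff`: (→) endpoints; a common point of two non-parallel segments `s`, `t` (`cross ≠ 0`, so `s ≠ t`: `cross a a = 0`).  (←) a common point of `s ≠ t`: if the segments are parallel (`cross = 0`), both are on one line (common point), each is determined on it by its abscissas (`mem_carrier_iff`); since they share only one point, it is an endpoint of one of them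
(otherwise the two open abscissa intervals overlap and there are two common points).
`isSide_iff_isDart`: `IsDEdge S p q ↔ IsEdge S p q`: (→) `segment p q ⊆ U S`, no critical point inside: the open segment is connected and covered by the finitely many closed sets `carrier s`, pairwise disjoint on it (a common point would be critical), so it is in one `carrier s`
(`IsPreconnected` and finitely many disjoint closed sets; or: take the midpoint on `carrier s`, and the supremum of the part on `carrier s`), hence `p, q ∈ carrier s` (closed).  (←) convexity of the carrier.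
The condition on the left side: `lpt p q (1/2) ε = midpoint p q + ε I (q - p)`; `∃ ε₀ > 0, ∀ ε ∈ (0, ε₀)` is `∀ᶠ ε in 𝓝[>] 0` (`eventually_nhdsWithin_iff`, `Metric` or `mem_nhdsGT_iff_exists_Ioo_subset`).
-/

namespace SFA

open Set Filter Topology

namespace SideDartAux

theorem cross_self' (a : ℂ) : cross a a = 0 := by
  simp [cross]; ring

theorem eq_left {eps : ℝ} {s : Seg} (hs : X eps s.1 < X eps s.2) {v : ℂ} (hv : v ∈ carrier s)
    (h : v ≠ s.1) : X eps s.1 < X eps v := by
  obtain ⟨h1, _, h3⟩ := (mem_carrier_iff' hs v).1 hv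
  obtain ⟨_, _, h4⟩ := (mem_carrier_iff' hs s.1).1 (left_mem_carrier s)
  rcases h1.lt_or_eq with h5 | h5
  · exact h5
  · exact absurd (ext_X h5.symm (by rw [h3, h4, h5])) h

theorem eq_right {eps : ℝ} {s : Seg} (hs : X eps s.1 < X eps s.2) {v : ℂ} (hv : v ∈ carrier s)
    (h : v ≠ s.2) : X eps v < X eps s.2 := by
  obtain ⟨_, h1, h3⟩ := (mem_carrier_iff' hs v).1 hv
  obtain ⟨_, _, h4⟩ := (mem_carrier_iff' hs s.2).1 (right_mem_carrier s)
  rcases h1.lt_or_eq with h5 | h5
  · exact h5
  · exact absurd (ext_X h5 (by rw [h3, h4, h5])) h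

theorem ori_sub (s : Seg) (z v : ℂ) : ori s z = ori s v + cross (s.2 - s.1) (z - v) := by
  simp [ori, cross]; ring

theorem par {eps : ℝ} {a b d : ℂ} (ha : 0 < X eps a) (h1 : cross a b = 0) (h2 : cross a d = 0) :
    cross b d = 0 := by
  rw [cross_eq eps] at h1 h2 ⊢
  have h3 : X eps a * (X eps b * d.im - b.im * X eps d) = 0 := by
    linear_combination X eps b * h2 - X eps d * h1
  exact (mul_eq_zero.1 h3).resolve_left ha.ne'

theorem endpt {eps : ℝ} {S : Finset Seg} {x : ℂ} (hG : Gen eps S x) {s t : Seg} (hs : s ∈ S)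
    (ht' : t ∈ S) (hst : s ≠ t) {v : ℂ} (h1 : v ∈ carrier s) (h2 : v ∈ carrier t)
    (hc : cross (s.2 - s.1) (t.2 - t.1) = 0) :
    (v = s.1 ∨ v = s.2) ∨ (v = t.1 ∨ v = t.2) := by
  by_contra hcon
  simp only [not_or] at hcon
  obtain ⟨⟨a1, a2⟩, b1, b2⟩ := hcon
  have is := hG.inc s hs
  have it := hG.inc t ht'
  have c1 := eq_left is h1 a1
  have c2 := eq_right is h1 a2
  have c3 := eq_left it h2 b1
  have c4 := eq_right it h2 b2
  set c : ℝ := min (X eps s.2) (X eps t.2) with hcdef
  have hvc : X eps v < c := lt_min c2 c4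
  have hz1 : pt eps c (ht eps s c) ∈ carrier s :=
    pt_mem_carrier is (c1.trans hvc).le (min_le_left _ _)
  have hz2 : pt eps c (ht eps s c) ∈ carrier t := by
    rw [mem_carrier_iff it, X_pt]
    refine ⟨(c3.trans hvc).le, min_le_right _ _, ?_⟩
    rw [ori_sub t _ v, ((mem_carrier_iff it v).1 h2).2.2, zero_add]
    have e1 : cross (s.2 - s.1) (pt eps c (ht eps s c) - v) = 0 := by
      have e2 := ori_sub s (pt eps c (ht eps s c)) v
      rw [((mem_carrier_iff is _).1 hz1).2.2, ((mem_carrier_iff is v).1 h1).2.2] at e2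
      linarith
    have ha : 0 < X eps (s.2 - s.1) := by
      rw [X_sub]; linarith
    exact par ha hc e1
  have h3 := hG.one s hs t ht' hst ⟨hz1, hz2⟩ ⟨h1, h2⟩
  have h4 : X eps (pt eps c (ht eps s c)) = X eps v := by rw [h3]
  rw [X_pt] at h4
  exact hvc.ne' h4

end SideDartAux

open SideDartAux

theorem vert_iff {eps : ℝ} {S : Finset Seg} {x : ℂ} (hG : Gen eps S x) (v : ℂ) :
    v ∈ Vert S ↔ IsCrit S v := by
  constructor
  · rintro (h | ⟨s, hs, t, ht', hc, h1, h2⟩)
    · exact Or.inl h
    · refine Or.inr ⟨s, hs, t, ht', ?_, h1, h2⟩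
      rintro rfl
      exact hc (cross_self' _)
  · rintro (h | ⟨s, hs, t, ht', hst, h1, h2⟩)
    · exact Or.inl h
    · by_cases hc : cross (s.2 - s.1) (t.2 - t.1) = 0
      · rcases endpt hG hs ht' hst h1 h2 hc with h | h
        · exact Or.inl ⟨s, hs, h⟩
        · exact Or.inl ⟨t, ht', h⟩
      · exact Or.inr ⟨s, hs, t, ht', hc, h1, h2⟩

theorem SideDartAux.dedge_iff {eps : ℝ} {S : Finset Seg} {x : ℂ} (hG : Gen eps S x) (p q : ℂ) :
    IsDEdge S p q ↔ IsEdge S p q := by
  classical
  constructor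
  · intro h
    refine ⟨h.ne, (vert_iff hG p).1 h.pV, (vert_iff hG q).1 h.qV, ?_, ?_⟩
    · have hfree : ∀ z ∈ openSegment ℝ p q, ¬ IsCrit S z := fun z hz hcr =>
        Set.disjoint_left.1 h.free hz ((vert_iff hG z).2 hcr)
      have hO : IsPreconnected (openSegment ℝ p q) := (convex_openSegment p q).isPreconnected
      have hm : midpoint ℝ p q ∈ openSegment ℝ p q := by
        refine ⟨1 / 2, 1 / 2, by norm_num, by norm_num, by norm_num, ?_⟩
        rw [midpoint_eq_smul_add, smul_add, one_div]
        norm_num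
      obtain ⟨s, hs, hms⟩ := mem_U.1 (h.sub (openSegment_subset_segment ℝ p q hm))
      have hsub : openSegment ℝ p q ⊆ carrier s := by
        intro z hz
        by_contra hzs
        have hcov : openSegment ℝ p q ⊆ carrier s ∪ U (S.erase s) := by
          intro y hy
          obtain ⟨t, ht', hyt⟩ := mem_U.1 (h.sub (openSegment_subset_segment ℝ p q hy))
          by_cases hts : t = s
          · subst hts
            exact Or.inl hyt
          · exact Or.inr (mem_U.2 ⟨t, Finset.mem_erase.2 ⟨hts, ht'⟩, hyt⟩)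
        have hz2 : z ∈ U (S.erase s) := (hcov hz).resolve_left hzs
        obtain ⟨y, hy, hy1, hy2⟩ := isPreconnected_closed_iff.1 hO (carrier s) (U (S.erase s))
          (isClosed_carrier s) (isClosed_U _) hcov ⟨_, hm, hms⟩ ⟨z, hz, hz2⟩
        obtain ⟨t, ht', hyt⟩ := mem_U.1 hy2
        rw [Finset.mem_erase] at ht'
        exact hfree y hy (IsCrit.inter hs ht'.2 (fun e => ht'.1 e.symm) hy1 hyt)
      have hcl : segment ℝ p q ⊆ carrier s := by
        rw [← closure_openSegment]
        exact closure_minimal hsub (isClosed_carrier s)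
      exact ⟨s, hs, hcl (left_mem_segment ℝ p q), hcl (right_mem_segment ℝ p q)⟩
    · intro v hv hcr
      exact Set.disjoint_left.1 h.free hv ((vert_iff hG v).2 hcr)
  · rintro ⟨h1, h2, h3, ⟨s, hs, hps, hqs⟩, h5⟩
    refine ⟨h1, (vert_iff hG p).2 h2, (vert_iff hG q).2 h3, ?_, ?_⟩
    · intro z hz
      exact mem_U.2 ⟨s, hs, (convex_segment s.1 s.2).segment_subset hps hqs hz⟩
    · rw [Set.disjoint_left]
      intro z hz hzV
      exact h5 z hz ((vert_iff hG z).1 hzV)

theorem SideDartAux.lpt_half (p q : ℂ) (ε : ℝ) :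
    lpt p q (1 / 2) ε = midpoint ℝ p q + ((ε : ℝ) : ℂ) * Complex.I * (q - p) := by
  rw [midpoint_eq_smul_add, lpt]
  apply Complex.ext
  · simp; ring
  · simp; ring

theorem isSide_iff_isDart {eps : ℝ} {S : Finset Seg} {x : ℂ} (hG : Gen eps S x) (p q : ℂ) :
    IsSide S (face S x) p q ↔ IsDart S (face S x) p q := by
  unfold IsSide IsDart LeftOf
  rw [dedge_iff hG]
  refine and_congr_right (fun _ => ?_)
  constructor
  · rintro ⟨e, he, h⟩
    filter_upwards [Ioo_mem_nhdsGT he] with k hk
    rw [← lpt_half]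
    exact h k hk.1 hk.2
  · intro h
    obtain ⟨e, he, h'⟩ := mem_nhdsGT_iff_exists_Ioo_subset.1 h
    refine ⟨e, he, fun k hk1 hk2 => ?_⟩
    rw [lpt_half]
    exact h' ⟨hk1, hk2⟩

end SFA
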