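import Pool.Agent.Lib.SFA.EdgeCh
import Pool.Agent.Lib.SFA.ODefs
import Pool.Agent.Lib.SFA.RegB

/-!
# SFA.TurnJ: consecutive directed edges are joined near their common vertex

`turn_conn`: a turn `Nx k k'` at `v` (`Fin' k v`, `Em k' v`).  For every `r > 0` there is a preconnected set `K` in `ball v r`, disjoint from `U S`, containing `reg k.2 ∩ ball v r` and `reg k'.2 ∩ ball v r`.
`b2`, `t2`: `K = reg c ∩ ball v r` (convex, `reg_disj_U`).  `b3`: let `w` be a point with `X w = X v`, `w.im > v.im`, below `ht t (X v)` for `t ∈ c.t = r.t`, in the ball (possible as `ori t v < 0`): `OpenBand c w`, `OpenBand r w`; `w ∉ U S` (as in `door`, RDoor: `right_door`); `w` is in the closure of `reg c ∩ ball v r` and of `reg r ∩ ball v r`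
(`w ∓ δ`); `K = (reg c ∩ ball) ∪ {w} ∪ (reg r ∩ ball)` is preconnected (`IsPreconnected.subset_closure`, `IsPreconnected.union`).  `b4`: the same with `r` in the middle: `c`, `w` above `v`, `r`, `w'` below `v` (`0 < ori b' v` for `b' ∈ r.b = l.b`), `l`.  `t2, t3, t4`: mirror images.
`reg_near_end`: `k = (false, c)`, `b ∈ c.b`, `v ∈ c.q` on `b`, `u ∈ carrier b` with `X u < X v`.  For `t' < 1` close to 1 the point `y = u + t' (v - u)` of `b` is in the slab of `c` and in the ball, `ori t y < 0` (`bt`); then for small `ε > 0` `lpt u v t' ε = y + ε I (v - u)` is still in the slab, below the top, in the ball, and `ori b > 0`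
(`cross (b.2 - b.1) (I (v - u)) > 0` since `v - u` is a positive multiple of `b.2 - b.1`).  Top: mirror image.  `reg_near_start`: the same at the other end.
-/

namespace SFA

open Set Filter Topology

namespace TurnJAux

theorem convex_insert' {eps : ℝ} {c : Cell} {z : ℂ} (hz : InCl eps c z) :
    Convex ℝ (insert z (reg eps c)) := by
  rw [convex_iff_forall_pos]
  rintro u hu w hw a b ha hb hab
  rcases hu with rfl | hu
  · rcases hw with rfl | hw
    · left
      rw [← add_smul, hab, one_smul]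
    · right
      have h := comb_mem_reg (l := a) hw hz ha.le (by linarith)
      have hb' : 1 - a = b := by linarith
      rw [hb'] at h
      rw [add_comm]; exact h
  · rcases hw with rfl | hw
    · right
      have h := comb_mem_reg (l := b) hu hz hb.le (by linarith)
      have hb' : 1 - b = a := by linarith
      rw [hb'] at h
      exact h
    · right
      exact convex_reg eps c hu hw ha.le hb.le hab

theorem opt_eq {α : Type*} {o : Option α} {a b : α} (h : a ∈ o) (h' : b ∈ o) : a = b := by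
  rw [Option.mem_def] at h h'
  rw [h] at h'
  exact Option.some.inj h'

/-- the part near `v` of the region with a boundary point -/
def pc (eps : ℝ) (c : Cell) (z v : ℂ) (r : ℝ) : Set ℂ := insert z (reg eps c) ∩ Metric.ball v r

theorem pc_conv {eps : ℝ} {c : Cell} {z v : ℂ} {r : ℝ} (hz : InCl eps c z) :
    Convex ℝ (pc eps c z v r) := (convex_insert' hz).inter (convex_ball v r)

theorem pc_disj {eps : ℝ} {S : Finset Seg} {x : ℂ} (hG : Gen eps S x) {c : Cell}
    (hc : Valid eps S c) {z v : ℂ} {r : ℝ} (hz : z ∉ U S) : ∀ y ∈ pc eps c z v r, y ∉ U S := by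
  rintro y ⟨rfl | hy, _⟩
  · exact hz
  · exact reg_disj_U hG hc hy

/-- the region comes close to each point of the closed trapezoid -/
theorem reg_meets {eps : ℝ} {S : Finset Seg} {x : ℂ} (hG : Gen eps S x) {c : Cell}
    (hc : Valid eps S c) {z v : ℂ} {r : ℝ} (hz : InCl eps c z) (hzb : z ∈ Metric.ball v r) :
    (reg eps c ∩ Metric.ball v r).Nonempty := by
  obtain ⟨y, hy⟩ := reg_nonempty hG hc
  have hcont : Continuous (fun l : ℝ => (1 - l) • y + l • z) := by fun_prop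
  have h1 : ∀ᶠ l in 𝓝[<] (1 : ℝ), (1 - l) • y + l • z ∈ Metric.ball v r := by
    apply mem_nhdsWithin_of_mem_nhds
    apply hcont.continuousAt.preimage_mem_nhds
    have : (1 - (1 : ℝ)) • y + (1 : ℝ) • z = z := by simp
    rw [this]
    exact Metric.isOpen_ball.mem_nhds hzb
  have h2 : ∀ᶠ l in 𝓝[<] (1 : ℝ), l < 1 := self_mem_nhdsWithin
  have h3 : ∀ᶠ l in 𝓝[<] (1 : ℝ), 0 < l :=
    mem_nhdsWithin_of_mem_nhds (lt_mem_nhds (by norm_num))
  obtain ⟨l, l1, l2, l3⟩ := (h1.and (h2.and h3)).exists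
  exact ⟨_, comb_mem_reg hy hz l3.le l2, l1⟩

/-- a point above `v`, close to `v`, below the segment of `o` -/
theorem above_near {eps : ℝ} (o : Option Seg) (v : ℂ) {r : ℝ} (hr : 0 < r)
    (h : ∀ t ∈ o, ori t v < 0) :
    ∃ z ∈ Metric.ball v r, X eps z = X eps v ∧ v.im < z.im ∧ ∀ t ∈ o, ori t z < 0 := by
  have hcont : Continuous (fun y : ℝ => pt eps (X eps v) y) :=
    (continuous_pt eps).comp (continuous_const.prodMk continuous_id)
  have hv : pt eps (X eps v) v.im = v := pt_eta eps v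
  have e1 : ∀ᶠ y in 𝓝[>] v.im, pt eps (X eps v) y ∈ Metric.ball v r := by
    apply mem_nhdsWithin_of_mem_nhds
    apply hcont.continuousAt.preimage_mem_nhds
    rw [hv]
    exact Metric.ball_mem_nhds v hr
  have e2 : ∀ᶠ y in 𝓝[>] v.im, v.im < y := self_mem_nhdsWithin
  have e3 : ∀ᶠ y in 𝓝[>] v.im, ∀ t ∈ o, ori t (pt eps (X eps v) y) < 0 := by
    cases o with
    | none => exact Eventually.of_forall (fun y t ht' => by simp at ht')
    | some t =>
      have h1 : ∀ᶠ y in 𝓝 v.im, ori t (pt eps (X eps v) y) < 0 := by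
        have h2 : ContinuousAt (fun y : ℝ => ori t (pt eps (X eps v) y)) v.im :=
          ((continuous_ori t).comp hcont).continuousAt
        refine h2.eventually_lt_const ?_
        beta_reduce
        rw [hv]
        exact h t rfl
      filter_upwards [h1.filter_mono nhdsWithin_le_nhds] with y hy t' ht'
      cases ht'
      exact hy
  obtain ⟨y, y1, y2, y3⟩ := (e1.and (e2.and e3)).exists
  exact ⟨_, y1, by simp, by simpa using y2, y3⟩

theorem below_near {eps : ℝ} (o : Option Seg) (v : ℂ) {r : ℝ} (hr : 0 < r)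
    (h : ∀ t ∈ o, 0 < ori t v) :
    ∃ z ∈ Metric.ball v r, X eps z = X eps v ∧ z.im < v.im ∧ ∀ t ∈ o, 0 < ori t z := by
  have hcont : Continuous (fun y : ℝ => pt eps (X eps v) y) :=
    (continuous_pt eps).comp (continuous_const.prodMk continuous_id)
  have hv : pt eps (X eps v) v.im = v := pt_eta eps v
  have e1 : ∀ᶠ y in 𝓝[<] v.im, pt eps (X eps v) y ∈ Metric.ball v r := by
    apply mem_nhdsWithin_of_mem_nhds
    apply hcont.continuousAt.preimage_mem_nhds
    rw [hv]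
    exact Metric.ball_mem_nhds v hr
  have e2 : ∀ᶠ y in 𝓝[<] v.im, y < v.im := self_mem_nhdsWithin
  have e3 : ∀ᶠ y in 𝓝[<] v.im, ∀ t ∈ o, 0 < ori t (pt eps (X eps v) y) := by
    cases o with
    | none => exact Eventually.of_forall (fun y t ht' => by simp at ht')
    | some t =>
      have h1 : ∀ᶠ y in 𝓝 v.im, 0 < ori t (pt eps (X eps v) y) := by
        have h2 : ContinuousAt (fun y : ℝ => ori t (pt eps (X eps v) y)) v.im :=
          ((continuous_ori t).comp hcont).continuousAt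
        refine h2.eventually_const_lt ?_
        beta_reduce
        rw [hv]
        exact h t rfl
      filter_upwards [h1.filter_mono nhdsWithin_le_nhds] with y hy t' ht'
      cases ht'
      exact hy
  obtain ⟨y, y1, y2, y3⟩ := (e1.and (e2.and e3)).exists
  exact ⟨_, y1, by simp, by simpa using y2, y3⟩

/-- no segment passes through a point of the right wall in the open band -/
theorem free_q {eps : ℝ} {S : Finset Seg} {x : ℂ} (hG : Gen eps S x) {c : Cell}
    (hc : Valid eps S c) {v y : ℂ} (hv : v ∈ c.q) (hX : X eps y = X eps v) (hyv : y ≠ v)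
    (hb : ∀ b ∈ c.b, 0 < ori b y) (ht' : ∀ t ∈ c.t, ori t y < 0) : y ∉ U S := by
  intro hy
  obtain ⟨s, hs, hys⟩ := mem_U.1 hy
  have hinc := hG.inc s hs
  have hm := (mem_carrier_iff' hinc y).1 hys
  have hcrit : IsCrit S v := hc.defd.qC v hv
  have h1 : X eps s.1 < X eps v := by
    rw [← hX]
    refine lt_of_le_of_ne hm.1 fun h => ?_
    have h2 : s.1.im = ht eps s (X eps s.1) := (ori_zero_iff hinc s.1).1 (ori_left s)
    have h3 : y = s.1 := ext_X (eps := eps) h.symm (by rw [hm.2.2, h2, h])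
    exact hyv (hG.inj y v (h3 ▸ IsCrit.left hs) hcrit hX)
  refine WallTopAux.push_left hc hG.inc hs hv h1 (by rw [← hX]; exact hm.2.1) ?_ ?_
  · intro b hb'
    have h2 := (ori_pos_iff (hG.inc b (hc.defd.bR b hb')) y).1 (hb b hb')
    rw [hm.2.2, hX] at h2
    exact h2
  · intro t htt
    have h2 := (ori_neg_iff (hG.inc t (hc.defd.tR t htt)) y).1 (ht' t htt)
    rw [hm.2.2, hX] at h2
    exact h2

/-- a point of the common wall of two adjacent cells near the wall vertex -/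
theorem door_near {eps : ℝ} {S : Finset Seg} {x : ℂ} (hG : Gen eps S x) {c c' : Cell}
    (hc : Valid eps S c) (hc' : Valid eps S c') (h : adj c c') {v : ℂ}
    (hv : v ∈ c.q ∨ v ∈ c'.p) {r : ℝ} (hr : 0 < r) :
    ∃ z ∈ Metric.ball v r, z ∉ U S ∧ InCl eps c z ∧ InCl eps c' z := by
  obtain ⟨v', hq, hp, h⟩ := h
  have hvv : v' = v := by
    rcases hv with hv | hv
    · exact opt_eq hq hv
    · exact opt_eq hp hv
  subst hvv
  have hqb := hc.shape.qb v' hq
  have hpb := hc'.shape.pb v' hp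
  have fin : ∀ z : ℂ, X eps z = X eps v' → z.im ≠ v'.im → (∀ b ∈ c.b, 0 < ori b z) →
      (∀ t ∈ c.t, ori t z < 0) → (∀ b ∈ c'.b, 0 < ori b z) → (∀ t ∈ c'.t, ori t z < 0) →
      z ∉ U S ∧ InCl eps c z ∧ InCl eps c' z := by
    intro z hX hne h1 h2 h3 h4
    refine ⟨free_q hG hc hq hX (fun h => hne (by rw [h])) h1 h2, ⟨?_, ?_, ?_, ?_⟩,
      ⟨?_, ?_, ?_, ?_⟩⟩
    · intro p hp'; rw [hX]; exact (hc.shape.lt p hp' v' hq).le
    · intro q hq'; rw [hX, opt_eq hq hq']
    · exact fun b h => (h1 b h).le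
    · exact fun t h => (h2 t h).le
    · intro p hp'; rw [hX, opt_eq hp hp']
    · intro q hq'; rw [hX]; exact (hc'.shape.lt v' hp q hq').le
    · exact fun b h => (h3 b h).le
    · exact fun t h => (h4 t h).le
  rcases h with ⟨htt, hta⟩ | ⟨hbb, hba⟩
  · obtain ⟨z, zb, zX, zi, zt⟩ := above_near (eps := eps) c.t v' hr hta
    refine ⟨z, zb, fin z zX zi.ne' ?_ zt ?_ (by rw [← htt]; exact zt)⟩
    · exact Deg2Aux.bot_of_above hG hc hqb zX zi
    · exact Deg2Aux.bot_of_above hG hc' hpb zX zi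
  · obtain ⟨z, zb, zX, zi, zt⟩ := below_near (eps := eps) c.b v' hr hba
    refine ⟨z, zb, fin z zX zi.ne zt ?_ (by rw [← hbb]; exact zt) ?_⟩
    · exact Deg2Aux.top_of_below hG hc hqb zX zi
    · exact Deg2Aux.top_of_below hG hc' hpb zX zi

/-- two adjacent cells are joined near the wall vertex -/
theorem join2 {eps : ℝ} {S : Finset Seg} {x : ℂ} (hG : Gen eps S x) {c c' : Cell}
    (hc : Valid eps S c) (hc' : Valid eps S c') {v : ℂ} {r : ℝ}
    (h : ∃ z ∈ Metric.ball v r, z ∉ U S ∧ InCl eps c z ∧ InCl eps c' z) :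
    ∃ K : Set ℂ, IsPreconnected K ∧ K ⊆ Metric.ball v r ∧ (∀ z ∈ K, z ∉ U S) ∧
      reg eps c ∩ Metric.ball v r ⊆ K ∧ reg eps c' ∩ Metric.ball v r ⊆ K ∧
      (reg eps c ∩ Metric.ball v r).Nonempty ∧ (reg eps c' ∩ Metric.ball v r).Nonempty := by
  obtain ⟨z, zb, zU, z1, z2⟩ := h
  refine ⟨pc eps c z v r ∪ pc eps c' z v r, ?_, ?_, ?_, ?_, ?_, reg_meets hG hc z1 zb,
    reg_meets hG hc' z2 zb⟩
  · exact IsPreconnected.union z ⟨mem_insert _ _, zb⟩ ⟨mem_insert _ _, zb⟩
      (pc_conv z1).isPreconnected (pc_conv z2).isPreconnected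
  · rintro y (hy | hy)
    · exact hy.2
    · exact hy.2
  · rintro y (hy | hy)
    · exact pc_disj hG hc zU y hy
    · exact pc_disj hG hc' zU y hy
  · rintro y ⟨h1, h2⟩
    exact Or.inl ⟨mem_insert_of_mem _ h1, h2⟩
  · rintro y ⟨h1, h2⟩
    exact Or.inr ⟨mem_insert_of_mem _ h1, h2⟩

/-- three cells -/
theorem join3 {eps : ℝ} {S : Finset Seg} {x : ℂ} (hG : Gen eps S x) {c d e : Cell}
    (hc : Valid eps S c) (hd : Valid eps S d) (he : Valid eps S e) {v : ℂ} {r : ℝ}
    (h : ∃ z ∈ Metric.ball v r, z ∉ U S ∧ InCl eps c z ∧ InCl eps d z)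
    (h' : ∃ z ∈ Metric.ball v r, z ∉ U S ∧ InCl eps d z ∧ InCl eps e z) :
    ∃ K : Set ℂ, IsPreconnected K ∧ K ⊆ Metric.ball v r ∧ (∀ z ∈ K, z ∉ U S) ∧
      reg eps c ∩ Metric.ball v r ⊆ K ∧ reg eps e ∩ Metric.ball v r ⊆ K := by
  obtain ⟨K, k1, k2, k3, k4, k5, k6, k7⟩ := join2 hG hc hd h
  obtain ⟨L, l1, l2, l3, l4, l5, l6, l7⟩ := join2 hG hd he h'
  obtain ⟨y, hy⟩ := k7
  refine ⟨K ∪ L, IsPreconnected.union y (k5 hy) (l4 hy) k1 l1, union_subset k2 l2, ?_,
    k4.trans subset_union_left, l5.trans subset_union_right⟩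
  rintro z (hz | hz)
  · exact k3 z hz
  · exact l3 z hz

/-- one cell -/
theorem join1 {eps : ℝ} {S : Finset Seg} {x : ℂ} (hG : Gen eps S x) {c : Cell}
    (hc : Valid eps S c) (v : ℂ) (r : ℝ) :
    ∃ K : Set ℂ, IsPreconnected K ∧ K ⊆ Metric.ball v r ∧ (∀ z ∈ K, z ∉ U S) ∧
      reg eps c ∩ Metric.ball v r ⊆ K ∧ reg eps c ∩ Metric.ball v r ⊆ K :=
  ⟨reg eps c ∩ Metric.ball v r, ((convex_reg eps c).inter (convex_ball v r)).isPreconnected,
    inter_subset_right, fun _ hz => reg_disj_U hG hc hz.1, Subset.rfl, Subset.rfl⟩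

theorem cross_I (a d : ℂ) : cross a (Complex.I * d) = a.re * d.re + a.im * d.im := by
  simp [cross]

theorem ori_add (s : Seg) (y v : ℂ) : ori s (y + v) = ori s y + cross (s.2 - s.1) v := by
  simp [ori, cross]; ring

theorem dot_sign {eps : ℝ} {e d : ℂ} (hc : cross e d = 0) (he : 0 < X eps e) :
    0 < X eps d → 0 < e.re * d.re + e.im * d.im := by
  intro hd
  have h1 : X eps e * d.re = X eps d * e.re := by
    have : X eps e * d.re - X eps d * e.re = - eps * cross e d := by simp [X, cross]; ring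
    rw [hc] at this; linarith
  have h2 : X eps e * d.im = X eps d * e.im := by
    have : X eps e * d.im - X eps d * e.im = cross e d := by simp [X, cross]; ring
    rw [hc] at this; linarith
  have h3 : X eps e * (e.re * d.re + e.im * d.im) = X eps d * (e.re ^ 2 + e.im ^ 2) := by
    calc X eps e * (e.re * d.re + e.im * d.im)
        = e.re * (X eps e * d.re) + e.im * (X eps e * d.im) := by ring
      _ = X eps d * (e.re ^ 2 + e.im ^ 2) := by rw [h1, h2]; ring
  have h4 : 0 < e.re ^ 2 + e.im ^ 2 := by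
    rcases eq_or_ne e.re 0 with h | h
    · rcases eq_or_ne e.im 0 with h' | h'
      · exfalso
        have : X eps e = 0 := by simp [X, h, h']
        linarith
      · positivity
    · positivity
  have h5 : 0 < X eps e * (e.re * d.re + e.im * d.im) := by
    rw [h3]; exact mul_pos hd h4
  exact (mul_pos_iff_of_pos_left he).1 h5

theorem dir_cross {s : Seg} {u v : ℂ} (hu : ori s u = 0) (hv : ori s v = 0) :
    cross (s.2 - s.1) (v - u) = 0 := by
  have : cross (s.2 - s.1) (v - u) = ori s v - ori s u := by simp [ori, cross]; ring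
  rw [this, hu, hv, sub_zero]

/-- the point moved off the bottom -/
theorem step_bot {eps : ℝ} {S : Finset Seg} {x : ℂ} (hG : Gen eps S x) {c : Cell}
    (hc : Valid eps S c) {s : Seg} (hs : s ∈ c.b) {y v d : ℂ} {r : ℝ} (hy : y ∈ carrier s)
    (hsl : inSlab eps c y) (hyb : y ∈ Metric.ball v r) (hcd : cross (s.2 - s.1) d = 0)
    (hd : 0 < X eps d) :
    ∃ ε₀ > 0, ∀ ε : ℝ, 0 < ε → ε < ε₀ →
      y + (ε : ℂ) * (Complex.I * d) ∈ reg eps c ∩ Metric.ball v r := by
  have hinc := hG.inc s (hc.defd.bR s hs)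
  have hcont : Continuous (fun ε : ℝ => y + (ε : ℂ) * (Complex.I * d)) := by fun_prop
  have h0 : y + ((0 : ℝ) : ℂ) * (Complex.I * d) = y := by simp
  have o1 := (RegBAux.isOpen_opt c.p (fun p z => X eps p < X eps z)
    (fun p => isOpen_lt continuous_const (continuous_X eps)))
  have o2 := (RegBAux.isOpen_opt c.q (fun q z => X eps z < X eps q)
    (fun q => isOpen_lt (continuous_X eps) continuous_const))
  have o4 := (RegBAux.isOpen_opt c.t (fun t z => ori t z < 0)
    (fun t => isOpen_lt (continuous_ori t) continuous_const))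
  have hO := ((o1.inter o2).inter o4).inter (Metric.isOpen_ball (x := v) (ε := r))
  have hmem := hO.mem_nhds (show y ∈ _ from ⟨⟨⟨hsl.1, hsl.2⟩,
    fun t htt => hc.shape.bt s hs t htt y hy hsl⟩, hyb⟩)
  have hev := (hcont.tendsto 0).eventually (by rw [h0]; exact hmem)
  obtain ⟨δ, hδ, hδ2⟩ := Metric.eventually_nhds_iff.1 hev
  refine ⟨δ, hδ, fun ε h1 h2 => ?_⟩
  obtain ⟨⟨⟨a1, a2⟩, a4⟩, a5⟩ := hδ2 (y := ε) (by
    rw [Real.dist_eq, sub_zero, abs_of_pos h1]; exact h2)
  refine ⟨⟨⟨a1, a2⟩, fun b hb => ?_, a4⟩, a5⟩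
  have hbs : b = s := opt_eq hb hs
  subst hbs
  rw [ori_add, ((mem_carrier_iff hinc y).1 hy).2.2, zero_add]
  have h3 : cross (b.2 - b.1) ((ε : ℂ) * (Complex.I * d)) =
      ε * cross (b.2 - b.1) (Complex.I * d) := by simp [cross]; ring
  rw [h3, cross_I]
  refine mul_pos h1 (dot_sign (eps := eps) hcd ?_ hd)
  rw [X_sub]; linarith

/-- the point moved off the top -/
theorem step_top {eps : ℝ} {S : Finset Seg} {x : ℂ} (hG : Gen eps S x) {c : Cell}
    (hc : Valid eps S c) {s : Seg} (hs : s ∈ c.t) {y v d : ℂ} {r : ℝ} (hy : y ∈ carrier s)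
    (hsl : inSlab eps c y) (hyb : y ∈ Metric.ball v r) (hcd : cross (s.2 - s.1) d = 0)
    (hd : X eps d < 0) :
    ∃ ε₀ > 0, ∀ ε : ℝ, 0 < ε → ε < ε₀ →
      y + (ε : ℂ) * (Complex.I * d) ∈ reg eps c ∩ Metric.ball v r := by
  have hinc := hG.inc s (hc.defd.tR s hs)
  have hcont : Continuous (fun ε : ℝ => y + (ε : ℂ) * (Complex.I * d)) := by fun_prop
  have h0 : y + ((0 : ℝ) : ℂ) * (Complex.I * d) = y := by simp
  have o1 := (RegBAux.isOpen_opt c.p (fun p z => X eps p < X eps z)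
    (fun p => isOpen_lt continuous_const (continuous_X eps)))
  have o2 := (RegBAux.isOpen_opt c.q (fun q z => X eps z < X eps q)
    (fun q => isOpen_lt (continuous_X eps) continuous_const))
  have o4 := (RegBAux.isOpen_opt c.b (fun t z => 0 < ori t z)
    (fun t => isOpen_lt continuous_const (continuous_ori t)))
  have hO := ((o1.inter o2).inter o4).inter (Metric.isOpen_ball (x := v) (ε := r))
  have hmem := hO.mem_nhds (show y ∈ _ from ⟨⟨⟨hsl.1, hsl.2⟩,
    fun b hb => shape_tb hc.shape (fun b hb => hG.inc b (hc.defd.bR b hb))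
      (fun t htt => hG.inc t (hc.defd.tR t htt)) s hs b hb y hy hsl⟩, hyb⟩)
  have hev := (hcont.tendsto 0).eventually (by rw [h0]; exact hmem)
  obtain ⟨δ, hδ, hδ2⟩ := Metric.eventually_nhds_iff.1 hev
  refine ⟨δ, hδ, fun ε h1 h2 => ?_⟩
  obtain ⟨⟨⟨a1, a2⟩, a4⟩, a5⟩ := hδ2 (y := ε) (by
    rw [Real.dist_eq, sub_zero, abs_of_pos h1]; exact h2)
  refine ⟨⟨⟨a1, a2⟩, a4, fun b hb => ?_⟩, a5⟩
  have hbs : b = s := opt_eq hb hs
  subst hbs
  rw [ori_add, ((mem_carrier_iff hinc y).1 hy).2.2, zero_add]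
  have h3 : cross (b.2 - b.1) ((ε : ℂ) * (Complex.I * d)) =
      ε * cross (b.2 - b.1) (Complex.I * d) := by simp [cross]; ring
  rw [h3, cross_I]
  have h4 : cross (b.2 - b.1) (-d) = 0 := by
    have : cross (b.2 - b.1) (-d) = - cross (b.2 - b.1) d := by simp [cross]; ring
    rw [this, hcd, neg_zero]
  have h5 : X eps (-d) = - X eps d := by simp [X]; ring
  have h6 := dot_sign (eps := eps) (e := b.2 - b.1) (d := -d) h4 (by rw [X_sub]; linarith)
    (by rw [h5]; linarith)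
  have h7 : (b.2 - b.1).re * (-d).re + (b.2 - b.1).im * (-d).im =
      - ((b.2 - b.1).re * d.re + (b.2 - b.1).im * d.im) := by
    simp only [Complex.neg_re, Complex.neg_im]; ring
  rw [h7] at h6
  exact mul_neg_of_pos_of_neg h1 (by linarith)

theorem X_path (eps : ℝ) (p q : ℂ) (t : ℝ) :
    X eps (p + (t : ℂ) * (q - p)) = X eps p + t * (X eps q - X eps p) := by
  simp [X]; ring

theorem path_carrier {s : Seg} {p q : ℂ} (hp : p ∈ carrier s) (hq : q ∈ carrier s) {t : ℝ}
    (h0 : 0 ≤ t) (h1 : t ≤ 1) : p + (t : ℂ) * (q - p) ∈ carrier s := by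
  have hconv : Convex ℝ (carrier s) := convex_segment _ _
  have h := hconv hp hq (a := 1 - t) (b := t) (by linarith) h0 (by ring)
  have : p + (t : ℂ) * (q - p) = (1 - t) • p + t • q := by
    simp only [Complex.real_smul]; push_cast; ring
  rw [this]; exact h

/-- conditions that hold near a point of a path -/
theorem path_near {eps : ℝ} (p q : ℂ) (t₀ : ℝ) {v : ℂ} (hv : p + (t₀ : ℂ) * (q - p) = v)
    {r : ℝ} (hr : 0 < r) (P : Option ℂ) (Q : Option ℂ)
    (hP : ∀ a ∈ P, X eps a < X eps v) (hQ : ∀ a ∈ Q, X eps v < X eps a) :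
    ∃ δ > 0, ∀ t : ℝ, |t - t₀| < δ → p + (t : ℂ) * (q - p) ∈ Metric.ball v r ∧
      (∀ a ∈ P, X eps a < X eps (p + (t : ℂ) * (q - p))) ∧
      ∀ a ∈ Q, X eps (p + (t : ℂ) * (q - p)) < X eps a := by
  have hcont : Continuous (fun t : ℝ => p + (t : ℂ) * (q - p)) := by fun_prop
  have o1 := (RegBAux.isOpen_opt P (fun p z => X eps p < X eps z)
    (fun p => isOpen_lt continuous_const (continuous_X eps)))
  have o2 := (RegBAux.isOpen_opt Q (fun q z => X eps z < X eps q)
    (fun q => isOpen_lt (continuous_X eps) continuous_const))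
  have hO := (Metric.isOpen_ball (x := v) (ε := r)).inter (o1.inter o2)
  have hmem := hO.mem_nhds (show v ∈ _ from ⟨Metric.mem_ball_self hr, hP, hQ⟩)
  have hev := (hcont.tendsto t₀).eventually (by rw [hv]; exact hmem)
  obtain ⟨δ, hδ, hδ2⟩ := Metric.eventually_nhds_iff.1 hev
  exact ⟨δ, hδ, fun t ht' => hδ2 (y := t) (by rw [Real.dist_eq]; exact ht')⟩

end TurnJAux

open TurnJAux

theorem turn_conn {eps : ℝ} {S : Finset Seg} {x : ℂ} (hG : Gen eps S x) {k k' : Bool × Cell}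
    (h : Nx (InFace eps S x) k k') {v : ℂ} (hv : Fin' k v) (hv' : Em k' v) {r : ℝ}
    (hr : 0 < r) :
    ∃ K : Set ℂ, IsPreconnected K ∧ K ⊆ Metric.ball v r ∧ (∀ z ∈ K, z ∉ U S) ∧
      reg eps k.2 ∩ Metric.ball v r ⊆ K ∧ reg eps k'.2 ∩ Metric.ball v r ⊆ K := by
  obtain ⟨s, hs, hvs, hs0⟩ := hv
  obtain ⟨s', hs', hvs', hs0'⟩ := hv'
  cases h with
  | @b1 c r' b v' hc hb hv1 h1 hVr ha hr' =>
    simp only [sseg, sfin, Bool.false_eq_true, if_false] at hs hvs
    rw [opt_eq hb hs, opt_eq hv1 hvs, hs0] at h1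
    exact absurd h1 (lt_irrefl _)
  | @b2 c b t v' hc hb hv1 h1 htt h2 => exact join1 hG hc.1 v r
  | @b3 c r' b b' v' hc hb hv1 h1 htt hVr ha hr' hb' h2 =>
    simp only [sseg, sfin, Bool.false_eq_true, if_false] at hs hvs
    obtain ⟨K, k1, k2, k3, k4, k5, _⟩ :=
      join2 hG hc.1 hVr.1 (door_near hG hc.1 hVr.1 ha (Or.inl hvs) hr)
    exact ⟨K, k1, k2, k3, k4, k5⟩
  | @b4 c r' l b t v' hc hb hv1 h1 htt hVr ha hr' hb' hVl hl hlb htl h2 =>
    simp only [sseg, sfin, sbeg, Bool.false_eq_true, if_false, if_true] at hs hvs hvs'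
    obtain ⟨z, z1, z2, z3, z4⟩ := door_near hG hVl.1 hVr.1 hl (v := v) (Or.inl hvs') hr
    exact join3 hG hc.1 hVr.1 hVl.1 (door_near hG hc.1 hVr.1 ha (Or.inl hvs) hr)
      ⟨z, z1, z2, z4, z3⟩
  | @t1 c l t v' hc htt hv1 h1 hVl ha hl =>
    simp only [sseg, sfin, if_true] at hs hvs
    rw [opt_eq htt hs, opt_eq hv1 hvs, hs0] at h1
    exact absurd h1 (lt_irrefl _)
  | @t2 c b t v' hc htt hv1 h1 hb h2 => exact join1 hG hc.1 v r
  | @t3 c l t t' v' hc htt hv1 h1 hb hVl ha hl ht' h2 =>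
    simp only [sseg, sfin, if_true] at hs hvs
    obtain ⟨K, k1, k2, k3, k4, k5, _⟩ :=
      join2 hG hVl.1 hc.1 (door_near hG hVl.1 hc.1 ha (Or.inr hvs) hr)
    exact ⟨K, k1, k2, k3, k5, k4⟩
  | @t4 c l r' b t v' hc htt hv1 h1 hb hVl ha hl ht' hVr hr' hrt hbr h2 =>
    simp only [sseg, sfin, sbeg, Bool.false_eq_true, if_false, if_true] at hs hvs hvs'
    obtain ⟨z, z1, z2, z3, z4⟩ := door_near hG hVl.1 hc.1 ha (v := v) (Or.inr hvs) hr
    exact join3 hG hc.1 hVl.1 hVr.1 ⟨z, z1, z2, z4, z3⟩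
      (door_near hG hVl.1 hVr.1 hr' (Or.inr hvs') hr)

theorem reg_near_end {eps : ℝ} {S : Finset Seg} {x : ℂ} (hG : Gen eps S x) {k : Bool × Cell}
    (hk : Valid eps S k.2) {u v : ℂ} {s : Seg} (hs : s ∈ sseg k) (hv : v ∈ sfin k)
    (hvs : v ∈ carrier s) (hus : u ∈ carrier s)
    (hd : if k.1 then X eps v < X eps u else X eps u < X eps v) {r : ℝ} (hr : 0 < r) :
    ∃ t < (1 : ℝ), ∀ t', t < t' → t' < 1 → ∃ ε₀ > 0, ∀ ε, 0 < ε → ε < ε₀ →
      lpt u v t' ε ∈ reg eps k.2 ∩ Metric.ball v r := by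
  obtain ⟨k1, c⟩ := k
  have h1v : u + ((1 : ℝ) : ℂ) * (v - u) = v := by push_cast; ring
  cases k1 with
  | false =>
    simp only [sseg, sfin, Bool.false_eq_true, if_false] at hs hv hd
    simp only at hk ⊢
    have hinc := hG.inc s (hk.defd.bR s hs)
    have hcd := dir_cross ((mem_carrier_iff hinc u).1 hus).2.2 ((mem_carrier_iff hinc v).1 hvs).2.2
    obtain ⟨δ, hδ, hδ2⟩ := path_near (eps := eps) u v 1 h1v hr c.p none
      (fun a ha => hk.shape.lt a ha v hv) (fun a ha => by simp at ha)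
    refine ⟨max (1 - δ) 0, max_lt (by linarith) one_pos, fun t' h1 h2 => ?_⟩
    have h3 : 1 - δ < t' := lt_of_le_of_lt (le_max_left _ _) h1
    have h4 : 0 < t' := lt_of_le_of_lt (le_max_right _ _) h1
    obtain ⟨a1, a2, _⟩ := hδ2 t' (by rw [abs_sub_lt_iff]; constructor <;> linarith)
    unfold lpt
    refine step_bot hG hk hs (path_carrier hus hvs h4.le h2.le) ⟨a2, fun q hq => ?_⟩ a1 hcd
      (by rw [X_sub]; linarith)
    rw [X_path, opt_eq hq hv]
    nlinarith
  | true =>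
    simp only [sseg, sfin, if_true] at hs hv hd
    simp only at hk ⊢
    have hinc := hG.inc s (hk.defd.tR s hs)
    have hcd := dir_cross ((mem_carrier_iff hinc u).1 hus).2.2 ((mem_carrier_iff hinc v).1 hvs).2.2
    obtain ⟨δ, hδ, hδ2⟩ := path_near (eps := eps) u v 1 h1v hr none c.q
      (fun a ha => by simp at ha) (fun a ha => hk.shape.lt v hv a ha)
    refine ⟨max (1 - δ) 0, max_lt (by linarith) one_pos, fun t' h1 h2 => ?_⟩
    have h3 : 1 - δ < t' := lt_of_le_of_lt (le_max_left _ _) h1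
    have h4 : 0 < t' := lt_of_le_of_lt (le_max_right _ _) h1
    obtain ⟨a1, _, a2⟩ := hδ2 t' (by rw [abs_sub_lt_iff]; constructor <;> linarith)
    unfold lpt
    refine step_top hG hk hs (path_carrier hus hvs h4.le h2.le) ⟨fun p hp => ?_, a2⟩ a1 hcd
      (by rw [X_sub]; linarith)
    rw [X_path, opt_eq hp hv]
    nlinarith

theorem reg_near_start {eps : ℝ} {S : Finset Seg} {x : ℂ} (hG : Gen eps S x)
    {k : Bool × Cell} (hk : Valid eps S k.2) {v w : ℂ} {s : Seg} (hs : s ∈ sseg k)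
    (hv : v ∈ sbeg k) (hvs : v ∈ carrier s) (hws : w ∈ carrier s)
    (hd : if k.1 then X eps w < X eps v else X eps v < X eps w) {r : ℝ} (hr : 0 < r) :
    ∃ t > (0 : ℝ), ∀ t', 0 < t' → t' < t → ∃ ε₀ > 0, ∀ ε, 0 < ε → ε < ε₀ →
      lpt v w t' ε ∈ reg eps k.2 ∩ Metric.ball v r := by
  obtain ⟨k1, c⟩ := k
  have h1v : v + ((0 : ℝ) : ℂ) * (w - v) = v := by push_cast; ring
  cases k1 with
  | false =>
    simp only [sseg, sbeg, Bool.false_eq_true, if_false] at hs hv hd
    simp only at hk ⊢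
    have hinc := hG.inc s (hk.defd.bR s hs)
    have hcd := dir_cross ((mem_carrier_iff hinc v).1 hvs).2.2 ((mem_carrier_iff hinc w).1 hws).2.2
    obtain ⟨δ, hδ, hδ2⟩ := path_near (eps := eps) v w 0 h1v hr none c.q
      (fun a ha => by simp at ha) (fun a ha => hk.shape.lt v hv a ha)
    refine ⟨min δ 1, lt_min hδ one_pos, fun t' h1 h2 => ?_⟩
    have h3 : t' < δ := lt_of_lt_of_le h2 (min_le_left _ _)
    have h4 : t' < 1 := lt_of_lt_of_le h2 (min_le_right _ _)
    obtain ⟨a1, _, a2⟩ := hδ2 t' (by rw [sub_zero, abs_of_pos h1]; exact h3)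
    unfold lpt
    refine step_bot hG hk hs (path_carrier hvs hws h1.le h4.le) ⟨fun p hp => ?_, a2⟩ a1 hcd
      (by rw [X_sub]; linarith)
    rw [X_path, opt_eq hp hv]
    nlinarith
  | true =>
    simp only [sseg, sbeg, if_true] at hs hv hd
    simp only at hk ⊢
    have hinc := hG.inc s (hk.defd.tR s hs)
    have hcd := dir_cross ((mem_carrier_iff hinc v).1 hvs).2.2 ((mem_carrier_iff hinc w).1 hws).2.2
    obtain ⟨δ, hδ, hδ2⟩ := path_near (eps := eps) v w 0 h1v hr c.p none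
      (fun a ha => hk.shape.lt a ha v hv) (fun a ha => by simp at ha)
    refine ⟨min δ 1, lt_min hδ one_pos, fun t' h1 h2 => ?_⟩
    have h3 : t' < δ := lt_of_lt_of_le h2 (min_le_left _ _)
    have h4 : t' < 1 := lt_of_lt_of_le h2 (min_le_right _ _)
    obtain ⟨a1, a2, _⟩ := hδ2 t' (by rw [sub_zero, abs_of_pos h1]; exact h3)
    unfold lpt
    refine step_top hG hk hs (path_carrier hvs hws h1.le h4.le) ⟨a2, fun q hq => ?_⟩ a1 hcd
      (by rw [X_sub]; linarith)
    rw [X_path, opt_eq hq hv]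
    nlinarith

/-- Consecutive directed edges are joined.  `k` starts at `u`, a run leads to `m`, a turn at `v` to `k'`, which starts the directed edge from `v` to `w`. -/
theorem joined_of_turn {eps : ℝ} {S : Finset Seg} {x : ℂ} (hG : Gen eps S x)
    {k m k' : Bool × Cell} {u v w : ℂ} (hk : InFace eps S x k.2) (hu : Em k u)
    (hr : Run eps S x k m) (hn : Nx (InFace eps S x) m k') (hv : Fin' m v)
    (hw : Along eps k' v w) : Joined S u v w := by
  intro r hr0
  obtain ⟨_, ⟨_, ⟨s, hs, hus, hvs⟩, hd⟩, hkm, hsm⟩ := dart_of_run hG hk hu hr hv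
  obtain ⟨he', ⟨s', hs', hvs', hws'⟩, hd'⟩ := hw
  obtain ⟨K, k1, k2, k3, k4, k5⟩ := turn_conn hG hn hv he' hr0
  rw [hsm] at hs
  rw [hkm] at hd
  obtain ⟨_, _, hvm, _⟩ := hv
  obtain ⟨_, _, hvk, _⟩ := he'
  obtain ⟨t, ht1, ht2⟩ := reg_near_end hG hn.fst.1 hs hvm hvs hus hd hr0
  obtain ⟨t', ht1', ht2'⟩ := reg_near_start hG hn.snd.1 hs' hvk hvs' hws' hd' hr0
  refine ⟨K, k1, k2, k3, ⟨t, ht1, fun a ha1 ha2 => ?_⟩, ⟨t', ht1', fun a ha1 ha2 => ?_⟩⟩
  · obtain ⟨ε₀, h0, h1⟩ := ht2 a ha1 ha2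
    exact ⟨ε₀, h0, fun ε e1 e2 => k4 (h1 ε e1 e2)⟩
  · obtain ⟨ε₀, h0, h1⟩ := ht2' a ha1 ha2
    exact ⟨ε₀, h0, fun ε e1 e2 => k5 (h1 ε e1 e2)⟩

end SFA
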