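import Pool.Agent.Lib.SFA.Basic

/-!
# SFA.Vis: visible critical points, specifications of bottom, top, left and right
(definitions only, nothing to prove)
-/

namespace SFA

open Set Filter Topology

/-- `v` is vertically visible from `z`. -/
def Vis (eps : ℝ) (R : Finset Seg) (z v : ℂ) : Prop :=
  X eps v = X eps z ∧ Disjoint (openSegment ℝ z v) (U R)

/-- `o` is the segment directly below `z`. -/
structure IsBelow (eps : ℝ) (R : Finset Seg) (z : ℂ) (o : Option Seg) : Prop where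
  mem : ∀ b ∈ o, b ∈ R ∧ X eps b.1 < X eps z ∧ X eps z < X eps b.2 ∧ 0 < ori b z
  max : ∀ s ∈ R, s ∉ o → X eps s.1 ≤ X eps z → X eps z ≤ X eps s.2 → 0 < ori s z →
    ∃ b ∈ o, ht eps s (X eps z) < ht eps b (X eps z)

/-- `o` is the segment directly above `z`. -/
structure IsAbove (eps : ℝ) (R : Finset Seg) (z : ℂ) (o : Option Seg) : Prop where
  mem : ∀ t ∈ o, t ∈ R ∧ X eps t.1 < X eps z ∧ X eps z < X eps t.2 ∧ ori t z < 0
  min : ∀ s ∈ R, s ∉ o → X eps s.1 ≤ X eps z → X eps z ≤ X eps s.2 → ori s z < 0 →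
    ∃ t ∈ o, ht eps t (X eps z) < ht eps s (X eps z)

/-- `o` is the last critical point before `z` between `b` and `t`. -/
structure IsLeft (eps : ℝ) (R : Finset Seg) (z : ℂ) (b t : Option Seg) (o : Option ℂ) :
    Prop where
  mem : ∀ p ∈ o, IsCrit R p ∧ X eps p < X eps z ∧ inBand ⟨b, t, none, none⟩ p ∧
    (∀ s ∈ b, X eps s.1 ≤ X eps p) ∧ (∀ s ∈ t, X eps s.1 ≤ X eps p)
  max : ∀ v : ℂ, IsCrit R v → X eps v < X eps z → inBand ⟨b, t, none, none⟩ v →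
    (∀ s ∈ b, X eps s.1 ≤ X eps v) → (∀ s ∈ t, X eps s.1 ≤ X eps v) →
    ∃ p ∈ o, X eps v ≤ X eps p
  ex : (∃ s, s ∈ b ∨ s ∈ t) → ∃ p, p ∈ o

/-- `o` is the first critical point after `z` between `b` and `t`. -/
structure IsRight (eps : ℝ) (R : Finset Seg) (z : ℂ) (b t : Option Seg) (o : Option ℂ) :
    Prop where
  mem : ∀ q ∈ o, IsCrit R q ∧ X eps z < X eps q ∧ inBand ⟨b, t, none, none⟩ q ∧
    (∀ s ∈ b, X eps q ≤ X eps s.2) ∧ (∀ s ∈ t, X eps q ≤ X eps s.2)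
  min : ∀ v : ℂ, IsCrit R v → X eps z < X eps v → inBand ⟨b, t, none, none⟩ v →
    (∀ s ∈ b, X eps v ≤ X eps s.2) → (∀ s ∈ t, X eps v ≤ X eps s.2) →
    ∃ q ∈ o, X eps q ≤ X eps v
  ex : (∃ s, s ∈ b ∨ s ∈ t) → ∃ q, q ∈ o

end SFA
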