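import Pool.Agent.Lib.SFA.CycM
import Pool.Agent.Lib.SFA.CycL
import Pool.Agent.Lib.SFA.NxList2
import Pool.Agent.Lib.SFA.NxInj
import Pool.Agent.Lib.SFA.EdgeCh

/-!
# SFA.WalkA: the cycles of sides and the emitted vertices

`nxt = sideNext recs`, `n = recs.length`.
`sideAt_inj`: `k / 2`, `k' / 2 < n` and the records are determined by their cells (`FInv.nodup`), parity.
`cycles_ok`: the hypotheses of `cyclesM_spec`: `sideNext_spec`, `sideNext_isSome` (the target of `Nx` has a segment: cases), `nx_inj`, `sideAt_inj` (indices with `nxt[a] = some b` are `< 2 n`: `sideNext_length`).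
`walks_eq`: unfold `walks`, `gather2`; `(C.map f).filterMap id = (C.filter (isSome ∘ f)).map (get ∘ f)`.
`cyc_step`: `cyc_filter` with `N a b := nxt[a] = some b` gives an index `m` with a run from `a` to `m` of steps with `E = false` (`sideStart_spec`: no vertex emitted; indices `< 2 n`), `N m b`; translate by `sideNext_spec`.  `nx_cases` for the last step: `Em (sideAt b) _` holds, so it is a turn, and the vertex is `vS b` (the wall `sbeg` is a function).
`filter_ne`: if no element of the cycle `C` emits a vertex, then going once around `C` gives a `TransGen` of straight steps from an element to itself: `no_cyclic_run`.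
-/

namespace SFA

/-- the side emits a vertex -/
noncomputable def eS (recs : List Rec) (a : ℕ) : Bool := ((sideStart recs).getD a none).isSome

/-- the emitted vertex -/
noncomputable def vS (recs : List Rec) (a : ℕ) : ℂ := ((sideStart recs).getD a none).getD 0

theorem sideAt_inj {eps : ℝ} {S : Finset Seg} {x : ℂ} {recs : List Rec}
    (h : FInv eps S x recs) {a b : ℕ} (ha : a < 2 * recs.length) (hb : b < 2 * recs.length)
    (hab : sideAt recs a = sideAt recs b) : a = b := by
  have ha2 : a / 2 < recs.length := by omega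
  have hb2 : b / 2 < recs.length := by omega
  unfold sideAt at hab
  rw [Prod.mk.injEq] at hab
  obtain ⟨h1, h2⟩ := hab
  rw [List.getD_eq_getElem _ _ ha2, List.getD_eq_getElem _ _ hb2] at h2
  have ha3 : a / 2 < (recs.map Rec.c).length := by rw [List.length_map]; exact ha2
  have hb3 : b / 2 < (recs.map Rec.c).length := by rw [List.length_map]; exact hb2
  have h3 : (recs.map Rec.c)[a / 2] = (recs.map Rec.c)[b / 2] := by
    rw [List.getElem_map, List.getElem_map]
    exact h2
  have h4 : a / 2 = b / 2 := (List.Nodup.getElem_inj_iff h.nodup).1 h3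
  have h5 : a % 2 = 0 ↔ b % 2 = 0 := by simpa using h1
  omega

private theorem sideAt_face {eps : ℝ} {S : Finset Seg} {x : ℂ} {recs : List Rec}
    (h : FInv eps S x recs) {a : ℕ} (ha : a < 2 * recs.length) :
    InFace eps S x (sideAt recs a).2 := by
  have ha2 : a / 2 < recs.length := by omega
  unfold sideAt
  dsimp only
  rw [List.getD_eq_getElem _ _ ha2]
  exact (h.mem _).1 (List.mem_map.2 ⟨_, List.getElem_mem ha2, rfl⟩)

private theorem nx_target {V : Cell → Prop} {k k' : Bool × Cell} (h : Nx V k k') :
    sseg k' ≠ none := by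
  have key : ∀ {o : Option Seg} {s : Seg}, s ∈ o → o ≠ none := by
    intro o s hs ho
    rw [ho] at hs
    exact absurd hs (by simp)
  cases h with
  | @b1 c r b v hc hb hv h hVr ha hr =>
    have h1 : sseg (false, r) = c.b := hr
    rw [h1]
    exact key hb
  | b2 hc hb hv h ht h' => exact key ht
  | b3 hc hb hv h ht hVr ha hr hb' h' => exact key hb'
  | b4 hc hb hv h ht hVr ha hr hb' hVl hl hlb htl h' => exact key htl
  | @t1 c l t v hc ht hv h hVl ha hl =>
    have h1 : sseg (true, l) = c.t := hl
    rw [h1]
    exact key ht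
  | t2 hc ht hv h hb h' => exact key hb
  | t3 hc ht hv h hb hVl ha hl ht' h' => exact key ht'
  | t4 hc ht hv h hb hVl ha hl ht' hVr hr hrt hbr h' => exact key hbr

private theorem lt_of_next {eps : ℝ} {S : Finset Seg} {x : ℂ} (hG : Gen eps S x)
    {recs : List Rec} (h : FInv eps S x recs) {a b : ℕ}
    (hab : (sideNext recs).getD a none = some b) : a < 2 * recs.length :=
  ((sideNext_isSome hG h a).1 (by rw [hab]; rfl)).1

private theorem next_nx {eps : ℝ} {S : Finset Seg} {x : ℂ} (hG : Gen eps S x)
    {recs : List Rec} (h : FInv eps S x recs) {a b : ℕ}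
    (hab : (sideNext recs).getD a none = some b) :
    b < 2 * recs.length ∧ Nx (InFace eps S x) (sideAt recs a) (sideAt recs b) :=
  (sideNext_spec hG h (lt_of_next hG h hab) b).1 hab

theorem cycles_ok {eps : ℝ} {S : Finset Seg} {x : ℂ} (hG : Gen eps S x) {recs : List Rec}
    (h : FInv eps S x recs) :
    (∀ C ∈ cyclesM (sideNext recs), C ≠ [] ∧
      ∀ p ∈ cyc C, (sideNext recs).getD p.1 none = some p.2) ∧
      (cyclesM (sideNext recs)).flatten.Nodup ∧
      (∀ a, a ∈ (cyclesM (sideNext recs)).flatten ↔
        a < 2 * recs.length ∧ sseg (sideAt recs a) ≠ none) := by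
  obtain ⟨h1, h2, h3⟩ := cyclesM_spec (sideNext recs)
    (fun a b hab => by
      obtain ⟨hb, hN⟩ := next_nx hG h hab
      exact (sideNext_isSome hG h b).2 ⟨hb, nx_target hN⟩)
    (fun a a' b hab hab' => by
      obtain ⟨hb, hN⟩ := next_nx hG h hab
      obtain ⟨hb', hN'⟩ := next_nx hG h hab'
      exact sideAt_inj h (lt_of_next hG h hab) (lt_of_next hG h hab') (nx_inj hG hN hN'))
  refine ⟨h1, h2, fun a => ?_⟩
  rw [h3 a]
  exact sideNext_isSome hG h a

private theorem filterMap_aux (f : ℕ → Option ℂ) (C : List ℕ) :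
    (C.map f).filterMap id = (C.filter (fun a => (f a).isSome)).map (fun a => (f a).getD 0) := by
  induction C with
  | nil => rfl
  | cons a C ih =>
    rcases hf : f a with _ | v
    · rw [List.map_cons, hf, List.filterMap_cons_none (by rfl), ih,
        List.filter_cons_of_neg (by rw [hf]; simp)]
    · rw [List.map_cons, hf, List.filterMap_cons_some (b := v) (by rfl), ih,
        List.filter_cons_of_pos (by rw [hf]; rfl), List.map_cons, hf]
      rfl

theorem walks_eq (recs : List Rec) :
    walks recs = (cyclesM (sideNext recs)).map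
      (fun C => (C.filter (eS recs)).map (vS recs)) := by
  unfold walks gather2
  rw [List.map_map]
  refine List.map_congr_left fun C _ => ?_
  exact filterMap_aux (fun i => (sideStart recs).getD i none) C

private theorem not_em {recs : List Rec} {a : ℕ} (ha : a < 2 * recs.length)
    (he : eS recs a = false) : ¬ ∃ v, Em (sideAt recs a) v := by
  rintro ⟨v, hv⟩
  rw [← sideStart_spec recs ha] at hv
  unfold eS at he
  rw [hv] at he
  exact absurd he (by simp)

private theorem em_of {recs : List Rec} {a : ℕ} (ha : a < 2 * recs.length)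
    (he : eS recs a = true) : Em (sideAt recs a) (vS recs a) := by
  rw [← sideStart_spec recs ha]
  unfold eS at he
  unfold vS
  obtain ⟨v, hv⟩ := Option.isSome_iff_exists.1 he
  rw [hv]
  rfl

private theorem step_lift {eps : ℝ} {S : Finset Seg} {x : ℂ} (hG : Gen eps S x)
    {recs : List Rec} (h : FInv eps S x recs) (a b : ℕ)
    (hab : (sideNext recs).getD a none = some b ∧ eS recs b = false) :
    Nx (InFace eps S x) (sideAt recs a) (sideAt recs b) ∧ ¬ ∃ v, Em (sideAt recs b) v := by
  obtain ⟨hb, hN⟩ := next_nx hG h hab.1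
  exact ⟨hN, not_em hb hab.2⟩

theorem filter_ne {eps : ℝ} {S : Finset Seg} {x : ℂ} (hG : Gen eps S x) {recs : List Rec}
    (h : FInv eps S x recs) {C : List ℕ} (hC : C ∈ cyclesM (sideNext recs)) :
    C.filter (eS recs) ≠ [] := by
  intro he
  obtain ⟨h1, h2, h3⟩ := cycles_ok hG h
  obtain ⟨hne, hcyc⟩ := h1 C hC
  have hE : ∀ a ∈ C, eS recs a = false := by
    intro a ha
    by_contra hcon
    have hm : a ∈ C.filter (eS recs) := List.mem_filter.2 ⟨ha, by simpa using hcon⟩
    rw [he] at hm
    exact absurd hm List.not_mem_nil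
  obtain ⟨a, -, ha⟩ := cyc_noE (fun a b => (sideNext recs).getD a none = some b) (eS recs)
    hne hcyc hE
  have hle : (fun a b => (sideNext recs).getD a none = some b ∧ eS recs b = false) ≤
      Function.onFun (fun k k' => Nx (InFace eps S x) k k' ∧ ¬ ∃ v, Em k' v) (sideAt recs) :=
    fun a b => step_lift hG h a b
  exact no_cyclic_run hG (Relation.TransGen.lift (sideAt recs) hle a a ha)

theorem cyc_step {eps : ℝ} {S : Finset Seg} {x : ℂ} (hG : Gen eps S x) {recs : List Rec}
    (h : FInv eps S x recs) {C : List ℕ} (hC : C ∈ cyclesM (sideNext recs)) {a b : ℕ}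
    (hab : (a, b) ∈ cyc (C.filter (eS recs))) :
    ∃ m : Bool × Cell, InFace eps S x (sideAt recs a).2 ∧ Em (sideAt recs a) (vS recs a) ∧
      Run eps S x (sideAt recs a) m ∧ Nx (InFace eps S x) m (sideAt recs b) ∧
      Fin' m (vS recs b) ∧ Em (sideAt recs b) (vS recs b) := by
  obtain ⟨h1, h2, h3⟩ := cycles_ok hG h
  obtain ⟨hne, hcyc⟩ := h1 C hC
  obtain ⟨m, hm1, hm2, hm3⟩ := cyc_filter (fun a b => (sideNext recs).getD a none = some b)
    (eS recs) C hcyc (a, b) hab
  have haC : a ∈ C.filter (eS recs) := by
    have h4 : a ∈ (cyc (C.filter (eS recs))).map Prod.fst := List.mem_map.2 ⟨_, hab, rfl⟩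
    rwa [cyc_fst] at h4
  obtain ⟨haC1, haE⟩ := List.mem_filter.1 haC
  have ha : a < 2 * recs.length := ((h3 a).1 (List.mem_flatten.2 ⟨C, hC, haC1⟩)).1
  obtain ⟨hb, hN⟩ := next_nx hG h hm2
  have hEb : Em (sideAt recs b) (vS recs b) := em_of hb hm3
  refine ⟨sideAt recs m, sideAt_face h ha, em_of ha haE, ?_, hN, ?_, hEb⟩
  · have hle : (fun a b => (sideNext recs).getD a none = some b ∧ eS recs b = false) ≤
        Function.onFun (fun k k' => Nx (InFace eps S x) k k' ∧ ¬ ∃ v, Em k' v)
          (sideAt recs) :=
      fun a b => step_lift hG h a b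
    exact Relation.ReflTransGen.lift (sideAt recs) hle a m hm1
  · rcases nx_cases hG hN with ⟨v, hv1, hv2⟩ | ⟨hno, -⟩
    · obtain ⟨s, -, hv3, -⟩ := hv2
      obtain ⟨s', -, hv4, -⟩ := hEb
      have h5 : v = vS recs b := by
        have e1 : sbeg (sideAt recs b) = some v := hv3
        have e2 : sbeg (sideAt recs b) = some (vS recs b) := hv4
        rw [e1] at e2
        exact Option.some.inj e2
      rw [← h5]
      exact hv1
    · exact absurd ⟨_, hEb⟩ hno

end SFA
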