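import Pool.Agent.Lib.SFA.WalkA
import Pool.Agent.Lib.SFA.DartSd
import Pool.Agent.Lib.SFA.TurnJ
import Pool.Agent.Lib.SFA.SideDart

/-!
# SFA.WalkB: the boundary walks satisfy the output specification

Let `D` be the flattened list of `C.filter eS`, `C ∈ cyclesM`: a Nodup list, exactly the indices `a < 2 n` with `Em (sideAt a) (vS a)`.  Every `a ∈ D` is the first component of exactly one pair `(a, b) ∈ cyc (C.filter eS)` (`cyc_fst`).  By `cyc_step`, `dart_of_run`: `IsDart (vS a) (vS b)`, `Along (sideAt a) (vS a) (vS b)`.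
* `ne`: `filter_ne`.
* `sides` (⇒): as above with `isSide_iff_isDart`, `cyc_map`.  (⇐) `IsDart u w`: `side_of_dart` gives `k` in the face with `Along k u w`; `k = sideAt a`, `a < 2 n` (`FInv.mem`), `eS a`, `vS a = u`; the pair `(a, b)` in `cyc` gives `IsDart u (vS b)`, `Along k u (vS b)`; `edge_end_unique` (same segment, same direction): `vS b = w`.
* `once`: the list is the image of the list of all pairs `(a, b)` (Nodup, as the first components are `D`) under `(a, b) ↦ (vS a, vS b)`; injective: if `(vS a, vS b) = (vS a', vS b')` then both sides are `Along` the same directed edge: `side_unique`, `sideAt_inj`, `a = a'`.  (`List.Nodup.map_on`, `List.flatMap`.)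
* `turn`: `cyc3_map`, `cyc3_pairs`: `(a, b), (b, c) ∈ cyc`; `joined_of_turn` with `k = sideAt a`, `k' = sideAt b`, `Along (sideAt b) (vS b) (vS c)` from `dart_of_run`.
-/

namespace SFA

namespace WalkBAux

variable {eps : ℝ} {S : Finset Seg} {x : ℂ} {recs : List Rec}

theorem mem_of_cyc {α : Type} {l : List α} {a b : α} (h : (a, b) ∈ cyc l) : a ∈ l := by
  have := List.mem_map_of_mem (f := Prod.fst) h
  rwa [cyc_fst] at this

theorem exists_cyc {α : Type} {l : List α} {a : α} (h : a ∈ l) : ∃ b, (a, b) ∈ cyc l := by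
  rw [← cyc_fst l] at h
  obtain ⟨⟨a', b⟩, hp, rfl⟩ := List.mem_map.1 h
  exact ⟨b, hp⟩

theorem lt_of_mem (hG : Gen eps S x) (h : FInv eps S x recs) {C : List ℕ}
    (hC : C ∈ cyclesM (sideNext recs)) {a : ℕ} (ha : a ∈ C) : a < 2 * recs.length :=
  (((cycles_ok hG h).2.2 a).1 (List.mem_flatten.2 ⟨C, hC, ha⟩)).1

theorem key (hG : Gen eps S x) (h : FInv eps S x recs) {C : List ℕ}
    (hC : C ∈ cyclesM (sideNext recs)) {a b : ℕ} (hab : (a, b) ∈ cyc (C.filter (eS recs))) :
    a < 2 * recs.length ∧ InFace eps S x (sideAt recs a).2 ∧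
      IsDart S (face S x) (vS recs a) (vS recs b) ∧
      Along eps (sideAt recs a) (vS recs a) (vS recs b) := by
  have ha : a < 2 * recs.length := lt_of_mem hG h hC (List.mem_filter.1 (mem_of_cyc hab)).1
  obtain ⟨m, h1, h2, h3, h4, h5, h6⟩ := cyc_step hG h hC hab
  obtain ⟨g1, g2, -, -⟩ := dart_of_run hG h1 h2 h3 h5
  exact ⟨ha, h1, g1, g2⟩

theorem sseg_mem {k : Bool × Cell} (hk : Valid eps S k.2) {s : Seg} (hs : s ∈ sseg k) :
    s ∈ S := by
  obtain ⟨b, c⟩ := k
  cases b with
  | false => exact hk.defd.bR s hs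
  | true => exact hk.defd.tR s hs

end WalkBAux

open WalkBAux

theorem walks_spec {eps : ℝ} {S : Finset Seg} {x : ℂ} (hG : Gen eps S x) {recs : List Rec}
    (h : FInv eps S x recs) :
    (∀ l ∈ walks recs, l ≠ []) ∧
      (∀ p q, (p, q) ∈ (walks recs).flatMap cyc ↔ IsSide S (face S x) p q) ∧
      ((walks recs).flatMap cyc).Nodup ∧
      (∀ l ∈ walks recs, ∀ a ∈ cyc3 l, Joined S a.1 a.2.1 a.2.2) := by
  obtain ⟨hc1, hc2, hc3⟩ := cycles_ok hG h
  have hflat : (walks recs).flatMap cyc =
      ((cyclesM (sideNext recs)).flatMap (fun C => cyc (C.filter (eS recs)))).map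
        (Prod.map (vS recs) (vS recs)) := by
    rw [walks_eq, List.flatMap_map, List.map_flatMap]
    simp only [cyc_map]
  have hfst : (((cyclesM (sideNext recs)).flatMap
      (fun C => cyc (C.filter (eS recs)))).map Prod.fst).Nodup := by
    rw [List.map_flatMap]
    simp only [cyc_fst]
    have : (cyclesM (sideNext recs)).flatMap (fun C => C.filter (eS recs)) =
        (cyclesM (sideNext recs)).flatten.filter (eS recs) := by
      rw [List.filter_flatten, List.flatMap_def]
    rw [this]
    exact hc2.filter _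
  refine ⟨?_, ?_, ?_, ?_⟩
  · intro l hl
    rw [walks_eq] at hl
    obtain ⟨C, hC, rfl⟩ := List.mem_map.1 hl
    intro h0
    exact filter_ne hG h hC (List.map_eq_nil_iff.1 h0)
  · intro p q
    rw [hflat, isSide_iff_isDart hG]
    constructor
    · intro hp
      obtain ⟨⟨a, b⟩, hab, he⟩ := List.mem_map.1 hp
      obtain ⟨C, hC, hab⟩ := List.mem_flatMap.1 hab
      obtain ⟨-, -, g, -⟩ := key hG h hC hab
      simp only [Prod.map_apply, Prod.mk.injEq] at he
      rw [← he.1, ← he.2]
      exact g
    · intro hd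
      obtain ⟨k, hk, hal⟩ := side_of_dart hG hd
      obtain ⟨r, hr, hrc⟩ := List.mem_map.1 ((h.mem k.2).2 hk)
      obtain ⟨i, hi, rfl⟩ := List.mem_iff_getElem.1 hr
      obtain ⟨a, ha, hsa⟩ : ∃ a, a < 2 * recs.length ∧ sideAt recs a = k := by
        obtain ⟨kb, kc⟩ := k
        cases kb with
        | true =>
          refine ⟨2 * i, by omega, ?_⟩
          unfold sideAt
          have e1 : 2 * i / 2 = i := by omega
          have e2 : 2 * i % 2 = 0 := by omega
          rw [e1, e2, List.getD_eq_getElem _ _ hi, hrc]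
          simp
        | false =>
          refine ⟨2 * i + 1, by omega, ?_⟩
          unfold sideAt
          have e1 : (2 * i + 1) / 2 = i := by omega
          have e2 : (2 * i + 1) % 2 = 1 := by omega
          rw [e1, e2, List.getD_eq_getElem _ _ hi, hrc]
          simp
      have hst : (sideStart recs).getD a none = some p := by
        rw [sideStart_spec recs ha, hsa]
        exact hal.1
      have hea : eS recs a = true := by unfold eS; rw [hst]; rfl
      have hva : vS recs a = p := by unfold vS; rw [hst]; rfl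
      obtain ⟨s, hs, hps, hqs⟩ := hal.2.1
      have hmem : a ∈ (cyclesM (sideNext recs)).flatten := by
        rw [hc3 a]
        refine ⟨ha, ?_⟩
        rw [hsa]
        intro h0
        rw [h0] at hs
        exact absurd hs (by simp)
      obtain ⟨C, hC, haC⟩ := List.mem_flatten.1 hmem
      obtain ⟨b, hab⟩ := exists_cyc (List.mem_filter.2 ⟨haC, hea⟩)
      obtain ⟨-, -, g1, g2⟩ := key hG h hC hab
      rw [hsa, hva] at g2
      rw [hva] at g1
      obtain ⟨s', hs', hps', hbs'⟩ := g2.2.1
      have hss : s' = s := by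
        rw [Option.mem_def] at hs hs'
        exact Option.some.inj (hs'.symm.trans hs)
      subst hss
      have hv : vS recs b = q := by
        refine edge_end_unique hG g1.1 hd.1 (sseg_mem hk.1 hs') hps' hbs' hqs ?_
        have d1 := g2.2.2
        have d2 := hal.2.2
        by_cases hkb : k.1 = true
        · rw [if_pos hkb] at d1 d2
          constructor
          · intro hlt; exact absurd hlt (not_lt.2 d1.le)
          · intro hlt; exact absurd hlt (not_lt.2 d2.le)
        · rw [if_neg hkb] at d1 d2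
          exact ⟨fun _ => d2, fun _ => d1⟩
      refine List.mem_map.2 ⟨(a, b), List.mem_flatMap.2 ⟨C, hC, hab⟩, ?_⟩
      simp [hva, hv]
  · rw [hflat]
    refine List.Nodup.map_on ?_ (List.Nodup.of_map _ hfst)
    rintro ⟨a, b⟩ hab ⟨a', b'⟩ hab' he
    obtain ⟨C, hC, h1⟩ := List.mem_flatMap.1 hab
    obtain ⟨C', hC', h1'⟩ := List.mem_flatMap.1 hab'
    obtain ⟨ha, hf, -, hal⟩ := key hG h hC h1
    obtain ⟨ha', hf', -, hal'⟩ := key hG h hC' h1'
    simp only [Prod.map_apply, Prod.mk.injEq] at he
    rw [← he.1, ← he.2] at hal'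
    have haa : a = a' := sideAt_inj h ha ha' (side_unique hG hf.1 hf'.1 hal hal')
    exact List.inj_on_of_nodup_map hfst hab hab' haa
  · intro l hl a ha
    rw [walks_eq] at hl
    obtain ⟨C, hC, rfl⟩ := List.mem_map.1 hl
    rw [cyc3_map] at ha
    obtain ⟨⟨i, j, k⟩, hijk, rfl⟩ := List.mem_map.1 ha
    obtain ⟨h1, h2⟩ := cyc3_pairs hijk
    obtain ⟨m, g1, g2, g3, g4, g5, g6⟩ := cyc_step hG h hC h1
    obtain ⟨-, -, -, hal⟩ := key hG h hC h2
    exact joined_of_turn hG g1 g2 g3 g4 g5 hal

end SFA
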